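import Mathlib
import Pool.Agent.H541R3.ART.Irr

/-!
# Definitions: induced functions, hyperelementary groups, Deligne's conjecture for Artin twists
-/

set_option autoImplicit false

namespace Pool.Agent.R389

open Pool.Agent.H541R3.ART Filter Topology

open Classical in
/-- extension by zero of a function on a subgroup -/
noncomputable def ext {k : Type*} [Field k] {G : Type} [Group G] (H : Subgroup G) (f : H → k)
    (y : G) : k :=
  if h : y ∈ H then f ⟨y, h⟩ else 0

/-- the function induced from a function on a subgroup: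
`(ind H f) g = |H|⁻¹ ∑_x f (x⁻¹ g x)`, where `f` is extended by zero outside `H` -/
noncomputable def ind {k : Type*} [Field k] {G : Type} [Group G] (H : Subgroup G) (f : H → k)
    (g : G) : k :=
  (Nat.card H : k)⁻¹ * ∑ᶠ x : G, ext H f (x⁻¹ * g * x)

/-- hyperelementary groups: for some prime `p` there is a normal cyclic subgroup of order prime to
`p` whose quotient is a `p`-group -/
def Hyper (U : Type) [Group U] : Prop :=
  ∃ p : ℕ, p.Prime ∧ ∃ c : U, (orderOf c).Coprime p ∧
    (∀ u : U, u * c * u⁻¹ ∈ Subgroup.zpowers c) ∧ ∀ u : U, ∃ k : ℕ, u ^ (p ^ k) ∈ Subgroup.zpowers c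

/-- `f` is the sum of `m χ` copies of `χ` over the irreducible complex characters `χ` of `G` -/
def IsDecomp {G : Type} [Group G] (f : G → ℂ) (m : (G → ℂ) → ℕ) : Prop :=
  ∀ g, f g = ∑ᶠ χ ∈ Irr G, (m χ : ℂ) * χ g

/-- **Deligne's conjecture at `c` for the `E`-valued character `f` of `G`.** There is one element
`e` of the coefficient field `E` such that for every embedding `τ` of `E` the L-function of `f`
at `τ` (the product of the `L τ χ` over the irreducible constituents `χ` of `τ ∘ f`) has at `c` the
value `τ e` times the period of `f` at `τ` (the product of the `P τ χ`). -/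
def Deligne {G : Type} [Group G] {E : Type} [Field E] (L : (E →+* ℂ) → (G → ℂ) → ℂ → ℂ)
    (P : (E →+* ℂ) → (G → ℂ) → ℂ) (c : ℂ) (f : G → E) : Prop :=
  ∃ e : E, ∀ (τ : E →+* ℂ) (m : (G → ℂ) → ℕ), IsDecomp (fun g => τ (f g)) m →
    Tendsto (fun s => ∏ᶠ χ ∈ Irr G, L τ χ s ^ m χ) (𝓝[≠] c)
      (𝓝 (τ e * ∏ᶠ χ ∈ Irr G, P τ χ ^ m χ))

end Pool.Agent.R389
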