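import Mathlib
import Pool.Agent.R389.Defs
import Pool.Agent.W446.AS.Virt
import Pool.Agent.H302R3.HypP

/-!
# Induced class functions
-/

set_option autoImplicit false
set_option linter.unusedSectionVars false

namespace Pool.Agent.R389

open Pool.Agent.H302R2 Pool.Agent.H302R3 Pool.Agent.H541R3.ART Pool.Agent.W446.AS



section basic

variable {k : Type*} [Field k] {G : Type} [Group G]

lemma ext_mem (H : Subgroup G) (f : H → k) {y : G} (h : y ∈ H) : ext H f y = f ⟨y, h⟩ := by
  rw [ext, dif_pos h]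

lemma ext_coe (H : Subgroup G) (f : H → k) (y : H) : ext H f (y : G) = f y := by
  rw [ext, dif_pos y.2]

lemma ext_not (H : Subgroup G) (f : H → k) {y : G} (h : y ∉ H) : ext H f y = 0 := by
  rw [ext, dif_neg h]

lemma ext_add (H : Subgroup G) (f f' : H → k) (y : G) :
    ext H (f + f') y = ext H f y + ext H f' y := by
  by_cases h : y ∈ H
  · rw [ext_mem H _ h, ext_mem H _ h, ext_mem H _ h]; rfl
  · rw [ext_not H _ h, ext_not H _ h, ext_not H _ h, add_zero]

lemma ext_mul (H : Subgroup G) (f : H → k) (F : G → k) (y : G) :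
    ext H (fun h => f h * F h) y = ext H f y * F y := by
  by_cases h : y ∈ H
  · rw [ext_mem H _ h, ext_mem H _ h]
  · rw [ext_not H _ h, ext_not H _ h, zero_mul]

variable [Finite G]

lemma ind_eq [Fintype G] (H : Subgroup G) (f : H → k) (g : G) :
    ind H f g = (Nat.card H : k)⁻¹ * ∑ x : G, ext H f (x⁻¹ * g * x) := by
  rw [ind, finsum_eq_sum_of_fintype]

lemma ind_add (H : Subgroup G) (f f' : H → k) : ind H (f + f') = ind H f + ind H f' := by
  classical
  have : Fintype G := Fintype.ofFinite G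
  funext g
  rw [Pi.add_apply, ind_eq, ind_eq, ind_eq, ← mul_add, ← Finset.sum_add_distrib]
  simp only [ext_add]

/-- induction as an additive map -/
noncomputable def indHom (H : Subgroup G) : (H → k) →+ (G → k) :=
  AddMonoidHom.mk' (ind H) (ind_add H)

lemma indHom_apply (H : Subgroup G) (f : H → k) : indHom H f = ind H f := rfl

lemma ind_zero (H : Subgroup G) : ind H (0 : H → k) = 0 := map_zero (indHom H)

lemma ind_neg (H : Subgroup G) (f : H → k) : ind H (-f) = - ind H f := map_neg (indHom H) f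

lemma ind_sub (H : Subgroup G) (f f' : H → k) : ind H (f - f') = ind H f - ind H f' :=
  map_sub (indHom H) f f'

lemma ind_class (H : Subgroup G) (f : H → k) (g y : G) : ind H f (y * g * y⁻¹) = ind H f g := by
  classical
  have : Fintype G := Fintype.ofFinite G
  rw [ind_eq, ind_eq, ← Equiv.sum_comp (Equiv.mulLeft y)]
  congr 1
  refine Finset.sum_congr rfl fun x _ => ?_
  congr 1
  simp only [Equiv.coe_mulLeft]
  group

/-- projection formula -/
lemma ind_mul (H : Subgroup G) (f : H → k) {F : G → k} (hF : ∀ g x : G, F (x * g * x⁻¹) = F g)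
    (g : G) : ind H (fun h => f h * F h) g = ind H f g * F g := by
  classical
  have : Fintype G := Fintype.ofFinite G
  rw [ind_eq, ind_eq, mul_assoc, Finset.sum_mul]
  congr 1
  refine Finset.sum_congr rfl fun x _ => ?_
  rw [ext_mul]
  congr 1
  have := hF g x⁻¹
  rwa [inv_inv] at this

/-- ring homomorphisms commute with induction -/
lemma ind_map {k' : Type*} [Field k'] (τ : k →+* k') (H : Subgroup G) (f : H → k) (g : G) :
    τ (ind H f g) = ind H (fun h => τ (f h)) g := by
  classical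
  have : Fintype G := Fintype.ofFinite G
  rw [ind_eq, ind_eq, map_mul, map_inv₀, map_natCast, map_sum]
  congr 1
  refine Finset.sum_congr rfl fun x _ => ?_
  by_cases h : x⁻¹ * g * x ∈ H
  · rw [ext_mem H _ h, ext_mem H _ h]
  · rw [ext_not H _ h, ext_not H _ h, map_zero]

end basic

section frob

variable {G : Type} [Group G] [Finite G]

lemma sum_ext [Fintype G] (H : Subgroup G) [Fintype H] (f : H → ℂ) (F : G → ℂ) :
    ∑ g : G, ext H f g * F g = ∑ h : H, f h * F h := by
  classical
  have h1 : ∀ h : H, f h * F h = (fun g : G => ext H f g * F g) h := by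
    intro h
    simp only [ext_coe]
  rw [Finset.sum_congr rfl (fun h _ => h1 h),
    ← Finset.sum_subtype (Finset.univ.filter fun g => g ∈ H) (by simp)
      (fun g : G => ext H f g * F g), Finset.sum_filter]
  refine Finset.sum_congr rfl fun g _ => ?_
  by_cases h : g ∈ H
  · rw [if_pos h]
  · rw [if_neg h, ext_not H f h, zero_mul]

/-- Frobenius reciprocity -/
lemma frob (H : Subgroup G) (f : H → ℂ) {F : G → ℂ} (hF : ∀ g x : G, F (x * g * x⁻¹) = F g) :
    pr (ind H f) F = pr f (fun h : H => F h) := by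
  classical
  have : Fintype G := Fintype.ofFinite G
  have : Fintype H := Fintype.ofFinite H
  have hG : (Nat.card G : ℂ) ≠ 0 := card_ne
  have hH : (Nat.card H : ℂ) ≠ 0 := card_ne
  rw [pr_eq, pr_eq]
  have h1 : ∀ g : G, ind H f g * F g⁻¹
      = (Nat.card H : ℂ)⁻¹ * ∑ x : G, ext H f (x⁻¹ * g * x) * F (x⁻¹ * g * x)⁻¹ := by
    intro g
    rw [ind_eq, mul_assoc, Finset.sum_mul]
    congr 1
    refine Finset.sum_congr rfl fun x _ => ?_
    congr 1
    have h2 : (x⁻¹ * g * x)⁻¹ = x⁻¹ * g⁻¹ * x⁻¹⁻¹ := by group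
    rw [h2, hF]
  rw [Finset.sum_congr rfl (fun g _ => h1 g), ← Finset.mul_sum, Finset.sum_comm]
  have h2 : ∀ x : G, ∑ g : G, ext H f (x⁻¹ * g * x) * F (x⁻¹ * g * x)⁻¹
      = ∑ h : H, f h * F (h : G)⁻¹ := by
    intro x
    rw [← sum_ext H f (fun g => F g⁻¹), ← Equiv.sum_comp (MulAut.conj x⁻¹).toEquiv
      (fun g => ext H f g * F g⁻¹)]
    refine Finset.sum_congr rfl fun g _ => ?_
    have h3 : (MulAut.conj x⁻¹).toEquiv g = x⁻¹ * g * x := by
      change x⁻¹ * g * x⁻¹⁻¹ = _
      rw [inv_inv]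
    rw [h3]
  rw [Finset.sum_congr rfl (fun x _ => h2 x), Finset.sum_const, Finset.card_univ, nsmul_eq_mul,
    ← Nat.card_eq_fintype_card]
  have h3 : ∑ h : H, f h * F (h : G)⁻¹ = ∑ h : H, f h * F ((h⁻¹ : H) : G) := by
    simp only [Subgroup.coe_inv]
  rw [h3]
  field_simp

lemma pr_comm (a b : G → ℂ) : pr a b = pr b a := by
  classical
  have : Fintype G := Fintype.ofFinite G
  rw [pr_eq, pr_eq]
  congr 1
  rw [← Equiv.sum_comp (Equiv.inv G)]
  refine Finset.sum_congr rfl fun g _ => ?_
  simp only [Equiv.inv_apply, inv_inv]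
  ring

/-- Frobenius reciprocity -/
lemma frob' (H : Subgroup G) (f : H → ℂ) {F : G → ℂ} (hF : ∀ g x : G, F (x * g * x⁻¹) = F g) :
    pr F (ind H f) = pr (fun h : H => F h) f := by
  rw [pr_comm, frob H f hF, pr_comm]

end frob

section trans

variable {k : Type*} [Field k] [CharZero k] {G : Type} [Group G] [Finite G]

/-- transport of a function on a subgroup of a subgroup -/
noncomputable def tr (H : Subgroup G) (K : Subgroup H) (f : K → k) : K.map H.subtype → k :=
  fun y => f ((K.equivMapOfInjective H.subtype H.subtype_injective).symm y)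

lemma ext_tr (H : Subgroup G) (K : Subgroup H) (f : K → k) (y : H) :
    ext (K.map H.subtype) (tr H K f) (y : G) = ext K f y := by
  by_cases h : y ∈ K
  · have h1 : (y : G) ∈ K.map H.subtype := ⟨y, h, rfl⟩
    rw [ext_mem _ _ h1, ext_mem _ _ h, tr]
    congr 1
    rw [MulEquiv.symm_apply_eq]
    rfl
  · have h1 : (y : G) ∉ K.map H.subtype := by
      rintro ⟨z, hz, hzy⟩
      apply h
      have : z = y := Subtype.ext hzy
      rwa [← this]
    rw [ext_not _ _ h1, ext_not _ _ h]

lemma ext_tr_not (H : Subgroup G) (K : Subgroup H) (f : K → k) {y : G} (h : y ∉ H) :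
    ext (K.map H.subtype) (tr H K f) y = 0 := by
  rw [ext_not]
  rintro ⟨z, _, rfl⟩
  exact h z.2

/-- transitivity of induction -/
lemma ind_ind (H : Subgroup G) (K : Subgroup H) (f : K → k) :
    ind H (ind K f) = ind (K.map H.subtype) (tr H K f) := by
  classical
  have : Fintype G := Fintype.ofFinite G
  have : Fintype H := Fintype.ofFinite H
  have hc : Nat.card (K.map H.subtype) = Nat.card K :=
    (Nat.card_congr (K.equivMapOfInjective H.subtype H.subtype_injective).toEquiv).symm
  have hH : (Nat.card H : k) ≠ 0 := by exact_mod_cast Nat.card_pos.ne'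
  have hK : (Nat.card K : k) ≠ 0 := by exact_mod_cast Nat.card_pos.ne'
  funext g
  rw [ind_eq, ind_eq, hc]
  have h1 : ∀ x : G, ext H (ind K f) (x⁻¹ * g * x)
      = (Nat.card K : k)⁻¹ * ∑ y : H, ext (K.map H.subtype) (tr H K f)
        ((x * y)⁻¹ * g * (x * y)) := by
    intro x
    have h3 : ∀ y : H, (x * (y : G))⁻¹ * g * (x * y) = (y : G)⁻¹ * (x⁻¹ * g * x) * y := by
      intro y; group
    by_cases h : x⁻¹ * g * x ∈ H
    · rw [ext_mem _ _ h, ind_eq]
      congr 1
      refine Finset.sum_congr rfl fun y _ => ?_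
      rw [h3]
      exact (ext_tr H K f (y⁻¹ * ⟨x⁻¹ * g * x, h⟩ * y)).symm
    · rw [ext_not _ _ h, Finset.sum_eq_zero, mul_zero]
      intro y _
      rw [h3, ext_tr_not]
      intro h4
      apply h
      have h5 := H.mul_mem (H.mul_mem y.2 h4) (H.inv_mem y.2)
      have h6 : (y : G) * ((y : G)⁻¹ * (x⁻¹ * g * x) * y) * (y : G)⁻¹ = x⁻¹ * g * x := by group
      rwa [h6] at h5
  rw [Finset.sum_congr rfl (fun x _ => h1 x), ← Finset.mul_sum, Finset.sum_comm]
  have h2 : ∀ y : H, ∑ x : G, ext (K.map H.subtype) (tr H K f) ((x * y)⁻¹ * g * (x * y))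
      = ∑ x : G, ext (K.map H.subtype) (tr H K f) (x⁻¹ * g * x) := by
    intro y
    exact Equiv.sum_comp (Equiv.mulRight (y : G))
      (fun x => ext (K.map H.subtype) (tr H K f) (x⁻¹ * g * x))
  rw [Finset.sum_congr rfl (fun y _ => h2 y), Finset.sum_const, Finset.card_univ, nsmul_eq_mul,
    ← Nat.card_eq_fintype_card]
  field_simp

/-- conjugate subgroups give the same induced function -/
lemma ind_conj (H H' : Subgroup G) (y : G) (hH' : ∀ z, z ∈ H' ↔ y * z * y⁻¹ ∈ H) (f : H → k)
    (f' : H' → k) (hf : ∀ z (hz : z ∈ H'), f' ⟨z, hz⟩ = f ⟨y * z * y⁻¹, (hH' z).mp hz⟩) :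
    ind H' f' = ind H f := by
  classical
  have : Fintype G := Fintype.ofFinite G
  have hc : Nat.card H' = Nat.card H := by
    refine Nat.card_congr ⟨fun z => ⟨y * z * y⁻¹, (hH' z).mp z.2⟩,
      fun z => ⟨y⁻¹ * z * y, (hH' _).mpr ?_⟩, ?_, ?_⟩
    · have : y * (y⁻¹ * (z : G) * y) * y⁻¹ = z := by group
      rw [this]; exact z.2
    · intro z
      apply Subtype.ext
      change y⁻¹ * (y * (z : G) * y⁻¹) * y = z
      group
    · intro z
      apply Subtype.ext
      change y * (y⁻¹ * (z : G) * y) * y⁻¹ = z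
      group
  have hext : ∀ z : G, ext H' f' z = ext H f (y * z * y⁻¹) := by
    intro z
    by_cases h : z ∈ H'
    · rw [ext_mem _ _ h, ext_mem _ _ ((hH' z).mp h), hf]
    · rw [ext_not _ _ h, ext_not _ _ (fun h' => h ((hH' z).mpr h'))]
  funext g
  rw [ind_eq, ind_eq, hc]
  congr 1
  rw [← Equiv.sum_comp (Equiv.mulRight y⁻¹) (fun x => ext H f (x⁻¹ * g * x))]
  refine Finset.sum_congr rfl fun x _ => ?_
  rw [hext]
  congr 1
  simp only [Equiv.coe_mulRight]
  group

end trans

end Pool.Agent.R389
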