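import Mathlib
import Pool.Agent.R389.Ind

/-!
# Completeness of the irreducible characters
-/

set_option autoImplicit false
set_option linter.unusedSectionVars false

namespace Pool.Agent.R389

open Pool.Agent.H302R2 Pool.Agent.H302R3 Pool.Agent.H541R3.ART Pool.Agent.W446.AS

variable {G : Type} [Group G] [Finite G]

/-- a class function orthogonal to all irreducible characters acts by zero -/
lemma op_zero [Fintype G] {f : G → ℂ} (hf : ∀ g x : G, f (x * g * x⁻¹) = f g)
    (h0 : ∀ χ ∈ Irr G, pr f χ = 0) : ∀ (n : ℕ) {V : Type} [AddCommGroup V] [Module ℂ V]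
    [FiniteDimensional ℂ V] (ρ : Representation ℂ G V), Module.finrank ℂ V = n →
    ∀ v : V, ∑ g : G, f g • ρ g⁻¹ v = 0 := by
  intro n
  induction n using Nat.strong_induction_on with
  | _ n ih =>
    intro V _ _ _ ρ hn v
    by_cases hV : Nontrivial V
    swap
    · rw [not_nontrivial_iff_subsingleton] at hV
      exact Subsingleton.elim _ _
    by_cases hI : Irred ρ
    · obtain ⟨c, hc, hc1⟩ := hI.class_op hf
      rw [hc]
      rw [sum_eq_pr, h0 _ (irr_of_irred hI), zero_mul] at hc1
      have h1 : (Module.finrank ℂ V : ℂ) ≠ 0 := by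
        exact_mod_cast (Module.finrank_pos (R := ℂ) (M := V)).ne'
      rcases mul_eq_zero.mp hc1.symm with h2 | h2
      · rw [h2, zero_smul]
      · exact absurd h2 h1
    have : ∃ W : Submodule ℂ V, (∀ g, ∀ v ∈ W, ρ g v ∈ W) ∧ W ≠ ⊥ ∧ W ≠ ⊤ := by
      by_contra hcon
      push Not at hcon
      apply hI
      refine ⟨hV, fun W hW => ?_⟩
      by_cases h : W = ⊥
      · left; exact h
      · right; exact hcon W hW h
    obtain ⟨W, hW, hb, ht⟩ := this
    let W1 : Subrepresentation ρ := ⟨W, fun g v hv => hW g v hv⟩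
    have : NeZero (Nat.card G : ℂ) := ⟨by exact_mod_cast Nat.card_pos.ne'⟩
    obtain ⟨W2, hc⟩ := exists_isCompl W1
    have hc1 : IsCompl W1.toSubmodule W2.toSubmodule := by
      refine ⟨?_, ?_⟩
      · rw [disjoint_iff]
        have := hc.inf_eq_bot
        exact congrArg Subrepresentation.toSubmodule this
      · rw [codisjoint_iff]
        have := hc.sup_eq_top
        exact congrArg Subrepresentation.toSubmodule this
    have hb2 : W2.toSubmodule ≠ ⊤ := by
      intro h
      apply hb
      have h1 := hc1.inf_eq_bot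
      rw [h, inf_top_eq] at h1
      exact h1
    have hlt1 : Module.finrank ℂ W1.toSubmodule < n := by
      rw [← hn]
      exact Submodule.finrank_lt ht
    have hlt2 : Module.finrank ℂ W2.toSubmodule < n := by
      rw [← hn]
      exact Submodule.finrank_lt hb2
    have h1 := ih _ hlt1 W1.toRepresentation rfl
    have h2 := ih _ hlt2 W2.toRepresentation rfl
    have hv : v ∈ W1.toSubmodule ⊔ W2.toSubmodule := by
      rw [hc1.sup_eq_top]; exact Submodule.mem_top
    obtain ⟨a, ha, b, hb', rfl⟩ := Submodule.mem_sup.mp hv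
    have h3 := congrArg (W1.toSubmodule.subtype) (h1 ⟨a, ha⟩)
    have h4 := congrArg (W2.toSubmodule.subtype) (h2 ⟨b, hb'⟩)
    rw [map_sum, map_zero] at h3 h4
    have h5 : ∑ g : G, f g • ρ g⁻¹ (a + b)
        = ∑ g : G, f g • ρ g⁻¹ a + ∑ g : G, f g • ρ g⁻¹ b := by
      rw [← Finset.sum_add_distrib]
      refine Finset.sum_congr rfl fun g _ => ?_
      rw [map_add, smul_add]
    rw [h5]
    have h6 : ∑ g : G, f g • ρ g⁻¹ a = 0 := h3
    have h7 : ∑ g : G, f g • ρ g⁻¹ b = 0 := h4
    rw [h6, h7, add_zero]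

/-- the right regular representation -/
def rreg (G : Type) [Group G] : Representation ℂ G (G → ℂ) where
  toFun g :=
    { toFun := fun φ x => φ (x * g)
      map_add' := fun _ _ => rfl
      map_smul' := fun _ _ => rfl }
  map_one' := by
    ext φ x
    simp
  map_mul' a b := by
    refine LinearMap.ext fun φ => ?_
    funext x
    simp [mul_assoc]

/-- class functions orthogonal to all irreducible characters vanish -/
lemma class_zero {f : G → ℂ} (hf : ∀ g x : G, f (x * g * x⁻¹) = f g)
    (h0 : ∀ χ ∈ Irr G, pr f χ = 0) : f = 0 := by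
  classical
  have : Fintype G := Fintype.ofFinite G
  funext y
  have h1 := op_zero hf h0 _ (rreg G) rfl (fun x => if x = y⁻¹ then 1 else 0)
  have h2 := congrFun h1 1
  rw [Finset.sum_apply] at h2
  have h3 : ∀ g : G, (f g • (rreg G g⁻¹) (fun x => if x = y⁻¹ then (1 : ℂ) else 0)) 1
      = if g = y then f g else 0 := by
    intro g
    change f g * (if (1 : G) * g⁻¹ = y⁻¹ then (1 : ℂ) else 0) = _
    rw [one_mul, mul_ite, mul_one, mul_zero]
    simp only [inv_inj]
  rw [Finset.sum_congr rfl (fun g _ => h3 g), Finset.sum_ite_eq' Finset.univ y f,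
    if_pos (Finset.mem_univ y)] at h2
  exact h2

lemma pr_sum_irr (n : (G → ℂ) → ℂ) {χ : G → ℂ} (hχ : χ ∈ Irr G) :
    pr (fun g => ∑ ψ ∈ irrF G, n ψ * ψ g) χ = n χ := by
  classical
  have : Fintype G := Fintype.ofFinite G
  rw [pr_eq]
  simp_rw [Finset.sum_mul]
  rw [Finset.sum_comm, Finset.sum_eq_single χ]
  · simp_rw [mul_assoc]
    rw [← Finset.mul_sum, pair_self hχ]
    have : (Nat.card G : ℂ) ≠ 0 := card_ne
    field_simp
  · intro χ' h' hne
    simp_rw [mul_assoc]
    rw [← Finset.mul_sum, pair_ne (mem_irrF.mp h') hχ hne, mul_zero]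
  · intro h
    exact absurd (mem_irrF.mpr hχ) h

lemma pr_sub (a b χ : G → ℂ) : pr (a - b) χ = pr a χ - pr b χ := by
  rw [sub_eq_add_neg, pr_add, pr_neg, sub_eq_add_neg]

/-- class functions are combinations of irreducible characters -/
lemma class_expand {f : G → ℂ} (hf : ∀ g x : G, f (x * g * x⁻¹) = f g) (g : G) :
    f g = ∑ χ ∈ irrF G, pr f χ * χ g := by
  have h1 : f - (fun g => ∑ χ ∈ irrF G, pr f χ * χ g) = 0 := by
    apply class_zero
    · intro g x
      rw [Pi.sub_apply, Pi.sub_apply, hf]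
      congr 1
      exact Finset.sum_congr rfl fun χ hχ => by rw [Irr.conj (mem_irrF.mp hχ)]
    · intro χ hχ
      rw [pr_sub, pr_sum_irr _ hχ, sub_self]
  have h2 := congrFun h1 g
  rw [Pi.sub_apply] at h2
  exact sub_eq_zero.mp h2

/-- a class function with integral multiplicities is a virtual character -/
lemma virt_of_int {f : G → ℂ} (hf : ∀ g x : G, f (x * g * x⁻¹) = f g)
    (h : ∀ χ ∈ Irr G, ∃ n : ℤ, pr f χ = n) : Virt f := by
  classical
  choose! n hn using h
  have h1 : f = theta n := by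
    funext g
    rw [class_expand hf g, theta]
    exact Finset.sum_congr rfl fun χ hχ => by rw [hn χ (mem_irrF.mp hχ)]
  rw [h1]
  exact theta_virt n

lemma Virt.pr_int' {θ η : G → ℂ} (hθ : Virt θ) (hη : Virt η) : ∃ k : ℤ, pr θ η = k := by
  classical
  induction hη using AddSubgroup.closure_induction with
  | mem χ hχ => exact hθ.pr_int hχ
  | zero => exact ⟨0, by rw [pr_comm, pr_zero_left]; simp⟩
  | add a b _ _ ha hb =>
    obtain ⟨k, hk⟩ := ha
    obtain ⟨l, hl⟩ := hb
    exact ⟨k + l, by rw [pr_comm, pr_add, pr_comm a, pr_comm b, hk, hl]; push_cast; rfl⟩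
  | neg a _ ha =>
    obtain ⟨k, hk⟩ := ha
    exact ⟨-k, by rw [pr_comm, pr_neg, pr_comm a, hk]; push_cast; rfl⟩

/-- inducing virtual characters -/
lemma virt_ind (H : Subgroup G) {f : H → ℂ} (hf : Virt f) : Virt (ind H f) := by
  refine virt_of_int (fun g x => ind_class H f g x) fun χ hχ => ?_
  rw [frob H f (Irr.conj hχ)]
  exact Virt.pr_int' hf (Virt.comp (AddSubgroup.subset_closure hχ) H.subtype)

/-- linear characters are irreducible -/
lemma lin_irr {H : Type} [Group H] [Finite H] (ψ : H →* ℂˣ) : (fun h => ((ψ h : ℂˣ) : ℂ)) ∈ Irr H := by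
  have h1 : Irred (linRep ψ) := by
    refine ⟨inferInstance, fun W _ => ?_⟩
    exact eq_bot_or_eq_top W
  have h2 := irr_of_irred h1
  have h3 : (linRep ψ).character = fun h => ((ψ h : ℂˣ) : ℂ) := funext fun h => linRep_char ψ h
  rwa [h3] at h2

end Pool.Agent.R389
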