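import Mathlib
import Pool.Agent.R389.Compl
import Pool.Agent.W446.AS.Clif

/-!
# Hyperelementary groups are monomial
-/

set_option autoImplicit false
set_option linter.unusedSectionVars false

namespace Pool.Agent.R389

open Pool.Agent.H302R2 Pool.Agent.H302R3 Pool.Agent.H541R3.ART Pool.Agent.W446.AS

/-- `χ` is induced from a linear character -/
def Mono {G : Type} [Group G] (χ : G → ℂ) : Prop :=
  ∃ (K : Subgroup G) (ψ : K →* ℂˣ), χ = ind K (fun h => ((ψ h : ℂˣ) : ℂ))

variable {G : Type} [Group G] [Finite G]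

/-- a system of imprimitivity gives an induced character -/
lemma imprim_char {V : Type} [AddCommGroup V] [Module ℂ V] [FiniteDimensional ℂ V]
    {ρ : Representation ℂ G V} (hρ : Irred ρ) (H : Subgroup G) (P : V →ₗ[ℂ] V)
    (hP2 : ∀ v, P (P v) = P v) (hP0 : P ≠ 0) (hPH : ∀ h ∈ H, ∀ v, P (ρ h v) = ρ h (P v))
    (hPG : ∀ g, g ∉ H → ∀ v, P (ρ g (P v)) = 0) :
    ∃ ψ ∈ Irr H, ρ.character = ind H ψ := by
  classical
  have : Fintype G := Fintype.ofFinite G
  have : Fintype H := Fintype.ofFinite H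
  have hfix : ∀ v ∈ LinearMap.range P, P v = v := by
    rintro v ⟨w, rfl⟩
    exact hP2 w
  let σ : Representation ℂ H (LinearMap.range P) :=
    { toFun := fun h => (ρ h).restrict (by
        rintro v ⟨w, rfl⟩
        exact ⟨ρ h w, hPH h h.2 w⟩)
      map_one' := by
        ext v
        simp
      map_mul' := by
        intro a b
        ext v
        simp }
  have hσ : ∀ (h : H) (v : LinearMap.range P), ((σ h v : LinearMap.range P) : V) = ρ h v :=
    fun h v => rfl
  have hσI : Irred σ := by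
    refine ⟨?_, ?_⟩
    · by_contra hcon
      rw [not_nontrivial_iff_subsingleton] at hcon
      apply hP0
      ext v
      have h1 : (⟨P v, ⟨v, rfl⟩⟩ : LinearMap.range P) = 0 := Subsingleton.elim _ _
      have h2 := congrArg Subtype.val h1
      simpa using h2
    · intro U hU
      by_cases hU0 : U = ⊥
      · left; exact hU0
      right
      let U' : Submodule ℂ V :=
        { carrier := {v | ∀ g : G, ∃ u ∈ U, P (ρ g v) = u}
          add_mem' := by
            intro a b ha hb g
            obtain ⟨u, hu, h1⟩ := ha g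
            obtain ⟨w, hw, h2⟩ := hb g
            exact ⟨u + w, U.add_mem hu hw, by rw [map_add, map_add, h1, h2]; rfl⟩
          zero_mem' := by
            intro g
            exact ⟨0, U.zero_mem, by rw [map_zero, map_zero]; rfl⟩
          smul_mem' := by
            intro c a ha g
            obtain ⟨u, hu, h1⟩ := ha g
            exact ⟨c • u, U.smul_mem c hu, by rw [map_smul, map_smul, h1]; rfl⟩ }
      have hU' : ∀ v : V, v ∈ U' ↔ ∀ g : G, ∃ u ∈ U, P (ρ g v) = u := fun v => Iff.rfl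
      rcases hρ.2 U' (by
        intro x v hv g
        obtain ⟨u, hu, h1⟩ := hv (g * x)
        refine ⟨u, hu, ?_⟩
        rw [map_mul, Module.End.mul_apply] at h1
        exact h1) with h | h
      · exfalso
        apply hU0
        rw [eq_bot_iff]
        intro u hu
        have h1 : (u : V) ∈ U' := by
          intro g
          by_cases hg : g ∈ H
          · refine ⟨σ ⟨g, hg⟩ u, hU _ _ hu, ?_⟩
            rw [hPH g hg, hfix _ u.2, hσ]
          · refine ⟨0, U.zero_mem, ?_⟩
            have := hPG g hg u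
            rw [hfix _ u.2] at this
            rw [this]
            rfl
        rw [h, Submodule.mem_bot] at h1
        rw [Submodule.mem_bot]
        exact Subtype.ext h1
      · rw [eq_top_iff]
        intro v _
        have h1 : (v : V) ∈ U' := by rw [h]; exact Submodule.mem_top
        obtain ⟨u, hu, h2⟩ := h1 1
        rw [map_one, Module.End.one_apply, hfix _ v.2] at h2
        have h3 : v = u := Subtype.ext h2
        rw [h3]; exact hu
  refine ⟨σ.character, irr_of_irred hσI, ?_⟩
  -- the averaging operator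
  let T : V →ₗ[ℂ] V := ∑ x : G, ρ x * P * ρ x⁻¹
  have hT : ∀ v, T v = ∑ x : G, ρ x (P (ρ x⁻¹ v)) := by
    intro v
    simp only [T, LinearMap.sum_apply, Module.End.mul_apply]
  obtain ⟨c, hc⟩ := hρ.scalar T (by
    intro g v
    rw [hT, hT, map_sum, ← Equiv.sum_comp (Equiv.mulLeft g)
      (fun x => ρ x (P (ρ x⁻¹ (ρ g v))))]
    refine Finset.sum_congr rfl fun x _ => ?_
    simp only [Equiv.coe_mulLeft]
    rw [map_mul, Module.End.mul_apply, ← Module.End.mul_apply (ρ (g * x)⁻¹), ← map_mul]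
    congr 4
    group)
  have hcH : c = Nat.card H := by
    have hn2 := hσI.1
    obtain ⟨w, hw⟩ := exists_ne (0 : LinearMap.range P)
    have h1 := congrArg P (hc (w : V))
    rw [map_smul, hfix _ w.2, hT, map_sum] at h1
    have h2 : ∀ x : G, P (ρ x (P (ρ x⁻¹ (w : V)))) = if x ∈ H then (w : V) else 0 := by
      intro x
      by_cases hx : x ∈ H
      · rw [if_pos hx, hPH _ (H.inv_mem hx), hfix _ w.2]
        have h6 : ρ x (ρ x⁻¹ (w : V)) = w := by
          rw [← Module.End.mul_apply, ← map_mul, mul_inv_cancel, map_one, Module.End.one_apply]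
        rw [h6, hfix _ w.2]
      · rw [if_neg hx, hPG x hx]
    rw [Finset.sum_congr rfl (fun x _ => h2 x), ← Finset.sum_filter, Finset.sum_const] at h1
    have h3 : (Finset.univ.filter fun x => x ∈ H).card = Nat.card H := by
      rw [← Fintype.card_subtype, ← Nat.card_eq_fintype_card]
    rw [h3, ← Nat.cast_smul_eq_nsmul ℂ] at h1
    have h4 : (c - Nat.card H) • (w : V) = 0 := by rw [sub_smul, h1, sub_self]
    rcases smul_eq_zero.mp h4 with h5 | h5
    · exact sub_eq_zero.mp h5
    · exact absurd (Subtype.ext h5) hw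
  have hTc : T = c • (1 : V →ₗ[ℂ] V) := by
    ext v
    rw [hc v]
    rfl
  have key : ∀ y : G, LinearMap.trace ℂ V (ρ y * P) = ext H σ.character y := by
    intro y
    by_cases hy : y ∈ H
    · rw [ext_mem _ _ hy]
      have h1 := LinearMap.trace_restrict_eq_of_forall_mem (LinearMap.range P) (ρ y * P) (by
        intro v
        rw [Module.End.mul_apply, ← hPH y hy]
        exact ⟨_, rfl⟩)
      rw [← h1]
      change LinearMap.trace ℂ _ _ = LinearMap.trace ℂ _ _
      congr 1
      ext v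
      rw [LinearMap.coe_restrict_apply, Module.End.mul_apply, hfix _ v.2]
      rfl
    · rw [ext_not _ _ hy]
      have h1 : ρ y * P = (ρ y * P) * P := by
        ext v
        simp only [Module.End.mul_apply, hP2]
      rw [h1, LinearMap.trace_mul_comm]
      have h2 : P * (ρ y * P) = 0 := by
        ext v
        simp only [Module.End.mul_apply]
        rw [hPG y hy]
        rfl
      rw [h2, map_zero]
  funext g
  rw [ind_eq]
  have h1 : ∀ x : G, ext H σ.character (x⁻¹ * g * x)
      = LinearMap.trace ℂ V (ρ g * (ρ x * P * ρ x⁻¹)) := by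
    intro x
    rw [← key]
    have h2 : ρ (x⁻¹ * g * x) * P = ρ x⁻¹ * (ρ g * (ρ x * P)) := by
      rw [map_mul, map_mul]
      simp only [mul_assoc]
    rw [h2, LinearMap.trace_mul_comm, mul_assoc]
  rw [Finset.sum_congr rfl (fun x _ => h1 x), ← map_sum, ← Finset.mul_sum]
  change _ = (Nat.card H : ℂ)⁻¹ * LinearMap.trace ℂ V (ρ g * T)
  rw [hTc, mul_smul_comm, mul_one, map_smul, hcH, smul_eq_mul, ← mul_assoc,
    inv_mul_cancel₀ card_ne, one_mul]
  rfl

/-- Clifford reduction -/
theorem clifford_char {V : Type} [AddCommGroup V] [Module ℂ V] [FiniteDimensional ℂ V]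
    {ρ : Representation ℂ G V} (hρ : Irred ρ) (hf : ∀ g, ρ g = 1 → g = 1) (A : Subgroup G)
    [A.Normal] (hA : ∀ a b : A, a * b = b * a) (hc : ¬ A ≤ Subgroup.center G) :
    ∃ H : Subgroup G, H ≠ ⊤ ∧ ∃ ψ ∈ Irr H, ρ.character = ind H ψ := by
  classical
  have : Fintype A := Fintype.ofFinite A
  have hcA : (Nat.card A : ℂ) ≠ 0 := card_ne
  obtain ⟨μ, v₀, hv₀, hμ⟩ := exists_weight hA (ρ.comp A.subtype) hρ.1
  have hμ' : ∀ a : A, ρ a v₀ = ((μ a : ℂˣ) : ℂ) • v₀ := hμ
  let H : Subgroup G :=
    { carrier := {g | ∀ a : A, μ (MulAut.conjNormal g a) = μ a}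
      mul_mem' := by
        intro x y hx hy a
        rw [map_mul, MulAut.mul_apply, hx, hy]
      one_mem' := by
        intro a
        rw [map_one, MulAut.one_apply]
      inv_mem' := by
        intro x hx a
        have h1 := hx (MulAut.conjNormal x⁻¹ a)
        rw [← MulAut.mul_apply, ← map_mul, mul_inv_cancel, map_one, MulAut.one_apply] at h1
        exact h1.symm }
  have hH : ∀ g, g ∈ H ↔ ∀ a : A, μ (MulAut.conjNormal g a) = μ a := fun g => Iff.rfl
  let P : V →ₗ[ℂ] V := (Nat.card A : ℂ)⁻¹ • ∑ a : A, (((μ a)⁻¹ : ℂˣ) : ℂ) • ρ a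
  have hP : ∀ v, P v = (Nat.card A : ℂ)⁻¹ • ∑ a : A, (((μ a)⁻¹ : ℂˣ) : ℂ) • ρ a v := by
    intro v
    simp [P, LinearMap.sum_apply]
  have hPw : ∀ v, (∀ a : A, ρ a v = ((μ a : ℂˣ) : ℂ) • v) → P v = v := by
    intro v hv
    rw [hP]
    have h1 : ∀ a : A, (((μ a)⁻¹ : ℂˣ) : ℂ) • ρ a v = v := by
      intro a
      rw [hv, smul_smul, ← Units.val_mul, inv_mul_cancel, Units.val_one, one_smul]
    rw [Finset.sum_congr rfl (fun a _ => h1 a), Finset.sum_const, Finset.card_univ,
      ← Nat.card_eq_fintype_card, ← Nat.cast_smul_eq_nsmul ℂ, smul_smul, inv_mul_cancel₀ hcA,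
      one_smul]
  have hwP : ∀ (a : A) (v : V), ρ a (P v) = ((μ a : ℂˣ) : ℂ) • P v := by
    intro a v
    rw [hP, map_smul, map_sum, smul_comm ((μ a : ℂˣ) : ℂ) ((Nat.card A : ℂ)⁻¹)]
    congr 1
    rw [Finset.smul_sum, ← Equiv.sum_comp (Equiv.mulLeft a) (fun b : A => ((μ a : ℂˣ) : ℂ) •
      (((μ b)⁻¹ : ℂˣ) : ℂ) • ρ b v)]
    refine Finset.sum_congr rfl fun b _ => ?_
    rw [map_smul, Equiv.coe_mulLeft, map_mul, mul_inv_rev, smul_smul, ← Units.val_mul,
      mul_comm (μ b)⁻¹, ← mul_assoc, mul_inv_cancel, one_mul, Subgroup.coe_mul, map_mul,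
      Module.End.mul_apply]
  have hPc : ∀ (g : G), g ∈ H → ∀ v, P (ρ g v) = ρ g (P v) := by
    intro g hg v
    rw [hP, hP, map_smul, map_sum]
    congr 1
    rw [← Equiv.sum_comp (MulAut.conjNormal g).toEquiv (fun b : A =>
      (((μ b)⁻¹ : ℂˣ) : ℂ) • ρ b (ρ g v))]
    refine Finset.sum_congr rfl fun b _ => ?_
    change (((μ (MulAut.conjNormal g b))⁻¹ : ℂˣ) : ℂ) • ρ (MulAut.conjNormal g b : A) (ρ g v) = _
    rw [map_smul, (hH g).mp hg, ← Module.End.mul_apply,
      ← Module.End.mul_apply, ← map_mul, ← map_mul, MulAut.conjNormal_apply,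
      inv_mul_cancel_right]
  have hAH : ∀ a : A, (a : G) ∈ H := by
    intro a
    rw [hH]
    intro b
    have h1 : MulAut.conjNormal (a : G) b = b := by
      apply Subtype.ext
      rw [MulAut.conjNormal_apply]
      have := congrArg Subtype.val (hA a b)
      simp only [Subgroup.coe_mul] at this
      rw [this, mul_inv_cancel_right]
    rw [h1]
  have hPG : ∀ g, g ∉ H → ∀ v, P (ρ g (P v)) = 0 := by
    intro g hg v
    have h0 : ∃ a : A, μ (MulAut.conjNormal g⁻¹ a) ≠ μ a := by
      by_contra hcon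
      push Not at hcon
      apply hg
      have h1 : g⁻¹ ∈ H := hcon
      simpa using H.inv_mem h1
    obtain ⟨a, ha⟩ := h0
    have h1 : ρ a (ρ g (P v)) = ((μ (MulAut.conjNormal g⁻¹ a) : ℂˣ) : ℂ) • ρ g (P v) := by
      have h2 : (a : G) * g = g * (MulAut.conjNormal g⁻¹ a : A) := by
        rw [MulAut.conjNormal_apply]
        group
      rw [← Module.End.mul_apply, ← map_mul, h2, map_mul, Module.End.mul_apply, hwP, map_smul]
    have h2 := hPc a (hAH a) (ρ g (P v))
    rw [h1, map_smul, hwP] at h2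
    have h3 : (((μ (MulAut.conjNormal g⁻¹ a) : ℂˣ) : ℂ) - ((μ a : ℂˣ) : ℂ)) • P (ρ g (P v)) = 0 := by
      rw [sub_smul, h2, sub_self]
    rcases smul_eq_zero.mp h3 with h4 | h4
    · exact absurd (Units.ext (sub_eq_zero.mp h4)) ha
    · exact h4
  have hP0 : P v₀ = v₀ := hPw v₀ hμ'
  refine ⟨H, ?_, imprim_char hρ H P (fun v => hPw _ fun a => hwP a v) ?_
    (fun h hh v => hPc h hh v) hPG⟩
  · intro htop
    apply hc
    have hall : ∀ g : G, g ∈ H := fun g => by rw [htop]; exact Subgroup.mem_top g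
    obtain ⟨c, hcP⟩ := hρ.scalar P (fun g v => hPc g (hall g) v)
    have hc1 : c = 1 := by
      have h1 := hcP v₀
      rw [hP0] at h1
      have h2 : (c - 1) • v₀ = 0 := by rw [sub_smul, one_smul, ← h1, sub_self]
      rcases smul_eq_zero.mp h2 with h3 | h3
      · exact sub_eq_zero.mp h3
      · exact absurd h3 hv₀
    have hsc : ∀ (a : A) (v : V), ρ a v = ((μ a : ℂˣ) : ℂ) • v := by
      intro a v
      have h1 := hwP a v
      rw [hcP, hc1, one_smul] at h1
      exact h1
    intro a ha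
    rw [Subgroup.mem_center_iff]
    intro g
    have h1 : ρ (g * a * g⁻¹ * a⁻¹) = 1 := by
      refine LinearMap.ext fun v => ?_
      rw [map_mul, map_mul, map_mul, Module.End.mul_apply, Module.End.mul_apply,
        Module.End.mul_apply, Module.End.one_apply]
      have h2 := hsc (⟨a, ha⟩⁻¹ : A) v
      have h3 := hsc (⟨a, ha⟩ : A)
      simp only [Subgroup.coe_inv] at h2
      rw [h2, map_smul]
      simp only at h3
      rw [h3, map_smul, map_smul, smul_smul, ← Units.val_mul, map_inv, mul_inv_cancel, Units.val_one,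
        one_smul, ← Module.End.mul_apply, ← map_mul, mul_inv_cancel, map_one,
        Module.End.one_apply]
    have h4 := hf _ h1
    have h5 : g * a * g⁻¹ = a := mul_inv_eq_one.mp h4
    exact mul_inv_eq_iff_eq_mul.mp h5
  · intro h
    rw [h] at hP0
    exact hv₀ hP0.symm

/-- induction from a preimage -/
lemma ind_comap {Y : Type} [Group Y] [Finite Y] {π : G →* Y} (hπ : Function.Surjective π)
    (K : Subgroup Y) (f : K → ℂ) :
    (fun g => ind K f (π g)) = ind (K.comap π) (fun h => f ⟨π h, h.2⟩) := by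
  classical
  have : Fintype G := Fintype.ofFinite G
  have : Fintype Y := Fintype.ofFinite Y
  have hc : Nat.card (K.comap π) = Nat.card π.ker * Nat.card K := by
    have : Fintype (K.comap π) := Fintype.ofFinite _
    have : Fintype K := Fintype.ofFinite _
    let π' : K.comap π →* K :=
      { toFun := fun h => ⟨π h, h.2⟩
        map_one' := by apply Subtype.ext; simp
        map_mul' := by intro a b; apply Subtype.ext; simp }
    have hπ' : Function.Surjective π' := by
      rintro ⟨y, hy⟩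
      obtain ⟨g, rfl⟩ := hπ y
      exact ⟨⟨g, hy⟩, rfl⟩
    have h1 : Nat.card (K.comap π) = Nat.card π'.ker * Nat.card K := by
      rw [← Nat.card_congr (QuotientGroup.quotientKerEquivOfSurjective π' hπ').toEquiv, mul_comm]
      exact Subgroup.card_eq_card_quotient_mul_card_subgroup _
    rw [h1]
    congr 1
    refine Nat.card_congr ⟨fun z => ⟨z.1, ?_⟩, fun z => ⟨⟨z.1, ?_⟩, ?_⟩, ?_, ?_⟩
    · have := z.2
      rw [MonoidHom.mem_ker] at this ⊢
      exact congrArg Subtype.val this
    · rw [Subgroup.mem_comap, MonoidHom.mem_ker.mp z.2]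
      exact K.one_mem
    · rw [MonoidHom.mem_ker]
      exact Subtype.ext (MonoidHom.mem_ker.mp z.2)
    · intro z; rfl
    · intro z; rfl
  have hk : (Nat.card π.ker : ℂ) ≠ 0 := card_ne
  have hK : (Nat.card K : ℂ) ≠ 0 := card_ne
  funext g
  rw [ind_eq, ind_eq, hc]
  have h1 : ∀ x : G, ext (K.comap π) (fun h => f ⟨π h, h.2⟩) (x⁻¹ * g * x)
      = (fun y => ext K f (y⁻¹ * π g * y)) (π x) := by
    intro x
    simp only
    by_cases h : π (x⁻¹ * g * x) ∈ K
    · have h2 : (π x)⁻¹ * π g * π x ∈ K := by simpa using h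
      have h3 : x⁻¹ * g * x ∈ K.comap π := h
      rw [ext_mem _ _ h3, ext_mem _ _ h2]
      congr 2
      simp
    · have h2 : (π x)⁻¹ * π g * π x ∉ K := by simpa using h
      have h3 : x⁻¹ * g * x ∉ K.comap π := h
      rw [ext_not _ _ h3, ext_not _ _ h2]
  rw [Finset.sum_congr rfl (fun x _ => h1 x),
    sum_comp_surj π hπ (fun y => ext K f (y⁻¹ * π g * y))]
  push_cast
  field_simp

lemma Mono.comp {Y : Type} [Group Y] [Finite Y] {π : G →* Y} (hπ : Function.Surjective π)
    {χ : Y → ℂ} (h : Mono χ) : Mono (fun g => χ (π g)) := by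
  obtain ⟨K, ψ, rfl⟩ := h
  let π' : K.comap π →* K :=
    { toFun := fun h => ⟨π h, h.2⟩
      map_one' := by apply Subtype.ext; simp
      map_mul' := by intro a b; apply Subtype.ext; simp }
  exact ⟨K.comap π, ψ.comp π', ind_comap hπ K _⟩

lemma Mono.ind {H : Subgroup G} {χ : H → ℂ} (h : Mono χ) : Mono (ind H χ) := by
  obtain ⟨K, ψ, rfl⟩ := h
  refine ⟨K.map H.subtype, ψ.comp
    (K.equivMapOfInjective H.subtype H.subtype_injective).symm.toMonoidHom, ?_⟩
  rw [ind_ind]
  rfl

lemma HypP.of_surjective {p : ℕ} {W V : Type} [Group W] [Group V] (f : W →* V)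
    (hf : Function.Surjective f) (hW : HypP p W) : HypP p V := by
  obtain ⟨c, hcop, hn, hp⟩ := hW
  refine ⟨f c, Nat.Coprime.coprime_dvd_left (orderOf_map_dvd f c) hcop, fun u => ?_, fun u => ?_⟩
  · obtain ⟨w, rfl⟩ := hf u
    obtain ⟨j, hj⟩ := hn w
    exact ⟨j, by simp only at hj ⊢; rw [← map_zpow, hj]; simp⟩
  · obtain ⟨w, rfl⟩ := hf u
    obtain ⟨k, j, hj⟩ := hp w
    exact ⟨k, j, by simp only at hj ⊢; rw [← map_zpow, hj]; simp⟩

/-- irreducible characters of abelian groups are linear -/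
lemma mono_abelian (hc : ∀ a b : G, a * b = b * a) {χ : G → ℂ} (hχ : χ ∈ Irr G) : Mono χ := by
  classical
  have : Fintype G := Fintype.ofFinite G
  obtain ⟨n, ρ, hρ, rfl⟩ := exists_rep hχ
  obtain ⟨μ, v₀, hv₀, hμ⟩ := exists_weight hc ρ hρ.1
  have h1 : Submodule.span ℂ {v₀} = ⊤ := by
    rcases hρ.2 (Submodule.span ℂ {v₀}) (by
      intro g v hv
      obtain ⟨a, rfl⟩ := Submodule.mem_span_singleton.mp hv
      rw [map_smul, hμ]
      exact Submodule.smul_mem _ _ (Submodule.smul_mem _ _ (Submodule.mem_span_singleton_self _)))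
      with h | h
    · exact absurd (Submodule.span_singleton_eq_bot.mp h) hv₀
    · exact h
  have h2 : ∀ g, ρ g = ((μ g : ℂˣ) : ℂ) • (1 : (Fin n → ℂ) →ₗ[ℂ] (Fin n → ℂ)) := by
    intro g
    refine LinearMap.ext fun v => ?_
    have hv : v ∈ Submodule.span ℂ {v₀} := by rw [h1]; exact Submodule.mem_top
    obtain ⟨a, rfl⟩ := Submodule.mem_span_singleton.mp hv
    rw [map_smul, hμ, LinearMap.smul_apply, Module.End.one_apply, smul_comm]
  have h3 : (Module.finrank ℂ (Fin n → ℂ) : ℂ) = 1 := by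
    have h4 := finrank_top ℂ (Fin n → ℂ)
    rw [← h1, finrank_span_singleton hv₀] at h4
    rw [← h4]; simp
  refine ⟨⊤, μ.comp (Subgroup.subtype ⊤), ?_⟩
  funext g
  rw [ind_eq]
  have h4 : ∀ x : G, ext ⊤ (fun h : (⊤ : Subgroup G) =>
      (((μ.comp (Subgroup.subtype ⊤)) h : ℂˣ) : ℂ)) (x⁻¹ * g * x) = ((μ g : ℂˣ) : ℂ) := by
    intro x
    rw [ext_mem _ _ (Subgroup.mem_top _)]
    change ((μ (x⁻¹ * g * x) : ℂˣ) : ℂ) = _
    rw [hc x⁻¹ g, mul_assoc, inv_mul_cancel, mul_one]
  rw [Finset.sum_congr rfl (fun x _ => h4 x), Finset.sum_const, Finset.card_univ, nsmul_eq_mul,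
    ← Nat.card_eq_fintype_card, Subgroup.card_top, ← mul_assoc, inv_mul_cancel₀ card_ne, one_mul]
  change LinearMap.trace ℂ _ (ρ g) = _
  rw [h2, map_smul, LinearMap.trace_one, h3, smul_eq_mul, mul_one]

/-- a nonabelian hyperelementary group has a noncentral abelian normal subgroup -/
lemma exists_abelian {p : ℕ} (hp : p.Prime) (hG : HypP p G) (hc : ¬ ∀ a b : G, a * b = b * a) :
    ∃ A : Subgroup G, A.Normal ∧ (∀ a b : A, a * b = b * a) ∧ ¬ A ≤ Subgroup.center G := by
  classical
  obtain ⟨c, -, hn, hpw⟩ := hG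
  have hN : (Subgroup.zpowers c).Normal := ⟨fun x hx u => conj_zpowers hn u hx⟩
  by_cases hcc : Subgroup.zpowers c ≤ Subgroup.center G
  swap
  · exact ⟨Subgroup.zpowers c, hN, zpowers_comm c, hcc⟩
  have : Fact p.Prime := ⟨hp⟩
  have hQ : IsPGroup p (G ⧸ Subgroup.center G) := by
    intro q
    induction q using QuotientGroup.induction_on with | _ u => ?_
    obtain ⟨k, hk⟩ := hpw u
    refine ⟨k, ?_⟩
    rw [← QuotientGroup.mk_pow]
    exact (QuotientGroup.eq_one_iff _).mpr (hcc hk)
  have hnt : Nontrivial (G ⧸ Subgroup.center G) := by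
    by_contra hcon
    rw [not_nontrivial_iff_subsingleton] at hcon
    apply hc
    intro a b
    have h1 : (QuotientGroup.mk b : G ⧸ Subgroup.center G) = 1 := Subsingleton.elim _ _
    have h2 := (QuotientGroup.eq_one_iff b).mp h1
    exact Subgroup.mem_center_iff.mp h2 a
  have hZ := hQ.center_nontrivial
  obtain ⟨⟨z, hz⟩, hz1⟩ := exists_ne (1 : Subgroup.center (G ⧸ Subgroup.center G))
  have hz1' : z ≠ 1 := fun h => hz1 (Subtype.ext h)
  obtain ⟨a, rfl⟩ := QuotientGroup.mk_surjective z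
  let π : G →* G ⧸ Subgroup.center G := QuotientGroup.mk' _
  have hzn : (Subgroup.zpowers (π a)).Normal := by
    refine ⟨fun x hx u => ?_⟩
    have h1 : x ∈ Subgroup.center (G ⧸ Subgroup.center G) := by
      obtain ⟨k, rfl⟩ := hx
      exact Subgroup.zpow_mem _ hz k
    rw [Subgroup.mem_center_iff.mp h1 u, mul_inv_cancel_right]
    exact hx
  refine ⟨(Subgroup.zpowers (π a)).comap π, Subgroup.Normal.comap hzn π, ?_, ?_⟩
  · have h1 : ∀ x : G, x ∈ (Subgroup.zpowers (π a)).comap π →
        ∃ (k : ℤ) (w : G), w ∈ Subgroup.center G ∧ x = a ^ k * w := by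
      rintro x ⟨k, hk⟩
      refine ⟨k, (a ^ k)⁻¹ * x, ?_, by group⟩
      simp only at hk
      rw [← map_zpow] at hk
      have h2 : π ((a ^ k)⁻¹ * x) = 1 := by rw [map_mul, map_inv, hk, inv_mul_cancel]
      exact (QuotientGroup.eq_one_iff _).mp h2
    rintro ⟨x, hx⟩ ⟨y, hy⟩
    obtain ⟨k, w, hw, rfl⟩ := h1 x hx
    obtain ⟨l, v, hv, rfl⟩ := h1 y hy
    apply Subtype.ext
    change a ^ k * w * (a ^ l * v) = a ^ l * v * (a ^ k * w)
    have e1 := Subgroup.mem_center_iff.mp hw (a ^ l)
    have e2 := Subgroup.mem_center_iff.mp hv (a ^ k)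
    have e3 := Subgroup.mem_center_iff.mp hw v
    have e4 : a ^ k * a ^ l = a ^ l * a ^ k := by rw [← zpow_add, ← zpow_add, add_comm]
    calc a ^ k * w * (a ^ l * v) = a ^ k * (w * a ^ l) * v := by group
      _ = a ^ k * (a ^ l * w) * v := by rw [e1]
      _ = (a ^ k * a ^ l) * (w * v) := by group
      _ = (a ^ l * a ^ k) * (v * w) := by rw [e4, e3]
      _ = a ^ l * (a ^ k * v) * w := by group
      _ = a ^ l * (v * a ^ k) * w := by rw [e2]
      _ = a ^ l * v * (a ^ k * w) := by group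
  · intro h
    apply hz1'
    have h1 : a ∈ Subgroup.center G := h ⟨1, by simp [π]⟩
    exact (QuotientGroup.eq_one_iff _).mpr h1

/-- irreducible characters of hyperelementary groups are monomial -/
theorem hyp_mono {p : ℕ} (hp : p.Prime) : ∀ (n : ℕ) (G : Type) [Group G] [Finite G],
    Nat.card G = n → HypP p G → ∀ χ ∈ Irr G, Mono χ := by
  intro n
  induction n using Nat.strong_induction_on with
  | _ n ih =>
    intro G _ _ hn hG χ hχ
    classical
    by_cases hc : ∀ a b : G, a * b = b * a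
    · exact mono_abelian hc hχ
    obtain ⟨m, ρ, hρ, rfl⟩ := exists_rep hχ
    by_cases hf : ∀ g, ρ g = 1 → g = 1
    · obtain ⟨A, hAn, hA, hAc⟩ := exists_abelian hp hG hc
      obtain ⟨H, hH, φ, hφ, hφ1⟩ := clifford_char hρ hf A hA hAc
      rw [hφ1]
      have hlt : Nat.card H < n := by
        rw [← hn]
        rcases lt_or_eq_of_le (Nat.le_of_dvd Nat.card_pos H.card_subgroup_dvd_card) with h | h
        · exact h
        · exact absurd (Subgroup.eq_top_of_card_eq H h) hH
      exact (ih _ hlt H rfl (hG.of_injective H.subtype H.subtype_injective) φ hφ).ind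
    · push Not at hf
      obtain ⟨g₀, hg₀, hg₁⟩ := hf
      let π : G →* G ⧸ ρ.ker := QuotientGroup.mk' _
      have hπ : Function.Surjective π := QuotientGroup.mk'_surjective _
      obtain ⟨ψ, hψ, hψ1⟩ := descend_irr hπ hρ (by
        intro g hg
        rw [QuotientGroup.ker_mk', MonoidHom.mem_ker] at hg
        exact hg)
      have h1 : ρ.character = fun g => ψ (π g) := funext hψ1
      rw [h1]
      have hlt : Nat.card (G ⧸ ρ.ker) < n := by
        have h2 := Subgroup.card_eq_card_quotient_mul_card_subgroup ρ.ker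
        have h3 : 1 < Nat.card ρ.ker := by
          have : Nontrivial ρ.ker := ⟨⟨g₀, MonoidHom.mem_ker.mpr hg₀⟩, 1, fun h =>
            hg₁ (congrArg Subtype.val h)⟩
          exact Finite.one_lt_card
        have h4 : 0 < Nat.card (G ⧸ ρ.ker) := Nat.card_pos
        rw [hn] at h2
        rw [h2]
        nlinarith
      exact (ih _ hlt _ rfl (HypP.of_surjective π hπ hG) ψ hψ).comp hπ

end Pool.Agent.R389
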