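import Mathlib
import Pool.Agent.R389.Mono

/-!
# Solomon's induction theorem and monomial generation
-/

set_option autoImplicit false
set_option linter.unusedSectionVars false

namespace Pool.Agent.R389

open Pool.Agent.H302R2 Pool.Agent.H302R3 Pool.Agent.H541R3.ART Pool.Agent.W446.AS MulAction

lemma Hyper.of_injective {W V : Type} [Group W] [Group V] (f : W →* V)
    (hf : Function.Injective f) (hV : Hyper V) : Hyper W := by
  obtain ⟨p, hp, h⟩ := hV
  exact ⟨p, hp, HypP.of_injective f hf h⟩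

lemma Hyper.mono {U : Type} [Group U] [Finite U] (h : Hyper U) {χ : U → ℂ} (hχ : χ ∈ Irr U) :
    Mono χ := by
  obtain ⟨p, hp, h⟩ := h
  exact hyp_mono hp _ U rfl h χ hχ

lemma Hyper.of_pgroup {p : ℕ} (hp : p.Prime) {U : Type} [Group U] (h : IsPGroup p U) : Hyper U := by
  refine ⟨p, hp, 1, by simp, by simp, fun u => ?_⟩
  obtain ⟨k, hk⟩ := h u
  exact ⟨k, by rw [hk]; exact one_mem _⟩

/-- cyclic groups are hyperelementary -/
lemma Hyper.cyclic {G : Type} [Group G] [Finite G] (g : G) : Hyper (Subgroup.zpowers g) := by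
  obtain ⟨p, hp1, hp⟩ := Nat.exists_infinite_primes (orderOf g + 1)
  refine ⟨p, hp, ⟨g, Subgroup.mem_zpowers g⟩, ?_, fun u => ?_, fun u => ⟨0, ?_⟩⟩
  · rw [Subgroup.orderOf_mk, Nat.coprime_comm, Nat.Prime.coprime_iff_not_dvd hp]
    intro h
    have := Nat.le_of_dvd (orderOf_pos g) h
    omega
  · have h1 := zpowers_comm g u ⟨g, Subgroup.mem_zpowers g⟩
    rw [h1, mul_inv_cancel_right]
    exact Subgroup.mem_zpowers _
  · obtain ⟨x, k, hk⟩ := u
    refine ⟨k, ?_⟩
    apply Subtype.ext
    simpa using hk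

section sol

variable (G : Type) [Group G] [Finite G]

/-- the group generated by permutation characters of hyperelementary subgroups -/
def Sol : AddSubgroup (G → ℂ) :=
  AddSubgroup.closure {f | ∃ U : Subgroup G, Hyper U ∧ f = ind U (fun _ => 1)}

variable {G}

lemma count_mem {p : ℕ} (hp : p.Prime) {f : G → ℕ} (hf : HypPCount p f) :
    (fun g => (f g : ℂ)) ∈ Sol G := by
  classical
  obtain ⟨X, _, _, hX, hfX⟩ := hf
  have : Fintype G := Fintype.ofFinite _
  have : Fintype X := Fintype.ofFinite _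
  let mk : X → Quotient (orbitRel G X) := Quotient.mk _
  have h1 : (fun g => (f g : ℂ)) = ∑ ω : Quotient (orbitRel G X),
      ind (stabilizer G ω.out) (fun _ => (1 : ℂ)) := by
    funext g
    rw [Finset.sum_apply]
    have h2 : (f g : ℂ) = ∑ x : X, if g • x = x then (1 : ℂ) else 0 := by
      rw [hfX, ← Finset.sum_filter, Finset.sum_const, nsmul_eq_mul, mul_one,
        Nat.card_eq_fintype_card, Fintype.card_subtype]
    rw [h2, ← Finset.sum_fiberwise_of_maps_to (s := Finset.univ) (t := Finset.univ)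
      (g := mk) (fun _ _ => Finset.mem_univ _)]
    refine Finset.sum_congr rfl fun ω _ => ?_
    rw [ind_eq]
    have h3 : ∀ y : G, ext (stabilizer G ω.out) (fun _ => (1 : ℂ)) (y⁻¹ * g * y)
        = (fun x : X => if g • x = x then (1 : ℂ) else 0) (y • ω.out) := by
      intro y
      have h4 : y⁻¹ * g * y ∈ stabilizer G ω.out ↔ g • y • ω.out = y • ω.out := by
        rw [mem_stabilizer_iff, mul_smul, mul_smul, inv_smul_eq_iff]
      simp only
      by_cases h : y⁻¹ * g * y ∈ stabilizer G ω.out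
      · rw [ext_mem _ _ h, if_pos (h4.mp h)]
      · rw [ext_not _ _ h, if_neg (fun h' => h (h4.mpr h'))]
    rw [Finset.sum_congr rfl (fun y _ => h3 y)]
    have hmk : ∀ y : G, mk (y • ω.out) = ω := by
      intro y
      have h5 : mk (y • ω.out) = mk ω.out := Quotient.sound (orbitRel_apply.mpr ⟨y, rfl⟩)
      rw [h5]; exact Quotient.out_eq ω
    rw [← Finset.sum_fiberwise_of_maps_to (s := (Finset.univ : Finset G))
      (t := Finset.univ.filter (fun x => mk x = ω)) (g := fun y => y • ω.out)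
      (fun y _ => Finset.mem_filter.mpr ⟨Finset.mem_univ _, hmk y⟩), Finset.mul_sum]
    refine Finset.sum_congr rfl fun x hx => ?_
    have hx1 : mk x = mk ω.out := by
      rw [(Finset.mem_filter.mp hx).2]; exact (Quotient.out_eq ω).symm
    obtain ⟨z, hz⟩ := orbitRel_apply.mp (Quotient.exact hx1)
    simp only at hz
    rw [Finset.sum_congr rfl (g := fun _ => if g • x = x then (1 : ℂ) else 0)
      (fun y hy => by rw [(Finset.mem_filter.mp hy).2]), Finset.sum_const, nsmul_eq_mul]
    have hcard : (Finset.univ.filter (fun y : G => y • ω.out = x)).card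
        = Nat.card (stabilizer G ω.out) := by
      rw [← Fintype.card_subtype, ← Nat.card_eq_fintype_card]
      refine Nat.card_congr ⟨fun y => ⟨z⁻¹ * y, ?_⟩, fun s => ⟨z * s, ?_⟩, ?_, ?_⟩
      · rw [mem_stabilizer_iff, mul_smul, y.2, ← hz, inv_smul_smul]
      · rw [mul_smul, mem_stabilizer_iff.mp s.2, hz]
      · intro y; apply Subtype.ext; simp
      · intro s; apply Subtype.ext; simp
    rw [hcard, ← mul_assoc, inv_mul_cancel₀ card_ne, one_mul]
  rw [h1]
  refine sum_mem fun ω _ => AddSubgroup.subset_closure ⟨_, ⟨p, hp, hX ω.out⟩, rfl⟩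

/-- integral multiples of the trivial character -/
lemma exists_const {p : ℕ} (hp : p.Prime) :
    ∃ N : ℤ, ¬ (p : ℤ) ∣ N ∧ N • (fun _ => 1 : G → ℂ) ∈ Sol G := by
  classical
  have : Fintype G := Fintype.ofFinite _
  obtain ⟨F, hF, hF'⟩ := exists_all_prime_to (G := G) hp
  let Q : Polynomial ℤ := ∏ g : G, (Polynomial.X - Polynomial.C (F g : ℤ))
  refine ⟨Q.coeff 0, ?_, ?_⟩
  · rw [Polynomial.coeff_zero_eq_eval_zero, Polynomial.eval_prod]
    intro h
    obtain ⟨g, -, hg⟩ := (Prime.dvd_finsetProd_iff (Nat.prime_iff_prime_int.mp hp) _).mp h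
    simp only [Polynomial.eval_sub, Polynomial.eval_X, Polynomial.eval_C, zero_sub,
      dvd_neg] at hg
    exact hF' g (by exact_mod_cast hg)
  · have h1 : Q.coeff 0 • (fun _ => 1 : G → ℂ)
        = - ∑ i ∈ Finset.range Q.natDegree, Q.coeff (i + 1) • (fun g => ((F g ^ (i + 1) : ℕ) : ℂ)) := by
      funext x
      have h2 : Q.eval (F x : ℤ) = 0 := by
        rw [Polynomial.eval_prod]
        exact Finset.prod_eq_zero (Finset.mem_univ x) (by simp)
      rw [Polynomial.eval_eq_sum_range, Finset.sum_range_succ'] at h2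
      have h3 : Q.coeff 0 = - ∑ i ∈ Finset.range Q.natDegree, Q.coeff (i + 1) * (F x : ℤ) ^ (i + 1) := by
        rw [pow_zero, mul_one] at h2
        linarith
      simp only [Pi.smul_apply, Pi.neg_apply, Finset.sum_apply, zsmul_eq_mul, mul_one]
      rw [h3]
      push_cast
      rfl
    rw [h1]
    exact neg_mem (sum_mem fun i _ => zsmul_mem (count_mem hp (hF.pow i)) _)

/-- **Solomon's induction theorem** -/
theorem one_mem_sol : (fun _ => 1 : G → ℂ) ∈ Sol G := by
  let φ : ℤ →+ (G → ℂ) := zmultiplesHom _ (fun _ => 1)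
  have hφ : ∀ n : ℤ, φ n = n • (fun _ => 1 : G → ℂ) := fun n => rfl
  obtain ⟨a, ha⟩ := Int.subgroup_cyclic ((Sol G).comap φ)
  have ha' : ∀ n : ℤ, n ∈ (Sol G).comap φ ↔ a ∣ n := by
    intro n
    rw [ha, ← AddSubgroup.zmultiples_eq_closure, Int.mem_zmultiples_iff]
  have h1 : a.natAbs = 1 := by
    by_contra hcon
    obtain ⟨p, hp, hpa⟩ := Nat.exists_prime_and_dvd hcon
    obtain ⟨N, hN, hN'⟩ := exists_const (G := G) hp
    apply hN
    have h2 : a ∣ N := (ha' N).mp (by rw [AddSubgroup.mem_comap, hφ]; exact hN')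
    exact (Int.natCast_dvd.mpr hpa).trans h2
  have h2 : (1 : ℤ) ∈ (Sol G).comap φ := by
    rw [ha']
    exact Int.natAbs_dvd_natAbs.mp (by rw [h1]; simp)
  rw [AddSubgroup.mem_comap, hφ, one_smul] at h2
  exact h2

/-- the group generated by the characters induced from linear characters of hyperelementary
subgroups -/
def MonG (G : Type) [Group G] : AddSubgroup (G → ℂ) :=
  AddSubgroup.closure {f | ∃ (U : Subgroup G) (ψ : U →* ℂˣ), Hyper U ∧
    f = ind U (fun h => ((ψ h : ℂˣ) : ℂ))}

lemma ind_mono_mem {U : Subgroup G} (hU : Hyper U) {χ : U → ℂ} (hχ : χ ∈ Irr U) :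
    ∃ (W : Subgroup G) (ψ : W →* ℂˣ), Hyper W ∧ W ≤ U ∧
      ind U χ = ind W (fun h => ((ψ h : ℂˣ) : ℂ)) := by
  obtain ⟨K, ψ, hψ⟩ := hU.mono hχ
  refine ⟨K.map U.subtype, ψ.comp
    (K.equivMapOfInjective U.subtype U.subtype_injective).symm.toMonoidHom, ?_, ?_, ?_⟩
  · exact (hU.of_injective K.subtype K.subtype_injective).of_injective
      (K.equivMapOfInjective U.subtype U.subtype_injective).symm.toMonoidHom
      (K.equivMapOfInjective U.subtype U.subtype_injective).symm.injective
  · rintro x ⟨y, -, rfl⟩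
    exact y.2
  · rw [hψ, ind_ind]
    rfl

lemma class_mem_sol {f : G → ℂ} (hf : ∀ g x : G, f (x * g * x⁻¹) = f g) :
    f ∈ AddSubgroup.closure {u : G → ℂ | ∃ U : Subgroup G, Hyper U ∧ u = ind U (fun h => f h)} := by
  let m : (G → ℂ) →+ (G → ℂ) := AddMonoidHom.mk' (fun u g => u g * f g) (fun a b => by
    funext g
    change (a g + b g) * f g = a g * f g + b g * f g
    ring)
  have h1 : Sol G ≤ (AddSubgroup.closure
      {u : G → ℂ | ∃ U : Subgroup G, Hyper U ∧ u = ind U (fun h => f h)}).comap m := by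
    rw [Sol, AddSubgroup.closure_le]
    rintro u ⟨U, hU, rfl⟩
    rw [SetLike.mem_coe, AddSubgroup.mem_comap]
    apply AddSubgroup.subset_closure
    refine ⟨U, hU, ?_⟩
    funext g
    change ind U (fun _ => 1) g * f g = _
    rw [← ind_mul U (fun _ => (1 : ℂ)) hf g]
    simp only [one_mul]
  have h2 := h1 one_mem_sol
  rw [AddSubgroup.mem_comap] at h2
  have h3 : m (fun _ => 1) = f := by
    funext g
    change 1 * f g = f g
    rw [one_mul]
  rwa [h3] at h2

/-- virtual characters are generated by characters induced from linear characters of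
hyperelementary subgroups -/
theorem virt_mem_mon {f : G → ℂ} (hf : Virt f) : f ∈ MonG G := by
  refine (AddSubgroup.closure_le (MonG G)).mpr ?_ (class_mem_sol hf.conj)
  rintro u ⟨U, hU, rfl⟩
  have h2 : AddSubgroup.closure (Irr U) ≤ (MonG G).comap (indHom U) := by
    rw [AddSubgroup.closure_le]
    intro χ hχ
    obtain ⟨W, ψ, hW, -, h3⟩ := ind_mono_mem hU hχ
    rw [SetLike.mem_coe, AddSubgroup.mem_comap, indHom_apply, h3]
    exact AddSubgroup.subset_closure ⟨W, ψ, hW, rfl⟩
  exact h2 (Virt.comp hf U.subtype)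

end sol

end Pool.Agent.R389
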