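import Mathlib
import Pool.Agent.R389.Sol

/-!
# Characters modulo those induced from characters nontrivial on a normal subgroup
-/

set_option autoImplicit false
set_option linter.unusedSectionVars false

namespace Pool.Agent.R389

open Pool.Agent.H302R2 Pool.Agent.H302R3 Pool.Agent.H541R3.ART Pool.Agent.W446.AS

open scoped Pointwise

variable {G : Type} [Group G] [Finite G]

/-- induced from linear characters of hyperelementary subgroups nontrivial on `K` -/
def NewG (K : Subgroup G) : AddSubgroup (G → ℂ) :=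
  AddSubgroup.closure {f | ∃ (U : Subgroup G) (ψ : U →* ℂˣ), Hyper U ∧
    (∃ u : U, (u : G) ∈ K ∧ ψ u ≠ 1) ∧ f = ind U (fun h => ((ψ h : ℂˣ) : ℂ))}

/-- the average over the cosets of `K` -/
noncomputable def inv (K : Subgroup G) (f : G → ℂ) (g : G) : ℂ :=
  (Nat.card K : ℂ)⁻¹ * ∑ᶠ k : K, f (g * k)

lemma inv_eq (K : Subgroup G) [Fintype K] (f : G → ℂ) (g : G) :
    inv K f g = (Nat.card K : ℂ)⁻¹ * ∑ k : K, f (g * k) := by
  rw [inv, finsum_eq_sum_of_fintype]

/-- averaging as an additive map -/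
noncomputable def invHom (K : Subgroup G) : (G → ℂ) →+ (G → ℂ) :=
  AddMonoidHom.mk' (inv K) (by
    intro a b
    classical
    have : Fintype K := Fintype.ofFinite K
    funext g
    simp only [Pi.add_apply, inv_eq, Finset.sum_add_distrib, mul_add])

lemma invHom_apply (K : Subgroup G) (f : G → ℂ) : invHom K f = inv K f := rfl

lemma inv_mul_mem (K : Subgroup G) (f : G → ℂ) (g : G) {k : G} (hk : k ∈ K) :
    inv K f (g * k) = inv K f g := by
  classical
  have : Fintype K := Fintype.ofFinite K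
  rw [inv_eq, inv_eq, ← Equiv.sum_comp (Equiv.mulLeft (⟨k, hk⟩ : K)) (fun x : K => f (g * x))]
  congr 1
  refine Finset.sum_congr rfl fun x _ => ?_
  simp only [Equiv.coe_mulLeft, Subgroup.coe_mul]
  rw [mul_assoc]

lemma inv_of_const (K : Subgroup G) {f : G → ℂ} (h : ∀ g, ∀ k ∈ K, f (g * k) = f g) :
    inv K f = f := by
  classical
  have : Fintype K := Fintype.ofFinite K
  funext g
  rw [inv_eq, Finset.sum_congr rfl (fun (k : K) _ => h g k k.2), Finset.sum_const,
    Finset.card_univ, nsmul_eq_mul, ← Nat.card_eq_fintype_card, ← mul_assoc,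
    inv_mul_cancel₀ card_ne, one_mul]

lemma sum_conj_K (K : Subgroup G) [K.Normal] [Fintype K] (F : G → ℂ) (y : G) :
    ∑ k : K, F (y⁻¹ * k * y) = ∑ k : K, F k := by
  rw [← Equiv.sum_comp (MulAut.conjNormal y).toEquiv (fun k : K => F (y⁻¹ * k * y))]
  refine Finset.sum_congr rfl fun k _ => ?_
  congr 1
  change y⁻¹ * ((MulAut.conjNormal y k : K) : G) * y = k
  rw [MulAut.conjNormal_apply]
  group

lemma inv_class (K : Subgroup G) [K.Normal] {f : G → ℂ}
    (hf : ∀ g x : G, f (x * g * x⁻¹) = f g) (g x : G) : inv K f (x * g * x⁻¹) = inv K f g := by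
  classical
  have : Fintype K := Fintype.ofFinite K
  rw [inv_eq, inv_eq, ← sum_conj_K K (fun k => f (g * k)) x]
  congr 1
  refine Finset.sum_congr rfl fun k _ => ?_
  rw [← hf (g * (x⁻¹ * k * x)) x]
  congr 1
  group

/-- the average of an induced function -/
lemma inv_ind (K : Subgroup G) [K.Normal] [Fintype G] [Fintype K] (U : Subgroup G) (f : U → ℂ)
    (g : G) : inv K (ind U f) g = (Nat.card K : ℂ)⁻¹ * ((Nat.card U : ℂ)⁻¹ *
      ∑ x : G, ∑ k : K, ext U f (x⁻¹ * g * x * k)) := by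
  rw [inv_eq]
  congr 1
  have h1 : ∀ k : K, ind U f (g * k) = (Nat.card U : ℂ)⁻¹ * ∑ x : G, ext U f (x⁻¹ * (g * k) * x) :=
    fun k => ind_eq U f _
  rw [Finset.sum_congr rfl (fun k _ => h1 k), ← Finset.mul_sum, Finset.sum_comm]
  congr 1
  refine Finset.sum_congr rfl fun x _ => ?_
  rw [← sum_conj_K K (fun k => ext U f (x⁻¹ * g * x * k)) x]
  refine Finset.sum_congr rfl fun k _ => ?_
  congr 1
  group

lemma inv_new (K : Subgroup G) [K.Normal] {s : G → ℂ} (hs : s ∈ NewG K) : inv K s = 0 := by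
  classical
  have : Fintype G := Fintype.ofFinite G
  have : Fintype K := Fintype.ofFinite K
  have h1 : NewG K ≤ (⊥ : AddSubgroup (G → ℂ)).comap (invHom K) := by
    rw [NewG, AddSubgroup.closure_le]
    rintro f ⟨U, ψ, -, ⟨u, hu, hψu⟩, rfl⟩
    rw [SetLike.mem_coe, AddSubgroup.mem_comap, AddSubgroup.mem_bot, invHom_apply]
    funext g
    rw [inv_ind, Finset.sum_eq_zero, mul_zero, mul_zero]
    · rfl
    intro x _
    have h2 : ∀ z : G, ext U (fun h => ((ψ h : ℂˣ) : ℂ)) (z * u)
        = ext U (fun h => ((ψ h : ℂˣ) : ℂ)) z * ((ψ u : ℂˣ) : ℂ) := by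
      intro z
      by_cases hz : z ∈ U
      · have hz' : z * u ∈ U := U.mul_mem hz u.2
        rw [ext_mem _ _ hz', ext_mem _ _ hz, ← Units.val_mul, ← map_mul]
        rfl
      · have hz' : z * u ∉ U := fun h => hz (by simpa using U.mul_mem h (U.inv_mem u.2))
        rw [ext_not _ _ hz', ext_not _ _ hz, zero_mul]
    have h3 : ∑ k : K, ext U (fun h => ((ψ h : ℂˣ) : ℂ)) (x⁻¹ * g * x * k)
        = (∑ k : K, ext U (fun h => ((ψ h : ℂˣ) : ℂ)) (x⁻¹ * g * x * k)) * ((ψ u : ℂˣ) : ℂ) := by
      rw [Finset.sum_mul, ← Equiv.sum_comp (Equiv.mulRight (⟨u, hu⟩ : K))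
        (fun k : K => ext U (fun h => ((ψ h : ℂˣ) : ℂ)) (x⁻¹ * g * x * k))]
      refine Finset.sum_congr rfl fun k _ => ?_
      rw [← h2]
      congr 1
      simp only [Equiv.coe_mulRight, Subgroup.coe_mul]
      group
    have h4 : (∑ k : K, ext U (fun h => ((ψ h : ℂˣ) : ℂ)) (x⁻¹ * g * x * k))
        * (((ψ u : ℂˣ) : ℂ) - 1) = 0 := by
      rw [mul_sub, mul_one, ← h3, sub_self]
    rcases mul_eq_zero.mp h4 with h5 | h5
    · exact h5
    · exfalso
      apply hψu
      exact Units.ext (sub_eq_zero.mp h5)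
  have h2 := h1 hs
  rw [AddSubgroup.mem_comap, AddSubgroup.mem_bot] at h2
  exact h2

/-- the average of a function induced from a subgroup mapping onto `G / K` -/
lemma inv_ind_of_surj (K : Subgroup G) [K.Normal] (P : Subgroup G)
    (hPK : ∀ g : G, ∃ x ∈ P, ∃ k ∈ K, g = x * k) {F : P → ℂ}
    (hF : ∀ g x : P, F (x * g * x⁻¹) = F g) (hFK : ∀ g n : P, (n : G) ∈ K → F (g * n) = F g)
    (g : P) : inv K (ind P F) g = F g := by
  classical
  have : Fintype G := Fintype.ofFinite G
  have : Fintype K := Fintype.ofFinite K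
  have : Fintype P := Fintype.ofFinite P
  rw [inv_ind]
  let π : P →* G ⧸ K := (QuotientGroup.mk' K).comp P.subtype
  have hπ : Function.Surjective π := by
    intro q
    obtain ⟨g, rfl⟩ := QuotientGroup.mk_surjective q
    obtain ⟨x, hx, k, hk, rfl⟩ := hPK g
    refine ⟨⟨x, hx⟩, ?_⟩
    change (QuotientGroup.mk x : G ⧸ K) = QuotientGroup.mk (x * k)
    rw [QuotientGroup.eq]
    simpa using hk
  have hker : ∀ n : P, n ∈ π.ker ↔ (n : G) ∈ K := by
    intro n
    rw [MonoidHom.mem_ker]
    exact QuotientGroup.eq_one_iff (n : G)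
  have hc1 : Nat.card P = Nat.card π.ker * Nat.card (G ⧸ K) := by
    rw [← Nat.card_congr (QuotientGroup.quotientKerEquivOfSurjective π hπ).toEquiv, mul_comm]
    exact Subgroup.card_eq_card_quotient_mul_card_subgroup _
  have hc2 : Nat.card G = Nat.card (G ⧸ K) * Nat.card K :=
    Subgroup.card_eq_card_quotient_mul_card_subgroup _
  -- the inner sum over a coset of an element of `P`
  have hin : ∀ y : P, ∑ k : K, ext P F ((y : G) * k) = Nat.card π.ker * F y := by
    intro y
    have h1 : ∀ k : K, ext P F ((y : G) * k) = if (k : G) ∈ P then F y else 0 := by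
      intro k
      by_cases hk : (k : G) ∈ P
      · have h2 : (y : G) * k ∈ P := P.mul_mem y.2 hk
        rw [ext_mem _ _ h2, if_pos hk]
        exact hFK y ⟨k, hk⟩ k.2
      · have h2 : (y : G) * k ∉ P := fun h => hk (by simpa using P.mul_mem (P.inv_mem y.2) h)
        rw [ext_not _ _ h2, if_neg hk]
    rw [Finset.sum_congr rfl (fun k _ => h1 k), ← Finset.sum_filter, Finset.sum_const,
      nsmul_eq_mul]
    congr 2
    rw [← Fintype.card_subtype, ← Nat.card_eq_fintype_card]
    refine Nat.card_congr ⟨fun k => ⟨⟨k.1, k.2⟩, (hker _).mpr k.1.2⟩,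
      fun n => ⟨⟨n.1, (hker _).mp n.2⟩, n.1.2⟩, ?_, ?_⟩
    · intro k; rfl
    · intro n; rfl
  have hx : ∀ x : G, ∑ k : K, ext P F (x⁻¹ * g * x * k) = Nat.card π.ker * F g := by
    intro x
    obtain ⟨x₁, hx₁, k₁, hk₁, rfl⟩ := hPK x
    let y : P := ⟨x₁, hx₁⟩⁻¹ * g * ⟨x₁, hx₁⟩
    have hy : (y : G) = x₁⁻¹ * g * x₁ := rfl
    have hk₂ : (y : G)⁻¹ * k₁⁻¹ * y * k₁ ∈ K := by
      have h2 := (inferInstance : K.Normal).conj_mem _ (K.inv_mem hk₁) (y : G)⁻¹
      rw [inv_inv] at h2
      exact K.mul_mem h2 hk₁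
    have h1 : (x₁ * k₁)⁻¹ * g * (x₁ * k₁) = (y : G) * ((y : G)⁻¹ * k₁⁻¹ * y * k₁) := by
      rw [hy]; group
    rw [h1, ← Equiv.sum_comp (Equiv.mulLeft (⟨_, hk₂⟩ : K)⁻¹) (fun k : K => ext P F
      ((y : G) * ((y : G)⁻¹ * k₁⁻¹ * y * k₁) * k))]
    have h2 : ∀ k : K, ext P F ((y : G) * ((y : G)⁻¹ * k₁⁻¹ * y * k₁) *
        ((Equiv.mulLeft (⟨_, hk₂⟩ : K)⁻¹) k : K)) = ext P F ((y : G) * k) := by
      intro k
      congr 1
      simp only [Equiv.coe_mulLeft, Subgroup.coe_mul, Subgroup.coe_inv]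
      group
    rw [Finset.sum_congr rfl (fun k _ => h2 k), hin]
    congr 1
    have h3 := hF g (⟨x₁, hx₁⟩⁻¹)
    rwa [inv_inv] at h3
  rw [Finset.sum_congr rfl (fun x _ => hx x), Finset.sum_const, Finset.card_univ, nsmul_eq_mul,
    ← Nat.card_eq_fintype_card, hc1, hc2]
  have e1 : (Nat.card K : ℂ) ≠ 0 := card_ne
  have e2 : (Nat.card π.ker : ℂ) ≠ 0 := card_ne
  have e3 : (Nat.card (G ⧸ K) : ℂ) ≠ 0 := card_ne
  push_cast
  field_simp

/-- an irreducible character nontrivial on `K` is induced from a linear character nontrivial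
on `K` -/
lemma ind_irr_new (K : Subgroup G) [K.Normal] {U : Subgroup G} (hU : Hyper U) {χ : U → ℂ}
    (hχ : χ ∈ Irr U) {u : U} (hu : (u : G) ∈ K) (hne : χ u ≠ χ 1) : ind U χ ∈ NewG K := by
  classical
  have : Fintype U := Fintype.ofFinite U
  obtain ⟨W, ψ, hψ⟩ := hU.mono hχ
  have : Fintype W := Fintype.ofFinite W
  have hW : ∃ w : W, ((w : U) : G) ∈ K ∧ ψ w ≠ 1 := by
    by_contra hcon
    push Not at hcon
    let N : Subgroup U := K.subgroupOf U
    have hN : ∀ x : U, x ∈ N ↔ (x : G) ∈ K := fun x => Subgroup.mem_subgroupOf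
    have : Fintype N := Fintype.ofFinite N
    let F : U → ℂ := fun x => if x ∈ N then 1 else 0
    have hF : ∀ g x : U, F (x * g * x⁻¹) = F g := by
      intro g x
      have h1 : x * g * x⁻¹ ∈ N ↔ g ∈ N := by
        constructor
        · intro h
          have h2 := (inferInstance : N.Normal).conj_mem _ h x⁻¹
          have h3 : x⁻¹ * (x * g * x⁻¹) * x⁻¹⁻¹ = g := by group
          rwa [h3] at h2
        · intro h
          exact (inferInstance : N.Normal).conj_mem _ h x
      simp only [F, h1]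
    have h1 := frob W (fun h => ((ψ h : ℂˣ) : ℂ)) hF
    rw [← hψ] at h1
    have h2 : pr χ F = 0 := by
      rw [pr_eq]
      have h3 := sum_coset_zero hχ N ((hN u).mpr hu) hne 1
      rw [finsum_eq_sum_of_fintype] at h3
      have h4 : ∑ g : U, χ g * F g⁻¹ = ∑ n : N, χ (1 * n) := by
        have h5 : ∀ g : U, χ g * F g⁻¹ = if g ∈ N then χ g else 0 := by
          intro g
          have h6 : g⁻¹ ∈ N ↔ g ∈ N := N.inv_mem_iff
          simp only [F, h6, mul_ite, mul_one, mul_zero]
        rw [Finset.sum_congr rfl (fun g _ => h5 g), ← Finset.sum_filter,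
          Finset.sum_subtype (Finset.univ.filter fun g => g ∈ N) (p := fun g => g ∈ N) (by simp) χ]
        refine Finset.sum_congr rfl fun n _ => ?_
        rw [one_mul]
      rw [h4, h3, mul_zero]
    rw [h2, pr_eq] at h1
    have h3 : ∑ g : W, ((ψ g : ℂˣ) : ℂ) * F ((g⁻¹ : W) : U)
        = ((Finset.univ.filter fun g : W => (g : U) ∈ N).card : ℂ) := by
      rw [Finset.card_filter, Nat.cast_sum]
      refine Finset.sum_congr rfl fun g _ => ?_
      have h6 : ((g⁻¹ : W) : U) ∈ N ↔ (g : U) ∈ N := by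
        rw [Subgroup.coe_inv]; exact N.inv_mem_iff
      by_cases hg : (g : U) ∈ N
      · simp only [F, if_pos (h6.mpr hg), if_pos hg, mul_one]
        rw [hcon g ((hN _).mp hg)]
        simp
      · simp only [F, if_neg (fun h => hg (h6.mp h)), if_neg hg, mul_zero]
        simp
    rw [h3] at h1
    have h4 : ((Finset.univ.filter fun g : W => (g : U) ∈ N).card : ℂ) = 0 := by
      rcases mul_eq_zero.mp h1.symm with h | h
      · exact absurd h (inv_ne_zero card_ne)
      · exact h
    have h5 : (Finset.univ.filter fun g : W => (g : U) ∈ N).card = 0 := by exact_mod_cast h4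
    rw [Finset.card_eq_zero] at h5
    have h6 : (1 : W) ∈ Finset.univ.filter fun g : W => (g : U) ∈ N := by
      simp [one_mem]
    rw [h5] at h6
    exact absurd h6 (Finset.notMem_empty _)
  obtain ⟨w, hw, hψw⟩ := hW
  rw [hψ, ind_ind]
  apply AddSubgroup.subset_closure
  refine ⟨W.map U.subtype, ψ.comp
    (W.equivMapOfInjective U.subtype U.subtype_injective).symm.toMonoidHom,
    (hU.of_injective W.subtype W.subtype_injective).of_injective
      (W.equivMapOfInjective U.subtype U.subtype_injective).symm.toMonoidHom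
      (W.equivMapOfInjective U.subtype U.subtype_injective).symm.injective,
    ⟨W.equivMapOfInjective U.subtype U.subtype_injective w, ?_, ?_⟩, rfl⟩
  · exact hw
  · rw [MonoidHom.comp_apply]
    change ψ ((W.equivMapOfInjective U.subtype U.subtype_injective).symm
      (W.equivMapOfInjective U.subtype U.subtype_injective w)) ≠ 1
    rw [MulEquiv.symm_apply_apply]
    exact hψw

/-- an irreducible character is either invariant under a normal subgroup or has mean zero on the
cosets -/
lemma irr_inv (K : Subgroup G) [K.Normal] {χ : G → ℂ} (hχ : χ ∈ Irr G) :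
    (∀ g, ∀ k ∈ K, χ (g * k) = χ g) ∨ ((∃ k ∈ K, χ k ≠ χ 1) ∧ inv K χ = 0) := by
  classical
  have : Fintype K := Fintype.ofFinite K
  by_cases h : ∀ k ∈ K, χ k = χ 1
  · left
    obtain ⟨n, ρ, hρ, rfl⟩ := exists_rep hχ
    rcases hρ.normal_dich K with h1 | h1
    · intro g k hk
      change LinearMap.trace ℂ _ (ρ (g * k)) = LinearMap.trace ℂ _ (ρ g)
      rw [map_mul, h1 k hk, mul_one]
    · exfalso
      have h2 := h1 1
      have h3 : ∀ k : K, ρ.character (1 * k) = ρ.character 1 := by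
        intro k
        rw [one_mul]; exact h k k.2
      rw [Finset.sum_congr rfl (fun k _ => h3 k), Finset.sum_const, Finset.card_univ,
        nsmul_eq_mul, ← Nat.card_eq_fintype_card] at h2
      rcases mul_eq_zero.mp h2 with h4 | h4
      · exact card_ne h4
      · obtain ⟨d, hd, hd1⟩ := irr_deg_pos hχ
        rw [hd1] at h4
        have : d = 0 := by exact_mod_cast h4
        omega
  · right
    push Not at h
    obtain ⟨k, hk, hne⟩ := h
    refine ⟨⟨k, hk, hne⟩, ?_⟩
    funext g
    rw [inv, sum_coset_zero hχ K hk hne g, mul_zero]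
    rfl

/-- a virtual character of a hyperelementary subgroup and its invariants -/
lemma ind_sub_inv (K : Subgroup G) [K.Normal] {U : Subgroup G} (hU : Hyper U) {Φ : U → ℂ}
    (hΦ : Virt Φ) : ind U Φ - ind U (inv (K.subgroupOf U) Φ) ∈ NewG K := by
  have h1 : AddSubgroup.closure (Irr U) ≤ (NewG K).comap
      (indHom U - (indHom U).comp (invHom (K.subgroupOf U))) := by
    rw [AddSubgroup.closure_le]
    intro χ hχ
    rw [SetLike.mem_coe, AddSubgroup.mem_comap]
    change ind U χ - ind U (inv (K.subgroupOf U) χ) ∈ NewG K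
    rcases irr_inv (K.subgroupOf U) hχ with h | ⟨⟨k, hk, hne⟩, h⟩
    · rw [inv_of_const _ h, sub_self]
      exact zero_mem _
    · rw [h, ind_zero, sub_zero]
      exact ind_irr_new K hU hχ (Subgroup.mem_subgroupOf.mp hk) hne
  exact h1 hΦ

lemma virt_inv (K : Subgroup G) [K.Normal] {f : G → ℂ} (hf : Virt f) : Virt (inv K f) := by
  have h1 : AddSubgroup.closure (Irr G) ≤ (AddSubgroup.closure (Irr G)).comap (invHom K) := by
    rw [AddSubgroup.closure_le]
    intro χ hχ
    rw [SetLike.mem_coe, AddSubgroup.mem_comap, invHom_apply]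
    rcases irr_inv K hχ with h | ⟨-, h⟩
    · rw [inv_of_const _ h]
      exact AddSubgroup.subset_closure hχ
    · rw [h]
      exact zero_mem _
  exact h1 hf

/-- **Comparison.** If `G / K` is a `p`-group then a linear character of a hyperelementary subgroup
which is trivial on `K` can be moved into a Sylow `p`-subgroup. -/
lemma move {p : ℕ} (hp : p.Prime) (K : Subgroup G) [K.Normal] (hQ : IsPGroup p (G ⧸ K))
    (P : Sylow p G) {U : Subgroup G} (hU : Hyper U) (ψ : U →* ℂˣ)
    (hψ : ∀ u : U, (u : G) ∈ K → ψ u = 1) :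
    ∃ F : ↥(P : Subgroup G) → ℂ, (∀ g x : ↥(P : Subgroup G), F (x * g * x⁻¹) = F g) ∧
      (∀ g n : ↥(P : Subgroup G), (n : G) ∈ K → F (g * n) = F g) ∧
      ind U (fun h => ((ψ h : ℂˣ) : ℂ)) - ind (P : Subgroup G) F ∈ NewG K := by
  classical
  have : Fact p.Prime := ⟨hp⟩
  -- step 1: pass to a Sylow subgroup of `U`
  obtain ⟨W⟩ : Nonempty (Sylow p U) := inferInstance
  let N : Subgroup U := K.subgroupOf U
  have hN : ∀ x : U, x ∈ N ↔ (x : G) ∈ K := fun x => Subgroup.mem_subgroupOf
  have hUN : IsPGroup p (U ⧸ N) := by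
    intro q
    obtain ⟨u, rfl⟩ := QuotientGroup.mk_surjective q
    obtain ⟨k, hk⟩ := hQ (QuotientGroup.mk (u : G))
    refine ⟨k, ?_⟩
    rw [← QuotientGroup.mk_pow] at hk ⊢
    rw [QuotientGroup.eq_one_iff, hN]
    exact (QuotientGroup.eq_one_iff _).mp hk
  have hWN : ∀ g : U, ∃ x ∈ (W : Subgroup U), ∃ k ∈ N, g = x * k := by
    have h1 : (W : Subgroup U) ⊔ N = ⊤ := by
      have h2 : ((W : Subgroup U) ⊔ N).index = 1 := by
        have h3 : ((W : Subgroup U) ⊔ N).index ∣ (W : Subgroup U).index :=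
          Subgroup.index_dvd_of_le le_sup_left
        have h4 : ((W : Subgroup U) ⊔ N).index ∣ N.index :=
          Subgroup.index_dvd_of_le le_sup_right
        obtain ⟨n, hn⟩ := IsPGroup.iff_card.mp hUN
        have h5 : N.index = p ^ n := by
          rw [Subgroup.index_eq_card]; exact hn
        rw [h5] at h4
        obtain ⟨m, -, hm⟩ := (Nat.dvd_prime_pow hp).mp h4
        rw [hm] at h3 ⊢
        rcases Nat.eq_zero_or_pos m with h0 | h0
        · rw [h0, pow_zero]
        · exact absurd ((dvd_pow_self p h0.ne').trans h3) W.not_dvd_index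
      exact Subgroup.index_eq_one.mp h2
    intro g
    have hg : g ∈ (W : Subgroup U) ⊔ N := by rw [h1]; exact Subgroup.mem_top g
    rw [Subgroup.mem_sup_of_normal_right] at hg
    obtain ⟨x, hx, k, hk, rfl⟩ := hg
    exact ⟨x, hx, k, hk, rfl⟩
  let ψW : ↥(W : Subgroup U) → ℂ := fun h => ((ψ h : ℂˣ) : ℂ)
  have hψWv : Virt ψW := AddSubgroup.subset_closure (lin_irr (ψ.comp (W : Subgroup U).subtype))
  have hinv : inv N (ind (W : Subgroup U) ψW) = fun h => ((ψ h : ℂˣ) : ℂ) := by
    funext g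
    obtain ⟨x, hx, k, hk, rfl⟩ := hWN g
    rw [inv_mul_mem _ _ _ hk]
    have h1 := inv_ind_of_surj N (W : Subgroup U) hWN (F := ψW) (by
      intro g x
      exact hψWv.conj g x) (by
      intro g n hn
      change ((ψ ((g : U) * (n : U)) : ℂˣ) : ℂ) = ((ψ g : ℂˣ) : ℂ)
      rw [map_mul, hψ (n : U) ((hN _).mp hn), mul_one]) ⟨x, hx⟩
    rw [h1]
    change ((ψ x : ℂˣ) : ℂ) = _
    rw [map_mul, hψ k ((hN _).mp hk), mul_one]
  have hs1 := ind_sub_inv K hU (virt_ind (W : Subgroup U) hψWv)
  change ind U (ind (W : Subgroup U) ψW) - ind U (inv N (ind (W : Subgroup U) ψW)) ∈ NewG K at hs1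
  rw [hinv, ind_ind] at hs1
  -- step 2: conjugate into `P`
  let W' : Subgroup G := (W : Subgroup U).map U.subtype
  have hW'p : IsPGroup p W' := W.isPGroup'.map U.subtype
  obtain ⟨P', hP'⟩ := hW'p.exists_le_sylow
  obtain ⟨g, hg⟩ := MulAction.exists_smul_eq G P P'
  have hgP : ∀ z : G, g⁻¹ * z * g ∈ (P : Subgroup G) ↔ z ∈ (P' : Subgroup G) := by
    intro z
    rw [← hg]
    change _ ↔ z ∈ (MulAut.conj g • (P : Subgroup G))
    rw [Subgroup.mem_pointwise_smul_iff_inv_smul_mem]
    have h1 : (MulAut.conj g)⁻¹ • z = g⁻¹ * z * g := by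
      rw [← map_inv]
      change MulAut.conj g⁻¹ z = _
      rw [MulAut.conj_apply, inv_inv]
    rw [h1]
  -- the conjugate subgroup
  let V : Subgroup ↥(P : Subgroup G) := (W'.comap (MulAut.conj g).toMonoidHom).comap (P : Subgroup G).subtype
  have hV : ∀ z : ↥(P : Subgroup G), z ∈ V ↔ g * z * g⁻¹ ∈ W' := fun z => Iff.rfl
  have hmem : ∀ z : ↥(P : Subgroup G), z ∈ V → g * z * g⁻¹ ∈ W' := fun z hz => (hV z).mp hz
  let ψV : V → ℂ := fun z => tr U (W : Subgroup U) ψW ⟨g * z * g⁻¹, hmem _ z.2⟩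
  have hconj : ind (V.map (P : Subgroup G).subtype) (tr (P : Subgroup G) V ψV)
      = ind W' (tr U (W : Subgroup U) ψW) := by
    refine ind_conj W' _ g ?_ _ _ ?_
    · intro z
      constructor
      · rintro ⟨y, hy, rfl⟩
        exact (hV y).mp hy
      · intro hz
        have h1 : z ∈ (P : Subgroup G) := by
          have h2 := (hgP _).mpr (hP' hz)
          have h3 : g⁻¹ * (g * z * g⁻¹) * g = z := by group
          rwa [h3] at h2
        exact ⟨⟨z, h1⟩, hz, rfl⟩
    · intro z hz
      obtain ⟨y, hy, rfl⟩ := hz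
      have h1 := ext_tr (P : Subgroup G) V ψV y
      have h2 : ((y : ↥(P : Subgroup G)) : G) ∈ V.map (P : Subgroup G).subtype := ⟨y, hy, rfl⟩
      rw [ext_mem _ _ h2, ext_mem _ _ hy] at h1
      exact h1
  have hψVv : Virt ψV := by
    have h1 : Virt (tr U (W : Subgroup U) ψW) :=
      AddSubgroup.subset_closure (lin_irr ((ψ.comp (W : Subgroup U).subtype).comp
        ((W : Subgroup U).equivMapOfInjective U.subtype U.subtype_injective).symm.toMonoidHom))
    let φ : V →* W' :=
      { toFun := fun z => ⟨g * z * g⁻¹, hmem _ z.2⟩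
        map_one' := by apply Subtype.ext; simp
        map_mul' := by
          intro a b
          apply Subtype.ext
          simp only [Subgroup.coe_mul]
          group }
    exact Virt.comp h1 φ
  -- step 3: take invariants
  have hPh : Hyper (P : Subgroup G) := Hyper.of_pgroup hp P.isPGroup'
  have hPhi : Virt (ind V ψV) := virt_ind V hψVv
  have hs2 := ind_sub_inv K hPh hPhi
  rw [ind_ind, hconj] at hs2
  refine ⟨inv (K.subgroupOf (P : Subgroup G)) (ind V ψV), ?_, ?_, ?_⟩
  · exact inv_class _ hPhi.conj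
  · intro g n hn
    exact inv_mul_mem _ _ _ (Subgroup.mem_subgroupOf.mpr hn)
  · have h1 := sub_mem hs2 hs1
    have h2 : ind W' (tr U (W : Subgroup U) ψW) -
        ind (P : Subgroup G) (inv (K.subgroupOf (P : Subgroup G)) (ind V ψV)) -
        (ind W' (tr U (W : Subgroup U) ψW) - ind U (fun h => ((ψ h : ℂˣ) : ℂ)))
        = ind U (fun h => ((ψ h : ℂˣ) : ℂ)) -
          ind (P : Subgroup G) (inv (K.subgroupOf (P : Subgroup G)) (ind V ψV)) := by abel
    rw [← h2]
    exact h1

/-- **Reduction.** Modulo the characters induced from characters nontrivial on `K`, a virtual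
character is induced from the restriction of its invariants to a Sylow subgroup. -/
theorem reduce {p : ℕ} (hp : p.Prime) (K : Subgroup G) [K.Normal] (hQ : IsPGroup p (G ⧸ K))
    (P : Sylow p G) {f : G → ℂ} (hf : Virt f) :
    f - ind (P : Subgroup G) (fun h => inv K f h) ∈ NewG K := by
  classical
  have : Fact p.Prime := ⟨hp⟩
  let res : (G → ℂ) →+ (↥(P : Subgroup G) → ℂ) := AddMonoidHom.mk' (fun f h => f h)
    (fun a b => rfl)
  have hPK : ∀ g : G, ∃ x ∈ (P : Subgroup G), ∃ k ∈ K, g = x * k := by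
    have h1 : (P : Subgroup G) ⊔ K = ⊤ := by
      have h2 : ((P : Subgroup G) ⊔ K).index = 1 := by
        have h3 : ((P : Subgroup G) ⊔ K).index ∣ (P : Subgroup G).index :=
          Subgroup.index_dvd_of_le le_sup_left
        have h4 : ((P : Subgroup G) ⊔ K).index ∣ K.index :=
          Subgroup.index_dvd_of_le le_sup_right
        obtain ⟨n, hn⟩ := IsPGroup.iff_card.mp hQ
        have h5 : K.index = p ^ n := by
          rw [Subgroup.index_eq_card]; exact hn
        rw [h5] at h4
        obtain ⟨m, -, hm⟩ := (Nat.dvd_prime_pow hp).mp h4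
        rw [hm] at h3 ⊢
        rcases Nat.eq_zero_or_pos m with h0 | h0
        · rw [h0, pow_zero]
        · exact absurd ((dvd_pow_self p h0.ne').trans h3) P.not_dvd_index
      exact Subgroup.index_eq_one.mp h2
    intro g
    have hg : g ∈ (P : Subgroup G) ⊔ K := by rw [h1]; exact Subgroup.mem_top g
    rw [Subgroup.mem_sup_of_normal_right] at hg
    obtain ⟨x, hx, k, hk, rfl⟩ := hg
    exact ⟨x, hx, k, hk, rfl⟩
  have h1 : MonG G ≤ (NewG K).comap
      (AddMonoidHom.id _ - (indHom (P : Subgroup G)).comp (res.comp (invHom K))) := by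
    rw [MonG, AddSubgroup.closure_le]
    rintro f ⟨U, ψ, hU, rfl⟩
    rw [SetLike.mem_coe, AddSubgroup.mem_comap]
    change ind U (fun h => ((ψ h : ℂˣ) : ℂ)) - ind (P : Subgroup G)
      (fun h => inv K (ind U (fun h => ((ψ h : ℂˣ) : ℂ))) h) ∈ NewG K
    by_cases hψ : ∀ u : U, (u : G) ∈ K → ψ u = 1
    · obtain ⟨F, hF, hFK, hs⟩ := move hp K hQ P hU ψ hψ
      have h2 : (fun h : (P : Subgroup G) => inv K (ind U (fun h => ((ψ h : ℂˣ) : ℂ))) h) = F := by
        have h3 := inv_new K hs
        have h4 : inv K (ind U (fun h => ((ψ h : ℂˣ) : ℂ)) - ind (P : Subgroup G) F)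
            = inv K (ind U (fun h => ((ψ h : ℂˣ) : ℂ))) - inv K (ind (P : Subgroup G) F) :=
          map_sub (invHom K) _ _
        rw [h4] at h3
        funext h
        have h5 := congrFun h3 (h : G)
        rw [Pi.sub_apply, inv_ind_of_surj K (P : Subgroup G) hPK hF hFK h] at h5
        exact sub_eq_zero.mp h5
      rw [h2]
      exact hs
    · push Not at hψ
      obtain ⟨u, hu, hψu⟩ := hψ
      have h2 : ind U (fun h => ((ψ h : ℂˣ) : ℂ)) ∈ NewG K :=
        AddSubgroup.subset_closure ⟨U, ψ, hU, ⟨u, hu, hψu⟩, rfl⟩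
      rw [inv_new K h2]
      have h3 : ind (P : Subgroup G) (fun h : (P : Subgroup G) => (0 : G → ℂ) h) = 0 := ind_zero _
      rw [h3, sub_zero]
      exact h2
  exact h1 (virt_mem_mon hf)

end Pool.Agent.R389
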