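import Mathlib
import Pool.Agent.R389.Old

/-!
# Decomposition of characters into old and new parts
-/

set_option autoImplicit false
set_option linter.unusedSectionVars false

namespace Pool.Agent.R389

open Pool.Agent.H302R2 Pool.Agent.H302R3 Pool.Agent.H541R3.ART Pool.Agent.W446.AS

variable {G : Type} [Group G] [Finite G]

/-- sums of characters induced from linear characters of hyperelementary subgroups -/
def MonP (G : Type) [Group G] : AddSubmonoid (G → ℂ) :=
  AddSubmonoid.closure {f | ∃ (U : Subgroup G) (ψ : U →* ℂˣ), Hyper U ∧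
    f = ind U (fun h => ((ψ h : ℂˣ) : ℂ))}

/-- the group generated by the characters induced from linear characters of hyperelementary
subgroups which differ from `lam` on `K` -/
def NewT (K : Subgroup G) (lam : G →* ℂˣ) : AddSubgroup (G → ℂ) :=
  AddSubgroup.closure {f | ∃ (U : Subgroup G) (ψ : U →* ℂˣ), Hyper U ∧
    (∃ u : U, (u : G) ∈ K ∧ ψ u ≠ lam u) ∧ f = ind U (fun h => ((ψ h : ℂˣ) : ℂ))}

lemma lin_conj (lam : G →* ℂˣ) (g x : G) :
    ((lam (x * g * x⁻¹) : ℂˣ) : ℂ) = ((lam g : ℂˣ) : ℂ) := by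
  rw [map_mul, map_mul, map_inv, mul_comm (lam x), mul_assoc, mul_inv_cancel, mul_one]

/-- twisting an irreducible character by a linear character -/
lemma irr_twist {χ : G → ℂ} (hχ : χ ∈ Irr G) (lam : G →* ℂˣ) :
    (fun g => χ g * ((lam g : ℂˣ) : ℂ)) ∈ Irr G := by
  obtain ⟨n, ρ, hρ, rfl⟩ := exists_rep hχ
  let σ : Representation ℂ G (Fin n → ℂ) :=
    { toFun := fun g => ((lam g : ℂˣ) : ℂ) • ρ g
      map_one' := by simp
      map_mul' := by
        intro a b
        rw [map_mul, map_mul, Units.val_mul, smul_mul_smul_comm] }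
  have h1 : Irred σ := by
    refine ⟨hρ.1, fun W hW => hρ.2 W fun g v hv => ?_⟩
    have h2 := hW g v hv
    have h3 : σ g v = ((lam g : ℂˣ) : ℂ) • ρ g v := rfl
    rw [h3] at h2
    have h4 := W.smul_mem (((lam g)⁻¹ : ℂˣ) : ℂ) h2
    rwa [smul_smul, ← Units.val_mul, inv_mul_cancel, Units.val_one, one_smul] at h4
  have h2 := irr_of_irred h1
  have h3 : σ.character = fun g => ρ.character g * ((lam g : ℂˣ) : ℂ) := by
    funext g
    change LinearMap.trace ℂ _ (((lam g : ℂˣ) : ℂ) • ρ g) = LinearMap.trace ℂ _ (ρ g) * _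
    rw [map_smul, smul_eq_mul, mul_comm]
  rwa [h3] at h2

/-- twisting -/
noncomputable def twHom (lam : G →* ℂˣ) : (G → ℂ) →+ (G → ℂ) :=
  AddMonoidHom.mk' (fun f g => f g * ((lam g : ℂˣ) : ℂ)) (fun a b => by
    funext g
    change (a g + b g) * _ = a g * _ + b g * _
    ring)

lemma new_twist (K : Subgroup G) (lam : G →* ℂˣ) : NewG K ≤ (NewT K lam).comap (twHom lam) := by
  rw [NewG, AddSubgroup.closure_le]
  rintro f ⟨U, ψ, hU, ⟨u, hu, hψ⟩, rfl⟩
  rw [SetLike.mem_coe, AddSubgroup.mem_comap]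
  apply AddSubgroup.subset_closure
  refine ⟨U, ψ * lam.comp U.subtype, hU, ⟨u, hu, ?_⟩, ?_⟩
  · intro h
    apply hψ
    rw [MonoidHom.mul_apply] at h
    exact mul_eq_right.mp h
  · funext g
    change ind U (fun h => ((ψ h : ℂˣ) : ℂ)) g * ((lam g : ℂˣ) : ℂ) = _
    rw [← ind_mul U (fun h => ((ψ h : ℂˣ) : ℂ)) (F := fun g => ((lam g : ℂˣ) : ℂ))
      (lin_conj lam) g]
    rfl

/-- multiplicities of irreducible characters of hyperelementary subgroups are natural numbers -/
lemma pr_nat {P : Subgroup G} (hP : Hyper P) {χ : G → ℂ} (hχ : χ ∈ Irr G) {φ : P → ℂ}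
    (hφ : φ ∈ Irr P) : ∃ n : ℕ, pr (fun h : P => χ h) φ = n := by
  classical
  obtain ⟨W, ψ, hψ⟩ := hP.mono hφ
  have h1 : pr (fun h : P => χ h) φ = pr (fun w : W => χ ((w : P) : G)) (fun w => ((ψ w : ℂˣ) : ℂ)) := by
    rw [hψ]
    exact frob' W _ (F := fun h : P => χ h) (fun g x => Irr.conj hχ (g : G) (x : G))
  let e := W.equivMapOfInjective P.subtype P.subtype_injective
  obtain ⟨m, hm⟩ := exists_mult hχ (W.map P.subtype) (ψ.comp e.symm.toMonoidHom)
  refine ⟨m, ?_⟩
  rw [h1]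
  have : Fintype W := Fintype.ofFinite W
  have : Fintype (W.map P.subtype) := Fintype.ofFinite _
  rw [pr_eq]
  rw [finsum_eq_sum_of_fintype, ← Equiv.sum_comp e.toEquiv] at hm
  have h2 : ∀ w : W, χ ((e.toEquiv w : W.map P.subtype) : G) *
      ((((ψ.comp e.symm.toMonoidHom) (e.toEquiv w))⁻¹ : ℂˣ) : ℂ)
      = χ ((w : P) : G) * ((ψ w⁻¹ : ℂˣ) : ℂ) := by
    intro w
    have h3 : (ψ.comp e.symm.toMonoidHom) (e.toEquiv w) = ψ w := by
      change ψ (e.symm (e w)) = ψ w
      rw [MulEquiv.symm_apply_apply]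
    rw [h3, map_inv]
    rfl
  rw [Finset.sum_congr rfl (fun w _ => h2 w)] at hm
  rw [hm]
  have h4 : Nat.card (W.map P.subtype) = Nat.card W := (Nat.card_congr e.toEquiv).symm
  rw [h4]
  have h5 : (Nat.card W : ℂ) ≠ 0 := card_ne
  field_simp

/-- inducing the restriction of a character to a hyperelementary subgroup -/
lemma ind_res_mem {P : Subgroup G} (hP : Hyper P) {χ : G → ℂ} (hχ : χ ∈ Irr G) :
    ind P (fun h => χ h) ∈ MonP G := by
  classical
  choose! n hn using fun φ (hφ : φ ∈ Irr P) => pr_nat hP hχ hφ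
  have h1 : (fun h : P => χ h) = ∑ φ ∈ irrF P, n φ • φ := by
    funext h
    rw [class_expand (f := fun h : P => χ h) (fun g x => Irr.conj hχ (g : G) (x : G)) h,
      Finset.sum_apply]
    refine Finset.sum_congr rfl fun φ hφ => ?_
    rw [hn φ (mem_irrF.mp hφ), Pi.smul_apply, nsmul_eq_mul]
  rw [h1, ← indHom_apply, map_sum]
  refine sum_mem fun φ hφ => ?_
  rw [map_nsmul]
  refine nsmul_mem ?_ _
  obtain ⟨W, ψ, hW, -, h3⟩ := ind_mono_mem hP (mem_irrF.mp hφ)
  rw [indHom_apply, h3]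
  exact AddSubmonoid.subset_closure ⟨W, ψ, hW, rfl⟩

/-- **Decomposition.** -/
theorem decomp {p : ℕ} (hp : p.Prime) (K : Subgroup G) [K.Normal] (hQ : IsPGroup p (G ⧸ K))
    (lam : G →* ℂˣ) {f : G → ℂ} (hf : f ∈ AddSubmonoid.closure (Irr G)) :
    ∃ a ∈ MonP G, ∃ s ∈ NewT K lam, f = a + s := by
  classical
  have : Fact p.Prime := ⟨hp⟩
  obtain ⟨P⟩ : Nonempty (Sylow p G) := inferInstance
  induction hf using AddSubmonoid.closure_induction with
  | zero => exact ⟨0, zero_mem _, 0, zero_mem _, (add_zero _).symm⟩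
  | add a b _ _ ha hb =>
    obtain ⟨a₁, ha₁, s₁, hs₁, rfl⟩ := ha
    obtain ⟨a₂, ha₂, s₂, hs₂, rfl⟩ := hb
    exact ⟨a₁ + a₂, add_mem ha₁ ha₂, s₁ + s₂, add_mem hs₁ hs₂, by abel⟩
  | mem χ hχ =>
    have hχ' := irr_twist hχ lam⁻¹
    set χ' : G → ℂ := fun g => χ g * ((lam⁻¹ g : ℂˣ) : ℂ) with hχ'def
    have hback : twHom lam χ' = χ := by
      funext g
      change χ g * ((lam⁻¹ g : ℂˣ) : ℂ) * ((lam g : ℂˣ) : ℂ) = χ g
      rw [MonoidHom.inv_apply, mul_assoc, ← Units.val_mul, inv_mul_cancel, Units.val_one, mul_one]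
    have h1 := new_twist K lam (reduce hp K hQ P (AddSubgroup.subset_closure hχ'))
    rw [AddSubgroup.mem_comap, map_sub, hback] at h1
    rcases irr_inv K hχ' with h | ⟨-, h⟩
    · refine ⟨_, ind_res_mem (Hyper.of_pgroup hp P.isPGroup') hχ, _, h1, ?_⟩
      have h2 : twHom lam (ind (P : Subgroup G) (fun h => inv K χ' h))
          = ind (P : Subgroup G) (fun h => χ h) := by
        rw [inv_of_const K h]
        funext g
        change ind (P : Subgroup G) (fun h => χ' h) g * ((lam g : ℂˣ) : ℂ) = _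
        rw [← ind_mul (P : Subgroup G) (fun h => χ' h) (F := fun g => ((lam g : ℂˣ) : ℂ))
          (lin_conj lam) g]
        congr 1
        funext y
        exact congrFun hback (y : G)
      rw [h2]
      abel
    · refine ⟨0, zero_mem _, _, h1, ?_⟩
      rw [h]
      have h3 : ind (P : Subgroup G) (fun h : (P : Subgroup G) => (0 : G → ℂ) h) = 0 := ind_zero _
      rw [h3, map_zero, sub_zero, zero_add]

end Pool.Agent.R389
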