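import Mathlib
import Pool.Agent.R389.Dec

/-!
# Class functions with nonnegative multiplicities on hyperelementary subgroups
-/

set_option autoImplicit false
set_option linter.unusedSectionVars false

namespace Pool.Agent.R389

open Pool.Agent.H302R2 Pool.Agent.H302R3 Pool.Agent.H541R3.ART Pool.Agent.W446.AS

variable {G : Type} [Group G] [Finite G]

/-- nonnegative integral multiplicities against monomial characters of hyperelementary type -/
structure HH (θ : G → ℂ) : Prop where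
  conj : ∀ g x : G, θ (x * g * x⁻¹) = θ g
  nat : ∀ (U : Subgroup G) (ψ : U →* ℂˣ), Hyper U →
    ∃ n : ℕ, pr θ (ind U (fun h => ((ψ h : ℂˣ) : ℂ))) = n

variable {θ : G → ℂ}

lemma HH.heil (hθ : HH θ) {U : Subgroup G} (hU : Hyper U) : IsHeilbronn (fun h : U => θ h) where
  conj g h := hθ.conj (g : G) (h : G)
  mult H ψ := by
    classical
    have : Fintype H := Fintype.ofFinite H
    obtain ⟨n, hn⟩ := hθ.nat (H.map U.subtype)
      (ψ.comp (H.equivMapOfInjective U.subtype U.subtype_injective).symm.toMonoidHom)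
      ((hU.of_injective H.subtype H.subtype_injective).of_injective
      (H.equivMapOfInjective U.subtype U.subtype_injective).symm.toMonoidHom
      (H.equivMapOfInjective U.subtype U.subtype_injective).symm.injective)
    refine ⟨n, ?_⟩
    have h1 : ind U (ind H (fun h => ((ψ h : ℂˣ) : ℂ))) = ind (H.map U.subtype)
        (fun h => (((ψ.comp (H.equivMapOfInjective U.subtype
          U.subtype_injective).symm.toMonoidHom) h : ℂˣ) : ℂ)) := by
      rw [ind_ind]
      rfl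
    rw [← h1, frob' U _ hθ.conj,
      frob' H _ (F := fun h : U => θ h) (fun g x => hθ.conj (g : G) (x : G)), pr_eq] at hn
    rw [finsum_eq_sum_of_fintype]
    have h2 : ∀ h : H, ((ψ h⁻¹ : ℂˣ) : ℂ) = (((ψ h)⁻¹ : ℂˣ) : ℂ) := by
      intro h
      rw [map_inv]
    simp only [h2] at hn
    rw [← hn]
    have h3 : (Nat.card H : ℂ) ≠ 0 := card_ne
    field_simp

lemma HH.deg (hθ : HH θ) : ∃ r : ℕ, θ 1 = r := by
  obtain ⟨r, hr⟩ := (hθ.heil (Hyper.cyclic (1 : G))).exists_deg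
  exact ⟨r, by simpa using hr⟩

lemma HH.norm_le (hθ : HH θ) (g : G) : ‖θ g‖ ≤ (θ 1).re := by
  have := (hθ.heil (Hyper.cyclic g)).norm_le ⟨g, Subgroup.mem_zpowers g⟩
  simpa using this

/-- multiplicities of irreducible characters of hyperelementary subgroups -/
lemma HH.nat_irr (hθ : HH θ) {U : Subgroup G} (hU : Hyper U) {χ : U → ℂ} (hχ : χ ∈ Irr U) :
    ∃ n : ℕ, pr (fun h : U => θ h) χ = n := by
  obtain ⟨W, ψ, hW, -, h3⟩ := ind_mono_mem hU hχ
  obtain ⟨n, hn⟩ := hθ.nat W ψ hW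
  refine ⟨n, ?_⟩
  rw [← frob' U _ hθ.conj, h3, hn]

lemma pr_sum_right {ι : Type*} (s : Finset ι) (a : G → ℂ) (c : ι → ℂ) (b : ι → G → ℂ) :
    pr a (fun g => ∑ i ∈ s, c i * b i g) = ∑ i ∈ s, c i * pr a (b i) := by
  classical
  have : Fintype G := Fintype.ofFinite G
  simp only [pr_eq, Finset.mul_sum]
  rw [Finset.sum_comm]
  refine Finset.sum_congr rfl fun i _ => Finset.sum_congr rfl fun g _ => ?_
  ring

/-- orthogonality to the characters which are new on `K` -/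
lemma HH.ortho (hθ : HH θ) {K : Subgroup G} {lam : G →* ℂˣ}
    (hK : ∀ k ∈ K, θ k = ((lam k : ℂˣ) : ℂ) * θ 1) {U : Subgroup G} (hU : Hyper U)
    {ψ : U →* ℂˣ} {u : U} (hu : (u : G) ∈ K) (hne : ψ u ≠ lam u) :
    pr θ (ind U (fun h => ((ψ h : ℂˣ) : ℂ))) = 0 := by
  classical
  rw [frob' U _ hθ.conj]
  let C : Subgroup U := Subgroup.zpowers u
  have : Fintype C := Fintype.ofFinite C
  have : Fintype U := Fintype.ofFinite U
  have hCK : ∀ z : C, ((z : U) : G) ∈ K := by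
    rintro ⟨z, k, rfl⟩
    change ((u ^ k : U) : G) ∈ K
    rw [Subgroup.coe_zpow]
    exact K.zpow_mem hu k
  let ψC : C → ℂ := fun z => ((ψ z : ℂˣ) : ℂ)
  have hψC : ψC ∈ Irr C := lin_irr (ψ.comp C.subtype)
  have hcl : ∀ g x : U, (fun h : U => θ h) (x * g * x⁻¹) = (fun h : U => θ h) g :=
    fun g x => hθ.conj (g : G) (x : G)
  -- the multiplicity over `C` vanishes
  have h1 : pr (fun z : C => θ ((z : U) : G)) ψC = 0 := by
    rw [pr_eq]
    have h2 : ∀ z : C, θ ((z : U) : G) * ψC z⁻¹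
        = θ 1 * (((((lam.comp U.subtype).comp C.subtype) * (ψ.comp C.subtype)⁻¹) z : ℂˣ) : ℂ) := by
      intro z
      rw [hK _ (hCK z), MonoidHom.mul_apply, MonoidHom.inv_apply]
      change ((lam ((z : U) : G) : ℂˣ) : ℂ) * θ 1 * ((ψ ((z⁻¹ : C) : U) : ℂˣ) : ℂ)
        = θ 1 * (((lam ((z : U) : G)) * (ψ (z : U))⁻¹ : ℂˣ) : ℂ)
      rw [Subgroup.coe_inv, map_inv]
      push_cast
      ring
    rw [Finset.sum_congr rfl (fun z _ => h2 z), ← Finset.mul_sum]
    have h3 := finsum_char_eq_zero (((lam.comp U.subtype).comp C.subtype) * (ψ.comp C.subtype)⁻¹) (by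
      intro h
      have h4 := DFunLike.congr_fun h ⟨u, Subgroup.mem_zpowers u⟩
      rw [MonoidHom.mul_apply, MonoidHom.inv_apply, MonoidHom.one_apply] at h4
      exact hne (mul_inv_eq_one.mp h4).symm)
    rw [finsum_eq_sum_of_fintype] at h3
    rw [h3, mul_zero, mul_zero]
  have hCh : Hyper C := hU.of_injective C.subtype C.subtype_injective
  choose! m hm using fun χ (hχ : χ ∈ Irr U) => pr_nat hCh hχ hψC
  choose! n hn using fun χ (hχ : χ ∈ Irr U) => hθ.nat_irr hU hχ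
  have h2 : pr (fun h : U => θ h) (ind C ψC) = ((∑ χ ∈ irrF U, m χ * n χ : ℕ) : ℂ) := by
    have h3 : ind C ψC = fun g => ∑ χ ∈ irrF U, (m χ : ℂ) * χ g := by
      funext g
      rw [class_expand (ind_class C ψC) g]
      refine Finset.sum_congr rfl fun χ hχ => ?_
      rw [frob C ψC (Irr.conj (mem_irrF.mp hχ)), pr_comm, hm χ (mem_irrF.mp hχ)]
    rw [h3, pr_sum_right]
    push_cast
    refine Finset.sum_congr rfl fun χ hχ => ?_
    rw [hn χ (mem_irrF.mp hχ)]
  rw [frob' C ψC hcl, h1] at h2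
  have h3 : ∑ χ ∈ irrF U, m χ * n χ = 0 := by exact_mod_cast h2.symm
  have hψI : (fun h : U => ((ψ h : ℂˣ) : ℂ)) ∈ Irr U := lin_irr ψ
  have h4 := Finset.sum_eq_zero_iff.mp h3 _ (mem_irrF.mpr hψI)
  have h5 : m (fun h : U => ((ψ h : ℂˣ) : ℂ)) = 1 := by
    have h6 := hm _ hψI
    have h7 : pr (fun h : C => ((ψ h : ℂˣ) : ℂ)) ψC = 1 := pr_self hψC
    rw [h7] at h6
    exact_mod_cast h6.symm
  rw [h5, one_mul] at h4
  rw [hn _ hψI, h4]
  simp

/-- full average over `K` -/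
lemma HH.of_average (hθ : HH θ) {K : Subgroup G} {lam : G →* ℂˣ}
    (h : ∑ᶠ k : K, θ k * (((lam k)⁻¹ : ℂˣ) : ℂ) = θ 1 * Nat.card K) :
    ∀ k ∈ K, θ k = ((lam k : ℂˣ) : ℂ) * θ 1 := by
  classical
  have : Fintype K := Fintype.ofFinite K
  obtain ⟨r, hr⟩ := hθ.deg
  rw [finsum_eq_sum_of_fintype, hr] at h
  have hn : ∀ k : K, ‖θ k * (((lam k)⁻¹ : ℂˣ) : ℂ)‖ ≤ r := by
    intro k
    have h3 : ‖(((lam k)⁻¹ : ℂˣ) : ℂ)‖ = 1 := by
      have h4 : (((lam k)⁻¹ : ℂˣ) : ℂ) ^ (Nat.card G) = 1 := by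
        rw [← Units.val_pow_eq_pow_val, ← map_inv, ← map_pow, pow_card_eq_one', map_one,
          Units.val_one]
      exact Complex.norm_eq_one_of_pow_eq_one h4 Nat.card_pos.ne'
    rw [norm_mul, h3, mul_one]
    have := hθ.norm_le (k : G)
    rw [hr, Complex.natCast_re] at this
    exact this
  have h1 : ∑ k : K, ((r : ℝ) - (θ k * (((lam k)⁻¹ : ℂˣ) : ℂ)).re) = 0 := by
    rw [Finset.sum_sub_distrib, ← Complex.re_sum, h, Finset.sum_const, Finset.card_univ,
      nsmul_eq_mul, ← Nat.card_eq_fintype_card]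
    simp [mul_comm]
  have h2 := (Finset.sum_eq_zero_iff_of_nonneg (fun k _ => by
    have := (Complex.re_le_norm _).trans (hn k)
    linarith)).mp h1
  intro k hk
  have h3 := h2 ⟨k, hk⟩ (Finset.mem_univ _)
  simp only at h3
  have h4 := hn ⟨k, hk⟩
  simp only at h4
  set z := θ k * (((lam k)⁻¹ : ℂˣ) : ℂ) with hz
  have h5 : z.re = r := by linarith
  have h6 : ‖z‖ = r := le_antisymm h4 (h5 ▸ Complex.re_le_norm z)
  have h8 := Complex.sq_norm_sub_sq_re z
  rw [h5, h6] at h8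
  have h9 : z = r := by
    apply Complex.ext
    · simpa using h5
    · have : z.im ^ 2 = 0 := by linarith
      simpa using this
  have h10 : θ k = z * ((lam k : ℂˣ) : ℂ) := by
    rw [hz, mul_assoc, ← Units.val_mul, inv_mul_cancel, Units.val_one, mul_one]
  rw [h10, h9, hr, mul_comm]

/-- irreducible characters of degree one -/
lemma irr_deg_one {χ : G → ℂ} (hχ : χ ∈ Irr G) (h1 : χ 1 = 1) :
    ∃ lam : G →* ℂˣ, ∀ g, χ g = ((lam g : ℂˣ) : ℂ) := by
  obtain ⟨n, ρ, hρ, rfl⟩ := exists_rep hχ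
  have h2 : Module.finrank ℂ (Fin n → ℂ) = 1 := by
    have h3 : ρ.character 1 = (Module.finrank ℂ (Fin n → ℂ) : ℂ) := ρ.char_one
    rw [h3] at h1
    exact_mod_cast h1
  have h3 : ∀ g, ∃ c : ℂ, ρ g = c • (1 : (Fin n → ℂ) →ₗ[ℂ] (Fin n → ℂ)) := by
    intro g
    obtain ⟨v, hv, hspan⟩ := finrank_eq_one_iff'.mp h2
    obtain ⟨c, hc⟩ := hspan (ρ g v)
    refine ⟨c, LinearMap.ext fun w => ?_⟩
    obtain ⟨d, rfl⟩ := hspan w
    rw [map_smul, ← hc, LinearMap.smul_apply, Module.End.one_apply, smul_comm]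
  choose c hc using h3
  have htr : ∀ g, ρ.character g = c g := by
    intro g
    change LinearMap.trace ℂ _ (ρ g) = c g
    rw [hc, map_smul, LinearMap.trace_one, h2]
    simp
  have hmul : ∀ a b, c (a * b) = c a * c b := by
    intro a b
    obtain ⟨v, hv, hspan⟩ := finrank_eq_one_iff'.mp h2
    have h4 := congrArg (fun T : (Fin n → ℂ) →ₗ[ℂ] (Fin n → ℂ) => T v) (map_mul ρ a b)
    simp only [Module.End.mul_apply] at h4
    rw [hc, hc a, hc b] at h4
    simp only [LinearMap.smul_apply, Module.End.one_apply, smul_smul] at h4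
    have h5 : (c (a * b) - c a * c b) • v = 0 := by rw [sub_smul, h4, sub_self]
    rcases smul_eq_zero.mp h5 with h6 | h6
    · exact sub_eq_zero.mp h6
    · exact absurd h6 hv
  have hone : c 1 = 1 := by rw [← htr, h1]
  let f : G →* ℂ := { toFun := c, map_one' := hone, map_mul' := hmul }
  exact ⟨f.toHomUnits, fun g => htr g⟩

/-- degree at most one -/
lemma HH.deg_le_one (hθ : HH θ) (hV : Virt θ) {r : ℕ} (hr : θ 1 = r) (hr1 : r ≤ 1) :
    ∃ lam : G →* ℂˣ, ∀ g, θ g = ((lam g : ℂˣ) : ℂ) * θ 1 := by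
  classical
  have : Fintype G := Fintype.ofFinite G
  rcases Nat.le_one_iff_eq_zero_or_eq_one.mp hr1 with rfl | rfl
  · refine ⟨1, fun g => ?_⟩
    have h1 := hθ.norm_le g
    rw [hr] at h1 ⊢
    simp only [Nat.cast_zero, Complex.zero_re, norm_le_zero_iff] at h1
    rw [h1]; simp
  have h1 : θ 1 = 1 := by rw [hr]; simp
  have hnorm : pr θ θ = 1 := by
    rw [pr_eq]
    have h2 : ∀ g : G, θ g * θ g⁻¹ = 1 := by
      intro g
      have h3 : IsHeilbronn (fun x : Subgroup.zpowers g => θ x) := hθ.heil (Hyper.cyclic g)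
      obtain ⟨ι, _, φ, n, h4⟩ := h3.comm_decomp (zpowers_comm g)
      have h5 : (∑ i, (n i : ℂ)) = 1 := by
        have h6 := h4 1
        simp only [Subgroup.coe_one, h1, map_one, Units.val_one, mul_one] at h6
        exact h6.symm
      have h6 : ∑ i, n i = 1 := by exact_mod_cast h5
      obtain ⟨i, -, hi⟩ : ∃ i ∈ Finset.univ, n i ≠ 0 := by
        by_contra hcon
        push Not at hcon
        rw [Finset.sum_eq_zero hcon] at h6
        omega
      have hi1 : n i = 1 ∧ ∀ j, j ≠ i → n j = 0 := by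
        have h7 := Finset.add_sum_erase Finset.univ n (Finset.mem_univ i)
        rw [h6] at h7
        have h8 : n i = 1 := by omega
        refine ⟨h8, fun j hj => ?_⟩
        have h9 : ∑ j ∈ Finset.univ.erase i, n j = 0 := by omega
        exact Finset.sum_eq_zero_iff.mp h9 j (Finset.mem_erase.mpr ⟨hj, Finset.mem_univ j⟩)
      have h7 : ∀ e : Subgroup.zpowers g, θ e = ((φ i e : ℂˣ) : ℂ) := by
        intro e
        rw [h4 e, Finset.sum_eq_single i]
        · rw [hi1.1]; simp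
        · intro j _ hj
          rw [hi1.2 j hj]; simp
        · intro h; exact absurd (Finset.mem_univ i) h
      have h9 := h7 (⟨g, Subgroup.mem_zpowers g⟩⁻¹)
      have h10 : θ g⁻¹ = ((φ i (⟨g, Subgroup.mem_zpowers g⟩⁻¹) : ℂˣ) : ℂ) := h9
      have h11 : θ g = ((φ i ⟨g, Subgroup.mem_zpowers g⟩ : ℂˣ) : ℂ) :=
        h7 ⟨g, Subgroup.mem_zpowers g⟩
      rw [h10, h11, map_inv, ← Units.val_mul, mul_inv_cancel, Units.val_one]
    rw [Finset.sum_congr rfl (fun g _ => h2 g), Finset.sum_const, Finset.card_univ, nsmul_eq_mul,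
      mul_one, ← Nat.card_eq_fintype_card, inv_mul_cancel₀ card_ne]
  choose! l hl using fun χ (hχ : χ ∈ Irr G) => hV.pr_int hχ
  have hexp : θ = fun g => ∑ χ ∈ irrF G, (l χ : ℂ) * χ g := by
    funext g
    rw [hV.expand g]
    exact Finset.sum_congr rfl fun χ hχ => by rw [hl χ (mem_irrF.mp hχ)]
  have hsum : ∑ χ ∈ irrF G, l χ ^ 2 = 1 := by
    have h2 : pr θ θ = ((∑ χ ∈ irrF G, l χ ^ 2 : ℤ) : ℂ) := by
      conv_lhs => rw [hexp]
      rw [pr_sum_right]
      push_cast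
      refine Finset.sum_congr rfl fun χ hχ => ?_
      rw [← hexp, hl χ (mem_irrF.mp hχ), sq]
    rw [hnorm] at h2
    exact_mod_cast h2.symm
  obtain ⟨χ, hχ, hlχ⟩ : ∃ χ ∈ irrF G, l χ ≠ 0 := by
    by_contra hcon
    push Not at hcon
    rw [Finset.sum_eq_zero (fun χ hχ => by rw [hcon χ hχ]; simp)] at hsum
    omega
  have h3 := Finset.add_sum_erase (irrF G) (fun ψ => l ψ ^ 2) hχ
  rw [hsum] at h3
  have h4 : 0 ≤ ∑ ψ ∈ (irrF G).erase χ, l ψ ^ 2 := Finset.sum_nonneg fun _ _ => sq_nonneg _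
  have h5 : 1 ≤ l χ ^ 2 := by
    have : 0 < l χ ^ 2 := by positivity
    omega
  have h6 : ∑ ψ ∈ (irrF G).erase χ, l ψ ^ 2 = 0 := by omega
  have h7 : ∀ ψ ∈ (irrF G).erase χ, l ψ = 0 := by
    intro φ hφ
    have := (Finset.sum_eq_zero_iff_of_nonneg fun _ _ => sq_nonneg _).mp h6 φ hφ
    exact pow_eq_zero_iff (two_ne_zero) |>.mp this
  have h8 : ∀ g, θ g = l χ * χ g := by
    intro g
    rw [congrFun hexp g, Finset.sum_eq_single χ]
    · intro φ hφ hne
      rw [h7 φ (Finset.mem_erase.mpr ⟨hne, hφ⟩)]; simp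
    · intro h; exact absurd hχ h
  obtain ⟨d, hd, hd1⟩ := irr_deg_pos (mem_irrF.mp hχ)
  have h9 : l χ * (d : ℤ) = 1 := by
    have := h8 1
    rw [h1, hd1] at this
    exact_mod_cast this.symm
  have h10 : (d : ℤ) = 1 ∧ l χ = 1 := by
    have h11 : (d : ℤ) ∣ 1 := ⟨l χ, by rw [mul_comm]; exact h9.symm⟩
    have h12 : (d : ℤ) = 1 := Int.eq_one_of_dvd_one (by positivity) h11
    rw [h12, mul_one] at h9
    exact ⟨h12, h9⟩
  obtain ⟨lam, hlam⟩ := irr_deg_one (mem_irrF.mp hχ) (by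
    rw [hd1]
    exact_mod_cast h10.1)
  refine ⟨lam, fun g => ?_⟩
  rw [h8 g, h10.2, h1, hlam g]
  simp

end Pool.Agent.R389
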