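import Mathlib
import Pool.Agent.R389.Theta

/-!
# Algebraicity of limits of products of L-functions
-/

set_option autoImplicit false
set_option linter.unusedSectionVars false

namespace Pool.Agent.R389

open Pool.Agent.H302R2 Pool.Agent.H302R3 Pool.Agent.H541R3.ART Pool.Agent.W446.AS Filter Topology

section decomp

variable {G : Type} [Group G] [Finite G]

lemma finprod_irr (F : (G → ℂ) → ℂ) : ∏ᶠ χ ∈ Irr G, F χ = ∏ χ ∈ irrF G, F χ :=
  finprod_mem_eq_finite_toFinset_prod _ (irr_finite (G := G))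

lemma finsum_irr (F : (G → ℂ) → ℂ) : ∑ᶠ χ ∈ Irr G, F χ = ∑ χ ∈ irrF G, F χ :=
  finsum_mem_eq_finite_toFinset_sum _ (irr_finite (G := G))

lemma IsDecomp.pr {f : G → ℂ} {m : (G → ℂ) → ℕ} (h : IsDecomp f m) {χ : G → ℂ} (hχ : χ ∈ Irr G) :
    pr f χ = m χ := by
  have h1 : f = fun g => ∑ χ ∈ irrF G, (m χ : ℂ) * χ g := by
    funext g
    rw [h g, finsum_irr (fun χ => (m χ : ℂ) * χ g)]
  rw [h1, pr_sum_irr _ hχ]

lemma IsDecomp.of_pr {f : G → ℂ} {m : (G → ℂ) → ℕ} (hf : ∀ g x : G, f (x * g * x⁻¹) = f g)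
    (h : ∀ χ ∈ Irr G, Pool.Agent.W446.AS.pr f χ = m χ) : IsDecomp f m := by
  intro g
  rw [finsum_irr (fun χ => (m χ : ℂ) * χ g), class_expand hf g]
  exact Finset.sum_congr rfl fun χ hχ => by rw [h χ (mem_irrF.mp hχ)]

/-- integral multiplicity -/
noncomputable def mult (f χ : G → ℂ) : ℤ := ⌊(pr f χ).re⌋

lemma mult_spec {f χ : G → ℂ} (hf : Virt f) (hχ : χ ∈ Irr G) : pr f χ = mult f χ := by
  obtain ⟨k, hk⟩ := hf.pr_int hχ
  rw [mult, hk]
  simp

lemma mult_of_pr {f χ : G → ℂ} {k : ℤ} (h : pr f χ = k) : mult f χ = k := by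
  rw [mult, h]
  simp

lemma mult_add {f f' χ : G → ℂ} (hf : Virt f) (hf' : Virt f') (hχ : χ ∈ Irr G) :
    mult (f + f') χ = mult f χ + mult f' χ := by
  apply mult_of_pr
  rw [pr_add, mult_spec hf hχ, mult_spec hf' hχ]
  push_cast
  rfl

lemma mult_neg {f χ : G → ℂ} (hf : Virt f) (hχ : χ ∈ Irr G) : mult (-f) χ = - mult f χ := by
  apply mult_of_pr
  rw [pr_neg, mult_spec hf hχ]
  push_cast
  rfl

/-- monomial characters have a decomposition -/
lemma ind_isDecomp (U : Subgroup G) (ψ : U →* ℂˣ) :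
    ∃ m, IsDecomp (ind U (fun h => ((ψ h : ℂˣ) : ℂ))) m := by
  classical
  have : Fintype U := Fintype.ofFinite U
  have h1 : ∀ χ ∈ Irr G, ∃ m : ℕ, pr (ind U (fun h => ((ψ h : ℂˣ) : ℂ))) χ = m := by
    intro χ hχ
    obtain ⟨m, hm⟩ := exists_mult hχ U ψ
    refine ⟨m, ?_⟩
    rw [frob U _ (Irr.conj hχ), pr_comm, pr_eq]
    rw [finsum_eq_sum_of_fintype] at hm
    have h2 : ∀ h : U, ((ψ h⁻¹ : ℂˣ) : ℂ) = (((ψ h)⁻¹ : ℂˣ) : ℂ) := by
      intro h
      rw [map_inv]
    simp only [h2]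
    rw [hm]
    have h3 : (Nat.card U : ℂ) ≠ 0 := card_ne
    field_simp
  choose! m hm using h1
  exact ⟨m, IsDecomp.of_pr (ind_class _ _) hm⟩

/-- characters are sums of irreducible characters -/
theorem char_memP : ∀ (n : ℕ) {V : Type} [AddCommGroup V] [Module ℂ V] [FiniteDimensional ℂ V]
    (ρ : Representation ℂ G V), Module.finrank ℂ V = n →
    ρ.character ∈ AddSubmonoid.closure (Irr G) := by
  intro n
  induction n using Nat.strong_induction_on with
  | _ n ih =>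
    intro V _ _ _ ρ hn
    by_cases hV : Nontrivial V
    swap
    · rw [not_nontrivial_iff_subsingleton] at hV
      have h0 : ρ.character = 0 := by
        funext g
        have : ρ g = 0 := by
          ext v
          exact Subsingleton.elim _ _
        change LinearMap.trace ℂ V (ρ g) = 0
        rw [this, map_zero]
      rw [h0]
      exact zero_mem _
    by_cases hI : Irred ρ
    · exact AddSubmonoid.subset_closure (irr_of_irred hI)
    have : ∃ W : Submodule ℂ V, (∀ g, ∀ v ∈ W, ρ g v ∈ W) ∧ W ≠ ⊥ ∧ W ≠ ⊤ := by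
      by_contra hcon
      push Not at hcon
      apply hI
      refine ⟨hV, fun W hW => ?_⟩
      by_cases h : W = ⊥
      · left; exact h
      · right; exact hcon W hW h
    obtain ⟨W, hW, hb, ht⟩ := this
    let W1 : Subrepresentation ρ := ⟨W, fun g v hv => hW g v hv⟩
    have : NeZero (Nat.card G : ℂ) := ⟨by exact_mod_cast Nat.card_pos.ne'⟩
    obtain ⟨W2, hc⟩ := exists_isCompl W1
    have hc1 : IsCompl W1.toSubmodule W2.toSubmodule := by
      refine ⟨?_, ?_⟩
      · rw [disjoint_iff]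
        have := hc.inf_eq_bot
        exact congrArg Subrepresentation.toSubmodule this
      · rw [codisjoint_iff]
        have := hc.sup_eq_top
        exact congrArg Subrepresentation.toSubmodule this
    have hb2 : W2.toSubmodule ≠ ⊤ := by
      intro h
      apply hb
      have h1 := hc1.inf_eq_bot
      rw [h, inf_top_eq] at h1
      exact h1
    have hlt1 : Module.finrank ℂ W1.toSubmodule < n := by
      rw [← hn]
      exact Submodule.finrank_lt ht
    have hlt2 : Module.finrank ℂ W2.toSubmodule < n := by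
      rw [← hn]
      exact Submodule.finrank_lt hb2
    have h1 := ih _ hlt1 W1.toRepresentation rfl
    have h2 := ih _ hlt2 W2.toRepresentation rfl
    have h3 : ρ.character = W1.toRepresentation.character + W2.toRepresentation.character := by
      funext g
      let N : Bool → Submodule ℂ V := fun b => cond b W1.toSubmodule W2.toSubmodule
      have hint : DirectSum.IsInternal N := by
        rw [DirectSum.isInternal_submodule_iff_isCompl N (i := true) (j := false) (by simp)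
          (by ext b; cases b <;> simp)]
        exact hc1
      have h4 := LinearMap.trace_eq_sum_trace_restrict hint (f := ρ g) (by
        intro b v hv
        cases b
        · exact W2.apply_mem_toSubmodule g hv
        · exact W1.apply_mem_toSubmodule g hv)
      rw [Fintype.sum_bool] at h4
      exact h4
    rw [h3]
    exact add_mem h1 h2

/-- base change of a representation along an embedding of the coefficient field -/
lemma base_change {E : Type} [Field E] (τ : E →+* ℂ) {V : Type} [AddCommGroup V] [Module E V]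
    [FiniteDimensional E V] (ρ : Representation E G V) :
    (fun g => τ (ρ.character g)) ∈ AddSubmonoid.closure (Irr G) := by
  classical
  let b := Module.finBasis E V
  let M : G →* Matrix (Fin (Module.finrank E V)) (Fin (Module.finrank E V)) E :=
    { toFun := fun g => LinearMap.toMatrix b b (ρ g)
      map_one' := by rw [map_one]; exact LinearMap.toMatrix_one b
      map_mul' := by intro x y; rw [map_mul]; exact LinearMap.toMatrix_mul b _ _ }
  let σ : Representation ℂ G (Fin (Module.finrank E V) → ℂ) :=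
    { toFun := fun g => Matrix.toLin' ((M g).map τ)
      map_one' := by
        rw [map_one, Matrix.map_one τ (map_zero τ) (map_one τ), Matrix.toLin'_one]
        rfl
      map_mul' := by
        intro x y
        rw [map_mul, Matrix.map_mul, Matrix.toLin'_mul]
        rfl }
  have h1 : (fun g => τ (ρ.character g)) = σ.character := by
    funext g
    change τ (LinearMap.trace E V (ρ g)) = LinearMap.trace ℂ _ (Matrix.toLin' ((M g).map τ))
    rw [LinearMap.trace_eq_matrix_trace E b (ρ g), Matrix.trace_toLin'_eq, Matrix.trace,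
      Matrix.trace, map_sum]
    rfl
  rw [h1]
  exact char_memP _ σ rfl

/-- linear characters take values in `E` -/
lemma lift_char {E : Type} [Field E] {ζ : E} (hζ : IsPrimitiveRoot ζ (Monoid.exponent G))
    (τ : E →+* ℂ) (U : Subgroup G) (ψ : U →* ℂˣ) :
    ∃ ψE : U →* Eˣ, ∀ u, τ ((ψE u : Eˣ) : E) = ((ψ u : ℂˣ) : ℂ) := by
  have hne : NeZero (Monoid.exponent G) := ⟨Monoid.exponent_ne_zero_of_finite⟩
  let f : Eˣ →* ℂˣ := Units.map τ.toMonoidHom
  have hf : Function.Injective f := Units.map_injective τ.injective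
  have hr : ∀ u, ψ u ∈ f.range := by
    intro u
    have h1 : ((ψ u : ℂˣ) : ℂ) ^ Monoid.exponent G = 1 := by
      have h2 : u ^ Monoid.exponent G = 1 := by
        apply Subtype.ext
        rw [Subgroup.coe_pow, Monoid.pow_exponent_eq_one]
        rfl
      rw [← Units.val_pow_eq_pow_val, ← map_pow, h2, map_one, Units.val_one]
    have h3 : IsPrimitiveRoot (τ ζ) (Monoid.exponent G) := hζ.map_of_injective τ.injective
    obtain ⟨i, -, hi⟩ := h3.eq_pow_of_pow_eq_one h1
    have hu : IsUnit ζ := hζ.isUnit (NeZero.ne _)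
    refine ⟨hu.unit ^ i, ?_⟩
    apply Units.ext
    rw [← hi]
    change τ ((hu.unit ^ i : Eˣ) : E) = τ ζ ^ i
    rw [Units.val_pow_eq_pow_val, map_pow]
    rfl
  refine ⟨(MonoidHom.ofInjective hf).symm.toMonoidHom.comp (ψ.codRestrict f.range hr), fun u => ?_⟩
  have h1 : f ((MonoidHom.ofInjective hf).symm ⟨ψ u, hr u⟩) = ψ u := by
    have h2 := (MonoidHom.ofInjective hf).apply_symm_apply ⟨ψ u, hr u⟩
    exact congrArg Subtype.val h2
  have h2 := congrArg Units.val h1
  exact h2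

end decomp

section del

variable {G : Type} [Group G] [Finite G] {E : Type} [Field E]
  {L : (E →+* ℂ) → (G → ℂ) → ℂ → ℂ} {P : (E →+* ℂ) → (G → ℂ) → ℂ} {c : ℂ}

/-- the integral form of Deligne's conjecture for a virtual character -/
def DelZ (L : (E →+* ℂ) → (G → ℂ) → ℂ → ℂ) (P : (E →+* ℂ) → (G → ℂ) → ℂ) (c : ℂ) (f : G → E)
    (e : E) : Prop :=
  (∀ τ : E →+* ℂ, Virt (fun g => τ (f g))) ∧ ∀ τ : E →+* ℂ,
    Tendsto (fun s => ∏ χ ∈ irrF G, L τ χ s ^ mult (fun g => τ (f g)) χ) (𝓝[≠] c)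
      (𝓝 (τ e * ∏ χ ∈ irrF G, P τ χ ^ mult (fun g => τ (f g)) χ))

lemma ev_ne (hL : ∀ τ, ∀ χ ∈ Irr G, MeromorphicAt (L τ χ) c ∧ meromorphicOrderAt (L τ χ) c ≠ ⊤)
    (τ : E →+* ℂ) : ∀ᶠ s in 𝓝[≠] c, ∀ χ ∈ irrF G, L τ χ s ≠ 0 := by
  rw [Filter.eventually_all_finset]
  intro χ hχ
  have h := hL τ χ (mem_irrF.mp hχ)
  exact (meromorphicOrderAt_ne_top_iff_eventually_ne_zero h.1).mp h.2

lemma DelZ.add (hL : ∀ τ, ∀ χ ∈ Irr G, MeromorphicAt (L τ χ) c ∧ meromorphicOrderAt (L τ χ) c ≠ ⊤)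
    (hP : ∀ τ, ∀ χ ∈ Irr G, P τ χ ≠ 0) {f f' : G → E} {e e' : E} (h : DelZ L P c f e)
    (h' : DelZ L P c f' e') : DelZ L P c (f + f') (e * e') := by
  have hadd : ∀ τ : E →+* ℂ, (fun g => τ ((f + f') g)) = (fun g => τ (f g)) + fun g => τ (f' g) := by
    intro τ
    funext g
    rw [Pi.add_apply, Pi.add_apply, map_add]
  refine ⟨fun τ => ?_, fun τ => ?_⟩
  · rw [hadd]
    exact add_mem (S := AddSubgroup (G → ℂ)) (h.1 τ) (h'.1 τ)
  have hm : ∀ χ ∈ irrF G, mult (fun g => τ ((f + f') g)) χ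
      = mult (fun g => τ (f g)) χ + mult (fun g => τ (f' g)) χ := by
    intro χ hχ
    rw [hadd]
    exact mult_add (h.1 τ) (h'.1 τ) (mem_irrF.mp hχ)
  have h1 := (h.2 τ).mul (h'.2 τ)
  have h2 : (τ e * ∏ χ ∈ irrF G, P τ χ ^ mult (fun g => τ (f g)) χ) *
      (τ e' * ∏ χ ∈ irrF G, P τ χ ^ mult (fun g => τ (f' g)) χ)
      = τ (e * e') * ∏ χ ∈ irrF G, P τ χ ^ mult (fun g => τ ((f + f') g)) χ := by
    rw [map_mul, Finset.prod_congr rfl (fun χ hχ => by
      rw [hm χ hχ, zpow_add₀ (hP τ χ (mem_irrF.mp hχ))] :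
        ∀ χ ∈ irrF G, P τ χ ^ mult (fun g => τ ((f + f') g)) χ
          = P τ χ ^ mult (fun g => τ (f g)) χ * P τ χ ^ mult (fun g => τ (f' g)) χ),
      Finset.prod_mul_distrib]
    ring
  rw [h2] at h1
  refine h1.congr' ?_
  filter_upwards [ev_ne hL τ] with s hs
  rw [← Finset.prod_mul_distrib]
  refine Finset.prod_congr rfl fun χ hχ => ?_
  rw [hm χ hχ, zpow_add₀ (hs χ hχ)]

lemma DelZ.neg (hP : ∀ τ, ∀ χ ∈ Irr G, P τ χ ≠ 0) {f : G → E} {e : E}
    (h : DelZ L P c f e) (he : e ≠ 0) : DelZ L P c (-f) e⁻¹ := by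
  have hneg : ∀ τ : E →+* ℂ, (fun g => τ ((-f) g)) = - fun g => τ (f g) := by
    intro τ
    funext g
    rw [Pi.neg_apply, Pi.neg_apply, map_neg]
  refine ⟨fun τ => ?_, fun τ => ?_⟩
  · rw [hneg]
    exact neg_mem (S := AddSubgroup (G → ℂ)) (h.1 τ)
  have hm : ∀ χ ∈ irrF G, mult (fun g => τ ((-f) g)) χ = - mult (fun g => τ (f g)) χ := by
    intro χ hχ
    rw [hneg]
    exact mult_neg (h.1 τ) (mem_irrF.mp hχ)
  have h0 : τ e * ∏ χ ∈ irrF G, P τ χ ^ mult (fun g => τ (f g)) χ ≠ 0 := by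
    refine mul_ne_zero ((map_ne_zero τ).mpr he) (Finset.prod_ne_zero_iff.mpr fun χ hχ => ?_)
    exact zpow_ne_zero _ (hP τ χ (mem_irrF.mp hχ))
  have h1 := (h.2 τ).inv₀ h0
  have h2 : (τ e * ∏ χ ∈ irrF G, P τ χ ^ mult (fun g => τ (f g)) χ)⁻¹
      = τ e⁻¹ * ∏ χ ∈ irrF G, P τ χ ^ mult (fun g => τ ((-f) g)) χ := by
    rw [mul_inv, map_inv₀, ← Finset.prod_inv_distrib]
    congr 1
    exact Finset.prod_congr rfl fun χ hχ => by rw [hm χ hχ, zpow_neg]
  rw [h2] at h1
  refine h1.congr' ?_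
  refine Filter.Eventually.of_forall fun s => ?_
  simp only
  rw [← Finset.prod_inv_distrib]
  exact Finset.prod_congr rfl fun χ hχ => by rw [hm χ hχ, zpow_neg]

lemma DelZ.zero : DelZ L P c (0 : G → E) 1 := by
  have h0 : ∀ τ : E →+* ℂ, (fun g : G => τ ((0 : G → E) g)) = 0 := by
    intro τ
    funext g
    rw [Pi.zero_apply, map_zero]
    rfl
  have hm : ∀ (τ : E →+* ℂ) (χ : G → ℂ), mult (fun g : G => τ ((0 : G → E) g)) χ = 0 := by
    intro τ χ
    apply mult_of_pr
    rw [h0, pr_zero_left]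
    simp
  refine ⟨fun τ => ?_, fun τ => ?_⟩
  · rw [h0]
    exact zero_mem (AddSubgroup.closure (Irr G))
  · simp only [hm, zpow_zero, Finset.prod_const_one, map_one, mul_one]
    exact tendsto_const_nhds

/-- from the integral form -/
lemma DelZ.deligne {f : G → E} {e : E} (h : DelZ L P c f e) : Deligne L P c f := by
  refine ⟨e, fun τ m hm => ?_⟩
  have hmult : ∀ χ ∈ irrF G, mult (fun g => τ (f g)) χ = (m χ : ℤ) := by
    intro χ hχ
    apply mult_of_pr
    rw [hm.pr (mem_irrF.mp hχ)]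
    simp
  have h1 := h.2 τ
  have h2 : ∏ᶠ χ ∈ Irr G, P τ χ ^ m χ = ∏ χ ∈ irrF G, P τ χ ^ mult (fun g => τ (f g)) χ := by
    rw [finprod_irr (fun χ => P τ χ ^ m χ)]
    exact Finset.prod_congr rfl fun χ hχ => by rw [hmult χ hχ, zpow_natCast]
  rw [h2]
  refine h1.congr fun s => ?_
  rw [finprod_irr (fun χ => L τ χ s ^ m χ)]
  exact Finset.prod_congr rfl fun χ hχ => by rw [hmult χ hχ, zpow_natCast]

/-- to the integral form -/
lemma Deligne.delZ {f : G → E} (h : Deligne L P c f)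
    (hf : ∀ τ : E →+* ℂ, ∃ m, IsDecomp (fun g => τ (f g)) m) : ∃ e, DelZ L P c f e := by
  obtain ⟨e, he⟩ := h
  refine ⟨e, fun τ => ?_, fun τ => ?_⟩
  · obtain ⟨m, hm⟩ := hf τ
    have h1 : (fun g => τ (f g)) = theta (fun χ => (m χ : ℤ)) := by
      funext g
      have h2 := hm g
      rw [finsum_irr (fun χ => (m χ : ℂ) * χ g)] at h2
      refine h2.trans ?_
      rw [theta]
      simp
    rw [h1]
    exact theta_virt _
  · obtain ⟨m, hm⟩ := hf τ
    have hmult : ∀ χ ∈ irrF G, mult (fun g => τ (f g)) χ = (m χ : ℤ) := by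
      intro χ hχ
      apply mult_of_pr
      rw [hm.pr (mem_irrF.mp hχ)]
      simp
    have h1 := he τ m hm
    have h2 : ∏ᶠ χ ∈ Irr G, P τ χ ^ m χ = ∏ χ ∈ irrF G, P τ χ ^ mult (fun g => τ (f g)) χ := by
      rw [finprod_irr (fun χ => P τ χ ^ m χ)]
      exact Finset.prod_congr rfl fun χ hχ => by rw [hmult χ hχ, zpow_natCast]
    rw [h2] at h1
    refine h1.congr fun s => ?_
    rw [finprod_irr (fun χ => L τ χ s ^ m χ)]
    exact Finset.prod_congr rfl fun χ hχ => by rw [hmult χ hχ, zpow_natCast]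

/-- the orders at `c` -/
noncomputable def ords (L : (G → ℂ) → ℂ → ℂ) (c : ℂ) (χ : G → ℂ) : ℤ :=
  (meromorphicOrderAt (L χ) c).untop₀

lemma pr_ords {l : (G → ℂ) → ℂ → ℂ} {f : G → ℂ} {m : (G → ℂ) → ℤ}
    (hf : ∀ χ ∈ Irr G, pr f χ = m χ) :
    pr (theta (ords l c) : G → ℂ) f = ((∑ χ ∈ irrF G, m χ * ords l c χ : ℤ) : ℂ) := by
  rw [pr_comm]
  have h1 : (theta (ords l c) : G → ℂ) = fun g => ∑ χ ∈ irrF G, (ords l c χ : ℂ) * χ g := rfl
  rw [h1, pr_sum_right]
  push_cast
  refine Finset.sum_congr rfl fun χ hχ => ?_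
  rw [hf χ (mem_irrF.mp hχ), mul_comm]

lemma order_prod {l : (G → ℂ) → ℂ → ℂ}
    (hl : ∀ χ ∈ Irr G, MeromorphicAt (l χ) c ∧ meromorphicOrderAt (l χ) c ≠ ⊤)
    (s : Finset (G → ℂ)) (hs : s ⊆ irrF G) (m : (G → ℂ) → ℤ) :
    MeromorphicAt (fun z => ∏ χ ∈ s, l χ z ^ m χ) c ∧
    meromorphicOrderAt (fun z => ∏ χ ∈ s, l χ z ^ m χ) c
      = ((∑ χ ∈ s, m χ * ords l c χ : ℤ) : WithTop ℤ) := by
  classical
  have h1 : ∀ χ ∈ s, MeromorphicAt (fun z => l χ z ^ m χ) c := fun χ hχ =>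
    ((hl χ (mem_irrF.mp (hs hχ))).1).fun_zpow _
  refine ⟨MeromorphicAt.fun_prod h1, ?_⟩
  rw [meromorphicOrderAt_fun_prod h1, WithTop.coe_sum]
  refine Finset.sum_congr rfl fun χ hχ => ?_
  have h2 := hl χ (mem_irrF.mp (hs hχ))
  have h3 : meromorphicOrderAt (fun z => l χ z ^ m χ) c = m χ * meromorphicOrderAt (l χ) c :=
    meromorphicOrderAt_zpow h2.1
  rw [h3, ← WithTop.coe_untop₀_of_ne_top h2.2]
  rfl

end del

end Pool.Agent.R389
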