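import Mathlib
import Pool.Agent.R389.Del

/-!
# Deligne's conjecture for Artin twists when all zeros are old
-/

set_option autoImplicit false
set_option linter.unusedSectionVars false

namespace Pool.Agent.R389

open Pool.Agent.H302R2 Pool.Agent.H302R3 Pool.Agent.H541R3.ART Pool.Agent.W446.AS Filter Topology

variable {G : Type} [Group G] [Finite G] {E : Type} [Field E]
  {L : (E →+* ℂ) → (G → ℂ) → ℂ → ℂ} {P : (E →+* ℂ) → (G → ℂ) → ℂ} {c : ℂ}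

/-- Deligne's conjecture for an induced character in the integral form -/
lemma delZ_ind {U : Subgroup G} {ψ : U →* Eˣ}
    (h : Deligne L P c (ind U (fun u => ((ψ u : Eˣ) : E)))) :
    ∃ e, DelZ L P c (ind U (fun u => ((ψ u : Eˣ) : E))) e := by
  refine h.delZ fun τ => ?_
  obtain ⟨m, hm⟩ := ind_isDecomp U ((Units.map τ.toMonoidHom).comp ψ)
  refine ⟨m, ?_⟩
  have h1 : (fun g => τ (ind U (fun u => ((ψ u : Eˣ) : E)) g))
      = ind U (fun h => ((((Units.map τ.toMonoidHom).comp ψ) h : ℂˣ) : ℂ)) := by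
    funext g
    rw [ind_map]
    rfl
  rw [h1]
  exact hm

/-- the multiplicities of the orders over hyperelementary subgroups are nonnegative -/
lemma hh_ords {ζ : E} (hζ : IsPrimitiveRoot ζ (Monoid.exponent G))
    (hL : ∀ τ, ∀ χ ∈ Irr G, MeromorphicAt (L τ χ) c ∧ meromorphicOrderAt (L τ χ) c ≠ ⊤)
    (hmon : ∀ (U : Subgroup G) (ψ : U →* Eˣ), Hyper U →
      Deligne L P c (ind U (fun u => ((ψ u : Eˣ) : E)))) (τ : E →+* ℂ) :
    HH (theta (ords (L τ) c) : G → ℂ) where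
  conj := (theta_virt _).conj
  nat U ψ hU := by
    classical
    obtain ⟨ψE, hψE⟩ := lift_char hζ τ U ψ
    obtain ⟨m, hm⟩ := ind_isDecomp U ψ
    obtain ⟨e, he⟩ := hmon U ψE hU
    have h1 : (fun g => τ (ind U (fun u => ((ψE u : Eˣ) : E)) g))
        = ind U (fun h => ((ψ h : ℂˣ) : ℂ)) := by
      funext g
      rw [ind_map]
      congr 1
      funext u
      exact hψE u
    have h2 := he τ m (by rw [h1]; exact hm)
    have h3 := order_prod (hL τ) (irrF G) subset_rfl (fun χ => (m χ : ℤ))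
    have h4 : (fun s => ∏ᶠ χ ∈ Irr G, L τ χ s ^ m χ)
        = fun z => ∏ χ ∈ irrF G, L τ χ z ^ ((m χ : ℕ) : ℤ) := by
      funext s
      rw [finprod_irr (fun χ => L τ χ s ^ m χ)]
      exact Finset.prod_congr rfl fun χ _ => by rw [zpow_natCast]
    rw [h4] at h2
    have h5 := (tendsto_nhds_iff_meromorphicOrderAt_nonneg h3.1).mp ⟨_, h2⟩
    rw [h3.2] at h5
    have h6 : (0 : ℤ) ≤ ∑ χ ∈ irrF G, (m χ : ℤ) * ords (L τ) c χ := by exact_mod_cast h5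
    obtain ⟨k, hk⟩ := Int.eq_ofNat_of_zero_le h6
    refine ⟨k, ?_⟩
    rw [pr_ords (m := fun χ => (m χ : ℤ)) (fun χ hχ => by rw [hm.pr hχ]; simp), hk]
    simp

/-- new monomial characters are invertible -/
lemma new_unit {ζ : E} (hζ : IsPrimitiveRoot ζ (Monoid.exponent G))
    (hL : ∀ τ, ∀ χ ∈ Irr G, MeromorphicAt (L τ χ) c ∧ meromorphicOrderAt (L τ χ) c ≠ ⊤)
    (hP : ∀ τ, ∀ χ ∈ Irr G, P τ χ ≠ 0)
    (hmon : ∀ (U : Subgroup G) (ψ : U →* Eˣ), Hyper U →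
      Deligne L P c (ind U (fun u => ((ψ u : Eˣ) : E)))) (τ₀ : E →+* ℂ)
    {K : Subgroup G} {lam : G →* ℂˣ}
    (hK : ∀ k ∈ K, (theta (ords (L τ₀) c) : G → ℂ) k
      = ((lam k : ℂˣ) : ℂ) * (theta (ords (L τ₀) c) : G → ℂ) 1)
    {s : G → ℂ} (hs : s ∈ NewT K lam) :
    ∃ (f : G → E) (e : E), (∀ g, τ₀ (f g) = s g) ∧ e ≠ 0 ∧ DelZ L P c f e := by
  classical
  have hθ := hh_ords hζ hL hmon τ₀
  induction hs using AddSubgroup.closure_induction with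
  | mem s hs =>
    obtain ⟨U, ψ, hU, ⟨u, hu, hne⟩, rfl⟩ := hs
    obtain ⟨ψE, hψE⟩ := lift_char hζ τ₀ U ψ
    obtain ⟨e, he⟩ := delZ_ind (hmon U ψE hU)
    have h1 : ∀ g, τ₀ (ind U (fun u => ((ψE u : Eˣ) : E)) g)
        = ind U (fun h => ((ψ h : ℂˣ) : ℂ)) g := by
      intro g
      rw [ind_map]
      congr 1
      funext u
      exact hψE u
    refine ⟨_, e, h1, ?_, he⟩
    have h2 := hθ.ortho hK hU hu hne
    obtain ⟨m, hm⟩ := ind_isDecomp U ψ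
    rw [pr_ords (m := fun χ => (m χ : ℤ)) (fun χ hχ => by rw [hm.pr hχ]; simp)] at h2
    have h3 := order_prod (hL τ₀) (irrF G) subset_rfl (fun χ => (m χ : ℤ))
    have h4 : ∑ χ ∈ irrF G, (m χ : ℤ) * ords (L τ₀) c χ = 0 := by exact_mod_cast h2
    rw [h4] at h3
    obtain ⟨a, ha, hlim⟩ := (tendsto_ne_zero_iff_meromorphicOrderAt_eq_zero h3.1).mpr h3.2
    have h5 := he.2 τ₀
    have h6 : ∀ χ ∈ irrF G,
        mult (fun g => τ₀ (ind U (fun u => ((ψE u : Eˣ) : E)) g)) χ = (m χ : ℤ) := by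
      intro χ hχ
      apply mult_of_pr
      have h7 : (fun g => τ₀ (ind U (fun u => ((ψE u : Eˣ) : E)) g))
          = ind U (fun h => ((ψ h : ℂˣ) : ℂ)) := funext h1
      rw [h7, hm.pr (mem_irrF.mp hχ)]
      simp
    have h8 : (fun s => ∏ χ ∈ irrF G, L τ₀ χ s ^
        mult (fun g => τ₀ (ind U (fun u => ((ψE u : Eˣ) : E)) g)) χ)
        = fun z => ∏ χ ∈ irrF G, L τ₀ χ z ^ ((m χ : ℕ) : ℤ) := by
      funext z
      exact Finset.prod_congr rfl fun χ hχ => by rw [h6 χ hχ]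
    rw [h8] at h5
    have h9 := tendsto_nhds_unique h5 hlim
    intro h0
    rw [h0, map_zero, zero_mul] at h9
    exact ha h9.symm
  | zero => exact ⟨0, 1, fun g => map_zero τ₀, one_ne_zero, DelZ.zero⟩
  | add a b _ _ ha hb =>
    obtain ⟨f, e, h1, h2, h3⟩ := ha
    obtain ⟨f', e', h1', h2', h3'⟩ := hb
    exact ⟨f + f', e * e', fun g => by rw [Pi.add_apply, map_add, h1, h1']; rfl,
      mul_ne_zero h2 h2', h3.add hL hP h3'⟩
  | neg a _ ha =>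
    obtain ⟨f, e, h1, h2, h3⟩ := ha
    exact ⟨-f, e⁻¹, fun g => by rw [Pi.neg_apply, map_neg, h1]; rfl, inv_ne_zero h2,
      h3.neg hP h2⟩

/-- sums of monomial characters satisfy Deligne's conjecture -/
lemma mon_del {ζ : E} (hζ : IsPrimitiveRoot ζ (Monoid.exponent G))
    (hL : ∀ τ, ∀ χ ∈ Irr G, MeromorphicAt (L τ χ) c ∧ meromorphicOrderAt (L τ χ) c ≠ ⊤)
    (hP : ∀ τ, ∀ χ ∈ Irr G, P τ χ ≠ 0)
    (hmon : ∀ (U : Subgroup G) (ψ : U →* Eˣ), Hyper U →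
      Deligne L P c (ind U (fun u => ((ψ u : Eˣ) : E)))) (τ₀ : E →+* ℂ)
    {a : G → ℂ} (ha : a ∈ MonP G) :
    ∃ (f : G → E) (e : E), (∀ g, τ₀ (f g) = a g) ∧ DelZ L P c f e := by
  classical
  induction ha using AddSubmonoid.closure_induction with
  | mem s hs =>
    obtain ⟨U, ψ, hU, rfl⟩ := hs
    obtain ⟨ψE, hψE⟩ := lift_char hζ τ₀ U ψ
    obtain ⟨e, he⟩ := delZ_ind (hmon U ψE hU)
    refine ⟨_, e, ?_, he⟩
    intro g
    rw [ind_map]
    congr 1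
    funext u
    exact hψE u
  | zero => exact ⟨0, 1, fun g => map_zero τ₀, DelZ.zero⟩
  | add a b _ _ ha hb =>
    obtain ⟨f, e, h1, h3⟩ := ha
    obtain ⟨f', e', h1', h3'⟩ := hb
    exact ⟨f + f', e * e', fun g => by rw [Pi.add_apply, map_add, h1, h1']; rfl,
      h3.add hL hP h3'⟩

/-- the value of `theta` at one -/
lemma theta_one_eq {l : (G → ℂ) → ℂ → ℂ} {deg : (G → ℂ) → ℕ} (hdeg : ∀ χ ∈ Irr G, χ 1 = deg χ) :
    (theta (ords l c) : G → ℂ) 1 = ((∑ χ ∈ irrF G, (deg χ : ℤ) * ords l c χ : ℤ) : ℂ) := by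
  rw [theta]
  push_cast
  exact Finset.sum_congr rfl fun χ hχ => by rw [hdeg χ (mem_irrF.mp hχ), mul_comm]

/-- the order of the L-function of the top field -/
lemma top_order {l : (G → ℂ) → ℂ → ℂ}
    (hl : ∀ χ ∈ Irr G, MeromorphicAt (l χ) c ∧ meromorphicOrderAt (l χ) c ≠ ⊤)
    (deg : (G → ℂ) → ℕ) :
    meromorphicOrderAt (fun s => ∏ᶠ χ ∈ Irr G, l χ s ^ deg χ) c
      = ((∑ χ ∈ irrF G, (deg χ : ℤ) * ords l c χ : ℤ) : WithTop ℤ) := by
  have h3 := order_prod hl (irrF G) subset_rfl (fun χ => (deg χ : ℤ))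
  have h4 : (fun s => ∏ᶠ χ ∈ Irr G, l χ s ^ deg χ)
      = fun z => ∏ χ ∈ irrF G, l χ z ^ ((deg χ : ℕ) : ℤ) := by
    funext s
    rw [finprod_irr (fun χ => l χ s ^ deg χ)]
    exact Finset.prod_congr rfl fun χ _ => by rw [zpow_natCast]
  rw [h4, h3.2]

open Classical in
/-- the order of the old part -/
lemma old_order {l : (G → ℂ) → ℂ → ℂ}
    (hl : ∀ χ ∈ Irr G, MeromorphicAt (l χ) c ∧ meromorphicOrderAt (l χ) c ≠ ⊤)
    (deg : (G → ℂ) → ℕ) (p : (G → ℂ) → Prop) :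
    meromorphicOrderAt (fun s => ∏ᶠ χ ∈ {χ ∈ Irr G | p χ}, l χ s ^ deg χ) c
      = ((∑ χ ∈ (irrF G).filter p, (deg χ : ℤ) * ords l c χ : ℤ) : WithTop ℤ) := by
  have h3 := order_prod hl ((irrF G).filter p) (Finset.filter_subset _ _) (fun χ => (deg χ : ℤ))
  have h4 : (fun s => ∏ᶠ χ ∈ {χ ∈ Irr G | p χ}, l χ s ^ deg χ)
      = fun z => ∏ χ ∈ (irrF G).filter p, l χ z ^ ((deg χ : ℕ) : ℤ) := by
    funext s
    rw [finprod_mem_eq_prod_of_inter_mulSupport_eq (t := (irrF G).filter p) _ (by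
      congr 1
      ext χ
      simp [mem_irrF])]
    exact Finset.prod_congr rfl fun χ _ => by rw [zpow_natCast]
  rw [h4, h3.2]

/-- the average of `theta` over `K` -/
lemma average {l : (G → ℂ) → ℂ → ℂ} {deg : (G → ℂ) → ℕ} (hdeg : ∀ χ ∈ Irr G, χ 1 = deg χ)
    (K : Subgroup G) [K.Normal] (lam : G →* ℂˣ) [DecidablePred fun χ : G → ℂ =>
      ∀ k ∈ K, χ k = χ 1 * ((lam k : ℂˣ) : ℂ)] :
    ∑ᶠ k : K, (theta (ords l c) : G → ℂ) k * (((lam k)⁻¹ : ℂˣ) : ℂ)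
      = ((∑ χ ∈ (irrF G).filter (fun χ : G → ℂ => ∀ k ∈ K, χ k = χ 1 * ((lam k : ℂˣ) : ℂ)),
        (deg χ : ℤ) * ords l c χ : ℤ) : ℂ) * Nat.card K := by
  have : Fintype K := Fintype.ofFinite K
  rw [finsum_eq_sum_of_fintype]
  unfold theta
  simp_rw [Finset.sum_mul]
  rw [Finset.sum_comm, Finset.sum_filter]
  push_cast
  rw [Finset.sum_mul]
  refine Finset.sum_congr rfl fun χ hχ => ?_
  have hχ' := mem_irrF.mp hχ
  have h1 : ∑ k : K, (ords l c χ : ℂ) * χ k * (((lam k)⁻¹ : ℂˣ) : ℂ)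
      = (ords l c χ : ℂ) * (Nat.card K * inv K (fun g => χ g * ((lam⁻¹ g : ℂˣ) : ℂ)) 1) := by
    rw [inv_eq, ← mul_assoc (Nat.card K : ℂ), mul_inv_cancel₀ card_ne, one_mul, Finset.mul_sum]
    refine Finset.sum_congr rfl fun k _ => ?_
    rw [one_mul, MonoidHom.inv_apply]
    ring
  simp only [Units.val_inv_eq_inv_val] at h1
  rw [h1]
  rcases irr_inv K (irr_twist hχ' lam⁻¹) with h | ⟨⟨k, hk, hne⟩, h⟩
  · have hold : ∀ k ∈ K, χ k = χ 1 * ((lam k : ℂˣ) : ℂ) := by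
      intro k hk
      have h2 := h 1 k hk
      simp only [one_mul, map_one, Units.val_one, mul_one, MonoidHom.inv_apply] at h2
      rw [← h2, mul_assoc, ← Units.val_mul, inv_mul_cancel, Units.val_one, mul_one]
    rw [if_pos hold, inv_of_const K h, hdeg χ hχ']
    simp only [map_one, Units.val_one, mul_one]
    ring
  · rw [h, if_neg]
    · simp
    · intro hold
      apply hne
      simp only [MonoidHom.inv_apply, map_one, Units.val_one, mul_one]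
      rw [hold k hk, mul_assoc, ← Units.val_mul, mul_inv_cancel, Units.val_one, mul_one]

/-- the old order is at most the full order -/
lemma old_le {l : (G → ℂ) → ℂ → ℂ} (hθ : HH (theta (ords l c) : G → ℂ)) {deg : (G → ℂ) → ℕ}
    (hdeg : ∀ χ ∈ Irr G, χ 1 = deg χ) (K : Subgroup G) [K.Normal] (lam : G →* ℂˣ)
    [DecidablePred fun χ : G → ℂ => ∀ k ∈ K, χ k = χ 1 * ((lam k : ℂˣ) : ℂ)] :
    ∑ χ ∈ (irrF G).filter (fun χ : G → ℂ => ∀ k ∈ K, χ k = χ 1 * ((lam k : ℂˣ) : ℂ)),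
        (deg χ : ℤ) * ords l c χ ≤ ∑ χ ∈ irrF G, (deg χ : ℤ) * ords l c χ := by
  have : Fintype K := Fintype.ofFinite K
  have h1 := average (c := c) (l := l) hdeg K lam
  have hone := theta_one_eq (c := c) (l := l) hdeg
  set a : ℤ := ∑ χ ∈ (irrF G).filter (fun χ : G → ℂ => ∀ k ∈ K, χ k = χ 1 * ((lam k : ℂˣ) : ℂ)),
        (deg χ : ℤ) * ords l c χ with ha
  set b : ℤ := ∑ χ ∈ irrF G, (deg χ : ℤ) * ords l c χ with hb
  have hn : ∀ k : K, ‖(theta (ords l c) : G → ℂ) k * (((lam k)⁻¹ : ℂˣ) : ℂ)‖ ≤ (b : ℝ) := by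
    intro k
    have h3 : ‖(((lam k)⁻¹ : ℂˣ) : ℂ)‖ = 1 := by
      have h4 : (((lam k)⁻¹ : ℂˣ) : ℂ) ^ (Nat.card G) = 1 := by
        rw [← Units.val_pow_eq_pow_val, ← map_inv, ← map_pow, pow_card_eq_one', map_one,
          Units.val_one]
      exact Complex.norm_eq_one_of_pow_eq_one h4 Nat.card_pos.ne'
    rw [norm_mul, h3, mul_one]
    have := hθ.norm_le (k : G)
    rw [hone, Complex.intCast_re] at this
    exact this
  have h2 : (a : ℝ) * Nat.card K ≤ (b : ℝ) * Nat.card K := by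
    have h3 : ‖∑ᶠ k : K, (theta (ords l c) : G → ℂ) k * (((lam k)⁻¹ : ℂˣ) : ℂ)‖
        ≤ (b : ℝ) * Nat.card K := by
      rw [finsum_eq_sum_of_fintype]
      refine (norm_sum_le _ _).trans ((Finset.sum_le_sum fun k _ => hn k).trans ?_)
      rw [Finset.sum_const, Finset.card_univ, nsmul_eq_mul, ← Nat.card_eq_fintype_card, mul_comm]
    rw [h1, norm_mul, Complex.norm_intCast, Complex.norm_natCast] at h3
    exact (mul_le_mul_of_nonneg_right (le_abs_self _) (Nat.cast_nonneg _)).trans h3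
  have h3 : (0 : ℝ) < Nat.card K := by exact_mod_cast Nat.card_pos
  exact_mod_cast le_of_mul_le_mul_right h2 h3

/-- all zeros are old -/
lemma zeros_old {ζ : E} (hζ : IsPrimitiveRoot ζ (Monoid.exponent G))
    (hL : ∀ τ, ∀ χ ∈ Irr G, MeromorphicAt (L τ χ) c ∧ meromorphicOrderAt (L τ χ) c ≠ ⊤)
    (hmon : ∀ (U : Subgroup G) (ψ : U →* Eˣ), Hyper U →
      Deligne L P c (ind U (fun u => ((ψ u : Eˣ) : E)))) (τ₀ : E →+* ℂ)
    {deg : (G → ℂ) → ℕ} (hdeg : ∀ χ ∈ Irr G, χ 1 = deg χ) (K : Subgroup G) [K.Normal]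
    (lam : G →* ℂˣ)
    (hz : meromorphicOrderAt (fun s => ∏ᶠ χ ∈ Irr G, L τ₀ χ s ^ deg χ) c ≤
      meromorphicOrderAt (fun s => ∏ᶠ χ ∈ {χ ∈ Irr G | ∀ k ∈ K, χ k = χ 1 * ((lam k : ℂˣ) : ℂ)},
            L τ₀ χ s ^ deg χ) c) :
    ∀ k ∈ K, (theta (ords (L τ₀) c) : G → ℂ) k
        = ((lam k : ℂˣ) : ℂ) * (theta (ords (L τ₀) c) : G → ℂ) 1 := by
  classical
  have hθ := hh_ords hζ hL hmon τ₀
  refine hθ.of_average ?_
  rw [top_order (hL τ₀) deg, old_order (hL τ₀) deg] at hz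
  have h1 := old_le hθ hdeg K lam
  rw [average hdeg K lam, theta_one_eq (c := c) (l := L τ₀) hdeg]
  congr 2
  exact le_antisymm h1 (by exact_mod_cast hz)

/-- order at most one -/
lemma zeros_one {ζ : E} (hζ : IsPrimitiveRoot ζ (Monoid.exponent G))
    (hL : ∀ τ, ∀ χ ∈ Irr G, MeromorphicAt (L τ χ) c ∧ meromorphicOrderAt (L τ χ) c ≠ ⊤)
    (hmon : ∀ (U : Subgroup G) (ψ : U →* Eˣ), Hyper U →
      Deligne L P c (ind U (fun u => ((ψ u : Eˣ) : E)))) (τ₀ : E →+* ℂ)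
    {deg : (G → ℂ) → ℕ} (hdeg : ∀ χ ∈ Irr G, χ 1 = deg χ)
    (hz : meromorphicOrderAt (fun s => ∏ᶠ χ ∈ Irr G, L τ₀ χ s ^ deg χ) c ≤ 1) :
    ∃ lam : G →* ℂˣ, ∀ g, (theta (ords (L τ₀) c) : G → ℂ) g
        = ((lam g : ℂˣ) : ℂ) * (theta (ords (L τ₀) c) : G → ℂ) 1 := by
  have hθ := hh_ords hζ hL hmon τ₀
  have htop := top_order (hL τ₀) deg
  have hone := theta_one_eq (c := c) (l := L τ₀) hdeg
  obtain ⟨r, hr⟩ := hθ.deg
  have h1 : (∑ χ ∈ irrF G, (deg χ : ℤ) * ords (L τ₀) c χ) = (r : ℤ) := by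
    rw [hone] at hr
    exact_mod_cast hr
  rw [htop, h1] at hz
  have h2 : (r : ℤ) ≤ 1 := by exact_mod_cast hz
  exact hθ.deg_le_one (theta_virt _) hr (by omega)

/-- **Main theorem.** -/
theorem main {ζ : E} (hζ : IsPrimitiveRoot ζ (Monoid.exponent G))
    (hL : ∀ τ, ∀ χ ∈ Irr G, MeromorphicAt (L τ χ) c ∧ meromorphicOrderAt (L τ χ) c ≠ ⊤)
    (hP : ∀ τ, ∀ χ ∈ Irr G, P τ χ ≠ 0)
    (hmon : ∀ (U : Subgroup G) (ψ : U →* Eˣ), Hyper U →
      Deligne L P c (ind U (fun u => ((ψ u : Eˣ) : E)))) (τ₀ : E →+* ℂ)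
    {deg : (G → ℂ) → ℕ} (hdeg : ∀ χ ∈ Irr G, χ 1 = deg χ)
    {p : ℕ} (hp : p.Prime) (K : Subgroup G) [hKn : K.Normal] (hQ : IsPGroup p (G ⧸ K))
    (lam : G →* ℂˣ)
    (hz : meromorphicOrderAt (fun s => ∏ᶠ χ ∈ Irr G, L τ₀ χ s ^ deg χ) c ≤ max 1
      (meromorphicOrderAt (fun s => ∏ᶠ χ ∈ {χ ∈ Irr G | ∀ k ∈ K, χ k = χ 1 * ((lam k : ℂˣ) : ℂ)},
            L τ₀ χ s ^ deg χ) c))
    {V : Type} [AddCommGroup V] [Module E V] [FiniteDimensional E V] (ρ : Representation E G V) :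
    Deligne L P c ρ.character := by
  classical
  -- all zeros are old
  obtain ⟨p, K, hKn, lam, hp, hQ, hK⟩ : ∃ (p : ℕ) (K : Subgroup G) (_ : K.Normal)
      (lam : G →* ℂˣ), p.Prime ∧ IsPGroup p (G ⧸ K) ∧
      ∀ k ∈ K, (theta (ords (L τ₀) c) : G → ℂ) k
        = ((lam k : ℂˣ) : ℂ) * (theta (ords (L τ₀) c) : G → ℂ) 1 := by
    rcases le_max_iff.mp hz with hz | hz
    · obtain ⟨lam, hlam⟩ := zeros_one hζ hL hmon τ₀ hdeg hz
      refine ⟨2, ⊤, inferInstance, lam, Nat.prime_two, ?_, fun k _ => hlam k⟩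
      intro q
      refine ⟨0, ?_⟩
      obtain ⟨g, rfl⟩ := QuotientGroup.mk_surjective q
      rw [pow_zero, pow_one]
      exact (QuotientGroup.eq_one_iff g).mpr (Subgroup.mem_top g)
    · exact ⟨p, K, hKn, lam, hp, hQ, zeros_old hζ hL hmon τ₀ hdeg K lam hz⟩
  obtain ⟨a, ha, s, hs, hf⟩ := decomp hp K hQ lam (base_change τ₀ ρ)
  obtain ⟨fa, ea, ha1, ha2⟩ := mon_del hζ hL hP hmon τ₀ ha
  obtain ⟨fs, es, hs1, -, hs2⟩ := new_unit hζ hL hP hmon τ₀ hK hs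
  have h1 : ρ.character = fa + fs := by
    funext g
    apply τ₀.injective
    rw [Pi.add_apply, map_add, ha1, hs1]
    exact congrFun hf g
  rw [h1]
  exact (ha2.add hL hP hs2).deligne

end Pool.Agent.R389
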