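import Mathlib
import Pool.Agent.R389.Main

/-!
# Quotients all of whose elements have prime power order
-/

set_option autoImplicit false
set_option linter.unusedSectionVars false

namespace Pool.Agent.R389

open Pool.Agent.H302R2 Pool.Agent.H302R3 Pool.Agent.H541R3.ART Pool.Agent.W446.AS

section clif

variable {G : Type} [Group G] [Finite G]

/-- Clifford theory: the character is induced from the stabilizer of a weight of an abelian normal
subgroup -/
theorem clifford_stab {V : Type} [AddCommGroup V] [Module ℂ V] [FiniteDimensional ℂ V]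
    {ρ : Representation ℂ G V} (hρ : Irred ρ) (A : Subgroup G)
    [A.Normal] (hA : ∀ a b : A, a * b = b * a) (μ : A →* ℂˣ) {v₀ : V} (hv₀ : v₀ ≠ 0)
    (hμ' : ∀ a : A, ρ a v₀ = ((μ a : ℂˣ) : ℂ) • v₀) :
    ∃ H : Subgroup G, (∀ g, g ∈ H ↔ ∀ a : A, μ (MulAut.conjNormal g a) = μ a) ∧
      ∃ ψ ∈ Irr H, ρ.character = ind H ψ := by
  classical
  have : Fintype A := Fintype.ofFinite A
  have hcA : (Nat.card A : ℂ) ≠ 0 := card_ne
  let H : Subgroup G :=
    { carrier := {g | ∀ a : A, μ (MulAut.conjNormal g a) = μ a}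
      mul_mem' := by
        intro x y hx hy a
        rw [map_mul, MulAut.mul_apply, hx, hy]
      one_mem' := by
        intro a
        rw [map_one, MulAut.one_apply]
      inv_mem' := by
        intro x hx a
        have h1 := hx (MulAut.conjNormal x⁻¹ a)
        rw [← MulAut.mul_apply, ← map_mul, mul_inv_cancel, map_one, MulAut.one_apply] at h1
        exact h1.symm }
  have hH : ∀ g, g ∈ H ↔ ∀ a : A, μ (MulAut.conjNormal g a) = μ a := fun g => Iff.rfl
  let P : V →ₗ[ℂ] V := (Nat.card A : ℂ)⁻¹ • ∑ a : A, (((μ a)⁻¹ : ℂˣ) : ℂ) • ρ a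
  have hP : ∀ v, P v = (Nat.card A : ℂ)⁻¹ • ∑ a : A, (((μ a)⁻¹ : ℂˣ) : ℂ) • ρ a v := by
    intro v
    simp [P, LinearMap.sum_apply]
  have hPw : ∀ v, (∀ a : A, ρ a v = ((μ a : ℂˣ) : ℂ) • v) → P v = v := by
    intro v hv
    rw [hP]
    have h1 : ∀ a : A, (((μ a)⁻¹ : ℂˣ) : ℂ) • ρ a v = v := by
      intro a
      rw [hv, smul_smul, ← Units.val_mul, inv_mul_cancel, Units.val_one, one_smul]
    rw [Finset.sum_congr rfl (fun a _ => h1 a), Finset.sum_const, Finset.card_univ,
      ← Nat.card_eq_fintype_card, ← Nat.cast_smul_eq_nsmul ℂ, smul_smul, inv_mul_cancel₀ hcA,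
      one_smul]
  have hwP : ∀ (a : A) (v : V), ρ a (P v) = ((μ a : ℂˣ) : ℂ) • P v := by
    intro a v
    rw [hP, map_smul, map_sum, smul_comm ((μ a : ℂˣ) : ℂ) ((Nat.card A : ℂ)⁻¹)]
    congr 1
    rw [Finset.smul_sum, ← Equiv.sum_comp (Equiv.mulLeft a) (fun b : A => ((μ a : ℂˣ) : ℂ) •
      (((μ b)⁻¹ : ℂˣ) : ℂ) • ρ b v)]
    refine Finset.sum_congr rfl fun b _ => ?_
    rw [map_smul, Equiv.coe_mulLeft, map_mul, mul_inv_rev, smul_smul, ← Units.val_mul,
      mul_comm (μ b)⁻¹, ← mul_assoc, mul_inv_cancel, one_mul, Subgroup.coe_mul, map_mul,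
      Module.End.mul_apply]
  have hPc : ∀ (g : G), g ∈ H → ∀ v, P (ρ g v) = ρ g (P v) := by
    intro g hg v
    rw [hP, hP, map_smul, map_sum]
    congr 1
    rw [← Equiv.sum_comp (MulAut.conjNormal g).toEquiv (fun b : A =>
      (((μ b)⁻¹ : ℂˣ) : ℂ) • ρ b (ρ g v))]
    refine Finset.sum_congr rfl fun b _ => ?_
    change (((μ (MulAut.conjNormal g b))⁻¹ : ℂˣ) : ℂ) • ρ (MulAut.conjNormal g b : A) (ρ g v) = _
    rw [map_smul, (hH g).mp hg, ← Module.End.mul_apply,
      ← Module.End.mul_apply, ← map_mul, ← map_mul, MulAut.conjNormal_apply,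
      inv_mul_cancel_right]
  have hAH : ∀ a : A, (a : G) ∈ H := by
    intro a
    rw [hH]
    intro b
    have h1 : MulAut.conjNormal (a : G) b = b := by
      apply Subtype.ext
      rw [MulAut.conjNormal_apply]
      have := congrArg Subtype.val (hA a b)
      simp only [Subgroup.coe_mul] at this
      rw [this, mul_inv_cancel_right]
    rw [h1]
  have hPG : ∀ g, g ∉ H → ∀ v, P (ρ g (P v)) = 0 := by
    intro g hg v
    have h0 : ∃ a : A, μ (MulAut.conjNormal g⁻¹ a) ≠ μ a := by
      by_contra hcon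
      push Not at hcon
      apply hg
      have h1 : g⁻¹ ∈ H := hcon
      simpa using H.inv_mem h1
    obtain ⟨a, ha⟩ := h0
    have h1 : ρ a (ρ g (P v)) = ((μ (MulAut.conjNormal g⁻¹ a) : ℂˣ) : ℂ) • ρ g (P v) := by
      have h2 : (a : G) * g = g * (MulAut.conjNormal g⁻¹ a : A) := by
        rw [MulAut.conjNormal_apply]
        group
      rw [← Module.End.mul_apply, ← map_mul, h2, map_mul, Module.End.mul_apply, hwP, map_smul]
    have h2 := hPc a (hAH a) (ρ g (P v))
    rw [h1, map_smul, hwP] at h2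
    have h3 : (((μ (MulAut.conjNormal g⁻¹ a) : ℂˣ) : ℂ) - ((μ a : ℂˣ) : ℂ)) • P (ρ g (P v)) = 0 := by
      rw [sub_smul, h2, sub_self]
    rcases smul_eq_zero.mp h3 with h4 | h4
    · exact absurd (Units.ext (sub_eq_zero.mp h4)) ha
    · exact h4
  have hP0 : P v₀ = v₀ := hPw v₀ hμ'
  refine ⟨H, hH, imprim_char hρ H P (fun v => hPw _ fun a => hwP a v) ?_
    (fun h hh v => hPc h hh v) hPG⟩
  intro h
  rw [h] at hP0
  exact hv₀ hP0.symm

end clif

/-- a Sylow subgroup maps onto a quotient `p`-group -/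
lemma sylow_sup {U : Type} [Group U] [Finite U] {p : ℕ} (hp : p.Prime) (N : Subgroup U) [N.Normal]
    (hQ : IsPGroup p (U ⧸ N)) (P : Sylow p U) :
    ∀ g : U, ∃ x ∈ (P : Subgroup U), ∃ k ∈ N, g = x * k := by
  have : Fact p.Prime := ⟨hp⟩
  have h1 : (P : Subgroup U) ⊔ N = ⊤ := by
    have h2 : ((P : Subgroup U) ⊔ N).index = 1 := by
      have h3 : ((P : Subgroup U) ⊔ N).index ∣ (P : Subgroup U).index :=
        Subgroup.index_dvd_of_le le_sup_left
      have h4 : ((P : Subgroup U) ⊔ N).index ∣ N.index :=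
        Subgroup.index_dvd_of_le le_sup_right
      obtain ⟨n, hn⟩ := IsPGroup.iff_card.mp hQ
      have h5 : N.index = p ^ n := by
        rw [Subgroup.index_eq_card]; exact hn
      rw [h5] at h4
      obtain ⟨m, -, hm⟩ := (Nat.dvd_prime_pow hp).mp h4
      rw [hm] at h3 ⊢
      rcases Nat.eq_zero_or_pos m with h0 | h0
      · rw [h0, pow_zero]
      · exact absurd ((dvd_pow_self p h0.ne').trans h3) P.not_dvd_index
    exact Subgroup.index_eq_one.mp h2
  intro g
  have hg : g ∈ (P : Subgroup U) ⊔ N := by rw [h1]; exact Subgroup.mem_top g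
  rw [Subgroup.mem_sup_of_normal_right] at hg
  obtain ⟨x, hx, k, hk, rfl⟩ := hg
  exact ⟨x, hx, k, hk, rfl⟩

/-- all elements have prime power order -/
def EPPO (U : Type) [Group U] : Prop := ∀ u : U, u = 1 ∨ IsPrimePow (orderOf u)

lemma EPPO.of_injective {W V : Type} [Group W] [Group V] (f : W →* V)
    (hf : Function.Injective f) (hV : EPPO V) : EPPO W := by
  intro u
  rcases hV (f u) with h | h
  · left
    exact (map_eq_one_iff f hf).mp h
  · right
    rwa [orderOf_injective f hf u] at h

/-- generated by the characters induced from linear characters of subgroups of prime power order -/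
def PG (U : Type) [Group U] : AddSubgroup (U → ℂ) :=
  AddSubgroup.closure {f | ∃ (V : Subgroup U) (ψ : V →* ℂˣ) (q : ℕ), q.Prime ∧ IsPGroup q V ∧
    f = ind V (fun h => ((ψ h : ℂˣ) : ℂ))}

section hyp

variable {U : Type} [Group U] [Finite U]

lemma eppo_new (he : EPPO U) {p : ℕ} (hp : p.Prime) {c : U} (hcop : (orderOf c).Coprime p)
    (hn : ∀ u : U, u * c * u⁻¹ ∈ Subgroup.zpowers c)
    (hpw : ∀ u : U, ∃ k : ℕ, u ^ (p ^ k) ∈ Subgroup.zpowers c) {χ : U → ℂ} (hχ : χ ∈ Irr U)
    {k : U} (hk : k ∈ Subgroup.zpowers c) (hne : χ k ≠ χ 1) :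
    ∃ H : Subgroup U, H ≤ Subgroup.zpowers c ∧ ∃ φ ∈ Irr H, χ = ind H φ := by
  classical
  let C : Subgroup U := Subgroup.zpowers c
  have hCn : C.Normal := ⟨fun x hx u => conj_zpowers hn u hx⟩
  have hC := zpowers_comm c
  have : Fintype C := Fintype.ofFinite C
  obtain ⟨n, ρ, hρ, rfl⟩ := exists_rep hχ
  obtain ⟨μ, v₀, hv₀, hμ⟩ := exists_weight hC (ρ.comp C.subtype) hρ.1
  have hμ' : ∀ a : C, ρ a v₀ = ((μ a : ℂˣ) : ℂ) • v₀ := hμ
  -- the weight is nontrivial
  have hμ1 : μ ≠ 1 := by
    intro h
    apply hne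
    have h0 : ∀ n ∈ C, ρ n = 1 := by
      rcases hρ.normal_dich C with h1 | h1
      · exact h1
      · exfalso
        let W : Submodule ℂ (Fin n → ℂ) :=
          { carrier := {v | ∀ n ∈ C, ρ n v = v}
            add_mem' := by
              intro a b ha hb n hn
              rw [map_add, ha n hn, hb n hn]
            zero_mem' := by
              intro n _
              exact map_zero _
            smul_mem' := by
              intro c a ha n hn
              rw [map_smul, ha n hn] }
        have hW : ∀ v, v ∈ W ↔ ∀ n ∈ C, ρ n v = v := fun v => Iff.rfl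
        rcases hρ.2 W (by
          intro g v hv n hn
          have h1 : g⁻¹ * n * g ∈ C := by
            have := hCn.conj_mem n hn g⁻¹
            rwa [inv_inv] at this
          have h2 := hv _ h1
          have h3 : n * g = g * (g⁻¹ * n * g) := by group
          rw [← Module.End.mul_apply, ← map_mul, h3, map_mul, Module.End.mul_apply, h2])
          with h2 | h2
        · have h3 : v₀ ∈ W := by
            rw [hW]
            intro n hn
            have h4 := hμ' ⟨n, hn⟩
            rw [h] at h4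
            simpa using h4
          rw [h2, Submodule.mem_bot] at h3
          exact hv₀ h3
        · have h3 : ∀ n ∈ C, ρ n = 1 := by
            intro n hn
            refine LinearMap.ext fun v => ?_
            have h4 : v ∈ W := by rw [h2]; exact Submodule.mem_top
            rw [Module.End.one_apply]
            exact (hW v).mp h4 n hn
          have h4 := h1 1
          have h5 : ∀ n : C, ρ.character (1 * n) = ρ.character 1 := by
            intro n
            rw [one_mul]
            change LinearMap.trace ℂ _ (ρ n) = LinearMap.trace ℂ _ (ρ 1)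
            rw [h3 n n.2, map_one ρ]
          rw [Finset.sum_congr rfl (fun n _ => h5 n), Finset.sum_const, Finset.card_univ,
            nsmul_eq_mul, ← Nat.card_eq_fintype_card] at h4
          rcases mul_eq_zero.mp h4 with h6 | h6
          · exact card_ne h6
          · obtain ⟨d, hd, hd1⟩ := irr_deg_pos hχ
            rw [hd1] at h6
            have : d = 0 := by exact_mod_cast h6
            omega
    change LinearMap.trace ℂ _ (ρ k) = LinearMap.trace ℂ _ (ρ 1)
    rw [h0 k hk, map_one ρ]
  obtain ⟨H, hH, φ, hφ, hφ1⟩ := clifford_stab hρ C hC μ hv₀ hμ'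
  refine ⟨H, ?_, φ, hφ, hφ1⟩
  intro g hg
  by_contra hgC
  have hg1 : g ≠ 1 := fun h => hgC (h ▸ one_mem _)
  rcases he g with h | h
  · exact hg1 h
  rw [isPrimePow_nat_iff] at h
  obtain ⟨l, b, hl, hb, hlb⟩ := h
  obtain ⟨j, hj⟩ := hpw g
  have hlp : l = p := by
    by_contra hlp
    apply hgC
    have hcop2 : Nat.Coprime (p ^ j) (orderOf g) := by
      rw [← hlb]
      exact Nat.Coprime.pow _ _ ((Nat.coprime_primes hp hl).mpr (Ne.symm hlp))
    obtain ⟨i, hi⟩ := exists_pow_eq_self_of_coprime hcop2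
    rw [← hi]
    exact Subgroup.pow_mem _ hj i
  subst hlp
  -- commutation with a nontrivial element of `C` is impossible
  have hfree : ∀ x : C, g * x = x * g → x = 1 := by
    intro x hx
    by_contra hx1
    have hx1' : (x : U) ≠ 1 := fun h => hx1 (Subtype.ext h)
    have hox : orderOf (x : U) ∣ orderOf c := orderOf_dvd_of_mem_zpowers x.2
    have hcopx : (orderOf g).Coprime (orderOf (x : U)) := by
      rw [← hlb]
      exact Nat.Coprime.pow_left _ (Nat.Coprime.coprime_dvd_left hox hcop).symm
    have ho : orderOf (g * x) = orderOf g * orderOf (x : U) :=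
      Commute.orderOf_mul_eq_mul_orderOf_of_coprime hx hcopx
    have hlo : l ∣ orderOf (g * x) := by
      rw [ho, ← hlb]
      exact (dvd_pow_self l hb.ne').mul_right _
    have hox1 : orderOf (x : U) ≠ 1 := fun h => hx1' (orderOf_eq_one_iff.mp h)
    obtain ⟨r, hr, hrx⟩ := Nat.exists_prime_and_dvd hox1
    have hro : r ∣ orderOf (g * x) := by
      rw [ho]
      exact hrx.mul_left _
    rcases he (g * x) with h | h
    · rw [h, orderOf_one] at hlo
      exact hp.one_lt.ne' (Nat.dvd_one.mp hlo)
    · rw [isPrimePow_nat_iff] at h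
      obtain ⟨s, t, hs, ht, hst⟩ := h
      rw [← hst] at hlo hro
      have e1 : l = s := (Nat.prime_dvd_prime_iff_eq hp hs).mp (hp.dvd_of_dvd_pow hlo)
      have e2 : r = s := (Nat.prime_dvd_prime_iff_eq hr hs).mp (hr.dvd_of_dvd_pow hro)
      rw [e2, ← e1] at hrx
      have h3 := Nat.Coprime.coprime_dvd_left (hrx.trans hox) hcop
      rw [Nat.coprime_self] at h3
      exact hp.one_lt.ne' h3
  let κ : C →* C :=
    { toFun := fun x => MulAut.conjNormal g x * x⁻¹
      map_one' := by simp
      map_mul' := by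
        intro x y
        rw [map_mul, mul_inv_rev]
        have h1 := hC (MulAut.conjNormal g y * y⁻¹) x⁻¹
        calc MulAut.conjNormal g x * MulAut.conjNormal g y * (y⁻¹ * x⁻¹)
            = MulAut.conjNormal g x * (MulAut.conjNormal g y * y⁻¹ * x⁻¹) := by group
          _ = MulAut.conjNormal g x * (x⁻¹ * (MulAut.conjNormal g y * y⁻¹)) := by rw [h1]
          _ = _ := by group }
  have hκ : ∀ x, κ x = MulAut.conjNormal g x * x⁻¹ := fun x => rfl
  have hinj : Function.Injective κ := by
    rw [injective_iff_map_eq_one]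
    intro x hx
    apply hfree
    rw [hκ] at hx
    have h1 : MulAut.conjNormal g x = x := mul_inv_eq_one.mp hx
    have h2 := congrArg Subtype.val h1
    rw [MulAut.conjNormal_apply] at h2
    exact mul_inv_eq_iff_eq_mul.mp h2
  have hsurj := Finite.surjective_of_injective hinj
  apply hμ1
  ext y
  obtain ⟨x, rfl⟩ := hsurj y
  rw [hκ, map_mul, (hH g).mp hg x, ← map_mul, mul_inv_cancel, map_one]
  rfl

/-- the trivial character of a hyperelementary group with elements of prime power order -/
lemma eppo_one (he : EPPO U) (hU : Hyper U) : (fun _ => 1 : U → ℂ) ∈ PG U := by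
  classical
  have : Fintype U := Fintype.ofFinite U
  obtain ⟨p, hp, c, hcop, hn, hpw⟩ := hU
  have : Fact p.Prime := ⟨hp⟩
  let C : Subgroup U := Subgroup.zpowers c
  have hCn : C.Normal := ⟨fun x hx u => conj_zpowers hn u hx⟩
  have hQ : IsPGroup p (U ⧸ C) := by
    intro q
    obtain ⟨u, rfl⟩ := QuotientGroup.mk_surjective q
    obtain ⟨k, hk⟩ := hpw u
    refine ⟨k, ?_⟩
    rw [← QuotientGroup.mk_pow]
    exact (QuotientGroup.eq_one_iff _).mpr hk
  obtain ⟨Q⟩ : Nonempty (Sylow p U) := inferInstance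
  have hQC := sylow_sup hp C hQ Q
  -- a prime for `C`
  have hCq : ∃ q : ℕ, q.Prime ∧ IsPGroup q C := by
    rcases he c with h | h
    · refine ⟨p, hp, ?_⟩
      rintro ⟨x, hx⟩
      refine ⟨0, ?_⟩
      apply Subtype.ext
      have h1 : x ∈ Subgroup.zpowers c := hx
      rw [h, Subgroup.zpowers_one_eq_bot, Subgroup.mem_bot] at h1
      simpa using h1
    · rw [isPrimePow_nat_iff] at h
      obtain ⟨q, a, hq, -, hqa⟩ := h
      refine ⟨q, hq, ?_⟩
      have : Fact q.Prime := ⟨hq⟩
      rw [IsPGroup.iff_card]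
      exact ⟨a, by rw [Nat.card_zpowers, hqa]⟩
  obtain ⟨q, hq, hCq⟩ := hCq
  have h1 : ∀ D ∈ AddSubgroup.closure (Irr U), D - inv C D ∈ PG U := by
    intro D hD
    have h2 : AddSubgroup.closure (Irr U) ≤ (PG U).comap (AddMonoidHom.id _ - invHom C) := by
      rw [AddSubgroup.closure_le]
      intro χ hχ
      rw [SetLike.mem_coe, AddSubgroup.mem_comap]
      change χ - inv C χ ∈ PG U
      rcases irr_inv C hχ with h | ⟨⟨k, hk, hne⟩, h⟩
      · rw [inv_of_const _ h, sub_self]
        exact zero_mem _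
      · rw [h, sub_zero]
        obtain ⟨H, hHC, φ, hφ, rfl⟩ := eppo_new he hp hcop hn hpw hχ hk hne
        have hHp : IsPGroup q H := hCq.to_le hHC
        obtain ⟨W, ψ, -, hWH, h3⟩ := ind_mono_mem (Hyper.of_pgroup hq hHp) hφ
        rw [h3]
        exact AddSubgroup.subset_closure ⟨W, ψ, q, hq, hHp.to_le hWH, rfl⟩
    exact h2 hD
  have htriv : (fun _ => 1 : U → ℂ) ∈ AddSubgroup.closure (Irr U) := by
    have := lin_irr (1 : U →* ℂˣ)
    simp only [MonoidHom.one_apply, Units.val_one] at this
    exact AddSubgroup.subset_closure this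
  have hindv : Virt (ind (Q : Subgroup U) (fun _ => (1 : ℂ))) := by
    have h3 := lin_irr (1 : (Q : Subgroup U) →* ℂˣ)
    simp only [MonoidHom.one_apply, Units.val_one] at h3
    exact virt_ind (Q : Subgroup U) (AddSubgroup.subset_closure h3)
  have h2 := h1 _ (sub_mem htriv hindv)
  have h3 : inv C ((fun _ => 1 : U → ℂ) - ind (Q : Subgroup U) (fun _ => (1 : ℂ))) = 0 := by
    have h4 : inv C ((fun _ => 1 : U → ℂ) - ind (Q : Subgroup U) (fun _ => (1 : ℂ)))
        = inv C (fun _ => 1 : U → ℂ) - inv C (ind (Q : Subgroup U) (fun _ => (1 : ℂ))) :=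
      map_sub (invHom C) _ _
    rw [h4, inv_of_const C (fun _ _ _ => rfl)]
    funext g
    rw [Pi.sub_apply]
    obtain ⟨x, hx, k, hk, rfl⟩ := hQC g
    have h5 := inv_ind_of_surj C (Q : Subgroup U) hQC (F := fun _ => (1 : ℂ)) (fun _ _ => rfl)
      (fun _ _ _ => rfl) ⟨x, hx⟩
    rw [inv_mul_mem _ _ _ hk]
    rw [h5, sub_self]
    rfl
  rw [h3, sub_zero] at h2
  have h4 : (fun _ => 1 : U → ℂ) = ((fun _ => 1 : U → ℂ) - ind (Q : Subgroup U) (fun _ => (1 : ℂ)))
      + ind (Q : Subgroup U) (fun _ => (1 : ℂ)) := by abel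
  rw [h4]
  refine add_mem h2 (AddSubgroup.subset_closure ⟨(Q : Subgroup U), 1, p, hp, Q.isPGroup', ?_⟩)
  simp only [MonoidHom.one_apply, Units.val_one]

/-- inducing from a subgroup -/
lemma ind_pg (H : Subgroup U) {f : H → ℂ} (hf : f ∈ PG H) : ind H f ∈ PG U := by
  have h1 : PG H ≤ (PG U).comap (indHom H) := by
    rw [PG, AddSubgroup.closure_le]
    rintro f ⟨V, ψ, q, hq, hV, rfl⟩
    rw [SetLike.mem_coe, AddSubgroup.mem_comap, indHom_apply, ind_ind]
    exact AddSubgroup.subset_closure ⟨V.map H.subtype, ψ.comp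
      (V.equivMapOfInjective H.subtype H.subtype_injective).symm.toMonoidHom, q, hq,
      hV.map H.subtype, rfl⟩
  exact h1 hf

/-- Brauer's theorem for groups with elements of prime power order -/
theorem one_mem_pg (he : EPPO U) : (fun _ => 1 : U → ℂ) ∈ PG U := by
  refine (AddSubgroup.closure_le (PG U)).mpr ?_ (one_mem_sol (G := U))
  rintro f ⟨V, hV, rfl⟩
  exact ind_pg V (eppo_one (he.of_injective V.subtype V.subtype_injective) hV)

end hyp

section main

variable {G : Type} [Group G] [Finite G]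

/-- inducing new characters from a subgroup -/
lemma ind_new (K : Subgroup G) (H : Subgroup G) {f : H → ℂ} (hf : f ∈ NewG (K.subgroupOf H)) :
    ind H f ∈ NewG K := by
  have h1 : NewG (K.subgroupOf H) ≤ (NewG K).comap (indHom H) := by
    rw [NewG, AddSubgroup.closure_le]
    rintro f ⟨U, ψ, hU, ⟨u, hu, hne⟩, rfl⟩
    rw [SetLike.mem_coe, AddSubgroup.mem_comap, indHom_apply, ind_ind]
    refine AddSubgroup.subset_closure ⟨U.map H.subtype, ψ.comp
      (U.equivMapOfInjective H.subtype H.subtype_injective).symm.toMonoidHom,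
      hU.of_injective (U.equivMapOfInjective H.subtype H.subtype_injective).symm.toMonoidHom
      (U.equivMapOfInjective H.subtype H.subtype_injective).symm.injective,
      ⟨U.equivMapOfInjective H.subtype H.subtype_injective u, Subgroup.mem_subgroupOf.mp hu, ?_⟩,
      rfl⟩
    rw [MonoidHom.comp_apply]
    change ψ ((U.equivMapOfInjective H.subtype H.subtype_injective).symm
      (U.equivMapOfInjective H.subtype H.subtype_injective u)) ≠ 1
    rw [MulEquiv.symm_apply_apply]
    exact hne
  exact h1 hf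

/-- **Characters without invariants.** If all elements of `G / K` have prime power order, a virtual
character of `G` with mean zero on the cosets of `K` is new. -/
theorem new_of_inv_zero (K : Subgroup G) [K.Normal] (he : EPPO (G ⧸ K)) {f : G → ℂ}
    (hf : Virt f) (h0 : inv K f = 0) : f ∈ NewG K := by
  classical
  have : Fintype K := Fintype.ofFinite K
  let π : G →* G ⧸ K := QuotientGroup.mk' K
  have hπ : Function.Surjective π := QuotientGroup.mk'_surjective K
  let m : (G ⧸ K → ℂ) →+ (G → ℂ) := AddMonoidHom.mk' (fun u g => u (π g) * f g) (fun a b => by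
    funext g
    change (a (π g) + b (π g)) * f g = a (π g) * f g + b (π g) * f g
    ring)
  have h1 : PG (G ⧸ K) ≤ (NewG K).comap m := by
    rw [PG, AddSubgroup.closure_le]
    rintro u ⟨V, ψ, q, hq, hV, rfl⟩
    rw [SetLike.mem_coe, AddSubgroup.mem_comap]
    have hqf : Fact q.Prime := ⟨hq⟩
    let H : Subgroup G := V.comap π
    let π' : H →* V :=
      { toFun := fun h => ⟨π h, h.2⟩
        map_one' := by apply Subtype.ext; simp
        map_mul' := by intro a b; apply Subtype.ext; simp }
    let F : H → ℂ := fun h => f h * (((ψ.comp π') h : ℂˣ) : ℂ)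
    have h2 : m (ind V (fun h => ((ψ h : ℂˣ) : ℂ))) = ind H F := by
      funext g
      change ind V (fun h => ((ψ h : ℂˣ) : ℂ)) (π g) * f g = ind H F g
      rw [congrFun (ind_comap hπ V (fun h => ((ψ h : ℂˣ) : ℂ))) g,
        ← ind_mul (V.comap π) _ hf.conj g]
      congr 1
      funext h
      rw [mul_comm]
      rfl
    rw [h2]
    apply ind_new
    have hFv : Virt F := by
      have h3 : AddSubgroup.closure (Irr H) ≤ (AddSubgroup.closure (Irr H)).comap
          (twHom (ψ.comp π')) := by
        rw [AddSubgroup.closure_le]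
        intro χ hχ
        exact AddSubgroup.subset_closure (irr_twist hχ _)
      exact h3 (Virt.comp hf H.subtype)
    have hHQ : IsPGroup q (H ⧸ K.subgroupOf H) := by
      intro x
      obtain ⟨h, rfl⟩ := QuotientGroup.mk_surjective x
      obtain ⟨k, hk⟩ := hV (π' h)
      refine ⟨k, ?_⟩
      rw [← QuotientGroup.mk_pow]
      refine (QuotientGroup.eq_one_iff _).mpr (Subgroup.mem_subgroupOf.mpr ?_)
      have h3 := congrArg Subtype.val hk
      have h4 : π ((h ^ (q ^ k) : H) : G) = 1 := by
        rw [Subgroup.coe_pow, map_pow]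
        exact h3
      exact (QuotientGroup.eq_one_iff _).mp h4
    obtain ⟨P⟩ : Nonempty (Sylow q H) := inferInstance
    have h3 := reduce hq (K.subgroupOf H) hHQ P hFv
    have h4 : inv (K.subgroupOf H) F = 0 := by
      have : Fintype (K.subgroupOf H) := Fintype.ofFinite _
      funext g
      rw [inv_eq]
      have hKH : K ≤ H := by
        intro k hk
        change π k ∈ V
        have : π k = 1 := (QuotientGroup.eq_one_iff k).mpr hk
        rw [this]
        exact one_mem _
      have h5 : ∀ k : K.subgroupOf H, F (g * k) = f ((g : G) * ((k : H) : G)) *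
          (((ψ.comp π') g : ℂˣ) : ℂ) := by
        intro k
        change f _ * _ = _
        congr 2
        rw [map_mul]
        have h6 : (ψ.comp π') (k : H) = 1 := by
          rw [MonoidHom.comp_apply]
          have h7 : π' (k : H) = 1 := by
            apply Subtype.ext
            change π ((k : H) : G) = 1
            exact (QuotientGroup.eq_one_iff _).mpr (Subgroup.mem_subgroupOf.mp k.2)
          rw [h7, map_one]
        rw [h6, mul_one]
      rw [Finset.sum_congr rfl (fun k _ => h5 k), ← Finset.sum_mul]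
      have h6 : ∑ k : K.subgroupOf H, f ((g : G) * ((k : H) : G)) = ∑ k : K, f ((g : G) * k) := by
        refine Fintype.sum_equiv (Subgroup.subgroupOfEquivOfLe hKH).toEquiv _ _ fun k => ?_
        rfl
      have h7 := congrFun h0 (g : G)
      rw [inv_eq] at h7
      have h8 : ∑ k : K, f ((g : G) * k) = 0 := by
        rcases mul_eq_zero.mp h7 with h | h
        · exact absurd h (inv_ne_zero card_ne)
        · exact h
      rw [h6, h8, zero_mul, mul_zero]
      rfl
    rw [h4] at h3
    have h5 : ind (P : Subgroup H) (fun h : (P : Subgroup H) => (0 : H → ℂ) h) = 0 := ind_zero _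
    rw [h5, sub_zero] at h3
    exact h3
  have h2 := h1 (one_mem_pg he)
  rw [AddSubgroup.mem_comap] at h2
  have h3 : m (fun _ => 1) = f := by
    funext g
    change 1 * f g = f g
    rw [one_mul]
  rwa [h3] at h2

end main

end Pool.Agent.R389
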