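import Mathlib
import Pool.Agent.R389.Eppo

/-!
# Nilpotent groups are monomial; characters nontrivial on a normal subgroup
-/

set_option autoImplicit false
set_option linter.unusedSectionVars false

namespace Pool.Agent.R389

open Pool.Agent.H302R2 Pool.Agent.H302R3 Pool.Agent.H541R3.ART Pool.Agent.W446.AS

section nil

variable {G : Type} [Group G] [Finite G]

/-- a nonabelian nilpotent group has a noncentral abelian normal subgroup -/
lemma nil_abelian [Group.IsNilpotent G] (hc : ¬ ∀ a b : G, a * b = b * a) :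
    ∃ A : Subgroup G, A.Normal ∧ (∀ a b : A, a * b = b * a) ∧ ¬ A ≤ Subgroup.center G := by
  classical
  have hnt : Nontrivial (G ⧸ Subgroup.center G) := by
    by_contra hcon
    rw [not_nontrivial_iff_subsingleton] at hcon
    apply hc
    intro a b
    have h1 : (QuotientGroup.mk b : G ⧸ Subgroup.center G) = 1 := Subsingleton.elim _ _
    have h2 := (QuotientGroup.eq_one_iff b).mp h1
    exact Subgroup.mem_center_iff.mp h2 a
  have hZ : Nontrivial (Subgroup.center (G ⧸ Subgroup.center G)) :=
    (Subgroup.nontrivial_iff_ne_bot _).mpr (Group.IsNilpotent.center_ne_bot _)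
  obtain ⟨⟨z, hz⟩, hz1⟩ := exists_ne (1 : Subgroup.center (G ⧸ Subgroup.center G))
  have hz1' : z ≠ 1 := fun h => hz1 (Subtype.ext h)
  obtain ⟨a, rfl⟩ := QuotientGroup.mk_surjective z
  let π : G →* G ⧸ Subgroup.center G := QuotientGroup.mk' _
  have hzn : (Subgroup.zpowers (π a)).Normal := by
    refine ⟨fun x hx u => ?_⟩
    have h1 : x ∈ Subgroup.center (G ⧸ Subgroup.center G) := by
      obtain ⟨k, rfl⟩ := hx
      exact Subgroup.zpow_mem _ hz k
    rw [Subgroup.mem_center_iff.mp h1 u, mul_inv_cancel_right]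
    exact hx
  refine ⟨(Subgroup.zpowers (π a)).comap π, Subgroup.Normal.comap hzn π, ?_, ?_⟩
  · have h1 : ∀ x : G, x ∈ (Subgroup.zpowers (π a)).comap π →
        ∃ (k : ℤ) (w : G), w ∈ Subgroup.center G ∧ x = a ^ k * w := by
      rintro x ⟨k, hk⟩
      refine ⟨k, (a ^ k)⁻¹ * x, ?_, by group⟩
      simp only at hk
      rw [← map_zpow] at hk
      have h2 : π ((a ^ k)⁻¹ * x) = 1 := by rw [map_mul, map_inv, hk, inv_mul_cancel]
      exact (QuotientGroup.eq_one_iff _).mp h2
    rintro ⟨x, hx⟩ ⟨y, hy⟩
    obtain ⟨k, w, hw, rfl⟩ := h1 x hx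
    obtain ⟨l, v, hv, rfl⟩ := h1 y hy
    apply Subtype.ext
    change a ^ k * w * (a ^ l * v) = a ^ l * v * (a ^ k * w)
    have e1 := Subgroup.mem_center_iff.mp hw (a ^ l)
    have e2 := Subgroup.mem_center_iff.mp hv (a ^ k)
    have e3 := Subgroup.mem_center_iff.mp hw v
    have e4 : a ^ k * a ^ l = a ^ l * a ^ k := by rw [← zpow_add, ← zpow_add, add_comm]
    calc a ^ k * w * (a ^ l * v) = a ^ k * (w * a ^ l) * v := by group
      _ = a ^ k * (a ^ l * w) * v := by rw [e1]
      _ = (a ^ k * a ^ l) * (w * v) := by group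
      _ = (a ^ l * a ^ k) * (v * w) := by rw [e4, e3]
      _ = a ^ l * (a ^ k * v) * w := by group
      _ = a ^ l * (v * a ^ k) * w := by rw [e2]
      _ = a ^ l * v * (a ^ k * w) := by group
  · intro h
    apply hz1'
    have h1 : a ∈ Subgroup.center G := h ⟨1, by simp [π]⟩
    exact (QuotientGroup.eq_one_iff _).mpr h1

/-- irreducible characters of nilpotent groups are monomial -/
theorem nil_mono : ∀ (n : ℕ) (G : Type) [Group G] [Finite G],
    Nat.card G = n → Group.IsNilpotent G → ∀ χ ∈ Irr G, Mono χ := by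
  intro n
  induction n using Nat.strong_induction_on with
  | _ n ih =>
    intro G _ _ hn hG χ hχ
    classical
    by_cases hc : ∀ a b : G, a * b = b * a
    · exact mono_abelian hc hχ
    obtain ⟨m, ρ, hρ, rfl⟩ := exists_rep hχ
    by_cases hf : ∀ g, ρ g = 1 → g = 1
    · obtain ⟨A, hAn, hA, hAc⟩ := nil_abelian hc
      obtain ⟨H, hH, φ, hφ, hφ1⟩ := clifford_char hρ hf A hA hAc
      rw [hφ1]
      have hlt : Nat.card H < n := by
        rw [← hn]
        rcases lt_or_eq_of_le (Nat.le_of_dvd Nat.card_pos H.card_subgroup_dvd_card) with h | h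
        · exact h
        · exact absurd (Subgroup.eq_top_of_card_eq H h) hH
      exact (ih _ hlt H rfl (inferInstance : Group.IsNilpotent H) φ hφ).ind
    · push Not at hf
      obtain ⟨g₀, hg₀, hg₁⟩ := hf
      let π : G →* G ⧸ ρ.ker := QuotientGroup.mk' _
      have hπ : Function.Surjective π := QuotientGroup.mk'_surjective _
      obtain ⟨ψ, hψ, hψ1⟩ := descend_irr hπ hρ (by
        intro g hg
        rw [QuotientGroup.ker_mk', MonoidHom.mem_ker] at hg
        exact hg)
      have h1 : ρ.character = fun g => ψ (π g) := funext hψ1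
      rw [h1]
      have hlt : Nat.card (G ⧸ ρ.ker) < n := by
        have h2 := Subgroup.card_eq_card_quotient_mul_card_subgroup ρ.ker
        have h3 : 1 < Nat.card ρ.ker := by
          have : Nontrivial ρ.ker := ⟨⟨g₀, MonoidHom.mem_ker.mpr hg₀⟩, 1, fun h =>
            hg₁ (congrArg Subtype.val h)⟩
          exact Finite.one_lt_card
        have h4 : 0 < Nat.card (G ⧸ ρ.ker) := Nat.card_pos
        rw [hn] at h2
        rw [h2]
        nlinarith
      exact (ih _ hlt _ rfl (Group.nilpotent_of_surjective π hπ) ψ hψ).comp hπ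


end nil

/-- hyperelementary or nilpotent groups -/
def Tame (U : Type) [Group U] : Prop := Hyper U ∨ Group.IsNilpotent U

lemma nil_of_injective {W V : Type} [Group W] [Group V] (f : W →* V)
    (hf : Function.Injective f) (hV : Group.IsNilpotent V) : Group.IsNilpotent W := by
  have h1 : Group.IsNilpotent f.range := inferInstance
  exact Group.nilpotent_of_mulEquiv (MonoidHom.ofInjective hf).symm

lemma Tame.of_injective {W V : Type} [Group W] [Group V] (f : W →* V)
    (hf : Function.Injective f) (hV : Tame V) : Tame W := by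
  rcases hV with h | h
  · exact Or.inl (h.of_injective f hf)
  · exact Or.inr (nil_of_injective f hf h)

lemma Tame.mono {U : Type} [Group U] [Finite U] (h : Tame U) {χ : U → ℂ} (hχ : χ ∈ Irr U) :
    Mono χ := by
  rcases h with h | h
  · exact h.mono hχ
  · exact nil_mono _ U rfl h χ hχ

variable {G : Type} [Group G] [Finite G]

/-- induced from linear characters of tame subgroups nontrivial on `K` -/
def NewA (K : Subgroup G) : AddSubgroup (G → ℂ) :=
  AddSubgroup.closure {f | ∃ (U : Subgroup G) (ψ : U →* ℂˣ), Tame U ∧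
    (∃ u : U, (u : G) ∈ K ∧ ψ u ≠ 1) ∧ f = ind U (fun h => ((ψ h : ℂˣ) : ℂ))}

lemma inv_newA (K : Subgroup G) [K.Normal] {s : G → ℂ} (hs : s ∈ NewA K) : inv K s = 0 := by
  classical
  have : Fintype G := Fintype.ofFinite G
  have : Fintype K := Fintype.ofFinite K
  have h1 : NewA K ≤ (⊥ : AddSubgroup (G → ℂ)).comap (invHom K) := by
    rw [NewA, AddSubgroup.closure_le]
    rintro f ⟨U, ψ, -, ⟨u, hu, hψu⟩, rfl⟩
    rw [SetLike.mem_coe, AddSubgroup.mem_comap, AddSubgroup.mem_bot, invHom_apply]
    funext g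
    rw [inv_ind, Finset.sum_eq_zero, mul_zero, mul_zero]
    · rfl
    intro x _
    have h2 : ∀ z : G, ext U (fun h => ((ψ h : ℂˣ) : ℂ)) (z * u)
        = ext U (fun h => ((ψ h : ℂˣ) : ℂ)) z * ((ψ u : ℂˣ) : ℂ) := by
      intro z
      by_cases hz : z ∈ U
      · have hz' : z * u ∈ U := U.mul_mem hz u.2
        rw [ext_mem _ _ hz', ext_mem _ _ hz, ← Units.val_mul, ← map_mul]
        rfl
      · have hz' : z * u ∉ U := fun h => hz (by simpa using U.mul_mem h (U.inv_mem u.2))
        rw [ext_not _ _ hz', ext_not _ _ hz, zero_mul]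
    have h3 : ∑ k : K, ext U (fun h => ((ψ h : ℂˣ) : ℂ)) (x⁻¹ * g * x * k)
        = (∑ k : K, ext U (fun h => ((ψ h : ℂˣ) : ℂ)) (x⁻¹ * g * x * k)) * ((ψ u : ℂˣ) : ℂ) := by
      rw [Finset.sum_mul, ← Equiv.sum_comp (Equiv.mulRight (⟨u, hu⟩ : K))
        (fun k : K => ext U (fun h => ((ψ h : ℂˣ) : ℂ)) (x⁻¹ * g * x * k))]
      refine Finset.sum_congr rfl fun k _ => ?_
      rw [← h2]
      congr 1
      simp only [Equiv.coe_mulRight, Subgroup.coe_mul]
      group
    have h4 : (∑ k : K, ext U (fun h => ((ψ h : ℂˣ) : ℂ)) (x⁻¹ * g * x * k))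
        * (((ψ u : ℂˣ) : ℂ) - 1) = 0 := by
      rw [mul_sub, mul_one, ← h3, sub_self]
    rcases mul_eq_zero.mp h4 with h5 | h5
    · exact h5
    · exfalso
      apply hψu
      exact Units.ext (sub_eq_zero.mp h5)
  have h2 := h1 hs
  rw [AddSubgroup.mem_comap, AddSubgroup.mem_bot] at h2
  exact h2

/-- an irreducible character nontrivial on `K` is induced from a linear character nontrivial
on `K` -/
lemma ind_irr_newA (K : Subgroup G) [K.Normal] {U : Subgroup G} (hU : Tame U) {χ : U → ℂ}
    (hχ : χ ∈ Irr U) {u : U} (hu : (u : G) ∈ K) (hne : χ u ≠ χ 1) : ind U χ ∈ NewA K := by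
  classical
  have : Fintype U := Fintype.ofFinite U
  obtain ⟨W, ψ, hψ⟩ := hU.mono hχ
  have : Fintype W := Fintype.ofFinite W
  have hW : ∃ w : W, ((w : U) : G) ∈ K ∧ ψ w ≠ 1 := by
    by_contra hcon
    push Not at hcon
    let N : Subgroup U := K.subgroupOf U
    have hN : ∀ x : U, x ∈ N ↔ (x : G) ∈ K := fun x => Subgroup.mem_subgroupOf
    have : Fintype N := Fintype.ofFinite N
    let F : U → ℂ := fun x => if x ∈ N then 1 else 0
    have hF : ∀ g x : U, F (x * g * x⁻¹) = F g := by
      intro g x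
      have h1 : x * g * x⁻¹ ∈ N ↔ g ∈ N := by
        constructor
        · intro h
          have h2 := (inferInstance : N.Normal).conj_mem _ h x⁻¹
          have h3 : x⁻¹ * (x * g * x⁻¹) * x⁻¹⁻¹ = g := by group
          rwa [h3] at h2
        · intro h
          exact (inferInstance : N.Normal).conj_mem _ h x
      simp only [F, h1]
    have h1 := frob W (fun h => ((ψ h : ℂˣ) : ℂ)) hF
    rw [← hψ] at h1
    have h2 : pr χ F = 0 := by
      rw [pr_eq]
      have h3 := sum_coset_zero hχ N ((hN u).mpr hu) hne 1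
      rw [finsum_eq_sum_of_fintype] at h3
      have h4 : ∑ g : U, χ g * F g⁻¹ = ∑ n : N, χ (1 * n) := by
        have h5 : ∀ g : U, χ g * F g⁻¹ = if g ∈ N then χ g else 0 := by
          intro g
          have h6 : g⁻¹ ∈ N ↔ g ∈ N := N.inv_mem_iff
          simp only [F, h6, mul_ite, mul_one, mul_zero]
        rw [Finset.sum_congr rfl (fun g _ => h5 g), ← Finset.sum_filter,
          Finset.sum_subtype (Finset.univ.filter fun g => g ∈ N) (p := fun g => g ∈ N) (by simp) χ]
        refine Finset.sum_congr rfl fun n _ => ?_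
        rw [one_mul]
      rw [h4, h3, mul_zero]
    rw [h2, pr_eq] at h1
    have h3 : ∑ g : W, ((ψ g : ℂˣ) : ℂ) * F ((g⁻¹ : W) : U)
        = ((Finset.univ.filter fun g : W => (g : U) ∈ N).card : ℂ) := by
      rw [Finset.card_filter, Nat.cast_sum]
      refine Finset.sum_congr rfl fun g _ => ?_
      have h6 : ((g⁻¹ : W) : U) ∈ N ↔ (g : U) ∈ N := by
        rw [Subgroup.coe_inv]; exact N.inv_mem_iff
      by_cases hg : (g : U) ∈ N
      · simp only [F, if_pos (h6.mpr hg), if_pos hg, mul_one]
        rw [hcon g ((hN _).mp hg)]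
        simp
      · simp only [F, if_neg (fun h => hg (h6.mp h)), if_neg hg, mul_zero]
        simp
    rw [h3] at h1
    have h4 : ((Finset.univ.filter fun g : W => (g : U) ∈ N).card : ℂ) = 0 := by
      rcases mul_eq_zero.mp h1.symm with h | h
      · exact absurd h (inv_ne_zero card_ne)
      · exact h
    have h5 : (Finset.univ.filter fun g : W => (g : U) ∈ N).card = 0 := by exact_mod_cast h4
    rw [Finset.card_eq_zero] at h5
    have h6 : (1 : W) ∈ Finset.univ.filter fun g : W => (g : U) ∈ N := by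
      simp [one_mem]
    rw [h5] at h6
    exact absurd h6 (Finset.notMem_empty _)
  obtain ⟨w, hw, hψw⟩ := hW
  rw [hψ, ind_ind]
  apply AddSubgroup.subset_closure
  refine ⟨W.map U.subtype, ψ.comp
    (W.equivMapOfInjective U.subtype U.subtype_injective).symm.toMonoidHom,
    (hU.of_injective W.subtype W.subtype_injective).of_injective
      (W.equivMapOfInjective U.subtype U.subtype_injective).symm.toMonoidHom
      (W.equivMapOfInjective U.subtype U.subtype_injective).symm.injective,
    ⟨W.equivMapOfInjective U.subtype U.subtype_injective w, ?_, ?_⟩, rfl⟩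
  · exact hw
  · rw [MonoidHom.comp_apply]
    change ψ ((W.equivMapOfInjective U.subtype U.subtype_injective).symm
      (W.equivMapOfInjective U.subtype U.subtype_injective w)) ≠ 1
    rw [MulEquiv.symm_apply_apply]
    exact hψw

/-- a virtual character of a hyperelementary subgroup and its invariants -/
lemma ind_sub_invA (K : Subgroup G) [K.Normal] {U : Subgroup G} (hU : Tame U) {Φ : U → ℂ}
    (hΦ : Virt Φ) : ind U Φ - ind U (inv (K.subgroupOf U) Φ) ∈ NewA K := by
  have h1 : AddSubgroup.closure (Irr U) ≤ (NewA K).comap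
      (indHom U - (indHom U).comp (invHom (K.subgroupOf U))) := by
    rw [AddSubgroup.closure_le]
    intro χ hχ
    rw [SetLike.mem_coe, AddSubgroup.mem_comap]
    change ind U χ - ind U (inv (K.subgroupOf U) χ) ∈ NewA K
    rcases irr_inv (K.subgroupOf U) hχ with h | ⟨⟨k, hk, hne⟩, h⟩
    · rw [inv_of_const _ h, sub_self]
      exact zero_mem _
    · rw [h, ind_zero, sub_zero]
      exact ind_irr_newA K hU hχ (Subgroup.mem_subgroupOf.mp hk) hne
  exact h1 hΦ

/-- inducing new characters from a subgroup -/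
lemma ind_newA (K : Subgroup G) (H : Subgroup G) {f : H → ℂ} (hf : f ∈ NewA (K.subgroupOf H)) :
    ind H f ∈ NewA K := by
  have h1 : NewA (K.subgroupOf H) ≤ (NewA K).comap (indHom H) := by
    rw [NewA, AddSubgroup.closure_le]
    rintro f ⟨U, ψ, hU, ⟨u, hu, hne⟩, rfl⟩
    rw [SetLike.mem_coe, AddSubgroup.mem_comap, indHom_apply, ind_ind]
    refine AddSubgroup.subset_closure ⟨U.map H.subtype, ψ.comp
      (U.equivMapOfInjective H.subtype H.subtype_injective).symm.toMonoidHom,
      hU.of_injective (U.equivMapOfInjective H.subtype H.subtype_injective).symm.toMonoidHom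
      (U.equivMapOfInjective H.subtype H.subtype_injective).symm.injective,
      ⟨U.equivMapOfInjective H.subtype H.subtype_injective u, Subgroup.mem_subgroupOf.mp hu, ?_⟩,
      rfl⟩
    rw [MonoidHom.comp_apply]
    change ψ ((U.equivMapOfInjective H.subtype H.subtype_injective).symm
      (U.equivMapOfInjective H.subtype H.subtype_injective u)) ≠ 1
    rw [MulEquiv.symm_apply_apply]
    exact hne
  exact h1 hf


end Pool.Agent.R389
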