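import Mathlib
import Pool.Agent.R389.Nil

/-!
# Groups with an abelian normal subgroup and nilpotent quotient are monomial
-/

set_option autoImplicit false
set_option linter.unusedSectionVars false

namespace Pool.Agent.R389

open Pool.Agent.H302R2 Pool.Agent.H302R3 Pool.Agent.H541R3.ART Pool.Agent.W446.AS

/-- abelian-by-nilpotent groups -/
def AN (G : Type) [Group G] : Prop :=
  ∃ (A : Subgroup G) (_ : A.Normal), (∀ a b : A, a * b = b * a) ∧ Group.IsNilpotent (G ⧸ A)

lemma AN.of_injective {W V : Type} [Group W] [Group V] (f : W →* V)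
    (hf : Function.Injective f) (hV : AN V) : AN W := by
  obtain ⟨A, hA, hc, hn⟩ := hV
  refine ⟨A.comap f, hA.comap f, ?_, ?_⟩
  · rintro ⟨a, ha⟩ ⟨b, hb⟩
    apply Subtype.ext
    apply hf
    have h1 := congrArg Subtype.val (hc ⟨f a, ha⟩ ⟨f b, hb⟩)
    change f (a * b) = f (b * a)
    rw [map_mul, map_mul]
    exact h1
  · have := hA.comap f
    refine nil_of_injective (QuotientGroup.map (A.comap f) A f le_rfl) ?_ hn
    rw [← MonoidHom.ker_eq_bot_iff, eq_bot_iff]
    intro q hq
    obtain ⟨x, rfl⟩ := QuotientGroup.mk_surjective q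
    rw [MonoidHom.mem_ker] at hq
    have h1 : (QuotientGroup.mk (f x) : V ⧸ A) = 1 := hq
    rw [Subgroup.mem_bot]
    exact (QuotientGroup.eq_one_iff x).mpr (Subgroup.mem_comap.mpr ((QuotientGroup.eq_one_iff _).mp h1))

lemma AN.of_surjective {W V : Type} [Group W] [Group V] (f : W →* V)
    (hf : Function.Surjective f) (hW : AN W) : AN V := by
  obtain ⟨A, hA, hc, hn⟩ := hW
  have hAn : (A.map f).Normal := hA.map f hf
  refine ⟨A.map f, hAn, ?_, ?_⟩
  · rintro ⟨_, ⟨a, ha, rfl⟩⟩ ⟨_, ⟨b, hb, rfl⟩⟩
    apply Subtype.ext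
    have h1 := congrArg Subtype.val (hc ⟨a, ha⟩ ⟨b, hb⟩)
    change f a * f b = f b * f a
    rw [← map_mul, ← map_mul]
    exact congrArg f h1
  · refine Group.nilpotent_of_surjective (QuotientGroup.map A (A.map f) f
      (fun x hx => Subgroup.mem_map_of_mem f hx)) ?_
    intro q
    obtain ⟨y, rfl⟩ := QuotientGroup.mk_surjective q
    obtain ⟨x, rfl⟩ := hf y
    exact ⟨QuotientGroup.mk x, rfl⟩

/-- irreducible characters of abelian-by-nilpotent groups are monomial -/
theorem an_mono : ∀ (n : ℕ) (G : Type) [Group G] [Finite G],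
    Nat.card G = n → AN G → ∀ χ ∈ Irr G, Mono χ := by
  intro n
  induction n using Nat.strong_induction_on with
  | _ n ih =>
    intro G _ _ hn hG χ hχ
    classical
    by_cases hc : ∀ a b : G, a * b = b * a
    · exact mono_abelian hc hχ
    obtain ⟨m, ρ, hρ, rfl⟩ := exists_rep hχ
    by_cases hf : ∀ g, ρ g = 1 → g = 1
    · have hex : ∃ A : Subgroup G, A.Normal ∧ (∀ a b : A, a * b = b * a) ∧
          ¬ A ≤ Subgroup.center G := by
        obtain ⟨A, hA, hcA, hnA⟩ := hG
        by_cases hAc : A ≤ Subgroup.center G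
        · have : Group.IsNilpotent G := by
            refine Subgroup.isNilpotent_of_ker_le_center (QuotientGroup.mk' A) ?_
            rw [QuotientGroup.ker_mk']
            exact hAc
          exact nil_abelian hc
        · exact ⟨A, hA, hcA, hAc⟩
      obtain ⟨A, hAn, hA, hAc⟩ := hex
      obtain ⟨H, hH, φ, hφ, hφ1⟩ := clifford_char hρ hf A hA hAc
      rw [hφ1]
      have hlt : Nat.card H < n := by
        rw [← hn]
        rcases lt_or_eq_of_le (Nat.le_of_dvd Nat.card_pos H.card_subgroup_dvd_card) with h | h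
        · exact h
        · exact absurd (Subgroup.eq_top_of_card_eq H h) hH
      exact (ih _ hlt H rfl (hG.of_injective H.subtype H.subtype_injective) φ hφ).ind
    · push Not at hf
      obtain ⟨g₀, hg₀, hg₁⟩ := hf
      let π : G →* G ⧸ ρ.ker := QuotientGroup.mk' _
      have hπ : Function.Surjective π := QuotientGroup.mk'_surjective _
      obtain ⟨ψ, hψ, hψ1⟩ := descend_irr hπ hρ (by
        intro g hg
        rw [QuotientGroup.ker_mk', MonoidHom.mem_ker] at hg
        exact hg)
      have h1 : ρ.character = fun g => ψ (π g) := funext hψ1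
      rw [h1]
      have hlt : Nat.card (G ⧸ ρ.ker) < n := by
        have h2 := Subgroup.card_eq_card_quotient_mul_card_subgroup ρ.ker
        have h3 : 1 < Nat.card ρ.ker := by
          have : Nontrivial ρ.ker := ⟨⟨g₀, MonoidHom.mem_ker.mpr hg₀⟩, 1, fun h =>
            hg₁ (congrArg Subtype.val h)⟩
          exact Finite.one_lt_card
        have h4 : 0 < Nat.card (G ⧸ ρ.ker) := Nat.card_pos
        rw [hn] at h2
        rw [h2]
        nlinarith
      exact (ih _ hlt _ rfl (AN.of_surjective π hπ hG) ψ hψ).comp hπ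

variable {G : Type} [Group G] [Finite G]

/-- irreducible characters trivial on `K`, if `G / K` is abelian-by-nilpotent -/
lemma mono_of_quot (K : Subgroup G) [K.Normal] (hQ : AN (G ⧸ K)) {χ : G → ℂ} (hχ : χ ∈ Irr G)
    (hK : inv K χ ≠ 0) : Mono χ := by
  classical
  have : Fintype K := Fintype.ofFinite K
  let π : G →* G ⧸ K := QuotientGroup.mk' K
  have hπ : Function.Surjective π := QuotientGroup.mk'_surjective K
  obtain ⟨m, ρ, hρ, rfl⟩ := exists_rep hχ
  rcases hρ.normal_dich K with h | h
  · obtain ⟨ψ, hψ, hψ1⟩ := descend_irr hπ hρ (by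
      intro g hg
      rw [QuotientGroup.ker_mk'] at hg
      exact h g hg)
    have h1 : ρ.character = fun g => ψ (π g) := funext hψ1
    rw [h1]
    exact (an_mono _ _ rfl hQ ψ hψ).comp hπ
  · exfalso
    apply hK
    funext g
    rw [inv_eq, h g, mul_zero]
    rfl

end Pool.Agent.R389
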