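import Mathlib
import Pool.Agent.R389.Del

/-!
# The group generated by the monomial characters orthogonal to a Heilbronn character
-/

set_option autoImplicit false
set_option linter.unusedSectionVars false

namespace Pool.Agent.R389

open Pool.Agent.H302R2 Pool.Agent.H302R3 Pool.Agent.H541R3.ART Pool.Agent.W446.AS

variable {G : Type} [Group G] [Finite G]

/-- the group generated by the characters induced from linear characters of hyperelementary
subgroups which are orthogonal to `θ` -/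
def Good (θ : G → ℂ) : AddSubgroup (G → ℂ) :=
  AddSubgroup.closure {f | ∃ (U : Subgroup G) (ψ : U →* ℂˣ), Hyper U ∧
    f = ind U (fun h => ((ψ h : ℂˣ) : ℂ)) ∧ pr θ f = 0}

variable {θ : G → ℂ}

lemma good_irr (hc : ∀ g x : G, θ (x * g * x⁻¹) = θ g) {U : Subgroup G} (hU : Hyper U)
    {η : U → ℂ} (hη : η ∈ Irr U) (h0 : pr (fun u : U => θ u) η = 0) : ind U η ∈ Good θ := by
  obtain ⟨W, ψ, hW, -, h3⟩ := ind_mono_mem hU hη
  refine AddSubgroup.subset_closure ⟨W, ψ, hW, h3, ?_⟩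
  rw [frob' U _ hc, h0]

/-- the relation lemma -/
lemma good_of_pr (hc : ∀ g x : G, θ (x * g * x⁻¹) = θ g) {U : Subgroup G} (hU : Hyper U)
    {f : U → ℂ} (hf : Virt f)
    (h : ∀ η ∈ Irr U, pr (fun u : U => θ u) η ≠ 0 → pr f η = 0) : ind U f ∈ Good θ := by
  classical
  have h1 : f = ∑ η ∈ irrF U, mult f η • η := by
    funext u
    rw [class_expand hf.conj u, Finset.sum_apply]
    refine Finset.sum_congr rfl fun η hη => ?_
    rw [mult_spec hf (mem_irrF.mp hη), Pi.smul_apply, zsmul_eq_mul]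
  rw [h1, ← indHom_apply, map_sum]
  refine sum_mem fun η hη => ?_
  rw [map_zsmul]
  by_cases h0 : pr (fun u : U => θ u) η = 0
  · exact zsmul_mem (good_irr hc hU (mem_irrF.mp hη) h0) _
  · have h2 : mult f η = 0 := mult_of_pr (by rw [h η (mem_irrF.mp hη) h0]; simp)
    rw [h2, zero_smul]
    exact zero_mem _

/-- the pairing as a sum over irreducible characters -/
lemma pr_expand {f F : G → ℂ} (hf : ∀ g x : G, f (x * g * x⁻¹) = f g) :
    pr F f = ∑ χ ∈ irrF G, pr f χ * pr F χ := by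
  have h1 : f = fun g => ∑ χ ∈ irrF G, pr f χ * χ g := funext fun g => class_expand hf g
  conv_lhs => rw [h1]
  exact pr_sum_right _ _ _ _

/-- comparison of two characters with pairing one -/
lemma good_unique (hc : ∀ g x : G, θ (x * g * x⁻¹) = θ g) {U : Subgroup G} (hU : Hyper U)
    (hn : ∀ η ∈ Irr U, ∃ n : ℕ, pr (fun u : U => θ u) η = n) {f : U → ℂ} (hf : Virt f)
    (hfn : ∀ η ∈ Irr U, ∃ n : ℕ, pr f η = n) (h1 : pr (fun u : U => θ u) f = 1) {η : U → ℂ}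
    (hη : η ∈ Irr U) (ha : pr f η ≠ 0) (hb : pr (fun u : U => θ u) η ≠ 0) :
    ind U f - ind U η ∈ Good θ := by
  classical
  choose! b hb' using hn
  choose! a ha' using hfn
  have h2 : (∑ χ ∈ irrF U, a χ * b χ : ℕ) = 1 := by
    have h3 := pr_expand (F := fun u : U => θ u) hf.conj
    rw [h1] at h3
    have h4 : ((∑ χ ∈ irrF U, a χ * b χ : ℕ) : ℂ) = 1 := by
      rw [h3]
      push_cast
      exact Finset.sum_congr rfl fun χ hχ => by rw [ha' χ (mem_irrF.mp hχ), hb' χ (mem_irrF.mp hχ)]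
    exact_mod_cast h4
  have ha0 : a η ≠ 0 := by
    intro h
    apply ha
    rw [ha' η hη, h]; simp
  have hb0 : b η ≠ 0 := by
    intro h
    apply hb
    rw [hb' η hη, h]; simp
  have hsum := Finset.add_sum_erase (irrF U) (fun χ => a χ * b χ) (mem_irrF.mpr hη)
  rw [h2] at hsum
  have h5 : 1 ≤ a η * b η := Nat.mul_pos (Nat.pos_of_ne_zero ha0) (Nat.pos_of_ne_zero hb0)
  have h6 : a η * b η = 1 := by omega
  have h7 : ∑ χ ∈ (irrF U).erase η, a χ * b χ = 0 := by omega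
  have h8 := Finset.sum_eq_zero_iff.mp h7
  rw [← ind_sub]
  refine good_of_pr hc hU ?_ fun χ hχ hχ0 => ?_
  · exact sub_mem (S := AddSubgroup (U → ℂ)) hf (AddSubgroup.subset_closure hη)
  rw [pr_sub]
  by_cases he : χ = η
  · subst he
    rw [ha' χ hη, pr_self hη, Nat.eq_one_of_mul_eq_one_right h6]
    simp
  · rw [pr_ne hη hχ (Ne.symm he), sub_zero, ha' χ hχ]
    have h9 := h8 χ (Finset.mem_erase.mpr ⟨he, mem_irrF.mpr hχ⟩)
    rcases Nat.mul_eq_zero.mp h9 with h10 | h10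
    · rw [h10]; simp
    · exfalso
      apply hχ0
      rw [hb' χ hχ, h10]; simp

lemma ind_congr_ext {k : Type*} [Field k] {V V' : Subgroup G} {F : V → k} {F' : V' → k}
    (hc : Nat.card V = Nat.card V') (h : ∀ y, ext V F y = ext V' F' y) : ind V F = ind V' F' := by
  funext g
  rw [ind, ind, hc]
  simp only [h]

/-- transitivity of induction for nested subgroups -/
lemma ind_tower {V U : Subgroup G} (h : V ≤ U) (F : V → ℂ) :
    ind V F = ind U (ind (V.subgroupOf U) (fun x => F ⟨(x : U), x.2⟩)) := by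
  rw [ind_ind]
  have hm : (V.subgroupOf U).map U.subtype = V := Subgroup.map_subgroupOf_eq_of_le h
  refine ind_congr_ext (by rw [hm]) fun y => ?_
  by_cases hy : y ∈ U
  · have h1 := ext_tr U (V.subgroupOf U) (fun x => F ⟨(x : U), x.2⟩) ⟨y, hy⟩
    simp only at h1
    rw [h1]
    by_cases hyV : y ∈ V
    · have h2 : (⟨y, hy⟩ : U) ∈ V.subgroupOf U := hyV
      rw [ext_mem _ _ h2, ext_mem _ _ hyV]
    · have h2 : (⟨y, hy⟩ : U) ∉ V.subgroupOf U := hyV
      rw [ext_not _ _ h2, ext_not _ _ hyV]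
  · rw [ext_tr_not _ _ _ hy, ext_not _ _ (fun h' => hy (h h'))]

/-- the inclusion of a subgroup of a subgroup -/
def inclS (V U : Subgroup G) : V.subgroupOf U →* V where
  toFun x := ⟨(x : U), x.2⟩
  map_one' := rfl
  map_mul' _ _ := rfl

/-- the pairing on `V.subgroupOf U` -/
lemma pr_subgroupOf {V U : Subgroup G} (h : V ≤ U) (f f' : V → ℂ) :
    pr (fun x : V.subgroupOf U => f (inclS V U x)) (fun x => f' (inclS V U x)) = pr f f' := by
  classical
  have : Fintype V := Fintype.ofFinite V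
  have : Fintype (V.subgroupOf U) := Fintype.ofFinite _
  rw [pr_eq, pr_eq]
  let e : V.subgroupOf U ≃ V := (Subgroup.subgroupOfEquivOfLe h).toEquiv
  rw [Nat.card_congr e, ← Equiv.sum_comp e (fun v => f v * f' v⁻¹)]
  rfl

/-- multiplicities of monomial characters -/
lemma mono_nat (U : Subgroup G) (ψ : U →* ℂˣ) {χ : G → ℂ} (hχ : χ ∈ Irr G) :
    ∃ n : ℕ, pr (ind U (fun h => ((ψ h : ℂˣ) : ℂ))) χ = n := by
  obtain ⟨m, hm⟩ := ind_isDecomp U ψ
  exact ⟨m χ, hm.pr hχ⟩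

lemma res_class {U : Subgroup G} (hc : ∀ g x : G, θ (x * g * x⁻¹) = θ g) (g x : U) :
    (fun u : U => θ u) (x * g * x⁻¹) = (fun u : U => θ u) g := hc g x

/-- a linear character of multiplicity one lies below a unique irreducible character -/
lemma up {V U : Subgroup G} (hc : ∀ g x : G, θ (x * g * x⁻¹) = θ g) (hVU : V ≤ U) (hU : Hyper U)
    (hn : ∀ η ∈ Irr U, ∃ n : ℕ, pr (fun u : U => θ u) η = n) (ψ : V →* ℂˣ)
    (h1 : pr (fun v : V => θ v) (fun v => ((ψ v : ℂˣ) : ℂ)) = 1) {η : U → ℂ} (hη : η ∈ Irr U)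
    (hb : pr (fun u : U => θ u) η ≠ 0)
    (ha : pr (fun v : V => η ⟨v, hVU v.2⟩) (fun v => ((ψ v : ℂˣ) : ℂ)) ≠ 0) :
    ind V (fun v => ((ψ v : ℂˣ) : ℂ)) - ind U η ∈ Good θ := by
  rw [ind_tower hVU]
  have e1 : (fun x : V.subgroupOf U => (fun v : V => ((ψ v : ℂˣ) : ℂ)) ⟨(x : U), x.2⟩)
      = fun x => (((ψ.comp (inclS V U)) x : ℂˣ) : ℂ) := rfl
  rw [e1]
  refine good_unique hc hU hn ?_ ?_ ?_ hη ?_ hb
  · exact virt_ind _ (AddSubgroup.subset_closure (lin_irr _))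
  · intro χ hχ
    exact mono_nat _ _ hχ
  · rw [frob' _ _ (res_class hc)]
    have h2 := pr_subgroupOf hVU (fun v : V => θ v) (fun v => ((ψ v : ℂˣ) : ℂ))
    rw [h1] at h2
    exact h2
  · rw [frob _ _ (Irr.conj hη), pr_comm]
    have h2 := pr_subgroupOf hVU (fun v : V => η ⟨v, hVU v.2⟩) (fun v => ((ψ v : ℂˣ) : ℂ))
    rw [← h2] at ha
    exact ha

/-- existence of a constituent above a linear character -/
lemma up_exists {V U : Subgroup G} (hc : ∀ g x : G, θ (x * g * x⁻¹) = θ g) (hVU : V ≤ U)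
    (ψ : V →* ℂˣ) (h1 : pr (fun v : V => θ v) (fun v => ((ψ v : ℂˣ) : ℂ)) ≠ 0) :
    ∃ η ∈ Irr U, pr (fun u : U => θ u) η ≠ 0 ∧
      pr (fun v : V => η ⟨v, hVU v.2⟩) (fun v => ((ψ v : ℂˣ) : ℂ)) ≠ 0 := by
  classical
  by_contra hcon
  push Not at hcon
  apply h1
  have h2 := pr_subgroupOf hVU (fun v : V => θ v) (fun v => ((ψ v : ℂˣ) : ℂ))
  rw [← h2]
  have h3 : pr (fun x : V.subgroupOf U => (fun v : V => θ v) (inclS V U x))
      (fun x => (((ψ.comp (inclS V U)) x : ℂˣ) : ℂ))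
      = pr (fun u : U => θ u) (ind (V.subgroupOf U) fun x => (((ψ.comp (inclS V U)) x : ℂˣ) : ℂ)) := by
    rw [frob' _ _ (res_class hc)]
    rfl
  refine h3.trans ?_
  rw [pr_expand (fun g x => ind_class _ _ g x)]
  refine Finset.sum_eq_zero fun χ hχ => ?_
  have hχ' := mem_irrF.mp hχ
  by_cases h4 : pr (fun u : U => θ u) χ = 0
  · rw [h4, mul_zero]
  · have h5 := hcon χ hχ' h4
    have h6 := pr_subgroupOf hVU (fun v : V => χ ⟨v, hVU v.2⟩) (fun v => ((ψ v : ℂˣ) : ℂ))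
    rw [h5] at h6
    rw [frob _ _ (Irr.conj hχ'), pr_comm]
    have h7 : pr (fun h : V.subgroupOf U => χ (h : U))
      (fun x => (((ψ.comp (inclS V U)) x : ℂˣ) : ℂ)) = 0 := h6
    rw [h7, zero_mul]

/-- two linear characters of multiplicity one below the same irreducible character -/
lemma same {V V' U : Subgroup G} (hc : ∀ g x : G, θ (x * g * x⁻¹) = θ g) (hVU : V ≤ U)
    (hVU' : V' ≤ U) (hU : Hyper U)
    (hn : ∀ η ∈ Irr U, ∃ n : ℕ, pr (fun u : U => θ u) η = n) (ψ : V →* ℂˣ) (ψ' : V' →* ℂˣ)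
    (h1 : pr (fun v : V => θ v) (fun v => ((ψ v : ℂˣ) : ℂ)) = 1)
    (h1' : pr (fun v : V' => θ v) (fun v => ((ψ' v : ℂˣ) : ℂ)) = 1) {η : U → ℂ} (hη : η ∈ Irr U)
    (hb : pr (fun u : U => θ u) η ≠ 0)
    (ha : pr (fun v : V => η ⟨v, hVU v.2⟩) (fun v => ((ψ v : ℂˣ) : ℂ)) ≠ 0)
    (ha' : pr (fun v : V' => η ⟨v, hVU' v.2⟩) (fun v => ((ψ' v : ℂˣ) : ℂ)) ≠ 0) :
    ind V (fun v => ((ψ v : ℂˣ) : ℂ)) - ind V' (fun v => ((ψ' v : ℂˣ) : ℂ)) ∈ Good θ := by
  have h2 := sub_mem (up hc hVU hU hn ψ h1 hη hb ha) (up hc hVU' hU hn ψ' h1' hη hb ha')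
  have h3 : ind V (fun v => ((ψ v : ℂˣ) : ℂ)) - ind U η
      - (ind V' (fun v => ((ψ' v : ℂˣ) : ℂ)) - ind U η)
      = ind V (fun v => ((ψ v : ℂˣ) : ℂ)) - ind V' (fun v => ((ψ' v : ℂˣ) : ℂ)) := by abel
  rwa [h3] at h2

end Pool.Agent.R389
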