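import Mathlib
import Pool.Agent.R389.Good

/-!
# Two distinct linear characters
-/

set_option autoImplicit false
set_option linter.unusedSectionVars false

namespace Pool.Agent.R389

open Pool.Agent.H302R2 Pool.Agent.H302R3 Pool.Agent.H541R3.ART Pool.Agent.W446.AS

/-- a linear character as a function -/
abbrev lc {H : Type} [Group H] (ψ : H →* ℂˣ) : H → ℂ := fun h => ((ψ h : ℂˣ) : ℂ)

lemma lc_inj {H : Type} [Group H] {ψ φ : H →* ℂˣ} (h : lc ψ = lc φ) : ψ = φ := by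
  ext x
  exact congrFun h x

open Classical in
lemma pr_lin {H : Type} [Group H] [Finite H] (ψ φ : H →* ℂˣ) :
    pr (lc ψ) (lc φ) = if ψ = φ then 1 else 0 := by
  by_cases h : ψ = φ
  · rw [if_pos h, h]
    exact pr_self (lin_irr φ)
  · rw [if_neg h]
    exact pr_ne (lin_irr ψ) (lin_irr φ) (fun h' => h (lc_inj h'))

open Classical in
lemma pr_two {H : Type} [Group H] [Finite H] {F : H → ℂ} (ψ φ ω : H →* ℂˣ)
    (hF : ∀ h, F h = ((ψ h : ℂˣ) : ℂ) + ((φ h : ℂˣ) : ℂ)) :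
    pr F (lc ω) = (if ψ = ω then 1 else 0) + (if φ = ω then 1 else 0) := by
  have h1 : F = lc ψ + lc φ := funext hF
  rw [h1, pr_add, pr_lin, pr_lin]

/-- if a linear character is nontrivial on the `q`-part -/
lemma qpart {H : Type} [Group H] [Finite H] (μ : H →* ℂˣ) (u : H) {q : ℕ} (hq : q.Prime)
    (h : q ∣ orderOf (μ u)) : ∃ m : ℕ, (∃ k : ℕ, (u ^ m) ^ (q ^ k) = 1) ∧ μ (u ^ m) ≠ 1 := by
  obtain ⟨k, m, hm, hkm⟩ := Nat.exists_eq_pow_mul_and_not_dvd (orderOf_pos u).ne' q hq.ne_one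
  refine ⟨m, ⟨k, ?_⟩, ?_⟩
  · rw [← pow_mul, mul_comm, ← hkm, pow_orderOf_eq_one]
  · intro h1
    rw [map_pow] at h1
    exact hm (h.trans (orderOf_dvd_of_pow_eq_one h1))

lemma exists_qpart {H : Type} [Group H] [Finite H] (μ : H →* ℂˣ) (u : H) (h : μ u ≠ 1) :
    ∃ q : ℕ, q.Prime ∧ q ∣ orderOf (μ u) ∧ ∃ m : ℕ, (∃ k : ℕ, (u ^ m) ^ (q ^ k) = 1) ∧
      μ (u ^ m) ≠ 1 := by
  have h1 : orderOf (μ u) ≠ 1 := fun h' => h (orderOf_eq_one_iff.mp h')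
  obtain ⟨q, hq, hd⟩ := Nat.exists_prime_and_dvd h1
  exact ⟨q, hq, hd, qpart μ u hq hd⟩

variable {G : Type} [Group G] [Finite G] {θ : G → ℂ}

/-- restriction of a linear character to a smaller subgroup -/
def rc {N U : Subgroup G} (h : U ≤ N) (a : N →* ℂˣ) : U →* ℂˣ := a.comp (Subgroup.inclusion h)

lemma rc_apply {N U : Subgroup G} (h : U ≤ N) (a : N →* ℂˣ) (u : U) :
    rc h a u = a ⟨u, h u.2⟩ := rfl

lemma rc_ne {N U : Subgroup G} (h : U ≤ N) {a b : N →* ℂˣ} {u : U}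
    (hne : a ⟨u, h u.2⟩ ≠ b ⟨u, h u.2⟩) : rc h a ≠ rc h b := by
  intro h'
  exact hne (DFunLike.congr_fun h' u)

/-- moving up and down inside a hyperelementary subgroup -/
lemma alpha (hθ : HH θ) {N : Subgroup G} {a b : N →* ℂˣ}
    (hN : ∀ n : N, θ n = ((a n : ℂˣ) : ℂ) + ((b n : ℂˣ) : ℂ)) {V U : Subgroup G} (hU : U ≤ N)
    (hVU : V ≤ U) (hy : Hyper U) {v : V} (hv : a ⟨v, hU (hVU v.2)⟩ ≠ b ⟨v, hU (hVU v.2)⟩) :
    ind V (lc (rc (hVU.trans hU) a)) - ind U (lc (rc hU a)) ∈ Good θ := by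
  classical
  have hVne : rc (hVU.trans hU) b ≠ rc (hVU.trans hU) a := (rc_ne _ hv).symm
  have hUne : rc hU b ≠ rc hU a := (rc_ne hU (u := ⟨v, hVU v.2⟩) hv).symm
  refine up hθ.conj hVU hy (fun η hη => hθ.nat_irr hy hη) _ ?_ (lin_irr _) ?_ ?_
  · rw [pr_two (rc (hVU.trans hU) a) (rc (hVU.trans hU) b) (rc (hVU.trans hU) a)
      (fun v => hN ⟨v, _⟩), if_pos rfl, if_neg hVne, add_zero]
  · rw [pr_two (rc hU a) (rc hU b) (rc hU a) (fun v => hN ⟨v, _⟩), if_pos rfl, if_neg hUne,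
      add_zero]
    exact one_ne_zero
  · have h1 : pr (lc (rc (hVU.trans hU) a)) (lc (rc (hVU.trans hU) a)) = 1 := by
      rw [pr_lin, if_pos rfl]
    have h2 : (fun v : V => (fun h : U => ((rc hU a h : ℂˣ) : ℂ)) ⟨v, hVU v.2⟩)
        = lc (rc (hVU.trans hU) a) := rfl
    rw [h2, h1]
    exact one_ne_zero

/-- conjugation inside `N` -/
lemma conj_ind {N : Subgroup G} (a : N →* ℂˣ) {V V' : Subgroup G} (hV : V ≤ N) (hV' : V' ≤ N)
    (n : N) (h : ∀ z, z ∈ V' ↔ (n : G) * z * (n : G)⁻¹ ∈ V) :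
    ind V' (lc (rc hV' a)) = ind V (lc (rc hV a)) := by
  refine ind_conj V V' (n : G) h _ _ fun z hz => ?_
  have h1 : (⟨(n : G) * z * (n : G)⁻¹, hV ((h z).mp hz)⟩ : N) = n * ⟨z, hV' hz⟩ * n⁻¹ := rfl
  change ((a ⟨z, hV' hz⟩ : ℂˣ) : ℂ) = ((a ⟨(n : G) * z * (n : G)⁻¹, hV ((h z).mp hz)⟩ : ℂˣ) : ℂ)
  rw [h1, map_mul, map_mul, map_inv, mul_comm (a n), mul_inv_cancel_right]

end Pool.Agent.R389
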