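import Mathlib
import Pool.Agent.R389.Two
import Pool.Agent.H302R2.TransferTwo

/-!
# Comparison of characters induced from subgroups on which two linear characters differ
-/

set_option autoImplicit false
set_option linter.unusedSectionVars false

namespace Pool.Agent.R389

open Pool.Agent.H302R2 Pool.Agent.H302R3 Pool.Agent.H541R3.ART Pool.Agent.W446.AS

variable {G : Type} [Group G] [Finite G] {θ : G → ℂ}

lemma zle {N : Subgroup G} (y : N) : Subgroup.zpowers (y : G) ≤ N :=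
  Subgroup.zpowers_le.mpr y.2

lemma mem_zconj (x y z : G) : z ∈ Subgroup.zpowers y ↔ x * z * x⁻¹ ∈ Subgroup.zpowers (x * y * x⁻¹) := by
  constructor
  · rintro ⟨k, rfl⟩
    exact ⟨k, by simp only; rw [conj_zpow]⟩
  · rintro ⟨k, hk⟩
    refine ⟨k, ?_⟩
    simp only at hk ⊢
    rw [conj_zpow] at hk
    exact mul_left_cancel (mul_right_cancel hk)

/-- to a Sylow subgroup of `N` -/
lemma to_sylow (hθ : HH θ) {N : Subgroup G} {a b : N →* ℂˣ}
    (hN : ∀ n : N, θ n = ((a n : ℂˣ) : ℂ) + ((b n : ℂˣ) : ℂ)) {q : ℕ} [hq : Fact q.Prime]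
    (P : Sylow q N) (hP : (P : Subgroup N).map N.subtype ≤ N) {y : N} {k : ℕ}
    (hk : y ^ (q ^ k) = 1) (hy : a y ≠ b y) :
    ind (Subgroup.zpowers (y : G)) (lc (rc (zle y) a))
      - ind ((P : Subgroup N).map N.subtype) (lc (rc hP a)) ∈ Good θ := by
  obtain ⟨n, hn⟩ := exists_conj_mem P hk
  have h1 : ind (Subgroup.zpowers (y : G)) (lc (rc (zle y) a))
      = ind (Subgroup.zpowers ((n * y * n⁻¹ : N) : G)) (lc (rc (zle (n * y * n⁻¹)) a)) := by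
    refine conj_ind a (zle _) (zle _) n fun z => ?_
    exact mem_zconj (n : G) (y : G) z
  rw [h1]
  have hle : Subgroup.zpowers ((n * y * n⁻¹ : N) : G) ≤ (P : Subgroup N).map N.subtype :=
    Subgroup.zpowers_le.mpr ⟨_, hn, rfl⟩
  have hyp : Hyper ((P : Subgroup N).map N.subtype) := by
    refine Hyper.of_pgroup hq.out (p := q) ?_
    exact P.isPGroup'.map N.subtype
  have hv : a ⟨(⟨((n * y * n⁻¹ : N) : G), Subgroup.mem_zpowers _⟩ :
      Subgroup.zpowers ((n * y * n⁻¹ : N) : G)), hP (hle (Subgroup.mem_zpowers _))⟩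
      ≠ b ⟨(⟨((n * y * n⁻¹ : N) : G), Subgroup.mem_zpowers _⟩ :
      Subgroup.zpowers ((n * y * n⁻¹ : N) : G)), hP (hle (Subgroup.mem_zpowers _))⟩ := by
    change a (n * y * n⁻¹) ≠ b (n * y * n⁻¹)
    rw [map_mul, map_mul, map_inv, mul_comm (a n), mul_inv_cancel_right, map_mul, map_mul, map_inv,
      mul_comm (b n), mul_inv_cancel_right]
    exact hy
  exact alpha hθ hN hP hle hyp hv

lemma cyc_eq (hθ : HH θ) {N : Subgroup G} {a b : N →* ℂˣ}
    (hN : ∀ n : N, θ n = ((a n : ℂˣ) : ℂ) + ((b n : ℂˣ) : ℂ)) {q : ℕ} (hq : q.Prime)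
    {y y' : N} {k k' : ℕ} (hk : y ^ (q ^ k) = 1) (hk' : y' ^ (q ^ k') = 1) (hy : a y ≠ b y)
    (hy' : a y' ≠ b y') :
    ind (Subgroup.zpowers (y : G)) (lc (rc (zle y) a))
      - ind (Subgroup.zpowers (y' : G)) (lc (rc (zle y') a)) ∈ Good θ := by
  have : Fact q.Prime := ⟨hq⟩
  let P : Sylow q N := default
  have hP : (P : Subgroup N).map N.subtype ≤ N := Subgroup.map_subtype_le _
  have h1 := to_sylow hθ hN P hP hk hy
  have h2 := to_sylow hθ hN P hP hk' hy'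
  have h3 := sub_mem h1 h2
  rwa [sub_sub_sub_cancel_right] at h3

/-- **Comparison lemma** -/
lemma lem1 (hθ : HH θ) {N : Subgroup G} {a b : N →* ℂˣ}
    (hN : ∀ n : N, θ n = ((a n : ℂˣ) : ℂ) + ((b n : ℂˣ) : ℂ)) {g₀ : N}
    (hg₀ : ∀ n : N, (a / b) n ∈ Subgroup.zpowers ((a / b) g₀)) {U : Subgroup G} (hU : U ≤ N)
    (hy : Hyper U) {u : U} (hu : a ⟨u, hU u.2⟩ ≠ b ⟨u, hU u.2⟩) :
    ind U (lc (rc hU a)) - ind (Subgroup.zpowers (g₀ : G)) (lc (rc (zle g₀) a)) ∈ Good θ := by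
  classical
  have hdiv : ∀ n : N, (a / b) n ≠ 1 ↔ a n ≠ b n := by
    intro n
    rw [MonoidHom.div_apply, Ne, div_eq_one]
  obtain ⟨q, hq, hd, m, ⟨k, hk⟩, hm⟩ := exists_qpart (a / b) (⟨u, hU u.2⟩ : N) ((hdiv _).mpr hu)
  have hd0 : q ∣ orderOf ((a / b) g₀) := by
    refine hd.trans ?_
    exact orderOf_dvd_of_mem_zpowers (hg₀ _)
  obtain ⟨m0, ⟨k0, hk0⟩, hm0⟩ := qpart (a / b) g₀ hq hd0
  rw [hdiv] at hm hm0
  have h1 := cyc_eq hθ hN hq hk hk0 hm hm0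
  -- `⟨u ^ m⟩ ≤ U`
  have hle1 : Subgroup.zpowers (((⟨u, hU u.2⟩ : N) ^ m : N) : G) ≤ U :=
    Subgroup.zpowers_le.mpr (U.pow_mem u.2 m)
  have hle0 : Subgroup.zpowers ((g₀ ^ m0 : N) : G) ≤ Subgroup.zpowers (g₀ : G) :=
    Subgroup.zpowers_le.mpr (Subgroup.pow_mem _ (Subgroup.mem_zpowers _) m0)
  have h2 := alpha hθ hN hU hle1 hy (v := ⟨_, Subgroup.mem_zpowers _⟩) hm
  have h3 := alpha hθ hN (zle g₀) hle0 (Hyper.cyclic (g₀ : G))
    (v := ⟨_, Subgroup.mem_zpowers _⟩) hm0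
  have h4 := add_mem (sub_mem h1 h2) h3
  have h5 : ind U (lc (rc hU a)) - ind (Subgroup.zpowers (g₀ : G)) (lc (rc (zle g₀) a))
      = ind (Subgroup.zpowers (((⟨u, hU u.2⟩ : N) ^ m : N) : G))
          (lc (rc (zle ((⟨u, hU u.2⟩ : N) ^ m)) a))
        - ind (Subgroup.zpowers ((g₀ ^ m0 : N) : G)) (lc (rc (zle (g₀ ^ m0)) a))
        - (ind (Subgroup.zpowers (((⟨u, hU u.2⟩ : N) ^ m : N) : G))
            (lc (rc (hle1.trans hU) a)) - ind U (lc (rc hU a)))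
        + (ind (Subgroup.zpowers ((g₀ ^ m0 : N) : G)) (lc (rc (hle0.trans (zle g₀)) a))
          - ind (Subgroup.zpowers (g₀ : G)) (lc (rc (zle g₀) a))) := by abel
  rw [h5]
  exact h4

/-- a generator of the image of a linear character -/
lemma exists_gen {N : Subgroup G} (μ : N →* ℂˣ) :
    ∃ g₀ : N, ∀ n : N, μ n ∈ Subgroup.zpowers (μ g₀) := by
  have hfin : Finite μ.range := Set.finite_range μ
  obtain ⟨⟨r, g₀, rfl⟩, hr⟩ := IsCyclic.exists_generator (α := μ.range)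
  refine ⟨g₀, fun n => ?_⟩
  obtain ⟨k, hk⟩ := hr ⟨μ n, n, rfl⟩
  refine ⟨k, ?_⟩
  have := congrArg Subtype.val hk
  simpa using this

end Pool.Agent.R389
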