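import Mathlib
import Pool.Agent.R389.Two2

/-!
# Virtual characters modulo the good ones: two linear characters
-/

set_option autoImplicit false
set_option linter.unusedSectionVars false

namespace Pool.Agent.R389

open Pool.Agent.H302R2 Pool.Agent.H302R3 Pool.Agent.H541R3.ART Pool.Agent.W446.AS

variable {G : Type} [Group G] [Finite G] {θ : G → ℂ}

lemma lc_class {H : Type} [Group H] (a : H →* ℂˣ) (g x : H) :
    lc a (x * g * x⁻¹) = lc a g := by
  change ((a (x * g * x⁻¹) : ℂˣ) : ℂ) = ((a g : ℂˣ) : ℂ)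
  rw [map_mul, map_mul, map_inv, mul_comm (a x), mul_inv_cancel_right]

lemma pr_botind {U : Subgroup G} (a : U →* ℂˣ) :
    pr (ind ((⊥ : Subgroup G).subgroupOf U) (fun _ => (1 : ℂ))) (lc a) = 1 := by
  classical
  rw [frob _ _ (lc_class a)]
  have h1 : (fun _ : (⊥ : Subgroup G).subgroupOf U => (1 : ℂ))
      = lc (1 : (⊥ : Subgroup G).subgroupOf U →* ℂˣ) := rfl
  have h2 : (fun h : (⊥ : Subgroup G).subgroupOf U => lc a (h : U))
      = lc (1 : (⊥ : Subgroup G).subgroupOf U →* ℂˣ) := by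
    funext x
    have h3 : (x : U) = 1 := by
      apply Subtype.ext
      exact Subgroup.mem_bot.mp x.2
    change ((a (x : U) : ℂˣ) : ℂ) = 1
    rw [h3, map_one, Units.val_one]
  rw [h1, h2, pr_lin, if_pos rfl]

lemma virt_botind {U : Subgroup G} :
    Virt (ind ((⊥ : Subgroup G).subgroupOf U) (fun _ => (1 : ℂ))) := by
  have h1 : (fun _ : (⊥ : Subgroup G).subgroupOf U => (1 : ℂ))
      = lc (1 : (⊥ : Subgroup G).subgroupOf U →* ℂˣ) := rfl
  rw [h1]
  exact virt_ind _ (AddSubgroup.subset_closure (lin_irr _))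

lemma irr_two {H : Type} [Group H] [Finite H] {F : H → ℂ} (ψ φ : H →* ℂˣ)
    (hF : ∀ h, F h = ((ψ h : ℂˣ) : ℂ) + ((φ h : ℂˣ) : ℂ)) {η : H → ℂ} (hη : η ∈ Irr H)
    (h0 : pr F η ≠ 0) : η = lc ψ ∨ η = lc φ := by
  by_contra hcon
  push Not at hcon
  apply h0
  have h1 : F = lc ψ + lc φ := funext hF
  rw [h1, pr_add, pr_ne (lin_irr ψ) hη hcon.1.symm, pr_ne (lin_irr φ) hη hcon.2.symm, add_zero]

/-- subgroups on which the two characters agree -/
lemma low (hθ : HH θ) {N : Subgroup G} {a b : N →* ℂˣ}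
    (hN : ∀ n : N, θ n = ((a n : ℂˣ) : ℂ) + ((b n : ℂˣ) : ℂ)) {U : Subgroup G} (hU : U ≤ N)
    (hy : Hyper U) (he : rc hU a = rc hU b) {g₀ : N} (h0 : a g₀ ≠ b g₀) :
    ind U (lc (rc hU a)) - (ind (Subgroup.zpowers (g₀ : G)) (lc (rc (zle g₀) a))
      + ind (Subgroup.zpowers (g₀ : G)) (lc (rc (zle g₀) b))) ∈ Good θ := by
  classical
  have h1 : ind U (lc (rc hU a) - ind ((⊥ : Subgroup G).subgroupOf U) (fun _ => (1 : ℂ)))
      ∈ Good θ := by
    refine good_of_pr hθ.conj hy ?_ fun η hη hne => ?_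
    · exact sub_mem (S := AddSubgroup (U → ℂ)) (AddSubgroup.subset_closure (lin_irr _)) virt_botind
    · rcases irr_two (rc hU a) (rc hU b) (fun v => hN ⟨v, _⟩) hη hne with rfl | rfl
      · rw [pr_sub, pr_botind, pr_lin, if_pos rfl, sub_self]
      · rw [pr_sub, pr_botind, pr_lin, if_pos he, sub_self]
  have hne' : rc (zle g₀) a ≠ rc (zle g₀) b :=
    rc_ne (zle g₀) (u := ⟨(g₀ : G), Subgroup.mem_zpowers _⟩) h0
  have h2 : ind (Subgroup.zpowers (g₀ : G)) (ind ((⊥ : Subgroup G).subgroupOf _) (fun _ => (1 : ℂ))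
      - (lc (rc (zle g₀) a) + lc (rc (zle g₀) b))) ∈ Good θ := by
    refine good_of_pr hθ.conj (Hyper.cyclic _) ?_ fun η hη hne => ?_
    · exact sub_mem (S := AddSubgroup (_ → ℂ)) virt_botind
        (add_mem (S := AddSubgroup (_ → ℂ)) (AddSubgroup.subset_closure (lin_irr _))
          (AddSubgroup.subset_closure (lin_irr _)))
    · rcases irr_two (rc (zle g₀) a) (rc (zle g₀) b) (fun v => hN ⟨v, _⟩) hη hne with rfl | rfl
      · rw [pr_sub, pr_botind, pr_add, pr_lin, if_pos rfl, pr_lin, if_neg hne'.symm, add_zero,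
          sub_self]
      · rw [pr_sub, pr_botind, pr_add, pr_lin, if_neg hne', pr_lin, if_pos rfl, zero_add,
          sub_self]
  have h3 := add_mem h1 h2
  rw [ind_sub, ind_sub, ind_add] at h3
  have h4 : ∀ V : Subgroup G, ind V (ind ((⊥ : Subgroup G).subgroupOf V) (fun _ => (1 : ℂ)))
      = ind (⊥ : Subgroup G) (fun _ => (1 : ℂ)) := by
    intro V
    rw [ind_tower (bot_le : (⊥ : Subgroup G) ≤ V) (fun _ => (1 : ℂ))]
  rw [h4, h4, sub_add_sub_cancel] at h3
  exact h3

/-- the pairing of an induced linear character with a linear character of `G` -/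
lemma pr_ind_lin (U : Subgroup G) (ψ : U →* ℂˣ) (lam : G →* ℂˣ) :
    pr (ind U (lc ψ)) (lc lam) = pr (lc ψ) (lc (lam.comp U.subtype)) := by
  rw [frob U _ (fun g x => by
    change ((lam (x * g * x⁻¹) : ℂˣ) : ℂ) = ((lam g : ℂˣ) : ℂ)
    rw [map_mul, map_mul, map_inv, mul_comm (lam x), mul_inv_cancel_right])]
  rfl

/-- **The split case.** -/
theorem split_decomp (hθ : HH θ) {l₁ l₂ : G →* ℂˣ}
    (hs : ∀ g, θ g = ((l₁ g : ℂˣ) : ℂ) + ((l₂ g : ℂˣ) : ℂ)) (hne : l₁ ≠ l₂) :
    ∃ Z : Subgroup G, Hyper Z ∧ ∀ f : G → ℂ, Virt f → ∃ k₁ k₂ : ℤ, pr f (lc l₁) = k₁ ∧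
      pr f (lc l₂) = k₂ ∧ f - (k₁ • ind Z (lc (l₁.comp Z.subtype))
        + k₂ • ind Z (lc (l₂.comp Z.subtype))) ∈ Good θ := by
  classical
  let a : (⊤ : Subgroup G) →* ℂˣ := l₁.comp (⊤ : Subgroup G).subtype
  let b : (⊤ : Subgroup G) →* ℂˣ := l₂.comp (⊤ : Subgroup G).subtype
  have hN : ∀ n : (⊤ : Subgroup G), θ n = ((a n : ℂˣ) : ℂ) + ((b n : ℂˣ) : ℂ) := fun n => hs n
  have hN' : ∀ n : (⊤ : Subgroup G), θ n = ((b n : ℂˣ) : ℂ) + ((a n : ℂˣ) : ℂ) := fun n => by
    rw [hN, add_comm]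
  obtain ⟨g₀, hg₀⟩ := exists_gen (a / b)
  have hg₀' : ∀ n : (⊤ : Subgroup G), (b / a) n ∈ Subgroup.zpowers ((b / a) g₀) := by
    intro n
    have h1 := hg₀ n
    rw [MonoidHom.div_apply, MonoidHom.div_apply] at h1 ⊢
    rw [← inv_div (a n) (b n), ← inv_div (a g₀) (b g₀), Subgroup.zpowers_inv]
    exact inv_mem h1
  have h0 : a g₀ ≠ b g₀ := by
    intro h
    apply hne
    ext g
    have h1 := hg₀ ⟨g, Subgroup.mem_top g⟩
    rw [MonoidHom.div_apply, MonoidHom.div_apply, h, div_self', Subgroup.zpowers_one_eq_bot,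
      Subgroup.mem_bot, div_eq_one] at h1
    exact congrArg Units.val h1
  refine ⟨Subgroup.zpowers (g₀ : G), Hyper.cyclic _, fun f hf => ?_⟩
  have hmon := virt_mem_mon hf
  induction hmon using AddSubgroup.closure_induction with
  | zero => exact ⟨0, 0, by rw [pr_zero_left]; simp, by rw [pr_zero_left]; simp, by
      rw [zero_smul, zero_smul, add_zero, sub_zero]; exact zero_mem _⟩
  | add f f' hf1 hf2 ih ih' =>
    have e1 : Virt f := by
      refine (AddSubgroup.closure_le (AddSubgroup.closure (Irr G))).mpr ?_ hf1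
      rintro u ⟨U, ψ, -, rfl⟩
      exact virt_ind _ (AddSubgroup.subset_closure (lin_irr _))
    have e2 : Virt f' := by
      refine (AddSubgroup.closure_le (AddSubgroup.closure (Irr G))).mpr ?_ hf2
      rintro u ⟨U, ψ, -, rfl⟩
      exact virt_ind _ (AddSubgroup.subset_closure (lin_irr _))
    obtain ⟨k, l, h1, h2, h3⟩ := ih e1
    obtain ⟨k', l', h1', h2', h3'⟩ := ih' e2
    refine ⟨k + k', l + l', by rw [pr_add, h1, h1']; push_cast; rfl,
      by rw [pr_add, h2, h2']; push_cast; rfl, ?_⟩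
    have h4 := add_mem h3 h3'
    rw [add_smul, add_smul]
    convert h4 using 1
    abel
  | neg f hf1 ih =>
    have e1 : Virt f := by
      refine (AddSubgroup.closure_le (AddSubgroup.closure (Irr G))).mpr ?_ hf1
      rintro u ⟨U, ψ, -, rfl⟩
      exact virt_ind _ (AddSubgroup.subset_closure (lin_irr _))
    obtain ⟨k, l, h1, h2, h3⟩ := ih e1
    refine ⟨-k, -l, by rw [pr_neg, h1]; push_cast; rfl,
      by rw [pr_neg, h2]; push_cast; rfl, ?_⟩
    have h4 := neg_mem h3
    rw [neg_smul, neg_smul]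
    convert h4 using 1
    abel
  | mem f hf1 =>
    obtain ⟨U, ψ, hU, rfl⟩ := hf1
    have hUt : U ≤ (⊤ : Subgroup G) := le_top
    have e1 : rc hUt a = l₁.comp U.subtype := rfl
    have e2 : rc hUt b = l₂.comp U.subtype := rfl
    have p1 : pr (ind U (fun h => ((ψ h : ℂˣ) : ℂ))) (lc l₁)
        = if ψ = l₁.comp U.subtype then 1 else 0 := by
      rw [pr_ind_lin, pr_lin]
    have p2 : pr (ind U (fun h => ((ψ h : ℂˣ) : ℂ))) (lc l₂)
        = if ψ = l₂.comp U.subtype then 1 else 0 := by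
      rw [pr_ind_lin, pr_lin]
    by_cases c1 : ψ = l₁.comp U.subtype
    · by_cases c2 : ψ = l₂.comp U.subtype
      · refine ⟨1, 1, by rw [p1, if_pos c1]; simp, by rw [p2, if_pos c2]; simp, ?_⟩
        rw [one_smul, one_smul]
        have h1 := low hθ hN hUt hU (by rw [e1, e2, ← c1, ← c2]) h0
        rw [e1, ← c1] at h1
        exact h1
      · refine ⟨1, 0, by rw [p1, if_pos c1]; simp, by rw [p2, if_neg c2]; simp, ?_⟩
        rw [one_smul, zero_smul, add_zero]
        obtain ⟨u, hu⟩ : ∃ u : U, l₁ u ≠ l₂ u := by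
          by_contra hcon
          push Not at hcon
          apply c2
          rw [c1]
          ext u
          exact congrArg Units.val (hcon u)
        have h1 := lem1 hθ hN hg₀ hUt hU (u := u) hu
        rw [e1, ← c1] at h1
        exact h1
    · by_cases c2 : ψ = l₂.comp U.subtype
      · refine ⟨0, 1, by rw [p1, if_neg c1]; simp, by rw [p2, if_pos c2]; simp, ?_⟩
        rw [one_smul, zero_smul, zero_add]
        obtain ⟨u, hu⟩ : ∃ u : U, l₂ u ≠ l₁ u := by
          by_contra hcon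
          push Not at hcon
          apply c1
          rw [c2]
          ext u
          exact congrArg Units.val (hcon u)
        have h1 := lem1 hθ hN' hg₀' hUt hU (u := u) hu
        rw [e2, ← c2] at h1
        exact h1
      · refine ⟨0, 0, by rw [p1, if_neg c1]; simp, by rw [p2, if_neg c2]; simp, ?_⟩
        rw [zero_smul, zero_smul, add_zero, sub_zero]
        refine AddSubgroup.subset_closure ⟨U, ψ, hU, rfl, ?_⟩
        have h1 : θ = lc l₁ + lc l₂ := funext hs
        rw [pr_comm, h1, pr_comm, pr_add, pr_comm (lc l₁), pr_comm (lc l₂), p1, p2, if_neg c1,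
          if_neg c2, add_zero]

end Pool.Agent.R389
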