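import Mathlib
import Pool.Agent.R389.Split

/-!
# Imprimitive characters of degree two
-/

set_option autoImplicit false
set_option linter.unusedSectionVars false

namespace Pool.Agent.R389

open Pool.Agent.H302R2 Pool.Agent.H302R3 Pool.Agent.H541R3.ART Pool.Agent.W446.AS

/-- `θ` is the character induced from the linear character `a` of the subgroup `N` of index two,
whose conjugate is `b` -/
structure Imp {G : Type} [Group G] (θ : G → ℂ) (N : Subgroup G) (a b : N →* ℂˣ) : Prop where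
  on : ∀ n : N, θ n = ((a n : ℂˣ) : ℂ) + ((b n : ℂˣ) : ℂ)
  off : ∀ g, g ∉ N → θ g = 0
  nt : ∃ t, t ∉ N
  two : ∀ x y, x ∉ N → y ∉ N → x * y ∈ N
  swap : ∀ t, t ∉ N → ∀ (n : N) (h : t * n * t⁻¹ ∈ N), b n = a ⟨t * n * t⁻¹, h⟩

variable {G : Type} [Group G] [Finite G] {θ : G → ℂ} {N : Subgroup G} {a b : N →* ℂˣ}

lemma Imp.conj_mem (h : Imp θ N a b) (t : G) {n : G} (hn : n ∈ N) : t * n * t⁻¹ ∈ N := by
  by_cases ht : t ∈ N
  · exact N.mul_mem (N.mul_mem ht hn) (N.inv_mem ht)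
  · refine h.two _ _ ?_ (fun h' => ht ((Subgroup.inv_mem_iff N).mp h'))
    intro h'
    exact ht ((Subgroup.mul_mem_cancel_right N hn).mp h')

lemma Imp.normal (h : Imp θ N a b) : N.Normal := ⟨fun _ hn t => h.conj_mem t hn⟩

lemma Imp.swap' (h : Imp θ N a b) {t : G} (ht : t ∉ N) (n : N) (hm : t * n * t⁻¹ ∈ N) :
    a n = b ⟨t * n * t⁻¹, hm⟩ := by
  have h1 := h.swap t⁻¹ (fun h' => ht ((Subgroup.inv_mem_iff N).mp h')) ⟨t * n * t⁻¹, hm⟩
    (h.conj_mem _ hm)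
  rw [h1]
  congr 1
  apply Subtype.ext
  simp only
  group

lemma Imp.symm (h : Imp θ N a b) : Imp θ N b a where
  on n := by rw [h.on n, add_comm]
  off := h.off
  nt := h.nt
  two := h.two
  swap _ ht n hm := h.swap' ht n hm

lemma conj_a {N : Subgroup G} (a : N →* ℂˣ) {t : G} (ht : t ∈ N) (n : N) (hm : t * n * t⁻¹ ∈ N) :
    a ⟨t * n * t⁻¹, hm⟩ = a n := by
  have h1 : (⟨t * n * t⁻¹, hm⟩ : N) = ⟨t, ht⟩ * n * ⟨t, ht⟩⁻¹ := rfl
  rw [h1, map_mul, map_mul, map_inv, mul_comm (a ⟨t, ht⟩), mul_inv_cancel_right]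

/-- conjugation preserves the difference of the two characters -/
lemma Imp.conj_ne (h : Imp θ N a b) (t : G) {n : N} (hn : a n ≠ b n) :
    a ⟨t * n * t⁻¹, h.conj_mem t n.2⟩ ≠ b ⟨t * n * t⁻¹, h.conj_mem t n.2⟩ := by
  by_cases ht : t ∈ N
  · rw [conj_a a ht, conj_a b ht]; exact hn
  · rw [← h.swap t ht n (h.conj_mem t n.2), ← h.swap' ht n (h.conj_mem t n.2)]; exact hn.symm

lemma sum_half {X : Type} [Fintype X] (e : X ≃ X) (F : X → ℂ) (s : ℂ)
    (h : ∀ x, F x + F (e x) = s) : 2 * ∑ x, F x = Fintype.card X * s := by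
  have h1 : ∑ x, F x = ∑ x, F (e x) := (Equiv.sum_comp e F).symm
  have h2 : ∑ x, F x + ∑ x, F (e x) = Fintype.card X * s := by
    rw [← Finset.sum_add_distrib, Finset.sum_congr rfl (fun x _ => h x), Finset.sum_const,
      Finset.card_univ, nsmul_eq_mul]
  rw [← h1] at h2
  rw [two_mul]; exact h2

/-- the order of the intersection with `N` -/
lemma Imp.card (h : Imp θ N a b) {U : Subgroup G} {u₀ : G} (hu₀ : u₀ ∈ U) (hu : u₀ ∉ N) :
    (Nat.card U : ℂ) = 2 * Nat.card ((U ⊓ N).subgroupOf U) := by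
  classical
  have : Fintype U := Fintype.ofFinite U
  have h1 := sum_half (Equiv.mulLeft (⟨u₀, hu₀⟩ : U))
    (fun u : U => if (u : G) ∈ N then (1 : ℂ) else 0) 1 (by
      intro u
      by_cases hn : (u : G) ∈ N
      · have h' : ¬ ((Equiv.mulLeft (⟨u₀, hu₀⟩ : U) u : U) : G) ∈ N :=
          fun h' => hu ((Subgroup.mul_mem_cancel_right N hn).mp h')
        rw [if_pos hn, if_neg h', add_zero]
      · have h' : ((Equiv.mulLeft (⟨u₀, hu₀⟩ : U) u : U) : G) ∈ N := h.two _ _ hu hn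
        rw [if_neg hn, if_pos h', zero_add])
  rw [mul_one] at h1
  have h2 : ∑ u : U, (if (u : G) ∈ N then (1 : ℂ) else 0)
      = Nat.card ((U ⊓ N).subgroupOf U) := by
    rw [← Finset.sum_filter, Finset.sum_const, nsmul_eq_mul, mul_one, ← Fintype.card_subtype,
      ← Nat.card_eq_fintype_card]
    congr 1
    refine Nat.card_congr (Equiv.subtypeEquivRight fun u => ?_)
    rw [Subgroup.mem_subgroupOf, Subgroup.mem_inf]
    exact ⟨fun h' => ⟨u.2, h'⟩, fun h' => h'.2⟩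
  rw [h2] at h1
  rw [h1, Nat.card_eq_fintype_card]

/-- the restriction to a subgroup not contained in `N` -/
lemma Imp.res (h : Imp θ N a b) {U : Subgroup G} {u₀ : G} (hu₀ : u₀ ∈ U) (hu : u₀ ∉ N) :
    (fun u : U => θ u) = ind ((U ⊓ N).subgroupOf U)
      (lc ((rc (inf_le_right : U ⊓ N ≤ N) a).comp (inclS (U ⊓ N) U))) := by
  classical
  have : Fintype U := Fintype.ofFinite U
  have hc := h.card hu₀ hu
  have hU0 : (Nat.card U : ℂ) ≠ 0 := card_ne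
  have hD0 : (Nat.card ((U ⊓ N).subgroupOf U) : ℂ) ≠ 0 := card_ne
  funext u
  rw [ind_eq]
  by_cases hn : (u : G) ∈ N
  · have hF : ∀ x : U, ∀ hx : ((x⁻¹ * u * x : U) : G) ∈ N,
        ext ((U ⊓ N).subgroupOf U)
          (lc ((rc (inf_le_right : U ⊓ N ≤ N) a).comp (inclS (U ⊓ N) U))) (x⁻¹ * u * x)
        = ((a ⟨((x⁻¹ * u * x : U) : G), hx⟩ : ℂˣ) : ℂ) := by
      intro x hx
      have hx' : x⁻¹ * u * x ∈ (U ⊓ N).subgroupOf U :=
        Subgroup.mem_subgroupOf.mpr ⟨(x⁻¹ * u * x).2, hx⟩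
      rw [ext_mem _ _ hx']
      rfl
    have hmem : ∀ x : U, ((x⁻¹ * u * x : U) : G) ∈ N := by
      intro x
      have := h.conj_mem (x : G)⁻¹ hn
      rwa [inv_inv] at this
    have hval : ∀ x : U, ext ((U ⊓ N).subgroupOf U)
          (lc ((rc (inf_le_right : U ⊓ N ≤ N) a).comp (inclS (U ⊓ N) U))) (x⁻¹ * u * x)
        = if (x : G) ∈ N then ((a ⟨u, hn⟩ : ℂˣ) : ℂ) else ((b ⟨u, hn⟩ : ℂˣ) : ℂ) := by
      intro x
      rw [hF x (hmem x)]
      have e1 : (⟨((x⁻¹ * u * x : U) : G), hmem x⟩ : N)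
          = ⟨(x : G)⁻¹ * u * (x : G)⁻¹⁻¹, h.conj_mem _ hn⟩ := by
        apply Subtype.ext
        simp
      rw [e1]
      by_cases hx : (x : G) ∈ N
      · rw [if_pos hx]
        rw [conj_a a (N.inv_mem hx) ⟨u, hn⟩ (h.conj_mem _ hn)]
      · rw [if_neg hx]
        rw [h.swap (x : G)⁻¹ (fun h' => hx ((Subgroup.inv_mem_iff N).mp h')) ⟨u, hn⟩
          (h.conj_mem _ hn)]
    rw [Finset.sum_congr rfl (fun x _ => hval x)]
    have h1 := sum_half (Equiv.mulLeft (⟨u₀, hu₀⟩ : U))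
      (fun x : U => if (x : G) ∈ N then ((a ⟨u, hn⟩ : ℂˣ) : ℂ) else ((b ⟨u, hn⟩ : ℂˣ) : ℂ))
      (((a ⟨u, hn⟩ : ℂˣ) : ℂ) + ((b ⟨u, hn⟩ : ℂˣ) : ℂ)) (by
        intro x
        by_cases hx : (x : G) ∈ N
        · have h' : ¬ ((Equiv.mulLeft (⟨u₀, hu₀⟩ : U) x : U) : G) ∈ N :=
            fun h' => hu ((Subgroup.mul_mem_cancel_right N hx).mp h')
          rw [if_pos hx, if_neg h']
        · have h' : ((Equiv.mulLeft (⟨u₀, hu₀⟩ : U) x : U) : G) ∈ N := h.two _ _ hu hx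
          rw [if_neg hx, if_pos h', add_comm])
    rw [← Nat.card_eq_fintype_card, hc] at h1
    have h2 : ∑ x : U, (if (x : G) ∈ N then ((a ⟨u, hn⟩ : ℂˣ) : ℂ) else ((b ⟨u, hn⟩ : ℂˣ) : ℂ))
        = Nat.card ((U ⊓ N).subgroupOf U) * (((a ⟨u, hn⟩ : ℂˣ) : ℂ) + ((b ⟨u, hn⟩ : ℂˣ) : ℂ)) := by
      have h3 : (2 : ℂ) ≠ 0 := two_ne_zero
      apply mul_left_cancel₀ h3
      rw [h1]; ring
    rw [h2, ← mul_assoc, inv_mul_cancel₀ hD0, one_mul]
    exact h.on ⟨u, hn⟩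
  · rw [Finset.sum_eq_zero, mul_zero]
    · exact h.off _ hn
    · intro x _
      apply ext_not
      intro h'
      apply hn
      have h2 : ((x⁻¹ * u * x : U) : G) ∈ N := h'.2
      have h3 := h.conj_mem (x : G) h2
      have e1 : (x : G) * ((x⁻¹ * u * x : U) : G) * (x : G)⁻¹ = u := by
        simp only [Subgroup.coe_mul, Subgroup.coe_inv]
        group
      rwa [e1] at h3

/-- the pairing over a subgroup not contained in `N` -/
lemma Imp.pr_res (h : Imp θ N a b) {U : Subgroup G} {u₀ : G} (hu₀ : u₀ ∈ U) (hu : u₀ ∉ N)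
    {f : U → ℂ} (hf : ∀ g x : U, f (x * g * x⁻¹) = f g) :
    pr (fun u : U => θ u) f = pr (lc (rc (inf_le_right : U ⊓ N ≤ N) a))
      (fun v : (U ⊓ N : Subgroup G) => f ⟨v, v.2.1⟩) := by
  rw [h.res hu₀ hu, frob _ _ hf]
  exact pr_subgroupOf (inf_le_left : U ⊓ N ≤ U) (lc (rc (inf_le_right : U ⊓ N ≤ N) a))
    (fun v => f ⟨v, v.2.1⟩)

open Classical in
lemma Imp.pr_lin (h : Imp θ N a b) {U : Subgroup G} {u₀ : G} (hu₀ : u₀ ∈ U) (hu : u₀ ∉ N)
    (ψ : U →* ℂˣ) : pr (fun u : U => θ u) (lc ψ)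
      = if rc (inf_le_right : U ⊓ N ≤ N) a = rc (inf_le_left : U ⊓ N ≤ U) ψ then 1 else 0 := by
  rw [h.pr_res hu₀ hu (lc_class ψ), ← Pool.Agent.R389.pr_lin]
  rfl

/-- the character `A` -/
noncomputable def baseA (g₀ : N) (a : N →* ℂˣ) : G → ℂ :=
  ind (Subgroup.zpowers (g₀ : G)) (lc (rc (zle g₀) a))

/-- subgroups not contained in `N` on which the characters differ -/
lemma Imp.big (hθ : HH θ) (h : Imp θ N a b) {g₀ : N}
    (hg₀ : ∀ n : N, (a / b) n ∈ Subgroup.zpowers ((a / b) g₀)) {U V : Subgroup G} (hVU : V ≤ U)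
    (hU : Hyper U) {u₀ : G} (hu₀ : u₀ ∈ U) (hu : u₀ ∉ N) {w : N} (hw : (w : G) ∈ U)
    (hne : a w ≠ b w) (ψ : V →* ℂˣ) (h1 : pr (fun v : V => θ v) (lc ψ) = 1) :
    ind V (lc ψ) - baseA g₀ a ∈ Good θ := by
  classical
  obtain ⟨η, hη, hb, ha⟩ := up_exists hθ.conj hVU ψ (by
    change pr (fun v : V => θ v) (lc ψ) ≠ 0
    rw [h1]; exact one_ne_zero)
  have hD : U ⊓ N ≤ N := inf_le_right
  have hdne : rc hD b ≠ rc hD a := (rc_ne hD (u := ⟨(w : G), hw, w.2⟩) hne).symm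
  have h1' : pr (fun v : (U ⊓ N : Subgroup G) => θ v) (lc (rc hD a)) = 1 := by
    rw [pr_two (rc hD a) (rc hD b) (rc hD a) (fun v => h.on ⟨v, _⟩), if_pos rfl, if_neg hdne,
      add_zero]
  have ha' : pr (fun v : (U ⊓ N : Subgroup G) => η ⟨v, (inf_le_left : U ⊓ N ≤ U) v.2⟩)
      (lc (rc hD a)) ≠ 0 := by
    rw [pr_comm, ← h.pr_res hu₀ hu (Irr.conj hη)]
    exact hb
  have h2 := same hθ.conj hVU (inf_le_left : U ⊓ N ≤ U) hU (fun η hη => hθ.nat_irr hU hη) ψ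
    (rc hD a) h1 h1' hη hb ha ha'
  have hyD : Hyper (U ⊓ N : Subgroup G) :=
    hU.of_injective (Subgroup.inclusion (inf_le_left : U ⊓ N ≤ U))
      (Subgroup.inclusion_injective _)
  have h3 := lem1 hθ h.on hg₀ hD hyD (u := ⟨(w : G), hw, w.2⟩) hne
  have h4 := add_mem h2 h3
  rw [sub_add_sub_cancel] at h4
  exact h4

end Pool.Agent.R389
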