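import Mathlib
import Pool.Agent.R389.Imp

/-!
# Imprimitive characters of degree two: elements outside the subgroup of index two
-/

set_option autoImplicit false
set_option linter.unusedSectionVars false

namespace Pool.Agent.R389

open Pool.Agent.H302R2 Pool.Agent.H302R3 Pool.Agent.H541R3.ART Pool.Agent.W446.AS

section dihedral

variable {G : Type} [Group G] [Finite G]

lemma conj_zpow_mem {c t : G} (hc : t * c * t⁻¹ = c⁻¹) (j : ℤ) (z : G)
    (hz : z ∈ Subgroup.zpowers c) : t ^ j * z * (t ^ j)⁻¹ ∈ Subgroup.zpowers c := by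
  have h1 : t ∈ Subgroup.normalizer (Subgroup.zpowers c : Set G) := by
    have h2 : ∀ x, x ∈ Subgroup.zpowers c → t * x * t⁻¹ ∈ Subgroup.zpowers c := by
      rintro _ ⟨i, rfl⟩
      refine ⟨-i, ?_⟩
      simp only
      rw [← conj_zpow, hc, inv_zpow, zpow_neg]
    rw [Subgroup.mem_normalizer_iff]
    intro x
    refine ⟨h2 x, fun h3 => ?_⟩
    obtain ⟨i, hi⟩ := h3
    refine ⟨-i, ?_⟩
    simp only at hi ⊢
    have h4 : t⁻¹ * c * t = c⁻¹ := by
      have h5 : t⁻¹ * (t * c * t⁻¹)⁻¹ * t = t⁻¹ * c * t := by rw [hc, inv_inv]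
      rw [← h5]; group
    have h6 : x = t⁻¹ * (t * x * t⁻¹) * t := by group
    rw [h6, ← hi]
    have h7 : t⁻¹ * c ^ i * t = (t⁻¹ * c * t) ^ i := by
      have := conj_zpow (a := t⁻¹) (b := c) (i := i)
      rw [inv_inv] at this
      exact this.symm
    rw [h7, h4, inv_zpow, zpow_neg]
  have h2 := Subgroup.zpow_mem _ h1 j
  exact (Subgroup.mem_normalizer_iff.mp h2 z).mp hz

/-- the subgroup generated by `c` and an element `t` inverting it -/
def dih (c t : G) (hc : t * c * t⁻¹ = c⁻¹) : Subgroup G where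
  carrier := {u | ∃ z ∈ Subgroup.zpowers c, ∃ j : ℤ, u = z * t ^ j}
  one_mem' := ⟨1, one_mem _, 0, by simp⟩
  mul_mem' := by
    rintro _ _ ⟨z, hz, j, rfl⟩ ⟨z', hz', j', rfl⟩
    refine ⟨z * (t ^ j * z' * (t ^ j)⁻¹), mul_mem hz (conj_zpow_mem hc j z' hz'), j + j', ?_⟩
    rw [zpow_add]
    group
  inv_mem' := by
    rintro _ ⟨z, hz, j, rfl⟩
    refine ⟨t ^ (-j) * z⁻¹ * (t ^ (-j))⁻¹, conj_zpow_mem hc (-j) z⁻¹ (inv_mem hz), -j, ?_⟩
    group

lemma hyper_dihedral {c t : G} (hc : t * c * t⁻¹ = c⁻¹) {k : ℕ} (ht : t ^ (2 ^ k) = 1)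
    (ho : (orderOf c).Coprime 2) : Hyper (dih c t hc) := by
  have hcm : c ∈ dih c t hc := ⟨c, Subgroup.mem_zpowers c, 0, by simp⟩
  refine ⟨2, Nat.prime_two, ⟨c, hcm⟩, ?_, ?_, ?_⟩
  · rw [Subgroup.orderOf_mk]; exact ho
  · rintro ⟨u, z, hz, j, rfl⟩
    have h1 : z * t ^ j * c * (z * t ^ j)⁻¹ ∈ Subgroup.zpowers c := by
      have h2 := mul_mem (mul_mem hz (conj_zpow_mem hc j c (Subgroup.mem_zpowers c)))
        (inv_mem hz)
      have h3 : z * t ^ j * c * (z * t ^ j)⁻¹ = z * (t ^ j * c * (t ^ j)⁻¹) * z⁻¹ := by group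
      rw [h3]; exact h2
    obtain ⟨i, hi⟩ := h1
    refine ⟨i, ?_⟩
    apply Subtype.ext
    simpa using hi
  · rintro ⟨u, z, hz, j, rfl⟩
    have key : ∀ n : ℕ, ∃ z' ∈ Subgroup.zpowers c, (z * t ^ j) ^ n = z' * (t ^ n) ^ j := by
      intro n
      induction n with
      | zero => exact ⟨1, one_mem _, by simp⟩
      | succ n ih =>
        obtain ⟨z', hz', h⟩ := ih
        refine ⟨z' * (t ^ (n * j) * z * (t ^ (n * j))⁻¹), mul_mem hz' ?_, ?_⟩
        · have := conj_zpow_mem hc (n * j) z hz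
          exact this
        · rw [pow_succ, h]
          have e1 : (t ^ n) ^ j = t ^ (n * j) := by
            rw [← zpow_natCast, ← zpow_mul]
          have e2 : (t ^ (n + 1)) ^ j = t ^ (n * j) * t ^ j := by
            rw [← zpow_natCast, ← zpow_mul, ← zpow_add]
            congr 1
            push_cast
            ring
          rw [e1, e2]
          group
    obtain ⟨z', hz', h⟩ := key (2 ^ k)
    refine ⟨k, ?_⟩
    rw [ht, one_zpow, mul_one] at h
    obtain ⟨i, hi⟩ := hz'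
    refine ⟨i, ?_⟩
    apply Subtype.ext
    simp only [Subgroup.coe_zpow, Subgroup.coe_pow]
    rw [h]
    exact hi

end dihedral

section fixed

variable {G : Type} [Group G] [Finite G] {θ : G → ℂ} {N : Subgroup G} {a b : N →* ℂˣ}

/-- an element inverted by a `2`-element outside `N` -/
lemma Imp.exists_inverted (h : Imp θ N a b) {q : ℕ} (hq : q.Prime) (hq2 : q ≠ 2) {y : N} {k : ℕ}
    (hk : y ^ (q ^ k) = 1) (hy : a y ≠ b y) :
    ∃ (t : G) (c : N), t ∉ N ∧ (∃ k : ℕ, t ^ (2 ^ k) = 1) ∧ t * c * t⁻¹ = (c : G)⁻¹ ∧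
      (orderOf (c : G)).Coprime 2 ∧ a c ≠ b c := by
  classical
  have : Fact q.Prime := ⟨hq⟩
  have hNn := h.normal
  let P : Sylow q N := default
  obtain ⟨n', hn'⟩ := exists_conj_mem P hk
  set x₀ : N := n' * y * n'⁻¹ with hx₀
  have hx₀ne : (a / b) x₀ ≠ 1 := by
    rw [hx₀, MonoidHom.div_apply, Ne, div_eq_one, map_mul, map_mul, map_inv, mul_comm (a n'),
      mul_inv_cancel_right, map_mul, map_mul, map_inv, mul_comm (b n'), mul_inv_cancel_right]
    exact hy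
  obtain ⟨t', ht', ht'N⟩ : ∃ t' ∈ Subgroup.normalizer ((P : Subgroup N).map N.subtype : Set G),
      t' ∉ N := by
    by_contra hcon
    push Not at hcon
    have h1 := Sylow.normalizer_sup_eq_top P
    obtain ⟨t, ht⟩ := h.nt
    apply ht
    have h2 : Subgroup.normalizer ((P : Subgroup N).map N.subtype : Set G) ⊔ N ≤ N :=
      sup_le hcon le_rfl
    rw [h1] at h2
    exact h2 (Subgroup.mem_top t)
  obtain ⟨k', m', hm', hkm⟩ := exists_odd_part (orderOf t') (orderOf_pos t').ne'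
  set t := t' ^ m' with ht
  have htk : t ^ (2 ^ k') = 1 := by
    rw [ht, ← pow_mul, mul_comm, ← hkm, pow_orderOf_eq_one]
  have htN : t ∉ N := by
    obtain ⟨j, hj⟩ := hm'
    intro h1
    rw [ht, hj, pow_succ, pow_mul] at h1
    have h2 : (t' ^ 2) ^ j ∈ N := by
      apply N.pow_mem
      rw [pow_two]
      exact h.two _ _ ht'N ht'N
    exact ht'N ((Subgroup.mul_mem_cancel_left N h2).mp h1)
  have htQ : t ∈ Subgroup.normalizer ((P : Subgroup N).map N.subtype : Set G) := pow_mem ht' m'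
  have ht2N : t * t ∈ N := h.two _ _ htN htN
  have ht2Q := mul_mem htQ htQ
  -- the set acted on
  let X := {x : N // x ∈ P ∧ (a / b) x = (a / b) x₀}
  let S := Subgroup.zpowers (t * t)
  have hSN : ∀ s : S, (s : G) ∈ N := fun s => (Subgroup.zpowers_le.mpr ht2N) s.2
  have hSQ : ∀ s : S, (s : G) ∈ Subgroup.normalizer ((P : Subgroup N).map N.subtype : Set G) :=
    fun s => (Subgroup.zpowers_le.mpr ht2Q) s.2
  have hact : ∀ (s : S) (x : N), x ∈ P → ((⟨s, hSN s⟩ : N) * x * (⟨s, hSN s⟩ : N)⁻¹) ∈ P := by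
    intro s x hx
    have h1 := (Subgroup.mem_normalizer_iff.mp (hSQ s) (x : G)).mp ⟨x, hx, rfl⟩
    obtain ⟨z, hz, hzx⟩ := h1
    have h2 : z = (⟨s, hSN s⟩ : N) * x * (⟨s, hSN s⟩ : N)⁻¹ := Subtype.ext hzx
    rw [← h2]
    exact hz
  have hval : ∀ (s : S) (x : N), (a / b) ((⟨s, hSN s⟩ : N) * x * (⟨s, hSN s⟩ : N)⁻¹) = (a / b) x := by
    intro s x
    rw [map_mul, map_mul, map_inv, mul_comm ((a / b) _), mul_inv_cancel_right]
  let act : MulAction S X :=
    { smul := fun s x => ⟨(⟨s, hSN s⟩ : N) * x.1 * (⟨s, hSN s⟩ : N)⁻¹, hact s x.1 x.2.1, by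
        rw [hval]; exact x.2.2⟩
      one_smul := by
        rintro ⟨x, hx⟩
        apply Subtype.ext
        change (⟨((1 : S) : G), hSN 1⟩ : N) * x * (⟨((1 : S) : G), hSN 1⟩ : N)⁻¹ = x
        apply Subtype.ext
        simp
      mul_smul := by
        rintro s s' ⟨x, hx⟩
        apply Subtype.ext
        change (⟨((s * s' : S) : G), hSN _⟩ : N) * x * (⟨((s * s' : S) : G), hSN _⟩ : N)⁻¹
          = (⟨s, hSN s⟩ : N) * ((⟨s', hSN s'⟩ : N) * x * (⟨s', hSN s'⟩ : N)⁻¹)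
            * (⟨s, hSN s⟩ : N)⁻¹
        apply Subtype.ext
        simp only [Subgroup.coe_mul, Subgroup.coe_inv]
        group }
  have hcard : ¬ 2 ∣ Nat.card X := by
    let K : Subgroup P := ((a / b).comp (P : Subgroup N).subtype).ker
    have e : Nat.card X = Nat.card K := by
      refine Nat.card_congr ⟨fun x => ⟨⟨x.1 * x₀⁻¹, mul_mem x.2.1 (inv_mem hn')⟩, ?_⟩,
        fun z => ⟨z.1.1 * x₀, mul_mem z.1.2 hn', ?_⟩, ?_, ?_⟩
      · rw [MonoidHom.mem_ker]
        change (a / b) (x.1 * x₀⁻¹) = 1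
        rw [map_mul, map_inv, x.2.2, mul_inv_cancel]
      · have h1 := z.2
        rw [MonoidHom.mem_ker] at h1
        have h2 : (a / b) (z.1.1 : N) = 1 := h1
        rw [map_mul, h2, one_mul]
      · intro x
        apply Subtype.ext
        simp
      · intro z
        apply Subtype.ext
        apply Subtype.ext
        simp
    rw [e]
    intro h1
    have h2 := h1.trans (Subgroup.card_subgroup_dvd_card K)
    obtain ⟨j, hj⟩ := IsPGroup.iff_card.mp P.isPGroup'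
    have h3 : Nat.card P = q ^ j := hj
    rw [h3] at h2
    exact hq2 ((Nat.prime_dvd_prime_iff_eq Nat.prime_two hq).mp
      (Nat.prime_two.dvd_of_dvd_pow h2)).symm
  have hSp : IsPGroup 2 S := by
    refine zpowers_isPGroup (k := k') ?_
    rw [← pow_two, ← pow_mul, mul_comm, pow_mul, htk, one_pow]
  have : Fact (Nat.Prime 2) := ⟨Nat.prime_two⟩
  obtain ⟨⟨x, hxP, hx⟩, hfix⟩ := hSp.nonempty_fixed_point_of_prime_not_dvd_card X hcard
  have hfx : t * t * (x : G) * (t * t)⁻¹ = x := by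
    have h1 := hfix ⟨t * t, Subgroup.mem_zpowers _⟩
    have h2 := congrArg (fun z : X => ((z.1 : N) : G)) h1
    exact h2
  have htx : t * (x : G) * t⁻¹ ∈ N := h.conj_mem t x.2
  let c : N := x⁻¹ * ⟨t * (x : G) * t⁻¹, htx⟩
  have hcQ : c ∈ P := by
    refine mul_mem (inv_mem hxP) ?_
    obtain ⟨z, hz, hzx⟩ := (Subgroup.mem_normalizer_iff.mp htQ (x : G)).mp ⟨x, hxP, rfl⟩
    have h2 : z = (⟨t * (x : G) * t⁻¹, htx⟩ : N) := Subtype.ext hzx
    rw [← h2]
    exact hz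
  obtain ⟨j, hj⟩ := P.isPGroup' ⟨c, hcQ⟩
  have hcj : (c : G) ^ (q ^ j) = 1 := by
    have h1 := congrArg (fun z : P => ((z.1 : N) : G)) hj
    exact h1
  obtain ⟨jx, hjx⟩ := P.isPGroup' ⟨x, hxP⟩
  have hxj : x ^ (q ^ jx) = 1 := by
    have h1 := congrArg (fun z : P => (z.1 : N)) hjx
    exact h1
  refine ⟨t, c, htN, ⟨k', htk⟩, ?_, ?_, ?_⟩
  · change t * ((x : G)⁻¹ * (t * (x : G) * t⁻¹)) * t⁻¹ = ((x : G)⁻¹ * (t * (x : G) * t⁻¹))⁻¹
    have e1 : t * ((x : G)⁻¹ * (t * (x : G) * t⁻¹)) * t⁻¹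
        = (t * (x : G) * t⁻¹)⁻¹ * (t * t * (x : G) * (t * t)⁻¹) := by group
    rw [e1, hfx]
    group
  · have h1 : orderOf (c : G) ∣ q ^ j := orderOf_dvd_of_pow_eq_one hcj
    refine Nat.Coprime.coprime_dvd_left h1 (Nat.Coprime.pow_left _ ?_)
    exact (Nat.coprime_primes hq Nat.prime_two).mpr hq2
  · intro hcc
    have e1 : a c = (a x)⁻¹ * b x := by
      rw [h.swap t htN x htx, ← map_inv, ← map_mul]
    have e2 : b c = (b x)⁻¹ * a x := by
      rw [h.swap' htN x htx, ← map_inv, ← map_mul]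
    rw [e1, e2] at hcc
    have e3 : ((a / b) x) ^ 2 = 1 := by
      rw [MonoidHom.div_apply, pow_two]
      have h4 : a x / b x * (a x / b x) = a x * (b x)⁻¹ * (a x * (b x)⁻¹) := by
        rw [div_eq_mul_inv]
      rw [h4]
      have h5 : (b x)⁻¹ * a x * (a x * (b x)⁻¹) = 1 := by
        rw [← hcc, mul_mul_mul_comm, inv_mul_cancel, mul_inv_cancel, one_mul]
      calc a x * (b x)⁻¹ * (a x * (b x)⁻¹) = (b x)⁻¹ * a x * (a x * (b x)⁻¹) := by
            rw [mul_comm (a x) (b x)⁻¹]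
        _ = 1 := h5
    have e4 : ((a / b) x) ^ (q ^ jx) = 1 := by rw [← map_pow, hxj, map_one]
    have e5 : (a / b) x = 1 := by
      refine eq_one_of_pow_coprime (m := 2) (n := q ^ jx) ?_ e3 e4
      exact Nat.Coprime.pow_right _ ((Nat.coprime_primes Nat.prime_two hq).mpr (Ne.symm hq2))
    rw [hx] at e5
    exact hx₀ne e5

end fixed

section outside

variable {G : Type} [Group G] [Finite G] {θ : G → ℂ} {N : Subgroup G} {a b : N →* ℂˣ}

/-- positivity -/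
lemma pr_up_ne {V U : Subgroup G} (hc : ∀ g x : G, θ (x * g * x⁻¹) = θ g) (hVU : V ≤ U)
    (hn : ∀ η ∈ Irr U, ∃ n : ℕ, pr (fun u : U => θ u) η = n) (ψ : V →* ℂˣ) {η : U → ℂ}
    (hη : η ∈ Irr U) (hb : pr (fun u : U => θ u) η ≠ 0)
    (ha : pr (fun v : V => η ⟨v, hVU v.2⟩) (lc ψ) ≠ 0) : pr (fun v : V => θ v) (lc ψ) ≠ 0 := by
  classical
  intro h0
  have h2 := pr_subgroupOf hVU (fun v : V => θ v) (lc ψ)
  rw [h0] at h2
  have h3 : pr (fun x : V.subgroupOf U => (fun v : V => θ v) (inclS V U x))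
      (fun x => lc ψ (inclS V U x))
      = pr (fun u : U => θ u) (ind (V.subgroupOf U) (lc (ψ.comp (inclS V U)))) := by
    rw [frob' _ _ (res_class hc)]
    rfl
  rw [h3, pr_expand (fun g x => ind_class _ _ g x)] at h2
  choose! n hn' using hn
  choose! m hm using fun (χ : U → ℂ) (hχ : χ ∈ Irr U) =>
    mono_nat (V.subgroupOf U) (ψ.comp (inclS V U)) hχ
  have h4 : (∑ χ ∈ irrF U, m χ * n χ : ℕ) = 0 := by
    have h5 : ((∑ χ ∈ irrF U, m χ * n χ : ℕ) : ℂ) = 0 := by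
      rw [← h2]
      push_cast
      refine Finset.sum_congr rfl fun χ hχ => ?_
      rw [hn' χ (mem_irrF.mp hχ)]
      congr 1
      exact (hm χ (mem_irrF.mp hχ)).symm
    exact_mod_cast h5
  have h6 := Finset.sum_eq_zero_iff.mp h4 η (mem_irrF.mpr hη)
  rcases Nat.mul_eq_zero.mp h6 with h7 | h7
  · apply ha
    have h8 := pr_subgroupOf hVU (fun v : V => η ⟨v, hVU v.2⟩) (lc ψ)
    rw [← h8]
    have h9 := hm η hη
    rw [h7, frob _ _ (Irr.conj hη), pr_comm, Nat.cast_zero] at h9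
    exact h9
  · apply hb
    rw [hn' η hη, h7]; simp

/-- an irreducible character has a linear constituent on a cyclic subgroup -/
lemma exists_lin_below {U : Subgroup G} {η : U → ℂ} (hη : η ∈ Irr U) {t : G}
    (ht : Subgroup.zpowers t ≤ U) : ∃ ψ : Subgroup.zpowers t →* ℂˣ,
      pr (fun v : Subgroup.zpowers t => η ⟨v, ht v.2⟩) (lc ψ) ≠ 0 := by
  classical
  have h1 : IsHeilbronn η := ⟨fun g h => Irr.conj hη g h, fun H ψ => exists_mult hη H ψ⟩
  have h2 := h1.comp (Subgroup.inclusion ht)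
  obtain ⟨s, hs⟩ := h2.comm_multiset (zpowers_comm t)
  have hs0 : s ≠ 0 := by
    rintro rfl
    have h3 := hs 1
    simp only [map_one, Multiset.map_zero, Multiset.sum_zero] at h3
    obtain ⟨d, hd, hd1⟩ := irr_deg_pos hη
    rw [h3] at hd1
    have : d = 0 := by exact_mod_cast hd1.symm
    omega
  obtain ⟨ψ, hψ⟩ := Multiset.exists_mem_of_ne_zero hs0
  refine ⟨ψ, ?_⟩
  have h3 := count_mult s ψ
  have h4 : pr (fun v : Subgroup.zpowers t => η ⟨v, ht v.2⟩) (lc ψ)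
      = (Nat.card (Subgroup.zpowers t) : ℂ)⁻¹ * (Multiset.count ψ s * Nat.card (Subgroup.zpowers t)) := by
    rw [pr, ← h3]
    congr 1
    refine finsum_congr fun q => ?_
    change η ⟨q, ht q.2⟩ * ((ψ q⁻¹ : ℂˣ) : ℂ) = _
    rw [← hs q, map_inv]
    rfl
  rw [h4]
  have h5 : (Nat.card (Subgroup.zpowers t) : ℂ) ≠ 0 := card_ne
  have h6 : (Multiset.count ψ s : ℂ) ≠ 0 := by
    have := Multiset.count_pos.mpr hψ
    exact_mod_cast this.ne'
  exact mul_ne_zero (inv_ne_zero h5) (mul_ne_zero h6 h5)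

/-- **elements outside `N`** -/
lemma Imp.outside (hθ : HH θ) (h : Imp θ N a b) (hab : a ≠ b) {g₀ : N}
    (hg₀ : ∀ n : N, (a / b) n ∈ Subgroup.zpowers ((a / b) g₀)) {t : G} (ht : t ∉ N) {k : ℕ}
    (htk : t ^ (2 ^ k) = 1) (ψ : Subgroup.zpowers t →* ℂˣ)
    (h1 : pr (fun v : Subgroup.zpowers t => θ v) (lc ψ) = 1) :
    ind (Subgroup.zpowers t) (lc ψ) - baseA g₀ a ∈ Good θ := by
  classical
  have : Fact (Nat.Prime 2) := ⟨Nat.prime_two⟩
  obtain ⟨R, hR⟩ := (zpowers_isPGroup htk).exists_le_sylow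
  have hRy : Hyper (R : Subgroup G) := Hyper.of_pgroup Nat.prime_two R.isPGroup'
  have htR : t ∈ (R : Subgroup G) := hR (Subgroup.mem_zpowers t)
  by_cases hA : ∃ w : N, (w : G) ∈ (R : Subgroup G) ∧ a w ≠ b w
  · obtain ⟨w, hw, hne⟩ := hA
    exact h.big hθ hg₀ hR hRy htR ht hw hne ψ h1
  push Not at hA
  obtain ⟨n, hn⟩ : ∃ n, (a / b) n ≠ 1 := by
    by_contra hcon
    push Not at hcon
    apply hab
    ext n
    have h2 := hcon n
    rw [MonoidHom.div_apply, div_eq_one] at h2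
    exact congrArg Units.val h2
  obtain ⟨q, hq, -, m, ⟨j, hj⟩, hm⟩ := exists_qpart (a / b) n hn
  rw [MonoidHom.div_apply, Ne, div_eq_one] at hm
  have hq2 : q ≠ 2 := by
    rintro rfl
    obtain ⟨g, hg⟩ := exists_conj_mem R (x := ((n ^ m : N) : G)) (k := j) (by
      have := congrArg (fun z : N => (z : G)) hj
      simpa using this)
    exact h.conj_ne g hm (hA _ hg)
  obtain ⟨t₀, c, ht₀, ⟨k₀, hk₀⟩, hinv, hcop, hcne⟩ := h.exists_inverted hq hq2 hj hm
  obtain ⟨g, hg⟩ := exists_conj_mem R hk₀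
  set t₁ := g * t₀ * g⁻¹ with ht₁
  have hNn := h.normal
  have ht₁N : t₁ ∉ N := by
    intro h2
    have h3 := hNn.conj_mem t₁ h2 g⁻¹
    apply ht₀
    have e1 : g⁻¹ * t₁ * g⁻¹⁻¹ = t₀ := by rw [ht₁]; group
    rwa [e1] at h3
  have hV₁ : Subgroup.zpowers t₁ ≤ (R : Subgroup G) := Subgroup.zpowers_le.mpr hg
  obtain ⟨η, hη, hb, ha⟩ := up_exists hθ.conj hR ψ (by
    change pr (fun v : Subgroup.zpowers t => θ v) (lc ψ) ≠ 0
    rw [h1]; exact one_ne_zero)
  obtain ⟨ψ₁, hψ₁⟩ := exists_lin_below hη hV₁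
  have h2 := pr_up_ne hθ.conj hV₁ (fun η hη => hθ.nat_irr hRy hη) ψ₁ hη hb hψ₁
  have h3 : pr (fun v : Subgroup.zpowers t₁ => θ v) (lc ψ₁) = 1 := by
    rw [h.pr_lin (Subgroup.mem_zpowers t₁) ht₁N ψ₁] at h2 ⊢
    by_contra h4
    split_ifs at h2 h4 with h5
    · exact h4 rfl
    · exact h2 rfl
  have h4 := same hθ.conj hR hV₁ hRy (fun η hη => hθ.nat_irr hRy hη) ψ ψ₁ h1 h3 hη hb ha hψ₁
  let cj : Subgroup.zpowers t₀ →* Subgroup.zpowers t₁ :=
    { toFun := fun z => ⟨g * z * g⁻¹, (mem_zconj g t₀ z).mp z.2⟩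
      map_one' := by apply Subtype.ext; simp
      map_mul' := by intro x y; apply Subtype.ext; simp only [Subgroup.coe_mul]; group }
  have h5 : ind (Subgroup.zpowers t₀) (lc (ψ₁.comp cj)) = ind (Subgroup.zpowers t₁) (lc ψ₁) :=
    ind_conj (Subgroup.zpowers t₁) (Subgroup.zpowers t₀) g (fun z => mem_zconj g t₀ z) (lc ψ₁)
      (lc (ψ₁.comp cj)) (fun z hz => rfl)
  have h6 : pr (fun v : Subgroup.zpowers t₀ => θ v) (lc (ψ₁.comp cj)) = 1 := by
    rw [← frob' _ _ hθ.conj, h5, frob' _ _ hθ.conj]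
    exact h3
  have hle : Subgroup.zpowers t₀ ≤ dih (c : G) t₀ hinv :=
    Subgroup.zpowers_le.mpr ⟨1, one_mem _, 1, by simp⟩
  have h7 := h.big hθ hg₀ hle (hyper_dihedral hinv hk₀ hcop) (hle (Subgroup.mem_zpowers t₀)) ht₀
    (w := c) ⟨c, Subgroup.mem_zpowers _, 0, by simp⟩ hcne (ψ₁.comp cj) h6
  rw [h5] at h7
  have h8 := add_mem h4 h7
  rw [sub_add_sub_cancel] at h8
  exact h8

end outside

end Pool.Agent.R389
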