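import Mathlib
import Pool.Agent.R389.Imp2
import Pool.Agent.R389.Dec

/-!
# Virtual characters modulo the good ones: imprimitive characters of degree two
-/

set_option autoImplicit false
set_option linter.unusedSectionVars false

namespace Pool.Agent.R389

open Pool.Agent.H302R2 Pool.Agent.H302R3 Pool.Agent.H541R3.ART Pool.Agent.W446.AS

variable {G : Type} [Group G] [Finite G] {θ : G → ℂ} {N : Subgroup G} {a b : N →* ℂˣ}

/-- the map of conjugation by `t` between subgroups -/
def cjm (t : G) (U : Subgroup G) : U →* U.map (MulAut.conj t).toMonoidHom where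
  toFun u := ⟨t * u * t⁻¹, u, u.2, rfl⟩
  map_one' := by apply Subtype.ext; simp
  map_mul' x y := by apply Subtype.ext; simp only [Subgroup.coe_mul]; group

/-- the other character -/
lemma Imp.other (hθ : HH θ) (h : Imp θ N a b) {g₀ : N}
    (hg₀ : ∀ n : N, (a / b) n ∈ Subgroup.zpowers ((a / b) g₀)) {U : Subgroup G} (hU : U ≤ N)
    (hy : Hyper U) {u : U} (hu : a ⟨u, hU u.2⟩ ≠ b ⟨u, hU u.2⟩) :
    ind U (lc (rc hU b)) - baseA g₀ a ∈ Good θ := by
  classical
  obtain ⟨t, ht⟩ := h.nt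
  set U' : Subgroup G := U.map (MulAut.conj t).toMonoidHom with hU'
  have hmem : ∀ z, z ∈ U ↔ t * z * t⁻¹ ∈ U' := by
    intro z
    constructor
    · intro hz
      exact ⟨z, hz, rfl⟩
    · rintro ⟨w, hw, hwz⟩
      have h1 : t * w * t⁻¹ = t * z * t⁻¹ := hwz
      have h2 : w = z := mul_left_cancel (mul_right_cancel h1)
      rw [← h2]; exact hw
  have hU'N : U' ≤ N := by
    rintro _ ⟨w, hw, rfl⟩
    exact h.conj_mem t (hU hw)
  have h1 : ind U (lc (rc hU b)) = ind U' (lc (rc hU'N a)) := by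
    refine ind_conj U' U t hmem _ _ fun z hz => ?_
    change ((b ⟨z, hU hz⟩ : ℂˣ) : ℂ) = ((a ⟨t * z * t⁻¹, hU'N ((hmem z).mp hz)⟩ : ℂˣ) : ℂ)
    rw [h.swap t ht ⟨z, hU hz⟩ (h.conj_mem t (hU hz))]
  have hy' : Hyper U' := hy.of_injective
    (U.equivMapOfInjective (MulAut.conj t).toMonoidHom (MulAut.conj t).injective).symm.toMonoidHom
    (U.equivMapOfInjective (MulAut.conj t).toMonoidHom (MulAut.conj t).injective).symm.injective
  rw [h1]
  have hu' : a ⟨t * u * t⁻¹, h.conj_mem t (hU u.2)⟩ ≠ b ⟨t * u * t⁻¹, h.conj_mem t (hU u.2)⟩ :=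
    h.conj_ne t (n := ⟨u, hU u.2⟩) hu
  exact lem1 hθ h.on hg₀ hU'N hy' (u := ⟨t * u * t⁻¹, (hmem u).mp u.2⟩) hu'

lemma pr_top (f f' : G → ℂ) :
    pr (fun u : (⊤ : Subgroup G) => f u) (fun u => f' u) = pr f f' := by
  classical
  have : Fintype G := Fintype.ofFinite G
  have : Fintype (⊤ : Subgroup G) := Fintype.ofFinite _
  rw [pr_eq, pr_eq]
  let e : (⊤ : Subgroup G) ≃ G := Subgroup.topEquiv.toEquiv
  rw [Nat.card_congr e, ← Equiv.sum_comp e (fun v => f v * f' v⁻¹)]
  rfl

/-- the multiplicities of `θ` -/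
lemma Imp.nat (h : Imp θ N a b) {χ : G → ℂ} (hχ : χ ∈ Irr G) : ∃ n : ℕ, pr χ θ = n := by
  classical
  obtain ⟨t, ht⟩ := h.nt
  have : Fintype (⊤ ⊓ N : Subgroup G) := Fintype.ofFinite _
  obtain ⟨m, hm⟩ := exists_mult hχ (⊤ ⊓ N) (rc (inf_le_right : ⊤ ⊓ N ≤ N) a)
  refine ⟨m, ?_⟩
  rw [pr_comm, ← pr_top, h.pr_res (Subgroup.mem_top t) ht (fun g x => Irr.conj hχ _ _), pr_comm,
    pr_eq]
  rw [finsum_eq_sum_of_fintype] at hm
  have h3 : (Nat.card (⊤ ⊓ N : Subgroup G) : ℂ) ≠ 0 := card_ne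
  have h4 : ∑ g : (⊤ ⊓ N : Subgroup G), χ g * lc (rc (inf_le_right : ⊤ ⊓ N ≤ N) a) g⁻¹
      = m * (Nat.card (⊤ ⊓ N : Subgroup G)) := by
    rw [← hm]
    refine Finset.sum_congr rfl fun g _ => ?_
    congr 1
    change ((rc (inf_le_right : ⊤ ⊓ N ≤ N) a g⁻¹ : ℂˣ) : ℂ) = _
    rw [map_inv]
  rw [h4]
  field_simp

lemma nat_closure {F : G → ℂ} (hF : ∀ χ ∈ Irr G, ∃ n : ℕ, pr χ F = n) {f : G → ℂ}
    (hf : f ∈ AddSubmonoid.closure (Irr G)) : ∃ n : ℕ, pr f F = n := by
  induction hf using AddSubmonoid.closure_induction with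
  | mem χ hχ => exact hF χ hχ
  | zero => exact ⟨0, by rw [pr_zero_left]; simp⟩
  | add x y _ _ hx hy =>
    obtain ⟨n, hn⟩ := hx
    obtain ⟨m, hm⟩ := hy
    exact ⟨n + m, by rw [pr_add, hn, hm]; push_cast; rfl⟩

/-- **The imprimitive case.** -/
theorem imp_decomp (hθ : HH θ) (h : Imp θ N a b) (hab : a ≠ b) :
    ∃ (Z : Subgroup G) (ω : Z →* ℂˣ), Hyper Z ∧ ∀ f : G → ℂ, Virt f → ∃ k : ℤ, pr f θ = k ∧
      f - k • ind Z (lc ω) ∈ Good θ := by
  classical
  obtain ⟨g₀, hg₀⟩ := exists_gen (a / b)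
  have h0 : a g₀ ≠ b g₀ := by
    intro h'
    apply hab
    ext g
    have h1 := hg₀ g
    rw [MonoidHom.div_apply, MonoidHom.div_apply, h', div_self', Subgroup.zpowers_one_eq_bot,
      Subgroup.mem_bot, div_eq_one] at h1
    exact congrArg Units.val h1
  refine ⟨Subgroup.zpowers (g₀ : G), rc (zle g₀) a, Hyper.cyclic _, fun f hf => ?_⟩
  have hbA : ind (Subgroup.zpowers (g₀ : G)) (lc (rc (zle g₀) a)) = baseA g₀ a := rfl
  rw [hbA]
  have hmon := virt_mem_mon hf
  clear hf
  induction hmon using AddSubgroup.closure_induction with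
  | zero => exact ⟨0, by rw [pr_zero_left]; simp, by
      rw [zero_smul, sub_zero]; exact zero_mem _⟩
  | add f f' _ _ ih ih' =>
    obtain ⟨k, h1, h2⟩ := ih
    obtain ⟨k', h1', h2'⟩ := ih'
    refine ⟨k + k', by rw [pr_add, h1, h1']; push_cast; rfl, ?_⟩
    have h3 := add_mem h2 h2'
    rw [add_smul]
    convert h3 using 1
    abel
  | neg f _ ih =>
    obtain ⟨k, h1, h2⟩ := ih
    refine ⟨-k, by rw [pr_neg, h1]; push_cast; rfl, ?_⟩
    have h3 := neg_mem h2
    rw [neg_smul]
    convert h3 using 1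
    abel
  | mem f hf =>
    obtain ⟨U, ψ, hU, rfl⟩ := hf
    have hpr : pr (ind U (fun u => ((ψ u : ℂˣ) : ℂ))) θ = pr (fun u : U => θ u) (lc ψ) := by
      rw [pr_comm, frob' U _ hθ.conj]
    rw [hpr]
    by_cases hz : pr (fun u : U => θ u) (lc ψ) = 0
    · refine ⟨0, by rw [hz]; simp, ?_⟩
      rw [zero_smul, sub_zero]
      refine AddSubgroup.subset_closure ⟨U, ψ, hU, rfl, ?_⟩
      rw [pr_comm, hpr, hz]
    by_cases hUN : U ≤ N
    · have h2 : pr (fun u : U => θ u) (lc ψ) = (if rc hUN a = ψ then 1 else 0)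
          + (if rc hUN b = ψ then 1 else 0) :=
        pr_two (rc hUN a) (rc hUN b) ψ (fun v => h.on ⟨v, _⟩)
      by_cases c1 : rc hUN a = ψ
      · by_cases c2 : rc hUN b = ψ
        · refine ⟨2, by rw [h2, if_pos c1, if_pos c2]; norm_num, ?_⟩
          have h3 := low hθ h.on hUN hU (c1.trans c2.symm) h0
          have h4 := h.other hθ hg₀ (zle g₀) (Hyper.cyclic _)
            (u := ⟨(g₀ : G), Subgroup.mem_zpowers _⟩) h0
          have h5 := add_mem h3 h4
          rw [c1, hbA] at h5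
          convert h5 using 1
          rw [two_smul]
          abel
        · refine ⟨1, by rw [h2, if_pos c1, if_neg c2]; norm_num, ?_⟩
          rw [one_smul]
          obtain ⟨u, hu⟩ : ∃ u : U, a ⟨u, hUN u.2⟩ ≠ b ⟨u, hUN u.2⟩ := by
            by_contra hcon
            push Not at hcon
            apply c2
            rw [← c1]
            ext u
            exact congrArg Units.val (hcon u).symm
          have h3 := lem1 hθ h.on hg₀ hUN hU (u := u) hu
          rw [c1] at h3
          exact h3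
      · by_cases c2 : rc hUN b = ψ
        · refine ⟨1, by rw [h2, if_neg c1, if_pos c2]; norm_num, ?_⟩
          rw [one_smul]
          obtain ⟨u, hu⟩ : ∃ u : U, a ⟨u, hUN u.2⟩ ≠ b ⟨u, hUN u.2⟩ := by
            by_contra hcon
            push Not at hcon
            apply c1
            rw [← c2]
            ext u
            exact congrArg Units.val (hcon u)
          have h3 := h.other hθ hg₀ hUN hU (u := u) hu
          rw [c2] at h3
          exact h3
        · exfalso
          apply hz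
          rw [h2, if_neg c1, if_neg c2, add_zero]
    · obtain ⟨u, hu, huN⟩ := Set.not_subset.mp hUN
      have hu : u ∈ U := hu
      have huN : u ∉ N := huN
      have h2 := h.pr_lin hu huN ψ
      have c1 : rc (inf_le_right : U ⊓ N ≤ N) a = rc (inf_le_left : U ⊓ N ≤ U) ψ := by
        by_contra c1
        apply hz
        rw [h2, if_neg c1]
      refine ⟨1, by rw [h2, if_pos c1]; simp, ?_⟩
      rw [one_smul]
      -- the two-part of `u`
      obtain ⟨k, m, hm, hkm⟩ := exists_odd_part (orderOf u) (orderOf_pos u).ne'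
      set t := u ^ m with ht
      have htk : t ^ (2 ^ k) = 1 := by
        rw [ht, ← pow_mul, mul_comm, ← hkm, pow_orderOf_eq_one]
      have htU : t ∈ U := U.pow_mem hu m
      have htN : t ∉ N := by
        obtain ⟨j, hj⟩ := hm
        intro h1
        rw [ht, hj, pow_succ, pow_mul] at h1
        have h2 : (u ^ 2) ^ j ∈ N := by
          apply N.pow_mem
          rw [pow_two]
          exact h.two _ _ huN huN
        exact huN ((Subgroup.mul_mem_cancel_left N h2).mp h1)
      have hle : Subgroup.zpowers t ≤ U := Subgroup.zpowers_le.mpr htU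
      have h3 : pr (fun v : Subgroup.zpowers t => θ v) (lc (rc hle ψ)) = 1 := by
        rw [h.pr_lin (Subgroup.mem_zpowers t) htN, if_pos]
        ext v
        have h4 := DFunLike.congr_fun c1 ⟨(v : G), hle v.2.1, v.2.2⟩
        exact congrArg Units.val h4
      have h4 := h.outside hθ hab hg₀ htN htk (rc hle ψ) h3
      have h5 := up hθ.conj hle hU (fun η hη => hθ.nat_irr hU hη) (rc hle ψ) h3 (lin_irr ψ) hz
        (by
          have h6 : (fun v : Subgroup.zpowers t => (fun h : U => ((ψ h : ℂˣ) : ℂ)) ⟨v, hle v.2⟩)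
            = lc (rc hle ψ) := rfl
          rw [h6, Pool.Agent.R389.pr_lin, if_pos rfl]
          exact one_ne_zero)
      have h6 := sub_mem h4 h5
      rw [sub_sub_sub_cancel_left] at h6
      exact h6

end Pool.Agent.R389
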