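import Mathlib
import Pool.Agent.R389.ImpDec
import Pool.Agent.H302R2.QF
import Pool.Agent.H302R2.Kernel
import Pool.Agent.H302R2.OddOrder

/-!
# Classification of the Heilbronn characters of degree two
-/

set_option autoImplicit false
set_option linter.unusedSectionVars false

namespace Pool.Agent.R389

open Pool.Agent.H302R2 Pool.Agent.H302R3 Pool.Agent.H541R3.ART Pool.Agent.W446.AS

variable {G : Type} [Group G] [Finite G] {θ : G → ℂ}

/-- the structure of the character induced from a subgroup of index two -/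
lemma imp_of_ind {K : Subgroup G} (hK : K.index = 2) (a : K →* ℂˣ) (hθ : θ = ind K (lc a)) :
    ∃ b, Imp θ K a b := by
  classical
  have : Fintype G := Fintype.ofFinite G
  have hKn : K.Normal := Subgroup.normal_of_index_eq_two hK
  have htwo : ∀ x y, x ∉ K → y ∉ K → x * y ∈ K := fun x y hx hy =>
    (Subgroup.mul_mem_iff_of_index_two hK).mpr ⟨fun h => absurd h hx, fun h => absurd h hy⟩
  obtain ⟨t, ht⟩ : ∃ t, t ∉ K := by
    by_contra hcon
    push Not at hcon
    have : K = ⊤ := by rw [eq_top_iff]; exact fun x _ => hcon x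
    rw [this, Subgroup.index_top] at hK
    omega
  let b : K →* ℂˣ := a.comp (MulAut.conjNormal t).toMonoidHom
  have hb : ∀ n : K, b n = a ⟨t * n * t⁻¹, hKn.conj_mem n n.2 t⟩ := by
    intro n
    change a (MulAut.conjNormal t n) = _
    congr 1
  have hswap : ∀ s, s ∉ K → ∀ (n : K) (h : s * n * s⁻¹ ∈ K), b n = a ⟨s * n * s⁻¹, h⟩ := by
    intro s hs n h
    rw [hb]
    have h1 : s * t⁻¹ ∈ K := htwo _ _ hs (fun h' => ht ((Subgroup.inv_mem_iff K).mp h'))
    have h2 := conj_a a h1 ⟨t * n * t⁻¹, hKn.conj_mem n n.2 t⟩ (hKn.conj_mem _ (hKn.conj_mem n n.2 t) _)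
    rw [← h2]
    congr 1
    apply Subtype.ext
    simp only
    group
  have hcard : (Nat.card G : ℂ) = 2 * Nat.card K := by
    have h1 := K.card_mul_index
    rw [hK] at h1
    rw [← h1]; push_cast; ring
  have hK0 : (Nat.card K : ℂ) ≠ 0 := card_ne
  refine ⟨b, ⟨fun n => ?_, fun g hg => ?_, ⟨t, ht⟩, htwo, hswap⟩⟩
  · rw [hθ, ind_eq]
    have hval : ∀ x : G, ext K (lc a) (x⁻¹ * n * x)
        = if x ∈ K then ((a n : ℂˣ) : ℂ) else ((b n : ℂˣ) : ℂ) := by
      intro x
      have hm : x⁻¹ * (n : G) * x⁻¹⁻¹ ∈ K := hKn.conj_mem n n.2 x⁻¹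
      have e0 : x⁻¹ * (n : G) * x = x⁻¹ * (n : G) * x⁻¹⁻¹ := by rw [inv_inv]
      rw [e0, ext_mem _ _ hm]
      by_cases hx : x ∈ K
      · rw [if_pos hx]
        change ((a ⟨x⁻¹ * (n : G) * x⁻¹⁻¹, hm⟩ : ℂˣ) : ℂ) = _
        rw [conj_a a (K.inv_mem hx) n hm]
      · rw [if_neg hx, hswap x⁻¹ (fun h' => hx ((Subgroup.inv_mem_iff K).mp h')) n hm]
    rw [Finset.sum_congr rfl (fun x _ => hval x)]
    have h1 := sum_half (Equiv.mulLeft t)
      (fun x : G => if x ∈ K then ((a n : ℂˣ) : ℂ) else ((b n : ℂˣ) : ℂ))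
      (((a n : ℂˣ) : ℂ) + ((b n : ℂˣ) : ℂ)) (by
        intro x
        by_cases hx : x ∈ K
        · have h' : ¬ (Equiv.mulLeft t x) ∈ K :=
            fun h' => ht ((Subgroup.mul_mem_cancel_right K hx).mp h')
          rw [if_pos hx, if_neg h']
        · have h' : (Equiv.mulLeft t x) ∈ K := htwo _ _ ht hx
          rw [if_neg hx, if_pos h', add_comm])
    rw [← Nat.card_eq_fintype_card, hcard] at h1
    have h2 : ∑ x : G, (if x ∈ K then ((a n : ℂˣ) : ℂ) else ((b n : ℂˣ) : ℂ))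
        = Nat.card K * (((a n : ℂˣ) : ℂ) + ((b n : ℂˣ) : ℂ)) := by
      apply mul_left_cancel₀ (two_ne_zero : (2 : ℂ) ≠ 0)
      rw [h1]; ring
    rw [h2, ← mul_assoc, inv_mul_cancel₀ hK0, one_mul]
  · rw [hθ, ind_eq, Finset.sum_eq_zero, mul_zero]
    intro x _
    apply ext_not
    intro h'
    apply hg
    have h3 := hKn.conj_mem _ h' x
    have e1 : x * (x⁻¹ * g * x) * x⁻¹ = g := by group
    rwa [e1] at h3

lemma ind_one_val (K : Subgroup G) (a : K →* ℂˣ) : ind K (lc a) 1 = K.index := by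
  classical
  have : Fintype G := Fintype.ofFinite G
  rw [ind_eq]
  have h1 : ∀ x : G, ext K (lc a) (x⁻¹ * 1 * x) = 1 := by
    intro x
    have e1 : x⁻¹ * 1 * x = 1 := by group
    rw [e1, ext_mem _ _ K.one_mem]
    change ((a 1 : ℂˣ) : ℂ) = 1
    rw [map_one, Units.val_one]
  rw [Finset.sum_congr rfl (fun x _ => h1 x), Finset.sum_const, Finset.card_univ, nsmul_eq_mul,
    mul_one, ← Nat.card_eq_fintype_card, ← K.card_mul_index]
  have hK0 : (Nat.card K : ℂ) ≠ 0 := card_ne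
  push_cast
  rw [← mul_assoc, inv_mul_cancel₀ hK0, one_mul]

/-- degree two on hyperelementary groups -/
theorem hyper_two (hy : Hyper G) (hθ : IsHeilbronn θ) (h1 : θ 1 = 2) :
    Split θ ∨ ∃ (N : Subgroup G) (a b : N →* ℂˣ), Imp θ N a b ∧ a ≠ b := by
  classical
  have : Fintype G := Fintype.ofFinite G
  have hc : ∀ g x : G, θ (x * g * x⁻¹) = θ g := hθ.conj
  have hnat : ∀ χ ∈ Irr G, ∃ n : ℕ, pr θ χ = n := by
    intro χ hχ
    obtain ⟨K, ψ, rfl⟩ := hy.mono hχ
    rw [frob' K _ hc, pr]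
    obtain ⟨n, hn⟩ := hθ.mult K ψ
    refine ⟨n, ?_⟩
    have h2 : ∑ᶠ g : K, θ g * ((ψ g⁻¹ : ℂˣ) : ℂ) = n * Nat.card K := by
      rw [← hn]
      refine finsum_congr fun g => ?_
      rw [map_inv]
    rw [h2]
    have h3 : (Nat.card K : ℂ) ≠ 0 := card_ne
    field_simp
  choose! n hn using hnat
  choose! d hd0 hd using fun (χ : G → ℂ) (hχ : χ ∈ Irr G) => irr_deg_pos hχ
  have hsum : (∑ χ ∈ irrF G, n χ * d χ : ℕ) = 2 := by
    have h2 := class_expand hc 1
    rw [h1] at h2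
    have h3 : ((∑ χ ∈ irrF G, n χ * d χ : ℕ) : ℂ) = 2 := by
      rw [h2]
      push_cast
      exact Finset.sum_congr rfl fun χ hχ => by
        rw [hn χ (mem_irrF.mp hχ), hd χ (mem_irrF.mp hχ)]
    exact_mod_cast h3
  obtain ⟨χ, hχF, hχ0⟩ : ∃ χ ∈ irrF G, n χ ≠ 0 := by
    by_contra hcon
    push Not at hcon
    rw [Finset.sum_eq_zero (fun χ hχ => by rw [hcon χ hχ, zero_mul])] at hsum
    omega
  have hχ := mem_irrF.mp hχF
  have hdpos := hd0 χ hχ
  have hdv := hd χ hχ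
  by_cases hd1 : d χ = 1
  · left
    rw [hd1] at hdv
    obtain ⟨lam, hlam⟩ := irr_deg_one hχ (by rw [hdv]; simp)
    obtain ⟨μ, hμ⟩ := hθ.two_contains h1 lam (by
      have h2 : ∑ᶠ g : G, θ g * (((lam g)⁻¹ : ℂˣ) : ℂ) = Nat.card G * pr θ χ := by
        rw [pr, ← mul_assoc, mul_inv_cancel₀ card_ne, one_mul]
        refine finsum_congr fun g => ?_
        rw [hlam, map_inv]
      rw [h2, hn χ hχ]
      exact mul_ne_zero card_ne (by exact_mod_cast hχ0))
    exact ⟨lam, μ, hμ⟩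
  · right
    have hs := Finset.add_sum_erase (irrF G) (fun χ => n χ * d χ) hχF
    rw [hsum] at hs
    have hn1 : 1 ≤ n χ := Nat.pos_of_ne_zero hχ0
    have hd2 : 2 ≤ d χ := by omega
    have h3 : 2 ≤ n χ * d χ := by nlinarith
    have h4 : n χ * d χ = 2 := by omega
    have h5 : ∑ χ' ∈ (irrF G).erase χ, n χ' * d χ' = 0 := by omega
    have h6 := Finset.sum_eq_zero_iff.mp h5
    have hn1' : n χ = 1 := by nlinarith
    have hd2' : d χ = 2 := by rw [hn1', one_mul] at h4; exact h4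
    have hθχ : θ = χ := by
      funext g
      rw [class_expand hc g, ← Finset.add_sum_erase _ _ hχF, hn χ hχ, hn1', Finset.sum_eq_zero]
      · simp
      · intro χ' hχ'
        have h7 := h6 χ' hχ'
        have h8 := mem_irrF.mp (Finset.mem_of_mem_erase hχ')
        rcases Nat.mul_eq_zero.mp h7 with h9 | h9
        · rw [hn χ' h8, h9]; simp
        · have := hd0 χ' h8
          omega
    obtain ⟨K, ψ, hKψ⟩ := hy.mono hχ
    have hidx : K.index = 2 := by
      have h7 := ind_one_val K ψ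
      have h8 : ind K (lc ψ) 1 = 2 := by
        have h9 := congrFun hKψ 1
        rw [hdv, hd2'] at h9
        rw [← h9]; norm_num
      rw [h8] at h7
      exact_mod_cast h7.symm
    obtain ⟨b, hb⟩ := imp_of_ind (θ := θ) hidx ψ (by rw [hθχ, hKψ])
    refine ⟨K, ψ, b, hb, ?_⟩
    intro hab
    have h7 : pr θ χ = 1 := by rw [hθχ]; exact pr_self hχ
    rw [hKψ, frob' K _ hc] at h7
    have h8 := pr_two ψ b ψ hb.on
    rw [if_pos rfl, if_pos hab.symm] at h8
    have h9 : pr (fun h : K => θ h) (lc ψ) = 1 := h7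
    rw [h9] at h8
    norm_num at h8

/-- pulling back along a surjection -/
lemma Imp.pull {X : Type} [Group X] {η : X → ℂ} {N : Subgroup X} {a b : N →* ℂˣ}
    (h : Imp η N a b) (hab : a ≠ b) (π : G →* X) (hπ : Function.Surjective π) :
    ∃ (N' : Subgroup G) (a' b' : N' →* ℂˣ), Imp (fun g => η (π g)) N' a' b' ∧ a' ≠ b' := by
  let p : N.comap π →* N :=
    { toFun := fun x => ⟨π x, x.2⟩
      map_one' := by apply Subtype.ext; simp
      map_mul' := by intro x y; apply Subtype.ext; simp }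
  refine ⟨N.comap π, a.comp p, b.comp p, ⟨fun n => ?_, fun g hg => ?_, ?_, fun x y hx hy => ?_,
    fun t ht n hm => ?_⟩, fun he => ?_⟩
  · exact h.on (p n)
  · exact h.off _ hg
  · obtain ⟨t, ht⟩ := h.nt
    obtain ⟨s, rfl⟩ := hπ t
    exact ⟨s, ht⟩
  · have := h.two (π x) (π y) hx hy
    rw [← map_mul] at this
    exact this
  · have hm' : π t * (p n : X) * (π t)⁻¹ ∈ N := by
      have h1 : π (t * n * t⁻¹) ∈ N := hm
      rw [map_mul, map_mul, map_inv] at h1
      exact h1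
    change b (p n) = a (p ⟨t * n * t⁻¹, hm⟩)
    rw [h.swap (π t) ht (p n) hm']
    congr 1
    apply Subtype.ext
    change π t * π n * (π t)⁻¹ = π (t * n * t⁻¹)
    rw [map_mul, map_mul, map_inv]
  · apply hab
    ext n
    obtain ⟨s, hs⟩ := hπ n
    have hs' : s ∈ N.comap π := by
      rw [Subgroup.mem_comap, hs]; exact n.2
    have h1 := DFunLike.congr_fun he ⟨s, hs'⟩
    have h2 : p ⟨s, hs'⟩ = n := Subtype.ext hs
    change a (p ⟨s, hs'⟩) = b (p ⟨s, hs'⟩) at h1
    rw [h2] at h1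
    exact congrArg Units.val h1

end Pool.Agent.R389
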