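import Mathlib
import Pool.Agent.R389.Class

/-!
# Classification of the Heilbronn characters of degree two, II
-/

set_option autoImplicit false
set_option linter.unusedSectionVars false

namespace Pool.Agent.R389

open Pool.Agent.H302R2 Pool.Agent.H302R3 Pool.Agent.H541R3.ART Pool.Agent.W446.AS

variable {G : Type} [Group G] [Finite G] {θ : G → ℂ}

/-- `ψ + ψ⁻¹ = 2` only if `ψ = 1` -/
lemma add_inv_two {H : Type} [Group H] [Finite H] (ψ : H →* ℂˣ) (x : H) :
    ((ψ x : ℂˣ) : ℂ) + (((ψ x)⁻¹ : ℂˣ) : ℂ) = 2 ↔ ψ x = 1 := by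
  constructor
  · intro h
    have h1 : ‖((ψ x : ℂˣ) : ℂ)‖ = 1 := norm_char ψ x
    have h2 : ‖(((ψ x)⁻¹ : ℂˣ) : ℂ)‖ = 1 := by
      rw [Units.val_inv_eq_inv_val, norm_inv, h1, inv_one]
    obtain ⟨h3, -⟩ := norm_avg_eq h1 h2 (ζ := 1) (by norm_num) (by rw [h]; norm_num)
    exact Units.ext h3
  · intro h
    rw [h]
    norm_num

/-- a closure of a conjugation invariant set is normal -/
lemma closure_normal {H : Type} [Group H] (s : Set H) (hs : ∀ g, ∀ x ∈ s, g * x * g⁻¹ ∈ s) :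
    (Subgroup.closure s).Normal := by
  refine ⟨fun x hx g => ?_⟩
  induction hx using Subgroup.closure_induction with
  | mem x hx => exact Subgroup.subset_closure (hs g x hx)
  | one => simp
  | mul x y _ _ h1 h2 =>
    have : g * (x * y) * g⁻¹ = (g * x * g⁻¹) * (g * y * g⁻¹) := by group
    rw [this]
    exact mul_mem h1 h2
  | inv x _ h1 =>
    have : g * x⁻¹ * g⁻¹ = (g * x * g⁻¹)⁻¹ := by group
    rw [this]
    exact inv_mem h1

/-- a Heilbronn character of degree two, equal to two on the elements of two-power order, splits -/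
lemma split_of_two {K : Type} [Group K] [Finite K] {θ : K → ℂ} (hθ : IsHeilbronn θ) (h1 : θ 1 = 2)
    (h2 : ∀ (x : K) (k : ℕ), x ^ (2 ^ k) = 1 → θ x = 2) : Split θ := by
  classical
  let s : Set K := {x | ∃ k : ℕ, x ^ (2 ^ k) = 1}
  have hsn : (Subgroup.closure s).Normal := by
    refine closure_normal s ?_
    rintro g x ⟨k, hk⟩
    exact ⟨k, by rw [conj_pow, hk]; simp⟩
  have hN : ∀ x ∈ Subgroup.closure s, θ x = 2 := by
    intro x hx
    have h3 : Subgroup.closure {y : Subgroup.closure s | ∃ k : ℕ, y ^ (2 ^ k) = 1} = ⊤ := by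
      have h4 := Subgroup.closure_closure_coe_preimage (k := s)
      rw [← h4]
      congr 1
      ext y
      constructor
      · rintro ⟨k, hk⟩
        exact ⟨k, by have := congrArg Subtype.val hk; simpa using this⟩
      · rintro ⟨k, hk⟩
        exact ⟨k, by apply Subtype.ext; simpa using hk⟩
    have h5 := kernel_two (hθ.comp (Subgroup.closure s).subtype) (by simpa using h1) h3
      (fun y k hk => h2 y k (by have := congrArg Subtype.val hk; simpa using this)) ⟨x, hx⟩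
    exact h5
  have hconst : ∀ g : K, ∀ n ∈ Subgroup.closure s, θ (g * n) = θ g := fun g n hn =>
    hθ.const_on_cosets h1 (Subgroup.closure s) hN g hn
  obtain ⟨a, m, hm, hcard⟩ := exists_odd_part (Nat.card K) Nat.card_pos.ne'
  have hodd : Odd (Nat.card (K ⧸ Subgroup.closure s)) := by
    by_contra hcon
    rw [Nat.not_odd_iff_even] at hcon
    have : Fact (Nat.Prime 2) := ⟨Nat.prime_two⟩
    obtain ⟨q, hq⟩ := exists_prime_orderOf_dvd_card' 2 (even_iff_two_dvd.mp hcon)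
    obtain ⟨x, rfl⟩ := QuotientGroup.mk_surjective q
    have h3 : x ^ m ∈ Subgroup.closure s := by
      refine Subgroup.subset_closure ⟨a, ?_⟩
      rw [← pow_mul, mul_comm, ← hcard, pow_card_eq_one']
    have h4 : ((x : K ⧸ Subgroup.closure s)) ^ m = 1 := by
      rw [← QuotientGroup.mk_pow]
      exact (QuotientGroup.eq_one_iff _).mpr h3
    have h5 := orderOf_dvd_of_pow_eq_one h4
    rw [hq] at h5
    exact (Nat.not_even_iff_odd.mpr hm) (even_iff_two_dvd.mpr h5)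
  have h6 := odd_split _ (K ⧸ Subgroup.closure s) rfl hodd (descend (Subgroup.closure s) θ)
    (hθ.descend _ hconst) (by
      have := descend_mk hconst 1
      rw [QuotientGroup.mk_one] at this
      rw [this, h1])
  have h7 := h6.comp (QuotientGroup.mk' (Subgroup.closure s))
  obtain ⟨ψ, φ, h8⟩ := h7
  refine ⟨ψ, φ, fun g => ?_⟩
  rw [← h8 g]
  exact (descend_mk hconst g).symm

/-- the classification when the determinant has two-power order and `θ` splits on a Sylow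
`2`-subgroup of its kernel -/
theorem classify1 (hθ : IsHeilbronn θ) (h1 : θ 1 = 2) {D : G →* ℂˣ}
    (hD : ∀ g, ((D g : ℂˣ) : ℂ) = dd θ g) {k : ℕ} (hDk : ∀ g, D g ^ (2 ^ k) = 1)
    (P : Sylow 2 D.ker) (hs : Split (fun x : P => θ ((x : D.ker) : G))) :
    Split θ ∨ ∃ (N : Subgroup G) (a b : N →* ℂˣ), Imp θ N a b ∧ a ≠ b := by
  classical
  have : Fact (Nat.Prime 2) := ⟨Nat.prime_two⟩
  -- the kernel of the determinant
  let N₀ : Subgroup G := D.ker
  have hN₀ : N₀ = D.ker := rfl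
  have hθ₀ : IsHeilbronn (fun x : N₀ => θ x) := hθ.comp N₀.subtype
  have hd₀ : ∀ x : N₀, dd (fun x : N₀ => θ x) x = 1 := by
    intro x
    have h2 : dd (fun x : N₀ => θ x) x = dd θ (x : G) := rfl
    rw [h2, ← hD, MonoidHom.mem_ker.mp x.2, Units.val_one]
  obtain ⟨φ, hφ, a, ha⟩ := exists_two_transfer hθ₀ hd₀ P hs
  obtain ⟨s, m, hm, hcard⟩ := exists_odd_part (Nat.card G) Nat.card_pos.ne'
  have hm2 : ∀ x : G, (x ^ m) ^ (2 ^ s) = 1 := by
    intro x
    rw [← pow_mul, mul_comm, ← hcard, pow_card_eq_one']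
  -- the subgroup `N₁`
  have hker : ∀ x : N₀, φ x = 1 ↔ θ ((x : G) ^ m) = 2 := by
    intro x
    have h2 : (x ^ m) ^ (2 ^ s) = 1 := by
      apply Subtype.ext
      simpa using hm2 x
    rw [← Subgroup.coe_pow, ← hφ (x ^ m) s h2, map_pow]
    constructor
    · intro h; rw [h, one_pow]
    · intro h
      refine eq_one_of_pow_coprime (m := m) (n := 2 ^ a) ?_ h (ha x)
      exact Nat.Coprime.pow_right _ (Nat.coprime_two_right.mpr hm)
  let N₁ : Subgroup G := φ.ker.map N₀.subtype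
  have hmem : ∀ x : G, x ∈ N₁ ↔ D x = 1 ∧ θ (x ^ m) = 2 := by
    intro x
    constructor
    · rintro ⟨y, hy, rfl⟩
      exact ⟨MonoidHom.mem_ker.mp y.2, (hker y).mp (MonoidHom.mem_ker.mp hy)⟩
    · rintro ⟨h2, h3⟩
      exact ⟨⟨x, MonoidHom.mem_ker.mpr h2⟩, MonoidHom.mem_ker.mpr ((hker _).mpr h3), rfl⟩
  have hN₁n : ∀ g x : G, x ∈ N₁ → g * x * g⁻¹ ∈ N₁ := by
    intro g x hx
    rw [hmem] at hx ⊢
    refine ⟨?_, ?_⟩
    · rw [map_mul, map_mul, map_inv, mul_comm (D g), mul_inv_cancel_right]; exact hx.1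
    · rw [conj_pow, hθ.conj]; exact hx.2
  have hpow : ∀ g : G, g ^ (2 ^ (k + a)) ∈ N₁ := by
    intro g
    have h2 : g ^ (2 ^ k) ∈ N₀ := by
      rw [hN₀, MonoidHom.mem_ker, map_pow, hDk]
    refine ⟨⟨g ^ (2 ^ k), h2⟩ ^ (2 ^ a), ?_, ?_⟩
    · rw [SetLike.mem_coe, MonoidHom.mem_ker, map_pow, ha]
    · simp only [Subgroup.coe_subtype, Subgroup.coe_pow]
      rw [← pow_mul, ← pow_add]
  -- splitting on `N₁`
  have hθ₁ : IsHeilbronn (fun x : N₁ => θ x) := hθ.comp N₁.subtype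
  obtain ⟨ψ, ψ', hψ⟩ : Split (fun x : N₁ => θ x) := by
    refine split_of_two hθ₁ h1 fun x j hj => ?_
    obtain ⟨y, hy, hyx⟩ := x.2
    have hyx' : (y : G) = x := hyx
    rw [← hyx']
    refine (hφ y j ?_).mp (MonoidHom.mem_ker.mp hy)
    apply Subtype.ext
    have := congrArg Subtype.val hj
    simp only [Subgroup.coe_pow, Subgroup.coe_one] at this ⊢
    rw [hyx', this]
  have hinv : ∀ x : N₁, ψ' x = (ψ x)⁻¹ := by
    intro x
    have h2 := dd_of_sum hψ x
    have h3 : dd (fun x : N₁ => θ x) x = dd θ (x : G) := rfl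
    rw [h3, ← hD, ((hmem x).mp x.2).1, Units.val_one, ← Units.val_mul] at h2
    have h4 : ψ x * ψ' x = 1 := Units.ext h2.symm
    exact eq_inv_of_mul_eq_one_right h4
  have hval : ∀ x : N₁, θ x = 2 ↔ ψ x = 1 := by
    intro x
    have h2 := hψ x
    simp only at h2
    rw [h2, hinv, add_inv_two]
  -- the kernel
  let N₃ : Subgroup G := ψ.ker.map N₁.subtype
  have hmem3 : ∀ x : G, x ∈ N₃ ↔ x ∈ N₁ ∧ θ x = 2 := by
    intro x
    constructor
    · rintro ⟨y, hy, rfl⟩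
      exact ⟨y.2, (hval y).mpr (MonoidHom.mem_ker.mp hy)⟩
    · rintro ⟨h2, h3⟩
      exact ⟨⟨x, h2⟩, MonoidHom.mem_ker.mpr ((hval ⟨x, h2⟩).mp h3), rfl⟩
  have hN₃ : N₃.Normal := by
    refine ⟨fun x hx g => ?_⟩
    rw [hmem3] at hx ⊢
    exact ⟨hN₁n g x hx.1, by rw [hθ.conj]; exact hx.2⟩
  have hconst : ∀ g : G, ∀ n ∈ N₃, θ (g * n) = θ g := fun g n hn =>
    hθ.const_on_cosets h1 N₃ (fun n hn => ((hmem3 n).mp hn).2) g hn
  -- the quotient is hyperelementary
  obtain ⟨g₁, hg₁⟩ := exists_gen (N := N₁) ψ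
  have hgen : ∀ x : N₁, ((x : G) : G ⧸ N₃) ∈ Subgroup.zpowers (((g₁ : N₁) : G) : G ⧸ N₃) := by
    intro x
    obtain ⟨i, hi⟩ := hg₁ x
    refine ⟨i, ?_⟩
    simp only at hi ⊢
    rw [← QuotientGroup.mk_zpow, QuotientGroup.eq]
    refine ⟨(g₁ ^ i)⁻¹ * x, ?_, ?_⟩
    · rw [SetLike.mem_coe, MonoidHom.mem_ker, map_mul, map_inv, map_zpow, hi, inv_mul_cancel]
    · simp
  have hyper : Hyper (G ⧸ N₃) := by
    refine ⟨2, Nat.prime_two, (((g₁ : N₁) : G) : G ⧸ N₃), ?_, fun u => ?_, fun u => ?_⟩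
    · have h2 : (((g₁ : N₁) : G) : G ⧸ N₃) ^ m = 1 := by
        rw [← QuotientGroup.mk_pow]
        refine (QuotientGroup.eq_one_iff _).mpr ?_
        rw [hmem3]
        exact ⟨N₁.pow_mem g₁.2 m, ((hmem _).mp g₁.2).2⟩
      exact Nat.Coprime.coprime_dvd_left (orderOf_dvd_of_pow_eq_one h2)
        (Nat.coprime_two_right.mpr hm)
    · obtain ⟨g, rfl⟩ := QuotientGroup.mk_surjective u
      exact hgen ⟨g * g₁ * g⁻¹, hN₁n g g₁ g₁.2⟩
    · obtain ⟨g, rfl⟩ := QuotientGroup.mk_surjective u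
      exact ⟨k + a, hgen ⟨g ^ (2 ^ (k + a)), hpow g⟩⟩
  have hone : descend N₃ θ 1 = 2 := by
    have := descend_mk hconst 1
    rw [QuotientGroup.mk_one] at this
    rw [this, h1]
  have hfun : (fun g : G => descend N₃ θ (QuotientGroup.mk' N₃ g)) = θ :=
    funext fun g => descend_mk hconst g
  rcases hyper_two hyper (hθ.descend N₃ hconst) hone with h2 | ⟨N, a', b', h2, h3⟩
  · left
    have h4 := h2.comp (QuotientGroup.mk' N₃)
    rw [hfun] at h4
    exact h4
  · right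
    obtain ⟨N', a'', b'', h4, h5⟩ := h2.pull h3 (QuotientGroup.mk' N₃)
      (QuotientGroup.mk'_surjective N₃)
    rw [hfun] at h4
    exact ⟨N', a'', b'', h4, h5⟩

/-- the classification when the determinant has two-power order -/
theorem classify0 (hθ : IsHeilbronn θ) (h1 : θ 1 = 2) (hQ : QF θ) {D : G →* ℂˣ}
    (hD : ∀ g, ((D g : ℂˣ) : ℂ) = dd θ g) {k : ℕ} (hDk : ∀ g, D g ^ (2 ^ k) = 1) :
    Split θ ∨ ∃ (N : Subgroup G) (a b : N →* ℂˣ), Imp θ N a b ∧ a ≠ b := by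
  classical
  have : Fact (Nat.Prime 2) := ⟨Nat.prime_two⟩
  let P : Sylow 2 D.ker := default
  have hθ₀ : IsHeilbronn (fun x : D.ker => θ x) := hθ.comp D.ker.subtype
  have hd₀ : ∀ x : D.ker, dd (fun x : D.ker => θ x) x = 1 := by
    intro x
    have h2 : dd (fun x : D.ker => θ x) x = dd θ (x : G) := rfl
    rw [h2, ← hD, MonoidHom.mem_ker.mp x.2, Units.val_one]
  refine classify1 hθ h1 hD hDk P ?_
  refine two_group_split _ P rfl P.isPGroup' (fun x : P => θ ((x : D.ker) : G)) ?_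
    (hθ₀.comp (P : Subgroup D.ker).subtype) h1 (fun g => hd₀ g)
  exact hQ.sub (D.ker.subtype.comp (P : Subgroup D.ker).subtype)
    (D.ker.subtype_injective.comp (P : Subgroup D.ker).subtype_injective)

end Pool.Agent.R389
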