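import Mathlib
import Pool.Agent.R389.Class2

/-!
# Classification of the Heilbronn characters of degree two, III
-/

set_option autoImplicit false
set_option linter.unusedSectionVars false

namespace Pool.Agent.R389

open Pool.Agent.H302R2 Pool.Agent.H302R3 Pool.Agent.H541R3.ART Pool.Agent.W446.AS

variable {G : Type} [Group G] [Finite G] {θ : G → ℂ}

lemma q8_pgroup : IsPGroup 2 (QuaternionGroup 2) := by
  have : NeZero 2 := ⟨two_ne_zero⟩
  refine IsPGroup.of_card (n := 3) ?_
  rw [Nat.card_eq_fintype_card, QuaternionGroup.card]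
  norm_num

/-- twisting an imprimitive character -/
lemma Imp.twist {N : Subgroup G} {a b : N →* ℂˣ} (h : Imp θ N a b) (δ : G →* ℂˣ) :
    Imp (fun g => θ g * ((δ g : ℂˣ) : ℂ)) N (a * δ.comp N.subtype) (b * δ.comp N.subtype) where
  on n := by
    simp only [h.on n, MonoidHom.mul_apply, MonoidHom.comp_apply, Subgroup.coe_subtype,
      Units.val_mul]
    ring
  off g hg := by simp only [h.off g hg, zero_mul]
  nt := h.nt
  two := h.two
  swap t ht n hm := by
    simp only [MonoidHom.mul_apply, MonoidHom.comp_apply, Subgroup.coe_subtype]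
    rw [h.swap t ht n hm, map_mul δ, map_mul δ, map_inv δ, mul_comm (δ t), mul_inv_cancel_right]

/-- **Classification of the Heilbronn characters of degree two without quaternion sections.** -/
theorem classify (hθ : IsHeilbronn θ) (h1 : θ 1 = 2) (hQ : QF θ) :
    Split θ ∨ ∃ (N : Subgroup G) (a b : N →* ℂˣ), Imp θ N a b ∧ a ≠ b := by
  classical
  have : Fact (Nat.Prime 2) := ⟨Nat.prime_two⟩
  obtain ⟨D, hD⟩ := hθ.exists_det h1
  obtain ⟨s, m, hm, hcard⟩ := exists_odd_part (Nat.card G) Nat.card_pos.ne'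
  have hDc : ∀ g, D g ^ (2 ^ s * m) = 1 := by
    intro g
    rw [← hcard, ← map_pow, pow_card_eq_one', map_one]
  obtain ⟨e, he⟩ : ∃ e, 2 * e = m + 1 := by
    obtain ⟨i, hi⟩ := hm
    exact ⟨i + 1, by omega⟩
  obtain ⟨f, hf⟩ : ∃ f, (m + 1) ^ (s + 1) = 1 + m * f := by
    have h2 : (m + 1) ^ (s + 1) ≡ 1 ^ (s + 1) [MOD m] := by
      apply Nat.ModEq.pow
      exact Nat.add_modEq_left
    rw [one_pow] at h2
    have h3 : 1 ≤ (m + 1) ^ (s + 1) := Nat.one_le_pow _ _ (by omega)
    obtain ⟨f, hf⟩ := (Nat.modEq_iff_dvd' h3).mp h2.symm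
    exact ⟨f, by omega⟩
  set j := e ^ (s + 1) * 2 ^ s with hj
  have hj2 : 2 * j = 1 + m * f := by
    rw [← hf, ← he, hj, mul_pow]
    ring
  let δ : G →* ℂˣ := D ^ j
  have hδ : ∀ g, δ g = D g ^ j := fun g => rfl
  set θ' : G → ℂ := fun g => θ g * (((δ g)⁻¹ : ℂˣ) : ℂ) with hθ'
  have hθ'H : IsHeilbronn θ' := hθ.twist δ
  have h1' : θ' 1 = 2 := by rw [hθ']; simp [h1]
  let D' : G →* ℂˣ := D * (δ ^ 2)⁻¹
  have hD'v : ∀ g, D' g = D g * ((δ g) ^ 2)⁻¹ := fun g => rfl
  have hD' : ∀ g, ((D' g : ℂˣ) : ℂ) = dd θ' g := by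
    intro g
    rw [hD'v, Units.val_mul, hD, dd, dd, hθ']
    simp only [map_pow]
    have h3 : ((δ g : ℂˣ) : ℂ) ≠ 0 := Units.ne_zero _
    push_cast
    field_simp
  have hD'k : ∀ g, D' g ^ (2 ^ s) = 1 := by
    intro g
    have h3 : (δ g ^ 2) = D g * D g ^ (m * f) := by
      rw [hδ, ← pow_mul, mul_comm j 2, hj2, pow_add, pow_one]
    rw [hD'v, h3, mul_inv, ← mul_assoc, mul_inv_cancel, one_mul, inv_pow, ← pow_mul]
    have h4 : m * f * 2 ^ s = (2 ^ s * m) * f := by ring
    rw [h4, pow_mul, hDc, one_pow, inv_one]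
  have hQ' : QF θ' := by
    intro H F hF hθF
    let P : Sylow 2 H := default
    let H' : Subgroup G := (P : Subgroup H).map H.subtype
    let eq := (P : Subgroup H).equivMapOfInjective H.subtype H.subtype_injective
    refine hQ H' ((F.comp (P : Subgroup H).subtype).comp eq.symm.toMonoidHom) ?_ ?_
    · have h3 : Function.Surjective (F.comp (P : Subgroup H).subtype) := by
        have h4 := (P.mapSurjective hF).is_maximal' (Q := ⊤) (q8_pgroup.to_subgroup ⊤) le_top
        intro y
        have h5 : y ∈ ((P.mapSurjective hF : Sylow 2 (QuaternionGroup 2)) :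
            Subgroup (QuaternionGroup 2)) := by
          rw [← h4]; exact Subgroup.mem_top y
        rw [Sylow.coe_mapSurjective] at h5
        obtain ⟨x, hx, hxy⟩ := h5
        exact ⟨⟨x, hx⟩, hxy⟩
      exact h3.comp eq.symm.surjective
    · intro h
      obtain ⟨x, rfl⟩ := eq.surjective h
      have e1 : ((eq x : H') : G) = ((x : H) : G) := rfl
      have e2 : ((F.comp (P : Subgroup H).subtype).comp eq.symm.toMonoidHom) (eq x) = F x := by
        change F ((eq.symm (eq x) : P) : H) = F x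
        rw [MulEquiv.symm_apply_apply]
      rw [e1, e2, ← hθF x]
      have h3 : δ ((x : H) : G) = 1 := by
        obtain ⟨i, hi⟩ := P.isPGroup' x
        refine eq_one_of_pow_coprime (m := m) (n := 2 ^ i) ?_ ?_ ?_
        · exact Nat.Coprime.pow_right _ (Nat.coprime_two_right.mpr hm)
        · rw [hδ, ← pow_mul, hj]
          have h4 : e ^ (s + 1) * 2 ^ s * m = 2 ^ s * m * e ^ (s + 1) := by ring
          rw [h4, pow_mul, hDc, one_pow]
        · rw [← map_pow]
          have h4 : (((x : H) : G)) ^ (2 ^ i) = 1 := by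
            have h5 := congrArg (fun z : P => ((z : H) : G)) hi
            simpa using h5
          rw [h4, map_one]
      rw [hθ']
      simp only [h3, inv_one, Units.val_one, mul_one]
  have hback : (fun g => θ' g * ((δ g : ℂˣ) : ℂ)) = θ := by
    funext g
    rw [hθ']
    simp only
    rw [mul_assoc, ← Units.val_mul, inv_mul_cancel, Units.val_one, mul_one]
  rcases classify0 hθ'H h1' hQ' hD' hD'k with ⟨ψ, φ, h2⟩ | ⟨N, a, b, h2, h3⟩
  · left
    refine ⟨ψ * δ, φ * δ, fun g => ?_⟩
    rw [← congrFun hback g]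
    simp only [h2 g, MonoidHom.mul_apply, Units.val_mul]
    ring
  · right
    have h4 := h2.twist δ
    rw [hback] at h4
    refine ⟨N, _, _, h4, fun h5 => h3 ?_⟩
    exact mul_right_cancel h5

end Pool.Agent.R389
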