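import Mathlib
import Pool.Agent.R389.Nil
import Pool.Agent.R389.Dec

/-!
# Brauer's induction theorem with nilpotent subgroups
-/

set_option autoImplicit false
set_option linter.unusedSectionVars false

namespace Pool.Agent.R389

open Pool.Agent.H302R2 Pool.Agent.H302R3 Pool.Agent.H541R3.ART Pool.Agent.W446.AS

/-- fixed points of an `r`-group in a coset of a subgroup of order prime to `r` -/
lemma fix_coset {G : Type} [Group G] [Finite G] {r : ℕ} (hr : r.Prime) {R T₀ : Subgroup G}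
    (hR : IsPGroup r R) (hn : ∀ v ∈ R, ∀ x ∈ T₀, v * x * v⁻¹ ∈ T₀) (hc : ¬ r ∣ Nat.card T₀) {t : G}
    (ht : ∀ v ∈ R, t⁻¹ * (v * t * v⁻¹) ∈ T₀) :
    ∃ t', t⁻¹ * t' ∈ T₀ ∧ ∀ v ∈ R, v * t' = t' * v := by
  have : Fact r.Prime := ⟨hr⟩
  let α := {z : G // t⁻¹ * z ∈ T₀}
  have hact : ∀ v ∈ R, ∀ z : G, t⁻¹ * z ∈ T₀ → t⁻¹ * (v * z * v⁻¹) ∈ T₀ := by
    intro v hv z hz
    have h1 : t⁻¹ * (v * z * v⁻¹) = t⁻¹ * (v * t * v⁻¹) * (v * (t⁻¹ * z) * v⁻¹) := by group
    rw [h1]
    exact mul_mem (ht v hv) (hn v hv _ hz)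
  let _ : MulAction R α :=
    { smul := fun v z => ⟨v * z.1 * (v : G)⁻¹, hact v v.2 z.1 z.2⟩
      one_smul := by
        intro z
        apply Subtype.ext
        change ((1 : R) : G) * z.1 * ((1 : R) : G)⁻¹ = z.1
        simp
      mul_smul := by
        intro v w z
        apply Subtype.ext
        change ((v * w : R) : G) * z.1 * ((v * w : R) : G)⁻¹ = v * (w * z.1 * (w : G)⁻¹) * (v : G)⁻¹
        simp only [Subgroup.coe_mul]
        group }
  have hα : Nat.card α = Nat.card T₀ := by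
    refine Nat.card_congr ⟨fun z => ⟨t⁻¹ * z.1, z.2⟩, fun x => ⟨t * x.1, by
      rw [inv_mul_cancel_left]; exact x.2⟩, fun z => ?_, fun x => ?_⟩
    · apply Subtype.ext; simp
    · apply Subtype.ext; simp
  obtain ⟨z, hz⟩ := hR.nonempty_fixed_point_of_prime_not_dvd_card α (by rw [hα]; exact hc)
  refine ⟨z.1, z.2, fun v hv => ?_⟩
  have h1 := congrArg Subtype.val (hz ⟨v, hv⟩)
  change v * z.1 * v⁻¹ = z.1 at h1
  exact mul_inv_eq_iff_eq_mul.mp h1

/-- generated by the characters induced from linear characters of nilpotent subgroups -/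
def PN (U : Type) [Group U] : AddSubgroup (U → ℂ) :=
  AddSubgroup.closure {f | ∃ (V : Subgroup U) (ψ : V →* ℂˣ), Group.IsNilpotent V ∧
    f = ind V (fun h => ((ψ h : ℂˣ) : ℂ))}

/-- products in commuting subgroups -/
lemma mem_csup {G : Type} [Group G] {P Q : Subgroup G} (hc : ∀ x ∈ P, ∀ y ∈ Q, x * y = y * x)
    {z : G} : z ∈ P ⊔ Q ↔ ∃ x ∈ P, ∃ y ∈ Q, z = x * y := by
  constructor
  · intro hz
    let R : Subgroup G :=
      { carrier := {z | ∃ x ∈ P, ∃ y ∈ Q, z = x * y}
        one_mem' := ⟨1, one_mem _, 1, one_mem _, by simp⟩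
        mul_mem' := by
          rintro _ _ ⟨x, hx, y, hy, rfl⟩ ⟨x', hx', y', hy', rfl⟩
          refine ⟨x * x', mul_mem hx hx', y * y', mul_mem hy hy', ?_⟩
          have h1 := hc x' hx' y hy
          calc x * y * (x' * y') = x * (y * x') * y' := by group
            _ = x * (x' * y) * y' := by rw [h1]
            _ = _ := by group
        inv_mem' := by
          rintro _ ⟨x, hx, y, hy, rfl⟩
          refine ⟨x⁻¹, inv_mem hx, y⁻¹, inv_mem hy, ?_⟩
          rw [mul_inv_rev]
          exact (hc _ (inv_mem hx) _ (inv_mem hy)).symm }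
    have h1 : P ⊔ Q ≤ R := by
      refine sup_le ?_ ?_
      · intro x hx
        exact ⟨x, hx, 1, one_mem _, by simp⟩
      · intro y hy
        exact ⟨1, one_mem _, y, hy, by simp⟩
    exact h1 hz
  · rintro ⟨x, hx, y, hy, rfl⟩
    exact Subgroup.mul_mem_sup hx hy

/-- commuting nilpotent subgroups -/
lemma nil_sup {G : Type} [Group G] {P Q : Subgroup G} (hP : Group.IsNilpotent P)
    (hQ : Group.IsNilpotent Q) (hc : ∀ x ∈ P, ∀ y ∈ Q, x * y = y * x) :
    Group.IsNilpotent (P ⊔ Q : Subgroup G) := by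
  let f : P × Q →* (P ⊔ Q : Subgroup G) :=
    { toFun := fun z => ⟨(z.1 : G) * z.2, Subgroup.mul_mem_sup z.1.2 z.2.2⟩
      map_one' := by apply Subtype.ext; simp
      map_mul' := by
        intro a b
        apply Subtype.ext
        change (a.1 : G) * b.1 * (a.2 * b.2) = a.1 * a.2 * (b.1 * b.2)
        have h1 := hc _ b.1.2 _ a.2.2
        calc (a.1 : G) * b.1 * (a.2 * b.2) = a.1 * (b.1 * a.2) * b.2 := by group
          _ = a.1 * (a.2 * b.1) * b.2 := by rw [h1]
          _ = _ := by group }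
  refine Group.nilpotent_of_surjective f ?_
  rintro ⟨z, hz⟩
  obtain ⟨x, hx, y, hy, rfl⟩ := (mem_csup hc).mp hz
  exact ⟨(⟨x, hx⟩, ⟨y, hy⟩), rfl⟩

section brauer

variable {U : Type} [Group U] [Finite U]

/-- inducing from a subgroup -/
lemma ind_pn (H : Subgroup U) {f : H → ℂ} (hf : f ∈ PN H) : ind H f ∈ PN U := by
  have h1 : PN H ≤ (PN U).comap (indHom H) := by
    rw [PN, AddSubgroup.closure_le]
    rintro f ⟨V, ψ, hV, rfl⟩
    rw [SetLike.mem_coe, AddSubgroup.mem_comap, indHom_apply, ind_ind]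
    refine AddSubgroup.subset_closure ⟨V.map H.subtype, ψ.comp
      (V.equivMapOfInjective H.subtype H.subtype_injective).symm.toMonoidHom, ?_, rfl⟩
    exact Group.nilpotent_of_mulEquiv (V.equivMapOfInjective H.subtype H.subtype_injective)
  exact h1 hf

/-- twisting by a linear character -/
lemma tw_pn (lam : U →* ℂˣ) {f : U → ℂ} (hf : f ∈ PN U) :
    (fun u => f u * ((lam u : ℂˣ) : ℂ)) ∈ PN U := by
  have h1 : PN U ≤ (PN U).comap (twHom lam) := by
    rw [PN, AddSubgroup.closure_le]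
    rintro f ⟨V, ψ, hV, rfl⟩
    rw [SetLike.mem_coe, AddSubgroup.mem_comap]
    refine AddSubgroup.subset_closure ⟨V, ψ * lam.comp V.subtype, hV, ?_⟩
    funext g
    change ind V (fun h => ((ψ h : ℂˣ) : ℂ)) g * ((lam g : ℂˣ) : ℂ) = _
    rw [← ind_mul V (fun h => ((ψ h : ℂˣ) : ℂ)) (F := fun g => ((lam g : ℂˣ) : ℂ))
      (lin_conj lam) g]
    congr 1
  exact h1 hf

/-- the trivial character of a hyperelementary group -/
lemma pn_one : ∀ (n : ℕ) (U : Type) [Group U] [Finite U], Nat.card U = n → Hyper U →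
    (fun _ => 1 : U → ℂ) ∈ PN U := by
  intro n
  induction n using Nat.strong_induction_on with
  | _ n ih =>
  intro U _ _ hn hU
  classical
  have : Fintype U := Fintype.ofFinite U
  have hU0 := hU
  obtain ⟨p, hp, c, hcop, hcn, hpw⟩ := hU
  have : Fact p.Prime := ⟨hp⟩
  let C : Subgroup U := Subgroup.zpowers c
  have hCn : C.Normal := ⟨fun x hx u => conj_zpowers hcn u hx⟩
  have hQ : IsPGroup p (U ⧸ C) := by
    intro q
    obtain ⟨u, rfl⟩ := QuotientGroup.mk_surjective q
    obtain ⟨k, hk⟩ := hpw u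
    refine ⟨k, ?_⟩
    rw [← QuotientGroup.mk_pow]
    exact (QuotientGroup.eq_one_iff _).mpr hk
  obtain ⟨Q⟩ : Nonempty (Sylow p U) := inferInstance
  have hQC := sylow_sup hp C hQ Q
  let K : Subgroup U := commutator U
  let C₀ : Subgroup U := C ⊓ Subgroup.centralizer (Q : Subgroup U)
  have hcomm : ∀ x ∈ C₀, ∀ y ∈ (Q : Subgroup U), x * y = y * x := by
    intro x hx y hy
    exact ((Subgroup.mem_centralizer_iff.mp hx.2) y hy).symm
  let E : Subgroup U := C₀ ⊔ (Q : Subgroup U)
  have hE : Group.IsNilpotent E := by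
    refine nil_sup ?_ Q.isPGroup'.isNilpotent hcomm
    have h1 : ∀ a b : C₀, a * b = b * a := by
      intro a b
      have h2 := zpowers_comm c ⟨a, a.2.1⟩ ⟨b, b.2.1⟩
      have h3 : (a : U) * b = b * a := congrArg Subtype.val h2
      exact Subtype.ext h3
    let _ : CommGroup C₀ := { (inferInstance : Group C₀) with mul_comm := h1 }
    exact CommGroup.isNilpotent
  -- `E` maps onto the abelianization
  have hEK : ∀ g : U, ∃ x ∈ E, ∃ k ∈ K, g = x * k := by
    have h1 : ∀ x ∈ C, ∃ y ∈ C₀, x⁻¹ * y ∈ K := by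
      intro x hx
      have hcard : ¬ p ∣ Nat.card (C ⊓ K : Subgroup U) := by
        intro hd
        have h2 : Nat.card (C ⊓ K : Subgroup U) ∣ Nat.card C :=
          Subgroup.card_dvd_of_le inf_le_left
        have h3 : p ∣ orderOf c := by
          rw [← Nat.card_zpowers]; exact hd.trans h2
        exact hp.one_lt.ne' (Nat.dvd_one.mp (hcop ▸ Nat.dvd_gcd h3 dvd_rfl))
      have hcom : ∀ v : U, x⁻¹ * (v * x * v⁻¹) ∈ K := by
        intro v
        have h3 := Subgroup.commutator_mem_commutator (H₁ := (⊤ : Subgroup U)) (H₂ := ⊤)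
          (Subgroup.mem_top x⁻¹) (Subgroup.mem_top v)
        rw [commutatorElement_def, inv_inv] at h3
        have h4 : x⁻¹ * (v * x * v⁻¹) = x⁻¹ * v * x * v⁻¹ := by group
        rw [h4]
        exact h3
      obtain ⟨y, hy, hyv⟩ := fix_coset hp Q.isPGroup' (T₀ := C ⊓ K) (t := x)
        (fun v _ z hz => ⟨hCn.conj_mem _ hz.1 v,
          (inferInstance : K.Normal).conj_mem _ hz.2 v⟩) hcard
        (fun v _ => Subgroup.mem_inf.mpr ⟨C.mul_mem (C.inv_mem hx) (hCn.conj_mem _ hx v), hcom v⟩)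
      refine ⟨y, Subgroup.mem_inf.mpr ⟨?_, ?_⟩, hy.2⟩
      · have h2 := C.mul_mem hx hy.1
        rwa [mul_inv_cancel_left] at h2
      · rw [Subgroup.mem_centralizer_iff]
        intro v hv
        exact hyv v hv
    intro g
    obtain ⟨y, hy, x, hx, rfl⟩ := hQC g
    obtain ⟨x', hx', hk⟩ := h1 x hx
    refine ⟨x' * y, mul_mem (Subgroup.mem_sup_left hx') (Subgroup.mem_sup_right hy),
      (x' * y)⁻¹ * (y * x), ?_, by group⟩
    have h2 : (x' * y)⁻¹ * (y * x) = y⁻¹ * (x⁻¹ * x')⁻¹ * y * (y⁻¹ * x⁻¹ * y * x) := by group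
    rw [h2]
    refine mul_mem ?_ ?_
    · have h3 := (inferInstance : K.Normal).conj_mem _ (inv_mem hk) y⁻¹
      rwa [inv_inv] at h3
    · have h3 := Subgroup.commutator_mem_commutator (H₁ := (⊤ : Subgroup U)) (H₂ := ⊤)
        (Subgroup.mem_top y⁻¹) (Subgroup.mem_top x⁻¹)
      rw [commutatorElement_def, inv_inv, inv_inv] at h3
      exact h3
  have h1 : ∀ D ∈ AddSubgroup.closure (Irr U), D - inv K D ∈ PN U := by
    intro D hD
    have h2 : AddSubgroup.closure (Irr U) ≤ (PN U).comap (AddMonoidHom.id _ - invHom K) := by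
      rw [AddSubgroup.closure_le]
      intro χ hχ
      rw [SetLike.mem_coe, AddSubgroup.mem_comap]
      change χ - inv K χ ∈ PN U
      rcases irr_inv K hχ with h | ⟨⟨k, hk, hne⟩, h⟩
      · rw [inv_of_const _ h, sub_self]
        exact zero_mem _
      · rw [h, sub_zero]
        obtain ⟨V, ψ, rfl⟩ := hU0.mono hχ
        have hV : V ≠ ⊤ := by
          rintro rfl
          apply hne
          have h3 : ∀ g : U, ind (⊤ : Subgroup U) (fun h => ((ψ h : ℂˣ) : ℂ)) g
              = ((ψ ⟨g, Subgroup.mem_top g⟩ : ℂˣ) : ℂ) := by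
            intro g
            rw [ind_eq]
            have h4 : ∀ x : U, ext ⊤ (fun h : (⊤ : Subgroup U) => ((ψ h : ℂˣ) : ℂ))
                (x⁻¹ * g * x) = ((ψ ⟨g, Subgroup.mem_top g⟩ : ℂˣ) : ℂ) := by
              intro x
              rw [ext_mem _ _ (Subgroup.mem_top _)]
              have h5 : (⟨x⁻¹ * g * x, Subgroup.mem_top _⟩ : (⊤ : Subgroup U))
                  = ⟨x, Subgroup.mem_top _⟩⁻¹ * ⟨g, Subgroup.mem_top _⟩ * ⟨x, Subgroup.mem_top _⟩ :=
                rfl
              rw [h5, map_mul, map_mul, map_inv, mul_comm (ψ _)⁻¹, inv_mul_cancel_right]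
            rw [Finset.sum_congr rfl (fun x _ => h4 x), Finset.sum_const, Finset.card_univ,
              nsmul_eq_mul, ← Nat.card_eq_fintype_card, Subgroup.card_top, ← mul_assoc,
              inv_mul_cancel₀ card_ne, one_mul]
          rw [h3, h3]
          have h6 := Abelianization.commutator_subset_ker
            (ψ.comp (Subgroup.topEquiv.symm : U ≃* (⊤ : Subgroup U)).toMonoidHom) hk
          rw [MonoidHom.mem_ker] at h6
          have h7 : ψ ⟨k, Subgroup.mem_top k⟩ = 1 := h6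
          have h8 : (⟨1, Subgroup.mem_top 1⟩ : (⊤ : Subgroup U)) = 1 := rfl
          rw [h7, h8, map_one]
        have hlt : Nat.card V < n := by
          rw [← hn]
          rcases lt_or_eq_of_le (Nat.le_of_dvd Nat.card_pos V.card_subgroup_dvd_card) with h | h
          · exact h
          · exact absurd (Subgroup.eq_top_of_card_eq V h) hV
        have h3 := ih _ hlt V rfl (hU0.of_injective V.subtype V.subtype_injective)
        have h4 := tw_pn ψ h3
        simp only [one_mul] at h4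
        exact ind_pn V h4
    exact h2 hD
  have htriv : (fun _ => 1 : U → ℂ) ∈ AddSubgroup.closure (Irr U) := by
    have := lin_irr (1 : U →* ℂˣ)
    simp only [MonoidHom.one_apply, Units.val_one] at this
    exact AddSubgroup.subset_closure this
  have hindv : Virt (ind E (fun _ => (1 : ℂ))) := by
    have h3 := lin_irr (1 : E →* ℂˣ)
    simp only [MonoidHom.one_apply, Units.val_one] at h3
    exact virt_ind E (AddSubgroup.subset_closure h3)
  have h2 := h1 _ (sub_mem htriv hindv)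
  have h3 : inv K ((fun _ => 1 : U → ℂ) - ind E (fun _ => (1 : ℂ))) = 0 := by
    have h4 : inv K ((fun _ => 1 : U → ℂ) - ind E (fun _ => (1 : ℂ)))
        = inv K (fun _ => 1 : U → ℂ) - inv K (ind E (fun _ => (1 : ℂ))) :=
      map_sub (invHom K) _ _
    rw [h4, inv_of_const K (fun _ _ _ => rfl)]
    funext g
    rw [Pi.sub_apply]
    obtain ⟨x, hx, k, hk, rfl⟩ := hEK g
    have h5 := inv_ind_of_surj K E hEK (F := fun _ => (1 : ℂ)) (fun _ _ => rfl)
      (fun _ _ _ => rfl) ⟨x, hx⟩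
    rw [inv_mul_mem _ _ _ hk]
    rw [h5, sub_self]
    rfl
  rw [h3, sub_zero] at h2
  have h4 : (fun _ => 1 : U → ℂ) = ((fun _ => 1 : U → ℂ) - ind E (fun _ => (1 : ℂ)))
      + ind E (fun _ => (1 : ℂ)) := by abel
  rw [h4]
  refine add_mem h2 (AddSubgroup.subset_closure ⟨E, 1, hE, ?_⟩)
  simp only [MonoidHom.one_apply, Units.val_one]

/-- **Brauer's induction theorem** -/
theorem one_mem_pn : (fun _ => 1 : U → ℂ) ∈ PN U := by
  refine (AddSubgroup.closure_le (PN U)).mpr ?_ (one_mem_sol (G := U))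
  rintro f ⟨V, hV, rfl⟩
  exact ind_pn V (pn_one _ V rfl hV)

end brauer

end Pool.Agent.R389
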