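import Mathlib
import Pool.Agent.R389.Class3
import Pool.Agent.R389.Main

/-!
# The quaternion character and virtual characters of norm one
-/

set_option autoImplicit false
set_option linter.unusedSectionVars false

namespace Pool.Agent.R389

open Pool.Agent.H302R2 Pool.Agent.H302R3 Pool.Agent.H541R3.ART Pool.Agent.W446.AS Filter Topology

variable {G : Type} [Group G] [Finite G]

/-- virtual characters of norm one -/
lemma irr_of_norm {f : G → ℂ} (hf : Virt f) (hn : pr f f = 1) {d : ℕ} (hd : f 1 = d) : f ∈ Irr G := by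
  classical
  have h1 : ((∑ χ ∈ irrF G, mult f χ ^ 2 : ℤ) : ℂ) = 1 := by
    have h2 := pr_expand (F := f) hf.conj
    rw [hn] at h2
    rw [h2]
    push_cast
    exact Finset.sum_congr rfl fun χ hχ => by rw [mult_spec hf (mem_irrF.mp hχ), pow_two]
  have h2 : ∑ χ ∈ irrF G, mult f χ ^ 2 = 1 := by exact_mod_cast h1
  obtain ⟨χ, hχ, hχ0⟩ : ∃ χ ∈ irrF G, mult f χ ≠ 0 := by
    by_contra hcon
    push Not at hcon
    rw [Finset.sum_eq_zero (fun χ hχ => by rw [hcon χ hχ]; norm_num)] at h2
    omega
  have h3 := Finset.add_sum_erase (irrF G) (fun χ => mult f χ ^ 2) hχ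
  rw [h2] at h3
  have h4 : 0 ≤ ∑ χ' ∈ (irrF G).erase χ, mult f χ' ^ 2 :=
    Finset.sum_nonneg fun χ' _ => sq_nonneg _
  have h5 : 0 < mult f χ ^ 2 := by positivity
  have h6 : mult f χ ^ 2 = 1 := by omega
  have h7 : ∑ χ' ∈ (irrF G).erase χ, mult f χ' ^ 2 = 0 := by omega
  have h8 := (Finset.sum_eq_zero_iff_of_nonneg (fun χ' _ => sq_nonneg _)).mp h7
  have h9 : ∀ g, f g = (mult f χ : ℂ) * χ g := by
    intro g
    rw [class_expand hf.conj g, ← Finset.add_sum_erase _ _ hχ, mult_spec hf (mem_irrF.mp hχ),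
      Finset.sum_eq_zero, add_zero]
    intro χ' hχ'
    have h10 : mult f χ' = 0 := by
      have := h8 χ' hχ'
      exact pow_eq_zero_iff two_ne_zero |>.mp this
    rw [mult_spec hf (mem_irrF.mp (Finset.mem_of_mem_erase hχ')), h10]
    simp
  have h10 : (mult f χ - 1) * (mult f χ + 1) = 0 := by linear_combination h6
  rcases mul_eq_zero.mp h10 with h11 | h11
  · have h12 : f = χ := by
      funext g
      rw [h9 g, show mult f χ = 1 by omega]
      simp
    rw [h12]
    exact mem_irrF.mp hχ
  · exfalso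
    have h12 := h9 1
    obtain ⟨e, he, he1⟩ := irr_deg_pos (mem_irrF.mp hχ)
    rw [hd, he1, show mult f χ = -1 by omega] at h12
    have h13 : (d : ℤ) = -1 * (e : ℤ) := by exact_mod_cast h12
    omega

/-- integral form of the quaternion character -/
def qz : QuaternionGroup 2 → ℤ
  | QuaternionGroup.a i => if i = 0 then 2 else if i = 2 then -2 else 0
  | QuaternionGroup.xa _ => 0

lemma quat_qz (x : QuaternionGroup 2) : quatChar x = qz x := by
  cases x with
  | a i =>
    simp only [quatChar, qz]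
    split_ifs <;> simp
  | xa i => simp [quatChar, qz]

lemma qz_sum : ∑ x : QuaternionGroup 2, qz x * qz x⁻¹ = 8 := by
  decide

lemma quat_norm {H : Type} [Group H] [Finite H] (f : H →* QuaternionGroup 2)
    (hf : Function.Surjective f) :
    pr (fun h => quatChar (f h)) (fun h => quatChar (f h)) = 1 := by
  classical
  have : Fintype H := Fintype.ofFinite H
  have : NeZero 2 := ⟨two_ne_zero⟩
  rw [pr_eq]
  simp only [map_inv]
  rw [sum_comp_surj f hf (fun x => quatChar x * quatChar x⁻¹)]
  have h1 : ∑ x : QuaternionGroup 2, quatChar x * quatChar x⁻¹ = 8 := by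
    simp only [quat_qz]
    exact_mod_cast qz_sum
  have h2 : Nat.card H = Nat.card f.ker * 8 := by
    rw [← Subgroup.card_mul_index f.ker, Subgroup.index_ker]
    congr 1
    rw [MonoidHom.range_eq_top.mpr hf]
    rw [Nat.card_congr Subgroup.topEquiv.toEquiv, Nat.card_eq_fintype_card, QuaternionGroup.card]
  rw [h1, h2]
  have h3 : (Nat.card f.ker : ℂ) ≠ 0 := card_ne
  push_cast
  field_simp

end Pool.Agent.R389
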