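import Mathlib
import Pool.Agent.R389.Quat

/-!
# Deligne's conjecture for Artin twists when the order of vanishing is at most two
-/

set_option autoImplicit false
set_option linter.unusedSectionVars false

namespace Pool.Agent.R389

open Pool.Agent.H302R2 Pool.Agent.H302R3 Pool.Agent.H541R3.ART Pool.Agent.W446.AS Filter Topology

variable {G : Type} [Group G] [Finite G] {E : Type} [Field E]
  {L : (E →+* ℂ) → (G → ℂ) → ℂ → ℂ} {P : (E →+* ℂ) → (G → ℂ) → ℂ} {c : ℂ}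

/-- good characters are invertible -/
lemma good_unit {ζ : E} (hζ : IsPrimitiveRoot ζ (Monoid.exponent G))
    (hL : ∀ τ, ∀ χ ∈ Irr G, MeromorphicAt (L τ χ) c ∧ meromorphicOrderAt (L τ χ) c ≠ ⊤)
    (hP : ∀ τ, ∀ χ ∈ Irr G, P τ χ ≠ 0)
    (hmon : ∀ (U : Subgroup G) (ψ : U →* Eˣ), Hyper U →
      Deligne L P c (ind U (fun u => ((ψ u : Eˣ) : E)))) (τ₀ : E →+* ℂ)
    {s : G → ℂ} (hs : s ∈ Good (theta (ords (L τ₀) c) : G → ℂ)) :
    ∃ (f : G → E) (e : E), (∀ g, τ₀ (f g) = s g) ∧ e ≠ 0 ∧ DelZ L P c f e := by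
  classical
  induction hs using AddSubgroup.closure_induction with
  | mem s hs =>
    obtain ⟨U, ψ, hU, rfl, h2⟩ := hs
    obtain ⟨ψE, hψE⟩ := lift_char hζ τ₀ U ψ
    obtain ⟨e, he⟩ := delZ_ind (hmon U ψE hU)
    have h1 : ∀ g, τ₀ (ind U (fun u => ((ψE u : Eˣ) : E)) g)
        = ind U (fun h => ((ψ h : ℂˣ) : ℂ)) g := by
      intro g
      rw [ind_map]
      congr 1
      funext u
      exact hψE u
    refine ⟨_, e, h1, ?_, he⟩
    obtain ⟨m, hm⟩ := ind_isDecomp U ψ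
    rw [pr_ords (m := fun χ => (m χ : ℤ)) (fun χ hχ => by rw [hm.pr hχ]; simp)] at h2
    have h3 := order_prod (hL τ₀) (irrF G) subset_rfl (fun χ => (m χ : ℤ))
    have h4 : ∑ χ ∈ irrF G, (m χ : ℤ) * ords (L τ₀) c χ = 0 := by exact_mod_cast h2
    rw [h4] at h3
    obtain ⟨a, ha, hlim⟩ := (tendsto_ne_zero_iff_meromorphicOrderAt_eq_zero h3.1).mpr h3.2
    have h5 := he.2 τ₀
    have h6 : ∀ χ ∈ irrF G,
        mult (fun g => τ₀ (ind U (fun u => ((ψE u : Eˣ) : E)) g)) χ = (m χ : ℤ) := by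
      intro χ hχ
      apply mult_of_pr
      have h7 : (fun g => τ₀ (ind U (fun u => ((ψE u : Eˣ) : E)) g))
          = ind U (fun h => ((ψ h : ℂˣ) : ℂ)) := funext h1
      rw [h7, hm.pr (mem_irrF.mp hχ)]
      simp
    have h8 : (fun s => ∏ χ ∈ irrF G, L τ₀ χ s ^
        mult (fun g => τ₀ (ind U (fun u => ((ψE u : Eˣ) : E)) g)) χ)
        = fun z => ∏ χ ∈ irrF G, L τ₀ χ z ^ ((m χ : ℕ) : ℤ) := by
      funext z
      exact Finset.prod_congr rfl fun χ hχ => by rw [h6 χ hχ]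
    rw [h8] at h5
    have h9 := tendsto_nhds_unique h5 hlim
    intro h0
    rw [h0, map_zero, zero_mul] at h9
    exact ha h9.symm
  | zero => exact ⟨0, 1, fun g => map_zero τ₀, one_ne_zero, DelZ.zero⟩
  | add a b _ _ ha hb =>
    obtain ⟨f, e, h1, h2, h3⟩ := ha
    obtain ⟨f', e', h1', h2', h3'⟩ := hb
    exact ⟨f + f', e * e', fun g => by rw [Pi.add_apply, map_add, h1, h1']; rfl,
      mul_ne_zero h2 h2', h3.add hL hP h3'⟩
  | neg a _ ha =>
    obtain ⟨f, e, h1, h2, h3⟩ := ha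
    exact ⟨-f, e⁻¹, fun g => by rw [Pi.neg_apply, map_neg, h1]; rfl, inv_ne_zero h2,
      h3.neg hP h2⟩

/-- Deligne's conjecture from a decomposition into a sum of monomial characters and a good one -/
lemma finish {ζ : E} (hζ : IsPrimitiveRoot ζ (Monoid.exponent G))
    (hL : ∀ τ, ∀ χ ∈ Irr G, MeromorphicAt (L τ χ) c ∧ meromorphicOrderAt (L τ χ) c ≠ ⊤)
    (hP : ∀ τ, ∀ χ ∈ Irr G, P τ χ ≠ 0)
    (hmon : ∀ (U : Subgroup G) (ψ : U →* Eˣ), Hyper U →
      Deligne L P c (ind U (fun u => ((ψ u : Eˣ) : E)))) (τ₀ : E →+* ℂ)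
    {F : G → E} {a : G → ℂ} (ha : a ∈ MonP G)
    (hs : (fun g => τ₀ (F g)) - a ∈ Good (theta (ords (L τ₀) c) : G → ℂ)) :
    Deligne L P c F := by
  obtain ⟨fa, ea, ha1, ha2⟩ := mon_del hζ hL hP hmon τ₀ ha
  obtain ⟨fs, es, hs1, -, hs2⟩ := good_unit hζ hL hP hmon τ₀ hs
  have h1 : F = fa + fs := by
    funext g
    apply τ₀.injective
    rw [Pi.add_apply, map_add, ha1, hs1]
    change τ₀ (F g) = a g + (τ₀ (F g) - a g)
    ring
  rw [h1]
  exact (ha2.add hL hP hs2).deligne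

/-- `theta` is a Heilbronn function -/
lemma heil_ords {ζ : E} (hζ : IsPrimitiveRoot ζ (Monoid.exponent G))
    (hL : ∀ τ, ∀ χ ∈ Irr G, MeromorphicAt (L τ χ) c ∧ meromorphicOrderAt (L τ χ) c ≠ ⊤)
    (hmon : ∀ (U : Subgroup G) (ψ : U →* Eˣ),
      Deligne L P c (ind U (fun u => ((ψ u : Eˣ) : E)))) (τ : E →+* ℂ) :
    IsHeilbronn (theta (ords (L τ) c) : G → ℂ) where
  conj := (theta_virt _).conj
  mult U ψ := by
    classical
    obtain ⟨ψE, hψE⟩ := lift_char hζ τ U ψ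
    obtain ⟨m, hm⟩ := ind_isDecomp U ψ
    obtain ⟨e, he⟩ := hmon U ψE
    have h1 : (fun g => τ (ind U (fun u => ((ψE u : Eˣ) : E)) g))
        = ind U (fun h => ((ψ h : ℂˣ) : ℂ)) := by
      funext g
      rw [ind_map]
      congr 1
      funext u
      exact hψE u
    have h2 := he τ m (by rw [h1]; exact hm)
    have h3 := order_prod (hL τ) (irrF G) subset_rfl (fun χ => (m χ : ℤ))
    have h4 : (fun s => ∏ᶠ χ ∈ Irr G, L τ χ s ^ m χ)
        = fun z => ∏ χ ∈ irrF G, L τ χ z ^ ((m χ : ℕ) : ℤ) := by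
      funext s
      rw [finprod_irr (fun χ => L τ χ s ^ m χ)]
      exact Finset.prod_congr rfl fun χ _ => by rw [zpow_natCast]
    rw [h4] at h2
    have h5 := (tendsto_nhds_iff_meromorphicOrderAt_nonneg h3.1).mp ⟨_, h2⟩
    rw [h3.2] at h5
    have h6 : (0 : ℤ) ≤ ∑ χ ∈ irrF G, (m χ : ℤ) * ords (L τ) c χ := by exact_mod_cast h5
    obtain ⟨k, hk⟩ := Int.eq_ofNat_of_zero_le h6
    refine ⟨k, ?_⟩
    have h7 := pr_ords (l := L τ) (c := c) (m := fun χ => (m χ : ℤ))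
      (fun χ hχ => by rw [hm.pr hχ]; simp)
    rw [frob' U _ (theta_virt _).conj, pr, hk] at h7
    have h8 : (Nat.card U : ℂ) ≠ 0 := card_ne
    have h9 : ∑ᶠ g : U, (theta (ords (L τ) c) : G → ℂ) g * ((ψ g⁻¹ : ℂˣ) : ℂ)
        = k * Nat.card U := by
      rw [inv_mul_eq_iff_eq_mul₀ h8] at h7
      rw [h7]; push_cast; ring
    rw [← h9]
    refine finsum_congr fun g => ?_
    rw [map_inv]

/-- restrictions of irreducible characters -/
lemma res_memP {H : Subgroup G} {χ : G → ℂ} (hχ : χ ∈ Irr G) :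
    (fun h : H => χ h) ∈ AddSubmonoid.closure (Irr H) := by
  obtain ⟨n, ρ, -, rfl⟩ := hχ
  exact char_memP _ (ρ.comp H.subtype) rfl

/-- the condition on the quaternion sections -/
lemma qf_ords {τ₀ : E →+* ℂ}
    (hL : ∀ τ, ∀ χ ∈ Irr G, MeromorphicAt (L τ χ) c ∧ meromorphicOrderAt (L τ χ) c ≠ ⊤)
    (hquat : ∀ (H : Subgroup G) (f : H →* QuaternionGroup 2), Function.Surjective f →
      ∀ m : (G → ℂ) → ℕ, IsDecomp (ind H (fun h => quatChar (f h))) m →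
        meromorphicOrderAt (fun s => ∏ᶠ χ ∈ Irr G, L τ₀ χ s ^ m χ) c ≠ 1) :
    QF (theta (ords (L τ₀) c) : G → ℂ) := by
  classical
  intro H f hf hθf
  have hq : (fun h : H => (theta (ords (L τ₀) c) : G → ℂ) h) = fun h => quatChar (f h) :=
    funext hθf
  have hV : Virt (fun h : H => quatChar (f h)) := by
    rw [← hq]
    exact (theta_virt _).comp H.subtype
  have hirr : (fun h : H => quatChar (f h)) ∈ Irr H := by
    refine irr_of_norm hV (quat_norm f hf) (d := 2) ?_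
    rw [map_one, QuaternionGroup.one_def]
    simp [quatChar]
  have hnat : ∀ χ ∈ Irr G, ∃ n : ℕ, pr (ind H (fun h => quatChar (f h))) χ = n := by
    intro χ hχ
    rw [frob _ _ (Irr.conj hχ), pr_comm]
    refine nat_closure (fun η hη => ?_) (res_memP hχ)
    by_cases he : η = fun h : H => quatChar (f h)
    · exact ⟨1, by rw [he, pr_self hirr]; simp⟩
    · exact ⟨0, by rw [pr_ne hη hirr he]; simp⟩
  choose! m hm using hnat
  refine hquat H f hf m (IsDecomp.of_pr (fun g x => ind_class _ _ g x) hm) ?_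
  have h3 := order_prod (hL τ₀) (irrF G) subset_rfl (fun χ => (m χ : ℤ))
  have h4 : (fun s => ∏ᶠ χ ∈ Irr G, L τ₀ χ s ^ m χ)
      = fun z => ∏ χ ∈ irrF G, L τ₀ χ z ^ ((m χ : ℕ) : ℤ) := by
    funext s
    rw [finprod_irr (fun χ => L τ₀ χ s ^ m χ)]
    exact Finset.prod_congr rfl fun χ _ => by rw [zpow_natCast]
  rw [h4, h3.2]
  have h5 := pr_ords (l := L τ₀) (c := c) (m := fun χ => (m χ : ℤ))
    (fun χ hχ => by rw [hm χ hχ]; simp)
  rw [frob' _ _ (theta_virt _).conj, hq, quat_norm f hf] at h5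
  have h6 : ∑ χ ∈ irrF G, (m χ : ℤ) * ords (L τ₀) c χ = 1 := by exact_mod_cast h5.symm
  rw [h6]
  rfl

/-- old zeros for a `p`-group quotient -/
lemma old_main {ζ : E} (hζ : IsPrimitiveRoot ζ (Monoid.exponent G))
    (hL : ∀ τ, ∀ χ ∈ Irr G, MeromorphicAt (L τ χ) c ∧ meromorphicOrderAt (L τ χ) c ≠ ⊤)
    (hP : ∀ τ, ∀ χ ∈ Irr G, P τ χ ≠ 0)
    (hmon : ∀ (U : Subgroup G) (ψ : U →* Eˣ), Hyper U →
      Deligne L P c (ind U (fun u => ((ψ u : Eˣ) : E)))) (τ₀ : E →+* ℂ)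
    {p : ℕ} (hp : p.Prime) (K : Subgroup G) [hKn : K.Normal] (hQ : IsPGroup p (G ⧸ K))
    (lam : G →* ℂˣ)
    (hK : ∀ k ∈ K, (theta (ords (L τ₀) c) : G → ℂ) k
        = ((lam k : ℂˣ) : ℂ) * (theta (ords (L τ₀) c) : G → ℂ) 1)
    {V : Type} [AddCommGroup V] [Module E V] [FiniteDimensional E V] (ρ : Representation E G V) :
    Deligne L P c ρ.character := by
  obtain ⟨a, ha, s, hs, hf⟩ := decomp hp K hQ lam (base_change τ₀ ρ)
  obtain ⟨fa, ea, ha1, ha2⟩ := mon_del hζ hL hP hmon τ₀ ha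
  obtain ⟨fs, es, hs1, -, hs2⟩ := new_unit hζ hL hP hmon τ₀ hK hs
  have h1 : ρ.character = fa + fs := by
    funext g
    apply τ₀.injective
    rw [Pi.add_apply, map_add, ha1, hs1]
    exact congrFun hf g
  rw [h1]
  exact (ha2.add hL hP hs2).deligne

lemma virt_of_closure {f : G → ℂ} (hf : f ∈ AddSubmonoid.closure (Irr G)) : Virt f := by
  have h : AddSubmonoid.closure (Irr G) ≤ (AddSubgroup.closure (Irr G)).toAddSubmonoid := by
    rw [AddSubmonoid.closure_le]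
    exact AddSubgroup.subset_closure
  exact h hf

lemma mono_memP {Z : Subgroup G} (hZ : Hyper Z) (ω : Z →* ℂˣ) : ind Z (lc ω) ∈ MonP G :=
  AddSubmonoid.subset_closure ⟨Z, ω, hZ, rfl⟩

/-- **Order at most two.** -/
theorem main_two {ζ : E} (hζ : IsPrimitiveRoot ζ (Monoid.exponent G))
    (hL : ∀ τ, ∀ χ ∈ Irr G, MeromorphicAt (L τ χ) c ∧ meromorphicOrderAt (L τ χ) c ≠ ⊤)
    (hP : ∀ τ, ∀ χ ∈ Irr G, P τ χ ≠ 0)
    (hmon : ∀ (U : Subgroup G) (ψ : U →* Eˣ),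
      Deligne L P c (ind U (fun u => ((ψ u : Eˣ) : E)))) (τ₀ : E →+* ℂ)
    {deg : (G → ℂ) → ℕ} (hdeg : ∀ χ ∈ Irr G, χ 1 = deg χ)
    (hz : meromorphicOrderAt (fun s => ∏ᶠ χ ∈ Irr G, L τ₀ χ s ^ deg χ) c ≤ 2)
    (hquat : ∀ (H : Subgroup G) (f : H →* QuaternionGroup 2), Function.Surjective f →
      ∀ m : (G → ℂ) → ℕ, IsDecomp (ind H (fun h => quatChar (f h))) m →
        meromorphicOrderAt (fun s => ∏ᶠ χ ∈ Irr G, L τ₀ χ s ^ m χ) c ≠ 1)
    {V : Type} [AddCommGroup V] [Module E V] [FiniteDimensional E V] (ρ : Representation E G V) :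
    Deligne L P c ρ.character := by
  classical
  have hmon' : ∀ (U : Subgroup G) (ψ : U →* Eˣ), Hyper U →
      Deligne L P c (ind U (fun u => ((ψ u : Eˣ) : E))) := fun U ψ _ => hmon U ψ
  have hθ := hh_ords hζ hL hmon' τ₀
  have hθH := heil_ords hζ hL hmon τ₀
  have htop := top_order (hL τ₀) deg
  have hone := theta_one_eq (c := c) (l := L τ₀) hdeg
  obtain ⟨r, hr⟩ := hθ.deg
  have h1 : (∑ χ ∈ irrF G, (deg χ : ℤ) * ords (L τ₀) c χ) = (r : ℤ) := by
    rw [hone] at hr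
    exact_mod_cast hr
  rw [h1] at htop
  have htopP : IsPGroup 2 (G ⧸ (⊤ : Subgroup G)) := by
    intro q
    refine ⟨0, ?_⟩
    obtain ⟨g, rfl⟩ := QuotientGroup.mk_surjective q
    rw [pow_zero, pow_one]
    exact (QuotientGroup.eq_one_iff g).mpr (Subgroup.mem_top g)
  by_cases hr1 : r ≤ 1
  · obtain ⟨lam, hlam⟩ := hθ.deg_le_one (theta_virt _) hr hr1
    exact old_main hζ hL hP hmon' τ₀ Nat.prime_two ⊤ htopP lam (fun k _ => hlam k) ρ
  have hr2 : r = 2 := by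
    rw [htop] at hz
    have h2 : ((r : ℤ) : WithTop ℤ) ≤ ((2 : ℤ) : WithTop ℤ) := hz
    have h3 : (r : ℤ) ≤ 2 := WithTop.coe_le_coe.mp h2
    omega
  rw [hr2] at hr
  have hr' : (theta (ords (L τ₀) c) : G → ℂ) 1 = 2 := by rw [hr]; norm_num
  have hb := base_change τ₀ ρ
  have hbV := virt_of_closure hb
  rcases classify hθH hr' (qf_ords hL hquat) with ⟨l₁, l₂, hs⟩ | ⟨N, a, b, himp, hab⟩
  · by_cases hl : l₁ = l₂
    · refine old_main hζ hL hP hmon' τ₀ Nat.prime_two ⊤ htopP l₁ (fun k _ => ?_) ρ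
      rw [hs k, hr', hl]; ring
    · obtain ⟨Z, hZ, h2⟩ := split_decomp hθ hs hl
      obtain ⟨k₁, k₂, h3, h4, h5⟩ := h2 _ hbV
      have hlin : ∀ l : G →* ℂˣ, ∃ n : ℕ, pr (fun g => τ₀ (ρ.character g)) (lc l) = n := by
        intro l
        refine nat_closure (fun η hη => ?_) hb
        by_cases he : η = lc l
        · exact ⟨1, by rw [he, pr_self (lin_irr l)]; simp⟩
        · exact ⟨0, by rw [pr_ne hη (lin_irr l) he]; simp⟩
      obtain ⟨n₁, hn₁⟩ := hlin l₁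
      obtain ⟨n₂, hn₂⟩ := hlin l₂
      have e1 : k₁ = n₁ := by
        rw [hn₁] at h3; exact_mod_cast h3.symm
      have e2 : k₂ = n₂ := by
        rw [hn₂] at h4; exact_mod_cast h4.symm
      rw [e1, e2, natCast_zsmul, natCast_zsmul] at h5
      exact finish hζ hL hP hmon' τ₀ (add_mem (nsmul_mem (mono_memP hZ _) n₁)
        (nsmul_mem (mono_memP hZ _) n₂)) h5
  · obtain ⟨Z, ω, hZ, h2⟩ := imp_decomp hθ himp hab
    obtain ⟨k, h3, h4⟩ := h2 _ hbV
    obtain ⟨n, hn⟩ := nat_closure (fun χ hχ => himp.nat hχ) hb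
    have e1 : k = n := by
      rw [hn] at h3; exact_mod_cast h3.symm
    rw [e1, natCast_zsmul] at h4
    exact finish hζ hL hP hmon' τ₀ (nsmul_mem (mono_memP hZ _) n) h4

end Pool.Agent.R389
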