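import Mathlib
import Pool.Agent.R389.TwoMain

/-!
# Quaternionic constituents of rational representations
-/

set_option autoImplicit false
set_option linter.unusedSectionVars false

namespace Pool.Agent.R389

open Pool.Agent.H302R2 Pool.Agent.H302R3 Pool.Agent.H541R3.ART Pool.Agent.W446.AS

open Matrix in
/-- a matrix `A` with `A * conj A = -1` has even size -/
lemma even_of_conj {m : ℕ} (A : Matrix (Fin m) (Fin m) ℂ)
    (h : A * A.map (starRingEnd ℂ) = -1) : Even m := by
  have h1 := congrArg Matrix.det h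
  rw [Matrix.det_mul, Matrix.det_neg, Matrix.det_one, mul_one, Fintype.card_fin] at h1
  have h2 : (A.map (starRingEnd ℂ)).det = (starRingEnd ℂ) A.det := by
    rw [RingHom.map_det]
    rfl
  rw [h2, Complex.mul_conj] at h1
  by_contra hodd
  rw [Nat.not_even_iff_odd] at hodd
  rw [hodd.neg_one_pow] at h1
  have h3 := congrArg Complex.re h1
  rw [Complex.ofReal_re, Complex.neg_re, Complex.one_re] at h3
  have := Complex.normSq_nonneg A.det
  linarith

/-- an antilinear map of square `-1` exists only in even dimension -/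
lemma even_of_antilinear {W : Type*} [AddCommGroup W] [Module ℂ W] [FiniteDimensional ℂ W]
    (T : W → W) (hadd : ∀ v w, T (v + w) = T v + T w)
    (hsmul : ∀ (z : ℂ) v, T (z • v) = (starRingEnd ℂ) z • T v) (hT : ∀ v, T (T v) = -v) :
    Even (Module.finrank ℂ W) := by
  classical
  let b := Module.finBasis ℂ W
  let A : Matrix (Fin (Module.finrank ℂ W)) (Fin (Module.finrank ℂ W)) ℂ :=
    fun j i => b.repr (T (b i)) j
  let T' : W →+ W := AddMonoidHom.mk' T hadd
  refine even_of_conj A ?_
  ext k i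
  have h1 : T (b i) = ∑ j, A j i • b j := (b.sum_repr (T (b i))).symm
  have h2 : T (T (b i)) = ∑ j, (starRingEnd ℂ) (A j i) • T (b j) := by
    conv_lhs => rw [h1]
    change T' (∑ j, A j i • b j) = _
    rw [map_sum]
    exact Finset.sum_congr rfl fun j _ => hsmul _ _
  rw [hT] at h2
  have h3 := congrArg (fun w => b.repr w k) h2
  simp only [map_neg, map_sum, map_smul, Finsupp.coe_neg, Pi.neg_apply, Finsupp.coe_finsetSum,
    Finset.sum_apply, Finsupp.smul_apply, smul_eq_mul, Module.Basis.repr_self] at h3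
  rw [Matrix.mul_apply, Matrix.neg_apply, Matrix.one_apply]
  have h4 : ∑ j, A k j * (A.map (starRingEnd ℂ)) j i
      = ∑ x, (starRingEnd ℂ) (A x i) * b.repr (T (b x)) k := by
    refine Finset.sum_congr rfl fun j _ => ?_
    rw [Matrix.map_apply, mul_comm]
  rw [h4, ← h3, Finsupp.single_apply]
  by_cases hik : i = k
  · rw [if_pos hik, if_pos hik.symm]
  · rw [if_neg hik, if_neg (Ne.symm hik)]

variable {H : Type} [Group H] [Finite H]

/-- conjugates of the values of a linear character -/
lemma conj_char (ω : H →* ℂˣ) (x : H) :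
    (starRingEnd ℂ) ((ω x : ℂˣ) : ℂ) = (((ω x)⁻¹ : ℂˣ) : ℂ) := by
  rw [Units.val_inv_eq_inv_val, Complex.inv_eq_conj (norm_char ω x)]

/-- **Even multiplicity.** A linear character `ω` of a subgroup, inverted by an element `t` whose
square lies in the subgroup and has `ω`-value `-1`, has even multiplicity in every rational
representation. -/
theorem even_lin {A : Subgroup H} (ω : A →* ℂˣ) {t : H} (ht : ∀ n : A, t⁻¹ * n * t ∈ A)
    (hω : ∀ n : A, ω ⟨t⁻¹ * n * t, ht n⟩ = (ω n)⁻¹) (ht2 : t * t ∈ A)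
    (hω2 : ((ω ⟨t * t, ht2⟩ : ℂˣ) : ℂ) = -1) {V : Type} [AddCommGroup V] [Module ℚ V]
    [FiniteDimensional ℚ V] (ρ : Representation ℚ H V) :
    ∃ k : ℕ, pr (fun x : A => ((ρ.character x : ℚ) : ℂ)) (lc ω) = 2 * k := by
  classical
  have : Fintype A := Fintype.ofFinite A
  have hcA : (Nat.card A : ℂ) ≠ 0 := card_ne
  let b := Module.finBasis ℚ V
  let n := Module.finrank ℚ V
  let M : H →* Matrix (Fin n) (Fin n) ℚ :=
    { toFun := fun g => LinearMap.toMatrix b b (ρ g)
      map_one' := by rw [map_one]; exact LinearMap.toMatrix_one b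
      map_mul' := by intro x y; rw [map_mul]; exact LinearMap.toMatrix_mul b _ _ }
  let τ : ℚ →+* ℂ := Rat.castHom ℂ
  let σ : Representation ℂ H (Fin n → ℂ) :=
    { toFun := fun g => Matrix.toLin' ((M g).map τ)
      map_one' := by
        rw [map_one, Matrix.map_one τ (map_zero τ) (map_one τ), Matrix.toLin'_one]
        rfl
      map_mul' := by
        intro x y
        rw [map_mul, Matrix.map_mul, Matrix.toLin'_mul]
        rfl }
  have hchar : ∀ g, ((ρ.character g : ℚ) : ℂ) = σ.character g := by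
    intro g
    change τ (LinearMap.trace ℚ V (ρ g)) = LinearMap.trace ℂ _ (Matrix.toLin' ((M g).map τ))
    rw [LinearMap.trace_eq_matrix_trace ℚ b (ρ g), Matrix.trace_toLin'_eq, Matrix.trace,
      Matrix.trace, map_sum]
    rfl
  -- complex conjugation
  let J : (Fin n → ℂ) → (Fin n → ℂ) := fun v i => (starRingEnd ℂ) (v i)
  have hJadd : ∀ v w, J (v + w) = J v + J w := by
    intro v w
    funext i
    exact map_add (starRingEnd ℂ) _ _
  have hJsmul : ∀ (z : ℂ) v, J (z • v) = (starRingEnd ℂ) z • J v := by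
    intro z v
    funext i
    exact map_mul (starRingEnd ℂ) _ _
  have hJJ : ∀ v, J (J v) = v := by
    intro v
    funext i
    exact Complex.conj_conj _
  have hJσ : ∀ g v, J (σ g v) = σ g (J v) := by
    intro g v
    funext i
    change (starRingEnd ℂ) ((Matrix.toLin' ((M g).map τ)) v i)
      = (Matrix.toLin' ((M g).map τ)) (J v) i
    rw [Matrix.toLin'_apply, Matrix.toLin'_apply, Matrix.mulVec, Matrix.mulVec, dotProduct,
      dotProduct, map_sum]
    refine Finset.sum_congr rfl fun j _ => ?_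
    rw [map_mul]
    congr 1
    rw [Matrix.map_apply]
    exact map_ratCast (starRingEnd ℂ) (M g i j)
  -- the isotypic part
  let W : Submodule ℂ (Fin n → ℂ) :=
    { carrier := {v | ∀ x : A, σ x v = ((ω x : ℂˣ) : ℂ) • v}
      add_mem' := by
        intro v w hv hw x
        rw [map_add, hv x, hw x, smul_add]
      zero_mem' := by intro x; rw [map_zero, smul_zero]
      smul_mem' := by
        intro z v hv x
        rw [map_smul, hv x, smul_comm] }
  have hmemW : ∀ v, v ∈ W ↔ ∀ x : A, σ x v = ((ω x : ℂˣ) : ℂ) • v := fun v => Iff.rfl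
  have hTW : ∀ v ∈ W, σ t (J v) ∈ W := by
    intro v hv
    rw [hmemW]
    intro x
    have e1 : σ (x : H) (σ t (J v)) = σ t (J (σ (t⁻¹ * x * t) v)) := by
      rw [hJσ, ← Module.End.mul_apply, ← Module.End.mul_apply, ← map_mul, ← map_mul]
      congr 2
      group
    have e2 := hv ⟨t⁻¹ * x * t, ht x⟩
    simp only at e2
    rw [e1, e2, hω, hJsmul, map_smul]
    congr 1
    have h3 := conj_char ω x
    have h4 : (starRingEnd ℂ) ((((ω x)⁻¹ : ℂˣ) : ℂ)) = ((ω x : ℂˣ) : ℂ) := by
      rw [← h3, Complex.conj_conj]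
    exact h4
  have heven : Even (Module.finrank ℂ W) := by
    refine even_of_antilinear (fun v : W => (⟨σ t (J v), hTW v v.2⟩ : W)) ?_ ?_ ?_
    · intro v w
      apply Subtype.ext
      change σ t (J ((v : Fin n → ℂ) + w)) = σ t (J v) + σ t (J w)
      rw [hJadd, map_add]
    · intro z v
      apply Subtype.ext
      change σ t (J (z • (v : Fin n → ℂ))) = (starRingEnd ℂ) z • σ t (J v)
      rw [hJsmul, map_smul]
    · intro v
      apply Subtype.ext
      change σ t (J (σ t (J v))) = -(v : Fin n → ℂ)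
      rw [hJσ, hJJ, ← Module.End.mul_apply, ← map_mul]
      have h3 := v.2 ⟨t * t, ht2⟩
      simp only at h3
      rw [h3, hω2, neg_one_smul]
  -- the projection
  let e : (Fin n → ℂ) →ₗ[ℂ] (Fin n → ℂ) :=
    (Nat.card A : ℂ)⁻¹ • ∑ x : A, (((ω x)⁻¹ : ℂˣ) : ℂ) • σ x
  have he : ∀ v, e v = (Nat.card A : ℂ)⁻¹ • ∑ x : A, (((ω x)⁻¹ : ℂˣ) : ℂ) • σ x v := by
    intro v
    simp only [e, LinearMap.smul_apply, LinearMap.sum_apply]
  have hproj : LinearMap.IsProj W e := by
    refine ⟨fun v => ?_, fun v hv => ?_⟩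
    · rw [hmemW]
      intro y
      rw [he, map_smul, map_sum, smul_comm]
      congr 1
      rw [Finset.smul_sum, ← Equiv.sum_comp (Equiv.mulLeft y)
        (fun x => ((ω y : ℂˣ) : ℂ) • (((ω x)⁻¹ : ℂˣ) : ℂ) • σ (x : H) v)]
      refine Finset.sum_congr rfl fun x _ => ?_
      rw [map_smul, smul_smul, Equiv.coe_mulLeft, ← Module.End.mul_apply, ← map_mul]
      congr 1
      rw [map_mul, mul_inv, ← Units.val_mul, ← mul_assoc, mul_inv_cancel, one_mul]
    · rw [he]
      have h3 : ∀ x : A, (((ω x)⁻¹ : ℂˣ) : ℂ) • σ x v = v := by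
        intro x
        rw [(hmemW v).mp hv x, smul_smul, ← Units.val_mul, inv_mul_cancel, Units.val_one, one_smul]
      rw [Finset.sum_congr rfl (fun x _ => h3 x), Finset.sum_const, Finset.card_univ,
        ← Nat.card_eq_fintype_card, ← Nat.cast_smul_eq_nsmul ℂ, smul_smul,
        inv_mul_cancel₀ hcA, one_smul]
  have htr := hproj.trace
  have htr2 : LinearMap.trace ℂ _ e = pr (fun x : A => ((ρ.character x : ℚ) : ℂ)) (lc ω) := by
    rw [pr_eq]
    simp only [e, map_smul, map_sum, smul_eq_mul]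
    congr 1
    refine Finset.sum_congr rfl fun x _ => ?_
    rw [hchar, mul_comm]
    congr 1
    change (((ω x)⁻¹ : ℂˣ) : ℂ) = ((ω x⁻¹ : ℂˣ) : ℂ)
    rw [map_inv]
  obtain ⟨k, hk⟩ := heven
  refine ⟨k, ?_⟩
  rw [← htr2, htr, hk]
  push_cast
  ring

end Pool.Agent.R389
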