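import Mathlib
import Pool.Agent.R389.Even

/-!
# Rational representations and Heilbronn characters of degree two and determinant one
-/

set_option autoImplicit false
set_option linter.unusedSectionVars false

namespace Pool.Agent.R389

open Pool.Agent.H302R2 Pool.Agent.H302R3 Pool.Agent.H541R3.ART Pool.Agent.W446.AS

section general

variable {G : Type} [Group G] [Finite G] {θ : G → ℂ} {N : Subgroup G} {a b : N →* ℂˣ}

lemma Imp.index (h : Imp θ N a b) : N.index = 2 := by
  obtain ⟨t, ht⟩ := h.nt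
  rw [Subgroup.index_eq_two_iff]
  refine ⟨t, fun x => ?_⟩
  by_cases hx : x ∈ N
  · right
    exact ⟨hx, fun h' => ht ((Subgroup.mul_mem_cancel_left N hx).mp h')⟩
  · left
    exact ⟨h.two _ _ hx ht, hx⟩

lemma Imp.eq_ind (h : Imp θ N a b) : θ = ind N (lc a) := by
  obtain ⟨b', h'⟩ := imp_of_ind (θ := ind N (lc a)) h.index a rfl
  obtain ⟨t, ht⟩ := h.nt
  funext g
  by_cases hg : g ∈ N
  · have h1 := h.on ⟨g, hg⟩
    have h2 := h'.on ⟨g, hg⟩
    simp only at h1 h2
    rw [h1, h2, h.swap t ht ⟨g, hg⟩ (h.conj_mem t hg), h'.swap t ht ⟨g, hg⟩ (h.conj_mem t hg)]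
  · rw [h.off g hg, h'.off g hg]

lemma Imp.norm (h : Imp θ N a b) (hab : a ≠ b) : pr θ θ = 1 := by
  classical
  have hc : ∀ g x : G, θ (x * g * x⁻¹) = θ g := by
    intro g x
    rw [h.eq_ind, ind_class]
  have h1 : (fun n : N => θ n) = lc a + lc b := funext h.on
  have h2 : pr θ θ = pr (lc a) (fun n : N => θ n) := by
    have h3 := frob N (lc a) hc
    rw [← h.eq_ind] at h3
    exact h3
  rw [h2, h1, pr_comm, pr_add, Pool.Agent.R389.pr_lin, Pool.Agent.R389.pr_lin, if_pos rfl,
    if_neg hab.symm, add_zero]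

/-- characters are Heilbronn functions -/
lemma heil_of_closure {f : G → ℂ} (hf : f ∈ AddSubmonoid.closure (Irr G)) : IsHeilbronn f where
  conj := (virt_of_closure hf).conj
  mult H ψ := by
    induction hf using AddSubmonoid.closure_induction with
    | mem χ hχ => exact exists_mult hχ H ψ
    | zero => exact ⟨0, by simp⟩
    | add x y _ _ hx hy =>
      obtain ⟨n, hn⟩ := hx
      obtain ⟨m, hm⟩ := hy
      refine ⟨n + m, ?_⟩
      have h1 : ∀ h : H, (x + y) h * (((ψ h)⁻¹ : ℂˣ) : ℂ)
          = x h * (((ψ h)⁻¹ : ℂˣ) : ℂ) + y h * (((ψ h)⁻¹ : ℂˣ) : ℂ) := by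
        intro h
        rw [Pi.add_apply, add_mul]
      rw [finsum_congr h1, finsum_add_distrib (Set.toFinite _) (Set.toFinite _), hn, hm]
      push_cast
      ring

/-- the values at inverses are complex conjugate -/
lemma heil_conj (hθ : IsHeilbronn θ) (g : G) : θ g⁻¹ = (starRingEnd ℂ) (θ g) := by
  obtain ⟨s, hs⟩ := (hθ.comp (Subgroup.zpowers g).subtype).comm_multiset (zpowers_comm g)
  have h1 := hs ⟨g, Subgroup.mem_zpowers g⟩
  have h2 := hs ⟨g, Subgroup.mem_zpowers g⟩⁻¹
  have h3 : θ g = (s.map fun ψ => ((ψ ⟨g, Subgroup.mem_zpowers g⟩ : ℂˣ) : ℂ)).sum := h1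
  have h4 : θ g⁻¹ = (s.map fun ψ => ((ψ ⟨g, Subgroup.mem_zpowers g⟩⁻¹ : ℂˣ) : ℂ)).sum := h2
  rw [h3, h4, map_multiset_sum, Multiset.map_map]
  congr 1
  refine Multiset.map_congr rfl fun ψ _ => ?_
  rw [Function.comp_apply, conj_char, map_inv]

lemma pr_triv {K : Type} [Group K] [Finite K] (hK : ∀ x : K, x = 1) (F : K → ℂ) :
    pr (fun _ => (1 : ℂ)) F = F 1 := by
  classical
  have : Fintype K := Fintype.ofFinite K
  have h1 : (Finset.univ : Finset K) = {1} := by
    ext x
    simp [hK x]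
  rw [pr_eq, h1, Finset.sum_singleton, inv_one, one_mul, Nat.card_eq_fintype_card,
    ← Finset.card_univ, h1]
  simp

lemma pr_botind' {U : Subgroup G} {f : U → ℂ} (hf : ∀ g x : U, f (x * g * x⁻¹) = f g) :
    pr (ind ((⊥ : Subgroup G).subgroupOf U) (fun _ => (1 : ℂ))) f = f 1 := by
  rw [frob _ _ hf, pr_triv]
  · rfl
  · intro x
    apply Subtype.ext
    apply Subtype.ext
    exact Subgroup.mem_bot.mp x.2

end general

section rat

variable {G : Type} [Group G] [Finite G] {θ : G → ℂ} {V : Type} [AddCommGroup V] [Module ℚ V]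
  [FiniteDimensional ℚ V] (ρ : Representation ℚ G V)

/-- the complex valued character -/
noncomputable def cch (g : G) : ℂ := ((ρ.character g : ℚ) : ℂ)

lemma cch_mem : cch ρ ∈ AddSubmonoid.closure (Irr G) := base_change (Rat.castHom ℂ) ρ

lemma cch_inv (g : G) : cch ρ g⁻¹ = cch ρ g := by
  rw [heil_conj (heil_of_closure (cch_mem ρ))]
  exact map_ratCast (starRingEnd ℂ) _

/-- rational characters on hyperelementary subgroups -/
lemma hyp_even (hθ : IsHeilbronn θ) (h1 : θ 1 = 2) (hd : ∀ g, dd θ g = 1) {U : Subgroup G}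
    (hU : Hyper U) : ∃ k : ℤ, pr (fun u : U => cch ρ u) (fun u : U => θ u) = 2 * k ∧
      ind U (fun u : U => cch ρ u) - k • ind (⊥ : Subgroup G) (fun _ => (1 : ℂ)) ∈ Good θ := by
  classical
  have : Fintype U := Fintype.ofFinite U
  have hc : ∀ g x : G, θ (x * g * x⁻¹) = θ g := hθ.conj
  have hfV : Virt (fun u : U => cch ρ u) := (virt_of_closure (cch_mem ρ)).comp U.subtype
  have hθU : IsHeilbronn (fun u : U => θ u) := hθ.comp U.subtype
  have key : ∃ k : ℤ, pr (fun u : U => cch ρ u) (fun u : U => θ u) = 2 * k ∧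
      ∀ η ∈ Irr U, pr (fun u : U => θ u) η ≠ 0 → pr (fun u : U => cch ρ u) η = k * η 1 := by
    rcases hyper_two hU hθU h1 with ⟨ψ, φ, hs⟩ | ⟨N, a, b, himp, hab⟩
    · have hφ : φ = ψ⁻¹ := by
        ext u
        have h2 := dd_of_sum hs u
        have h3 : dd (fun u : U => θ u) u = 1 := hd (u : G)
        rw [h3, ← Units.val_mul] at h2
        have h4 : ψ u * φ u = 1 := Units.ext h2.symm
        rw [eq_inv_of_mul_eq_one_right h4]
        rfl
      obtain ⟨n, hn⟩ : ∃ n : ℕ, pr (fun u : U => cch ρ u) (lc ψ) = n := by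
        have hm : (fun u : U => cch ρ u) ∈ AddSubmonoid.closure (Irr U) := by
          exact base_change (Rat.castHom ℂ) (ρ.comp U.subtype)
        refine nat_closure (fun η hη => ?_) hm
        by_cases he : η = lc ψ
        · exact ⟨1, by rw [he, pr_self (lin_irr ψ)]; simp⟩
        · exact ⟨0, by rw [pr_ne hη (lin_irr ψ) he]; simp⟩
      have hn' : pr (fun u : U => cch ρ u) (lc ψ⁻¹) = n := by
        rw [← hn, pr_eq, pr_eq]
        congr 1
        rw [← Equiv.sum_comp (Equiv.inv U)]
        refine Finset.sum_congr rfl fun u _ => ?_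
        simp only [Equiv.inv_apply]
        have h2 : cch ρ ((u⁻¹ : U) : G) = cch ρ u := by
          rw [Subgroup.coe_inv]; exact cch_inv ρ u
        rw [h2]
        congr 1
        change ((((ψ u⁻¹⁻¹)⁻¹ : ℂˣ)) : ℂ) = ((ψ u⁻¹ : ℂˣ) : ℂ)
        rw [inv_inv, map_inv]
      refine ⟨n, ?_, fun η hη hne => ?_⟩
      · have h2 : (fun u : U => θ u) = lc ψ + lc ψ⁻¹ := by
          funext u
          rw [← hφ]
          exact hs u
        rw [h2, pr_comm, pr_add, pr_comm (lc ψ), pr_comm (lc ψ⁻¹), hn, hn']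
        push_cast
        ring
      · rcases irr_two ψ φ hs hη hne with rfl | rfl
        · rw [hn]
          change (n : ℂ) = ((n : ℤ) : ℂ) * ((ψ 1 : ℂˣ) : ℂ)
          rw [map_one, Units.val_one, mul_one]
          push_cast
          rfl
        · rw [hφ, hn']
          change (n : ℂ) = ((n : ℤ) : ℂ) * ((ψ⁻¹ 1 : ℂˣ) : ℂ)
          rw [map_one, Units.val_one, mul_one]
          push_cast
          rfl
    · obtain ⟨t, ht⟩ := himp.nt
      have hb : ∀ n : N, b n = (a n)⁻¹ := by
        intro n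
        have h2 : dd (fun x : N => (fun u : U => θ u) x) n = ((a n : ℂˣ) : ℂ) * ((b n : ℂˣ) : ℂ) :=
          dd_of_sum himp.on n
        have h3 : dd (fun x : N => (fun u : U => θ u) x) n = 1 := hd ((n : U) : G)
        rw [h3, ← Units.val_mul] at h2
        exact eq_inv_of_mul_eq_one_right (Units.ext h2.symm)
      have htinv : t⁻¹ ∉ N := fun h' => ht ((Subgroup.inv_mem_iff N).mp h')
      have hcm : ∀ n : N, t⁻¹ * n * t ∈ N := by
        intro n
        have := himp.conj_mem t⁻¹ n.2
        rwa [inv_inv] at this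
      have ht2 : t * t ∈ N := himp.two _ _ ht ht
      have hω2 : ((a ⟨t * t, ht2⟩ : ℂˣ) : ℂ) = -1 := by
        have h2 : dd (fun u : U => θ u) t = 1 := hd (t : G)
        rw [dd] at h2
        have h3 : θ (t : G) = 0 := himp.off t ht
        have h4 := himp.on ⟨t * t, ht2⟩
        have h5 := himp.swap t ht ⟨t * t, ht2⟩ (himp.conj_mem t ht2)
        have h6 : (⟨t * ((⟨t * t, ht2⟩ : N) : U) * t⁻¹, himp.conj_mem t ht2⟩ : N)
            = ⟨t * t, ht2⟩ := by
          apply Subtype.ext
          simp only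
          group
        rw [h6] at h5
        rw [h5] at h4
        simp only at h4
        rw [h3, pow_two t, h4] at h2
        linear_combination -h2
      obtain ⟨k, hk⟩ := even_lin a hcm (fun n => by
        have h2 := himp.swap t⁻¹ htinv n (himp.conj_mem t⁻¹ n.2)
        rw [hb] at h2
        rw [h2]
        congr 1
        apply Subtype.ext
        simp) ht2 hω2 (ρ.comp U.subtype)
      have hirr : (fun u : U => θ u) ∈ Irr U := by
        refine irr_of_norm ?_ (himp.norm hab) (d := 2) (by simpa using h1)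
        rw [himp.eq_ind]
        exact virt_ind _ (AddSubgroup.subset_closure (lin_irr _))
      have hpk : pr (fun u : U => cch ρ u) (fun u : U => θ u) = 2 * k := by
        conv_lhs => rw [himp.eq_ind]
        rw [frob' N _ hfV.conj]
        exact hk
      refine ⟨k, by rw [hpk]; push_cast; rfl, fun η hη hne => ?_⟩
      have he : η = fun u : U => θ u := by
        by_contra hcon
        exact hne (pr_ne hirr hη (Ne.symm hcon))
      rw [he, hpk]
      simp only [Subgroup.coe_one, h1]
      push_cast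
      ring
  obtain ⟨k, hk, hk2⟩ := key
  refine ⟨k, hk, ?_⟩
  have h2 : ind U ((fun u : U => cch ρ u)
      - k • ind ((⊥ : Subgroup G).subgroupOf U) (fun _ => (1 : ℂ))) ∈ Good θ := by
    refine good_of_pr hc hU ?_ fun η hη hne => ?_
    · exact sub_mem (S := AddSubgroup (U → ℂ)) hfV
        (zsmul_mem (S := AddSubgroup (U → ℂ)) virt_botind k)
    · rw [pr_sub, hk2 η hη hne]
      have h3 : pr (k • ind ((⊥ : Subgroup G).subgroupOf U) (fun _ => (1 : ℂ))) η = k * η 1 := by
        rw [pr_comm]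
        have h4 : (k • ind ((⊥ : Subgroup G).subgroupOf U) (fun _ => (1 : ℂ)))
            = fun u => ∑ i ∈ ({()} : Finset Unit), (k : ℂ)
              * (fun _ : Unit => ind ((⊥ : Subgroup G).subgroupOf U) (fun _ => (1 : ℂ))) i u := by
          funext u
          simp
        rw [h4, pr_sum_right]
        simp only [Finset.sum_singleton]
        rw [pr_comm, pr_botind' (Irr.conj hη)]
      rw [h3, sub_self]
  rw [ind_sub, ← indHom_apply U (k • _), map_zsmul, indHom_apply] at h2
  have h4 : ind U (ind ((⊥ : Subgroup G).subgroupOf U) (fun _ => (1 : ℂ)))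
      = ind (⊥ : Subgroup G) (fun _ => (1 : ℂ)) := by
    rw [ind_tower (bot_le : (⊥ : Subgroup G) ≤ U) (fun _ => (1 : ℂ))]
  rw [h4] at h2
  exact h2

/-- **Rational characters modulo the good ones**, for Heilbronn characters of degree two and
determinant one -/
theorem rat_decomp (hθ : IsHeilbronn θ) (h1 : θ 1 = 2) (hd : ∀ g, dd θ g = 1) :
    ∃ k : ℤ, pr (cch ρ) θ = 2 * k ∧
      cch ρ - k • ind (⊥ : Subgroup G) (fun _ => (1 : ℂ)) ∈ Good θ := by
  classical
  have hV := virt_of_closure (cch_mem ρ)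
  have h2 := class_mem_sol hV.conj
  refine AddSubgroup.closure_induction (p := fun F _ => ∃ k : ℤ, pr F θ = 2 * k ∧
      F - k • ind (⊥ : Subgroup G) (fun _ => (1 : ℂ)) ∈ Good θ) ?_ ?_ ?_ ?_ h2
  · rintro F ⟨U, hU, rfl⟩
    obtain ⟨k, hk, hk2⟩ := hyp_even ρ hθ h1 hd hU
    refine ⟨k, ?_, hk2⟩
    rw [frob U _ hθ.conj]
    exact hk
  · exact ⟨0, by rw [pr_zero_left]; simp, by rw [zero_smul, sub_zero]; exact zero_mem _⟩
  · rintro x y - - ⟨k, hk, hk2⟩ ⟨l, hl, hl2⟩
    refine ⟨k + l, by rw [pr_add, hk, hl]; push_cast; ring, ?_⟩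
    have h3 := add_mem hk2 hl2
    rw [add_smul]
    convert h3 using 1
    abel
  · rintro x - ⟨k, hk, hk2⟩
    refine ⟨-k, by rw [pr_neg, hk]; push_cast; ring, ?_⟩
    have h3 := neg_mem hk2
    rw [neg_smul]
    convert h3 using 1
    abel

end rat

end Pool.Agent.R389
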