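import Mathlib
import Pool.Agent.R389.RatOne

/-!
# Real Heilbronn characters of degree two with nontrivial determinant
-/

set_option autoImplicit false
set_option linter.unusedSectionVars false

namespace Pool.Agent.R389

open Pool.Agent.H302R2 Pool.Agent.H302R3 Pool.Agent.H541R3.ART Pool.Agent.W446.AS

variable {G : Type} [Group G] [Finite G] {θ : G → ℂ}

/-- commutators of elements inverted modulo a normal subgroup -/
lemma comm_of_invol {Q : Type} [Group Q] {g x y : Q} (h1 : g * g = 1) (h2 : (g * x) * (g * x) = 1)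
    (h3 : (g * y) * (g * y) = 1) (h4 : (g * (x * y)) * (g * (x * y)) = 1) : x * y = y * x := by
  have e1 : g⁻¹ = g := inv_eq_of_mul_eq_one_left h1
  have e2 : g * x * g = x⁻¹ := by
    apply eq_inv_of_mul_eq_one_left
    rw [← h2]; group
  have e3 : g * y * g = y⁻¹ := by
    apply eq_inv_of_mul_eq_one_left
    rw [← h3]; group
  have e4 : g * (x * y) * g = (x * y)⁻¹ := by
    apply eq_inv_of_mul_eq_one_left
    rw [← h4]; group
  have e5 : g * (x * y) * g = x⁻¹ * y⁻¹ := by
    rw [← e2, ← e3]
    have : g * x * g * (g * y * g) = g * x * (g * g) * y * g := by group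
    rw [this, h1]; group
  rw [e4, mul_inv_rev] at e5
  have h6 := congrArg (fun z => z⁻¹) e5
  simpa using h6

/-- the classification for real characters with nontrivial determinant -/
theorem real_case (hθ : IsHeilbronn θ) (h1 : θ 1 = 2) {D : G →* ℂˣ}
    (hD : ∀ g, ((D g : ℂˣ) : ℂ) = dd θ g) (hr : ∀ g, D g ≠ 1 → θ g = 0 ∧ θ (g * g) = 2)
    (hne : ∃ g, D g ≠ 1) :
    Split θ ∨ ∃ (N : Subgroup G) (a b : N →* ℂˣ), Imp θ N a b ∧ a ≠ b := by
  classical
  have : Fact (Nat.Prime 2) := ⟨Nat.prime_two⟩
  have hDm : ∀ g, D g ≠ 1 → ((D g : ℂˣ) : ℂ) = -1 := by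
    intro g hg
    obtain ⟨h2, h3⟩ := hr g hg
    rw [hD, dd, h2, pow_two g, h3]
    norm_num
  have hD2 : ∀ g, D g ^ (2 ^ 1) = 1 := by
    intro g
    by_cases hg : D g = 1
    · rw [hg, one_pow]
    · apply Units.ext
      rw [Units.val_pow_eq_pow_val, hDm g hg]
      norm_num
  let P : Sylow 2 D.ker := default
  have hPp : IsPGroup 2 ((P : Subgroup D.ker).map D.ker.subtype) := P.isPGroup'.map _
  obtain ⟨R, hR⟩ := hPp.exists_le_sylow
  have hxR : ∀ x : P, ((x : D.ker) : G) ∈ (R : Subgroup G) := fun x => hR ⟨x, x.2, rfl⟩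
  -- an element of `R` outside the kernel
  obtain ⟨g, hgR, hg⟩ : ∃ g ∈ (R : Subgroup G), D g ≠ 1 := by
    obtain ⟨g₀, hg₀⟩ := hne
    obtain ⟨k, m, hm, hkm⟩ := exists_odd_part (orderOf g₀) (orderOf_pos g₀).ne'
    have h2 : (g₀ ^ m) ^ (2 ^ k) = 1 := by
      rw [← pow_mul, mul_comm, ← hkm, pow_orderOf_eq_one]
    obtain ⟨x, hx⟩ := exists_conj_mem R h2
    refine ⟨_, hx, ?_⟩
    rw [map_mul, map_mul, map_inv, mul_comm (D x), mul_inv_cancel_right, map_pow]
    intro h3
    apply hg₀
    refine eq_one_of_pow_coprime (m := m) (n := 2 ^ 1) ?_ h3 (hD2 g₀)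
    exact Nat.Coprime.pow_right _ (Nat.coprime_two_right.mpr hm)
  -- the kernel of `θ` on `R`
  let K : Subgroup (R : Subgroup G) :=
    { carrier := {x | θ x = 2}
      one_mem' := h1
      mul_mem' := by
        intro x y hx hy
        have h2 := hθ.pgroup_mul R.isPGroup' x.2 y.2 (by rw [h1]; exact hx) (by rw [h1]; exact hy)
        rw [h1] at h2
        exact h2
      inv_mem' := by
        intro x hx
        have h2 := heil_conj hθ (x : G)
        have h3 : θ (x : G) = 2 := hx
        rw [h3] at h2
        change θ ((x : G)⁻¹) = 2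
        rw [h2]
        exact Complex.conj_ofNat 2 }
  have hK : ∀ x : (R : Subgroup G), x ∈ K ↔ θ x = 2 := fun x => Iff.rfl
  have hKn : K.Normal := ⟨fun x hx y => by
    rw [hK] at hx ⊢
    have h2 := hθ.conj (x : G) (y : G)
    rw [hx] at h2
    exact h2⟩
  have hcomm : ∀ x y : P, θ (((x : D.ker) : G) * y * (x : D.ker)⁻¹ * ((y : D.ker) : G)⁻¹) = 2 := by
    intro x y
    let g' : (R : Subgroup G) := ⟨g, hgR⟩
    let x' : (R : Subgroup G) := ⟨((x : D.ker) : G), hxR x⟩
    let y' : (R : Subgroup G) := ⟨((y : D.ker) : G), hxR y⟩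
    have hDx : D ((x : D.ker) : G) = 1 := MonoidHom.mem_ker.mp (x : D.ker).2
    have hDy : D ((y : D.ker) : G) = 1 := MonoidHom.mem_ker.mp (y : D.ker).2
    have hq : ∀ z : (R : Subgroup G), D (z : G) ≠ 1 → (z : (R : Subgroup G) ⧸ K) * z = 1 := by
      intro z hz
      rw [← QuotientGroup.mk_mul]
      refine (QuotientGroup.eq_one_iff _).mpr ?_
      rw [hK]
      exact (hr z hz).2
    have h5 := comm_of_invol (Q := (R : Subgroup G) ⧸ K) (g := (g' : (R : Subgroup G) ⧸ K))
      (x := (x' : (R : Subgroup G) ⧸ K)) (y := (y' : (R : Subgroup G) ⧸ K)) (hq g' hg) (by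
        have := hq (g' * x') (by
          change D (g * ((x : D.ker) : G)) ≠ 1
          rw [map_mul, hDx, mul_one]; exact hg)
        simpa using this) (by
        have := hq (g' * y') (by
          change D (g * ((y : D.ker) : G)) ≠ 1
          rw [map_mul, hDy, mul_one]; exact hg)
        simpa using this) (by
        have := hq (g' * (x' * y')) (by
          change D (g * (((x : D.ker) : G) * ((y : D.ker) : G))) ≠ 1
          rw [map_mul, map_mul, hDx, hDy, mul_one, mul_one]; exact hg)
        simpa using this)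
    have h6 : ((x' * y' * x'⁻¹ * y'⁻¹ : (R : Subgroup G)) : (R : Subgroup G) ⧸ K) = 1 := by
      simp only [QuotientGroup.mk_mul, QuotientGroup.mk_inv]
      rw [h5]
      group
    have h7 := (QuotientGroup.eq_one_iff _).mp h6
    exact (hK _).mp h7
  -- splitting on `P`
  have hs : Split (fun x : P => θ ((x : D.ker) : G)) := by
    have hθP : IsHeilbronn (fun x : P => θ ((x : D.ker) : G)) :=
      hθ.comp (D.ker.subtype.comp (P : Subgroup D.ker).subtype)
    let KP : Subgroup P :=
      { carrier := {x | θ ((x : D.ker) : G) = 2}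
        one_mem' := h1
        mul_mem' := by
          intro x y hx hy
          have h2 := hθ.pgroup_mul R.isPGroup' (hxR x) (hxR y) (by rw [h1]; exact hx)
            (by rw [h1]; exact hy)
          rw [h1] at h2
          exact h2
        inv_mem' := by
          intro x hx
          have h2 := heil_conj hθ ((x : D.ker) : G)
          have h3 : θ ((x : D.ker) : G) = 2 := hx
          rw [h3] at h2
          change θ (((x : D.ker) : G)⁻¹) = 2
          rw [h2]
          exact Complex.conj_ofNat 2 }
    have hKP : ∀ x : P, x ∈ KP ↔ θ ((x : D.ker) : G) = 2 := fun x => Iff.rfl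
    have hKPn : KP.Normal := ⟨fun x hx y => by
      rw [hKP] at hx ⊢
      have h2 := hθ.conj ((x : D.ker) : G) ((y : D.ker) : G)
      rw [hx] at h2
      exact h2⟩
    refine hθP.split_of_quotient h1 KP ?_ ?_
    · intro a b
      induction a using QuotientGroup.induction_on with | _ x => ?_
      induction b using QuotientGroup.induction_on with | _ y => ?_
      have h2 : ((x * y * x⁻¹ * y⁻¹ : P) : P ⧸ KP) = 1 := by
        refine (QuotientGroup.eq_one_iff _).mpr ?_
        rw [hKP]
        exact hcomm x y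
      simp only [QuotientGroup.mk_mul, QuotientGroup.mk_inv] at h2
      have h3 := mul_inv_eq_one.mp h2
      exact mul_inv_eq_iff_eq_mul.mp h3
    · have : Fintype KP := Fintype.ofFinite _
      have h2 : ∀ n : KP, θ (((n : P) : D.ker) : G) = 2 := fun n => n.2
      have h3 : (∑ᶠ n : KP, θ (((n : P) : D.ker) : G)) ≠ 0 := by
        rw [finsum_congr h2, finsum_eq_sum_of_fintype, Finset.sum_const, Finset.card_univ,
          nsmul_eq_mul]
        apply mul_ne_zero _ two_ne_zero
        exact_mod_cast Fintype.card_ne_zero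
      exact h3
  exact classify1 hθ h1 hD hD2 P hs

end Pool.Agent.R389
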