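import Mathlib
import Pool.Agent.R389.RealTwo
import Pool.Agent.R389.TwoMain

/-!
# Deligne's conjecture for the Artin twists with rational coefficients
-/

set_option autoImplicit false
set_option linter.unusedSectionVars false

namespace Pool.Agent.R389

open Pool.Agent.H302R2 Pool.Agent.H302R3 Pool.Agent.H541R3.ART Pool.Agent.W446.AS Filter Topology

section descent

/-- an element of a number field whose conjugates agree is rational -/
lemma rat_of_embeddings {E : Type} [Field E] [NumberField E] (x : E) (z : ℂ)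
    (h : ∀ τ : E →+* ℂ, τ x = z) : ∃ q : ℚ, algebraMap ℚ E q = x := by
  classical
  have h1 := NumberField.Embeddings.range_eval_eq_rootSet_minpoly E ℂ x
  have h2 : (Set.range fun φ : E →+* ℂ => φ x) = {z} := by
    ext w
    constructor
    · rintro ⟨τ, rfl⟩
      exact h τ
    · intro hw
      obtain ⟨τ⟩ : Nonempty (E →+* ℂ) := inferInstance
      exact ⟨τ, (h τ).trans hw.symm⟩
  rw [h2] at h1
  have hint : IsIntegral ℚ x := Algebra.IsIntegral.isIntegral x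
  have hsep : (minpoly ℚ x).Separable := (minpoly.irreducible hint).separable
  have h3 := Polynomial.card_rootSet_eq_natDegree (K := ℂ) hsep
    (IsAlgClosed.splits _)
  have h4 : Fintype.card ((minpoly ℚ x).rootSet ℂ) = 1 := by
    rw [Fintype.card_eq_one_iff]
    refine ⟨⟨z, by rw [← h1]; rfl⟩, ?_⟩
    rintro ⟨w, hw⟩
    rw [← h1] at hw
    exact Subtype.ext hw
  rw [h4] at h3
  obtain ⟨q, hq⟩ := (minpoly.natDegree_eq_one_iff).mp h3.symm
  exact ⟨q, hq⟩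

end descent

variable {G : Type} [Group G] [Finite G] {E : Type} [Field E]
  {ℓ : (G → ℂ) → ℂ → ℂ} {P : (E →+* ℂ) → (G → ℂ) → ℂ} {c : ℂ}

/-- the algebraic part of the value of an induced character vanishes exactly when the order is
positive -/
lemma unit_iff (hL : ∀ χ ∈ Irr G, MeromorphicAt (ℓ χ) c ∧ meromorphicOrderAt (ℓ χ) c ≠ ⊤)
    (hP : ∀ τ, ∀ χ ∈ Irr G, P τ χ ≠ 0) {U : Subgroup G} {ψE : U →* Eˣ} {e : E}
    (he : DelZ (fun _ => ℓ) P c (ind U (fun u => ((ψE u : Eˣ) : E))) e)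
    (τ : E →+* ℂ) {ψ : U →* ℂˣ} (hψ : ∀ u, τ ((ψE u : Eˣ) : E) = ((ψ u : ℂˣ) : ℂ)) :
    pr (theta (ords ℓ c) : G → ℂ) (ind U (lc ψ)) = 0 ↔ e ≠ 0 := by
  classical
  obtain ⟨m, hm⟩ := ind_isDecomp U ψ
  have h1 : ∀ g, τ (ind U (fun u => ((ψE u : Eˣ) : E)) g)
      = ind U (fun h => ((ψ h : ℂˣ) : ℂ)) g := by
    intro g
    rw [ind_map]
    congr 1
    funext u
    exact hψ u
  have h2 := pr_ords (l := ℓ) (c := c) (m := fun χ => (m χ : ℤ))
    (fun χ hχ => by rw [hm.pr hχ]; simp)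
  have h3 := order_prod hL (irrF G) subset_rfl (fun χ => (m χ : ℤ))
  have h5 := he.2 τ
  have h6 : ∀ χ ∈ irrF G,
      mult (fun g => τ (ind U (fun u => ((ψE u : Eˣ) : E)) g)) χ = (m χ : ℤ) := by
    intro χ hχ
    apply mult_of_pr
    have h7 : (fun g => τ (ind U (fun u => ((ψE u : Eˣ) : E)) g))
        = ind U (fun h => ((ψ h : ℂˣ) : ℂ)) := funext h1
    rw [h7, hm.pr (mem_irrF.mp hχ)]
    simp
  have h8 : (fun s => ∏ χ ∈ irrF G, ℓ χ s ^
      mult (fun g => τ (ind U (fun u => ((ψE u : Eˣ) : E)) g)) χ)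
      = fun z => ∏ χ ∈ irrF G, ℓ χ z ^ ((m χ : ℕ) : ℤ) := by
    funext z
    exact Finset.prod_congr rfl fun χ hχ => by rw [h6 χ hχ]
  simp only at h5
  rw [h8] at h5
  have hPne : ∏ χ ∈ irrF G, P τ χ ^
      mult (fun g => τ (ind U (fun u => ((ψE u : Eˣ) : E)) g)) χ ≠ 0 :=
    Finset.prod_ne_zero_iff.mpr fun χ hχ => zpow_ne_zero _ (hP τ χ (mem_irrF.mp hχ))
  change pr (theta (ords ℓ c) : G → ℂ) (ind U (fun h => ((ψ h : ℂˣ) : ℂ))) = 0 ↔ e ≠ 0
  rw [h2]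
  constructor
  · intro h0
    have h4 : ∑ χ ∈ irrF G, (m χ : ℤ) * ords ℓ c χ = 0 := by exact_mod_cast h0
    rw [h4] at h3
    obtain ⟨a, ha, hlim⟩ := (tendsto_ne_zero_iff_meromorphicOrderAt_eq_zero h3.1).mpr h3.2
    have h9 := tendsto_nhds_unique h5 hlim
    intro h0
    rw [h0, map_zero, zero_mul] at h9
    exact ha h9.symm
  · intro hne
    have h9 : τ e * ∏ χ ∈ irrF G, P τ χ ^
      mult (fun g => τ (ind U (fun u => ((ψE u : Eˣ) : E)) g)) χ ≠ 0 :=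
      mul_ne_zero ((map_ne_zero τ).mpr hne) hPne
    have h10 := (tendsto_ne_zero_iff_meromorphicOrderAt_eq_zero h3.1).mp ⟨_, h9, h5⟩
    rw [h3.2] at h10
    have h11 : ∑ χ ∈ irrF G, (m χ : ℤ) * ords ℓ c χ = 0 := by exact_mod_cast h10
    rw [h11]
    norm_num

/-- the support of the orders is stable under complex conjugation -/
lemma supp_conj {ζ : E} (hζ : IsPrimitiveRoot ζ (Monoid.exponent G))
    (hL : ∀ χ ∈ Irr G, MeromorphicAt (ℓ χ) c ∧ meromorphicOrderAt (ℓ χ) c ≠ ⊤)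
    (hP : ∀ τ, ∀ χ ∈ Irr G, P τ χ ≠ 0)
    (hmon : ∀ (U : Subgroup G) (ψ : U →* Eˣ),
      Deligne (fun _ => ℓ) P c (ind U (fun u => ((ψ u : Eˣ) : E)))) (τ₀ : E →+* ℂ)
    (U : Subgroup G) (ψ : U →* ℂˣ) :
    pr (theta (ords ℓ c) : G → ℂ) (ind U (lc ψ)) = 0 ↔
      pr (theta (ords ℓ c) : G → ℂ) (ind U (lc ψ⁻¹)) = 0 := by
  obtain ⟨ψE, hψE⟩ := lift_char hζ τ₀ U ψ
  obtain ⟨e, he⟩ := delZ_ind (hmon U ψE)
  rw [unit_iff hL hP he τ₀ hψE, unit_iff hL hP he ((starRingEnd ℂ).comp τ₀)]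
  intro u
  rw [RingHom.comp_apply, hψE, conj_char]
  rfl

/-- reality outside the kernel of the determinant -/
lemma real_out {θ : G → ℂ} (hθ : IsHeilbronn θ) (h1 : θ 1 = 2)
    (hc : ∀ (U : Subgroup G) (ψ : U →* ℂˣ), pr θ (ind U (lc ψ)) = 0 ↔
      pr θ (ind U (lc ψ⁻¹)) = 0) (g : G) (hg : dd θ g ≠ 1) : θ g = 0 ∧ θ (g * g) = 2 := by
  classical
  obtain ⟨ψ, φ, hs⟩ := (hθ.comp (Subgroup.zpowers g).subtype).comm_two (zpowers_comm g)
    (by simpa using h1)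
  let x : Subgroup.zpowers g := ⟨g, Subgroup.mem_zpowers g⟩
  have hs' : ∀ e : Subgroup.zpowers g, θ e = ((ψ e : ℂˣ) : ℂ) + ((φ e : ℂˣ) : ℂ) := hs
  have hdd : dd θ g = ((ψ x : ℂˣ) : ℂ) * ((φ x : ℂˣ) : ℂ) := dd_of_sum (θ := fun e : Subgroup.zpowers g => θ e) hs' x
  have hpr : ∀ ω : Subgroup.zpowers g →* ℂˣ, pr θ (ind (Subgroup.zpowers g) (lc ω))
      = (if ψ = ω then 1 else 0) + (if φ = ω then 1 else 0) := by
    intro ω
    rw [frob' _ _ hθ.conj, pr_two ψ φ ω hs']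
  have hz : ∀ ω : Subgroup.zpowers g →* ℂˣ,
      ((if ψ = ω then (1 : ℂ) else 0) + (if φ = ω then 1 else 0) = 0) ↔ ¬ (ψ = ω ∨ φ = ω) := by
    intro ω
    by_cases a1 : ψ = ω
    · rw [if_pos a1]
      refine ⟨fun h => ?_, fun h => absurd (Or.inl a1) h⟩
      by_cases a2 : φ = ω
      · rw [if_pos a2] at h; norm_num at h
      · rw [if_neg a2] at h; norm_num at h
    · rw [if_neg a1]
      by_cases a2 : φ = ω
      · rw [if_pos a2]
        exact ⟨fun h => by norm_num at h, fun h => absurd (Or.inr a2) h⟩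
      · rw [if_neg a2]
        exact ⟨fun _ h => h.elim a1 a2, fun _ => by norm_num⟩
  have hii : ∀ ω : Subgroup.zpowers g →* ℂˣ, ω⁻¹⁻¹ = ω := by
    intro ω
    ext y
    simp
  have hmem : ∀ ω : Subgroup.zpowers g →* ℂˣ, (ψ = ω ∨ φ = ω) ↔ (ψ = ω⁻¹ ∨ φ = ω⁻¹) := by
    intro ω
    have h2 := hc (Subgroup.zpowers g) ω
    rw [hpr, hpr, hz, hz, not_iff_not] at h2
    exact h2
  have hne : ψ⁻¹ ≠ φ := by
    intro h2
    apply hg
    rw [hdd, ← h2, MonoidHom.inv_apply, ← Units.val_mul, mul_inv_cancel, Units.val_one]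
  have hψ : ψ = ψ⁻¹ := by
    rcases (hmem ψ).mp (Or.inl rfl) with h2 | h2
    · exact h2
    · exact absurd h2.symm hne
  have hφ : φ = φ⁻¹ := by
    rcases (hmem φ).mp (Or.inr rfl) with h2 | h2
    · exact absurd (by rw [h2, hii]) hne
    · exact h2
  have hsq : ∀ ω : Subgroup.zpowers g →* ℂˣ, ω = ω⁻¹ →
      ((ω x : ℂˣ) : ℂ) = 1 ∨ ((ω x : ℂˣ) : ℂ) = -1 := by
    intro ω hω
    have h2 : ω x * ω x = 1 := by
      have h4 : ω x = (ω x)⁻¹ := congrArg (fun f : Subgroup.zpowers g →* ℂˣ => f x) hω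
      conv_lhs => rw [h4]
      rw [← h4]
      conv_lhs =>
        enter [1]
        rw [h4]
      exact inv_mul_cancel _
    have h3 : ((ω x : ℂˣ) : ℂ) * ((ω x : ℂˣ) : ℂ) = 1 := by
      rw [← Units.val_mul, h2, Units.val_one]
    exact mul_self_eq_one_iff.mp h3
  have e1 : θ g = ((ψ x : ℂˣ) : ℂ) + ((φ x : ℂˣ) : ℂ) := hs' x
  have e2 : θ (g * g) = ((ψ x : ℂˣ) : ℂ) * ((ψ x : ℂˣ) : ℂ)
      + ((φ x : ℂˣ) : ℂ) * ((φ x : ℂˣ) : ℂ) := by
    have h2 := hs' (x * x)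
    rw [map_mul, map_mul, Units.val_mul, Units.val_mul] at h2
    exact h2
  rw [hdd] at hg
  rcases hsq ψ hψ with h2 | h2 <;> rcases hsq φ hφ with h3 | h3 <;> rw [h2, h3] at hg e1 e2
  · exact absurd (by norm_num) hg
  · exact ⟨by rw [e1]; norm_num, by rw [e2]; norm_num⟩
  · exact ⟨by rw [e1]; norm_num, by rw [e2]; norm_num⟩
  · exact absurd (by norm_num) hg

end Pool.Agent.R389
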