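import Mathlib
import Pool.Agent.R389.RatMain

/-!
# Deligne's conjecture for the Artin twists with rational coefficients, II
-/

set_option autoImplicit false
set_option linter.unusedSectionVars false

namespace Pool.Agent.R389

open Pool.Agent.H302R2 Pool.Agent.H302R3 Pool.Agent.H541R3.ART Pool.Agent.W446.AS Filter Topology

variable {G : Type} [Group G] [Finite G] {E : Type} [Field E]
  {L : (E →+* ℂ) → (G → ℂ) → ℂ → ℂ}
  {ℓ : (G → ℂ) → ℂ → ℂ} {P : (E →+* ℂ) → (G → ℂ) → ℂ} {c : ℂ}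

/-- old zeros for a `p`-group quotient -/
lemma old_main' {ζ : E} (hζ : IsPrimitiveRoot ζ (Monoid.exponent G))
    (hL : ∀ τ, ∀ χ ∈ Irr G, MeromorphicAt (L τ χ) c ∧ meromorphicOrderAt (L τ χ) c ≠ ⊤)
    (hP : ∀ τ, ∀ χ ∈ Irr G, P τ χ ≠ 0)
    (hmon : ∀ (U : Subgroup G) (ψ : U →* Eˣ), Hyper U →
      Deligne L P c (ind U (fun u => ((ψ u : Eˣ) : E)))) (τ₀ : E →+* ℂ)
    {p : ℕ} (hp : p.Prime) (K : Subgroup G) [hKn : K.Normal] (hQ : IsPGroup p (G ⧸ K))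
    (lam : G →* ℂˣ)
    (hK : ∀ k ∈ K, (theta (ords (L τ₀) c) : G → ℂ) k
        = ((lam k : ℂˣ) : ℂ) * (theta (ords (L τ₀) c) : G → ℂ) 1)
    {F : G → E} (hF : (fun g => τ₀ (F g)) ∈ AddSubmonoid.closure (Irr G)) :
    Deligne L P c F := by
  obtain ⟨a, ha, s, hs, hf⟩ := decomp hp K hQ lam hF
  obtain ⟨fa, ea, ha1, ha2⟩ := mon_del hζ hL hP hmon τ₀ ha
  obtain ⟨fs, es, hs1, -, hs2⟩ := new_unit hζ hL hP hmon τ₀ hK hs
  have h1 : F = fa + fs := by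
    funext g
    apply τ₀.injective
    rw [Pi.add_apply, map_add, ha1, hs1]
    exact congrFun hf g
  rw [h1]
  exact (ha2.add hL hP hs2).deligne

lemma nat_lin {f : G → ℂ} (hf : f ∈ AddSubmonoid.closure (Irr G)) (l : G →* ℂˣ) :
    ∃ n : ℕ, pr f (lc l) = n := by
  refine nat_closure (fun η hη => ?_) hf
  by_cases he : η = lc l
  · exact ⟨1, by rw [he, pr_self (lin_irr l)]; simp⟩
  · exact ⟨0, by rw [pr_ne hη (lin_irr l) he]; simp⟩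

lemma top_pgroup : IsPGroup 2 (G ⧸ (⊤ : Subgroup G)) := by
  intro q
  refine ⟨0, ?_⟩
  obtain ⟨g, rfl⟩ := QuotientGroup.mk_surjective q
  rw [pow_zero, pow_one]
  exact (QuotientGroup.eq_one_iff g).mpr (Subgroup.mem_top g)

/-- the conjecture when `θ` is a sum of two linear characters -/
lemma main_split {ζ : E} (hζ : IsPrimitiveRoot ζ (Monoid.exponent G))
    (hL : ∀ τ, ∀ χ ∈ Irr G, MeromorphicAt (L τ χ) c ∧ meromorphicOrderAt (L τ χ) c ≠ ⊤)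
    (hP : ∀ τ, ∀ χ ∈ Irr G, P τ χ ≠ 0)
    (hmon : ∀ (U : Subgroup G) (ψ : U →* Eˣ), Hyper U →
      Deligne L P c (ind U (fun u => ((ψ u : Eˣ) : E)))) (τ₀ : E →+* ℂ)
    (h1 : (theta (ords (L τ₀) c) : G → ℂ) 1 = 2)
    (hs : Split (theta (ords (L τ₀) c) : G → ℂ))
    {F : G → E} (hF : (fun g => τ₀ (F g)) ∈ AddSubmonoid.closure (Irr G)) :
    Deligne L P c F := by
  classical
  obtain ⟨l₁, l₂, hs⟩ := hs
  have hθ := hh_ords hζ hL hmon τ₀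
  by_cases hl : l₁ = l₂
  · refine old_main' hζ hL hP hmon τ₀ Nat.prime_two ⊤ top_pgroup l₁ (fun k _ => ?_) hF
    rw [hs k, h1, hl]; ring
  · obtain ⟨Z, hZ, h2⟩ := split_decomp hθ hs hl
    obtain ⟨k₁, k₂, h3, h4, h5⟩ := h2 _ (virt_of_closure hF)
    obtain ⟨n₁, hn₁⟩ := nat_lin hF l₁
    obtain ⟨n₂, hn₂⟩ := nat_lin hF l₂
    have e1 : k₁ = n₁ := by
      rw [hn₁] at h3; exact_mod_cast h3.symm
    have e2 : k₂ = n₂ := by
      rw [hn₂] at h4; exact_mod_cast h4.symm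
    rw [e1, e2, natCast_zsmul, natCast_zsmul] at h5
    exact finish hζ hL hP hmon τ₀ (add_mem (nsmul_mem (mono_memP hZ _) n₁)
      (nsmul_mem (mono_memP hZ _) n₂)) h5

/-- the conjecture when `θ` is imprimitive -/
lemma main_imp {ζ : E} (hζ : IsPrimitiveRoot ζ (Monoid.exponent G))
    (hL : ∀ τ, ∀ χ ∈ Irr G, MeromorphicAt (L τ χ) c ∧ meromorphicOrderAt (L τ χ) c ≠ ⊤)
    (hP : ∀ τ, ∀ χ ∈ Irr G, P τ χ ≠ 0)
    (hmon : ∀ (U : Subgroup G) (ψ : U →* Eˣ), Hyper U →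
      Deligne L P c (ind U (fun u => ((ψ u : Eˣ) : E)))) (τ₀ : E →+* ℂ)
    {N : Subgroup G} {a b : N →* ℂˣ}
    (himp : Imp (theta (ords (L τ₀) c) : G → ℂ) N a b) (hab : a ≠ b)
    {F : G → E} (hF : (fun g => τ₀ (F g)) ∈ AddSubmonoid.closure (Irr G)) :
    Deligne L P c F := by
  classical
  have hθ := hh_ords hζ hL hmon τ₀
  obtain ⟨Z, ω, hZ, h2⟩ := imp_decomp hθ himp hab
  obtain ⟨k, h3, h4⟩ := h2 _ (virt_of_closure hF)
  obtain ⟨n, hn⟩ := nat_closure (fun χ hχ => himp.nat hχ) hF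
  have e1 : k = n := by
    rw [hn] at h3; exact_mod_cast h3.symm
  rw [e1, natCast_zsmul] at h4
  exact finish hζ hL hP hmon τ₀ (nsmul_mem (mono_memP hZ _) n) h4

lemma hyper_bot : Hyper (⊥ : Subgroup G) := by
  have h0 : ∀ u : (⊥ : Subgroup G), u = 1 := fun u => Subtype.ext (Subgroup.mem_bot.mp u.2)
  refine ⟨2, Nat.prime_two, 1, by simp, fun u => ?_, fun u => ⟨0, ?_⟩⟩
  · rw [h0 u]; simp
  · rw [h0 u]; simp

/-- **Order at most two, rational coefficients.** -/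
theorem main_rat [NumberField E] {ζ : E} (hζ : IsPrimitiveRoot ζ (Monoid.exponent G))
    (hL : ∀ χ ∈ Irr G, MeromorphicAt (ℓ χ) c ∧ meromorphicOrderAt (ℓ χ) c ≠ ⊤)
    (hP : ∀ τ, ∀ χ ∈ Irr G, P τ χ ≠ 0)
    (hmon : ∀ (U : Subgroup G) (ψ : U →* Eˣ),
      Deligne (fun _ => ℓ) P c (ind U (fun u => ((ψ u : Eˣ) : E))))
    {deg : (G → ℂ) → ℕ} (hdeg : ∀ χ ∈ Irr G, χ 1 = deg χ)
    (hz : meromorphicOrderAt (fun s => ∏ᶠ χ ∈ Irr G, ℓ χ s ^ deg χ) c ≤ 2)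
    {V : Type} [AddCommGroup V] [Module ℚ V] [FiniteDimensional ℚ V] (ρ : Representation ℚ G V)
    {m : (G → ℂ) → ℕ} (hm : IsDecomp (cch ρ) m)
    (hpole : 0 ≤ meromorphicOrderAt (fun s => ∏ᶠ χ ∈ Irr G, ℓ χ s ^ m χ) c) :
    Deligne (fun _ => ℓ) P c (fun g => algebraMap ℚ E (ρ.character g)) := by
  classical
  obtain ⟨τ₀⟩ : Nonempty (E →+* ℂ) := inferInstance
  have hL' : ∀ τ : E →+* ℂ, ∀ χ ∈ Irr G, MeromorphicAt ((fun _ : E →+* ℂ => ℓ) τ χ) c ∧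
      meromorphicOrderAt ((fun _ : E →+* ℂ => ℓ) τ χ) c ≠ ⊤ := fun _ => hL
  have hmon' : ∀ (U : Subgroup G) (ψ : U →* Eˣ), Hyper U →
      Deligne (fun _ => ℓ) P c (ind U (fun u => ((ψ u : Eˣ) : E))) := fun U ψ _ => hmon U ψ
  have hF : (fun g => τ₀ (algebraMap ℚ E (ρ.character g))) = cch ρ := by
    funext g
    rw [eq_ratCast, map_ratCast]
    rfl
  have hb : (fun g => τ₀ (algebraMap ℚ E (ρ.character g))) ∈ AddSubmonoid.closure (Irr G) := by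
    rw [hF]; exact cch_mem ρ
  have hθ : HH (theta (ords ℓ c) : G → ℂ) := hh_ords hζ hL' hmon' τ₀
  have hθH : IsHeilbronn (theta (ords ℓ c) : G → ℂ) := heil_ords hζ hL' hmon τ₀
  have htop := top_order hL deg
  have hone := theta_one_eq (c := c) (l := ℓ) hdeg
  obtain ⟨r, hr⟩ := hθ.deg
  have h1 : (∑ χ ∈ irrF G, (deg χ : ℤ) * ords ℓ c χ) = (r : ℤ) := by
    rw [hone] at hr
    exact_mod_cast hr
  rw [h1] at htop
  by_cases hr1 : r ≤ 1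
  · obtain ⟨lam, hlam⟩ := hθ.deg_le_one (theta_virt _) hr hr1
    exact old_main' hζ hL' hP hmon' τ₀ Nat.prime_two ⊤ top_pgroup lam (fun k _ => hlam k) hb
  have hr2 : r = 2 := by
    rw [htop] at hz
    have h2 : ((r : ℤ) : WithTop ℤ) ≤ ((2 : ℤ) : WithTop ℤ) := hz
    have h3 : (r : ℤ) ≤ 2 := WithTop.coe_le_coe.mp h2
    omega
  rw [hr2] at hr
  have hr' : (theta (ords ℓ c) : G → ℂ) 1 = 2 := by rw [hr]; norm_num
  obtain ⟨D, hD⟩ := hθH.exists_det hr'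
  by_cases hne : ∃ g, D g ≠ 1
  · have hreal : ∀ g, D g ≠ 1 → (theta (ords ℓ c) : G → ℂ) g = 0 ∧
        (theta (ords ℓ c) : G → ℂ) (g * g) = 2 := by
      intro g hg
      refine real_out hθH hr' (fun U ψ => supp_conj hζ hL hP hmon τ₀ U ψ) g ?_
      rw [← hD]
      intro h2
      exact hg (Units.ext h2)
    rcases real_case hθH hr' hD hreal hne with hs | ⟨N, a, b, himp, hab⟩
    · exact main_split hζ hL' hP hmon' τ₀ hr' hs hb
    · exact main_imp hζ hL' hP hmon' τ₀ himp hab hb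
  · have hd : ∀ g, dd (theta (ords ℓ c) : G → ℂ) g = 1 := by
      intro g
      by_contra h2
      apply hne
      refine ⟨g, fun h3 => h2 ?_⟩
      rw [← hD, h3, Units.val_one]
    obtain ⟨k, hk, hgood⟩ := rat_decomp ρ hθH hr' hd
    have hk0 : 0 ≤ k := by
      have h3 := order_prod hL (irrF G) subset_rfl (fun χ => (m χ : ℤ))
      have h4 : (fun s => ∏ᶠ χ ∈ Irr G, ℓ χ s ^ m χ)
          = fun z => ∏ χ ∈ irrF G, ℓ χ z ^ ((m χ : ℕ) : ℤ) := by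
        funext s
        rw [finprod_irr (fun χ => ℓ χ s ^ m χ)]
        exact Finset.prod_congr rfl fun χ _ => by rw [zpow_natCast]
      rw [h4, h3.2] at hpole
      have h5 := pr_ords (l := ℓ) (c := c) (m := fun χ => (m χ : ℤ))
        (fun χ hχ => by rw [hm.pr hχ]; simp)
      rw [pr_comm, hk] at h5
      have h6 : (0 : ℤ) ≤ ∑ χ ∈ irrF G, (m χ : ℤ) * ords ℓ c χ := by exact_mod_cast hpole
      have h7 : 2 * k = ∑ χ ∈ irrF G, (m χ : ℤ) * ords ℓ c χ := by exact_mod_cast h5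
      omega
    obtain ⟨n, rfl⟩ := Int.eq_ofNat_of_zero_le hk0
    refine finish hζ hL' hP hmon' τ₀ (a := (n : ℕ) • ind (⊥ : Subgroup G) (fun _ => (1 : ℂ))) ?_ ?_
    · refine nsmul_mem ?_ n
      have h3 := mono_memP (G := G) hyper_bot (1 : (⊥ : Subgroup G) →* ℂˣ)
      exact h3
    · rw [hF, ← natCast_zsmul]
      exact hgood

/-- **The rational form.** -/
theorem main_rat' [NumberField E] {ζ : E} (hζ : IsPrimitiveRoot ζ (Monoid.exponent G))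
    (hL : ∀ χ ∈ Irr G, MeromorphicAt (ℓ χ) c ∧ meromorphicOrderAt (ℓ χ) c ≠ ⊤)
    (hP : ∀ τ, ∀ χ ∈ Irr G, P τ χ ≠ 0)
    (hmon : ∀ (U : Subgroup G) (ψ : U →* Eˣ),
      Deligne (fun _ => ℓ) P c (ind U (fun u => ((ψ u : Eˣ) : E))))
    {deg : (G → ℂ) → ℕ} (hdeg : ∀ χ ∈ Irr G, χ 1 = deg χ)
    (hz : meromorphicOrderAt (fun s => ∏ᶠ χ ∈ Irr G, ℓ χ s ^ deg χ) c ≤ 2)
    {V : Type} [AddCommGroup V] [Module ℚ V] [FiniteDimensional ℚ V] (ρ : Representation ℚ G V)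
    {m : (G → ℂ) → ℕ} (hm : IsDecomp (fun g => ((ρ.character g : ℚ) : ℂ)) m)
    (hpole : 0 ≤ meromorphicOrderAt (fun s => ∏ᶠ χ ∈ Irr G, ℓ χ s ^ m χ) c)
    {Ω : ℂ} {u : E} (hΩ : ∀ τ : E →+* ℂ, ∏ᶠ χ ∈ Irr G, P τ χ ^ m χ = τ u * Ω) :
    ∃ q : ℚ, Tendsto (fun s => ∏ᶠ χ ∈ Irr G, ℓ χ s ^ m χ) (𝓝[≠] c) (𝓝 (q * Ω)) := by
  classical
  obtain ⟨e, he⟩ := main_rat hζ hL hP hmon hdeg hz ρ hm hpole
  have hF : ∀ τ : E →+* ℂ, (fun g => τ (algebraMap ℚ E (ρ.character g)))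
      = fun g => ((ρ.character g : ℚ) : ℂ) := by
    intro τ
    funext g
    rw [eq_ratCast, map_ratCast]
  have h1 : ∀ τ : E →+* ℂ, Tendsto (fun s => ∏ᶠ χ ∈ Irr G, ℓ χ s ^ m χ) (𝓝[≠] c)
      (𝓝 (τ (e * u) * Ω)) := by
    intro τ
    have h2 := he τ m (by rw [hF]; exact hm)
    rw [hΩ, ← mul_assoc, ← map_mul] at h2
    exact h2
  obtain ⟨τ₀⟩ : Nonempty (E →+* ℂ) := inferInstance
  have hΩ0 : Ω ≠ 0 := by
    intro h0
    have h2 := hΩ τ₀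
    rw [h0, mul_zero, finprod_irr (fun χ => P τ₀ χ ^ m χ)] at h2
    exact Finset.prod_ne_zero_iff.mpr (fun χ hχ => pow_ne_zero _ (hP τ₀ χ (mem_irrF.mp hχ))) h2
  obtain ⟨q, hq⟩ := rat_of_embeddings (e * u) (τ₀ (e * u)) (fun τ => by
    have h2 := tendsto_nhds_unique (h1 τ) (h1 τ₀)
    exact mul_right_cancel₀ hΩ0 h2)
  refine ⟨q, ?_⟩
  have h2 := h1 τ₀
  rw [← hq, eq_ratCast, map_ratCast] at h2
  exact h2

end Pool.Agent.R389
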