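import Mathlib
import Pool.Agent.R389.Eppo

/-!
# Deligne's conjecture for the new part
-/

set_option autoImplicit false
set_option linter.unusedSectionVars false

namespace Pool.Agent.R389

open Pool.Agent.H302R2 Pool.Agent.H302R3 Pool.Agent.H541R3.ART Pool.Agent.W446.AS Filter Topology

variable {G : Type} [Group G] [Finite G] {E : Type} [Field E]
  {L : (E →+* ℂ) → (G → ℂ) → ℂ → ℂ} {P : (E →+* ℂ) → (G → ℂ) → ℂ} {c : ℂ}

lemma DelZ.spec {f : G → E} {e : E} (h : DelZ L P c f e) (τ : E →+* ℂ) (m : (G → ℂ) → ℕ)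
    (hm : IsDecomp (fun g => τ (f g)) m) :
    Tendsto (fun s => ∏ᶠ χ ∈ Irr G, L τ χ s ^ m χ) (𝓝[≠] c)
      (𝓝 (τ e * ∏ᶠ χ ∈ Irr G, P τ χ ^ m χ)) := by
  have hmult : ∀ χ ∈ irrF G, mult (fun g => τ (f g)) χ = (m χ : ℤ) := by
    intro χ hχ
    apply mult_of_pr
    rw [hm.pr (mem_irrF.mp hχ)]
    simp
  have h1 := h.2 τ
  have h2 : ∏ᶠ χ ∈ Irr G, P τ χ ^ m χ = ∏ χ ∈ irrF G, P τ χ ^ mult (fun g => τ (f g)) χ := by
    rw [finprod_irr (fun χ => P τ χ ^ m χ)]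
    exact Finset.prod_congr rfl fun χ hχ => by rw [hmult χ hχ, zpow_natCast]
  rw [h2]
  refine h1.congr fun s => ?_
  rw [finprod_irr (fun χ => L τ χ s ^ m χ)]
  exact Finset.prod_congr rfl fun χ hχ => by rw [hmult χ hχ, zpow_natCast]

/-- the average of the twist of a character is nonnegative, and vanishes only if the twist has no
invariants -/
lemma avg_char (K : Subgroup G) [K.Normal] (lam : G →* ℂˣ) {f : G → ℂ}
    (hf : f ∈ AddSubmonoid.closure (Irr G)) :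
    ∃ d : ℕ, inv K (twHom lam⁻¹ f) 1 = d ∧ (d = 0 → inv K (twHom lam⁻¹ f) = 0) := by
  classical
  induction hf using AddSubmonoid.closure_induction with
  | zero =>
    refine ⟨0, ?_, fun _ => ?_⟩
    · rw [map_zero, ← invHom_apply, map_zero]; simp
    · rw [map_zero, ← invHom_apply, map_zero]
  | add a b _ _ ha hb =>
    obtain ⟨d, h1, h2⟩ := ha
    obtain ⟨d', h1', h2'⟩ := hb
    have h3 : inv K (twHom lam⁻¹ (a + b)) = inv K (twHom lam⁻¹ a) + inv K (twHom lam⁻¹ b) := by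
      rw [map_add, ← invHom_apply, map_add]
      rfl
    refine ⟨d + d', ?_, fun h => ?_⟩
    · rw [h3, Pi.add_apply, h1, h1']; push_cast; rfl
    · rw [h3, h2 (by omega), h2' (by omega), add_zero]
  | mem χ hχ =>
    have hχ' := irr_twist hχ lam⁻¹
    change ∃ d : ℕ, inv K (fun g => χ g * ((lam⁻¹ g : ℂˣ) : ℂ)) 1 = d ∧
      (d = 0 → inv K (fun g => χ g * ((lam⁻¹ g : ℂˣ) : ℂ)) = 0)
    rcases irr_inv K hχ' with h | ⟨-, h⟩
    · obtain ⟨d, hd, hd1⟩ := irr_deg_pos hχ'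
      rw [inv_of_const K h]
      exact ⟨d, hd1, fun h0 => by omega⟩
    · exact ⟨0, by rw [h]; simp, fun _ => h⟩

/-- **The new part.** -/
theorem main_new {ζ : E} (hζ : IsPrimitiveRoot ζ (Monoid.exponent G))
    (hL : ∀ τ, ∀ χ ∈ Irr G, MeromorphicAt (L τ χ) c ∧ meromorphicOrderAt (L τ χ) c ≠ ⊤)
    (hP : ∀ τ, ∀ χ ∈ Irr G, P τ χ ≠ 0)
    (hmon : ∀ (U : Subgroup G) (ψ : U →* Eˣ), Hyper U →
      Deligne L P c (ind U (fun u => ((ψ u : Eˣ) : E)))) (τ₀ : E →+* ℂ)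
    {deg : (G → ℂ) → ℕ} (hdeg : ∀ χ ∈ Irr G, χ 1 = deg χ)
    (K : Subgroup G) [hKn : K.Normal] (he : ∀ x : G ⧸ K, x = 1 ∨ IsPrimePow (orderOf x))
    (lam : G →* ℂˣ)
    (hz : meromorphicOrderAt (fun s => ∏ᶠ χ ∈ Irr G, L τ₀ χ s ^ deg χ) c ≤
      meromorphicOrderAt (fun s => ∏ᶠ χ ∈ {χ ∈ Irr G | ∀ k ∈ K, χ k = χ 1 * ((lam k : ℂˣ) : ℂ)},
            L τ₀ χ s ^ deg χ) c)
    {V : Type} [AddCommGroup V] [Module E V] [FiniteDimensional E V] (ρ : Representation E G V)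
    (hρ : ∑ᶠ k : K, τ₀ (ρ.character k) * (((lam k)⁻¹ : ℂˣ) : ℂ) = 0) :
    ∃ e : E, e ≠ 0 ∧ ∀ (τ : E →+* ℂ) (m : (G → ℂ) → ℕ),
      IsDecomp (fun g => τ (ρ.character g)) m →
      Tendsto (fun s => ∏ᶠ χ ∈ Irr G, L τ χ s ^ m χ) (𝓝[≠] c)
        (𝓝 (τ e * ∏ᶠ χ ∈ Irr G, P τ χ ^ m χ)) := by
  classical
  have : Fintype K := Fintype.ofFinite K
  have hK := zeros_old hζ hL hmon τ₀ hdeg K lam hz
  have hb := base_change τ₀ ρ
  obtain ⟨d, hd1, hd2⟩ := avg_char K lam hb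
  have h0 : inv K (twHom lam⁻¹ (fun g => τ₀ (ρ.character g))) 1 = 0 := by
    rw [inv_eq]
    rw [finsum_eq_sum_of_fintype] at hρ
    have h1 : ∑ k : K, twHom lam⁻¹ (fun g => τ₀ (ρ.character g)) (1 * k)
        = ∑ k : K, τ₀ (ρ.character k) * (((lam k)⁻¹ : ℂˣ) : ℂ) := by
      refine Finset.sum_congr rfl fun k _ => ?_
      rw [one_mul]
      rfl
    rw [h1, hρ, mul_zero]
  rw [h0] at hd1
  have hd0 : d = 0 := by exact_mod_cast hd1.symm
  have hVirt : Virt (twHom lam⁻¹ (fun g => τ₀ (ρ.character g))) := by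
    have h3 : AddSubmonoid.closure (Irr G) ≤ ((AddSubgroup.closure (Irr G)).comap
        (twHom lam⁻¹)).toAddSubmonoid := by
      rw [AddSubmonoid.closure_le]
      intro χ hχ
      exact AddSubgroup.subset_closure (irr_twist hχ _)
    exact h3 hb
  have h1 := new_twist K lam (new_of_inv_zero K he hVirt (hd2 hd0))
  have hback : twHom lam (twHom lam⁻¹ (fun g => τ₀ (ρ.character g)))
      = fun g => τ₀ (ρ.character g) := by
    funext g
    change τ₀ (ρ.character g) * ((lam⁻¹ g : ℂˣ) : ℂ) * ((lam g : ℂˣ) : ℂ) = τ₀ (ρ.character g)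
    rw [MonoidHom.inv_apply, mul_assoc, ← Units.val_mul, inv_mul_cancel, Units.val_one, mul_one]
  rw [AddSubgroup.mem_comap, hback] at h1
  obtain ⟨f, e, hf, he0, hfe⟩ := new_unit hζ hL hP hmon τ₀ hK h1
  have h2 : ρ.character = f := by
    funext g
    exact τ₀.injective (hf g).symm
  rw [h2]
  exact ⟨e, he0, fun τ m hm => hfe.spec τ m hm⟩

end Pool.Agent.R389
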