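import Mathlib
import Pool.Agent.R389.Brauer
import Pool.Agent.H302R2.Alperin

/-!
# Systems of nilpotent subgroups covering a nilpotent quotient: preparations
-/

set_option autoImplicit false
set_option linter.unusedSectionVars false

namespace Pool.Agent.R389

open Pool.Agent.H302R2 Subgroup
open scoped Pointwise

variable {G : Type} [Group G] [Finite G]

/-- `R` is a maximal `p`-subgroup of `D` -/
def Syl (p : ℕ) (D R : Subgroup G) : Prop :=
  R ≤ D ∧ IsPGroup p R ∧ ∀ R' : Subgroup G, R' ≤ D → IsPGroup p R' → R ≤ R' → R' = R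

lemma exists_syl {p : ℕ} {D T : Subgroup G} (hT : IsPGroup p T) (hTD : T ≤ D) :
    ∃ R, Syl p D R ∧ T ≤ R := by
  obtain ⟨Q, hQ⟩ := (hT.comap_subtype (K := D)).exists_le_sylow
  refine ⟨(Q : Subgroup D).map D.subtype, ⟨map_subtype_le _, Q.isPGroup'.map _, ?_⟩, ?_⟩
  · intro R' hR' hp hle
    have h1 : (Q : Subgroup D) ≤ R'.subgroupOf D := by
      intro x hx
      exact hle ⟨x, hx, rfl⟩
    have h2 := Q.is_maximal' (hp.comap_subtype (K := D)) h1
    have h3 : R'.subgroupOf D = (Q : Subgroup D) := h2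
    rw [← h3, subgroupOf_map_subtype, inf_of_le_left hR']
  · intro x hx
    exact ⟨⟨x, hTD hx⟩, hQ (by rw [mem_comap]; exact hx), rfl⟩

lemma conj_syl {p : ℕ} [Fact p.Prime] {D R R' : Subgroup G} (h : Syl p D R) (h' : Syl p D R') :
    ∃ n ∈ D, cj n R = R' := by
  have mk : ∀ R : Subgroup G, Syl p D R → ∃ Q : Sylow p D, (Q : Subgroup D) = R.subgroupOf D := by
    intro R h
    refine ⟨⟨R.subgroupOf D, h.2.1.comap_subtype (K := D), ?_⟩, rfl⟩
    intro Q hQ hle
    have h1 : Q.map D.subtype = R := by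
      refine h.2.2 _ (map_subtype_le _) (hQ.map _) ?_
      intro x hx
      exact ⟨⟨x, h.1 hx⟩, hle (mem_subgroupOf.mpr hx), rfl⟩
    rw [← h1]
    ext x
    rw [mem_subgroupOf]
    constructor
    · intro hx
      exact ⟨x, hx, rfl⟩
    · rintro ⟨y, hy, hyx⟩
      rwa [← Subtype.ext hyx]
  obtain ⟨Q, hQ⟩ := mk R h
  obtain ⟨Q', hQ'⟩ := mk R' h'
  obtain ⟨n, hn⟩ := MulAction.exists_smul_eq D Q Q'
  refine ⟨n, n.2, ?_⟩
  have key : ∀ x : D, x ∈ (Q' : Subgroup D) ↔ n⁻¹ * x * n ∈ (Q : Subgroup D) := by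
    intro x
    rw [← hn]
    change x ∈ (MulAut.conj n • (Q : Subgroup D)) ↔ _
    rw [Subgroup.mem_pointwise_smul_iff_inv_smul_mem]
    have h1 : (MulAut.conj n)⁻¹ • x = n⁻¹ * x * n := by
      rw [← map_inv]
      change MulAut.conj n⁻¹ x = _
      rw [MulAut.conj_apply, inv_inv]
    rw [h1]
  ext x
  rw [mem_cj]
  constructor
  · intro hx
    have hxD : x ∈ D := by
      have h1 := mul_mem (mul_mem n.2 (h.1 hx)) (inv_mem n.2)
      have h2 : (n : G) * ((n : G)⁻¹ * x * n) * (n : G)⁻¹ = x := by group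
      rwa [h2] at h1
    have h1 := (key ⟨x, hxD⟩).mpr (by rw [hQ, mem_subgroupOf]; exact hx)
    rw [hQ', mem_subgroupOf] at h1
    exact h1
  · intro hx
    have h1 := (key ⟨x, h'.1 hx⟩).mp (by rw [hQ', mem_subgroupOf]; exact hx)
    rw [hQ, mem_subgroupOf] at h1
    exact h1

lemma cj_mono {x : G} {A B : Subgroup G} (h : A ≤ B) : cj x A ≤ cj x B := map_mono h

lemma cj_inv_cj (x : G) (A : Subgroup G) : cj x⁻¹ (cj x A) = A := by
  ext y
  rw [mem_cj, mem_cj, inv_inv]
  have : x⁻¹ * (x * y * x⁻¹) * x = y := by group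
  rw [this]

lemma cj_cj_inv (x : G) (A : Subgroup G) : cj x (cj x⁻¹ A) = A := by
  have := cj_inv_cj x⁻¹ A
  rwa [inv_inv] at this

lemma cj_eq_of_mem {x : G} {A : Subgroup G} (hx : x ∈ A) : cj x A = A := by
  ext y
  rw [mem_cj]
  constructor
  · intro h
    have h1 := mul_mem (mul_mem hx h) (inv_mem hx)
    have h2 : x * (x⁻¹ * y * x) * x⁻¹ = y := by group
    rwa [h2] at h1
  · intro h
    exact mul_mem (mul_mem (inv_mem hx) h) hx

lemma cj_sup (x : G) (A B : Subgroup G) : cj x (A ⊔ B) = cj x A ⊔ cj x B := map_sup _ _ _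

lemma cj_inf (x : G) (A B : Subgroup G) : cj x (A ⊓ B) = cj x A ⊓ cj x B := by
  ext y
  rw [mem_inf, mem_cj, mem_cj, mem_cj, mem_inf]

lemma cj_centralizer (x : G) (A : Subgroup G) :
    cj x (centralizer (A : Set G)) = centralizer (cj x A : Set G) := by
  ext y
  rw [mem_cj, mem_centralizer_iff, mem_centralizer_iff]
  constructor
  · intro h z hz
    have hz' := mem_cj.mp hz
    have h1 := h _ hz'
    have h2 : z * y = x * ((x⁻¹ * z * x) * (x⁻¹ * y * x)) * x⁻¹ := by group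
    rw [h2, h1]
    group
  · intro h z hz
    have h1 := h (x * z * x⁻¹) (conj_mem_cj hz)
    have h2 : z * (x⁻¹ * y * x) = x⁻¹ * (x * z * x⁻¹ * y) * x := by group
    rw [h2, h1]
    group

lemma mem_norm {x : G} {A : Subgroup G} : x ∈ normalizer (A : Set G) ↔ cj x A = A := by
  rw [mem_normalizer_iff]
  constructor
  · intro h
    ext y
    rw [mem_cj]
    have h1 := h (x⁻¹ * y * x)
    have h2 : x * (x⁻¹ * y * x) * x⁻¹ = y := by group
    rw [h2] at h1
    exact h1
  · intro h y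
    constructor
    · intro hy
      rw [← h]
      exact conj_mem_cj hy
    · intro hy
      rw [← h, mem_cj] at hy
      have h2 : x⁻¹ * (x * y * x⁻¹) * x = y := by group
      rwa [h2] at hy

lemma syl_cj {p : ℕ} {D R : Subgroup G} (h : Syl p D R) {x : G} (hx : cj x D = D) :
    Syl p D (cj x R) := by
  refine ⟨by rw [← hx]; exact cj_mono h.1, h.2.1.map _, ?_⟩
  intro R' hR' hp hle
  have hx' : cj x⁻¹ D = D := by
    conv_lhs => rw [← hx]
    exact cj_inv_cj x D
  have h1 : cj x⁻¹ R' = R := by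
    refine h.2.2 _ (by rw [← hx']; exact cj_mono hR') (hp.map _) ?_
    have h2 := cj_mono (x := x⁻¹) hle
    rwa [cj_inv_cj] at h2
  rw [← h1, cj_cj_inv]

/-- growth of normalizers in `p`-groups -/
lemma norm_growth {p : ℕ} [Fact p.Prime] {T R : Subgroup G} (hR : IsPGroup p R) (hTR : T ≤ R)
    (hne : T ≠ R) : ∃ x ∈ R, x ∉ T ∧ x ∈ normalizer (T : Set G) := by
  have h1 : Group.IsNilpotent R := hR.isNilpotent
  have h2 := Group.normalizerCondition_of_isNilpotent (G := R)
  have h3 : T.subgroupOf R < ⊤ := by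
    rw [lt_top_iff_ne_top]
    intro h
    apply hne
    refine le_antisymm hTR ?_
    intro x hx
    have : (⟨x, hx⟩ : R) ∈ T.subgroupOf R := by rw [h]; exact mem_top _
    exact mem_subgroupOf.mp this
  obtain ⟨x, hx, hxT⟩ := SetLike.exists_of_lt (h2 _ h3)
  refine ⟨x, x.2, fun h => hxT (mem_subgroupOf.mpr h), ?_⟩
  rw [mem_normalizer_iff] at hx ⊢
  intro y
  constructor
  · intro hy
    have h4 := (hx ⟨y, hTR hy⟩).mp (mem_subgroupOf.mpr hy)
    exact mem_subgroupOf.mp h4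
  · intro hy
    have hyR : y ∈ R := by
      have h5 := mul_mem (mul_mem (inv_mem x.2) (hTR hy)) x.2
      have h6 : (x : G)⁻¹ * (x * y * (x : G)⁻¹) * x = y := by group
      rwa [h6] at h5
    have h4 := (hx ⟨y, hyR⟩).mpr (mem_subgroupOf.mpr hy)
    exact mem_subgroupOf.mp h4

end Pool.Agent.R389
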