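import Mathlib
import Pool.Agent.R389.Syl

/-!
# Systems of nilpotent subgroups covering a nilpotent quotient
-/

set_option autoImplicit false
set_option linter.unusedSectionVars false

namespace Pool.Agent.R389

open Pool.Agent.H302R2 Subgroup
open scoped Pointwise

variable {G : Type} [Group G] [Finite G]

/-- moves between the subgroups with the property `S` inside `N` -/
inductive Lk (S : Subgroup G → Prop) (N : Subgroup G) : Subgroup G → Subgroup G → Prop
  | refl (U : Subgroup G) : Lk S N U U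
  | conj (U : Subgroup G) (n : G) : n ∈ N → U ≤ N → S U → Lk S N U (cj n U)
  | sub (U V : Subgroup G) : U ≤ V → V ≤ N → S U → S V → Lk S N U V
  | symm {U V : Subgroup G} : Lk S N U V → Lk S N V U
  | trans {U V W : Subgroup G} : Lk S N U V → Lk S N V W → Lk S N U W

/-- fixed points of `V` in cosets of `K` in `p`-groups -/
def FixP (K : Subgroup G) (p : ℕ) (V : Subgroup G) : Prop :=
  ∀ T : Subgroup G, IsPGroup p T → (∀ v ∈ V, ∀ x ∈ T, v * x * v⁻¹ ∈ T) → ∀ t ∈ T,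
    (∀ v ∈ V, t⁻¹ * (v * t * v⁻¹) ∈ K) →
    ∃ t' ∈ T, t⁻¹ * t' ∈ K ∧ ∀ v ∈ V, v * t' = t' * v

/-- `X` covers `B` modulo `K` -/
def Cvr (K B X : Subgroup G) : Prop := ∀ b ∈ B, ∃ x ∈ X, x⁻¹ * b ∈ K

lemma Cvr.mono {K B X X' : Subgroup G} (h : Cvr K B X) (hX : X ≤ X') : Cvr K B X' := by
  intro b hb
  obtain ⟨x, hx, hk⟩ := h b hb
  exact ⟨x, hX hx, hk⟩

/-- a system of covering subgroups -/
structure Sys (K B : Subgroup G) (π : Finset ℕ) (S : Subgroup G → Prop) : Prop where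
  nil : ∀ U, S U → Group.IsNilpotent U
  le : ∀ U, S U → U ≤ B
  cov : ∀ U, S U → Cvr K B U
  cj : ∀ U g, S U → S (cj g U)
  fix : ∀ U p, p.Prime → p ∉ π → S U → FixP K p U
  ex : ∀ N, N ≤ B → Cvr K B N → ∃ U, U ≤ N ∧ S U
  lk : ∀ N, N ≤ B → Cvr K B N → ∀ U V, U ≤ N → V ≤ N → S U → S V → Lk S N U V

lemma sys_base (K : Subgroup G) : Sys K K ∅ (fun U => U = ⊥) where
  nil := by
    rintro U rfl
    infer_instance
  le := by
    rintro U rfl
    exact bot_le
  cov := by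
    rintro U rfl b hb
    exact ⟨1, one_mem _, by simpa using hb⟩
  cj := by
    rintro U g rfl
    exact map_bot _
  fix := by
    rintro U p - - rfl T - - t ht -
    refine ⟨t, ht, by simp, fun v hv => ?_⟩
    rw [mem_bot.mp hv]; simp
  ex := fun N _ _ => ⟨⊥, bot_le, rfl⟩
  lk := by
    rintro N - - U V - - rfl rfl
    exact Lk.refl _

/-- the data of the inductive step -/
structure SH (K A B : Subgroup G) (p : ℕ) (π : Finset ℕ) (S : Subgroup G → Prop) : Prop where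
  kn : K.Normal
  an : A.Normal
  bn : B.Normal
  ka : K ≤ A
  kb : K ≤ B
  hp : p.Prime
  hpi : p ∉ π
  ap : ∀ a ∈ A, ∃ k : ℕ, a ^ (p ^ k) ∈ K
  ab : ∀ a ∈ A, ∀ b ∈ B, a * b * a⁻¹ * b⁻¹ ∈ K
  sys : Sys K B π S

/-- the new system -/
def Stp (K A : Subgroup G) (p : ℕ) (S : Subgroup G → Prop) (W : Subgroup G) : Prop :=
  ∃ P V : Subgroup G, P ≤ A ∧ IsPGroup p P ∧ Cvr K A P ∧ S V ∧ (∀ x ∈ P, ∀ y ∈ V, x * y = y * x) ∧
    W = P ⊔ V

/-- the subgroup attached to a `p`-group normalized by a covering subgroup -/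
def val (T V : Subgroup G) : Subgroup G := (T ⊓ centralizer (V : Set G)) ⊔ V

lemma val_comm {T V : Subgroup G} : ∀ x ∈ T ⊓ centralizer (V : Set G), ∀ y ∈ V, x * y = y * x := by
  intro x hx y hy
  exact ((mem_centralizer_iff.mp (mem_inf.mp hx).2) y hy).symm

lemma cj_val (n : G) (T V : Subgroup G) : cj n (val T V) = val (cj n T) (cj n V) := by
  rw [val, val, cj_sup, cj_inf, cj_centralizer]

section step

variable {K A B : Subgroup G} {p : ℕ} {π : Finset ℕ} {S : Subgroup G → Prop}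

lemma SH.cov_val (h : SH K A B p π S) {T V : Subgroup G} (hTp : IsPGroup p T) (hTA : T ≤ A)
    (hTc : Cvr K A T) (hV : S V) (hn : ∀ v ∈ V, ∀ x ∈ T, v * x * v⁻¹ ∈ T) :
    Cvr K A (T ⊓ centralizer (V : Set G)) := by
  intro a ha
  obtain ⟨t, ht, hta⟩ := hTc a ha
  obtain ⟨t', ht', htt, hc⟩ := h.sys.fix V p h.hp h.hpi hV T hTp hn t ht (by
    intro v hv
    have h1 := h.ab t⁻¹ (inv_mem (hTA ht)) v (h.sys.le V hV hv)
    rw [inv_inv] at h1
    have h2 : t⁻¹ * (v * t * v⁻¹) = t⁻¹ * v * t * v⁻¹ := by group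
    rw [h2]
    exact h1)
  refine ⟨t', mem_inf.mpr ⟨ht', mem_centralizer_iff.mpr hc⟩, ?_⟩
  have h1 : t'⁻¹ * a = (t⁻¹ * t')⁻¹ * (t⁻¹ * a) := by group
  rw [h1]
  exact mul_mem (inv_mem htt) hta

lemma SH.stp_val (h : SH K A B p π S) {T V : Subgroup G} (hTp : IsPGroup p T) (hTA : T ≤ A)
    (hTc : Cvr K A T) (hV : S V) (hn : ∀ v ∈ V, ∀ x ∈ T, v * x * v⁻¹ ∈ T) :
    Stp K A p S (val T V) :=
  ⟨_, V, inf_le_left.trans hTA, hTp.to_le inf_le_left, h.cov_val hTp hTA hTc hV hn, hV, val_comm,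
    rfl⟩

/-- change of the covering subgroup -/
lemma SH.val_link (h : SH K A B p π S) {N T Y : Subgroup G} (hTN : T ≤ N) (hTp : IsPGroup p T)
    (hTA : T ≤ A) (hTc : Cvr K A T) (hYN : Y ≤ N) (hYT : Y ≤ normalizer (T : Set G))
    {V V' : Subgroup G} (hl : Lk S Y V V') : Lk (Stp K A p S) N (val T V) (val T V') := by
  have hn : ∀ U ≤ Y, ∀ v ∈ U, ∀ x ∈ T, v * x * v⁻¹ ∈ T := by
    intro U hU v hv x hx
    exact (mem_normalizer_iff.mp (hYT (hU hv)) x).mp hx
  induction hl with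
  | refl U => exact Lk.refl _
  | conj U n hnY hU hS =>
    have h1 : cj n T = T := mem_norm.mp (hYT hnY)
    have h2 : val T (cj n U) = cj n (val T U) := by rw [cj_val, h1]
    rw [h2]
    exact Lk.conj _ n (hYN hnY) (sup_le (inf_le_left.trans hTN) (hU.trans hYN))
      (h.stp_val hTp hTA hTc hS (hn U hU))
  | sub U V hUV hV hSU hSV =>
    have hcU := h.stp_val hTp hTA hTc hSU (hn U (hUV.trans hV))
    have hcV := h.stp_val hTp hTA hTc hSV (hn V hV)
    have hcc : centralizer (V : Set G) ≤ centralizer (U : Set G) := centralizer_le hUV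
    have hmid : Stp K A p S ((T ⊓ centralizer (V : Set G)) ⊔ U) :=
      ⟨_, U, inf_le_left.trans hTA, hTp.to_le inf_le_left,
        h.cov_val hTp hTA hTc hSV (hn V hV), hSU,
        fun x hx y hy => val_comm x hx y (hUV hy), rfl⟩
    have e1 : Lk (Stp K A p S) N ((T ⊓ centralizer (V : Set G)) ⊔ U) (val T U) :=
      Lk.sub _ _ (sup_le_sup_right (inf_le_inf_left T hcc) U)
        (sup_le (inf_le_left.trans hTN) ((hUV.trans hV).trans hYN)) hmid hcU
    have e2 : Lk (Stp K A p S) N ((T ⊓ centralizer (V : Set G)) ⊔ U) (val T V) :=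
      Lk.sub _ _ (sup_le_sup_left hUV _) (sup_le (inf_le_left.trans hTN) (hV.trans hYN)) hmid hcV
    exact e1.symm.trans e2
  | symm _ ih => exact ih.symm
  | trans _ _ ih1 ih2 => exact ih1.trans ih2

/-- Frattini's argument -/
lemma SH.frattini (h : SH K A B p π S) {D R : Subgroup G} (hD : Cvr K B (D ⊓ B))
    (hR : Syl p (D ⊓ A) R) (hRc : Cvr K A R) :
    Cvr K B (D ⊓ B ⊓ normalizer (R : Set G)) := by
  have : Fact p.Prime := ⟨h.hp⟩
  have := h.kn
  have := h.an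
  intro b hb
  obtain ⟨d, hd, hdb⟩ := hD b hb
  obtain ⟨hdD, hdB⟩ := mem_inf.mp hd
  have hcjD : cj d (D ⊓ A) = D ⊓ A := by
    rw [cj_inf, cj_eq_of_mem hdD]
    congr 1
    ext y
    rw [mem_cj]
    constructor
    · intro hy
      have h1 := h.an.conj_mem _ hy d
      have h2 : d * (d⁻¹ * y * d) * d⁻¹ = y := by group
      rwa [h2] at h1
    · intro hy
      have h1 := h.an.conj_mem _ hy d⁻¹
      rwa [inv_inv] at h1
  obtain ⟨a, ha, haR⟩ := conj_syl hR (syl_cj hR hcjD)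
  obtain ⟨haD, haA⟩ := mem_inf.mp ha
  obtain ⟨t, ht, hta⟩ := hRc a haA
  -- `m = a⁻¹ d` normalizes `R`
  have hm : a⁻¹ * d ∈ normalizer (R : Set G) := by
    rw [mem_norm]
    ext y
    rw [mem_cj]
    have h1 : (a⁻¹ * d)⁻¹ * y * (a⁻¹ * d) = d⁻¹ * (a * y * a⁻¹) * d := by group
    rw [h1, ← mem_cj, ← haR, mem_cj]
    have h2 : a⁻¹ * (a * y * a⁻¹) * a = y := by group
    rw [h2]
  have htn : t ∈ normalizer (R : Set G) := le_normalizer ht
  have hκ : t * a⁻¹ ∈ K := by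
    have h1 := h.kn.conj_mem _ (inv_mem hta) t
    have h2 : t * (t⁻¹ * a)⁻¹ * t⁻¹ = t * a⁻¹ := by group
    rwa [h2] at h1
  have hRD : t ∈ D := (mem_inf.mp (hR.1 ht)).1
  refine ⟨t * (a⁻¹ * d), ?_, ?_⟩
  · refine mem_inf.mpr ⟨mem_inf.mpr ⟨?_, ?_⟩, mul_mem htn hm⟩
    · exact mul_mem hRD (mul_mem (inv_mem haD) hdD)
    · rw [← mul_assoc]
      exact mul_mem (h.kb hκ) hdB
  · have h1 : (t * (a⁻¹ * d))⁻¹ * b = d⁻¹ * (t * a⁻¹)⁻¹ * d * (d⁻¹ * b) := by group
    rw [h1]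
    refine mul_mem ?_ hdb
    have h2 := h.kn.conj_mem _ (inv_mem hκ) d⁻¹
    rwa [inv_inv] at h2

/-- growing the `p`-group -/
lemma SH.grow (h : SH K A B p π S) {N : Subgroup G} : ∀ (n : ℕ)
    (T V : Subgroup G), Nat.card G - Nat.card T = n → T ≤ N ⊓ A → IsPGroup p T → Cvr K A T →
    V ≤ N → S V → V ≤ normalizer (T : Set G) → ∃ R V' : Subgroup G, Syl p (N ⊓ A) R ∧ V' ≤ N ∧
      S V' ∧ V' ≤ normalizer (R : Set G) ∧ Cvr K A R ∧
      Lk (Stp K A p S) N (val T V) (val R V') := by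
  have : Fact p.Prime := ⟨h.hp⟩
  intro n
  induction n using Nat.strong_induction_on with
  | _ n ih =>
  intro T V hn hTN hTp hTc hVN hV hVT
  obtain ⟨Q, hQ, hTQ⟩ := exists_syl hTp hTN
  by_cases hTQe : T = Q
  · subst hTQe
    exact ⟨T, V, hQ, hVN, hV, hVT, hTc, Lk.refl _⟩
  obtain ⟨x, hxQ, hxT, hxn⟩ := norm_growth hQ.2.1 hTQ hTQe
  let D : Subgroup G := N ⊓ normalizer (T : Set G)
  let M : Subgroup G := Q ⊓ normalizer (T : Set G)
  have hMD : M ≤ D ⊓ A := by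
    intro y hy
    obtain ⟨hyQ, hyn⟩ := mem_inf.mp hy
    obtain ⟨hyN, hyA⟩ := mem_inf.mp (hQ.1 hyQ)
    exact mem_inf.mpr ⟨mem_inf.mpr ⟨hyN, hyn⟩, hyA⟩
  obtain ⟨T', hT', hMT'⟩ := exists_syl (hQ.2.1.to_le inf_le_left : IsPGroup p M) hMD
  have hTM : T ≤ M := le_inf hTQ le_normalizer
  have hTT' : T ≤ T' := hTM.trans hMT'
  have hT'A : T' ≤ N ⊓ A := hT'.1.trans (inf_le_inf_right A inf_le_left)
  have hT'c : Cvr K A T' := hTc.mono hTT'
  have hVD : V ≤ D := le_inf hVN hVT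
  have hDB : Cvr K B (D ⊓ B) := (h.sys.cov V hV).mono (le_inf hVD (h.sys.le V hV))
  have hW := h.frattini hDB hT' hT'c
  obtain ⟨V', hV'W, hV'⟩ := h.sys.ex _ (inf_le_left.trans inf_le_right) hW
  have hV'DB : V' ≤ D ⊓ B := hV'W.trans inf_le_left
  have hV'N : V' ≤ N := hV'DB.trans (inf_le_left.trans inf_le_left)
  have hV'T' : V' ≤ normalizer (T' : Set G) := hV'W.trans inf_le_right
  have e1 : Lk (Stp K A p S) N (val T V) (val T V') :=
    h.val_link (hTN.trans inf_le_left) hTp (hTN.trans inf_le_right) hTc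
      (Y := D ⊓ B) (inf_le_left.trans inf_le_left) (inf_le_left.trans inf_le_right)
      (h.sys.lk _ inf_le_right hDB V V' (le_inf hVD (h.sys.le V hV)) hV'DB hV hV')
  have hn1 : ∀ v ∈ V', ∀ y ∈ T, v * y * v⁻¹ ∈ T := fun v hv y hy =>
    (mem_normalizer_iff.mp ((hV'DB.trans (inf_le_left.trans inf_le_right)) hv) y).mp hy
  have hn2 : ∀ v ∈ V', ∀ y ∈ T', v * y * v⁻¹ ∈ T' := fun v hv y hy =>
    (mem_normalizer_iff.mp (hV'T' hv) y).mp hy
  have e2 : Lk (Stp K A p S) N (val T V') (val T' V') :=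
    Lk.sub _ _ (sup_le_sup_right (inf_le_inf_right _ hTT') V')
      (sup_le (inf_le_left.trans (hT'A.trans inf_le_left)) hV'N)
      (h.stp_val hTp (hTN.trans inf_le_right) hTc hV' hn1)
      (h.stp_val hT'.2.1 (hT'A.trans inf_le_right) hT'c hV' hn2)
  have hlt : Nat.card T < Nat.card T' := by
    have h1 : Nat.card T ≤ Nat.card T' := Nat.le_of_dvd Nat.card_pos (card_dvd_of_le hTT')
    rcases lt_or_eq_of_le h1 with h2 | h2
    · exact h2
    · exfalso
      apply hxT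
      have h3 : T = T' := by
        apply SetLike.coe_injective
        refine Set.eq_of_subset_of_ncard_le hTT' ?_ (Set.toFinite _)
        rw [← Nat.card_coe_set_eq, ← Nat.card_coe_set_eq]
        exact h2.ge
      rw [h3]
      exact hMT' (mem_inf.mpr ⟨hxQ, hxn⟩)
  have hle : Nat.card T' ≤ Nat.card G := Nat.le_of_dvd Nat.card_pos T'.card_subgroup_dvd_card
  obtain ⟨R, V₂, h1, h2, h3, h4, h5, h6⟩ := ih _ (by omega) T' V' rfl hT'A hT'.2.1 hT'c hV'N hV'
    hV'T'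
  exact ⟨R, V₂, h1, h2, h3, h4, h5, (e1.trans e2).trans h6⟩

/-- coverings of the product -/
lemma SH.cvr_left (h : SH K A B p π S) {N : Subgroup G} (hN : Cvr K (A ⊔ B) N) :
    Cvr K A (N ⊓ A) := by
  intro a ha
  obtain ⟨x, hx, hk⟩ := hN a (mem_sup_left ha)
  refine ⟨x, mem_inf.mpr ⟨hx, ?_⟩, hk⟩
  have h1 := A.mul_mem ha (inv_mem (h.ka hk))
  have h2 : a * (x⁻¹ * a)⁻¹ = x := by group
  rwa [h2] at h1

lemma SH.cvr_right (h : SH K A B p π S) {N : Subgroup G} (hN : Cvr K (A ⊔ B) N) :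
    Cvr K B (N ⊓ B) := by
  intro a ha
  obtain ⟨x, hx, hk⟩ := hN a (mem_sup_right ha)
  refine ⟨x, mem_inf.mpr ⟨hx, ?_⟩, hk⟩
  have h1 := B.mul_mem ha (inv_mem (h.kb hk))
  have h2 : a * (x⁻¹ * a)⁻¹ = x := by group
  rwa [h2] at h1

/-- a maximal `p`-subgroup of a covering subgroup is covering -/
lemma SH.syl_cvr (h : SH K A B p π S) {N R : Subgroup G} (hN : Cvr K A (N ⊓ A))
    (hR : Syl p (N ⊓ A) R) : Cvr K A R := by
  have : Fact p.Prime := ⟨h.hp⟩
  have hKn := h.kn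
  let D : Subgroup G := N ⊓ A
  -- the Sylow subgroup of `D`
  have hmax : ∀ Q : Subgroup D, IsPGroup p Q → R.subgroupOf D ≤ Q → Q = R.subgroupOf D := by
    intro Q hQ hle
    have h1 : Q.map D.subtype = R := by
      refine hR.2.2 _ (map_subtype_le _) (hQ.map _) ?_
      intro x hx
      exact ⟨⟨x, hR.1 hx⟩, hle (mem_subgroupOf.mpr hx), rfl⟩
    rw [← h1]
    ext x
    rw [mem_subgroupOf]
    constructor
    · intro hx
      exact ⟨x, hx, rfl⟩
    · rintro ⟨y, hy, hyx⟩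
      rwa [← Subtype.ext hyx]
  let Q : Sylow p D := ⟨R.subgroupOf D, hR.2.1.comap_subtype (K := D), fun {Q} hQ hle =>
    hmax Q hQ hle⟩
  have hquo : IsPGroup p (D ⧸ K.subgroupOf D) := by
    intro q
    obtain ⟨u, rfl⟩ := QuotientGroup.mk_surjective q
    obtain ⟨k, hk⟩ := h.ap u (mem_inf.mp u.2).2
    refine ⟨k, ?_⟩
    rw [← QuotientGroup.mk_pow]
    refine (QuotientGroup.eq_one_iff _).mpr (mem_subgroupOf.mpr ?_)
    rw [Subgroup.coe_pow]
    exact hk
  intro a ha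
  obtain ⟨d, hd, hda⟩ := hN a ha
  obtain ⟨x, hx, k, hk, hdx⟩ := sylow_sup h.hp (K.subgroupOf D) hquo Q ⟨d, hd⟩
  have hx' : (x : G) ∈ R := mem_subgroupOf.mp hx
  refine ⟨x, hx', ?_⟩
  have h1 : d = (x : G) * k := congrArg Subtype.val hdx
  have h2 : (x : G)⁻¹ * a = (k : G) * (d⁻¹ * a) := by rw [h1]; group
  rw [h2]
  exact mul_mem (mem_subgroupOf.mp hk) hda

/-- two pairs with maximal `p`-groups are linked -/
lemma SH.link_syl (h : SH K A B p π S) {N R R' V V' : Subgroup G}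
    (hR : Syl p (N ⊓ A) R) (hR' : Syl p (N ⊓ A) R') (hRc' : Cvr K A R')
    (hVN : V ≤ N) (hV'N : V' ≤ N) (hV : S V) (hV' : S V')
    (hVR : V ≤ normalizer (R : Set G)) (hV'R' : V' ≤ normalizer (R' : Set G))
    (hRc : Cvr K A R) : Lk (Stp K A p S) N (val R V) (val R' V') := by
  have : Fact p.Prime := ⟨h.hp⟩
  obtain ⟨n, hn, hnR⟩ := conj_syl hR hR'
  have hnN : n ∈ N := (mem_inf.mp hn).1
  have hRN : R ≤ N := hR.1.trans inf_le_left
  have hR'N : R' ≤ N := hR'.1.trans inf_le_left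
  have e1 : Lk (Stp K A p S) N (val R V) (cj n (val R V)) :=
    Lk.conj _ n hnN (sup_le (inf_le_left.trans hRN) hVN)
      (h.stp_val hR.2.1 (hR.1.trans inf_le_right) hRc hV fun v hv x hx =>
        (mem_normalizer_iff.mp (hVR hv) x).mp hx)
  rw [cj_val, hnR] at e1
  have hcN : cj n V ≤ N := by
    have h1 := cj_mono (x := n) hVN
    rwa [cj_eq_of_mem hnN] at h1
  have hcR : cj n V ≤ normalizer (R' : Set G) := by
    rw [← hnR]
    exact cj_le_normalizer hVR
  have hcV : S (cj n V) := h.sys.cj _ n hV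
  have hYc : Cvr K B (N ⊓ normalizer (R' : Set G) ⊓ B) :=
    (h.sys.cov V' hV').mono (le_inf (le_inf hV'N hV'R') (h.sys.le _ hV'))
  have e2 : Lk (Stp K A p S) N (val R' (cj n V)) (val R' V') :=
    h.val_link hR'N hR'.2.1 (hR'.1.trans inf_le_right) hRc'
      (Y := N ⊓ normalizer (R' : Set G) ⊓ B) (inf_le_left.trans inf_le_left)
      (inf_le_left.trans inf_le_right)
      (h.sys.lk _ inf_le_right hYc _ _ (le_inf (le_inf hcN hcR) (h.sys.le _ hcV))
        (le_inf (le_inf hV'N hV'R') (h.sys.le _ hV')) hcV hV')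
  exact e1.trans e2

/-- **The inductive step.** -/
theorem SH.step (h : SH K A B p π S) : Sys K (A ⊔ B) (insert p π) (Stp K A p S) where
  nil := by
    rintro W ⟨P, V, -, hP, -, hV, hc, rfl⟩
    have : Fact p.Prime := ⟨h.hp⟩
    exact nil_sup hP.isNilpotent (h.sys.nil V hV) hc
  le := by
    rintro W ⟨P, V, hPA, -, -, hV, -, rfl⟩
    exact sup_le_sup hPA (h.sys.le V hV)
  cov := by
    rintro W ⟨P, V, hPA, -, hPc, hV, hc, rfl⟩ z hz
    have := h.kn
    have := h.an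
    obtain ⟨a, ha, b, hb, rfl⟩ := mem_sup_of_normal_left.mp hz
    obtain ⟨x, hx, hxa⟩ := hPc a ha
    obtain ⟨y, hy, hyb⟩ := h.sys.cov V hV b hb
    refine ⟨x * y, mul_mem_sup hx hy, ?_⟩
    have h1 : (x * y)⁻¹ * (a * b) = y⁻¹ * (x⁻¹ * a) * y * (y⁻¹ * b) := by group
    rw [h1]
    refine mul_mem ?_ hyb
    have h2 := h.kn.conj_mem _ hxa y⁻¹
    rwa [inv_inv] at h2
  cj := by
    rintro W g ⟨P, V, hPA, hP, hPc, hV, hc, rfl⟩
    refine ⟨Pool.Agent.H302R2.cj g P, Pool.Agent.H302R2.cj g V, ?_, hP.map _, ?_,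
      h.sys.cj V g hV, ?_, cj_sup g P V⟩
    · intro x hx
      have h1 := h.an.conj_mem _ (hPA (mem_cj.mp hx)) g
      have h2 : g * (g⁻¹ * x * g) * g⁻¹ = x := by group
      rwa [h2] at h1
    · intro a ha
      have h1 := h.an.conj_mem _ ha g⁻¹
      rw [inv_inv] at h1
      obtain ⟨x, hx, hxa⟩ := hPc _ h1
      refine ⟨g * x * g⁻¹, conj_mem_cj hx, ?_⟩
      have h2 := h.kn.conj_mem _ hxa g
      have h3 : g * (x⁻¹ * (g⁻¹ * a * g)) * g⁻¹ = (g * x * g⁻¹)⁻¹ * a := by group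
      rwa [h3] at h2
    · intro x hx y hy
      have h1 := hc _ (mem_cj.mp hx) _ (mem_cj.mp hy)
      have h2 : x * y = g * ((g⁻¹ * x * g) * (g⁻¹ * y * g)) * g⁻¹ := by group
      rw [h2, h1]
      group
  fix := by
    rintro W q hq hqπ ⟨P, V, hPA, hP, hPc, hV, hc, rfl⟩ T hT hn t ht htk
    rw [Finset.mem_insert, not_or] at hqπ
    have := h.kn
    have hPW : ∀ v ∈ P, v ∈ P ⊔ V := fun v hv => mem_sup_left hv
    have hVW : ∀ v ∈ V, v ∈ P ⊔ V := fun v hv => mem_sup_right hv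
    obtain ⟨t₁, ht₁, htt, hc₁⟩ := h.sys.fix V q hq hqπ.2 hV T hT
      (fun v hv x hx => hn v (hVW v hv) x hx) t ht (fun v hv => htk v (hVW v hv))
    let T₀ : Subgroup G := T ⊓ K ⊓ centralizer (V : Set G)
    have hcard : ¬ p ∣ Nat.card T₀ := by
      intro hd
      have : Fact q.Prime := ⟨hq⟩
      have h1 : IsPGroup q T₀ := hT.to_le (inf_le_left.trans inf_le_left)
      obtain ⟨n, hn⟩ := IsPGroup.iff_card.mp h1
      rw [hn] at hd
      have h2 := (Nat.prime_dvd_prime_iff_eq h.hp hq).mp (h.hp.dvd_of_dvd_pow hd)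
      exact hqπ.1 h2.symm
    have hcomV : ∀ v ∈ P, ∀ x ∈ centralizer (V : Set G), v * x * v⁻¹ ∈ centralizer (V : Set G) := by
      intro v hv x hx
      rw [mem_centralizer_iff] at hx ⊢
      intro w hw
      have h1 := hc v hv w hw
      have h2 := hc v⁻¹ (inv_mem hv) w hw
      have h3 := hx w hw
      calc w * (v * x * v⁻¹) = (w * v) * x * v⁻¹ := by group
        _ = (v * w) * x * v⁻¹ := by rw [h1]
        _ = v * (w * x) * v⁻¹ := by group
        _ = v * (x * w) * v⁻¹ := by rw [h3]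
        _ = v * x * (w * v⁻¹) := by group
        _ = v * x * (v⁻¹ * w) := by rw [h2]
        _ = _ := by group
    obtain ⟨t', ht', hct'⟩ := fix_coset h.hp hP (T₀ := T₀) (t := t₁) (by
      intro v hv x hx
      obtain ⟨hx1, hx2⟩ := mem_inf.mp hx
      obtain ⟨hx3, hx4⟩ := mem_inf.mp hx1
      exact mem_inf.mpr ⟨mem_inf.mpr ⟨hn v (hPW v hv) x hx3, h.kn.conj_mem _ hx4 v⟩,
        hcomV v hv x hx2⟩) hcard (by
      intro v hv
      have hc1 : t₁ ∈ centralizer (V : Set G) := mem_centralizer_iff.mpr hc₁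
      refine mem_inf.mpr ⟨mem_inf.mpr ⟨mul_mem (inv_mem ht₁) (hn v (hPW v hv) _ ht₁), ?_⟩,
        mul_mem (inv_mem hc1) (hcomV v hv _ hc1)⟩
      have h1 : t₁⁻¹ * (v * t₁ * v⁻¹)
          = (t⁻¹ * t₁)⁻¹ * (t⁻¹ * (v * t * v⁻¹)) * (v * (t⁻¹ * t₁) * v⁻¹) := by group
      rw [h1]
      exact mul_mem (mul_mem (inv_mem htt) (htk v (hPW v hv))) (h.kn.conj_mem _ htt v))
    obtain ⟨h1, h2⟩ := mem_inf.mp ht'
    obtain ⟨h3, h4⟩ := mem_inf.mp h1
    refine ⟨t', ?_, ?_, ?_⟩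
    · have h5 := mul_mem ht₁ h3
      rwa [mul_inv_cancel_left] at h5
    · have h5 := mul_mem htt h4
      have h6 : t⁻¹ * t₁ * (t₁⁻¹ * t') = t⁻¹ * t' := by group
      rwa [h6] at h5
    · intro w hw
      obtain ⟨x, hx, y, hy, rfl⟩ := (mem_csup hc).mp hw
      have h5 := hct' x hx
      have h6 : y * t' = t' * y := by
        have h7 := mul_mem (mem_centralizer_iff.mpr hc₁ : t₁ ∈ centralizer (V : Set G)) h2
        rw [mul_inv_cancel_left, mem_centralizer_iff] at h7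
        exact h7 y hy
      calc x * y * t' = x * (y * t') := by group
        _ = (x * t') * y := by rw [h6]; group
        _ = _ := by rw [h5]; group
  ex := by
    intro N hN hNc
    have : Fact p.Prime := ⟨h.hp⟩
    obtain ⟨R, hR, -⟩ := exists_syl (p := p) (D := N ⊓ A) (T := ⊥) IsPGroup.of_bot bot_le
    have hRc := h.syl_cvr (h.cvr_left hNc) hR
    have hW := h.frattini (h.cvr_right hNc) hR hRc
    obtain ⟨V, hVW, hV⟩ := h.sys.ex _ (inf_le_left.trans inf_le_right) hW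
    have hVN : V ≤ N := hVW.trans (inf_le_left.trans inf_le_left)
    have hVR : V ≤ normalizer (R : Set G) := hVW.trans inf_le_right
    exact ⟨val R V, sup_le (inf_le_left.trans (hR.1.trans inf_le_left)) hVN,
      h.stp_val hR.2.1 (hR.1.trans inf_le_right) hRc hV fun v hv x hx =>
        (mem_normalizer_iff.mp (hVR hv) x).mp hx⟩
  lk := by
    intro N hN hNc U U' hUN hU'N hU hU'
    have key : ∀ W ≤ N, Stp K A p S W → ∃ R V' : Subgroup G, Syl p (N ⊓ A) R ∧ V' ≤ N ∧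
        S V' ∧ V' ≤ normalizer (R : Set G) ∧ Cvr K A R ∧
        Lk (Stp K A p S) N W (val R V') := by
      rintro W hW ⟨P, V, hPA, hP, hPc, hV, hc, rfl⟩
      have hPN : P ≤ N := le_sup_left.trans hW
      have hVN : V ≤ N := le_sup_right.trans hW
      have hVP : V ≤ normalizer (P : Set G) := by
        intro v hv
        rw [mem_norm]
        ext x
        rw [mem_cj]
        constructor
        · intro hx
          have h1 := hc _ hx v hv
          have h2 : x = v * (v⁻¹ * x * v) * v⁻¹ := by group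
          rw [h2, ← h1]
          have h3 : v⁻¹ * x * v * v * v⁻¹ = v⁻¹ * x * v := by group
          rw [h3]
          exact hx
        · intro hx
          have h1 := hc x hx v hv
          have h2 : v⁻¹ * x * v = x := by
            calc v⁻¹ * x * v = v⁻¹ * (x * v) := by group
              _ = v⁻¹ * (v * x) := by rw [h1]
              _ = x := by group
          rw [h2]
          exact hx
      have hval : P ⊔ V = val P V := by
        rw [val]
        congr 1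
        symm
        apply inf_eq_left.mpr
        intro x hx
        rw [mem_centralizer_iff]
        intro y hy
        exact (hc x hx y hy).symm
      rw [hval]
      exact h.grow _ P V rfl (le_inf hPN hPA) hP hPc hVN hV hVP
    obtain ⟨R, V, h1, h2, h3, h4, h5, h6⟩ := key U hUN hU
    obtain ⟨R', V', h1', h2', h3', h4', h5', h6'⟩ := key U' hU'N hU'
    exact (h6.trans (h.link_syl h1 h1' h5' h2 h2' h3 h3' h4 h4' h5)).trans h6'.symm

end step

end Pool.Agent.R389
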