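import Mathlib
import Pool.Agent.R389.Sys
import Pool.Agent.R389.Good

/-!
# Reduction to a covering nilpotent subgroup
-/

set_option autoImplicit false
set_option linter.unusedSectionVars false

namespace Pool.Agent.R389

open Pool.Agent.H302R2 Pool.Agent.H302R3 Pool.Agent.H541R3.ART Pool.Agent.W446.AS Subgroup
open scoped Pointwise

section exist

variable {G : Type} [Group G] [Finite G]

/-- a Sylow `p`-subgroup -/
noncomputable def syl (Γ : Type) [Group Γ] [Finite Γ] (p : ℕ) : Subgroup Γ :=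
  ((default : Sylow p Γ) : Subgroup Γ)

/-- the existence of a system of covering nilpotent subgroups -/
theorem exists_sys (K : Subgroup G) [hK : K.Normal] (hΓ : Group.IsNilpotent (G ⧸ K)) :
    ∃ (π : Finset ℕ) (S : Subgroup G → Prop), Sys K ⊤ π S := by
  classical
  let π : G →* G ⧸ K := QuotientGroup.mk' K
  have hπ : Function.Surjective π := QuotientGroup.mk'_surjective K
  have hker : ∀ x : G, π x = 1 ↔ x ∈ K := fun x => QuotientGroup.eq_one_iff x
  have hnorm : ∀ p : ℕ, p.Prime → (syl (G ⧸ K) p).Normal := by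
    intro p hp
    have : Fact p.Prime := ⟨hp⟩
    exact (inferInstance : ((default : Sylow p (G ⧸ K)) : Subgroup (G ⧸ K)).Normal)
  have hpg : ∀ p : ℕ, IsPGroup p (syl (G ⧸ K) p) := fun p => (default : Sylow p (G ⧸ K)).isPGroup'
  -- the steps
  have key : ∀ σ : Finset ℕ, (∀ p ∈ σ, p.Prime) → (σ.sup (syl (G ⧸ K))).Normal ∧
      (∀ p : ℕ, p.Prime → p ∉ σ → ∀ x ∈ syl (G ⧸ K) p, ∀ y ∈ σ.sup (syl (G ⧸ K)),
        x * y = y * x) ∧
      ∃ S : Subgroup G → Prop, Sys K ((σ.sup (syl (G ⧸ K))).comap π) σ S := by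
    intro σ
    induction σ using Finset.induction_on with
    | empty =>
      intro _
      refine ⟨by rw [Finset.sup_empty]; infer_instance, ?_, ?_⟩
      · intro p _ _ x _ y hy
        rw [Finset.sup_empty, mem_bot] at hy
        rw [hy]; simp
      · refine ⟨fun U => U = ⊥, ?_⟩
        have h1 : ((∅ : Finset ℕ).sup (syl (G ⧸ K))).comap π = K := by
          rw [Finset.sup_empty]
          ext x
          rw [mem_comap, mem_bot]
          exact hker x
        rw [h1]
        exact sys_base K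
    | insert q σ hq ih =>
      intro hσ
      have hqp : q.Prime := hσ q (Finset.mem_insert_self q σ)
      obtain ⟨h1, h2, S, h3⟩ := ih fun p hp => hσ p (Finset.mem_insert_of_mem hp)
      have hqn := hnorm q hqp
      have hqf : Fact q.Prime := ⟨hqp⟩
      rw [Finset.sup_insert]
      refine ⟨inferInstance, ?_, ?_⟩
      · intro p hp hpσ x hx y hy
        rw [Finset.mem_insert, not_or] at hpσ
        have hpf : Fact p.Prime := ⟨hp⟩
        have hpn := hnorm p hp
        obtain ⟨a, ha, b, hb, rfl⟩ := mem_sup_of_normal_left.mp hy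
        have e1 : x * a = a * x := by
          have hd := IsPGroup.disjoint_of_ne p q hpσ.1 _ _ (hpg p) (hpg q)
          exact Subgroup.commute_of_normal_of_disjoint _ _ hpn hqn hd x a hx ha
        have e2 : x * b = b * x := h2 p hp hpσ.2 x hx b hb
        calc x * (a * b) = (x * a) * b := by group
          _ = a * (x * b) := by rw [e1]; group
          _ = _ := by rw [e2]; group
      · refine ⟨Stp K ((syl (G ⧸ K) q).comap π) q S, ?_⟩
        have h4 : SH K ((syl (G ⧸ K) q).comap π) ((σ.sup (syl (G ⧸ K))).comap π) q σ S :=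
          { kn := hK
            an := Subgroup.Normal.comap hqn π
            bn := Subgroup.Normal.comap h1 π
            ka := by
              intro x hx
              rw [mem_comap, (hker x).mpr hx]
              exact one_mem _
            kb := by
              intro x hx
              rw [mem_comap, (hker x).mpr hx]
              exact one_mem _
            hp := hqp
            hpi := hq
            ap := by
              intro a ha
              obtain ⟨k, hk⟩ := hpg q ⟨π a, ha⟩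
              refine ⟨k, (hker _).mp ?_⟩
              rw [map_pow]
              exact congrArg Subtype.val hk
            ab := by
              intro a ha b hb
              refine (hker _).mp ?_
              rw [map_mul, map_mul, map_mul, map_inv, map_inv, h2 q hqp hq _ ha _ hb]
              group
            sys := h3 }
        have h5 := h4.step
        rwa [Subgroup.comap_sup_eq π _ _ hπ] at h5
  obtain ⟨-, -, S, hS⟩ := key (Nat.card (G ⧸ K)).primeFactors fun p hp =>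
    Nat.prime_of_mem_primeFactors hp
  refine ⟨(Nat.card (G ⧸ K)).primeFactors, S, ?_⟩
  have htop : (Nat.card (G ⧸ K)).primeFactors.sup (syl (G ⧸ K)) = ⊤ := by
    apply Subgroup.index_eq_one.mp
    by_contra hne
    obtain ⟨p, hp, hpd⟩ := Nat.exists_prime_and_dvd hne
    have : Fact p.Prime := ⟨hp⟩
    have h1 : p ∣ Nat.card (G ⧸ K) := hpd.trans (Subgroup.index_dvd_card _)
    have h2 : syl (G ⧸ K) p ≤ (Nat.card (G ⧸ K)).primeFactors.sup (syl (G ⧸ K)) :=
      Finset.le_sup (Nat.mem_primeFactors.mpr ⟨hp, h1, Nat.card_pos.ne'⟩)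
    have h3 : p ∣ (syl (G ⧸ K) p).index := hpd.trans (Subgroup.index_dvd_of_le h2)
    exact (default : Sylow p (G ⧸ K)).not_dvd_index h3
  rw [htop, comap_top] at hS
  exact hS

end exist

section congr

variable {G : Type} [Group G] [Finite G]

/-- a covering subgroup of a tame subgroup -/
lemma down (K : Subgroup G) [K.Normal] {V U : Subgroup G} (hU : Tame U) (hVU : V ≤ U)
    (hc : Cvr K U V) (lam : G →* ℂˣ) (hl : ∀ k ∈ K, lam k = 1) :
    ind V (fun v : V => ((lam v : ℂˣ) : ℂ)) - ind U (fun u : U => ((lam u : ℂˣ) : ℂ))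
      ∈ NewA K := by
  classical
  let N : Subgroup U := K.subgroupOf U
  let V' : Subgroup U := V.subgroupOf U
  have hN : ∀ x : U, x ∈ N ↔ (x : G) ∈ K := fun x => mem_subgroupOf
  have hcov : ∀ g : U, ∃ x ∈ V', ∃ k ∈ N, g = x * k := by
    intro g
    obtain ⟨x, hx, hk⟩ := hc g g.2
    refine ⟨⟨x, hVU hx⟩, mem_subgroupOf.mpr hx, (⟨x, hVU hx⟩ : U)⁻¹ * g, ?_, by group⟩
    exact (hN _).mpr hk
  let ψ : V' → ℂ := fun v => ((lam ((v : U) : G) : ℂˣ) : ℂ)
  have hψ : Virt ψ := AddSubgroup.subset_closure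
    (lin_irr (lam.comp (U.subtype.comp V'.subtype)))
  have hD : Virt (ind V' ψ) := virt_ind V' hψ
  have h1 := ind_sub_invA K hU hD
  have hinv : inv N (ind V' ψ) = fun u : U => ((lam u : ℂˣ) : ℂ) := by
    funext g
    obtain ⟨x, hx, k, hk, rfl⟩ := hcov g
    rw [inv_mul_mem _ _ _ hk]
    have h2 := inv_ind_of_surj N V' hcov (F := ψ) (fun g x => hψ.conj g x) (by
      intro g n hn
      change ((lam (((g : U) : G) * ((n : U) : G)) : ℂˣ) : ℂ) = ((lam ((g : U) : G) : ℂˣ) : ℂ)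
      rw [map_mul, hl _ ((hN _).mp hn), mul_one]) ⟨x, hx⟩
    rw [h2]
    change ((lam (x : G) : ℂˣ) : ℂ) = ((lam ((x : G) * (k : G)) : ℂˣ) : ℂ)
    rw [map_mul, hl _ ((hN _).mp hk), mul_one]
  change ind U (ind V' ψ) - ind U (inv N (ind V' ψ)) ∈ NewA K at h1
  rw [hinv] at h1
  have h2 := ind_tower hVU (fun v : V => ((lam v : ℂˣ) : ℂ))
  rw [h2]
  exact h1

/-- linked subgroups give congruent characters -/
lemma Lk.congr {K : Subgroup G} [K.Normal] {π : Finset ℕ} {S : Subgroup G → Prop}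
    (hs : Sys K ⊤ π S) {N : Subgroup G} (lam : G →* ℂˣ) (hl : ∀ k ∈ K, lam k = 1)
    {U V : Subgroup G} (h : Lk S N U V) :
    ind U (fun u : U => ((lam u : ℂˣ) : ℂ)) - ind V (fun v : V => ((lam v : ℂˣ) : ℂ))
      ∈ NewA K := by
  induction h with
  | refl U => rw [sub_self]; exact zero_mem _
  | conj U n hn hU hS =>
    have h1 : ind U (fun u : U => ((lam u : ℂˣ) : ℂ))
        = ind (cj n U) (fun u : cj n U => ((lam u : ℂˣ) : ℂ)) := by
      refine ind_conj (cj n U) U n (fun z => ?_) _ _ fun z hz => ?_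
      · rw [mem_cj]
        have h2 : n⁻¹ * (n * z * n⁻¹) * n = z := by group
        rw [h2]
      · change ((lam z : ℂˣ) : ℂ) = ((lam (n * z * n⁻¹) : ℂˣ) : ℂ)
        rw [map_mul, map_mul, map_inv, mul_comm (lam n), mul_inv_cancel_right]
    rw [h1, sub_self]
    exact zero_mem _
  | sub U V hUV hV hSU hSV =>
    exact down K (Or.inr (hs.nil V hSV)) hUV (fun x _ => hs.cov U hSU x (mem_top x)) lam hl
  | symm _ ih =>
    rw [← neg_sub]
    exact neg_mem ih
  | trans _ _ ih1 ih2 =>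
    have h1 := add_mem ih1 ih2
    rwa [sub_add_sub_cancel] at h1

end congr

section main

variable {G : Type} [Group G] [Finite G]

lemma nil_quot (K : Subgroup G) [K.Normal] (hΓ : Group.IsNilpotent (G ⧸ K)) (H : Subgroup G) :
    Group.IsNilpotent (H ⧸ K.subgroupOf H) := by
  refine nil_of_injective (QuotientGroup.map (K.subgroupOf H) K H.subtype (fun x hx => hx)) ?_ hΓ
  rw [← MonoidHom.ker_eq_bot_iff, eq_bot_iff]
  intro q hq
  obtain ⟨x, rfl⟩ := QuotientGroup.mk_surjective q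
  rw [MonoidHom.mem_ker] at hq
  have h1 : (QuotientGroup.mk (x : G) : G ⧸ K) = 1 := hq
  rw [mem_bot]
  refine (QuotientGroup.eq_one_iff x).mpr (mem_subgroupOf.mpr ?_)
  exact (QuotientGroup.eq_one_iff _).mp h1

/-- the extension of a linear character trivial on `K` -/
lemma extend_lin (K : Subgroup G) [K.Normal] {U : Subgroup G} (ψ : U →* ℂˣ)
    (hψ : ∀ u : U, (u : G) ∈ K → ψ u = 1) :
    ∃ lam : (U ⊔ K : Subgroup G) →* ℂˣ, (∀ u : U, lam ⟨u, mem_sup_left u.2⟩ = ψ u) ∧
      ∀ k (hk : k ∈ K), lam ⟨k, mem_sup_right hk⟩ = 1 := by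
  classical
  have hex : ∀ z : (U ⊔ K : Subgroup G), ∃ u : U, (u : G)⁻¹ * z ∈ K := by
    rintro ⟨z, hz⟩
    obtain ⟨x, hx, k, hk, rfl⟩ := mem_sup_of_normal_right.mp hz
    exact ⟨⟨x, hx⟩, by simpa using hk⟩
  choose c hc using hex
  have hwd : ∀ (z : (U ⊔ K : Subgroup G)) (u : U), (u : G)⁻¹ * z ∈ K → ψ u = ψ (c z) := by
    intro z u hu
    have h1 : ((u⁻¹ * c z : U) : G) ∈ K := by
      have h2 := mul_mem hu (inv_mem (hc z))
      have h3 : (u : G)⁻¹ * z * ((c z : G)⁻¹ * z)⁻¹ = ((u⁻¹ * c z : U) : G) := by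
        simp only [Subgroup.coe_mul, Subgroup.coe_inv]; group
      rwa [h3] at h2
    have h2 := hψ _ h1
    rw [map_mul, map_inv] at h2
    exact (inv_mul_eq_one.mp h2)
  refine ⟨MonoidHom.mk' (fun z => ψ (c z)) ?_, ?_, ?_⟩
  · intro z w
    rw [← map_mul]
    symm
    apply hwd
    have h1 : ((c z * c w : U) : G)⁻¹ * ((z * w : (U ⊔ K : Subgroup G)) : G)
        = ((c w : G)⁻¹ * ((c z : G)⁻¹ * z) * (c w : G)) * ((c w : G)⁻¹ * w) := by
      simp only [Subgroup.coe_mul]
      group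
    rw [h1]
    refine mul_mem ?_ (hc w)
    have h2 := (inferInstance : K.Normal).conj_mem _ (hc z) (c w : G)⁻¹
    rwa [inv_inv] at h2
  · intro u
    symm
    apply hwd
    simp
  · intro k hk
    have h1 := hwd ⟨k, mem_sup_right hk⟩ 1 (by simpa using hk)
    rw [map_one] at h1
    exact h1.symm

/-- **Comparison.** -/
lemma moveA (K : Subgroup G) [K.Normal] (hΓ : Group.IsNilpotent (G ⧸ K)) {U₀ : Subgroup G}
    (hU₀ : Group.IsNilpotent U₀) (hc₀ : Cvr K ⊤ U₀) {U : Subgroup G} (hU : Tame U) (ψ : U →* ℂˣ)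
    (hψ : ∀ u : U, (u : G) ∈ K → ψ u = 1) :
    ∃ F : U₀ → ℂ, (∀ g x : U₀, F (x * g * x⁻¹) = F g) ∧
      (∀ g n : U₀, (n : G) ∈ K → F (g * n) = F g) ∧
      ind U (fun h => ((ψ h : ℂˣ) : ℂ)) - ind U₀ F ∈ NewA K := by
  classical
  obtain ⟨lam, hl1, hl2⟩ := extend_lin K ψ hψ
  let H : Subgroup G := U ⊔ K
  have hUH : U ≤ H := le_sup_left
  have hKH : K ≤ H := le_sup_right
  let KH : Subgroup H := K.subgroupOf H
  have hlam : ∀ k ∈ KH, lam k = 1 := fun k hk => hl2 k (mem_subgroupOf.mp hk)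
  obtain ⟨π, S, hS⟩ := exists_sys KH (nil_quot K hΓ H)
  -- covering subgroups of `H`
  have hcU : Cvr KH ⊤ (U.subgroupOf H) := by
    rintro ⟨z, hz⟩ -
    obtain ⟨x, hx, k, hk, rfl⟩ := mem_sup_of_normal_right.mp hz
    refine ⟨⟨x, hUH hx⟩, mem_subgroupOf.mpr hx, mem_subgroupOf.mpr ?_⟩
    change x⁻¹ * (x * k) ∈ K
    rwa [inv_mul_cancel_left]
  have hc0 : Cvr KH ⊤ (U₀.subgroupOf H) := by
    rintro ⟨z, hz⟩ -
    obtain ⟨x, hx, hk⟩ := hc₀ z (mem_top z)
    have hxH : x ∈ H := by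
      have h1 := H.mul_mem hz (inv_mem (hKH hk))
      have h2 : z * (x⁻¹ * z)⁻¹ = x := by group
      rwa [h2] at h1
    exact ⟨⟨x, hxH⟩, mem_subgroupOf.mpr hx, mem_subgroupOf.mpr hk⟩
  obtain ⟨U₂, hU₂, hS₂⟩ := hS.ex _ le_top hcU
  obtain ⟨U₁, hU₁, hS₁⟩ := hS.ex _ le_top hc0
  have h1 := (hS.lk ⊤ le_top (fun b _ => ⟨b, mem_top b, by simp [one_mem]⟩) U₁ U₂ le_top le_top
    hS₁ hS₂).congr hS lam hlam
  have hTU : Tame (U.subgroupOf H) :=
    hU.of_injective (Subgroup.subgroupOfEquivOfLe hUH).toMonoidHom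
      (Subgroup.subgroupOfEquivOfLe hUH).injective
  have h2 := down KH hTU hU₂ (fun x _ => hS.cov U₂ hS₂ x (mem_top x)) lam hlam
  have h3 := ind_newA K H (add_mem h1 h2)
  rw [sub_add_sub_cancel, ind_sub] at h3
  -- the first term
  let W : Subgroup G := U₁.map H.subtype
  have hWU₀ : W ≤ U₀ := by
    rintro x ⟨y, hy, rfl⟩
    exact mem_subgroupOf.mp (hU₁ hy)
  let w : W → ℂ := tr H U₁ (fun u : U₁ => ((lam u : ℂˣ) : ℂ))
  have hw : Virt w := AddSubgroup.subset_closure (lin_irr ((lam.comp U₁.subtype).comp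
    (U₁.equivMapOfInjective H.subtype H.subtype_injective).symm.toMonoidHom))
  have h4 : ind H (ind U₁ (fun u : U₁ => ((lam u : ℂˣ) : ℂ))) = ind W w := ind_ind H U₁ _
  let D : U₀ → ℂ := ind (W.subgroupOf U₀) (fun x => w ⟨(x : U₀), x.2⟩)
  have hD : Virt D := virt_ind _ (Virt.comp hw (inclS W U₀))
  have h5 : ind W w = ind U₀ D := ind_tower hWU₀ w
  have h6 := ind_sub_invA K (Or.inr hU₀ : Tame U₀) hD
  -- the second term
  have h7 : ind H (ind (U.subgroupOf H) (fun u : U.subgroupOf H => ((lam u : ℂˣ) : ℂ)))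
      = ind U (fun h => ((ψ h : ℂˣ) : ℂ)) := by
    rw [ind_tower hUH (fun h => ((ψ h : ℂˣ) : ℂ))]
    congr 2
    funext x
    have h8 := hl1 ⟨((x : H) : G), x.2⟩
    rw [← h8]
  rw [h4, h5, h7] at h3
  refine ⟨inv (K.subgroupOf U₀) D, inv_class _ hD.conj, ?_, ?_⟩
  · intro g n hn
    exact inv_mul_mem _ _ _ (mem_subgroupOf.mpr hn)
  · have h8 := sub_mem h6 h3
    have h9 : ind U₀ D - ind U₀ (inv (K.subgroupOf U₀) D) - (ind U₀ D - ind U
        (fun h => ((ψ h : ℂˣ) : ℂ))) = ind U (fun h => ((ψ h : ℂˣ) : ℂ)) -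
        ind U₀ (inv (K.subgroupOf U₀) D) := by abel
    rw [← h9]
    exact h8

/-- **Reduction.** -/
theorem reduceA (K : Subgroup G) [K.Normal] (hΓ : Group.IsNilpotent (G ⧸ K)) {U₀ : Subgroup G}
    (hU₀ : Group.IsNilpotent U₀) (hc₀ : Cvr K ⊤ U₀) {f : G → ℂ} (hf : Virt f) :
    f - ind U₀ (fun h => inv K f h) ∈ NewA K := by
  classical
  let res : (G → ℂ) →+ (U₀ → ℂ) := AddMonoidHom.mk' (fun f h => f h) (fun a b => rfl)
  have hPK : ∀ g : G, ∃ x ∈ U₀, ∃ k ∈ K, g = x * k := by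
    intro g
    obtain ⟨x, hx, hk⟩ := hc₀ g (mem_top g)
    exact ⟨x, hx, x⁻¹ * g, hk, by group⟩
  have h1 : MonG G ≤ (NewA K).comap
      (AddMonoidHom.id _ - (indHom U₀).comp (res.comp (invHom K))) := by
    rw [MonG, AddSubgroup.closure_le]
    rintro f ⟨U, ψ, hU, rfl⟩
    rw [SetLike.mem_coe, AddSubgroup.mem_comap]
    change ind U (fun h => ((ψ h : ℂˣ) : ℂ)) - ind U₀
      (fun h => inv K (ind U (fun h => ((ψ h : ℂˣ) : ℂ))) h) ∈ NewA K
    by_cases hψ : ∀ u : U, (u : G) ∈ K → ψ u = 1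
    · obtain ⟨F, hF, hFK, hs⟩ := moveA K hΓ hU₀ hc₀ (Or.inl hU) ψ hψ
      have h2 : (fun h : U₀ => inv K (ind U (fun h => ((ψ h : ℂˣ) : ℂ))) h) = F := by
        have h3 := inv_newA K hs
        have h4 : inv K (ind U (fun h => ((ψ h : ℂˣ) : ℂ)) - ind U₀ F)
            = inv K (ind U (fun h => ((ψ h : ℂˣ) : ℂ))) - inv K (ind U₀ F) :=
          map_sub (invHom K) _ _
        rw [h4] at h3
        funext h
        have h5 := congrFun h3 (h : G)
        rw [Pi.sub_apply, inv_ind_of_surj K U₀ hPK hF hFK h] at h5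
        exact sub_eq_zero.mp h5
      rw [h2]
      exact hs
    · push Not at hψ
      obtain ⟨u, hu, hψu⟩ := hψ
      have h2 : ind U (fun h => ((ψ h : ℂˣ) : ℂ)) ∈ NewA K :=
        AddSubgroup.subset_closure ⟨U, ψ, Or.inl hU, ⟨u, hu, hψu⟩, rfl⟩
      rw [inv_newA K h2]
      have h3 : ind U₀ (fun h : U₀ => (0 : G → ℂ) h) = 0 := ind_zero _
      rw [h3, sub_zero]
      exact h2
  exact h1 (virt_mem_mon hf)

end main

end Pool.Agent.R389
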