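import Mathlib
import Pool.Agent.R389.NilRed
import Pool.Agent.R389.NewMain
import Pool.Agent.R389.Main

/-!
# Virtual characters without constituents trivial on a normal subgroup
-/

set_option autoImplicit false
set_option linter.unusedSectionVars false

namespace Pool.Agent.R389

open Pool.Agent.H302R2 Pool.Agent.H302R3 Pool.Agent.H541R3.ART Pool.Agent.W446.AS Filter Topology

variable {G : Type} [Group G] [Finite G]

/-- **Relative Brauer induction.** A virtual character with mean zero on the cosets of a normal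
subgroup `K` is an integral combination of characters induced from linear characters which are
nontrivial on `K`. -/
theorem relative_brauer (K : Subgroup G) [K.Normal] {f : G → ℂ}
    (hf : Virt f) (h0 : inv K f = 0) : f ∈ NewA K := by
  classical
  have : Fintype K := Fintype.ofFinite K
  let π : G →* G ⧸ K := QuotientGroup.mk' K
  have hπ : Function.Surjective π := QuotientGroup.mk'_surjective K
  let m : (G ⧸ K → ℂ) →+ (G → ℂ) := AddMonoidHom.mk' (fun u g => u (π g) * f g) (fun a b => by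
    funext g
    change (a (π g) + b (π g)) * f g = a (π g) * f g + b (π g) * f g
    ring)
  have h1 : PN (G ⧸ K) ≤ (NewA K).comap m := by
    rw [PN, AddSubgroup.closure_le]
    rintro u ⟨V, ψ, hV, rfl⟩
    rw [SetLike.mem_coe, AddSubgroup.mem_comap]
    let H : Subgroup G := V.comap π
    let π' : H →* V :=
      { toFun := fun h => ⟨π h, h.2⟩
        map_one' := by apply Subtype.ext; simp
        map_mul' := by intro a b; apply Subtype.ext; simp }
    let F : H → ℂ := fun h => f h * (((ψ.comp π') h : ℂˣ) : ℂ)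
    have h2 : m (ind V (fun h => ((ψ h : ℂˣ) : ℂ))) = ind H F := by
      funext g
      change ind V (fun h => ((ψ h : ℂˣ) : ℂ)) (π g) * f g = ind H F g
      rw [congrFun (ind_comap hπ V (fun h => ((ψ h : ℂˣ) : ℂ))) g,
        ← ind_mul (V.comap π) _ hf.conj g]
      congr 1
      funext h
      rw [mul_comm]
      rfl
    rw [h2]
    apply ind_newA
    have hFv : Virt F := by
      have h3 : AddSubgroup.closure (Irr H) ≤ (AddSubgroup.closure (Irr H)).comap
          (twHom (ψ.comp π')) := by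
        rw [AddSubgroup.closure_le]
        intro χ hχ
        exact AddSubgroup.subset_closure (irr_twist hχ _)
      exact h3 (Virt.comp hf H.subtype)
    have hHQ : Group.IsNilpotent (H ⧸ K.subgroupOf H) := by
      refine nil_of_injective (QuotientGroup.lift (K.subgroupOf H) π' ?_) ?_ hV
      · intro x hx
        apply Subtype.ext
        change π (x : G) = 1
        exact (QuotientGroup.eq_one_iff _).mpr (Subgroup.mem_subgroupOf.mp hx)
      · rw [injective_iff_map_eq_one]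
        intro q hq
        obtain ⟨x, rfl⟩ := QuotientGroup.mk_surjective q
        have h1 : π' x = 1 := hq
        have h2 : π (x : G) = 1 := congrArg Subtype.val h1
        exact (QuotientGroup.eq_one_iff x).mpr
          (Subgroup.mem_subgroupOf.mpr ((QuotientGroup.eq_one_iff _).mp h2))
    obtain ⟨σ, S, hS⟩ := exists_sys (K.subgroupOf H) hHQ
    obtain ⟨P, -, hSP⟩ := hS.ex ⊤ le_top (fun b _ => ⟨b, Subgroup.mem_top b, by simp [one_mem]⟩)
    have h3 := reduceA (K.subgroupOf H) hHQ (hS.nil P hSP) (hS.cov P hSP) hFv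
    have h4 : inv (K.subgroupOf H) F = 0 := by
      have : Fintype (K.subgroupOf H) := Fintype.ofFinite _
      funext g
      rw [inv_eq]
      have hKH : K ≤ H := by
        intro k hk
        change π k ∈ V
        have : π k = 1 := (QuotientGroup.eq_one_iff k).mpr hk
        rw [this]
        exact one_mem _
      have h5 : ∀ k : K.subgroupOf H, F (g * k) = f ((g : G) * ((k : H) : G)) *
          (((ψ.comp π') g : ℂˣ) : ℂ) := by
        intro k
        change f _ * _ = _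
        congr 2
        rw [map_mul]
        have h6 : (ψ.comp π') (k : H) = 1 := by
          rw [MonoidHom.comp_apply]
          have h7 : π' (k : H) = 1 := by
            apply Subtype.ext
            change π ((k : H) : G) = 1
            exact (QuotientGroup.eq_one_iff _).mpr (Subgroup.mem_subgroupOf.mp k.2)
          rw [h7, map_one]
        rw [h6, mul_one]
      rw [Finset.sum_congr rfl (fun k _ => h5 k), ← Finset.sum_mul]
      have h6 : ∑ k : K.subgroupOf H, f ((g : G) * ((k : H) : G)) = ∑ k : K, f ((g : G) * k) := by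
        refine Fintype.sum_equiv (Subgroup.subgroupOfEquivOfLe hKH).toEquiv _ _ fun k => ?_
        rfl
      have h7 := congrFun h0 (g : G)
      rw [inv_eq] at h7
      have h8 : ∑ k : K, f ((g : G) * k) = 0 := by
        rcases mul_eq_zero.mp h7 with h | h
        · exact absurd h (inv_ne_zero card_ne)
        · exact h
      rw [h6, h8, zero_mul, mul_zero]
      rfl
    rw [h4] at h3
    have h5 : ind P (fun h : P => (0 : H → ℂ) h) = 0 := ind_zero _
    rw [h5, sub_zero] at h3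
    exact h3
  have h2 := h1 (one_mem_pn)
  rw [AddSubgroup.mem_comap] at h2
  have h3 : m (fun _ => 1) = f := by
    funext g
    change 1 * f g = f g
    rw [one_mul]
  rwa [h3] at h2


/-- twisted form -/
def NewTA (K : Subgroup G) (lam : G →* ℂˣ) : AddSubgroup (G → ℂ) :=
  AddSubgroup.closure {f | ∃ (U : Subgroup G) (ψ : U →* ℂˣ), Tame U ∧
    (∃ u : U, (u : G) ∈ K ∧ ψ u ≠ lam u) ∧ f = ind U (fun h => ((ψ h : ℂˣ) : ℂ))}

lemma new_twistT (K : Subgroup G) (lam : G →* ℂˣ) : NewA K ≤ (NewTA K lam).comap (twHom lam) := by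
  rw [NewA, AddSubgroup.closure_le]
  rintro f ⟨U, ψ, hU, ⟨u, hu, hψ⟩, rfl⟩
  rw [SetLike.mem_coe, AddSubgroup.mem_comap]
  apply AddSubgroup.subset_closure
  refine ⟨U, ψ * lam.comp U.subtype, hU, ⟨u, hu, ?_⟩, ?_⟩
  · intro h
    apply hψ
    rw [MonoidHom.mul_apply] at h
    exact mul_eq_right.mp h
  · funext g
    change ind U (fun h => ((ψ h : ℂˣ) : ℂ)) g * ((lam g : ℂˣ) : ℂ) = _
    rw [← ind_mul U (fun h => ((ψ h : ℂˣ) : ℂ)) (F := fun g => ((lam g : ℂˣ) : ℂ))
      (lin_conj lam) g]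
    rfl


/-- nonnegative integral multiplicities against monomial characters of tame type -/
structure HT (θ : G → ℂ) : Prop where
  conj : ∀ g x : G, θ (x * g * x⁻¹) = θ g
  nat : ∀ (U : Subgroup G) (ψ : U →* ℂˣ), Tame U →
    ∃ n : ℕ, pr θ (ind U (fun h => ((ψ h : ℂˣ) : ℂ))) = n

lemma ind_mono_memT {U : Subgroup G} (hU : Tame U) {χ : U → ℂ} (hχ : χ ∈ Irr U) :
    ∃ (W : Subgroup G) (ψ : W →* ℂˣ), Tame W ∧ W ≤ U ∧
      ind U χ = ind W (fun h => ((ψ h : ℂˣ) : ℂ)) := by
  obtain ⟨K, ψ, hψ⟩ := hU.mono hχ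
  refine ⟨K.map U.subtype, ψ.comp
    (K.equivMapOfInjective U.subtype U.subtype_injective).symm.toMonoidHom, ?_, ?_, ?_⟩
  · exact (hU.of_injective K.subtype K.subtype_injective).of_injective
      (K.equivMapOfInjective U.subtype U.subtype_injective).symm.toMonoidHom
      (K.equivMapOfInjective U.subtype U.subtype_injective).symm.injective
  · rintro x ⟨y, -, rfl⟩
    exact y.2
  · rw [hψ, ind_ind]
    rfl


variable {θ : G → ℂ}

/-- multiplicities of irreducible characters of hyperelementary subgroups -/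
lemma HT.nat_irr (hθ : HT θ) {U : Subgroup G} (hU : Tame U) {χ : U → ℂ} (hχ : χ ∈ Irr U) :
    ∃ n : ℕ, pr (fun h : U => θ h) χ = n := by
  obtain ⟨W, ψ, hW, -, h3⟩ := ind_mono_memT hU hχ
  obtain ⟨n, hn⟩ := hθ.nat W ψ hW
  refine ⟨n, ?_⟩
  rw [← frob' U _ hθ.conj, h3, hn]

/-- orthogonality to the characters which are new on `K` -/
lemma HT.ortho (hθ : HT θ) {K : Subgroup G} {lam : G →* ℂˣ}
    (hK : ∀ k ∈ K, θ k = ((lam k : ℂˣ) : ℂ) * θ 1) {U : Subgroup G} (hU : Tame U)
    {ψ : U →* ℂˣ} {u : U} (hu : (u : G) ∈ K) (hne : ψ u ≠ lam u) :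
    pr θ (ind U (fun h => ((ψ h : ℂˣ) : ℂ))) = 0 := by
  classical
  rw [frob' U _ hθ.conj]
  let C : Subgroup U := Subgroup.zpowers u
  have : Fintype C := Fintype.ofFinite C
  have : Fintype U := Fintype.ofFinite U
  have hCK : ∀ z : C, ((z : U) : G) ∈ K := by
    rintro ⟨z, k, rfl⟩
    change ((u ^ k : U) : G) ∈ K
    rw [Subgroup.coe_zpow]
    exact K.zpow_mem hu k
  let ψC : C → ℂ := fun z => ((ψ z : ℂˣ) : ℂ)
  have hψC : ψC ∈ Irr C := lin_irr (ψ.comp C.subtype)
  have hcl : ∀ g x : U, (fun h : U => θ h) (x * g * x⁻¹) = (fun h : U => θ h) g :=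
    fun g x => hθ.conj (g : G) (x : G)
  -- the multiplicity over `C` vanishes
  have h1 : pr (fun z : C => θ ((z : U) : G)) ψC = 0 := by
    rw [pr_eq]
    have h2 : ∀ z : C, θ ((z : U) : G) * ψC z⁻¹
        = θ 1 * (((((lam.comp U.subtype).comp C.subtype) * (ψ.comp C.subtype)⁻¹) z : ℂˣ) : ℂ) := by
      intro z
      rw [hK _ (hCK z), MonoidHom.mul_apply, MonoidHom.inv_apply]
      change ((lam ((z : U) : G) : ℂˣ) : ℂ) * θ 1 * ((ψ ((z⁻¹ : C) : U) : ℂˣ) : ℂ)
        = θ 1 * (((lam ((z : U) : G)) * (ψ (z : U))⁻¹ : ℂˣ) : ℂ)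
      rw [Subgroup.coe_inv, map_inv]
      push_cast
      ring
    rw [Finset.sum_congr rfl (fun z _ => h2 z), ← Finset.mul_sum]
    have h3 := finsum_char_eq_zero (((lam.comp U.subtype).comp C.subtype) * (ψ.comp C.subtype)⁻¹) (by
      intro h
      have h4 := DFunLike.congr_fun h ⟨u, Subgroup.mem_zpowers u⟩
      rw [MonoidHom.mul_apply, MonoidHom.inv_apply, MonoidHom.one_apply] at h4
      exact hne (mul_inv_eq_one.mp h4).symm)
    rw [finsum_eq_sum_of_fintype] at h3
    rw [h3, mul_zero, mul_zero]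
  choose! m hm using fun χ (hχ : χ ∈ Irr U) => pr_nat (Hyper.cyclic u) hχ hψC
  choose! n hn using fun χ (hχ : χ ∈ Irr U) => hθ.nat_irr hU hχ
  have h2 : pr (fun h : U => θ h) (ind C ψC) = ((∑ χ ∈ irrF U, m χ * n χ : ℕ) : ℂ) := by
    have h3 : ind C ψC = fun g => ∑ χ ∈ irrF U, (m χ : ℂ) * χ g := by
      funext g
      rw [class_expand (ind_class C ψC) g]
      refine Finset.sum_congr rfl fun χ hχ => ?_
      rw [frob C ψC (Irr.conj (mem_irrF.mp hχ)), pr_comm, hm χ (mem_irrF.mp hχ)]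
    rw [h3, pr_sum_right]
    push_cast
    refine Finset.sum_congr rfl fun χ hχ => ?_
    rw [hn χ (mem_irrF.mp hχ)]
  rw [frob' C ψC hcl, h1] at h2
  have h3 : ∑ χ ∈ irrF U, m χ * n χ = 0 := by exact_mod_cast h2.symm
  have hψI : (fun h : U => ((ψ h : ℂˣ) : ℂ)) ∈ Irr U := lin_irr ψ
  have h4 := Finset.sum_eq_zero_iff.mp h3 _ (mem_irrF.mpr hψI)
  have h5 : m (fun h : U => ((ψ h : ℂˣ) : ℂ)) = 1 := by
    have h6 := hm _ hψI
    have h7 : pr (fun h : C => ((ψ h : ℂˣ) : ℂ)) ψC = 1 := pr_self hψC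
    rw [h7] at h6
    exact_mod_cast h6.symm
  rw [h5, one_mul] at h4
  rw [hn _ hψI, h4]
  simp


variable {E : Type} [Field E]
  {L : (E →+* ℂ) → (G → ℂ) → ℂ → ℂ} {P : (E →+* ℂ) → (G → ℂ) → ℂ} {c : ℂ}

/-- the multiplicities of the orders over hyperelementary subgroups are nonnegative -/
lemma ht_ords {ζ : E} (hζ : IsPrimitiveRoot ζ (Monoid.exponent G))
    (hL : ∀ τ, ∀ χ ∈ Irr G, MeromorphicAt (L τ χ) c ∧ meromorphicOrderAt (L τ χ) c ≠ ⊤)
    (hmon : ∀ (U : Subgroup G) (ψ : U →* Eˣ), Tame U →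
      Deligne L P c (ind U (fun u => ((ψ u : Eˣ) : E)))) (τ : E →+* ℂ) :
    HT (theta (ords (L τ) c) : G → ℂ) where
  conj := (theta_virt _).conj
  nat U ψ hU := by
    classical
    obtain ⟨ψE, hψE⟩ := lift_char hζ τ U ψ
    obtain ⟨m, hm⟩ := ind_isDecomp U ψ
    obtain ⟨e, he⟩ := hmon U ψE hU
    have h1 : (fun g => τ (ind U (fun u => ((ψE u : Eˣ) : E)) g))
        = ind U (fun h => ((ψ h : ℂˣ) : ℂ)) := by
      funext g
      rw [ind_map]
      congr 1
      funext u
      exact hψE u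
    have h2 := he τ m (by rw [h1]; exact hm)
    have h3 := order_prod (hL τ) (irrF G) subset_rfl (fun χ => (m χ : ℤ))
    have h4 : (fun s => ∏ᶠ χ ∈ Irr G, L τ χ s ^ m χ)
        = fun z => ∏ χ ∈ irrF G, L τ χ z ^ ((m χ : ℕ) : ℤ) := by
      funext s
      rw [finprod_irr (fun χ => L τ χ s ^ m χ)]
      exact Finset.prod_congr rfl fun χ _ => by rw [zpow_natCast]
    rw [h4] at h2
    have h5 := (tendsto_nhds_iff_meromorphicOrderAt_nonneg h3.1).mp ⟨_, h2⟩
    rw [h3.2] at h5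
    have h6 : (0 : ℤ) ≤ ∑ χ ∈ irrF G, (m χ : ℤ) * ords (L τ) c χ := by exact_mod_cast h5
    obtain ⟨k, hk⟩ := Int.eq_ofNat_of_zero_le h6
    refine ⟨k, ?_⟩
    rw [pr_ords (m := fun χ => (m χ : ℤ)) (fun χ hχ => by rw [hm.pr hχ]; simp), hk]
    simp

/-- new monomial characters are invertible -/
lemma new_unitT {ζ : E} (hζ : IsPrimitiveRoot ζ (Monoid.exponent G))
    (hL : ∀ τ, ∀ χ ∈ Irr G, MeromorphicAt (L τ χ) c ∧ meromorphicOrderAt (L τ χ) c ≠ ⊤)
    (hP : ∀ τ, ∀ χ ∈ Irr G, P τ χ ≠ 0)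
    (hmon : ∀ (U : Subgroup G) (ψ : U →* Eˣ), Tame U →
      Deligne L P c (ind U (fun u => ((ψ u : Eˣ) : E)))) (τ₀ : E →+* ℂ)
    {K : Subgroup G} {lam : G →* ℂˣ}
    (hK : ∀ k ∈ K, (theta (ords (L τ₀) c) : G → ℂ) k
      = ((lam k : ℂˣ) : ℂ) * (theta (ords (L τ₀) c) : G → ℂ) 1)
    {s : G → ℂ} (hs : s ∈ NewTA K lam) :
    ∃ (f : G → E) (e : E), (∀ g, τ₀ (f g) = s g) ∧ e ≠ 0 ∧ DelZ L P c f e := by
  classical
  have hθ := ht_ords hζ hL hmon τ₀
  induction hs using AddSubgroup.closure_induction with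
  | mem s hs =>
    obtain ⟨U, ψ, hU, ⟨u, hu, hne⟩, rfl⟩ := hs
    obtain ⟨ψE, hψE⟩ := lift_char hζ τ₀ U ψ
    obtain ⟨e, he⟩ := delZ_ind (hmon U ψE hU)
    have h1 : ∀ g, τ₀ (ind U (fun u => ((ψE u : Eˣ) : E)) g)
        = ind U (fun h => ((ψ h : ℂˣ) : ℂ)) g := by
      intro g
      rw [ind_map]
      congr 1
      funext u
      exact hψE u
    refine ⟨_, e, h1, ?_, he⟩
    have h2 := hθ.ortho hK hU hu hne
    obtain ⟨m, hm⟩ := ind_isDecomp U ψ
    rw [pr_ords (m := fun χ => (m χ : ℤ)) (fun χ hχ => by rw [hm.pr hχ]; simp)] at h2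
    have h3 := order_prod (hL τ₀) (irrF G) subset_rfl (fun χ => (m χ : ℤ))
    have h4 : ∑ χ ∈ irrF G, (m χ : ℤ) * ords (L τ₀) c χ = 0 := by exact_mod_cast h2
    rw [h4] at h3
    obtain ⟨a, ha, hlim⟩ := (tendsto_ne_zero_iff_meromorphicOrderAt_eq_zero h3.1).mpr h3.2
    have h5 := he.2 τ₀
    have h6 : ∀ χ ∈ irrF G,
        mult (fun g => τ₀ (ind U (fun u => ((ψE u : Eˣ) : E)) g)) χ = (m χ : ℤ) := by
      intro χ hχ
      apply mult_of_pr
      have h7 : (fun g => τ₀ (ind U (fun u => ((ψE u : Eˣ) : E)) g))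
          = ind U (fun h => ((ψ h : ℂˣ) : ℂ)) := funext h1
      rw [h7, hm.pr (mem_irrF.mp hχ)]
      simp
    have h8 : (fun s => ∏ χ ∈ irrF G, L τ₀ χ s ^
        mult (fun g => τ₀ (ind U (fun u => ((ψE u : Eˣ) : E)) g)) χ)
        = fun z => ∏ χ ∈ irrF G, L τ₀ χ z ^ ((m χ : ℕ) : ℤ) := by
      funext z
      exact Finset.prod_congr rfl fun χ hχ => by rw [h6 χ hχ]
    rw [h8] at h5
    have h9 := tendsto_nhds_unique h5 hlim
    intro h0
    rw [h0, map_zero, zero_mul] at h9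
    exact ha h9.symm
  | zero => exact ⟨0, 1, fun g => map_zero τ₀, one_ne_zero, DelZ.zero⟩
  | add a b _ _ ha hb =>
    obtain ⟨f, e, h1, h2, h3⟩ := ha
    obtain ⟨f', e', h1', h2', h3'⟩ := hb
    exact ⟨f + f', e * e', fun g => by rw [Pi.add_apply, map_add, h1, h1']; rfl,
      mul_ne_zero h2 h2', h3.add hL hP h3'⟩
  | neg a _ ha =>
    obtain ⟨f, e, h1, h2, h3⟩ := ha
    exact ⟨-f, e⁻¹, fun g => by rw [Pi.neg_apply, map_neg, h1]; rfl, inv_ne_zero h2,
      h3.neg hP h2⟩


end Pool.Agent.R389
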