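import Mathlib
import Pool.Agent.R389.RelBrauer
import Pool.Agent.R389.RatMain2

/-!
# Deligne's conjecture over `L` and over the field of the zeros
-/

set_option autoImplicit false
set_option linter.unusedSectionVars false

namespace Pool.Agent.R389

open Pool.Agent.H302R2 Pool.Agent.H302R3 Pool.Agent.H541R3.ART Pool.Agent.W446.AS Filter Topology

variable {G : Type} [Group G] [Finite G] {E : Type} [Field E]
  {L : (E →+* ℂ) → (G → ℂ) → ℂ → ℂ} {P : (E →+* ℂ) → (G → ℂ) → ℂ} {c : ℂ}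

/-- nonnegative combinations -/
lemma decomp_of_closure {f : G → ℂ} (hf : f ∈ AddSubmonoid.closure (Irr G)) :
    ∃ m, IsDecomp f m := by
  classical
  have h1 : ∀ χ ∈ Irr G, ∃ n : ℕ, pr f χ = n := by
    intro χ hχ
    refine nat_closure (fun η hη => ?_) hf
    by_cases he : η = χ
    · exact ⟨1, by rw [he, pr_self hχ]; simp⟩
    · exact ⟨0, by rw [pr_ne hη hχ he]; simp⟩
  choose! m hm using h1
  exact ⟨m, IsDecomp.of_pr (fun g x => (virt_of_closure hf).conj g x) hm⟩

/-- the part of a representation on which `K` acts through a linear character -/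
lemma isotypic (τ₀ : E →+* ℂ) (K : Subgroup G) [hK : K.Normal] (lam : G →* Eˣ)
    {V : Type} [AddCommGroup V] [Module E V] [FiniteDimensional E V] (ρ : Representation E G V) :
    ∃ (W : Submodule E V) (σ : Representation E G W),
      (∀ k ∈ K, ∀ w : W, σ k w = ((lam k : Eˣ) : E) • w) ∧
      ∀ g, τ₀ (σ.character g) = twHom ((Units.map τ₀.toMonoidHom).comp lam)
        (inv K (twHom ((Units.map τ₀.toMonoidHom).comp lam)⁻¹ (fun g => τ₀ (ρ.character g)))) g := by
  classical
  have : Fintype K := Fintype.ofFinite K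
  have hcard : (Nat.card K : E) ≠ 0 := by
    intro h
    have h1 := congrArg τ₀ h
    rw [map_natCast, map_zero] at h1
    exact card_ne h1
  have hlc : ∀ g k : G, lam (g⁻¹ * k * g) = lam k := by
    intro g k
    rw [map_mul, map_mul, map_inv, mul_comm (lam g)⁻¹, inv_mul_cancel_right]
  let W : Submodule E V :=
    { carrier := {v | ∀ k ∈ K, ρ k v = ((lam k : Eˣ) : E) • v}
      add_mem' := by
        intro a b ha hb k hk
        rw [map_add, ha k hk, hb k hk, smul_add]
      zero_mem' := by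
        intro k _
        rw [map_zero, smul_zero]
      smul_mem' := by
        intro c a ha k hk
        rw [map_smul, ha k hk, smul_comm] }
  have hW : ∀ v, v ∈ W ↔ ∀ k ∈ K, ρ k v = ((lam k : Eˣ) : E) • v := fun v => Iff.rfl
  have hst : ∀ g : G, ∀ v ∈ W, ρ g v ∈ W := by
    intro g v hv k hk
    have h1 : g⁻¹ * k * g ∈ K := by
      have := hK.conj_mem k hk g⁻¹
      rwa [inv_inv] at this
    have h2 := hv _ h1
    have h3 : k * g = g * (g⁻¹ * k * g) := by group
    rw [← Module.End.mul_apply, ← map_mul, h3, map_mul, Module.End.mul_apply, h2, map_smul, hlc]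
  let σ : Representation E G W :=
    { toFun := fun g => (ρ g).restrict (hst g)
      map_one' := by
        ext w
        simp [LinearMap.restrict_apply]
      map_mul' := by
        intro a b
        ext w
        simp [LinearMap.restrict_apply] }
  refine ⟨W, σ, ?_, ?_⟩
  · intro k hk w
    apply Subtype.ext
    exact w.2 k hk
  intro g
  -- the projection
  let e : V →ₗ[E] V := (Nat.card K : E)⁻¹ • ∑ k : K, (((lam k)⁻¹ : Eˣ) : E) • ρ (k : G)
  have he : ∀ v, e v = (Nat.card K : E)⁻¹ • ∑ k : K, (((lam k)⁻¹ : Eˣ) : E) • ρ (k : G) v := by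
    intro v
    change ((Nat.card K : E)⁻¹ • ∑ k : K, (((lam k)⁻¹ : Eˣ) : E) • ρ (k : G)) v = _
    rw [LinearMap.smul_apply, LinearMap.sum_apply]
    rfl
  have heW : ∀ v, e v ∈ W := by
    intro v k hk
    rw [he, map_smul, map_sum, smul_comm]
    congr 1
    rw [← Equiv.sum_comp (Equiv.mulLeft (⟨k, hk⟩ : K)) (fun x : K =>
      (((lam x)⁻¹ : Eˣ) : E) • ρ (x : G) v), Finset.smul_sum]
    refine Finset.sum_congr rfl fun x _ => ?_
    rw [map_smul, ← Module.End.mul_apply, ← map_mul, smul_smul]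
    simp only [Equiv.coe_mulLeft, Subgroup.coe_mul]
    congr 1
    rw [← Units.val_mul, map_mul, mul_inv, mul_inv_cancel_left]
  have heid : ∀ v ∈ W, e v = v := by
    intro v hv
    rw [he]
    have h1 : ∀ k : K, (((lam k)⁻¹ : Eˣ) : E) • ρ (k : G) v = v := by
      intro k
      rw [hv k k.2, smul_smul, ← Units.val_mul, inv_mul_cancel, Units.val_one, one_smul]
    rw [Finset.sum_congr rfl (fun k _ => h1 k), Finset.sum_const, Finset.card_univ,
      ← Nat.card_eq_fintype_card, ← Nat.cast_smul_eq_nsmul E, smul_smul, inv_mul_cancel₀ hcard,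
      one_smul]
  let F : V →ₗ[E] V := (ρ g).comp e
  have hF : ∀ v, F v ∈ W := fun v => hst g _ (heW v)
  have h1 := LinearMap.trace_restrict_eq_of_forall_mem W F hF
  have h2 : F.restrict (fun x _ => hF x) = σ g := by
    ext w
    change ρ g (e w) = ρ g w
    rw [heid _ w.2]
  have h3 : LinearMap.trace E V F
      = (Nat.card K : E)⁻¹ * ∑ k : K, (((lam k)⁻¹ : Eˣ) : E) * ρ.character (g * k) := by
    have h4 : F = (Nat.card K : E)⁻¹ • ∑ k : K, (((lam k)⁻¹ : Eˣ) : E) • ρ (g * (k : G)) := by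
      refine LinearMap.ext fun v => ?_
      change ρ g (e v) = _
      rw [he, map_smul, map_sum, LinearMap.smul_apply, LinearMap.sum_apply]
      congr 1
      refine Finset.sum_congr rfl fun k _ => ?_
      rw [map_smul, LinearMap.smul_apply, map_mul, Module.End.mul_apply]
    rw [h4, map_smul, map_sum, smul_eq_mul]
    congr 1
    refine Finset.sum_congr rfl fun k _ => ?_
    rw [map_smul, smul_eq_mul]
    rfl
  have h5 : σ.character g
      = (Nat.card K : E)⁻¹ * ∑ k : K, (((lam k)⁻¹ : Eˣ) : E) * ρ.character (g * k) := by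
    rw [← h3, ← h1, h2]
    rfl
  rw [h5, map_mul, map_inv₀, map_natCast, map_sum]
  change _ = inv K _ g * _
  rw [inv_eq, mul_assoc, Finset.sum_mul]
  congr 1
  refine Finset.sum_congr rfl fun k _ => ?_
  change τ₀ ((((lam k)⁻¹ : Eˣ) : E) * ρ.character (g * k)) = τ₀ (ρ.character (g * k))
    * ((((((Units.map τ₀.toMonoidHom).comp lam)⁻¹ : G →* ℂˣ) (g * k) : ℂˣ)) : ℂ)
    * ((((Units.map τ₀.toMonoidHom).comp lam) g : ℂˣ) : ℂ)
  rw [MonoidHom.inv_apply, map_mul, mul_comm, mul_assoc, ← Units.val_mul]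
  congr 1
  rw [map_mul, mul_inv, mul_comm (_)⁻¹ (_)⁻¹, inv_mul_cancel_right]
  have h6 : (((Units.map τ₀.toMonoidHom).comp lam) (k : G))⁻¹
      = Units.map τ₀.toMonoidHom ((lam k)⁻¹) := (map_inv (Units.map τ₀.toMonoidHom) (lam k)).symm
  rw [h6]
  rfl

/-- **No new zeros.** -/
theorem main_grow {ζ : E} (hζ : IsPrimitiveRoot ζ (Monoid.exponent G))
    (hL : ∀ τ, ∀ χ ∈ Irr G, MeromorphicAt (L τ χ) c ∧ meromorphicOrderAt (L τ χ) c ≠ ⊤)
    (hP : ∀ τ, ∀ χ ∈ Irr G, P τ χ ≠ 0)
    (hmon : ∀ (U : Subgroup G) (ψ : U →* Eˣ), Tame U →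
      Deligne L P c (ind U (fun u => ((ψ u : Eˣ) : E)))) (τ₀ : E →+* ℂ)
    {deg : (G → ℂ) → ℕ} (hdeg : ∀ χ ∈ Irr G, χ 1 = deg χ)
    (K : Subgroup G) [hK : K.Normal] (lam : G →* Eˣ)
    (hold : ∀ (W : Type) [AddCommGroup W] [Module E W] [FiniteDimensional E W]
      (σ : Representation E G W), (∀ k ∈ K, ∀ w, σ k w = ((lam k : Eˣ) : E) • w) →
      Deligne L P c σ.character)
    (hz : meromorphicOrderAt (fun s => ∏ᶠ χ ∈ Irr G, L τ₀ χ s ^ deg χ) c ≤
      meromorphicOrderAt (fun s => ∏ᶠ χ ∈ {χ ∈ Irr G | ∀ k ∈ K, χ k = χ 1 * τ₀ ((lam k : Eˣ) : E)},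
        L τ₀ χ s ^ deg χ) c)
    {V : Type} [AddCommGroup V] [Module E V] [FiniteDimensional E V] (ρ : Representation E G V) :
    Deligne L P c ρ.character := by
  classical
  set lam₀ : G →* ℂˣ := (Units.map τ₀.toMonoidHom).comp lam with hlam₀
  have hmon' : ∀ (U : Subgroup G) (ψ : U →* Eˣ), Hyper U →
      Deligne L P c (ind U (fun u => ((ψ u : Eˣ) : E))) := fun U ψ hU => hmon U ψ (Or.inl hU)
  have hKth := zeros_old hζ hL hmon' τ₀ hdeg K lam₀ hz
  obtain ⟨W, σ, hσ, hσc⟩ := isotypic τ₀ K lam ρ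
  obtain ⟨e₁, he₁⟩ := (hold W σ hσ).delZ fun τ => decomp_of_closure (base_change τ σ)
  -- the new part
  let f' : G → ℂ := twHom lam₀⁻¹ (fun g => τ₀ (ρ.character g))
  have hf' : Virt f' := by
    have h3 : AddSubmonoid.closure (Irr G) ≤ ((AddSubgroup.closure (Irr G)).comap
        (twHom lam₀⁻¹)).toAddSubmonoid := by
      rw [AddSubmonoid.closure_le]
      intro χ hχ
      exact AddSubgroup.subset_closure (irr_twist hχ _)
    exact h3 (base_change τ₀ ρ)
  have hnew : f' - inv K f' ∈ NewA K := by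
    refine relative_brauer K (sub_mem (S := AddSubgroup (G → ℂ)) hf' (virt_inv K hf')) ?_
    have h1 : inv K (f' - inv K f') = inv K f' - inv K (inv K f') := map_sub (invHom K) _ _
    rw [h1, inv_of_const K (f := inv K f') (fun g k hk => inv_mul_mem K f' g hk), sub_self]
  have h1 := new_twistT K lam₀ hnew
  rw [AddSubgroup.mem_comap] at h1
  obtain ⟨fs, es, hs1, -, hs2⟩ := new_unitT hζ hL hP hmon τ₀ hKth h1
  have h2 : ρ.character = σ.character + fs := by
    funext g
    apply τ₀.injective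
    rw [Pi.add_apply, map_add, hs1, hσc]
    change _ = inv K f' g * _ + (f' g - inv K f' g) * _
    rw [← add_mul, add_sub_cancel]
    change τ₀ (ρ.character g) = τ₀ (ρ.character g) * ((lam₀⁻¹ g : ℂˣ) : ℂ) * ((lam₀ g : ℂˣ) : ℂ)
    rw [MonoidHom.inv_apply, mul_assoc, ← Units.val_mul, inv_mul_cancel, Units.val_one, mul_one]
  rw [h2]
  exact (he₁.add hL hP hs2).deligne

end Pool.Agent.R389
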