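import Mathlib
import Pool.Agent.R389.Metab
import Pool.Agent.R389.Grow

/-!
# Small growth in solvable groups
-/

set_option autoImplicit false
set_option linter.unusedSectionVars false

namespace Pool.Agent.R389

open Pool.Agent.H302R2 Pool.Agent.H302R3 Pool.Agent.H541R3.ART Pool.Agent.W446.AS

lemma solvable_of_nilpotent {W : Type} [Group W] (h : Group.IsNilpotent W) :
    Group.IsSolvable W :=
  inferInstance

lemma Hyper.solvable {U : Type} [Group U] [Finite U] (h : Hyper U) : Group.IsSolvable U := by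
  classical
  obtain ⟨p, hp, c, -, hn, hpw⟩ := h
  have hN : (Subgroup.zpowers c).Normal := ⟨fun x hx u => conj_zpowers hn u hx⟩
  have : Fact p.Prime := ⟨hp⟩
  have hQ : IsPGroup p (U ⧸ Subgroup.zpowers c) := by
    intro q
    induction q using QuotientGroup.induction_on with | _ u => ?_
    obtain ⟨k, hk⟩ := hpw u
    refine ⟨k, ?_⟩
    rw [← QuotientGroup.mk_pow]
    exact (QuotientGroup.eq_one_iff _).mpr hk
  have h1 : Group.IsSolvable (U ⧸ Subgroup.zpowers c) := solvable_of_nilpotent hQ.isNilpotent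
  have h2 : Group.IsSolvable (Subgroup.zpowers c) :=
    Group.isSolvable_of_comm (zpowers_comm c)
  exact Group.isSolvable_of_ker_le_range (Subgroup.zpowers c).subtype
    (QuotientGroup.mk' (Subgroup.zpowers c))
    (by rw [QuotientGroup.ker_mk', Subgroup.range_subtype])

lemma Tame.solvable {U : Type} [Group U] [Finite U] (h : Tame U) : Group.IsSolvable U := by
  rcases h with h | h
  · exact h.solvable
  · exact solvable_of_nilpotent h

variable {G : Type} [Group G] [Finite G]

/-- nonnegative integral multiplicities against monomial characters of solvable type -/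
structure HS (θ : G → ℂ) : Prop where
  conj : ∀ g x : G, θ (x * g * x⁻¹) = θ g
  nat : ∀ (U : Subgroup G) (ψ : U →* ℂˣ), Group.IsSolvable U →
    ∃ n : ℕ, pr θ (ind U (fun h => ((ψ h : ℂˣ) : ℂ))) = n

variable {θ : G → ℂ}

lemma HS.ht (h : HS θ) : HT θ where
  conj := h.conj
  nat U ψ hU := h.nat U ψ hU.solvable

lemma HS.res (h : HS θ) (H : Subgroup G) : HS (fun x : H => θ x) where
  conj g x := h.conj (g : G) (x : G)
  nat U ψ hU := by
    have h1 : Group.IsSolvable (U.map H.subtype) :=
      Group.isSolvable_of_surjective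
        (f := (U.equivMapOfInjective H.subtype H.subtype_injective).toMonoidHom)
        (U.equivMapOfInjective H.subtype H.subtype_injective).surjective
    obtain ⟨n, hn⟩ := h.nat (U.map H.subtype)
      (ψ.comp (U.equivMapOfInjective H.subtype H.subtype_injective).symm.toMonoidHom) h1
    refine ⟨n, ?_⟩
    rw [← hn, ← frob' H _ h.conj, ind_ind]
    rfl

/-- multiplicities of monomial characters of solvable groups -/
lemma HS.nat_mono (h : HS θ) (hG : Group.IsSolvable G) {χ : G → ℂ} (hχ : Mono χ) :
    ∃ n : ℕ, pr θ χ = n := by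
  obtain ⟨K, ψ, rfl⟩ := hχ
  exact h.nat K ψ inferInstance

/-- orthogonality to the irreducible characters which are nontrivial on `K` -/
lemma HT.ortho_irr (h : HT θ) {K : Subgroup G} [K.Normal] (hK : ∀ k ∈ K, θ k = θ 1) {f : G → ℂ}
    (hf : Virt f) (h0 : inv K f = 0) : pr θ f = 0 := by
  have h1 := relative_brauer K hf h0
  clear hf h0
  rw [NewA] at h1
  induction h1 using AddSubgroup.closure_induction with
  | mem s hs =>
    obtain ⟨U, ψ, hU, ⟨u, hu, hne⟩, rfl⟩ := hs
    exact h.ortho (lam := 1) (fun k hk => by simp [hK k hk]) hU hu (by simpa using hne)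
  | zero => rw [pr_comm, pr_zero_left]
  | add a b _ _ ha hb => rw [pr_comm, pr_add, pr_comm, ha, pr_comm, hb, add_zero]
  | neg a _ ha => rw [pr_comm, pr_neg, pr_comm, ha, neg_zero]

lemma nilpotent_of_comm {W : Type} [Group W] (h : ∀ a b : W, a * b = b * a) :
    Group.IsNilpotent W := by
  refine Subgroup.isNilpotent_of_ker_le_center (1 : W →* Unit) ?_
  intro x _
  rw [Subgroup.mem_center_iff]
  intro g
  exact h g x

lemma an_of_comm {W : Type} [Group W] (h : ∀ a b : W, a * b = b * a) : AN W := by
  refine ⟨⊥, inferInstance, ?_, ?_⟩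
  · rintro ⟨a, ha⟩ ⟨b, hb⟩
    exact Subtype.ext (h a b)
  · have : Group.IsNilpotent W := nilpotent_of_comm h
    exact Group.nilpotent_of_surjective (QuotientGroup.mk' ⊥) (QuotientGroup.mk'_surjective _)

/-- the quotient by the derived subgroup -/
lemma comm_quot (K : Subgroup G) [K.Normal] (h : commutator G ≤ K) :
    ∀ a b : G ⧸ K, a * b = b * a := by
  intro a b
  obtain ⟨x, rfl⟩ := QuotientGroup.mk_surjective a
  obtain ⟨y, rfl⟩ := QuotientGroup.mk_surjective b
  change (QuotientGroup.mk (x * y) : G ⧸ K) = QuotientGroup.mk (y * x)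
  rw [QuotientGroup.eq]
  apply h
  have h1 := Subgroup.commutator_mem_commutator (Subgroup.mem_top y⁻¹) (Subgroup.mem_top x⁻¹)
  rw [commutatorElement_def] at h1
  have h2 : (x * y)⁻¹ * (y * x) = y⁻¹ * x⁻¹ * y⁻¹⁻¹ * x⁻¹⁻¹ := by group
  rw [h2]
  exact h1

/-- the quotient by the second derived subgroup -/
lemma an_quot (K : Subgroup G) [K.Normal] (h : ⁅commutator G, commutator G⁆ ≤ K) : AN (G ⧸ K) := by
  let π : G →* G ⧸ K := QuotientGroup.mk' K
  have hπ : Function.Surjective π := QuotientGroup.mk'_surjective K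
  have hn : ((commutator G).map π).Normal := Subgroup.Normal.map inferInstance π hπ
  refine ⟨(commutator G).map π, hn, ?_, ?_⟩
  · rintro ⟨_, ⟨x, hx, rfl⟩⟩ ⟨_, ⟨y, hy, rfl⟩⟩
    apply Subtype.ext
    change (QuotientGroup.mk (x * y) : G ⧸ K) = QuotientGroup.mk (y * x)
    rw [QuotientGroup.eq]
    apply h
    have h1 := Subgroup.commutator_mem_commutator (inv_mem hy) (inv_mem hx)
    rw [commutatorElement_def] at h1
    have h2 : (x * y)⁻¹ * (y * x) = y⁻¹ * x⁻¹ * y⁻¹⁻¹ * x⁻¹⁻¹ := by group
    rw [h2]
    exact h1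
  · apply nilpotent_of_comm
    intro a b
    obtain ⟨a, rfl⟩ := QuotientGroup.mk_surjective a
    obtain ⟨b, rfl⟩ := QuotientGroup.mk_surjective b
    obtain ⟨x, rfl⟩ := hπ a
    obtain ⟨y, rfl⟩ := hπ b
    change (QuotientGroup.mk (π x * π y) : (G ⧸ K) ⧸ ((commutator G).map π))
      = QuotientGroup.mk (π y * π x)
    rw [QuotientGroup.eq, ← map_mul, ← map_mul, ← map_inv, ← map_mul]
    apply Subgroup.mem_map_of_mem
    have h1 := Subgroup.commutator_mem_commutator (Subgroup.mem_top y⁻¹) (Subgroup.mem_top x⁻¹)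
    rw [commutatorElement_def] at h1
    have h2 : (x * y)⁻¹ * (y * x) = y⁻¹ * x⁻¹ * y⁻¹⁻¹ * x⁻¹⁻¹ := by group
    rw [h2]
    exact h1

/-- values on the derived subgroup -/
lemma lin_comm (lam : G →* ℂˣ) {x : G} (hx : x ∈ commutator G) : lam x = 1 :=
  MonoidHom.mem_ker.mp (Abelianization.commutator_subset_ker lam hx)

/-- characters with nonzero mean on `K` are trivial on `K` -/
lemma irr_const {K : Subgroup G} [K.Normal] {χ : G → ℂ} (hχ : χ ∈ Irr G) (h : inv K χ ≠ 0) :
    ∀ k ∈ K, χ k = χ 1 := by
  intro k hk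
  rcases irr_inv K hχ with h1 | h1
  · have := h1 1 k hk
    rwa [one_mul] at this
  · exact absurd h1.2 h

/-- the multiplicity of the trivial character of a normal subgroup -/
lemma pr_ind_one (M : Subgroup G) {χ : G → ℂ} (hχ : χ ∈ Irr G) :
    pr (ind M (lc (1 : M →* ℂˣ))) χ = inv M χ 1 := by
  classical
  have : Fintype M := Fintype.ofFinite M
  rw [frob M _ (Irr.conj hχ), pr_eq, inv_eq]
  congr 1
  rw [← Equiv.sum_comp (Equiv.inv M)]
  refine Finset.sum_congr rfl fun m _ => ?_
  simp [lc]

/-- multiplicities do not drop from `G` to the derived subgroup -/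
lemma mult_comm (hθ : HS θ) (hG : Group.IsSolvable G) (lam : G →* ℂˣ) {b : ℕ}
    (hb : pr θ (lc lam) = b) : ∃ b' : ℕ, pr (fun x : commutator G => θ x) (lc 1) = b' ∧ b ≤ b' := by
  classical
  let M := commutator G
  have h1 : ∀ χ ∈ Irr G, ∃ k : ℕ, pr (ind M (lc (1 : M →* ℂˣ))) χ * pr θ χ = k := by
    intro χ hχ
    rw [pr_ind_one M hχ]
    by_cases h : inv M χ = 0
    · exact ⟨0, by rw [h]; simp⟩
    · obtain ⟨d, -, hd⟩ := irr_deg_pos hχ
      obtain ⟨k, hk⟩ := hθ.nat_mono hG (mono_of_quot M (an_of_comm (comm_quot M le_rfl)) hχ h)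
      refine ⟨d * k, ?_⟩
      rcases irr_inv M hχ with h1 | h1
      · rw [inv_of_const M h1, hd, hk]
        push_cast
        rfl
      · exact absurd h1.2 h
  choose! k hk using h1
  refine ⟨∑ χ ∈ irrF G, k χ, ?_, ?_⟩
  · rw [← frob' M _ hθ.conj, pr_expand (ind_class M _)]
    push_cast
    exact Finset.sum_congr rfl fun χ hχ => hk χ (mem_irrF.mp hχ)
  · have h2 : k (lc lam) = b := by
      have h3 := hk (lc lam) (lin_irr lam)
      rw [pr_ind_one M (lin_irr lam), hb] at h3
      have h4 : inv M (lc lam) = lc lam := by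
        apply inv_of_const
        intro g m hm
        change ((lam (g * m) : ℂˣ) : ℂ) = ((lam g : ℂˣ) : ℂ)
        rw [map_mul, lin_comm lam hm, mul_one]
      rw [h4] at h3
      have h5 : lc lam 1 = 1 := by simp [lc]
      rw [h5, one_mul] at h3
      exact_mod_cast h3.symm
    rw [← h2]
    exact Finset.single_le_sum (f := k) (fun _ _ => Nat.zero_le _) (mem_irrF.mpr (lin_irr lam))

/-- characters induced from the whole group are constant on the derived subgroup -/
lemma ind_top_comm {V : Subgroup G} (hV : V = ⊤) (ψ : V →* ℂˣ) {x : G} (hx : x ∈ commutator G) :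
    ind V (lc ψ) x = ind V (lc ψ) 1 := by
  classical
  subst hV
  have : Fintype G := Fintype.ofFinite G
  rw [ind_eq, ind_eq]
  congr 1
  refine Finset.sum_congr rfl fun y _ => ?_
  rw [ext_mem _ _ (Subgroup.mem_top _), ext_mem _ _ (Subgroup.mem_top _)]
  let φ : G →* ℂˣ := ψ.comp (Subgroup.topEquiv (G := G)).symm.toMonoidHom
  change ((φ (y⁻¹ * x * y) : ℂˣ) : ℂ) = ((φ (y⁻¹ * 1 * y) : ℂˣ) : ℂ)
  rw [map_mul, map_mul, map_mul, map_mul, lin_comm φ hx, map_one]

/-- **Small growth.** In a solvable group, if the multiplicity of some linear character misses the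
degree by less than every prime divisor of the order, then the derived subgroup acts trivially. -/
theorem small : ∀ (n : ℕ) (N : Type) [Group N] [Finite N], Nat.card N = n → Group.IsSolvable N →
    ∀ θ : N → ℂ, HS θ → ∀ (lam : N →* ℂˣ) (a b : ℕ), θ 1 = a → pr θ (lc lam) = b →
    (∀ p : ℕ, p.Prime → p ∣ Nat.card N → a < b + p) → ∀ x ∈ commutator N, θ x = θ 1 := by
  intro n
  induction n using Nat.strong_induction_on with
  | _ n ih =>
    intro N _ _ hn hN θ hθ lam a b ha hb hab x hx
    classical
    by_cases hnt : Nontrivial N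
    swap
    · rw [not_nontrivial_iff_subsingleton] at hnt
      rw [Subsingleton.elim x 1]
    let M := commutator N
    let K : Subgroup N := ⁅M, M⁆
    have hlt : Nat.card M < n := by
      rw [← hn]
      rcases lt_or_eq_of_le (Nat.le_of_dvd Nat.card_pos M.card_subgroup_dvd_card) with h | h
      · exact h
      · exact absurd (Subgroup.eq_top_of_card_eq M h)
          (Group.IsSolvable.commutator_lt_top_of_nontrivial N).ne
    obtain ⟨b', hb', hbb⟩ := mult_comm hθ hN lam hb
    -- the second derived subgroup acts trivially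
    have hK : ∀ k ∈ K, θ k = θ 1 := by
      intro k hk
      have h1 : (commutator M).map M.subtype = K := Subgroup.map_subtype_commutator M
      rw [← h1] at hk
      obtain ⟨y, hy, rfl⟩ := hk
      exact ih _ hlt M rfl inferInstance (fun x : M => θ x) (hθ.res M) 1 a b' ha hb'
        (fun p hp hd => (hab p hp (hd.trans M.card_subgroup_dvd_card)).trans_le (by omega)) y hy
    -- all multiplicities are natural numbers
    have h1 : ∀ χ ∈ Irr N, ∃ k : ℕ, pr θ χ = k ∧ (k ≠ 0 → Mono χ) := by
      intro χ hχ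
      by_cases h : inv K χ = 0
      · exact ⟨0, by rw [hθ.ht.ortho_irr hK (AddSubgroup.subset_closure hχ) h]; simp, fun h => absurd rfl h⟩
      · have h2 := mono_of_quot K (an_quot K le_rfl) hχ h
        obtain ⟨k, hk⟩ := hθ.nat_mono hN h2
        exact ⟨k, hk, fun _ => h2⟩
    choose! k hk hkm using h1
    choose! d hd0 hd using fun χ (hχ : χ ∈ Irr N) => irr_deg_pos hχ
    have hsum : a = ∑ χ ∈ irrF N, k χ * d χ := by
      have h2 := class_expand hθ.conj 1
      rw [ha] at h2
      have h3 : (a : ℂ) = ((∑ χ ∈ irrF N, k χ * d χ : ℕ) : ℂ) := by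
        rw [h2]
        push_cast
        exact Finset.sum_congr rfl fun χ hχ => by
          rw [hk χ (mem_irrF.mp hχ), hd χ (mem_irrF.mp hχ)]
      exact_mod_cast h3
    have hlamI : lc lam ∈ irrF N := mem_irrF.mpr (lin_irr lam)
    have hlb : k (lc lam) * d (lc lam) = b := by
      have h2 := hk _ (mem_irrF.mp hlamI)
      rw [hb] at h2
      have h3 := hd _ (mem_irrF.mp hlamI)
      have h4 : lc lam 1 = 1 := by simp [lc]
      rw [h4] at h3
      have h5 : b = k (lc lam) := by exact_mod_cast h2
      have h6 : 1 = d (lc lam) := by exact_mod_cast h3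
      rw [← h6, ← h5, mul_one]
    -- all characters which occur are trivial on the derived subgroup
    have h2 : ∀ χ ∈ irrF N, k χ ≠ 0 → χ x = χ 1 := by
      intro χ hχ hne
      by_cases hl : χ = lc lam
      · rw [hl]
        change ((lam x : ℂˣ) : ℂ) = ((lam 1 : ℂˣ) : ℂ)
        rw [lin_comm lam hx, map_one]
      obtain ⟨V, ψ, hV⟩ := hkm χ (mem_irrF.mp hχ) hne
      have h3 : d χ = V.index := by
        have h4 := hd χ (mem_irrF.mp hχ)
        rw [hV] at h4
        have h5 := ind_one_val V ψ
        rw [h4] at h5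
        rw [hV]
        exact_mod_cast h5
      have h4 : k (lc lam) * d (lc lam) + k χ * d χ ≤ a := by
        rw [hsum, ← Finset.sum_pair (f := fun χ => k χ * d χ) (Ne.symm hl)]
        refine Finset.sum_le_sum_of_subset ?_
        intro y hy
        rcases Finset.mem_insert.mp hy with h | h
        · rw [h]; exact hlamI
        · rw [Finset.mem_singleton.mp h]; exact hχ
      have h5 : V.index = 1 := by
        by_contra hcon
        have h6 := Nat.minFac_prime hcon
        have h7 := hab _ h6 ((Nat.minFac_dvd _).trans V.index_dvd_card)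
        have h8 : V.index.minFac ≤ V.index :=
          Nat.minFac_le (Nat.pos_of_ne_zero V.index_ne_zero_of_finite)
        have h9 : d χ ≤ k χ * d χ := Nat.le_mul_of_pos_left _ (Nat.pos_of_ne_zero hne)
        omega
      rw [hV]
      exact ind_top_comm (Subgroup.index_eq_one.mp h5) ψ hx
    rw [class_expand hθ.conj x, class_expand hθ.conj 1]
    refine Finset.sum_congr rfl fun χ hχ => ?_
    by_cases h3 : k χ = 0
    · rw [hk χ (mem_irrF.mp hχ), h3]; simp
    · rw [h2 χ hχ h3]

end Pool.Agent.R389
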