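import Mathlib
import Pool.Agent.R389.Small

/-!
# Deligne's conjecture when the order of vanishing grows little in a solvable extension
-/

set_option autoImplicit false
set_option linter.unusedSectionVars false

namespace Pool.Agent.R389

open Pool.Agent.H302R2 Pool.Agent.H302R3 Pool.Agent.H541R3.ART Pool.Agent.W446.AS Filter Topology

variable {G : Type} [Group G] [Finite G] {E : Type} [Field E]
  {L : (E →+* ℂ) → (G → ℂ) → ℂ → ℂ} {P : (E →+* ℂ) → (G → ℂ) → ℂ} {c : ℂ}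

/-- `main_grow` in terms of the function of the orders -/
theorem main_grow' {ζ : E} (hζ : IsPrimitiveRoot ζ (Monoid.exponent G))
    (hL : ∀ τ, ∀ χ ∈ Irr G, MeromorphicAt (L τ χ) c ∧ meromorphicOrderAt (L τ χ) c ≠ ⊤)
    (hP : ∀ τ, ∀ χ ∈ Irr G, P τ χ ≠ 0)
    (hmon : ∀ (U : Subgroup G) (ψ : U →* Eˣ), Tame U →
      Deligne L P c (ind U (fun u => ((ψ u : Eˣ) : E)))) (τ₀ : E →+* ℂ)
    (K : Subgroup G) [hK : K.Normal] (lam : G →* Eˣ)
    (hold : ∀ (W : Type) [AddCommGroup W] [Module E W] [FiniteDimensional E W]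
      (σ : Representation E G W), (∀ k ∈ K, ∀ w, σ k w = ((lam k : Eˣ) : E) • w) →
      Deligne L P c σ.character)
    (hKth : ∀ k ∈ K, (theta (ords (L τ₀) c) : G → ℂ) k
      = ((((Units.map τ₀.toMonoidHom).comp lam) k : ℂˣ) : ℂ) * (theta (ords (L τ₀) c) : G → ℂ) 1)
    {V : Type} [AddCommGroup V] [Module E V] [FiniteDimensional E V] (ρ : Representation E G V) :
    Deligne L P c ρ.character := by
  classical
  set lam₀ : G →* ℂˣ := (Units.map τ₀.toMonoidHom).comp lam with hlam₀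
  obtain ⟨W, σ, hσ, hσc⟩ := isotypic τ₀ K lam ρ
  obtain ⟨e₁, he₁⟩ := (hold W σ hσ).delZ fun τ => decomp_of_closure (base_change τ σ)
  -- the new part
  let f' : G → ℂ := twHom lam₀⁻¹ (fun g => τ₀ (ρ.character g))
  have hf' : Virt f' := by
    have h3 : AddSubmonoid.closure (Irr G) ≤ ((AddSubgroup.closure (Irr G)).comap
        (twHom lam₀⁻¹)).toAddSubmonoid := by
      rw [AddSubmonoid.closure_le]
      intro χ hχ
      exact AddSubgroup.subset_closure (irr_twist hχ _)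
    exact h3 (base_change τ₀ ρ)
  have hnew : f' - inv K f' ∈ NewA K := by
    refine relative_brauer K (sub_mem (S := AddSubgroup (G → ℂ)) hf' (virt_inv K hf')) ?_
    have h1 : inv K (f' - inv K f') = inv K f' - inv K (inv K f') := map_sub (invHom K) _ _
    rw [h1, inv_of_const K (f := inv K f') (fun g k hk => inv_mul_mem K f' g hk), sub_self]
  have h1 := new_twistT K lam₀ hnew
  rw [AddSubgroup.mem_comap] at h1
  obtain ⟨fs, es, hs1, -, hs2⟩ := new_unitT hζ hL hP hmon τ₀ hKth h1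
  have h2 : ρ.character = σ.character + fs := by
    funext g
    apply τ₀.injective
    rw [Pi.add_apply, map_add, hs1, hσc]
    change _ = inv K f' g * _ + (f' g - inv K f' g) * _
    rw [← add_mul, add_sub_cancel]
    change τ₀ (ρ.character g) = τ₀ (ρ.character g) * ((lam₀⁻¹ g : ℂˣ) : ℂ) * ((lam₀ g : ℂˣ) : ℂ)
    rw [MonoidHom.inv_apply, mul_assoc, ← Units.val_mul, inv_mul_cancel, Units.val_one, mul_one]
  rw [h2]
  exact (he₁.add hL hP hs2).deligne

/-- the multiplicities of the orders over solvable subgroups are nonnegative -/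
lemma hs_ords {ζ : E} (hζ : IsPrimitiveRoot ζ (Monoid.exponent G))
    (hL : ∀ τ, ∀ χ ∈ Irr G, MeromorphicAt (L τ χ) c ∧ meromorphicOrderAt (L τ χ) c ≠ ⊤)
    (hmon : ∀ (U : Subgroup G) (ψ : U →* Eˣ), Group.IsSolvable U →
      Deligne L P c (ind U (fun u => ((ψ u : Eˣ) : E)))) (τ : E →+* ℂ) :
    HS (theta (ords (L τ) c) : G → ℂ) where
  conj := (theta_virt _).conj
  nat U ψ hU := by
    classical
    obtain ⟨ψE, hψE⟩ := lift_char hζ τ U ψ
    obtain ⟨m, hm⟩ := ind_isDecomp U ψ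
    obtain ⟨e, he⟩ := hmon U ψE hU
    have h1 : (fun g => τ (ind U (fun u => ((ψE u : Eˣ) : E)) g))
        = ind U (fun h => ((ψ h : ℂˣ) : ℂ)) := by
      funext g
      rw [ind_map]
      congr 1
      funext u
      exact hψE u
    have h2 := he τ m (by rw [h1]; exact hm)
    have h3 := order_prod (hL τ) (irrF G) subset_rfl (fun χ => (m χ : ℤ))
    have h4 : (fun s => ∏ᶠ χ ∈ Irr G, L τ χ s ^ m χ)
        = fun z => ∏ χ ∈ irrF G, L τ χ z ^ ((m χ : ℕ) : ℤ) := by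
      funext s
      rw [finprod_irr (fun χ => L τ χ s ^ m χ)]
      exact Finset.prod_congr rfl fun χ _ => by rw [zpow_natCast]
    rw [h4] at h2
    have h5 := (tendsto_nhds_iff_meromorphicOrderAt_nonneg h3.1).mp ⟨_, h2⟩
    rw [h3.2] at h5
    have h6 : (0 : ℤ) ≤ ∑ χ ∈ irrF G, (m χ : ℤ) * ords (L τ) c χ := by exact_mod_cast h5
    obtain ⟨k, hk⟩ := Int.eq_ofNat_of_zero_le h6
    refine ⟨k, ?_⟩
    rw [pr_ords (m := fun χ => (m χ : ℤ)) (fun χ hχ => by rw [hm.pr hχ]; simp), hk]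
    simp

/-- the order of a product as a multiplicity -/
lemma order_eq_pr (hL : ∀ τ, ∀ χ ∈ Irr G, MeromorphicAt (L τ χ) c ∧
    meromorphicOrderAt (L τ χ) c ≠ ⊤) (τ : E →+* ℂ) {f : G → ℂ} {m : (G → ℂ) → ℕ}
    (hm : IsDecomp f m) : ∃ z : ℤ,
      meromorphicOrderAt (fun s => ∏ᶠ χ ∈ Irr G, L τ χ s ^ m χ) c = z ∧
      pr (theta (ords (L τ) c) : G → ℂ) f = z := by
  refine ⟨_, top_order (hL τ) m, ?_⟩
  rw [pr_ords (m := fun χ => (m χ : ℤ)) (fun χ hχ => by rw [hm.pr hχ]; simp)]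

/-- **Small growth.** -/
theorem small_ords {ζ : E} (hζ : IsPrimitiveRoot ζ (Monoid.exponent G))
    (hL : ∀ τ, ∀ χ ∈ Irr G, MeromorphicAt (L τ χ) c ∧ meromorphicOrderAt (L τ χ) c ≠ ⊤)
    (hmon : ∀ (U : Subgroup G) (ψ : U →* Eˣ), Group.IsSolvable U →
      Deligne L P c (ind U (fun u => ((ψ u : Eˣ) : E)))) (τ₀ : E →+* ℂ)
    {deg : (G → ℂ) → ℕ} (hdeg : ∀ χ ∈ Irr G, χ 1 = deg χ)
    (N : Subgroup G) (hN : Group.IsSolvable N) (lam : N →* ℂˣ) {m : (G → ℂ) → ℕ}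
    (hm : IsDecomp (ind N (fun x => ((lam x : ℂˣ) : ℂ))) m)
    (hz : ∀ p : ℕ, p.Prime → p ∣ Nat.card N →
      meromorphicOrderAt (fun s => ∏ᶠ χ ∈ Irr G, L τ₀ χ s ^ deg χ) c <
      meromorphicOrderAt (fun s => ∏ᶠ χ ∈ Irr G, L τ₀ χ s ^ m χ) c + p) :
    ∀ k ∈ ⁅N, N⁆, (theta (ords (L τ₀) c) : G → ℂ) k = (theta (ords (L τ₀) c) : G → ℂ) 1 := by
  classical
  have hθ := hs_ords hζ hL hmon τ₀
  set θ : G → ℂ := theta (ords (L τ₀) c) with hθd
  obtain ⟨z, hz1, hz2⟩ := order_eq_pr hL τ₀ hm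
  obtain ⟨b, hb⟩ := hθ.nat N lam hN
  have hzb : z = b := by
    have h1 : (z : ℂ) = ((b : ℤ) : ℂ) := by rw [← hz2, ← hθd, hb]; simp
    exact_mod_cast h1
  have hone := theta_one_eq (c := c) (l := L τ₀) hdeg
  have htop := top_order (hL τ₀) deg
  -- the degree
  obtain ⟨a, ha⟩ : ∃ a : ℕ, θ 1 = a := by
    have hh : HH θ :=
      { conj := hθ.conj
        nat := fun U ψ hU => hθ.nat U ψ hU.solvable }
    exact hh.deg
  have ha' : (∑ χ ∈ irrF G, (deg χ : ℤ) * ords (L τ₀) c χ) = (a : ℤ) := by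
    rw [← hθd, ha] at hone
    exact_mod_cast hone.symm
  rw [htop, ha', hz1, hzb] at hz
  intro k hk
  have h1 : (commutator N).map N.subtype = ⁅N, N⁆ := Subgroup.map_subtype_commutator N
  rw [← h1] at hk
  obtain ⟨y, hy, rfl⟩ := hk
  refine small _ N rfl hN (fun x : N => θ x) (hθ.res N) lam a b ha ?_ (fun p hp hd => ?_) y hy
  · rw [← hb, frob' N _ hθ.conj]
  · have h2 := hz p hp hd
    have h3 : (a : ℤ) < (b : ℤ) + (p : ℤ) := by exact_mod_cast h2
    exact_mod_cast h3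

/-- **Main theorem for small growth.** -/
theorem main_small {ζ : E} (hζ : IsPrimitiveRoot ζ (Monoid.exponent G))
    (hL : ∀ τ, ∀ χ ∈ Irr G, MeromorphicAt (L τ χ) c ∧ meromorphicOrderAt (L τ χ) c ≠ ⊤)
    (hP : ∀ τ, ∀ χ ∈ Irr G, P τ χ ≠ 0)
    (hmon : ∀ (U : Subgroup G) (ψ : U →* Eˣ), Group.IsSolvable U →
      Deligne L P c (ind U (fun u => ((ψ u : Eˣ) : E)))) (τ₀ : E →+* ℂ)
    {deg : (G → ℂ) → ℕ} (hdeg : ∀ χ ∈ Irr G, χ 1 = deg χ)
    (N : Subgroup G) [N.Normal] (hN : Group.IsSolvable N) (lam : N →* ℂˣ) {m : (G → ℂ) → ℕ}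
    (hm : IsDecomp (ind N (fun x => ((lam x : ℂˣ) : ℂ))) m)
    (hz : ∀ p : ℕ, p.Prime → p ∣ Nat.card N →
      meromorphicOrderAt (fun s => ∏ᶠ χ ∈ Irr G, L τ₀ χ s ^ deg χ) c <
      meromorphicOrderAt (fun s => ∏ᶠ χ ∈ Irr G, L τ₀ χ s ^ m χ) c + p)
    (hold : ∀ (W : Type) [AddCommGroup W] [Module E W] [FiniteDimensional E W]
      (σ : Representation E G W), (∀ k ∈ ⁅N, N⁆, ∀ w, σ k w = w) →
      Deligne L P c σ.character)
    {V : Type} [AddCommGroup V] [Module E V] [FiniteDimensional E V] (ρ : Representation E G V) :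
    Deligne L P c ρ.character := by
  have h1 := small_ords hζ hL hmon τ₀ hdeg N hN lam hm hz
  refine main_grow' hζ hL hP (fun U ψ hU => hmon U ψ hU.solvable) τ₀ ⁅N, N⁆ 1 ?_ ?_ ρ
  · intro W _ _ _ σ hσ
    exact hold W σ (fun k hk w => by have := hσ k hk w; simpa using this)
  · intro k hk
    rw [h1 k hk]
    simp

end Pool.Agent.R389
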