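import Mathlib
import Pool.Agent.R389.SmallMain

/-!
# The part of a class function over a linear character of a normal subgroup
-/

set_option autoImplicit false
set_option linter.unusedSectionVars false

namespace Pool.Agent.R389

open Pool.Agent.H302R2 Pool.Agent.H302R3 Pool.Agent.H541R3.ART Pool.Agent.W446.AS

variable {H : Type} [Group H] [Finite H]

/-- the `μ`-part of a function -/
noncomputable def part (N : Subgroup H) (μ : N →* ℂˣ) (f : H → ℂ) (g : H) : ℂ :=
  (Nat.card N : ℂ)⁻¹ * ∑ᶠ n : N, f (g * n) * (((μ n)⁻¹ : ℂˣ) : ℂ)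

lemma part_eq (N : Subgroup H) [Fintype N] (μ : N →* ℂˣ) (f : H → ℂ) (g : H) :
    part N μ f g = (Nat.card N : ℂ)⁻¹ * ∑ n : N, f (g * n) * (((μ n)⁻¹ : ℂˣ) : ℂ) := by
  rw [part, finsum_eq_sum_of_fintype]

/-- the `μ`-part as an additive map -/
noncomputable def partHom (N : Subgroup H) (μ : N →* ℂˣ) : (H → ℂ) →+ (H → ℂ) :=
  AddMonoidHom.mk' (part N μ) (by
    intro a b
    classical
    have : Fintype N := Fintype.ofFinite N
    funext g
    simp only [Pi.add_apply, part_eq, add_mul, Finset.sum_add_distrib, mul_add])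

lemma partHom_apply (N : Subgroup H) (μ : N →* ℂˣ) (f : H → ℂ) : partHom N μ f = part N μ f := rfl

lemma part_mul_mem (N : Subgroup H) (μ : N →* ℂˣ) (f : H → ℂ) (g : H) (n : N) :
    part N μ f (g * n) = part N μ f g * ((μ n : ℂˣ) : ℂ) := by
  classical
  have : Fintype N := Fintype.ofFinite N
  rw [part_eq, part_eq, ← Equiv.sum_comp (Equiv.mulLeft n)
    (fun x : N => f (g * x) * (((μ x)⁻¹ : ℂˣ) : ℂ)), mul_assoc, Finset.sum_mul]
  congr 1
  refine Finset.sum_congr rfl fun x _ => ?_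
  simp only [Equiv.coe_mulLeft, Subgroup.coe_mul]
  rw [map_mul, mul_inv, mul_assoc g, mul_assoc (f _), ← Units.val_mul]
  congr 2
  rw [mul_comm, mul_inv_cancel_left]

lemma part_of_const (N : Subgroup H) (μ : N →* ℂˣ) {f : H → ℂ}
    (h : ∀ g, ∀ n : N, f (g * n) = f g * ((μ n : ℂˣ) : ℂ)) : part N μ f = f := by
  classical
  have : Fintype N := Fintype.ofFinite N
  funext g
  rw [part_eq]
  have h1 : ∀ n : N, f (g * n) * (((μ n)⁻¹ : ℂˣ) : ℂ) = f g := by
    intro n
    rw [h, mul_assoc, ← Units.val_mul, mul_inv_cancel, Units.val_one, mul_one]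
  rw [Finset.sum_congr rfl (fun n _ => h1 n), Finset.sum_const, Finset.card_univ, nsmul_eq_mul,
    ← Nat.card_eq_fintype_card, ← mul_assoc, inv_mul_cancel₀ card_ne, one_mul]

lemma part_one (N : Subgroup H) (f : H → ℂ) : part N 1 f = inv N f := by
  classical
  have : Fintype N := Fintype.ofFinite N
  funext g
  rw [part_eq, inv_eq]
  congr 1
  refine Finset.sum_congr rfl fun n _ => ?_
  simp

section dich

variable (N : Subgroup H) [N.Normal] (μ : N →* ℂˣ)

/-- the two types of irreducible representations with respect to an invariant linear character -/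
lemma mu_dich (hμ : ∀ (g : H) (n : N), μ (MulAut.conjNormal g n) = μ n)
    {V : Type} [AddCommGroup V] [Module ℂ V] [FiniteDimensional ℂ V]
    {ρ : Representation ℂ H V} (hρ : Irred ρ) :
    (∀ (n : N) (v : V), ρ n v = ((μ n : ℂˣ) : ℂ) • v) ∨ part N μ ρ.character = 0 := by
  classical
  have : Fintype N := Fintype.ofFinite N
  let W : Submodule ℂ V :=
    { carrier := {v | ∀ n : N, ρ n v = ((μ n : ℂˣ) : ℂ) • v}
      add_mem' := by
        intro a b ha hb n
        rw [map_add, ha n, hb n, smul_add]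
      zero_mem' := by
        intro n
        rw [map_zero, smul_zero]
      smul_mem' := by
        intro c a ha n
        rw [map_smul, ha n, smul_comm] }
  have hW : ∀ v : V, v ∈ W ↔ ∀ n : N, ρ n v = ((μ n : ℂˣ) : ℂ) • v := fun v => Iff.rfl
  rcases hρ.2 W (by
    intro g v hv n
    have h1 := hv (MulAut.conjNormal g⁻¹ n)
    have h2 := hμ g⁻¹ n
    rw [h2] at h1
    have h3 : (n : H) * g = g * ((MulAut.conjNormal g⁻¹ n : N) : H) := by
      rw [MulAut.conjNormal_apply]; group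
    rw [← Module.End.mul_apply, ← map_mul, h3, map_mul, Module.End.mul_apply, h1, map_smul])
    with h | h
  · right
    have hS : ∑ n : N, (((μ n)⁻¹ : ℂˣ) : ℂ) • ρ (n : H) = 0 := by
      refine LinearMap.ext fun v => ?_
      rw [LinearMap.zero_apply]
      have h1 : (∑ n : N, (((μ n)⁻¹ : ℂˣ) : ℂ) • ρ (n : H)) v ∈ W := by
        rw [hW]
        intro n
        have h5 : ρ n * ∑ y : N, (((μ y)⁻¹ : ℂˣ) : ℂ) • ρ (y : H)
            = ((μ n : ℂˣ) : ℂ) • ∑ y : N, (((μ y)⁻¹ : ℂˣ) : ℂ) • ρ (y : H) := by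
          rw [Finset.mul_sum, ← Equiv.sum_comp (Equiv.mulLeft n)
            (fun y : N => (((μ y)⁻¹ : ℂˣ) : ℂ) • ρ (y : H)), Finset.smul_sum]
          refine Finset.sum_congr rfl fun y _ => ?_
          simp only [Equiv.coe_mulLeft, Subgroup.coe_mul]
          rw [mul_smul_comm, ← map_mul, smul_smul, ← Units.val_mul, map_mul μ n y, mul_inv,
            mul_inv_cancel_left]
        rw [← Module.End.mul_apply, h5, LinearMap.smul_apply]
      rw [h] at h1
      exact (Submodule.mem_bot ℂ).mp h1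
    funext g
    rw [part_eq]
    have h2 : ∀ n : N, ρ.character (g * n) * (((μ n)⁻¹ : ℂˣ) : ℂ)
        = LinearMap.trace ℂ V (ρ g * ((((μ n)⁻¹ : ℂˣ) : ℂ) • ρ (n : H))) := by
      intro n
      rw [mul_smul_comm, ← map_mul, map_smul, smul_eq_mul, mul_comm]
      rfl
    rw [Finset.sum_congr rfl (fun n _ => h2 n), ← map_sum, ← Finset.mul_sum, hS, mul_zero,
      map_zero, mul_zero]
    rfl
  · left
    intro n v
    have h2 : v ∈ W := by rw [h]; exact Submodule.mem_top
    exact (hW v).mp h2 n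

variable {N μ}

/-- the two types of irreducible characters -/
lemma irr_part (hμ : ∀ (g : H) (n : N), μ (MulAut.conjNormal g n) = μ n) {χ : H → ℂ}
    (hχ : χ ∈ Irr H) :
    (∀ g, ∀ n : N, χ (g * n) = χ g * ((μ n : ℂˣ) : ℂ)) ∨ part N μ χ = 0 := by
  obtain ⟨m, ρ, hρ, rfl⟩ := exists_rep hχ
  rcases mu_dich N μ hμ hρ with h | h
  · left
    intro g n
    have h1 : ρ (g * n) = ((μ n : ℂˣ) : ℂ) • ρ g := by
      refine LinearMap.ext fun v => ?_
      rw [map_mul, Module.End.mul_apply, h n v, map_smul, LinearMap.smul_apply]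
    change LinearMap.trace ℂ _ (ρ (g * n)) = LinearMap.trace ℂ _ (ρ g) * _
    rw [h1, map_smul, smul_eq_mul, mul_comm]
  · exact Or.inr h

lemma irr_part' (hμ : ∀ (g : H) (n : N), μ (MulAut.conjNormal g n) = μ n) {χ : H → ℂ}
    (hχ : χ ∈ Irr H) : part N μ χ = χ ∨ part N μ χ = 0 := by
  rcases irr_part hμ hχ with h | h
  · exact Or.inl (part_of_const N μ h)
  · exact Or.inr h

lemma virt_part (hμ : ∀ (g : H) (n : N), μ (MulAut.conjNormal g n) = μ n) {f : H → ℂ}
    (hf : Virt f) : Virt (part N μ f) := by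
  have h1 : AddSubgroup.closure (Irr H) ≤ (AddSubgroup.closure (Irr H)).comap (partHom N μ) := by
    rw [AddSubgroup.closure_le]
    intro χ hχ
    rw [SetLike.mem_coe, AddSubgroup.mem_comap, partHom_apply]
    rcases irr_part' hμ hχ with h | h
    · rw [h]
      exact AddSubgroup.subset_closure hχ
    · rw [h]
      exact zero_mem _
  exact h1 hf

/-- adjointness -/
lemma pr_part {f η : H → ℂ}
    (hη : ∀ g x : H, η (x * g * x⁻¹) = η g)
    (h : ∀ g, ∀ n : N, η (g * n) = η g * ((μ n : ℂˣ) : ℂ)) : pr (part N μ f) η = pr f η := by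
  classical
  have : Fintype N := Fintype.ofFinite N
  have : Fintype H := Fintype.ofFinite H
  rw [pr_eq, pr_eq]
  congr 1
  have h1 : ∀ g : H, part N μ f g * η g⁻¹
      = (Nat.card N : ℂ)⁻¹ * ∑ n : N, f (g * n) * (((μ n)⁻¹ : ℂˣ) : ℂ) * η g⁻¹ := by
    intro g
    rw [part_eq, mul_assoc, Finset.sum_mul]
  rw [Finset.sum_congr rfl (fun g _ => h1 g), ← Finset.mul_sum, Finset.sum_comm]
  have h2 : ∀ n : N, ∑ g : H, f (g * n) * (((μ n)⁻¹ : ℂˣ) : ℂ) * η g⁻¹ = ∑ g : H, f g * η g⁻¹ := by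
    intro n
    rw [← Equiv.sum_comp (Equiv.mulRight (n : H)) (fun g => f g * η g⁻¹)]
    refine Finset.sum_congr rfl fun g _ => ?_
    simp only [Equiv.coe_mulRight]
    have h3 : η (g * n)⁻¹ = η g⁻¹ * (((μ n)⁻¹ : ℂˣ) : ℂ) := by
      have h4 : (g * (n : H))⁻¹ = (n : H)⁻¹ * (g⁻¹ * ((n⁻¹ : N) : H)) * ((n : H)⁻¹)⁻¹ := by
        rw [Subgroup.coe_inv]; group
      rw [h4, hη, h, map_inv]
    rw [h3]
    ring
  rw [Finset.sum_congr rfl (fun n _ => h2 n), Finset.sum_const, Finset.card_univ, nsmul_eq_mul,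
    ← Nat.card_eq_fintype_card, ← mul_assoc, inv_mul_cancel₀ card_ne, one_mul]

/-- if the quotient is cyclic then the irreducible characters over an invariant linear character
are linear -/
lemma lin_of_cyc (hμ : ∀ (g : H) (n : N), μ (MulAut.conjNormal g n) = μ n) {χ : H → ℂ}
    (hχ : χ ∈ Irr H) (hne : part N μ χ ≠ 0) (h : H) (hc : N ⊔ Subgroup.zpowers h = ⊤) :
    ∃ ψ : H →* ℂˣ, χ = lc ψ := by
  classical
  obtain ⟨m, ρ, hρ, rfl⟩ := exists_rep hχ
  rcases mu_dich N μ hμ hρ with hs | hs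
  swap
  · exact absurd hs hne
  obtain ⟨ν, v₀, hv₀, hν⟩ := exists_weight (zpowers_comm h) (ρ.comp (Subgroup.zpowers h).subtype)
    hρ.1
  let S : Subgroup H :=
    { carrier := {g | ∃ c : ℂˣ, ρ g v₀ = (c : ℂ) • v₀}
      mul_mem' := by
        rintro a b ⟨c, hc⟩ ⟨d, hd⟩
        refine ⟨c * d, ?_⟩
        rw [map_mul, Module.End.mul_apply, hd, map_smul, hc, smul_smul, Units.val_mul, mul_comm]
      one_mem' := ⟨1, by rw [map_one, Module.End.one_apply, Units.val_one, one_smul]⟩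
      inv_mem' := by
        rintro a ⟨c, hc⟩
        refine ⟨c⁻¹, ?_⟩
        have h1 : ρ a⁻¹ (ρ a v₀) = v₀ := by
          rw [← Module.End.mul_apply, ← map_mul, inv_mul_cancel, map_one, Module.End.one_apply]
        rw [hc, map_smul] at h1
        have h2 : ((c⁻¹ : ℂˣ) : ℂ) • ((c : ℂ) • ρ a⁻¹ v₀) = ρ a⁻¹ v₀ := by
          rw [smul_smul, ← Units.val_mul, inv_mul_cancel, Units.val_one, one_smul]
        rw [← h2, h1] }
  have hS : S = ⊤ := by
    rw [eq_top_iff, ← hc]
    refine sup_le ?_ ?_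
    · intro n hn
      exact ⟨μ ⟨n, hn⟩, hs ⟨n, hn⟩ v₀⟩
    · intro z hz
      exact ⟨ν ⟨z, hz⟩, hν ⟨z, hz⟩⟩
  have h1 : Submodule.span ℂ {v₀} = ⊤ := by
    rcases hρ.2 (Submodule.span ℂ {v₀}) (by
      intro g v hv
      obtain ⟨a, rfl⟩ := Submodule.mem_span_singleton.mp hv
      obtain ⟨c, hc⟩ : g ∈ S := by rw [hS]; exact Subgroup.mem_top g
      rw [map_smul, hc]
      exact Submodule.smul_mem _ _ (Submodule.smul_mem _ _ (Submodule.mem_span_singleton_self _)))
      with h | h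
    · exact absurd (Submodule.span_singleton_eq_bot.mp h) hv₀
    · exact h
  have h2 : ρ.character 1 = 1 := by
    have h3 : ρ.character 1 = (Module.finrank ℂ (Fin m → ℂ) : ℂ) := ρ.char_one
    have h4 := finrank_top ℂ (Fin m → ℂ)
    rw [← h1, finrank_span_singleton hv₀] at h4
    rw [h3, ← h4]; simp
  obtain ⟨lam, hlam⟩ := irr_deg_one hχ h2
  exact ⟨lam, funext hlam⟩

/-- if the quotient is nilpotent then the irreducible characters over an invariant linear character
are monomial -/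
lemma mono_of_nil (hμ : ∀ (g : H) (n : N), μ (MulAut.conjNormal g n) = μ n) {χ : H → ℂ}
    (hχ : χ ∈ Irr H) (hne : part N μ χ ≠ 0) (hQ : Group.IsNilpotent (H ⧸ N)) : Mono χ := by
  classical
  obtain ⟨m, ρ, hρ, rfl⟩ := exists_rep hχ
  rcases mu_dich N μ hμ hρ with hs | hs
  swap
  · exact absurd hs hne
  let R : Subgroup H := ρ.ker
  let π : H →* H ⧸ R := QuotientGroup.mk' R
  have hπ : Function.Surjective π := QuotientGroup.mk'_surjective R
  have hn : Group.IsNilpotent (H ⧸ R) := by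
    have h1 : Group.IsNilpotent (H ⧸ (N ⊔ R)) :=
      Group.nilpotent_of_surjective (QuotientGroup.map N (N ⊔ R) (MonoidHom.id H)
        (by simp)) (by
          intro q
          obtain ⟨x, rfl⟩ := QuotientGroup.mk_surjective q
          exact ⟨QuotientGroup.mk x, rfl⟩)
    refine Subgroup.isNilpotent_of_ker_le_center
      (QuotientGroup.map R (N ⊔ R) (MonoidHom.id H) (by simp)) ?_
    intro q hq
    obtain ⟨x, rfl⟩ := QuotientGroup.mk_surjective q
    have h2 : (QuotientGroup.mk x : H ⧸ (N ⊔ R)) = 1 := hq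
    have h3 := (QuotientGroup.eq_one_iff x).mp h2
    obtain ⟨n, hn, r, hr, rfl⟩ := Subgroup.mem_sup_of_normal_right.mp h3
    rw [Subgroup.mem_center_iff]
    intro q
    obtain ⟨y, rfl⟩ := QuotientGroup.mk_surjective q
    change (QuotientGroup.mk (y * (n * r)) : H ⧸ R) = QuotientGroup.mk (n * r * y)
    rw [QuotientGroup.eq]
    change ρ _ = 1
    have hr1 : ρ r = 1 := hr
    have hsc : ∀ v, ρ (n * r) v = ((μ ⟨n, hn⟩ : ℂˣ) : ℂ) • v := by
      intro v
      rw [map_mul, hr1, mul_one]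
      exact hs ⟨n, hn⟩ v
    have h4 : ρ (y * (n * r)) = ρ (n * r * y) := by
      refine LinearMap.ext fun v => ?_
      rw [map_mul, map_mul ρ (n * r) y, Module.End.mul_apply, Module.End.mul_apply, hsc, hsc,
        map_smul]
    rw [map_mul, ← h4, ← map_mul, inv_mul_cancel, map_one]
  obtain ⟨ψ, hψ, hψ1⟩ := descend_irr hπ hρ (by
    intro g hg
    rw [QuotientGroup.ker_mk'] at hg
    exact hg)
  have h1 : ρ.character = fun g => ψ (π g) := funext hψ1
  rw [h1]
  exact (nil_mono _ _ rfl hn ψ hψ).comp hπ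

end dich

end Pool.Agent.R389
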