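import Mathlib
import Pool.Agent.R389.Part

/-!
# The part of a Heilbronn function over a linear character of multiplicity at most one
-/

set_option autoImplicit false
set_option linter.unusedSectionVars false

namespace Pool.Agent.R389

open Pool.Agent.H302R2 Pool.Agent.H302R3 Pool.Agent.H541R3.ART Pool.Agent.W446.AS

variable {G : Type} [Group G] [Finite G]

/-- nonnegative integral multiplicities against all monomial characters -/
structure HA (θ : G → ℂ) : Prop where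
  conj : ∀ g x : G, θ (x * g * x⁻¹) = θ g
  nat : ∀ (U : Subgroup G) (ψ : U →* ℂˣ),
    ∃ n : ℕ, pr θ (ind U (fun h => ((ψ h : ℂˣ) : ℂ))) = n

variable {θ : G → ℂ}

lemma HA.hs (h : HA θ) : HS θ where
  conj := h.conj
  nat U ψ _ := h.nat U ψ

lemma HA.res (h : HA θ) (H : Subgroup G) : HA (fun x : H => θ x) where
  conj g x := h.conj (g : G) (x : G)
  nat U ψ := by
    obtain ⟨n, hn⟩ := h.nat (U.map H.subtype)
      (ψ.comp (U.equivMapOfInjective H.subtype H.subtype_injective).symm.toMonoidHom)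
    refine ⟨n, ?_⟩
    rw [← hn, ← frob' H _ h.conj, ind_ind]
    rfl

/-- multiplicities of linear characters -/
lemma HA.lin (h : HA θ) (ψ : G →* ℂˣ) : ∃ n : ℕ, pr θ (lc ψ) = n := by
  classical
  obtain ⟨n, hn⟩ := h.nat ⊤ (ψ.comp (Subgroup.subtype ⊤))
  refine ⟨n, ?_⟩
  rw [← hn]
  congr 1
  funext g
  have : Fintype G := Fintype.ofFinite G
  rw [ind_eq]
  have h4 : ∀ x : G, ext ⊤ (fun h : (⊤ : Subgroup G) =>
      (((ψ.comp (Subgroup.subtype ⊤)) h : ℂˣ) : ℂ)) (x⁻¹ * g * x) = ((ψ g : ℂˣ) : ℂ) := by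
    intro x
    rw [ext_mem _ _ (Subgroup.mem_top _)]
    change ((ψ (x⁻¹ * g * x) : ℂˣ) : ℂ) = _
    rw [map_mul, map_mul, map_inv, mul_comm (ψ x)⁻¹, inv_mul_cancel_right]
  rw [Finset.sum_congr rfl (fun x _ => h4 x), Finset.sum_const, Finset.card_univ, nsmul_eq_mul,
    ← Nat.card_eq_fintype_card, Subgroup.card_top, ← mul_assoc, inv_mul_cancel₀ card_ne, one_mul]

section res

variable {N C : Subgroup G}

/-- restriction of the data to a subgroup containing `N` -/
noncomputable def rmu (h : N ≤ C) (μ : N →* ℂˣ) : N.subgroupOf C →* ℂˣ :=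
  μ.comp (Subgroup.subgroupOfEquivOfLe h).toMonoidHom

lemma rmu_apply (h : N ≤ C) (μ : N →* ℂˣ) (n : N.subgroupOf C) :
    rmu h μ n = μ ⟨((n : C) : G), Subgroup.mem_subgroupOf.mp n.2⟩ := rfl

lemma rmu_inv [N.Normal] (h : N ≤ C) (μ : N →* ℂˣ)
    (hμ : ∀ g ∈ C, ∀ n : N, μ (MulAut.conjNormal g n) = μ n) (g : C) (n : N.subgroupOf C) :
    rmu h μ (MulAut.conjNormal g n) = rmu h μ n := by
  have h1 := hμ g g.2 ⟨((n : C) : G), Subgroup.mem_subgroupOf.mp n.2⟩
  refine Eq.trans ?_ h1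
  rw [rmu_apply]
  congr 1

lemma part_res (h : N ≤ C) (μ : N →* ℂˣ) (f : G → ℂ) (x : C) :
    part (N.subgroupOf C) (rmu h μ) (fun y : C => f y) x = part N μ f x := by
  classical
  have : Fintype N := Fintype.ofFinite N
  have : Fintype (N.subgroupOf C) := Fintype.ofFinite _
  rw [part_eq, part_eq, Nat.card_congr (Subgroup.subgroupOfEquivOfLe h).toEquiv]
  congr 1
  exact Fintype.sum_equiv (Subgroup.subgroupOfEquivOfLe h).toEquiv _ _ fun n => rfl

end res

lemma part_expand {N : Subgroup G} {μ : N →* ℂˣ} {F : G → ℂ}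
    (hF : ∀ g x : G, F (x * g * x⁻¹) = F g) (g : G) :
    part N μ F g = ∑ η ∈ irrF G, pr F η * part N μ η g := by
  have h1 : F = ∑ η ∈ irrF G, (fun x => pr F η * η x) := by
    funext x
    rw [class_expand hF x, Finset.sum_apply]
  have h2 := congrArg (partHom N μ) h1
  rw [map_sum] at h2
  have h3 := congrFun h2 g
  rw [Finset.sum_apply] at h3
  rw [← partHom_apply, h3]
  refine Finset.sum_congr rfl fun η _ => ?_
  rw [partHom_apply]
  simp only [part, mul_assoc]
  classical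
  have : Fintype N := Fintype.ofFinite N
  rw [finsum_eq_sum_of_fintype, finsum_eq_sum_of_fintype, Finset.mul_sum, Finset.mul_sum,
    Finset.mul_sum]
  refine Finset.sum_congr rfl fun n _ => ?_
  ring

/-- values of the part at one element -/
lemma HA.cyc (hθ : HA θ) {N : Subgroup G} [N.Normal] {μ : N →* ℂˣ}
    (hμ : ∀ (g : G) (n : N), μ (MulAut.conjNormal g n) = μ n) {d : ℕ} (hd : part N μ θ 1 = d)
    (hd1 : d ≤ 1) (h : G) :
    (d = 0 → part N μ θ h = 0) ∧ (d = 1 → part N μ θ h * part N μ θ h⁻¹ = 1) := by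
  classical
  let C : Subgroup G := N ⊔ Subgroup.zpowers h
  have hNC : N ≤ C := le_sup_left
  have hhC : h ∈ C := (le_sup_right : Subgroup.zpowers h ≤ C) (Subgroup.mem_zpowers h)
  let N' : Subgroup C := N.subgroupOf C
  let μ' : N' →* ℂˣ := rmu hNC μ
  have hμ' : ∀ (g : C) (n : N'), μ' (MulAut.conjNormal g n) = μ' n :=
    rmu_inv hNC μ (fun g _ n => hμ g n)
  let F : C → ℂ := fun y => θ y
  have hF : HA F := hθ.res C
  have hpF : ∀ x : C, part N' μ' F x = part N μ θ x := part_res hNC μ θ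
  have hgen : N' ⊔ Subgroup.zpowers (⟨h, hhC⟩ : C) = ⊤ := by
    rw [eq_top_iff]
    rintro ⟨x, hx⟩ -
    obtain ⟨n, hn, z, hz, rfl⟩ := Subgroup.mem_sup_of_normal_left.mp hx
    obtain ⟨k, rfl⟩ := hz
    have h1 : (⟨n * h ^ k, hx⟩ : C) = ⟨n, hNC hn⟩ * (⟨h, hhC⟩ : C) ^ k := by
      apply Subtype.ext
      simp
    change (⟨n * h ^ k, hx⟩ : C) ∈ _
    rw [h1]
    exact mul_mem (Subgroup.mem_sup_left (Subgroup.mem_subgroupOf.mpr hn))
      (Subgroup.mem_sup_right ⟨k, rfl⟩)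
  -- the characters over `μ'` are linear
  have hlin : ∀ η ∈ Irr C, part N' μ' η ≠ 0 → ∃ ψ : C →* ℂˣ, η = lc ψ := fun η hη hne =>
    lin_of_cyc hμ' hη hne _ hgen
  have hk : ∀ η ∈ Irr C, ∃ k : ℕ, part N' μ' η ≠ 0 → pr F η = k := by
    intro η hη
    by_cases hne : part N' μ' η = 0
    · exact ⟨0, fun h => absurd hne h⟩
    · obtain ⟨ψ, rfl⟩ := hlin η hη hne
      obtain ⟨k, hk⟩ := hF.lin ψ
      exact ⟨k, fun _ => hk⟩
  choose! k hk using hk
  let T : Finset (C → ℂ) := (irrF C).filter fun η => part N' μ' η ≠ 0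
  have hval : ∀ x : C, part N μ θ x = ∑ η ∈ T, (k η : ℂ) * η x := by
    intro x
    rw [← hpF, part_expand hF.conj, Finset.sum_filter]
    refine Finset.sum_congr rfl fun η hη => ?_
    by_cases hne : part N' μ' η = 0
    · rw [if_neg (by simpa using hne), hne]
      simp
    · rw [if_pos hne, hk η (mem_irrF.mp hη) hne]
      rcases irr_part' hμ' (mem_irrF.mp hη) with h1 | h1
      · rw [h1]
      · exact absurd h1 hne
  have hTl : ∀ η ∈ T, ∃ ψ : C →* ℂˣ, η = lc ψ := by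
    intro η hη
    obtain ⟨h1, h2⟩ := Finset.mem_filter.mp hη
    exact hlin η (mem_irrF.mp h1) h2
  have hone : ∑ η ∈ T, k η = d := by
    have h1 := hval 1
    rw [Subgroup.coe_one, hd] at h1
    have h2 : ∀ η ∈ T, (k η : ℂ) * η 1 = k η := by
      intro η hη
      obtain ⟨ψ, rfl⟩ := hTl η hη
      simp [lc]
    rw [Finset.sum_congr rfl h2] at h1
    exact_mod_cast h1.symm
  refine ⟨?_, ?_⟩
  · rintro rfl
    have h1 := hval ⟨h, hhC⟩
    rw [Finset.sum_eq_zero (fun η hη => by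
      rw [Finset.sum_eq_zero_iff.mp hone η hη]; simp)] at h1
    exact h1
  · rintro rfl
    obtain ⟨η, hη, hne⟩ : ∃ η ∈ T, k η ≠ 0 := by
      by_contra hcon
      push Not at hcon
      rw [Finset.sum_eq_zero hcon] at hone
      omega
    have h1 := Finset.add_sum_erase T k hη
    rw [hone] at h1
    have h2 : k η = 1 := by omega
    have h3 : ∑ x ∈ T.erase η, k x = 0 := by omega
    have h4 : ∀ x : C, part N μ θ x = η x := by
      intro x
      rw [hval x, ← Finset.add_sum_erase T (fun η => (k η : ℂ) * η x) hη, h2,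
        Finset.sum_eq_zero (fun y hy => by
          rw [Finset.sum_eq_zero_iff.mp h3 y hy]; simp)]
      simp
    obtain ⟨ψ, rfl⟩ := hTl η hη
    have h5 := h4 ⟨h, hhC⟩
    have h6 := h4 (⟨h, hhC⟩⁻¹)
    rw [Subgroup.coe_inv] at h6
    change part N μ θ h = _ at h5
    change part N μ θ h⁻¹ = _ at h6
    rw [h5, h6]
    change ((ψ _ : ℂˣ) : ℂ) * ((ψ _ : ℂˣ) : ℂ) = 1
    rw [← Units.val_mul, ← map_mul, mul_inv_cancel, map_one, Units.val_one]

/-- multiplicity zero -/
lemma HA.part_zero (hθ : HA θ) {N : Subgroup G} [N.Normal] {μ : N →* ℂˣ}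
    (hμ : ∀ (g : G) (n : N), μ (MulAut.conjNormal g n) = μ n) (hd : part N μ θ 1 = 0) :
    part N μ θ = 0 := by
  funext g
  exact (hθ.cyc hμ (d := 0) (by rw [hd]; simp) (by omega) g).1 rfl

/-- multiplicity one -/
lemma HA.part_one (hθ : HA θ) (hV : Virt θ) {N : Subgroup G} [N.Normal] {μ : N →* ℂˣ}
    (hμ : ∀ (g : G) (n : N), μ (MulAut.conjNormal g n) = μ n) (hd : part N μ θ 1 = 1) :
    ∃ lam : G →* ℂˣ, part N μ θ = lc lam := by
  classical
  have : Fintype G := Fintype.ofFinite G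
  have h1 : pr (part N μ θ) (part N μ θ) = 1 := by
    rw [pr_eq, Finset.sum_congr rfl (fun g _ =>
      (hθ.cyc hμ (d := 1) (by rw [hd]; simp) le_rfl g).2 rfl), Finset.sum_const, Finset.card_univ,
      nsmul_eq_mul, mul_one, ← Nat.card_eq_fintype_card, inv_mul_cancel₀ card_ne]
  have h2 := irr_of_norm (virt_part hμ hV) h1 (d := 1) (by rw [hd]; simp)
  obtain ⟨lam, hlam⟩ := irr_deg_one h2 hd
  exact ⟨lam, funext hlam⟩

end Pool.Agent.R389
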