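import Mathlib
import Pool.Agent.R389.Part2

/-!
# Virtual characters over a linear character of a normal subgroup and good monomial characters
-/

set_option autoImplicit false
set_option linter.unusedSectionVars false

namespace Pool.Agent.R389

open Pool.Agent.H302R2 Pool.Agent.H302R3 Pool.Agent.H541R3.ART Pool.Agent.W446.AS

variable {G : Type} [Group G] [Finite G]

/-- the group generated by the monomial characters orthogonal to `θ` -/
def GoodA (θ : G → ℂ) : AddSubgroup (G → ℂ) :=
  AddSubgroup.closure {f | ∃ (U : Subgroup G) (ψ : U →* ℂˣ),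
    f = ind U (fun h => ((ψ h : ℂˣ) : ℂ)) ∧ pr θ f = 0}

variable {θ : G → ℂ}

lemma one_irr' : (fun _ : G => (1 : ℂ)) ∈ Irr G := by
  have h := lin_irr (1 : G →* ℂˣ)
  simpa using h

lemma pr_zsmul' (k : ℤ) (a b : G → ℂ) : pr (k • a) b = k * pr a b := by
  classical
  have : Fintype G := Fintype.ofFinite G
  rw [pr_eq, pr_eq, Finset.mul_sum, Finset.mul_sum, Finset.mul_sum]
  refine Finset.sum_congr rfl fun g _ => ?_
  rw [Pi.smul_apply, zsmul_eq_mul]
  ring

lemma goodA_pr {f : G → ℂ} (hf : f ∈ GoodA θ) : pr θ f = 0 := by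
  induction hf using AddSubgroup.closure_induction with
  | mem s hs => obtain ⟨U, ψ, -, h⟩ := hs; exact h
  | zero => rw [pr_comm, pr_zero_left]
  | add a b _ _ ha hb => rw [pr_comm, pr_add, pr_comm, ha, pr_comm, hb, add_zero]
  | neg a _ ha => rw [pr_comm, pr_neg, pr_comm, ha, neg_zero]

lemma goodA_mono (hc : ∀ g x : G, θ (x * g * x⁻¹) = θ g) {U : Subgroup G} {η : U → ℂ}
    (hη : Mono η) (h0 : pr (fun u : U => θ u) η = 0) : ind U η ∈ GoodA θ := by
  obtain ⟨W, ν, h1⟩ := hη.ind (H := U)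
  refine AddSubgroup.subset_closure ⟨W, ν, h1, ?_⟩
  rw [frob' U _ hc, h0]

lemma goodA_ind (hc : ∀ g x : G, θ (x * g * x⁻¹) = θ g) (H : Subgroup G) {f : H → ℂ}
    (hf : f ∈ GoodA (fun x : H => θ x)) : ind H f ∈ GoodA θ := by
  have h1 : GoodA (fun x : H => θ x) ≤ (GoodA θ).comap (indHom H) := by
    rw [GoodA, AddSubgroup.closure_le]
    rintro f ⟨U, ψ, rfl, h2⟩
    rw [SetLike.mem_coe, AddSubgroup.mem_comap, indHom_apply]
    exact goodA_mono hc ⟨U, ψ, rfl⟩ h2
  exact h1 hf

section

variable {N : Subgroup G} [N.Normal] {μ : N →* ℂˣ}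

/-- characters over `μ` when `μ` does not occur in `θ` -/
lemma goodA_zero (hc : ∀ g x : G, θ (x * g * x⁻¹) = θ g)
    (hμ : ∀ (g : G) (n : N), μ (MulAut.conjNormal g n) = μ n) (h0 : part N μ θ = 0) {f : G → ℂ}
    (hf : Virt f) (hfμ : ∀ g, ∀ n : N, f (g * n) = f g * ((μ n : ℂˣ) : ℂ)) : f ∈ GoodA θ := by
  classical
  let π : G →* G ⧸ N := QuotientGroup.mk' N
  have hπ : Function.Surjective π := QuotientGroup.mk'_surjective N
  let m : (G ⧸ N → ℂ) →+ (G → ℂ) := AddMonoidHom.mk' (fun u g => u (π g) * f g) (fun a b => by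
    funext g
    change (a (π g) + b (π g)) * f g = a (π g) * f g + b (π g) * f g
    ring)
  have h1 : PN (G ⧸ N) ≤ (GoodA θ).comap m := by
    rw [PN, AddSubgroup.closure_le]
    rintro u ⟨V, ψ, hV, rfl⟩
    rw [SetLike.mem_coe, AddSubgroup.mem_comap]
    let H : Subgroup G := V.comap π
    let π' : H →* V :=
      { toFun := fun h => ⟨π h, h.2⟩
        map_one' := by apply Subtype.ext; simp
        map_mul' := by intro a b; apply Subtype.ext; simp }
    let F : H → ℂ := fun h => f h * (((ψ.comp π') h : ℂˣ) : ℂ)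
    have h2 : m (ind V (fun h => ((ψ h : ℂˣ) : ℂ))) = ind H F := by
      funext g
      change ind V (fun h => ((ψ h : ℂˣ) : ℂ)) (π g) * f g = ind H F g
      rw [congrFun (ind_comap hπ V (fun h => ((ψ h : ℂˣ) : ℂ))) g,
        ← ind_mul (V.comap π) _ hf.conj g]
      congr 1
      funext h
      rw [mul_comm]
      rfl
    rw [h2]
    have hFv : Virt F := by
      have h3 : AddSubgroup.closure (Irr H) ≤ (AddSubgroup.closure (Irr H)).comap
          (twHom (ψ.comp π')) := by
        rw [AddSubgroup.closure_le]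
        intro χ hχ
        exact AddSubgroup.subset_closure (irr_twist hχ _)
      exact h3 (Virt.comp hf H.subtype)
    have hNH : N ≤ H := by
      intro k hk
      change π k ∈ V
      have : π k = 1 := (QuotientGroup.eq_one_iff k).mpr hk
      rw [this]
      exact one_mem _
    have hHQ : Group.IsNilpotent (H ⧸ N.subgroupOf H) := by
      refine nil_of_injective (QuotientGroup.lift (N.subgroupOf H) π' ?_) ?_ hV
      · intro x hx
        apply Subtype.ext
        change π (x : G) = 1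
        exact (QuotientGroup.eq_one_iff _).mpr (Subgroup.mem_subgroupOf.mp hx)
      · rw [injective_iff_map_eq_one]
        intro q hq
        obtain ⟨x, rfl⟩ := QuotientGroup.mk_surjective q
        have h1 : π' x = 1 := hq
        have h2 : π (x : G) = 1 := congrArg Subtype.val h1
        exact (QuotientGroup.eq_one_iff x).mpr
          (Subgroup.mem_subgroupOf.mpr ((QuotientGroup.eq_one_iff _).mp h2))
    have hμ' : ∀ (g : H) (n : N.subgroupOf H), rmu hNH μ (MulAut.conjNormal g n) = rmu hNH μ n :=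
      rmu_inv hNH μ (fun g _ n => hμ g n)
    have hFμ : ∀ g : H, ∀ n : N.subgroupOf H, F (g * n) = F g * ((rmu hNH μ n : ℂˣ) : ℂ) := by
      intro g n
      change f ((g : G) * ((n : H) : G)) * _ = f g * _ * _
      have h3 : π' (n : H) = 1 := by
        apply Subtype.ext
        change π ((n : H) : G) = 1
        exact (QuotientGroup.eq_one_iff _).mpr (Subgroup.mem_subgroupOf.mp n.2)
      have h4 : (ψ.comp π') (g * n) = (ψ.comp π') g := by
        rw [map_mul, MonoidHom.comp_apply ψ π' (n : H), h3, map_one, mul_one]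
      rw [h4]
      have h5 := hfμ g ⟨((n : H) : G), Subgroup.mem_subgroupOf.mp n.2⟩
      simp only at h5
      rw [h5, rmu_apply]
      ring
    have hpθ : part (N.subgroupOf H) (rmu hNH μ) (fun y : H => θ y) = 0 := by
      funext x
      rw [part_res hNH μ θ x, h0]
      rfl
    have h3 : F = ∑ η ∈ irrF H, mult F η • η := by
      funext u
      rw [class_expand hFv.conj u, Finset.sum_apply]
      refine Finset.sum_congr rfl fun η hη => ?_
      rw [mult_spec hFv (mem_irrF.mp hη), Pi.smul_apply, zsmul_eq_mul]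
    rw [h3, ← indHom_apply, map_sum]
    refine sum_mem fun η hη => ?_
    rw [map_zsmul]
    have hηI := mem_irrF.mp hη
    by_cases hne : part (N.subgroupOf H) (rmu hNH μ) η = 0
    · have h4 : mult F η = 0 := by
        apply mult_of_pr
        rw [pr_comm, ← pr_part hFv.conj hFμ, hne, pr_zero_left]
        simp
      rw [h4, zero_smul]
      exact zero_mem _
    · refine zsmul_mem ?_ _
      refine goodA_mono hc (mono_of_nil hμ' hηI hne hHQ) ?_
      rcases irr_part hμ' hηI with h5 | h5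
      · rw [← pr_part (Irr.conj hηI) h5, hpθ, pr_zero_left]
      · exact absurd h5 hne
  have h2 := h1 one_mem_pn
  rw [AddSubgroup.mem_comap] at h2
  have h3 : m (fun _ => 1) = f := by
    funext g
    change 1 * f g = f g
    rw [one_mul]
  rwa [h3] at h2

/-- invariant virtual characters come from the quotient -/
lemma virt_descend {h : G → ℂ} (hh : Virt h) :
    ∃ hb : G ⧸ N → ℂ, Virt hb ∧ inv N h = fun g => hb (QuotientGroup.mk' N g) := by
  classical
  let π : G →* G ⧸ N := QuotientGroup.mk' N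
  have hπ : Function.Surjective π := QuotientGroup.mk'_surjective N
  let infl : (G ⧸ N → ℂ) →+ (G → ℂ) := AddMonoidHom.mk' (fun u g => u (π g)) (fun a b => rfl)
  have h1 : AddSubgroup.closure (Irr G) ≤
      ((AddSubgroup.closure (Irr (G ⧸ N))).map infl).comap (invHom N) := by
    rw [AddSubgroup.closure_le]
    intro χ hχ
    rw [SetLike.mem_coe, AddSubgroup.mem_comap, invHom_apply, AddSubgroup.mem_map]
    obtain ⟨k, ρ, hρ, rfl⟩ := exists_rep hχ
    have : Fintype N := Fintype.ofFinite N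
    rcases hρ.normal_dich N with h | h
    · obtain ⟨ψ, hψ, hψ1⟩ := descend_irr hπ hρ (by
        intro g hg
        rw [QuotientGroup.ker_mk'] at hg
        exact h g hg)
      refine ⟨ψ, AddSubgroup.subset_closure hψ, ?_⟩
      rw [inv_of_const N]
      · exact (funext hψ1).symm
      · intro g k hk
        rw [hψ1, hψ1, map_mul]
        have : π k = 1 := (QuotientGroup.eq_one_iff k).mpr hk
        rw [this, mul_one]
    · refine ⟨0, zero_mem _, ?_⟩
      rw [map_zero]
      funext g
      rw [inv_eq, h g, mul_zero]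
      rfl
  obtain ⟨hb, hb1, hb2⟩ := AddSubgroup.mem_map.mp (AddSubgroup.mem_comap.mp (h1 hh))
  exact ⟨hb, hb1, hb2.symm⟩

/-- characters over `μ` when the `μ`-part of `θ` is a linear character -/
lemma goodA_one (hc : ∀ g x : G, θ (x * g * x⁻¹) = θ g) {lam : G →* ℂˣ}
    (h0 : part N μ θ = lc lam) {f : G → ℂ}
    (hf : Virt f) (hfμ : ∀ g, ∀ n : N, f (g * n) = f g * ((μ n : ℂˣ) : ℂ)) :
    ∃ k : ℤ, pr f (lc lam) = k ∧ f - k • lc lam ∈ GoodA θ := by
  classical
  have hlam : ∀ n : N, lam n = μ n := by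
    intro n
    have h1 := part_mul_mem N μ θ 1 n
    rw [h0, one_mul] at h1
    have h2 : lc lam 1 = 1 := by simp [lc]
    rw [h2, one_mul] at h1
    exact Units.ext h1
  let π : G →* G ⧸ N := QuotientGroup.mk' N
  have hπ : Function.Surjective π := QuotientGroup.mk'_surjective N
  -- untwist
  let h : G → ℂ := twHom lam⁻¹ f
  have hh : Virt h := by
    have h3 : AddSubgroup.closure (Irr G) ≤ (AddSubgroup.closure (Irr G)).comap
        (twHom lam⁻¹) := by
      rw [AddSubgroup.closure_le]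
      intro χ hχ
      exact AddSubgroup.subset_closure (irr_twist hχ _)
    exact h3 hf
  have hinv : inv N h = h := by
    apply inv_of_const
    intro g n hn
    change f (g * n) * ((lam⁻¹ (g * n) : ℂˣ) : ℂ) = f g * ((lam⁻¹ g : ℂˣ) : ℂ)
    have h5 := hfμ g ⟨n, hn⟩
    simp only at h5
    rw [h5, map_mul, mul_assoc, ← Units.val_mul, mul_comm (lam⁻¹ g), ← mul_assoc,
      ← hlam ⟨n, hn⟩, MonoidHom.inv_apply lam n, mul_inv_cancel, one_mul]
  obtain ⟨hb, hb1, hb2⟩ := virt_descend (N := N) hh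
  rw [hinv] at hb2
  let m : (G ⧸ N → ℂ) →+ (G → ℂ) := AddMonoidHom.mk' (fun u g => u (π g) * ((lam g : ℂˣ) : ℂ))
    (fun a b => by
      funext g
      change (a (π g) + b (π g)) * _ = a (π g) * _ + b (π g) * _
      ring)
  have hm : m hb = f := by
    funext g
    have h1 := congrFun hb2 g
    change hb (π g) * ((lam g : ℂˣ) : ℂ) = f g
    change f g * ((lam⁻¹ g : ℂˣ) : ℂ) = hb (π g) at h1
    rw [← h1, MonoidHom.inv_apply, mul_assoc, ← Units.val_mul, inv_mul_cancel, Units.val_one,
      mul_one]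
  have hNew : NewA (⊤ : Subgroup (G ⧸ N)) ≤ (GoodA θ).comap m := by
    rw [NewA, AddSubgroup.closure_le]
    rintro u ⟨V, ψ, -, ⟨v, -, hv⟩, rfl⟩
    rw [SetLike.mem_coe, AddSubgroup.mem_comap]
    let H : Subgroup G := V.comap π
    let π' : H →* V :=
      { toFun := fun h => ⟨π h, h.2⟩
        map_one' := by apply Subtype.ext; simp
        map_mul' := by intro a b; apply Subtype.ext; simp }
    let Ψ : H →* ℂˣ := (ψ.comp π') * lam.comp H.subtype
    have hNH : N ≤ H := by
      intro k hk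
      change π k ∈ V
      have : π k = 1 := (QuotientGroup.eq_one_iff k).mpr hk
      rw [this]
      exact one_mem _
    have h2 : m (ind V (fun h => ((ψ h : ℂˣ) : ℂ))) = ind H (fun h => ((Ψ h : ℂˣ) : ℂ)) := by
      funext g
      change ind V (fun h => ((ψ h : ℂˣ) : ℂ)) (π g) * ((lam g : ℂˣ) : ℂ)
        = ind H (fun h => ((Ψ h : ℂˣ) : ℂ)) g
      rw [congrFun (ind_comap hπ V (fun h => ((ψ h : ℂˣ) : ℂ))) g,
        ← ind_mul (V.comap π) _ (F := fun g => ((lam g : ℂˣ) : ℂ)) (lin_conj lam) g]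
      rfl
    refine AddSubgroup.subset_closure ⟨H, Ψ, h2, ?_⟩
    rw [h2, frob' H _ hc]
    have h3 : ∀ g : H, ∀ n : N.subgroupOf H,
        lc Ψ (g * n) = lc Ψ g * ((rmu hNH μ n : ℂˣ) : ℂ) := by
      intro g n
      change ((Ψ (g * n) : ℂˣ) : ℂ) = ((Ψ g : ℂˣ) : ℂ) * _
      rw [map_mul, Units.val_mul]
      congr 2
      have h4 : π' (n : H) = 1 := by
        apply Subtype.ext
        change π ((n : H) : G) = 1
        exact (QuotientGroup.eq_one_iff _).mpr (Subgroup.mem_subgroupOf.mp n.2)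
      change ψ (π' (n : H)) * lam ((n : H) : G) = _
      rw [h4, map_one, one_mul, rmu_apply]
      exact hlam ⟨_, Subgroup.mem_subgroupOf.mp n.2⟩
    have h4 : part (N.subgroupOf H) (rmu hNH μ) (fun y : H => θ y) = lc (lam.comp H.subtype) := by
      funext x
      rw [part_res hNH μ θ x, h0]
      rfl
    change pr (fun y : H => θ y) (lc Ψ) = 0
    rw [← pr_part (Irr.conj (lin_irr Ψ)) h3, h4, pr_lin, if_neg]
    intro h5
    apply hv
    obtain ⟨y, hy⟩ := hπ v
    have hyH : y ∈ H := by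
      change π y ∈ V
      rw [hy]; exact v.2
    have h6 := DFunLike.congr_fun h5 ⟨y, hyH⟩
    have h7 : π' ⟨y, hyH⟩ = v := Subtype.ext hy
    change lam y = ψ (π' ⟨y, hyH⟩) * lam y at h6
    rw [h7] at h6
    exact mul_eq_right.mp h6.symm
  -- the constant term
  obtain ⟨k, hk⟩ := hb1.pr_int (one_irr' (G := G ⧸ N))
  have hsub : hb - k • (fun _ => (1 : ℂ)) ∈ NewA (⊤ : Subgroup (G ⧸ N)) := by
    refine relative_brauer ⊤ (sub_mem (S := AddSubgroup (G ⧸ N → ℂ)) hb1
      (zsmul_mem (AddSubgroup.subset_closure (one_irr' (G := G ⧸ N))) k)) ?_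
    have : Fintype (G ⧸ N) := Fintype.ofFinite _
    have : Fintype (⊤ : Subgroup (G ⧸ N)) := Fintype.ofFinite _
    funext g
    rw [inv_eq]
    have h1 : ∑ x : (⊤ : Subgroup (G ⧸ N)), (hb - k • (fun _ : G ⧸ N => (1 : ℂ))) (g * x)
        = ∑ x : G ⧸ N, (hb x - k) := by
      rw [← Equiv.sum_comp (Equiv.mulLeft g) (fun x => hb x - (k : ℂ))]
      refine Fintype.sum_equiv (Subgroup.topEquiv (G := G ⧸ N)).toEquiv _ _ fun x => ?_
      change hb (g * x) - (k • (fun _ : G ⧸ N => (1 : ℂ))) (g * x) = hb (g * x) - k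
      rw [Pi.smul_apply, zsmul_eq_mul, mul_one]
    rw [h1, Finset.sum_sub_distrib, Finset.sum_const, Finset.card_univ, nsmul_eq_mul,
      ← Nat.card_eq_fintype_card]
    rw [pr_eq] at hk
    simp only [mul_one] at hk
    have h2 : ∑ x : G ⧸ N, hb x = Nat.card (G ⧸ N) * (k : ℂ) := by
      rw [← hk, ← mul_assoc, mul_inv_cancel₀ card_ne, one_mul]
    rw [h2, sub_self, mul_zero]
    rfl
  have h1 := AddSubgroup.mem_comap.mp (hNew hsub)
  rw [map_sub, map_zsmul, hm] at h1
  have h2 : m (fun _ => (1 : ℂ)) = lc lam := by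
    funext g
    change 1 * ((lam g : ℂˣ) : ℂ) = _
    rw [one_mul]
  rw [h2] at h1
  refine ⟨k, ?_, h1⟩
  have hlc : ∀ g, ∀ n : N, lc lam (g * n) = lc lam g * ((μ n : ℂˣ) : ℂ) := by
    intro g n
    change ((lam (g * n) : ℂˣ) : ℂ) = ((lam g : ℂˣ) : ℂ) * _
    rw [map_mul, hlam, Units.val_mul]
  have h3 := goodA_pr h1
  have h4 : pr θ (lc lam) = 1 := by
    rw [← pr_part (Irr.conj (lin_irr lam)) hlc, h0, pr_lin, if_pos rfl]
  have h5 : pr θ f = pr (lc lam) f := by
    rw [← pr_part hf.conj hfμ, h0]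
  rw [sub_eq_add_neg, pr_comm, pr_add, pr_neg, pr_comm, h5, pr_zsmul', pr_comm (lc lam) θ, h4] at h3
  rw [pr_comm]
  linear_combination h3

end

end Pool.Agent.R389
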