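import Mathlib
import Pool.Agent.R389.Part3

/-!
# Decomposition of class functions along the linear characters of a normal subgroup
-/

set_option autoImplicit false
set_option linter.unusedSectionVars false

namespace Pool.Agent.R389

open Pool.Agent.H302R2 Pool.Agent.H302R3 Pool.Agent.H541R3.ART Pool.Agent.W446.AS

section lin

variable {N : Type} [Group N] [Finite N]

lemma exists_lin_ne {n : N} (hn : n ∉ commutator N) : ∃ μ : N →* ℂˣ, μ n ≠ 1 := by
  have h1 : (Abelianization.of n : Abelianization N) ≠ 1 := by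
    intro h
    exact hn ((QuotientGroup.eq_one_iff n).mp h)
  have : NeZero (Monoid.exponent (Abelianization N)) :=
    ⟨Monoid.exponent_ne_zero_of_finite⟩
  obtain ⟨φ, hφ⟩ := CommGroup.exists_apply_ne_one_of_hasEnoughRootsOfUnity (Abelianization N) ℂ h1
  exact ⟨φ.comp Abelianization.of, hφ⟩

lemma card_lin : Nat.card (N →* ℂˣ) * Nat.card (commutator N) = Nat.card N := by
  have : NeZero (Monoid.exponent (Abelianization N)) :=
    ⟨Monoid.exponent_ne_zero_of_finite⟩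
  have h1 : Nat.card (N →* ℂˣ) = Nat.card (Abelianization N →* ℂˣ) :=
    Nat.card_congr Abelianization.lift
  rw [h1, Nat.card_congr (CommGroup.monoidHom_mulEquiv_of_hasEnoughRootsOfUnity
    (Abelianization N) ℂ).some.toEquiv]
  exact (Subgroup.card_eq_card_quotient_mul_card_subgroup (commutator N)).symm

lemma sum_lin [Fintype (N →* ℂˣ)] (n : N) :
    (n ∈ commutator N → ∑ μ : N →* ℂˣ, ((μ n : ℂˣ) : ℂ) = Nat.card (N →* ℂˣ)) ∧
    (n ∉ commutator N → ∑ μ : N →* ℂˣ, ((μ n : ℂˣ) : ℂ) = 0) := by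
  classical
  refine ⟨fun hn => ?_, fun hn => ?_⟩
  · rw [Finset.sum_congr rfl (fun μ _ => by rw [lin_comm μ hn, Units.val_one]), Finset.sum_const,
      Finset.card_univ, nsmul_eq_mul, mul_one, Nat.card_eq_fintype_card]
  · obtain ⟨μ₀, h0⟩ := exists_lin_ne hn
    have h1 : ((μ₀ n : ℂˣ) : ℂ) * ∑ μ : N →* ℂˣ, ((μ n : ℂˣ) : ℂ)
        = ∑ μ : N →* ℂˣ, ((μ n : ℂˣ) : ℂ) := by
      rw [Finset.mul_sum, ← Equiv.sum_comp (Equiv.mulLeft μ₀) (fun μ => ((μ n : ℂˣ) : ℂ))]
      refine Finset.sum_congr rfl fun μ _ => ?_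
      simp
    have h2 : (((μ₀ n : ℂˣ) : ℂ) - 1) * ∑ μ : N →* ℂˣ, ((μ n : ℂˣ) : ℂ) = 0 := by
      rw [sub_mul, h1, one_mul, sub_self]
    rcases mul_eq_zero.mp h2 with h3 | h3
    · exfalso
      apply h0
      exact Units.ext (by rw [Units.val_one]; exact sub_eq_zero.mp h3)
    · exact h3

end lin

variable {G : Type} [Group G] [Finite G]

/-- a function constant on the coset of the derived subgroup of `N` is the sum of its parts -/
lemma sum_part_at (N : Subgroup G) [Fintype (N →* ℂˣ)] {f : G → ℂ} (g : G)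
    (hf : ∀ k ∈ ⁅N, N⁆, f (g * k) = f g) : ∑ μ : N →* ℂˣ, part N μ f g = f g := by
  classical
  have : Fintype N := Fintype.ofFinite N
  have h1 : ∀ n : N, n ∈ commutator N → f (g * n) = f g := by
    intro n hn
    apply hf
    have h2 : (commutator N).map N.subtype = ⁅N, N⁆ := Subgroup.map_subtype_commutator N
    rw [← h2]
    exact ⟨n, hn, rfl⟩
  have h2 : ∑ μ : N →* ℂˣ, part N μ f g = (Nat.card N : ℂ)⁻¹ * ∑ n : N,
      if n ∈ commutator N then f g * Nat.card (N →* ℂˣ) else 0 := by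
    simp only [part_eq]
    rw [← Finset.mul_sum, Finset.sum_comm]
    congr 1
    refine Finset.sum_congr rfl fun n _ => ?_
    rw [← Finset.mul_sum]
    have h3 : ∑ μ : N →* ℂˣ, (((μ n)⁻¹ : ℂˣ) : ℂ) = ∑ μ : N →* ℂˣ, ((μ n⁻¹ : ℂˣ) : ℂ) :=
      Finset.sum_congr rfl fun μ _ => by rw [map_inv]
    rw [h3]
    by_cases hn : n ∈ commutator N
    · rw [if_pos hn, (sum_lin n⁻¹).1 (inv_mem hn), h1 n hn]
    · rw [if_neg hn, (sum_lin n⁻¹).2 (fun h => hn (by simpa using inv_mem h)), mul_zero]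
  rw [h2, ← Finset.sum_filter, Finset.sum_const, nsmul_eq_mul]
  have h3 : (Finset.univ.filter fun n : N => n ∈ commutator N).card = Nat.card (commutator N) := by
    rw [← Fintype.card_subtype, ← Nat.card_eq_fintype_card]
  rw [h3]
  have h4 : (Nat.card (N →* ℂˣ) : ℂ) * Nat.card (commutator N) = Nat.card N := by
    exact_mod_cast card_lin (N := N)
  have h5 : (Nat.card N : ℂ) ≠ 0 := card_ne
  have h6 : (Nat.card N : ℂ)⁻¹ * ((Nat.card (commutator N) : ℂ) * (f g * Nat.card (N →* ℂˣ)))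
      = (Nat.card N : ℂ)⁻¹ * ((Nat.card (N →* ℂˣ) : ℂ) * Nat.card (commutator N)) * f g := by ring
  rw [h6, h4, inv_mul_cancel₀ h5, one_mul]

lemma sum_part (N : Subgroup G) [Fintype (N →* ℂˣ)] {f : G → ℂ}
    (hf : ∀ g, ∀ k ∈ ⁅N, N⁆, f (g * k) = f g) (g : G) : ∑ μ : N →* ℂˣ, part N μ f g = f g :=
  sum_part_at N g (hf g)

section orb

variable {N : Subgroup G} [N.Normal]

/-- conjugate linear character -/
noncomputable def cmu (x : G) (μ : N →* ℂˣ) : N →* ℂˣ :=
  μ.comp (MulAut.conjNormal x⁻¹).toMonoidHom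

lemma cmu_apply (x : G) (μ : N →* ℂˣ) (n : N) : cmu x μ n = μ (MulAut.conjNormal x⁻¹ n) := rfl

lemma cmu_mul (x y : G) (μ : N →* ℂˣ) : cmu (x * y) μ = cmu x (cmu y μ) := by
  ext n
  rw [cmu_apply, cmu_apply, cmu_apply, mul_inv_rev, map_mul, MulAut.mul_apply]

lemma cmu_one (μ : N →* ℂˣ) : cmu 1 μ = μ := by
  ext n
  rw [cmu_apply, inv_one, map_one, MulAut.one_apply]

/-- the stabilizer -/
def stb (μ : N →* ℂˣ) : Subgroup G where
  carrier := {g | cmu g μ = μ}
  mul_mem' := by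
    intro a b ha hb
    change cmu (a * b) μ = μ
    rw [cmu_mul, hb, ha]
  one_mem' := cmu_one μ
  inv_mem' := by
    intro a ha
    change cmu a⁻¹ μ = μ
    have h1 : cmu a μ = μ := ha
    conv_lhs => rw [← h1]
    rw [← cmu_mul, inv_mul_cancel, cmu_one]

lemma mem_stb {μ : N →* ℂˣ} {g : G} : g ∈ stb μ ↔ cmu g μ = μ := Iff.rfl

lemma stb_inv {μ : N →* ℂˣ} {g : G} (hg : g ∈ stb μ) (n : N) :
    μ (MulAut.conjNormal g n) = μ n := by
  have h1 := DFunLike.congr_fun (mem_stb.mp (inv_mem hg)) n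
  rw [cmu_apply, inv_inv] at h1
  exact h1

lemma le_stb (μ : N →* ℂˣ) : N ≤ stb μ := by
  intro m hm
  rw [mem_stb]
  ext n
  rw [cmu_apply]
  have h1 : MulAut.conjNormal m⁻¹ n = (⟨m, hm⟩ : N)⁻¹ * n * ⟨m, hm⟩ := by
    apply Subtype.ext
    rw [MulAut.conjNormal_apply]
    simp
  rw [h1, map_mul, map_mul, map_inv, mul_comm (μ ⟨m, hm⟩)⁻¹, inv_mul_cancel_right]

/-- conjugating the part -/
lemma part_conj (μ : N →* ℂˣ) {f : G → ℂ} (hf : ∀ g x : G, f (x * g * x⁻¹) = f g) (g x : G) :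
    part N μ f (x⁻¹ * g * x) = part N (cmu x μ) f g := by
  classical
  have : Fintype N := Fintype.ofFinite N
  rw [part_eq, part_eq, ← Equiv.sum_comp (MulAut.conjNormal x).toEquiv
    (fun n : N => f (g * n) * (((cmu x μ n)⁻¹ : ℂˣ) : ℂ))]
  congr 1
  refine Finset.sum_congr rfl fun n _ => ?_
  have h1 : f (x⁻¹ * g * x * n) = f (g * ((MulAut.conjNormal x n : N) : G)) := by
    rw [← hf (x⁻¹ * g * x * n) x, MulAut.conjNormal_apply]
    congr 1
    group
  have h2 : cmu x μ (MulAut.conjNormal x n) = μ n := by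
    rw [cmu_apply, ← MulAut.mul_apply, ← map_mul, inv_mul_cancel, map_one, MulAut.one_apply]
  change f (x⁻¹ * g * x * n) * _ = f (g * ((MulAut.conjNormal x n : N) : G)) *
    (((cmu x μ (MulAut.conjNormal x n))⁻¹ : ℂˣ) : ℂ)
  rw [h1, h2]

/-- the part vanishes outside the stabilizer -/
lemma part_outside {μ : N →* ℂˣ} {f : G → ℂ} (hf : ∀ g x : G, f (x * g * x⁻¹) = f g) {g : G}
    (hg : g ∉ stb μ) : part N μ f g = 0 := by
  have h0 : ∃ m : N, μ (MulAut.conjNormal g m) ≠ μ m := by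
    by_contra hcon
    push Not at hcon
    apply hg
    have h1 : g⁻¹ ∈ stb μ := by
      rw [mem_stb]
      ext n
      rw [cmu_apply, inv_inv, hcon]
    simpa using inv_mem h1
  obtain ⟨m, hm⟩ := h0
  have h1 := part_mul_mem N μ f g m
  have h2 : part N μ f (g * m) = part N μ f g * ((μ (MulAut.conjNormal g m) : ℂˣ) : ℂ) := by
    rw [← part_mul_mem]
    have h3 := part_conj μ hf (g * m) ((MulAut.conjNormal g m : N) : G)
    rw [mem_stb.mp (le_stb μ (MulAut.conjNormal g m).2)] at h3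
    rw [← h3]
    congr 1
    rw [MulAut.conjNormal_apply]
    group
  rw [h1] at h2
  by_contra hne
  have h3 := mul_left_cancel₀ hne h2
  exact hm (Units.ext h3.symm)

open Classical in
/-- the orbit of a linear character -/
noncomputable def orb (μ : N →* ℂˣ) : Finset (N →* ℂˣ) :=
  haveI : Fintype G := Fintype.ofFinite G
  Finset.univ.image fun x : G => cmu x μ

lemma mem_orb {μ ν : N →* ℂˣ} : ν ∈ orb μ ↔ ∃ x, cmu x μ = ν := by
  classical
  simp [orb]

/-- the sum over an orbit -/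
lemma sum_orb (μ : N →* ℂˣ) {f : G → ℂ} (hf : ∀ g x : G, f (x * g * x⁻¹) = f g) (g : G) :
    ∑ ν ∈ orb μ, part N ν f g = ind (stb μ) (fun x : stb μ => part N μ f x) g := by
  classical
  have : Fintype G := Fintype.ofFinite G
  rw [ind_eq]
  have h1 : ∀ x : G, ext (stb μ) (fun x : stb μ => part N μ f x) (x⁻¹ * g * x)
      = part N (cmu x μ) f g := by
    intro x
    rw [← part_conj μ hf]
    by_cases h : x⁻¹ * g * x ∈ stb μ
    · rw [ext_mem _ _ h]
    · rw [ext_not _ _ h, part_outside hf h]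
  rw [Finset.sum_congr rfl (fun x _ => h1 x),
    Finset.sum_comp (fun ν => part N ν f g) (fun x : G => cmu x μ)]
  have h2 : ∀ ν ∈ Finset.image (fun x : G => cmu x μ) Finset.univ,
      (Finset.univ.filter fun x : G => cmu x μ = ν).card = Nat.card (stb μ) := by
    intro ν hν
    obtain ⟨y, -, rfl⟩ := Finset.mem_image.mp hν
    rw [← Fintype.card_subtype, ← Nat.card_eq_fintype_card]
    refine Nat.card_congr ⟨fun x => ⟨y⁻¹ * x.1, ?_⟩, fun z => ⟨y * z.1, ?_⟩, ?_, ?_⟩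
    · rw [mem_stb, cmu_mul, x.2, ← cmu_mul, inv_mul_cancel, cmu_one]
    · rw [cmu_mul, mem_stb.mp z.2]
    · intro x
      apply Subtype.ext
      simp
    · intro z
      apply Subtype.ext
      simp
  have h3 : ∑ ν ∈ Finset.image (fun x : G => cmu x μ) Finset.univ,
      (Finset.univ.filter fun x : G => cmu x μ = ν).card • part N ν f g
      = ∑ ν ∈ Finset.image (fun x : G => cmu x μ) Finset.univ,
        Nat.card (stb μ) • part N ν f g :=
    Finset.sum_congr rfl fun ν hν => congrArg (fun k : ℕ => k • part N ν f g) (h2 ν hν)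
  refine Eq.trans ?_ (congrArg (fun z : ℂ => (Nat.card (stb μ) : ℂ)⁻¹ * z) h3.symm)
  rw [← Finset.smul_sum, nsmul_eq_mul, ← mul_assoc, inv_mul_cancel₀ card_ne, one_mul]
  refine Finset.sum_congr ?_ fun _ _ => rfl
  ext ν
  rw [mem_orb]
  simp

/-- induction over the orbits -/
lemma orb_induct {A : Type} [AddCommMonoid A] (S : AddSubmonoid A) (φ : (N →* ℂˣ) → A)
    (h : ∀ μ, μ ≠ 1 → ∑ ν ∈ orb μ, φ ν ∈ S) :
    ∀ (k : ℕ) (T : Finset (N →* ℂˣ)), T.card = k → 1 ∉ T → (∀ μ ∈ T, orb μ ⊆ T) →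
      ∑ ν ∈ T, φ ν ∈ S := by
  classical
  intro k
  induction k using Nat.strong_induction_on with
  | _ k ih =>
    intro T hT h1 hst
    rcases T.eq_empty_or_nonempty with rfl | ⟨μ, hμ⟩
    · rw [Finset.sum_empty]; exact zero_mem _
    have hμo : μ ∈ orb μ := mem_orb.mpr ⟨1, cmu_one μ⟩
    rw [← Finset.sum_sdiff (hst μ hμ)]
    refine add_mem (ih _ ?_ (T \ orb μ) rfl ?_ ?_) (h μ (fun he => h1 (he ▸ hμ)))
    · rw [← hT]
      exact Finset.card_lt_card (Finset.sdiff_ssubset (hst μ hμ) ⟨μ, hμo⟩)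
    · intro h2
      exact h1 (Finset.mem_sdiff.mp h2).1
    · intro ν hν ξ hξ
      obtain ⟨h2, h3⟩ := Finset.mem_sdiff.mp hν
      refine Finset.mem_sdiff.mpr ⟨hst ν h2 hξ, fun h4 => h3 ?_⟩
      obtain ⟨x, rfl⟩ := mem_orb.mp hξ
      obtain ⟨y, hy⟩ := mem_orb.mp h4
      refine mem_orb.mpr ⟨x⁻¹ * y, ?_⟩
      rw [cmu_mul, hy, ← cmu_mul, inv_mul_cancel, cmu_one]

end orb

end Pool.Agent.R389
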