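import Mathlib
import Pool.Agent.R389.Orb

/-!
# Deligne's conjecture when the new zeros are simple and abelian
-/

set_option autoImplicit false
set_option linter.unusedSectionVars false

namespace Pool.Agent.R389

open Pool.Agent.H302R2 Pool.Agent.H302R3 Pool.Agent.H541R3.ART Pool.Agent.W446.AS Filter Topology

variable {G : Type} [Group G] [Finite G]

/-- sums of monomial characters -/
def MonPA (G : Type) [Group G] : AddSubmonoid (G → ℂ) :=
  AddSubmonoid.closure {f | ∃ (U : Subgroup G) (ψ : U →* ℂˣ),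
    f = ind U (fun h => ((ψ h : ℂˣ) : ℂ))}

variable {E : Type} [Field E]
  {L : (E →+* ℂ) → (G → ℂ) → ℂ → ℂ} {P : (E →+* ℂ) → (G → ℂ) → ℂ} {c : ℂ}

/-- `theta` is a Heilbronn function -/
lemma ha_ords {ζ : E} (hζ : IsPrimitiveRoot ζ (Monoid.exponent G))
    (hL : ∀ τ, ∀ χ ∈ Irr G, MeromorphicAt (L τ χ) c ∧ meromorphicOrderAt (L τ χ) c ≠ ⊤)
    (hmon : ∀ (U : Subgroup G) (ψ : U →* Eˣ),
      Deligne L P c (ind U (fun u => ((ψ u : Eˣ) : E)))) (τ : E →+* ℂ) :
    HA (theta (ords (L τ) c) : G → ℂ) where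
  conj := (theta_virt _).conj
  nat U ψ := by
    classical
    obtain ⟨ψE, hψE⟩ := lift_char hζ τ U ψ
    obtain ⟨m, hm⟩ := ind_isDecomp U ψ
    obtain ⟨e, he⟩ := hmon U ψE
    have h1 : (fun g => τ (ind U (fun u => ((ψE u : Eˣ) : E)) g))
        = ind U (fun h => ((ψ h : ℂˣ) : ℂ)) := by
      funext g
      rw [ind_map]
      congr 1
      funext u
      exact hψE u
    have h2 := he τ m (by rw [h1]; exact hm)
    have h3 := order_prod (hL τ) (irrF G) subset_rfl (fun χ => (m χ : ℤ))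
    have h4 : (fun s => ∏ᶠ χ ∈ Irr G, L τ χ s ^ m χ)
        = fun z => ∏ χ ∈ irrF G, L τ χ z ^ ((m χ : ℕ) : ℤ) := by
      funext s
      rw [finprod_irr (fun χ => L τ χ s ^ m χ)]
      exact Finset.prod_congr rfl fun χ _ => by rw [zpow_natCast]
    rw [h4] at h2
    have h5 := (tendsto_nhds_iff_meromorphicOrderAt_nonneg h3.1).mp ⟨_, h2⟩
    rw [h3.2] at h5
    have h6 : (0 : ℤ) ≤ ∑ χ ∈ irrF G, (m χ : ℤ) * ords (L τ) c χ := by exact_mod_cast h5
    obtain ⟨k, hk⟩ := Int.eq_ofNat_of_zero_le h6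
    refine ⟨k, ?_⟩
    rw [pr_ords (m := fun χ => (m χ : ℤ)) (fun χ hχ => by rw [hm.pr hχ]; simp), hk]
    simp

/-- good characters are invertible -/
lemma goodA_unit {ζ : E} (hζ : IsPrimitiveRoot ζ (Monoid.exponent G))
    (hL : ∀ τ, ∀ χ ∈ Irr G, MeromorphicAt (L τ χ) c ∧ meromorphicOrderAt (L τ χ) c ≠ ⊤)
    (hP : ∀ τ, ∀ χ ∈ Irr G, P τ χ ≠ 0)
    (hmon : ∀ (U : Subgroup G) (ψ : U →* Eˣ),
      Deligne L P c (ind U (fun u => ((ψ u : Eˣ) : E)))) (τ₀ : E →+* ℂ)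
    {s : G → ℂ} (hs : s ∈ GoodA (theta (ords (L τ₀) c) : G → ℂ)) :
    ∃ (f : G → E) (e : E), (∀ g, τ₀ (f g) = s g) ∧ e ≠ 0 ∧ DelZ L P c f e := by
  classical
  induction hs using AddSubgroup.closure_induction with
  | mem s hs =>
    obtain ⟨U, ψ, rfl, h2⟩ := hs
    obtain ⟨ψE, hψE⟩ := lift_char hζ τ₀ U ψ
    obtain ⟨e, he⟩ := delZ_ind (hmon U ψE)
    have h1 : ∀ g, τ₀ (ind U (fun u => ((ψE u : Eˣ) : E)) g)
        = ind U (fun h => ((ψ h : ℂˣ) : ℂ)) g := by
      intro g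
      rw [ind_map]
      congr 1
      funext u
      exact hψE u
    refine ⟨_, e, h1, ?_, he⟩
    obtain ⟨m, hm⟩ := ind_isDecomp U ψ
    rw [pr_ords (m := fun χ => (m χ : ℤ)) (fun χ hχ => by rw [hm.pr hχ]; simp)] at h2
    have h3 := order_prod (hL τ₀) (irrF G) subset_rfl (fun χ => (m χ : ℤ))
    have h4 : ∑ χ ∈ irrF G, (m χ : ℤ) * ords (L τ₀) c χ = 0 := by exact_mod_cast h2
    rw [h4] at h3
    obtain ⟨a, ha, hlim⟩ := (tendsto_ne_zero_iff_meromorphicOrderAt_eq_zero h3.1).mpr h3.2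
    have h5 := he.2 τ₀
    have h6 : ∀ χ ∈ irrF G,
        mult (fun g => τ₀ (ind U (fun u => ((ψE u : Eˣ) : E)) g)) χ = (m χ : ℤ) := by
      intro χ hχ
      apply mult_of_pr
      have h7 : (fun g => τ₀ (ind U (fun u => ((ψE u : Eˣ) : E)) g))
          = ind U (fun h => ((ψ h : ℂˣ) : ℂ)) := funext h1
      rw [h7, hm.pr (mem_irrF.mp hχ)]
      simp
    have h8 : (fun s => ∏ χ ∈ irrF G, L τ₀ χ s ^
        mult (fun g => τ₀ (ind U (fun u => ((ψE u : Eˣ) : E)) g)) χ)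
        = fun z => ∏ χ ∈ irrF G, L τ₀ χ z ^ ((m χ : ℕ) : ℤ) := by
      funext z
      exact Finset.prod_congr rfl fun χ hχ => by rw [h6 χ hχ]
    rw [h8] at h5
    have h9 := tendsto_nhds_unique h5 hlim
    intro h0
    rw [h0, map_zero, zero_mul] at h9
    exact ha h9.symm
  | zero => exact ⟨0, 1, fun g => map_zero τ₀, one_ne_zero, DelZ.zero⟩
  | add a b _ _ ha hb =>
    obtain ⟨f, e, h1, h2, h3⟩ := ha
    obtain ⟨f', e', h1', h2', h3'⟩ := hb
    exact ⟨f + f', e * e', fun g => by rw [Pi.add_apply, map_add, h1, h1']; rfl,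
      mul_ne_zero h2 h2', h3.add hL hP h3'⟩
  | neg a _ ha =>
    obtain ⟨f, e, h1, h2, h3⟩ := ha
    exact ⟨-f, e⁻¹, fun g => by rw [Pi.neg_apply, map_neg, h1]; rfl, inv_ne_zero h2,
      h3.neg hP h2⟩

/-- sums of monomial characters -/
lemma monA_del {ζ : E} (hζ : IsPrimitiveRoot ζ (Monoid.exponent G))
    (hL : ∀ τ, ∀ χ ∈ Irr G, MeromorphicAt (L τ χ) c ∧ meromorphicOrderAt (L τ χ) c ≠ ⊤)
    (hP : ∀ τ, ∀ χ ∈ Irr G, P τ χ ≠ 0)
    (hmon : ∀ (U : Subgroup G) (ψ : U →* Eˣ),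
      Deligne L P c (ind U (fun u => ((ψ u : Eˣ) : E)))) (τ₀ : E →+* ℂ)
    {a : G → ℂ} (ha : a ∈ MonPA G) :
    ∃ (f : G → E) (e : E), (∀ g, τ₀ (f g) = a g) ∧ DelZ L P c f e := by
  classical
  induction ha using AddSubmonoid.closure_induction with
  | mem s hs =>
    obtain ⟨U, ψ, rfl⟩ := hs
    obtain ⟨ψE, hψE⟩ := lift_char hζ τ₀ U ψ
    obtain ⟨e, he⟩ := delZ_ind (hmon U ψE)
    refine ⟨_, e, fun g => ?_, he⟩
    rw [ind_map]
    congr 1
    funext u
    exact hψE u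
  | zero => exact ⟨0, 1, fun g => map_zero τ₀, DelZ.zero⟩
  | add a b _ _ ha hb =>
    obtain ⟨f, e, h1, h3⟩ := ha
    obtain ⟨f', e', h1', h3'⟩ := hb
    exact ⟨f + f', e * e', fun g => by rw [Pi.add_apply, map_add, h1, h1']; rfl,
      h3.add hL hP h3'⟩

/-- the contribution of an orbit of simple zeros -/
lemma orbit_mem {θ : G → ℂ} (hθ : HA θ) (hV : Virt θ) {N : Subgroup G} [N.Normal]
    (μ : N →* ℂˣ) (hs : ∀ d : ℕ, pr θ (ind N (lc μ)) = d → d ≤ 1) {f : G → ℂ}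
    (hf : f ∈ AddSubmonoid.closure (Irr G)) :
    (fun g => ∑ ν ∈ orb μ, part N ν f g) ∈ MonPA G ⊔ (GoodA θ).toAddSubmonoid := by
  classical
  have hfv := virt_of_closure hf
  let H : Subgroup G := stb μ
  have hNH : N ≤ H := le_stb μ
  let N' : Subgroup H := N.subgroupOf H
  let μ' : N' →* ℂˣ := rmu hNH μ
  have hμ' : ∀ (g : H) (n : N'), μ' (MulAut.conjNormal g n) = μ' n :=
    rmu_inv hNH μ (fun g hg n => stb_inv hg n)
  let F : H → ℂ := fun x => part N μ f x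
  have hF : F = part N' μ' (fun x : H => f x) := by
    funext x
    exact (part_res hNH μ f x).symm
  have hFV : Virt F := by
    rw [hF]
    exact virt_part hμ' (Virt.comp hfv H.subtype)
  have hFμ : ∀ g : H, ∀ n : N', F (g * n) = F g * ((μ' n : ℂˣ) : ℂ) := by
    intro g n
    rw [hF]
    exact part_mul_mem N' μ' _ g n
  have h1 : (fun g => ∑ ν ∈ orb μ, part N ν f g) = ind H F :=
    funext fun g => sum_orb μ hfv.conj g
  rw [h1]
  -- the multiplicity
  have hd : part N' μ' (fun x : H => θ x) 1 = pr θ (ind N (lc μ)) := by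
    have : Fintype N := Fintype.ofFinite N
    rw [part_res hNH μ θ 1, frob' N _ hθ.conj, part_eq, pr_eq]
    congr 1
    refine Finset.sum_congr rfl fun n _ => ?_
    rw [Subgroup.coe_one, one_mul]
    change _ = θ n * ((μ n⁻¹ : ℂˣ) : ℂ)
    rw [map_inv]
  obtain ⟨d, hd2⟩ := hθ.nat N μ
  have hd1 := hs d hd2
  have hθH : HA (fun x : H => θ x) := hθ.res H
  change pr θ (ind N (lc μ)) = d at hd2
  rw [hd2] at hd
  rcases Nat.le_one_iff_eq_zero_or_eq_one.mp hd1 with rfl | rfl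
  · have h2 := hθH.part_zero hμ' (by rw [hd]; simp)
    exact AddSubmonoid.mem_sup_right (goodA_ind hθ.conj H (goodA_zero hθH.conj hμ' h2 hFV hFμ))
  · obtain ⟨lam, h2⟩ := hθH.part_one (Virt.comp hV H.subtype) hμ' (by rw [hd]; simp)
    obtain ⟨k, hk, h3⟩ := goodA_one hθH.conj h2 hFV hFμ
    have hlc : ∀ g, ∀ n : N', lc lam (g * n) = lc lam g * ((μ' n : ℂˣ) : ℂ) := by
      intro g n
      rw [← h2]
      exact part_mul_mem N' μ' _ g n
    obtain ⟨j, hj⟩ : ∃ j : ℕ, pr F (lc lam) = j := by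
      rw [hF, pr_part (Irr.conj (lin_irr lam)) hlc]
      have h4 : (fun x : H => f x) ∈ AddSubmonoid.closure (Irr H) := by
        have h5 : AddSubmonoid.closure (Irr G) ≤ (AddSubmonoid.closure (Irr H)).comap
            (AddMonoidHom.mk' (fun (f : G → ℂ) (x : H) => f x) (fun a b => rfl)) := by
          rw [AddSubmonoid.closure_le]
          intro χ hχ
          exact res_memP hχ
        exact h5 hf
      refine nat_closure (fun η hη => ?_) h4
      by_cases he : η = lc lam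
      · exact ⟨1, by rw [he, pr_self (lin_irr lam)]; simp⟩
      · exact ⟨0, by rw [pr_ne hη (lin_irr lam) he]; simp⟩
    have hjk : k = j := by
      rw [hj] at hk
      exact_mod_cast hk.symm
    rw [hjk, natCast_zsmul] at h3
    have h4 := goodA_ind hθ.conj H h3
    have h5 : ind H F = j • ind H (lc lam) + ind H (F - j • lc lam) := by
      have h6 : F = j • lc lam + (F - j • lc lam) := by abel
      conv_lhs => rw [h6]
      rw [ind_add, ← indHom_apply H (j • lc lam), map_nsmul, indHom_apply]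
    rw [h5]
    refine add_mem (AddSubmonoid.mem_sup_left (nsmul_mem ?_ j)) (AddSubmonoid.mem_sup_right h4)
    exact AddSubmonoid.subset_closure ⟨H, lam, rfl⟩

/-- **Simple abelian new zeros**, in terms of the function of the orders -/
theorem main_simple' {ζ : E} (hζ : IsPrimitiveRoot ζ (Monoid.exponent G))
    (hL : ∀ τ, ∀ χ ∈ Irr G, MeromorphicAt (L τ χ) c ∧ meromorphicOrderAt (L τ χ) c ≠ ⊤)
    (hP : ∀ τ, ∀ χ ∈ Irr G, P τ χ ≠ 0)
    (hmon : ∀ (U : Subgroup G) (ψ : U →* Eˣ),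
      Deligne L P c (ind U (fun u => ((ψ u : Eˣ) : E)))) (τ₀ : E →+* ℂ)
    (N : Subgroup G) [hN : N.Normal]
    (hK : ∀ k ∈ ⁅N, N⁆, (theta (ords (L τ₀) c) : G → ℂ) k = (theta (ords (L τ₀) c) : G → ℂ) 1)
    (hs : ∀ μ : N →* ℂˣ, μ ≠ 1 → ∀ d : ℕ,
      pr (theta (ords (L τ₀) c) : G → ℂ) (ind N (lc μ)) = d → d ≤ 1)
    (hold : ∀ (W : Type) [AddCommGroup W] [Module E W] [FiniteDimensional E W]
      (σ : Representation E G W), (∀ k ∈ N, ∀ w, σ k w = w) → Deligne L P c σ.character)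
    {V : Type} [AddCommGroup V] [Module E V] [FiniteDimensional E V] (ρ : Representation E G V) :
    Deligne L P c ρ.character := by
  classical
  have hθ := ha_ords hζ hL hmon τ₀
  refine main_grow' hζ hL hP (fun U ψ _ => hmon U ψ) τ₀ ⁅N, N⁆ 1 ?_ ?_ ρ
  swap
  · intro k hk
    rw [hK k hk]
    simp
  intro V _ _ _ ρ hρ
  have hρ' : ∀ k ∈ ⁅N, N⁆, ρ k = 1 := by
    intro k hk
    refine LinearMap.ext fun v => ?_
    have := hρ k hk v
    simpa using this
  set f : G → ℂ := fun g => τ₀ (ρ.character g) with hfd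
  have hf : f ∈ AddSubmonoid.closure (Irr G) := base_change τ₀ ρ
  have hfK : ∀ g, ∀ k ∈ ⁅N, N⁆, f (g * k) = f g := by
    intro g k hk
    change τ₀ (LinearMap.trace E V (ρ (g * k))) = τ₀ (LinearMap.trace E V (ρ g))
    rw [map_mul, hρ' k hk, mul_one]
  have : Fintype (N →* ℂˣ) := Fintype.ofFinite _
  -- the new part
  let S : AddSubmonoid (G → ℂ) := MonPA G ⊔ (GoodA (theta (ords (L τ₀) c) : G → ℂ)).toAddSubmonoid
  have h1 : ∑ μ ∈ (Finset.univ : Finset (N →* ℂˣ)).erase 1, part N μ f ∈ S := by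
    refine orb_induct S (fun μ => part N μ f) (fun μ hμ => ?_) _ _ rfl (by simp) ?_
    · have h2 := orbit_mem hθ (theta_virt _) μ (hs μ hμ) hf
      have h3 : ∑ ν ∈ orb μ, part N ν f = fun g => ∑ ν ∈ orb μ, part N ν f g := by
        funext g
        rw [Finset.sum_apply]
      rw [h3]
      exact h2
    · intro μ hμ ν hν
      obtain ⟨x, rfl⟩ := mem_orb.mp hν
      rw [Finset.mem_erase] at hμ ⊢
      refine ⟨fun h => hμ.1 ?_, Finset.mem_univ _⟩
      have h2 : cmu x⁻¹ (cmu x μ) = cmu x⁻¹ 1 := by rw [h]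
      rw [← cmu_mul, inv_mul_cancel, cmu_one] at h2
      rw [h2]
      ext n
      rw [cmu_apply, MonoidHom.one_apply, MonoidHom.one_apply]
  obtain ⟨a, ha, s, hsG, has⟩ := AddSubmonoid.mem_sup.mp h1
  -- the old part
  obtain ⟨W, σ, hσ, hσc⟩ := isotypic τ₀ N 1 ρ
  obtain ⟨e₁, he₁⟩ := (hold W σ (fun k hk w => by
    have := hσ k hk w
    simpa using this)).delZ fun τ => decomp_of_closure (base_change τ σ)
  obtain ⟨fa, ea, ha1, ha2⟩ := monA_del hζ hL hP hmon τ₀ ha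
  obtain ⟨fs, es, hs1, -, hs2⟩ := goodA_unit hζ hL hP hmon τ₀ hsG
  have hσc' : ∀ g, τ₀ (σ.character g) = inv N f g := by
    intro g
    rw [hσc]
    have h2 : ((Units.map τ₀.toMonoidHom).comp (1 : G →* Eˣ)) = 1 := by
      ext x
      simp
    rw [h2]
    change inv N (fun g => τ₀ (ρ.character g) * (((1 : G →* ℂˣ)⁻¹ g : ℂˣ) : ℂ)) g
      * (((1 : G →* ℂˣ) g : ℂˣ) : ℂ) = _
    simp [hfd]
  have h2 : ρ.character = σ.character + (fa + fs) := by
    funext g
    apply τ₀.injective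
    rw [Pi.add_apply, Pi.add_apply, map_add, map_add, ha1, hs1, hσc']
    have h3 : a g + s g = ∑ μ ∈ (Finset.univ : Finset (N →* ℂˣ)).erase 1, part N μ f g := by
      have h4 := congrFun has g
      rw [Finset.sum_apply] at h4
      exact h4
    rw [h3, ← part_one, Finset.add_sum_erase Finset.univ (fun μ => part N μ f g)
      (Finset.mem_univ 1), sum_part N hfK]
  rw [h2]
  exact (he₁.add hL hP (ha2.add hL hP hs2)).deligne

end Pool.Agent.R389
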