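import Mathlib
import Pool.Agent.R389.Simple

/-!
# Growth of the order of vanishing for rational coefficients
-/

set_option autoImplicit false
set_option linter.unusedSectionVars false

namespace Pool.Agent.R389

open Pool.Agent.H302R2 Pool.Agent.H302R3 Pool.Agent.H541R3.ART Pool.Agent.W446.AS Filter Topology

variable {G : Type} [Group G] [Finite G]

lemma newA_goodA {θ : G → ℂ} (hθ : HT θ) {K : Subgroup G} (hK : ∀ k ∈ K, θ k = θ 1) :
    NewA K ≤ GoodA θ := by
  rw [NewA, AddSubgroup.closure_le]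
  rintro f ⟨U, ψ, hU, ⟨u, hu, hne⟩, rfl⟩
  exact AddSubgroup.subset_closure ⟨U, ψ, rfl,
    hθ.ortho (lam := 1) (fun k hk => by simp [hK k hk]) hU hu (by simpa using hne)⟩

lemma inv_memP (K : Subgroup G) [K.Normal] {f : G → ℂ} (hf : f ∈ AddSubmonoid.closure (Irr G)) :
    inv K f ∈ AddSubmonoid.closure (Irr G) := by
  have h1 : AddSubmonoid.closure (Irr G) ≤ (AddSubmonoid.closure (Irr G)).comap
      (invHom K : (G → ℂ) →+ (G → ℂ)) := by
    rw [AddSubmonoid.closure_le]
    intro χ hχ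
    rw [SetLike.mem_coe, AddSubmonoid.mem_comap, invHom_apply]
    rcases irr_inv K hχ with h | ⟨-, h⟩
    · rw [inv_of_const _ h]
      exact AddSubmonoid.subset_closure hχ
    · rw [h]
      exact zero_mem _
  exact h1 hf

lemma inv_inv_le {K N : Subgroup G} [K.Normal] [N.Normal] (h : K ≤ N) (f : G → ℂ) :
    inv N (inv K f) = inv N f := by
  classical
  have : Fintype N := Fintype.ofFinite N
  have : Fintype K := Fintype.ofFinite K
  funext g
  rw [inv_eq, inv_eq]
  congr 1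
  have h1 : ∀ n : N, inv K f (g * n) = (Nat.card K : ℂ)⁻¹ * ∑ k : K, f (g * n * k) :=
    fun n => inv_eq K f _
  rw [Finset.sum_congr rfl (fun n _ => h1 n), ← Finset.mul_sum, Finset.sum_comm]
  have h2 : ∀ k : K, ∑ n : N, f (g * n * k) = ∑ n : N, f (g * n) := by
    intro k
    rw [← Equiv.sum_comp (Equiv.mulRight (⟨k, h k.2⟩ : N)) (fun n : N => f (g * n))]
    refine Finset.sum_congr rfl fun n _ => ?_
    simp only [Equiv.coe_mulRight, Subgroup.coe_mul, mul_assoc]
  rw [Finset.sum_congr rfl (fun k _ => h2 k), Finset.sum_const, Finset.card_univ, nsmul_eq_mul,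
    ← Nat.card_eq_fintype_card, ← mul_assoc, inv_mul_cancel₀ card_ne, one_mul]

/-- the new part of a character is a sum of monomial characters and a good virtual character -/
theorem core_simple {θ : G → ℂ} (hθ : HA θ) (hV : Virt θ) {N : Subgroup G} [hN : N.Normal]
    (hK : ∀ k ∈ ⁅N, N⁆, θ k = θ 1)
    (hs : ∀ μ : N →* ℂˣ, μ ≠ 1 → ∀ d : ℕ, pr θ (ind N (lc μ)) = d → d ≤ 1) {f : G → ℂ}
    (hf : f ∈ AddSubmonoid.closure (Irr G)) :
    f - inv N f ∈ MonPA G ⊔ (GoodA θ).toAddSubmonoid := by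
  classical
  let K : Subgroup G := ⁅N, N⁆
  have hKN : K ≤ N := Subgroup.commutator_le_left N N
  have : Fintype (N →* ℂˣ) := Fintype.ofFinite _
  let S : AddSubmonoid (G → ℂ) := MonPA G ⊔ (GoodA θ).toAddSubmonoid
  have hfK := inv_memP K hf
  have h1 : ∑ μ ∈ (Finset.univ : Finset (N →* ℂˣ)).erase 1, part N μ (inv K f) ∈ S := by
    refine orb_induct S (fun μ => part N μ (inv K f)) (fun μ hμ => ?_) _ _ rfl (by simp) ?_
    · have h2 := orbit_mem hθ hV μ (hs μ hμ) hfK
      have h3 : ∑ ν ∈ orb μ, part N ν (inv K f) = fun g => ∑ ν ∈ orb μ, part N ν (inv K f) g := by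
        funext g
        rw [Finset.sum_apply]
      rw [h3]
      exact h2
    · intro μ hμ ν hν
      obtain ⟨x, rfl⟩ := mem_orb.mp hν
      rw [Finset.mem_erase] at hμ ⊢
      refine ⟨fun h => hμ.1 ?_, Finset.mem_univ _⟩
      have h2 : cmu x⁻¹ (cmu x μ) = cmu x⁻¹ 1 := by rw [h]
      rw [← cmu_mul, inv_mul_cancel, cmu_one] at h2
      rw [h2]
      ext n
      rw [cmu_apply, MonoidHom.one_apply, MonoidHom.one_apply]
  have h2 : ∑ μ ∈ (Finset.univ : Finset (N →* ℂˣ)).erase 1, part N μ (inv K f)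
      = inv K f - inv N f := by
    funext g
    rw [Finset.sum_apply, Pi.sub_apply]
    have h3 := sum_part N (f := inv K f) (fun g k hk => inv_mul_mem K f g hk) g
    rw [← Finset.add_sum_erase Finset.univ (fun μ => part N μ (inv K f) g) (Finset.mem_univ 1),
      part_one, inv_inv_le hKN] at h3
    rw [← h3]
    ring
  rw [h2] at h1
  have h3 : f - inv K f ∈ GoodA θ := by
    refine newA_goodA hθ.hs.ht hK (relative_brauer K (sub_mem (S := AddSubgroup (G → ℂ))
      (virt_of_closure hf) (virt_inv K (virt_of_closure hf))) ?_)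
    have h4 : inv K (f - inv K f) = inv K f - inv K (inv K f) := map_sub (invHom K) _ _
    rw [h4, inv_of_const K (f := inv K f) (fun g k hk => inv_mul_mem K f g hk), sub_self]
  have h4 : f - inv N f = (f - inv K f) + (inv K f - inv N f) := by abel
  rw [h4]
  exact add_mem (AddSubmonoid.mem_sup_right h3) h1

section del

variable {E : Type} [Field E]
  {L : (E →+* ℂ) → (G → ℂ) → ℂ → ℂ} {P : (E →+* ℂ) → (G → ℂ) → ℂ} {c : ℂ}

/-- the conclusion for one character -/
lemma finishA {ζ : E} (hζ : IsPrimitiveRoot ζ (Monoid.exponent G))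
    (hL : ∀ τ, ∀ χ ∈ Irr G, MeromorphicAt (L τ χ) c ∧ meromorphicOrderAt (L τ χ) c ≠ ⊤)
    (hP : ∀ τ, ∀ χ ∈ Irr G, P τ χ ≠ 0)
    (hmon : ∀ (U : Subgroup G) (ψ : U →* Eˣ),
      Deligne L P c (ind U (fun u => ((ψ u : Eˣ) : E)))) (τ₀ : E →+* ℂ)
    {F F₀ : G → E} {e₀ : E} (h0 : DelZ L P c F₀ e₀)
    (hs : (fun g => τ₀ (F g)) - (fun g => τ₀ (F₀ g))
      ∈ MonPA G ⊔ (GoodA (theta (ords (L τ₀) c) : G → ℂ)).toAddSubmonoid) :
    Deligne L P c F := by
  obtain ⟨a, ha, s, hsG, has⟩ := AddSubmonoid.mem_sup.mp hs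
  obtain ⟨fa, ea, ha1, ha2⟩ := monA_del hζ hL hP hmon τ₀ ha
  obtain ⟨fs, es, hs1, -, hs2⟩ := goodA_unit hζ hL hP hmon τ₀ hsG
  have h1 : F = F₀ + (fa + fs) := by
    funext g
    apply τ₀.injective
    have h2 := congrFun has g
    change a g + s g = τ₀ (F g) - τ₀ (F₀ g) at h2
    rw [Pi.add_apply, Pi.add_apply, map_add, map_add, ha1, hs1, h2]
    ring
  rw [h1]
  exact (h0.add hL hP (ha2.add hL hP hs2)).deligne

end del

end Pool.Agent.R389
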