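import Mathlib
import Pool.Agent.R389.Sol
import Pool.Agent.R389.Del

/-!
# Solomon's induction theorem at one prime, parity data
-/

set_option autoImplicit false
set_option linter.unusedSectionVars false

namespace Pool.Agent.R389

open Pool.Agent.H302R2 Pool.Agent.H302R3 Pool.Agent.H541R3.ART Pool.Agent.W446.AS MulAction

section sol

variable (p : ℕ) (G : Type) [Group G] [Finite G]

/-- the group generated by permutation characters of `p`-hyperelementary subgroups -/
def SolP : AddSubgroup (G → ℂ) :=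
  AddSubgroup.closure {f | ∃ U : Subgroup G, HypP p U ∧ f = ind U (fun _ => 1)}

variable {p G}

lemma count_memP {f : G → ℕ} (hf : HypPCount p f) :
    (fun g => (f g : ℂ)) ∈ SolP p G := by
  classical
  obtain ⟨X, _, _, hX, hfX⟩ := hf
  have : Fintype G := Fintype.ofFinite _
  have : Fintype X := Fintype.ofFinite _
  let mk : X → Quotient (orbitRel G X) := Quotient.mk _
  have h1 : (fun g => (f g : ℂ)) = ∑ ω : Quotient (orbitRel G X),
      ind (stabilizer G ω.out) (fun _ => (1 : ℂ)) := by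
    funext g
    rw [Finset.sum_apply]
    have h2 : (f g : ℂ) = ∑ x : X, if g • x = x then (1 : ℂ) else 0 := by
      rw [hfX, ← Finset.sum_filter, Finset.sum_const, nsmul_eq_mul, mul_one,
        Nat.card_eq_fintype_card, Fintype.card_subtype]
    rw [h2, ← Finset.sum_fiberwise_of_maps_to (s := Finset.univ) (t := Finset.univ)
      (g := mk) (fun _ _ => Finset.mem_univ _)]
    refine Finset.sum_congr rfl fun ω _ => ?_
    rw [ind_eq]
    have h3 : ∀ y : G, ext (stabilizer G ω.out) (fun _ => (1 : ℂ)) (y⁻¹ * g * y)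
        = (fun x : X => if g • x = x then (1 : ℂ) else 0) (y • ω.out) := by
      intro y
      have h4 : y⁻¹ * g * y ∈ stabilizer G ω.out ↔ g • y • ω.out = y • ω.out := by
        rw [mem_stabilizer_iff, mul_smul, mul_smul, inv_smul_eq_iff]
      simp only
      by_cases h : y⁻¹ * g * y ∈ stabilizer G ω.out
      · rw [ext_mem _ _ h, if_pos (h4.mp h)]
      · rw [ext_not _ _ h, if_neg (fun h' => h (h4.mpr h'))]
    rw [Finset.sum_congr rfl (fun y _ => h3 y)]
    have hmk : ∀ y : G, mk (y • ω.out) = ω := by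
      intro y
      have h5 : mk (y • ω.out) = mk ω.out := Quotient.sound (orbitRel_apply.mpr ⟨y, rfl⟩)
      rw [h5]; exact Quotient.out_eq ω
    rw [← Finset.sum_fiberwise_of_maps_to (s := (Finset.univ : Finset G))
      (t := Finset.univ.filter (fun x => mk x = ω)) (g := fun y => y • ω.out)
      (fun y _ => Finset.mem_filter.mpr ⟨Finset.mem_univ _, hmk y⟩), Finset.mul_sum]
    refine Finset.sum_congr rfl fun x hx => ?_
    have hx1 : mk x = mk ω.out := by
      rw [(Finset.mem_filter.mp hx).2]; exact (Quotient.out_eq ω).symm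
    obtain ⟨z, hz⟩ := orbitRel_apply.mp (Quotient.exact hx1)
    simp only at hz
    rw [Finset.sum_congr rfl (g := fun _ => if g • x = x then (1 : ℂ) else 0)
      (fun y hy => by rw [(Finset.mem_filter.mp hy).2]), Finset.sum_const, nsmul_eq_mul]
    have hcard : (Finset.univ.filter (fun y : G => y • ω.out = x)).card
        = Nat.card (stabilizer G ω.out) := by
      rw [← Fintype.card_subtype, ← Nat.card_eq_fintype_card]
      refine Nat.card_congr ⟨fun y => ⟨z⁻¹ * y, ?_⟩, fun s => ⟨z * s, ?_⟩, ?_, ?_⟩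
      · rw [mem_stabilizer_iff, mul_smul, y.2, ← hz, inv_smul_smul]
      · rw [mul_smul, mem_stabilizer_iff.mp s.2, hz]
      · intro y; apply Subtype.ext; simp
      · intro s; apply Subtype.ext; simp
    rw [hcard, ← mul_assoc, inv_mul_cancel₀ card_ne, one_mul]
  rw [h1]
  refine sum_mem fun ω _ => AddSubgroup.subset_closure ⟨_, hX ω.out, rfl⟩

/-- integral multiples of the trivial character -/
lemma exists_constP (hp : p.Prime) :
    ∃ N : ℤ, ¬ (p : ℤ) ∣ N ∧ N • (fun _ => 1 : G → ℂ) ∈ SolP p G := by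
  classical
  have : Fintype G := Fintype.ofFinite _
  obtain ⟨F, hF, hF'⟩ := exists_all_prime_to (G := G) hp
  let Q : Polynomial ℤ := ∏ g : G, (Polynomial.X - Polynomial.C (F g : ℤ))
  refine ⟨Q.coeff 0, ?_, ?_⟩
  · rw [Polynomial.coeff_zero_eq_eval_zero, Polynomial.eval_prod]
    intro h
    obtain ⟨g, -, hg⟩ := (Prime.dvd_finsetProd_iff (Nat.prime_iff_prime_int.mp hp) _).mp h
    simp only [Polynomial.eval_sub, Polynomial.eval_X, Polynomial.eval_C, zero_sub,
      dvd_neg] at hg
    exact hF' g (by exact_mod_cast hg)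
  · have h1 : Q.coeff 0 • (fun _ => 1 : G → ℂ)
        = - ∑ i ∈ Finset.range Q.natDegree, Q.coeff (i + 1) • (fun g => ((F g ^ (i + 1) : ℕ) : ℂ)) := by
      funext x
      have h2 : Q.eval (F x : ℤ) = 0 := by
        rw [Polynomial.eval_prod]
        exact Finset.prod_eq_zero (Finset.mem_univ x) (by simp)
      rw [Polynomial.eval_eq_sum_range, Finset.sum_range_succ'] at h2
      have h3 : Q.coeff 0 = - ∑ i ∈ Finset.range Q.natDegree, Q.coeff (i + 1) * (F x : ℤ) ^ (i + 1) := by
        rw [pow_zero, mul_one] at h2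
        linarith
      simp only [Pi.smul_apply, Pi.neg_apply, Finset.sum_apply, zsmul_eq_mul, mul_one]
      rw [h3]
      push_cast
      rfl
    rw [h1]
    exact neg_mem (sum_mem fun i _ => zsmul_mem (count_memP (hF.pow i)) _)

end sol

section par

/-- multiplicative functions on virtual characters, trivial on sums of dual pairs and on the
dihedral characters at `q` -/
structure Par (q : ℕ) {G : Type} [Group G] [Finite G] (Δ : (G → ℂ) → ℂˣ) : Prop where
  add : ∀ {f f' : G → ℂ}, Virt f → Virt f' → Δ (f + f') = Δ f * Δ f'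
  dual : ∀ {f : G → ℂ}, Virt f → Δ f * Δ (fun g => f g⁻¹) = 1
  gal : ∀ (N : Subgroup G) (ψ : N →* ℂˣ) (k : ℕ), k.Coprime q → (∀ n : N, ψ n ^ k = 1) →
    (∀ g, ind N (fun n => ((ψ n : ℂˣ) : ℂ)) g⁻¹ = ind N (fun n => ((ψ n : ℂˣ) : ℂ)) g) →
    Δ (ind N (fun n => ((ψ n : ℂˣ) : ℂ) ^ q)) = Δ (ind N (fun n => ((ψ n : ℂˣ) : ℂ)))
  dih : q ≠ 2 → ∀ (N : Subgroup G) (h : G) (ψ : N →* ℂˣ), (∀ n : G, n ∈ N ↔ h * n * h⁻¹ ∈ N) → h ∉ N →
    h * h ∈ N → (∀ n : N, ψ n ^ q = 1) → (∀ n n' : N, (n' : G) = h * n * h⁻¹ → ψ n' = (ψ n)⁻¹) →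
    Δ (ind N (fun n => ((ψ n : ℂˣ) : ℂ)) + ind N (fun _ => 1)) = 1

variable {q : ℕ} {G : Type} [Group G] [Finite G] {Δ : (G → ℂ) → ℂˣ}

lemma ind_dual (H : Subgroup G) (f : H → ℂ) :
    ind H (fun h => f h⁻¹) = fun g => ind H f g⁻¹ := by
  classical
  have : Fintype G := Fintype.ofFinite _
  funext g
  rw [ind_eq, ind_eq]
  congr 1
  refine Finset.sum_congr rfl fun x _ => ?_
  have h1 : x⁻¹ * g⁻¹ * x = (x⁻¹ * g * x)⁻¹ := by group
  by_cases h : x⁻¹ * g * x ∈ H
  · have h2 : x⁻¹ * g⁻¹ * x ∈ H := by rw [h1]; exact H.inv_mem h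
    rw [ext_mem _ _ h, ext_mem _ _ h2]
    congr 1
    apply Subtype.ext
    exact h1.symm
  · have h2 : x⁻¹ * g⁻¹ * x ∉ H := by
      rw [h1]; exact fun h3 => h (by simpa using H.inv_mem h3)
    rw [ext_not _ _ h, ext_not _ _ h2]

lemma ind_one_ind (U : Subgroup G) (V : Subgroup U) :
    ind U (ind V (fun _ => (1 : ℂ))) = ind (V.map U.subtype) (fun _ => 1) := by
  rw [ind_ind]; rfl

lemma Par.restrict (h : Par q Δ) (U : Subgroup G) : Par q (fun f : U → ℂ => Δ (ind U f)) where
  add hf hf' := by rw [ind_add]; exact h.add (virt_ind U hf) (virt_ind U hf')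
  dual hf := by rw [ind_dual]; exact h.dual (virt_ind U hf)
  gal N ψ k hk hψ hr := by
    have hr' : ∀ g, ind U (ind N (fun n => ((ψ n : ℂˣ) : ℂ))) g⁻¹ =
        ind U (ind N (fun n => ((ψ n : ℂˣ) : ℂ))) g := by
      intro g
      have h1 := congrFun (ind_dual U (ind N (fun n => ((ψ n : ℂˣ) : ℂ)))) g
      rw [← h1]
      exact congrArg (fun F => ind U F g) (funext hr)
    rw [ind_ind] at hr' ⊢
    rw [ind_ind]
    let e := (N.equivMapOfInjective U.subtype U.subtype_injective).symm
    exact h.gal (N.map U.subtype) (ψ.comp e.toMonoidHom) k hk (fun n => hψ _) hr'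
  dih hq N t ψ h1 h2 h3 h4 h5 := by
    rw [ind_add, ind_one_ind, ind_ind]
    let e := (N.equivMapOfInjective U.subtype U.subtype_injective).symm
    have key : ∀ x : N.map U.subtype, (((e x : N) : U) : G) = x := by
      intro x
      have := N.coe_equivMapOfInjective_apply U.subtype U.subtype_injective (e x)
      rw [MulEquiv.apply_symm_apply] at this
      exact this.symm
    refine h.dih hq (N.map U.subtype) t (ψ.comp e.toMonoidHom) ?_ ?_ ?_ ?_ ?_
    · intro n
      constructor
      · rintro ⟨y, hy, rfl⟩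
        exact ⟨t * y * t⁻¹, (h1 y).mp hy, by simp⟩
      · rintro ⟨y, hy, hyn⟩
        have hy' : t * (t⁻¹ * y * t) * t⁻¹ = y := by group
        refine ⟨t⁻¹ * y * t, (h1 _).mpr (by rw [hy']; exact hy), ?_⟩
        have hyn' : (y : G) = t * n * (t : G)⁻¹ := hyn
        simp only [Subgroup.coe_subtype, Subgroup.coe_mul, Subgroup.coe_inv]
        rw [hyn', mul_assoc (t : G), inv_mul_cancel_left, inv_mul_cancel_right]
    · rintro ⟨y, hy, hyt⟩
      exact h2 (by rwa [← Subtype.ext hyt])
    · exact ⟨t * t, h3, by simp⟩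
    · intro n
      exact h4 _
    · intro n n' hnn
      refine h5 _ _ ?_
      apply Subtype.ext
      change (((e n' : N) : U) : G) = _
      rw [key n', hnn]
      simp only [Subgroup.coe_mul, Subgroup.coe_inv]
      change _ = (t : G) * (((e n : N) : U) : G) * (t : G)⁻¹
      rw [key n]

lemma Par.zero (h : Par q Δ) : Δ 0 = 1 := by
  have h1 := h.add (zero_mem _) (zero_mem _) (f := 0) (f' := 0)
  rw [add_zero] at h1
  exact (left_eq_mul.mp h1)

lemma Par.sum (h : Par q Δ) {ι : Type*} (s : Finset ι) {F : ι → G → ℂ} (hF : ∀ i ∈ s, Virt (F i)) :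
    Δ (∑ i ∈ s, F i) = ∏ i ∈ s, Δ (F i) := by
  classical
  induction s using Finset.induction_on with
  | empty => simpa using h.zero
  | insert a s ha ih =>
    rw [Finset.sum_insert ha, Finset.prod_insert ha, h.add (hF a (Finset.mem_insert_self _ _)),
      ih fun i hi => hF i (Finset.mem_insert_of_mem hi)]
    exact sum_mem fun i hi => hF i (Finset.mem_insert_of_mem hi)

/-- linear characters are virtual characters -/
lemma virt_lin {H : Type} [Group H] [Finite H] (ψ : H →* ℂˣ) : Virt (fun h => ((ψ h : ℂˣ) : ℂ)) :=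
  AddSubgroup.subset_closure (lin_irr ψ)

lemma virt_one {H : Type} [Group H] [Finite H] : Virt (fun _ : H => (1 : ℂ)) := by
  have := virt_lin (1 : H →* ℂˣ)
  simpa using this

end par

end Pool.Agent.R389
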