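import Mathlib
import Pool.Agent.R389.PPa

/-!
# Groups acting by affine maps on `Z/q`
-/

set_option autoImplicit false
set_option linter.unusedSectionVars false

namespace Pool.Agent.R389

open Pool.Agent.H302R2 Pool.Agent.H302R3 Pool.Agent.H541R3.ART Pool.Agent.W446.AS

lemma sum_fib {A B : Type} [Fintype A] [Fintype B] [DecidableEq B] (f : A → B) (n : ℕ)
    (hn : ∀ b, (Finset.univ.filter (fun a => f a = b)).card = n) (F : B → ℂ) :
    ∑ a, F (f a) = n * ∑ b, F b := by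
  rw [← Finset.sum_fiberwise_of_maps_to (s := Finset.univ) (t := Finset.univ) (g := f)
    (fun _ _ => Finset.mem_univ _), Finset.mul_sum]
  refine Finset.sum_congr rfl fun b _ => ?_
  rw [Finset.sum_congr rfl (g := fun _ => F b) (fun a ha => by rw [(Finset.mem_filter.mp ha).2]),
    Finset.sum_const, hn b, nsmul_eq_mul]

section aff

variable {U : Type} [Group U] [Finite U] {q : ℕ} [Fact q.Prime] (χ : U →* (ZMod q)ˣ)
  (β : U → ZMod q)

/-- an action of `U` on `Z/q` by the affine maps `y ↦ χ u * y + β u` -/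
structure Aff : Prop where
  mul : ∀ u v, β (u * v) = β u + χ u * β v
  surj : ∃ n, χ n = 1 ∧ β n ≠ 0

variable {χ β} (h : Aff χ β)
include h

lemma Aff.one : β 1 = 0 := by
  have := h.mul 1 1
  rw [mul_one, map_one, Units.val_one, one_mul] at this
  exact (left_eq_add.mp this)

lemma Aff.inv (v : U) : β v⁻¹ = - ((χ v)⁻¹ : (ZMod q)ˣ) * β v := by
  have h1 := h.mul v v⁻¹
  rw [mul_inv_cancel, h.one] at h1
  have h2 : ((χ v)⁻¹ : (ZMod q)ˣ) * ((χ v : (ZMod q)ˣ) : ZMod q) = 1 := by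
    rw [← Units.val_mul, inv_mul_cancel, Units.val_one]
  linear_combination ((χ v)⁻¹ : (ZMod q)ˣ) * (-h1) - β v⁻¹ * h2

lemma Aff.conj (v x : U) : β (v⁻¹ * x * v) =
    ((χ v)⁻¹ : (ZMod q)ˣ) * (β x + ((χ x : ZMod q) - 1) * β v) := by
  rw [h.mul, h.mul, h.inv, map_mul, map_inv]
  push_cast
  ring

/-- the stabilizer of `0` -/
def Aff.stab : Subgroup U where
  carrier := {u | β u = 0}
  one_mem' := h.one
  mul_mem' {a b} ha hb := by
    simp only [Set.mem_ofPred_eq] at ha hb ⊢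
    rw [h.mul, ha, hb, mul_zero, add_zero]
  inv_mem' {a} ha := by
    simp only [Set.mem_ofPred_eq] at ha ⊢
    rw [h.inv, ha, mul_zero]

lemma Aff.mem_stab {u : U} : u ∈ h.stab ↔ β u = 0 := Iff.rfl

lemma Aff.pow {n : U} (hn : χ n = 1) (j : ℕ) : β (n ^ j) = j * β n := by
  induction j with
  | zero => simp [h.one]
  | succ j ih => rw [pow_succ', h.mul, hn, ih]; push_cast; ring

lemma Aff.exists_val (y : ZMod q) : ∃ v, χ v = 1 ∧ β v = y := by
  obtain ⟨n, hn, hn0⟩ := h.surj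
  refine ⟨n ^ (y / β n).val, ?_, ?_⟩
  · rw [map_pow, hn, one_pow]
  · rw [h.pow hn, ZMod.natCast_val, ZMod.cast_id, div_mul_cancel₀ _ hn0]

lemma Aff.fiber [Fintype U] (y : ZMod q) :
    (Finset.univ.filter (fun v => β v = y)).card = Nat.card h.stab := by
  classical
  obtain ⟨v, -, hv⟩ := h.exists_val y
  rw [← Fintype.card_subtype, ← Nat.card_eq_fintype_card]
  refine Nat.card_congr ⟨fun u => ⟨v⁻¹ * u, ?_⟩, fun s => ⟨v * s, ?_⟩, ?_, ?_⟩
  · rw [h.mem_stab, h.mul, h.inv, u.2, hv, map_inv]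
    ring
  · rw [h.mul, h.mem_stab.mp s.2, mul_zero, add_zero, hv]
  · intro u; apply Subtype.ext; simp
  · intro s; apply Subtype.ext; simp

lemma Aff.ind_stab (x : U) : ind h.stab (fun _ => (1 : ℂ)) x =
    ∑ y : ZMod q, if β x + ((χ x : ZMod q) - 1) * y = 0 then (1 : ℂ) else 0 := by
  classical
  have : Fintype U := Fintype.ofFinite _
  rw [ind_eq]
  have h1 : ∀ v : U, ext h.stab (fun _ => (1 : ℂ)) (v⁻¹ * x * v) =
      (fun y => if β x + ((χ x : ZMod q) - 1) * y = 0 then (1 : ℂ) else 0) (β v) := by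
    intro v
    have h2 : v⁻¹ * x * v ∈ h.stab ↔ β x + ((χ x : ZMod q) - 1) * β v = 0 := by
      rw [h.mem_stab, h.conj, Units.mul_right_eq_zero]
    by_cases h3 : v⁻¹ * x * v ∈ h.stab
    · rw [ext_mem _ _ h3]
      simp only
      rw [if_pos (h2.mp h3)]
    · rw [ext_not _ _ h3]
      simp only
      rw [if_neg (fun h4 => h3 (h2.mpr h4))]
  rw [Finset.sum_congr rfl fun v _ => h1 v, sum_fib β _ h.fiber
    (fun y => if β x + ((χ x : ZMod q) - 1) * y = 0 then (1 : ℂ) else 0), ← mul_assoc,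
    inv_mul_cancel₀ card_ne, one_mul]

/-- the characters of the kernel -/
noncomputable def Aff.psi (t : ZMod q) : χ.ker →* ℂˣ :=
  MonoidHom.toHomUnits
    { toFun := fun n => ZMod.stdAddChar (t * β n)
      map_one' := by simp [h.one]
      map_mul' := by
        intro a b
        have h1 : χ a = 1 := a.2
        rw [Subgroup.coe_mul, h.mul, h1, Units.val_one, one_mul, mul_add, AddChar.map_add_eq_mul] }

lemma Aff.psi_apply (t : ZMod q) (n : χ.ker) :
    ((h.psi t n : ℂˣ) : ℂ) = ZMod.stdAddChar (t * β n) := rfl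

lemma Aff.ind_psi_not (t : ZMod q) {x : U} (hx : χ x ≠ 1) :
    ind χ.ker (fun n => ((h.psi t n : ℂˣ) : ℂ)) x = 0 := by
  classical
  have : Fintype U := Fintype.ofFinite _
  rw [ind_eq, Finset.sum_eq_zero, mul_zero]
  intro v _
  rw [ext_not]
  rw [MonoidHom.mem_ker, map_mul, map_mul, map_inv, mul_comm, mul_inv_cancel_left]
  exact hx

lemma Aff.ind_psi [Fintype χ.range] (t : ZMod q) {x : U} (hx : χ x = 1) :
    ind χ.ker (fun n => ((h.psi t n : ℂˣ) : ℂ)) x =
      ∑ s : χ.range, ZMod.stdAddChar (t * (((s : (ZMod q)ˣ) : ZMod q)⁻¹ * β x)) := by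
  classical
  have : Fintype U := Fintype.ofFinite _
  rw [ind_eq]
  have h1 : ∀ v : U, ext χ.ker (fun n => ((h.psi t n : ℂˣ) : ℂ)) (v⁻¹ * x * v) =
      (fun s : χ.range => ZMod.stdAddChar (t * (((s : (ZMod q)ˣ) : ZMod q)⁻¹ * β x)))
        (χ.rangeRestrict v) := by
    intro v
    have h2 : v⁻¹ * x * v ∈ χ.ker := by
      rw [MonoidHom.mem_ker, map_mul, map_mul, map_inv, mul_comm, mul_inv_cancel_left]
      exact hx
    have h3 : β (v⁻¹ * x * v) = ((χ v : (ZMod q)ˣ) : ZMod q)⁻¹ * β x := by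
      rw [h.conj, hx, Units.val_one, sub_self, zero_mul, add_zero, Units.val_inv_eq_inv_val]
    rw [ext_mem _ _ h2, h.psi_apply, Subtype.coe_mk, h3]
    rfl
  have h2 : ∀ s : χ.range, (Finset.univ.filter (fun v => χ.rangeRestrict v = s)).card =
      Nat.card χ.ker := by
    intro s
    obtain ⟨v, hv⟩ := χ.rangeRestrict_surjective s
    rw [← Fintype.card_subtype, ← Nat.card_eq_fintype_card]
    have hk : ∀ u : U, χ.rangeRestrict u = s ↔ v⁻¹ * u ∈ χ.ker := by
      intro u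
      rw [← hv, MonoidHom.mem_ker, map_mul, map_inv, inv_mul_eq_one, Subtype.ext_iff]
      exact eq_comm
    refine Nat.card_congr ⟨fun u => ⟨v⁻¹ * u, (hk u).mp u.2⟩,
      fun s => ⟨v * s, (hk _).mpr (by simp)⟩, ?_, ?_⟩
    · intro u; apply Subtype.ext; simp
    · intro s; apply Subtype.ext; simp
  rw [Finset.sum_congr rfl fun v _ => h1 v, sum_fib χ.rangeRestrict _ h2
    (fun s : χ.range => ZMod.stdAddChar (t * (((s : (ZMod q)ˣ) : ZMod q)⁻¹ * β x))), ← mul_assoc,
    inv_mul_cancel₀ card_ne, one_mul]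

omit h in
lemma sum_cosets {A : Type} [CommGroup A] [Fintype A] (S : Subgroup A) [Fintype S]
    [Fintype (A ⧸ S)] (F : A → ℂ) :
    ∑ c : A ⧸ S, ∑ s : S, F (c.out * (s : A)) = ∑ a, F a := by
  rw [← Fintype.sum_prod_type' (fun (c : A ⧸ S) (s : S) => F (c.out * (s : A)))]
  refine Fintype.sum_bijective (fun x : (A ⧸ S) × S => x.1.out * (x.2 : A)) ⟨?_, ?_⟩ _ _
    (fun _ => rfl)
  · rintro ⟨c, s⟩ ⟨c', s'⟩ hcs
    simp only at hcs
    have h1 : ∀ (c : A ⧸ S) (s : S), ((c.out * (s : A) : A) : A ⧸ S) = c := by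
      intro c s
      rw [QuotientGroup.mk_mul_of_mem _ s.2]
      exact QuotientGroup.out_eq' c
    have h2 : c = c' := by rw [← h1 c s, ← h1 c' s', hcs]
    subst h2
    rw [mul_right_inj] at hcs
    rw [Subtype.ext hcs]
  · intro a
    refine ⟨⟨(a : A ⧸ S), ⟨(a : A ⧸ S).out⁻¹ * a, ?_⟩⟩, by simp⟩
    rw [← QuotientGroup.eq]
    exact QuotientGroup.out_eq' _

lemma Aff.sum_psi [Fintype χ.range] [Fintype ((ZMod q)ˣ ⧸ χ.range)] (x : U) :
    ∑ c : (ZMod q)ˣ ⧸ χ.range,
      ind χ.ker (fun n => ((h.psi ((c.out : (ZMod q)ˣ) : ZMod q) n : ℂˣ) : ℂ)) x =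
    ind h.stab (fun _ => (1 : ℂ)) x - 1 := by
  classical
  have : Fintype U := Fintype.ofFinite _
  have hq : (Fintype.card (ZMod q)) = q := ZMod.card q
  rw [h.ind_stab]
  by_cases hx : χ x = 1
  · rw [Finset.sum_congr rfl fun c _ => h.ind_psi _ hx]
    have h1 : ∀ (c : (ZMod q)ˣ ⧸ χ.range), ∑ s : χ.range,
        ZMod.stdAddChar (((c.out : (ZMod q)ˣ) : ZMod q) * (((s : (ZMod q)ˣ) : ZMod q)⁻¹ * β x)) =
        ∑ s : χ.range, (fun a : (ZMod q)ˣ => (ZMod.stdAddChar (((a : (ZMod q)ˣ) : ZMod q) * β x) : ℂ))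
          (c.out * (s : (ZMod q)ˣ)) := by
      intro c
      rw [← Equiv.sum_comp (Equiv.inv χ.range)]
      refine Finset.sum_congr rfl fun s _ => ?_
      simp only [Equiv.inv_apply, Subgroup.coe_inv, Units.val_inv_eq_inv_val, inv_inv, Units.val_mul]
      rw [mul_assoc]
    rw [Finset.sum_congr rfl fun c _ => h1 c, sum_cosets χ.range
      (fun a : (ZMod q)ˣ => (ZMod.stdAddChar (((a : (ZMod q)ˣ) : ZMod q) * β x) : ℂ))]
    have h2 : ∑ a : (ZMod q)ˣ, (ZMod.stdAddChar (((a : (ZMod q)ˣ) : ZMod q) * β x) : ℂ) =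
        ∑ t : ZMod q, (ZMod.stdAddChar (t * β x) : ℂ) - 1 := by
      rw [← Finset.add_sum_erase Finset.univ (fun t : ZMod q => (ZMod.stdAddChar (t * β x) : ℂ))
        (Finset.mem_univ 0)]
      simp only [zero_mul, AddChar.map_zero_eq_one, add_sub_cancel_left]
      refine Finset.sum_bij (fun (a : (ZMod q)ˣ) _ => (a : ZMod q)) ?_ ?_ ?_ ?_
      · intro a _; simp
      · intro a _ b _ hab; exact Units.ext hab
      · intro b hb
        exact ⟨Units.mk0 b (Finset.ne_of_mem_erase hb), Finset.mem_univ _, rfl⟩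
      · intro a _; rfl
    rw [h2, AddChar.sum_mulShift _ (ZMod.isPrimitive_stdAddChar q), hx]
    simp only [Units.val_one, sub_self, zero_mul, add_zero, Finset.sum_const, Finset.card_univ,
      nsmul_eq_mul, hq]
    split_ifs <;> simp
  · rw [Finset.sum_eq_zero fun c _ => h.ind_psi_not _ hx]
    have hx1 : (χ x : ZMod q) - 1 ≠ 0 := by
      intro h0
      exact hx (Units.ext (by rw [Units.val_one]; exact sub_eq_zero.mp h0))
    rw [Finset.sum_eq_single (- β x / ((χ x : ZMod q) - 1))]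
    · rw [if_pos, sub_self]
      rw [mul_div_cancel₀ _ hx1]; ring
    · intro y _ hy
      rw [if_neg]
      intro h0
      apply hy
      rw [eq_div_iff hx1]
      linear_combination h0
    · intro h0; exact absurd (Finset.mem_univ _) h0

end aff

end Pool.Agent.R389
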