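import Mathlib
import Pool.Agent.R389.PPb

/-!
# Parity data and affine actions
-/

set_option autoImplicit false
set_option linter.unusedSectionVars false

namespace Pool.Agent.R389

open Pool.Agent.H302R2 Pool.Agent.H302R3 Pool.Agent.H541R3.ART Pool.Agent.W446.AS

section steps

variable {U : Type} [Group U] [Finite U] {q l : ℕ} [Fact l.Prime] {Δ : (U → ℂ) → ℂˣ}
  {χ : U →* (ZMod l)ˣ} {β : U → ZMod l}

lemma neg_one_ne (hl2 : l ≠ 2) : (-1 : (ZMod l)ˣ) ≠ 1 := by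
  intro h0
  have h1 := congrArg (Units.val) h0
  rw [Units.val_neg, Units.val_one] at h1
  have hq3 : ((2 : ℕ) : ZMod l) = 0 := by push_cast; linear_combination -h1
  rw [ZMod.natCast_eq_zero_iff] at hq3
  exact hl2 ((Nat.prime_dvd_prime_iff_eq Fact.out Nat.prime_two).mp hq3)

/-- the induced character of `psi t` -/
noncomputable def Aff.F (h : Aff χ β) (t : ZMod l) : U → ℂ :=
  ind χ.ker (fun n => ((h.psi t n : ℂˣ) : ℂ))

lemma Aff.F_virt (h : Aff χ β) (t : ZMod l) : Virt (h.F t) := virt_ind _ (virt_lin _)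

lemma Aff.psi_inv (h : Aff χ β) (t : ZMod l) (n : χ.ker) :
    ((h.psi t n⁻¹ : ℂˣ) : ℂ) = ((h.psi (-t) n : ℂˣ) : ℂ) := by
  rw [h.psi_apply, h.psi_apply]
  have hn : χ n = 1 := n.2
  have h1 : β ((n⁻¹ : χ.ker) : U) = - β n := by
    rw [Subgroup.coe_inv, h.inv, hn]
    simp
  rw [h1]
  congr 1
  ring

lemma Aff.F_dual (h : Aff χ β) (t : ZMod l) : (fun g => h.F t g⁻¹) = h.F (-t) := by
  rw [Aff.F, ← ind_dual]
  simp only [h.psi_inv]
  rfl

lemma Aff.F_range (h : Aff χ β) {s : (ZMod l)ˣ} (hs : s ∈ χ.range) (t : ZMod l) :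
    h.F (s * t) = h.F t := by
  classical
  have : Fintype χ.range := Fintype.ofFinite _
  funext x
  by_cases hx : χ x = 1
  · rw [Aff.F, Aff.F, h.ind_psi _ hx, h.ind_psi _ hx,
      ← Equiv.sum_comp (Equiv.mulLeft (⟨s, hs⟩ : χ.range))]
    refine Finset.sum_congr rfl fun u _ => ?_
    congr 1
    simp only [Equiv.coe_mulLeft, Subgroup.coe_mul, Units.val_mul, mul_inv]
    have hs0 : (s : ZMod l) ≠ 0 := s.ne_zero
    field_simp
  · rw [Aff.F, Aff.F, h.ind_psi_not _ hx, h.ind_psi_not _ hx]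

/-- pairing the characters -/
lemma Par.pairing (hΔ : Par q Δ) (h : Aff χ β) {b : (ZMod l)ˣ} (hb : b ∉ χ.range)
    (hb2 : b * b ∈ χ.range) (hD : ∀ t : (ZMod l)ˣ, Δ (h.F t) * Δ (h.F (b * t)) = 1) :
    Δ (ind h.stab (fun _ => 1)) = Δ (fun _ => 1) := by
  classical
  have : Fintype χ.range := Fintype.ofFinite _
  have : Fintype ((ZMod l)ˣ ⧸ χ.range) := Fintype.ofFinite _
  have e : ind h.stab (fun _ => (1 : ℂ)) = (fun _ => 1) + ∑ c : (ZMod l)ˣ ⧸ χ.range,
      h.F ((c.out : (ZMod l)ˣ) : ZMod l) := by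
    funext x
    rw [Pi.add_apply, Finset.sum_apply]
    have := h.sum_psi x
    simp only [Aff.F]
    rw [this]
    ring
  have hout : ∀ c : (ZMod l)ˣ ⧸ χ.range, Δ (h.F (((((b : (ZMod l)ˣ) : (ZMod l)ˣ ⧸ χ.range) * c).out :
      (ZMod l)ˣ) : ZMod l)) = Δ (h.F ((b : ZMod l) * ((c.out : (ZMod l)ˣ) : ZMod l))) := by
    intro c
    have h1 : ((((b : (ZMod l)ˣ) : (ZMod l)ˣ ⧸ χ.range) * c).out : (ZMod l)ˣ ⧸ χ.range) =
        ((b * c.out : (ZMod l)ˣ) : (ZMod l)ˣ ⧸ χ.range) := by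
      rw [QuotientGroup.out_eq', QuotientGroup.mk_mul, QuotientGroup.out_eq']
    have h2 := QuotientGroup.eq.mp h1.symm
    have h3 : (((((b : (ZMod l)ˣ) : (ZMod l)ˣ ⧸ χ.range) * c).out : (ZMod l)ˣ) : ZMod l) =
        (((b * c.out)⁻¹ * (((b : (ZMod l)ˣ) : (ZMod l)ˣ ⧸ χ.range) * c).out : (ZMod l)ˣ) : ZMod l) *
          ((b : ZMod l) * ((c.out : (ZMod l)ˣ) : ZMod l)) := by
      rw [← Units.val_mul, ← Units.val_mul]
      congr 1
      rw [mul_comm _ (b * c.out), mul_inv_cancel_left]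
    rw [h3, h.F_range h2]
  rw [e, hΔ.add virt_one (sum_mem fun c _ => h.F_virt _), hΔ.sum _ fun c _ => h.F_virt _]
  have h5 : ∏ c : (ZMod l)ˣ ⧸ χ.range, Δ (h.F ((c.out : (ZMod l)ˣ) : ZMod l)) = 1 := by
    refine Finset.prod_involution (fun c _ => ((b : (ZMod l)ˣ) : (ZMod l)ˣ ⧸ χ.range) * c)
      ?_ ?_ ?_ ?_
    · intro c _
      rw [hout c]
      exact hD _
    · intro c _ _ h0
      rw [mul_eq_right, QuotientGroup.eq_one_iff] at h0
      exact hb h0
    · intro c _; exact Finset.mem_univ _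
    · intro c _
      rw [← mul_assoc, ← QuotientGroup.mk_mul, (QuotientGroup.eq_one_iff _).mpr hb2, one_mul]
  rw [h5, mul_one]

/-- pairing dual characters -/
lemma Par.stepN (hΔ : Par q Δ) (h : Aff χ β) (hn : (-1 : (ZMod l)ˣ) ∉ χ.range) :
    Δ (ind h.stab (fun _ => 1)) = Δ (fun _ => 1) := by
  refine hΔ.pairing h hn (by simp) fun t => ?_
  have h1 := hΔ.dual (h.F_virt t)
  rw [h.F_dual] at h1
  rw [Units.val_neg, Units.val_one, neg_one_mul]
  exact h1

/-- pairing conjugate characters -/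
lemma Par.stepP (hΔ : Par q Δ) (h : Aff χ β) (hq : q.Prime) (hlq : l ≠ q)
    (hn : (-1 : (ZMod l)ˣ) ∈ χ.range)
    (hp : ∀ r : ℕ, Odd r → ∀ u : (ZMod l)ˣ, (u : ZMod l) = (q : ZMod l) ^ r → u ∉ χ.range) :
    Δ (ind h.stab (fun _ => 1)) = Δ (fun _ => 1) := by
  have hl : l.Prime := Fact.out
  have hq0 : (q : ZMod l) ≠ 0 := by
    intro h0
    rw [ZMod.natCast_eq_zero_iff] at h0
    exact hlq ((Nat.prime_dvd_prime_iff_eq hl hq).mp h0)
  let P : (ZMod l)ˣ := Units.mk0 (q : ZMod l) hq0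
  have hself : ∀ t : ZMod l, h.F (-t) = h.F t := by
    intro t
    have h1 := h.F_range hn t
    rwa [Units.val_neg, Units.val_one, neg_one_mul] at h1
  have hsq : ∀ t : ZMod l, Δ (h.F t) * Δ (h.F t) = 1 := by
    intro t
    have h1 := hΔ.dual (h.F_virt t)
    rwa [h.F_dual, hself] at h1
  have hP : ∀ t : ZMod l, Δ (h.F ((q : ZMod l) * t)) = Δ (h.F t) := by
    intro t
    have h1 := hΔ.gal χ.ker (h.psi t) l ((Nat.coprime_primes hl hq).mpr hlq) ?_ ?_
    · have e2 : h.F ((q : ZMod l) * t) = ind χ.ker (fun n => ((h.psi t n : ℂˣ) : ℂ) ^ q) := by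
        rw [Aff.F]
        congr 1
        funext n
        rw [h.psi_apply, h.psi_apply, ← AddChar.map_nsmul_eq_pow, nsmul_eq_mul, mul_assoc]
      rw [e2]
      exact h1
    · intro n
      apply Units.ext
      rw [Units.val_pow_eq_pow_val, h.psi_apply, ← AddChar.map_nsmul_eq_pow, nsmul_eq_mul,
        ZMod.natCast_self, zero_mul, AddChar.map_zero_eq_one]
      rfl
    · intro g
      have h2 := congrFun (h.F_dual t) g
      rw [hself] at h2
      exact h2
  have hPn : ∀ (k : ℕ) (t : ZMod l), Δ (h.F ((q : ZMod l) ^ k * t)) = Δ (h.F t) := by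
    intro k
    induction k with
    | zero => intro t; rw [pow_zero, one_mul]
    | succ k ih => intro t; rw [pow_succ', mul_assoc, hP, ih]
  let A := (ZMod l)ˣ ⧸ χ.range
  have hfin : Finite A := inferInstance
  have hpos : 0 < orderOf (P : A) := orderOf_pos _
  have hPv : ∀ k : ℕ, ((P ^ k : (ZMod l)ˣ) : ZMod l) = (q : ZMod l) ^ k := by
    intro k; rw [Units.val_pow_eq_pow_val]; rfl
  have hmem : ∀ k : ℕ, P ^ k ∈ χ.range ↔ orderOf (P : A) ∣ k := by
    intro k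
    rw [orderOf_dvd_iff_pow_eq_one, ← QuotientGroup.mk_pow, QuotientGroup.eq_one_iff]
  have heven : Even (orderOf (P : A)) := by
    rw [← Nat.not_odd_iff_even]
    intro hodd
    exact hp _ hodd _ (hPv _) ((hmem _).mpr dvd_rfl)
  obtain ⟨m, hm⟩ := heven
  refine hΔ.pairing h (b := P ^ m) ?_ ?_ ?_
  · intro hb
    have h1 := Nat.le_of_dvd (by omega) ((hmem m).mp hb)
    omega
  · rw [← pow_add, hmem, hm]
  · intro t
    rw [hPv, hPn]
    exact hsq _

/-- the dihedral relation -/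
lemma Par.stepD (hΔ : Par l Δ) (h : Aff χ β) (hl2 : l ≠ 2) (hn : (-1 : (ZMod l)ˣ) ∈ χ.range)
    (h2 : Δ (ind χ.ker (fun _ => 1)) = 1) :
    Δ (ind h.stab (fun _ => 1)) = Δ (fun _ => 1) := by
  classical
  have : Fintype χ.range := Fintype.ofFinite _
  have : Fintype ((ZMod l)ˣ ⧸ χ.range) := Fintype.ofFinite _
  obtain ⟨t, ht⟩ := hn
  have e : ind h.stab (fun _ => (1 : ℂ)) = (fun _ => 1) + ∑ c : (ZMod l)ˣ ⧸ χ.range,
      h.F ((c.out : (ZMod l)ˣ) : ZMod l) := by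
    funext x
    rw [Pi.add_apply, Finset.sum_apply]
    have := h.sum_psi x
    simp only [Aff.F]
    rw [this]
    ring
  have h3 : ∀ z : ZMod l, Δ (h.F z) = 1 := by
    intro z
    have h4 := hΔ.dih hl2 χ.ker t (h.psi z) ?_ ?_ ?_ ?_ ?_
    · have h4' : Δ (h.F z + ind χ.ker (fun _ => 1)) = 1 := h4
      rw [hΔ.add (h.F_virt z) (virt_ind _ virt_one), h2, mul_one] at h4'
      exact h4'
    · intro n
      rw [MonoidHom.mem_ker, MonoidHom.mem_ker, map_mul, map_mul, map_inv, mul_comm,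
        inv_mul_cancel_left]
    · rw [MonoidHom.mem_ker, ht]; exact neg_one_ne hl2
    · rw [MonoidHom.mem_ker, map_mul, ht]; simp
    · intro n
      apply Units.ext
      rw [Units.val_pow_eq_pow_val, h.psi_apply, ← AddChar.map_nsmul_eq_pow, nsmul_eq_mul,
        ZMod.natCast_self, zero_mul, AddChar.map_zero_eq_one]
      rfl
    · intro n n' hnn
      have hn1 : χ n = 1 := n.2
      have hb : β n' = - β n := by
        have h5 := h.conj t⁻¹ n
        rw [inv_inv, ← hnn, hn1, map_inv, inv_inv, ht] at h5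
        rw [h5]
        simp
      rw [← mul_eq_one_iff_eq_inv]
      apply Units.ext
      rw [Units.val_mul, h.psi_apply, h.psi_apply, ← AddChar.map_add_eq_mul, hb]
      simp
  rw [e, hΔ.add virt_one (sum_mem fun c _ => h.F_virt _), hΔ.sum _ fun c _ => h.F_virt _,
    Finset.prod_eq_one fun c _ => h3 _, mul_one]

end steps

/-- the affine action on `⟨g⟩ P / P` -/
lemma aff_of {U : Type} [Group U] {q : ℕ} [Fact q.Prime] {g : U} {P : Subgroup U}
    (h1 : ∀ u : U, ∃ i : ℤ, ∃ s : U, s ∈ P ∧ u = g ^ i * s)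
    (h2 : ∀ i : ℤ, g ^ i ∈ P → (q : ℤ) ∣ i) (h3 : ∀ u : U, u * g * u⁻¹ ∈ Subgroup.zpowers g) :
    ∃ (χ : U →* (ZMod q)ˣ) (β : U → ZMod q), Aff χ β ∧
      (∀ (u : U) (j : ℤ), u * g * u⁻¹ = g ^ j → ((χ u : (ZMod q)ˣ) : ZMod q) = j) ∧
      (∀ (i : ℤ) (s : U), s ∈ P → β (g ^ i * s) = i) := by
  choose i s hs hu using h1
  have key : ∀ (a b : ℤ) (s s' : U), s ∈ P → s' ∈ P → g ^ a * s = g ^ b * s' →
      (a : ZMod q) = (b : ZMod q) := by
    intro a b s s' hs hs' hab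
    have h3 : g ^ (a - b) = s' * s⁻¹ := by
      rw [sub_eq_neg_add, zpow_add, zpow_neg, eq_mul_inv_iff_mul_eq, mul_assoc, hab,
        inv_mul_cancel_left]
    have h4 := h2 _ (by rw [h3]; exact P.mul_mem hs' (P.inv_mem hs))
    have h5 : ((a - b : ℤ) : ZMod q) = 0 := by
      rw [ZMod.intCast_zmod_eq_zero_iff_dvd]; exact h4
    rw [Int.cast_sub] at h5
    exact sub_eq_zero.mp h5
  have key2 : ∀ a b : ℤ, g ^ a = g ^ b → (a : ZMod q) = (b : ZMod q) := fun a b hab =>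
    key a b 1 1 P.one_mem P.one_mem (by rw [hab])
  have hcj : ∀ u : U, ∃ j : ℤ, u * g * u⁻¹ = g ^ j := by
    intro u
    obtain ⟨j, hj⟩ := h3 u
    exact ⟨j, hj.symm⟩
  choose j hj using hcj
  have hjz : ∀ (u : U) (a : ℤ), u * g ^ a * u⁻¹ = g ^ (j u * a) := by
    intro u a
    rw [zpow_mul, ← hj u, conj_zpow]
  let χ₀ : U →* ZMod q :=
    { toFun := fun u => (j u : ZMod q)
      map_one' := by
        rw [← Int.cast_one]
        apply key2
        rw [← hj 1]; simp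
      map_mul' := by
        intro u v
        rw [← Int.cast_mul]
        apply key2
        rw [← hj (u * v), ← hjz u, ← hj v]
        group }
  have hχ : ∀ u, ((χ₀.toHomUnits u : (ZMod q)ˣ) : ZMod q) = (j u : ZMod q) := fun u => rfl
  have hjc : (j g : ZMod q) = 1 := by
    rw [← Int.cast_one]
    apply key2
    rw [← hj g]; simp
  have hχc : χ₀.toHomUnits g = 1 := Units.ext (by rw [hχ, hjc]; rfl)
  refine ⟨χ₀.toHomUnits, fun u => (i u : ZMod q), ⟨?_, g, hχc, ?_⟩, ?_, ?_⟩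
  · intro u v
    rw [hχ, ← Int.cast_mul, ← Int.cast_add]
    refine key _ _ (s (u * v)) (s u * s v) (hs _) (P.mul_mem (hs u) (hs v)) ?_
    rw [← hu (u * v)]
    have h3 : s u * g ^ (i v) * (s u)⁻¹ = g ^ (j u * i v) := by
      rw [← hjz u]
      have h4 : s u = g ^ (-(i u)) * u := by
        rw [zpow_neg, eq_inv_mul_iff_mul_eq]
        exact (hu u).symm
      have h5 : Commute (g ^ (i u)) (u * g ^ (i v) * u⁻¹) := by
        rw [hjz u]
        exact (Commute.refl g).zpow_zpow _ _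
      have h6 : s u * g ^ (i v) * (s u)⁻¹ = (g ^ (i u))⁻¹ * (u * g ^ (i v) * u⁻¹) * g ^ (i u) := by
        rw [h4, zpow_neg, mul_inv_rev, inv_inv]
        group
      rw [h6, mul_assoc, ← h5.eq, inv_mul_cancel_left]
    rw [zpow_add]
    calc u * v = g ^ (i u) * s u * (g ^ (i v) * s v) := by rw [← hu u, ← hu v]
      _ = g ^ (i u) * (s u * g ^ (i v) * (s u)⁻¹) * (s u * s v) := by group
      _ = _ := by rw [h3]
  · have h3 : ((i g : ℤ) : ZMod q) = ((1 : ℤ) : ZMod q) :=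
      key _ _ (s g) 1 (hs g) P.one_mem (by rw [← hu g]; simp)
    rw [h3, Int.cast_one]
    exact one_ne_zero
  · intro u a ha
    rw [hχ]
    exact key2 _ _ (by rw [← hj u, ha])
  · intro a t ht
    exact key _ _ (s _) t (hs _) ht (hu _).symm

end Pool.Agent.R389
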