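import Mathlib
import Pool.Agent.R389.PPc

/-!
# Parity data: reduction steps
-/

set_option autoImplicit false
set_option linter.unusedSectionVars false

namespace Pool.Agent.R389

open Pool.Agent.H302R2 Pool.Agent.H302R3 Pool.Agent.H541R3.ART Pool.Agent.W446.AS

/-- `x` is conjugate to its inverse and to `x ^ (p ^ r)` for some odd `r` -/
def PReal (p : ℕ) {Q : Type} [Group Q] (x : Q) : Prop :=
  IsConj x x⁻¹ ∧ ∃ r : ℕ, Odd r ∧ IsConj x (x ^ p ^ r)

lemma PReal.map {p : ℕ} {Q Q' : Type} [Group Q] [Group Q'] (f : Q →* Q') {x : Q}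
    (h : PReal p x) : PReal p (f x) := by
  obtain ⟨h1, r, hr, h2⟩ := h
  refine ⟨?_, r, hr, ?_⟩
  · rw [← map_inv]; exact f.map_isConj h1
  · rw [← map_pow]; exact f.map_isConj h2

/-- all elements of odd prime order are `p`-real -/
def AllReal (p : ℕ) (Q : Type) [Group Q] : Prop :=
  ∀ x : Q, (orderOf x).Prime → orderOf x ≠ 2 → PReal p x

lemma AllReal.congr {p : ℕ} {Q Q' : Type} [Group Q] [Group Q'] (e : Q ≃* Q') (h : AllReal p Q) :
    AllReal p Q' := by
  intro x h1 h2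
  have h3 : orderOf (e.symm x) = orderOf x := MulEquiv.orderOf_eq e.symm x
  have h4 := (h (e.symm x) (by rwa [h3]) (by rwa [h3])).map e.toMonoidHom
  have h5 : e.toMonoidHom (e.symm x) = x := e.apply_symm_apply x
  rwa [h5] at h4

section steps

variable {U : Type} [Group U] [Finite U] {q l : ℕ} [Fact l.Prime] {Δ : (U → ℂ) → ℂˣ}
  {χ : U →* (ZMod l)ˣ} {β : U → ZMod l}

lemma Par.step (hΔ : Par q Δ) (h : Aff χ β) (hq : q.Prime) (hl2 : l ≠ 2) {x : U}
    (hlink : ∀ (u : U) (a : ℤ), ((χ u : (ZMod l)ˣ) : ZMod l) = a → u * x * u⁻¹ = x ^ a)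
    (hc : l = q ∨ ¬ PReal q x) (hker : χ.ker ≠ ⊤ → Δ (ind χ.ker (fun _ => 1)) = 1) :
    Δ (ind h.stab (fun _ => 1)) = Δ (fun _ => 1) := by
  by_cases hn : (-1 : (ZMod l)ˣ) ∈ χ.range
  · have hk : χ.ker ≠ ⊤ := by
      intro h3
      obtain ⟨t, ht⟩ := hn
      have h4 : χ t = 1 := MonoidHom.mem_ker.mp (h3 ▸ Subgroup.mem_top t)
      exact neg_one_ne hl2 (by rw [← ht, h4])
    by_cases hlq : l = q
    · subst hlq
      exact hΔ.stepD h hl2 hn (hker hk)
    · refine hΔ.stepP h hq hlq hn ?_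
      rintro r hr u hu ⟨v, hv⟩
      apply hc.resolve_left hlq
      refine ⟨?_, r, hr, ?_⟩
      · obtain ⟨t, ht⟩ := hn
        rw [isConj_iff]
        exact ⟨t, by rw [hlink t (-1) (by rw [ht]; simp), zpow_neg_one]⟩
      · rw [isConj_iff]
        refine ⟨v, ?_⟩
        rw [hlink v ((q ^ r : ℕ) : ℤ) (by rw [hv, hu]; simp), zpow_natCast]
  · exact hΔ.stepN h hn

end steps

lemma link_of {U : Type} [Group U] {l : ℕ} [Fact l.Prime] {g x : U}
    {χ : U →* (ZMod l)ˣ} (h3 : ∀ u : U, u * g * u⁻¹ ∈ Subgroup.zpowers g)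
    (hχ : ∀ (u : U) (j : ℤ), u * g * u⁻¹ = g ^ j → ((χ u : (ZMod l)ˣ) : ZMod l) = j)
    (hx : orderOf x = l) (hxg : x ∈ Subgroup.zpowers g) (u : U) (a : ℤ)
    (ha : ((χ u : (ZMod l)ˣ) : ZMod l) = a) : u * x * u⁻¹ = x ^ a := by
  obtain ⟨b, rfl⟩ := hxg
  obtain ⟨j, hj⟩ := h3 u
  simp only at hj ⊢
  have h1 := hχ u j hj.symm
  rw [ha] at h1
  have h2 : (l : ℤ) ∣ a - j := by
    rw [← ZMod.intCast_zmod_eq_zero_iff_dvd, Int.cast_sub, h1, sub_self]
  have h4 : u * g ^ b * u⁻¹ = (g ^ b) ^ j := by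
    rw [← conj_zpow, ← hj, ← zpow_mul, ← zpow_mul, mul_comm]
  rw [h4]
  have h5 : (g ^ b) ^ (a - j) = 1 := by
    rw [← orderOf_dvd_iff_zpow_eq_one]
    simp only at hx
    rw [hx]; exact h2
  rw [zpow_sub, mul_inv_eq_one] at h5
  exact h5.symm

lemma exists_aff {U : Type} [Group U] [Finite U] (hU : HypP 2 U) {l : ℕ} [Fact l.Prime]
    (hl2 : l ≠ 2) {x : U} (hx : orderOf x = l) :
    ∃ (χ : U →* (ZMod l)ˣ) (β : U → ZMod l), Aff χ β ∧
      ∀ (u : U) (a : ℤ), ((χ u : (ZMod l)ˣ) : ZMod l) = a → u * x * u⁻¹ = x ^ a := by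
  classical
  have hl : l.Prime := Fact.out
  obtain ⟨c, hc, hn, hp⟩ := hU
  have hN : (Subgroup.zpowers c).Normal := ⟨fun x hx u => conj_zpowers hn u hx⟩
  have hcop2 : Nat.Coprime l 2 := (Nat.coprime_primes hl Nat.prime_two).mpr hl2
  have hxc : x ∈ Subgroup.zpowers c := by
    obtain ⟨k, hk⟩ := hp x
    obtain ⟨m, hm⟩ := exists_pow_eq_self_of_coprime (x := x) (n := 2 ^ k) (by
      rw [hx]; exact (Nat.Coprime.pow_right _ hcop2).symm)
    rw [← hm]
    exact Subgroup.pow_mem _ hk m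
  have hqc : l ∣ orderOf c := by
    rw [← hx]
    exact orderOf_dvd_of_mem_zpowers hxc
  have h2 : Fact (Nat.Prime 2) := ⟨Nat.prime_two⟩
  have hQ : IsPGroup 2 (U ⧸ Subgroup.zpowers c) := by
    intro x
    induction x using QuotientGroup.induction_on with | _ u => ?_
    obtain ⟨k, hk⟩ := hp u
    refine ⟨k, ?_⟩
    rw [← QuotientGroup.mk_pow]
    exact (QuotientGroup.eq_one_iff _).mpr hk
  obtain ⟨n, hn2⟩ := IsPGroup.iff_card.mp hQ
  obtain ⟨P, hP⟩ := Subgroup.exists_right_complement'_of_coprime (N := Subgroup.zpowers c) (by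
    rw [Nat.card_zpowers, Subgroup.index_eq_card, hn2]
    exact Nat.Coprime.pow_right _ hc)
  have e1 : ∀ u : U, ∃ i : ℤ, ∃ s : U, s ∈ P ∧ u = c ^ i * s := by
    intro u
    obtain ⟨⟨⟨x, i, hi⟩, s⟩, hs⟩ := hP.2 u
    refine ⟨i, s, s.2, ?_⟩
    simp only at hi hs
    rw [← hs, hi]
  have e2 : ∀ i : ℤ, c ^ i ∈ P → (l : ℤ) ∣ i := by
    intro i hi
    have h4 : c ^ i ∈ Subgroup.zpowers c ⊓ P := ⟨⟨i, rfl⟩, hi⟩
    rw [hP.disjoint.eq_bot, Subgroup.mem_bot] at h4
    exact (Int.natCast_dvd_natCast.mpr hqc).trans (orderOf_dvd_iff_zpow_eq_one.mpr h4)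
  obtain ⟨χ, β, h, h3, -⟩ := aff_of (q := l) (g := c) (P := P) e1 e2 hn
  exact ⟨χ, β, h, link_of hn h3 hx hxc⟩

lemma ind_top {U : Type} [Group U] [Finite U] :
    ind (⊤ : Subgroup U) (fun _ => (1 : ℂ)) = fun _ => 1 := by
  classical
  have : Fintype U := Fintype.ofFinite _
  funext x
  rw [ind_eq, Finset.sum_congr rfl fun y _ => ext_mem _ _ (Subgroup.mem_top _),
    Finset.sum_const, nsmul_eq_mul, mul_one, Finset.card_univ, ← Nat.card_eq_fintype_card,
    Subgroup.card_top, inv_mul_cancel₀ card_ne]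

theorem hyp_main {q : ℕ} (hq : q.Prime) : ∀ (n : ℕ) (U : Type) [Group U] [Finite U],
    Nat.card U = n → HypP 2 U → ∀ Δ : (U → ℂ) → ℂˣ, Par q Δ →
    (∀ Q : Subgroup U, HypP 2 Q → AllReal q Q → Δ (ind Q (fun _ => 1)) = 1) →
    Δ (fun _ => 1) = 1 := by
  intro n
  induction n using Nat.strong_induction_on with | _ n ih => ?_
  intro U _ _ hn hU Δ hΔ hQ
  have proper : ∀ W : Subgroup U, W ≠ ⊤ → Δ (ind W (fun _ => 1)) = 1 := by
    intro W hW
    have hlt : Nat.card W < n := by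
      rw [← hn]
      refine lt_of_le_of_ne (Subgroup.card_le_card_group W) fun h => hW ?_
      exact Subgroup.eq_top_of_card_eq W h
    refine ih _ hlt W rfl (HypP.of_injective W.subtype W.subtype_injective hU) _ (hΔ.restrict W) ?_
    intro Q h1 h2
    rw [ind_one_ind]
    let e := Q.equivMapOfInjective W.subtype W.subtype_injective
    exact hQ _ (HypP.of_injective e.symm.toMonoidHom e.symm.injective h1) (h2.congr e)
  by_cases h1 : AllReal q U
  · let e : (⊤ : Subgroup U) ≃* U := Subgroup.topEquiv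
    have h3 := hQ ⊤ (HypP.of_injective e.toMonoidHom e.injective hU) (h1.congr e.symm)
    rwa [ind_top] at h3
  · unfold AllReal at h1
    push Not at h1
    obtain ⟨x, hx, hx2, hxr⟩ := h1
    have : Fact (orderOf x).Prime := ⟨hx⟩
    obtain ⟨χ, β, h, hlink⟩ := exists_aff hU hx2 (x := x) rfl
    have hs : h.stab ≠ ⊤ := by
      intro h3
      obtain ⟨n, -, hn⟩ := h.surj
      exact hn (h.mem_stab.mp (h3 ▸ Subgroup.mem_top n))
    rw [← hΔ.step h hq hx2 hlink (Or.inr hxr) (fun hk => proper _ hk)]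
    exact proper _ hs

section main

variable {q : ℕ} {G : Type} [Group G] [Finite G] {Δ : (G → ℂ) → ℂˣ}

lemma virt_nsmul {f : G → ℂ} (hf : Virt f) (n : ℕ) : Virt (n • f) :=
  nsmul_mem (show f ∈ AddSubgroup.closure (Irr G) from hf) n

lemma Par.neg (h : Par q Δ) {f : G → ℂ} (hf : Virt f) : Δ (-f) = (Δ f)⁻¹ := by
  have h1 := h.add hf (f' := -f) (neg_mem (S := AddSubgroup (G → ℂ)) hf)
  rw [add_neg_cancel, h.zero] at h1
  exact (eq_inv_of_mul_eq_one_right h1.symm)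

lemma Par.nsmul (h : Par q Δ) {f : G → ℂ} (hf : Virt f) (n : ℕ) : Δ (n • f) = Δ f ^ n := by
  induction n with
  | zero => rw [zero_smul, h.zero, pow_zero]
  | succ n ih =>
    rw [succ_nsmul, h.add (virt_nsmul hf n) hf, ih, pow_succ]

lemma Par.zsmul (h : Par q Δ) {f : G → ℂ} (hf : Virt f) (n : ℤ) : Δ (n • f) = Δ f ^ n := by
  obtain ⟨m, rfl | rfl⟩ := n.eq_nat_or_neg
  · rw [natCast_zsmul, h.nsmul hf, zpow_natCast]
  · rw [neg_smul, natCast_zsmul, h.neg (virt_nsmul hf m), h.nsmul hf,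
      zpow_neg, zpow_natCast]

/-- parity data vanish on permutation characters if they vanish on those of 2-hyperelementary
subgroups -/
lemma Par.of_hyp (h : Par q Δ)
    (hU : ∀ U : Subgroup G, HypP 2 U → Δ (ind U (fun _ => 1)) = 1) : Δ (fun _ => 1) = 1 := by
  obtain ⟨N, hN, hN'⟩ := exists_constP (G := G) Nat.prime_two
  have h1 : ∀ f ∈ SolP 2 G, Virt f ∧ Δ f = 1 := by
    intro f hf
    induction hf using AddSubgroup.closure_induction with
    | mem f hf =>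
      obtain ⟨U, hU1, rfl⟩ := hf
      exact ⟨virt_ind _ virt_one, hU U hU1⟩
    | zero => exact ⟨zero_mem _, h.zero⟩
    | add a b _ _ ha hb => exact ⟨add_mem ha.1 hb.1, by rw [h.add ha.1 hb.1, ha.2, hb.2, one_mul]⟩
    | neg a _ ha => exact ⟨neg_mem ha.1, by rw [h.neg ha.1, ha.2, inv_one]⟩
  have h2 := (h1 _ hN').2
  rw [h.zsmul virt_one] at h2
  have h3 := h.dual (virt_one (H := G))
  have h4 : Δ (fun _ => 1) ^ (2 : ℤ) = 1 := by
    rw [show (2 : ℤ) = ((2 : ℕ) : ℤ) by rfl, zpow_natCast, pow_two]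
    exact h3
  obtain ⟨k, hk⟩ : ∃ k, N = 2 * k + 1 := by
    rcases Int.even_or_odd' N with ⟨k, hk | hk⟩
    · exact absurd ⟨k, hk⟩ hN
    · exact ⟨k, hk⟩
  rw [hk, zpow_add, zpow_mul, h4, one_zpow, one_mul, zpow_one] at h2
  exact h2

/-- reduction to the 2-hyperelementary subgroups whose elements of odd prime order are real -/
theorem par_main (hq : q.Prime) (h : Par q Δ)
    (hQ : ∀ Q : Subgroup G, HypP 2 Q → AllReal q Q → Δ (ind Q (fun _ => 1)) = 1)
    (H : Subgroup G) : Δ (ind H (fun _ => 1)) = 1 := by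
  have key : ∀ W : Subgroup G, HypP 2 W → Δ (ind W (fun _ => 1)) = 1 := by
    intro W hW
    refine hyp_main hq _ W rfl hW _ (h.restrict W) ?_
    intro Q h1 h2
    rw [ind_one_ind]
    let e := Q.equivMapOfInjective W.subtype W.subtype_injective
    exact hQ _ (HypP.of_injective e.symm.toMonoidHom e.symm.injective h1) (h2.congr e)
  refine (h.restrict H).of_hyp fun U hU => ?_
  rw [ind_one_ind]
  let e := U.equivMapOfInjective H.subtype H.subtype_injective
  exact key _ (HypP.of_injective e.symm.toMonoidHom e.symm.injective hU)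

end main

end Pool.Agent.R389
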