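import Mathlib
import Pool.Agent.R389.PPd

/-!
# Parity data: going up along normal subgroups of odd order
-/

set_option autoImplicit false
set_option linter.unusedSectionVars false

namespace Pool.Agent.R389

open Pool.Agent.H302R2 Pool.Agent.H302R3 Pool.Agent.H541R3.ART Pool.Agent.W446.AS

variable {q : ℕ} {G : Type} [Group G] [Finite G] {Δ : (G → ℂ) → ℂˣ}

/-- inflation of parity data -/
lemma Par.push (hΔ : Par q Δ) {Y : Type} [Group Y] [Finite Y] {π : G →* Y}
    (hπ : Function.Surjective π) : Par q (fun f : Y → ℂ => Δ (fun g => f (π g))) where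
  add hf hf' := hΔ.add (Virt.comp hf π) (Virt.comp hf' π)
  dual {f} hf := by
    have h1 := hΔ.dual (Virt.comp hf π)
    simp only [map_inv] at h1
    exact h1
  gal N ψ k hk hψ hr := by
    rw [ind_comap hπ, ind_comap hπ]
    refine hΔ.gal (N.comap π) (ψ.comp (π.subgroupComap N)) k hk (fun n => hψ _) ?_
    intro g
    have h1 : ∀ g, ind (N.comap π) (fun n => ((ψ.comp (π.subgroupComap N) n : ℂˣ) : ℂ)) g =
        ind N (fun n => ((ψ n : ℂˣ) : ℂ)) (π g) := by
      intro g
      exact (congrFun (ind_comap hπ N (fun n => ((ψ n : ℂˣ) : ℂ))) g).symm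
    rw [h1, h1, map_inv, hr]
  dih hq N t ψ h1 h2 h3 h4 h5 := by
    obtain ⟨t', rfl⟩ := hπ t
    have e : (fun g => ((ind N (fun n => ((ψ n : ℂˣ) : ℂ)) + ind N (fun _ => 1) : Y → ℂ)) (π g)) =
        ind (N.comap π) (fun n => ((ψ.comp (π.subgroupComap N) n : ℂˣ) : ℂ)) +
          ind (N.comap π) (fun _ => 1) := by
      funext g
      rw [Pi.add_apply, Pi.add_apply]
      congr 1
      · exact congrFun (ind_comap hπ N (fun n => ((ψ n : ℂˣ) : ℂ))) g
      · exact congrFun (ind_comap hπ N (fun _ => 1)) g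
    rw [e]
    refine hΔ.dih hq (N.comap π) t' (ψ.comp (π.subgroupComap N)) ?_ ?_ ?_ ?_ ?_
    · intro n
      rw [Subgroup.mem_comap, Subgroup.mem_comap, map_mul, map_mul, map_inv]
      exact h1 _
    · exact h2
    · rw [Subgroup.mem_comap, map_mul]; exact h3
    · intro n; exact h4 _
    · intro n n' hnn
      refine h5 _ _ ?_
      change π n' = π t' * π n * (π t')⁻¹
      rw [hnn, map_mul, map_mul, map_inv]

/-- from the subgroups containing a normal subgroup of odd prime order to all subgroups -/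
lemma Par.up (hΔ : Par q Δ) (hq : q.Prime) {x : G} (hl : (orderOf x).Prime) (hl2 : orderOf x ≠ 2)
    (hn : (Subgroup.zpowers x).Normal) (hc : orderOf x = q ∨ ¬ PReal q x)
    (hH : ∀ H : Subgroup G, Subgroup.zpowers x ≤ H → Δ (ind H (fun _ => 1)) = 1)
    (H : Subgroup G) : Δ (ind H (fun _ => 1)) = 1 := by
  by_cases hxH : x ∈ H
  · exact hH H (by rwa [Subgroup.zpowers_le])
  have : Fact (orderOf x).Prime := ⟨hl⟩
  let U : Subgroup G := Subgroup.zpowers x ⊔ H
  have hHU : H ≤ U := le_sup_right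
  have hxU : x ∈ U := (le_sup_left : Subgroup.zpowers x ≤ U) (Subgroup.mem_zpowers x)
  let g : U := ⟨x, hxU⟩
  let P : Subgroup U := H.subgroupOf U
  have hgz : ∀ i : ℤ, ((g ^ i : U) : G) = x ^ i := fun i => by
    rw [Subgroup.coe_zpow]
  have h1 : ∀ u : U, ∃ i : ℤ, ∃ s : U, s ∈ P ∧ u = g ^ i * s := by
    rintro ⟨u, hu⟩
    obtain ⟨y, ⟨i, hy⟩, z, hz, hyz⟩ := Subgroup.mem_sup_of_normal_left.mp hu
    refine ⟨i, ⟨z, hHU hz⟩, hz, ?_⟩
    apply Subtype.ext
    rw [Subgroup.coe_mul, hgz]
    change u = x ^ i * z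
    rw [← hyz, ← hy]
  have h2 : ∀ i : ℤ, g ^ i ∈ P → (orderOf x : ℤ) ∣ i := by
    intro i hi
    have hi' : x ^ i ∈ H := by
      have := Subgroup.mem_subgroupOf.mp hi
      rwa [hgz] at this
    by_contra hd
    have hcop : IsCoprime (orderOf x : ℤ) i :=
      (Prime.coprime_iff_not_dvd (Nat.prime_iff_prime_int.mp hl)).mpr hd
    obtain ⟨a, b, hab⟩ := hcop
    apply hxH
    have h3 : x = (x ^ i) ^ b := by
      rw [← zpow_mul, mul_comm i b]
      have h4 : b * i = 1 - a * (orderOf x : ℤ) := by linear_combination hab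
      rw [h4, zpow_sub, zpow_one, mul_comm a, zpow_mul, zpow_natCast, pow_orderOf_eq_one,
        one_zpow, inv_one, mul_one]
    rw [h3]
    exact Subgroup.zpow_mem _ hi' b
  have h3 : ∀ u : U, u * g * u⁻¹ ∈ Subgroup.zpowers g := by
    intro u
    obtain ⟨j, hj⟩ := hn.conj_mem x (Subgroup.mem_zpowers x) u
    refine ⟨j, ?_⟩
    apply Subtype.ext
    simp only at hj ⊢
    rw [hgz, hj]
    rfl
  obtain ⟨χ, β, h, hχ, hβ⟩ := aff_of (q := orderOf x) h1 h2 h3
  have hgx : orderOf g = orderOf x := Subgroup.orderOf_mk x hxU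
  have hgl : g ^ ((orderOf x : ℕ) : ℤ) = 1 := by
    rw [zpow_natCast, ← hgx, pow_orderOf_eq_one]
  have hst : h.stab = P := by
    ext u
    obtain ⟨i, s, hs, rfl⟩ := h1 u
    rw [h.mem_stab, hβ i s hs, ZMod.intCast_zmod_eq_zero_iff_dvd]
    constructor
    · rintro ⟨m, rfl⟩
      rw [zpow_mul, hgl, one_zpow, one_mul]
      exact hs
    · intro hu
      exact h2 i ((Subgroup.mul_mem_cancel_right P hs).mp hu)
  have hΔ' := hΔ.restrict U
  have hlink := link_of h3 hχ hgx (Subgroup.mem_zpowers g)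
  have h4 := hΔ'.step h hq hl2 hlink (hc.imp id fun hx hr => hx (hr.map U.subtype)) ?_
  · rw [hst, ind_one_ind, Subgroup.subgroupOf_map_subtype, inf_eq_left.mpr hHU,
      hH U le_sup_left] at h4
    exact h4
  · intro _
    rw [ind_one_ind]
    apply hH
    rw [Subgroup.zpowers_le]
    refine ⟨g, ?_, rfl⟩
    have h5 := hχ g 1 (by rw [mul_inv_cancel_right, zpow_one])
    rw [SetLike.mem_coe, MonoidHom.mem_ker]
    exact Units.ext (by rw [h5]; simp)

/-- normal subgroups of odd order with a chain of normal subgroups of `G` with factors of prime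
order `l`, such that `l = p` or the elements of the factors are not `p`-real -/
inductive Tame (p : ℕ) {G : Type} [Group G] : Subgroup G → Prop
  | bot : Tame p ⊥
  | step (B C : Subgroup G) [B.Normal] (x : G) : Tame p B → C.Normal →
      C = B ⊔ Subgroup.zpowers x → (orderOf (x : G ⧸ B)).Prime → orderOf (x : G ⧸ B) ≠ 2 →
      (orderOf (x : G ⧸ B) = p ∨ ¬ PReal p (x : G ⧸ B)) → Tame p C

lemma Par.tame (hΔ : Par q Δ) (hq : q.Prime) {C : Subgroup G} (hC : Tame q C) :
    (∀ H : Subgroup G, C ≤ H → Δ (ind H (fun _ => 1)) = 1) →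
    ∀ H : Subgroup G, Δ (ind H (fun _ => 1)) = 1 := by
  induction hC with
  | bot => intro h H; exact h H bot_le
  | step B C x hB hCn hCx hl hl2 hc ih =>
    intro h
    apply ih
    let π := QuotientGroup.mk' B
    have hπ : Function.Surjective π := QuotientGroup.mk'_surjective B
    have hπx : C.map π = Subgroup.zpowers (x : G ⧸ B) := by
      rw [hCx, Subgroup.map_sup, QuotientGroup.map_mk'_self, bot_sup_eq, MonoidHom.map_zpowers]
      rfl
    have hπn : (Subgroup.zpowers (x : G ⧸ B)).Normal := by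
      rw [← hπx]
      exact hCn.map π hπ
    have hpush := hΔ.push hπ
    have key := hpush.up hq hl hl2 hπn hc (fun Y hY => by
      rw [ind_comap hπ]
      apply h
      rw [hCx]
      refine sup_le ?_ ?_
      · intro b hb
        rw [Subgroup.mem_comap]
        have : π b = 1 := (QuotientGroup.eq_one_iff b).mpr hb
        rw [this]; exact Y.one_mem
      · rw [Subgroup.zpowers_le, Subgroup.mem_comap]
        exact hY (Subgroup.mem_zpowers _))
    intro H hH
    have h1 := key (H.map π)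
    rw [ind_comap hπ, Subgroup.comap_map_eq, QuotientGroup.ker_mk', sup_eq_left.mpr hH] at h1
    exact h1

/-- **Main theorem** for parity data. -/
theorem par_final (hΔ : Par q Δ) (hq : q.Prime) {C : Subgroup G} [C.Normal] (hC : Tame q C)
    (hQ : ∀ Q : Subgroup (G ⧸ C), HypP 2 Q → AllReal q Q →
      Δ (ind (Q.comap (QuotientGroup.mk' C)) (fun _ => 1)) = 1) (H : Subgroup G) :
    Δ (ind H (fun _ => 1)) = 1 := by
  refine hΔ.tame hq hC ?_ H
  intro H hH
  let π := QuotientGroup.mk' C
  have hπ : Function.Surjective π := QuotientGroup.mk'_surjective C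
  have h1 := par_main hq (hΔ.push hπ) (fun Q h2 h3 => by
    rw [ind_comap hπ]
    exact hQ Q h2 h3) (H.map π)
  rw [ind_comap hπ, Subgroup.comap_map_eq, QuotientGroup.ker_mk', sup_eq_left.mpr hH] at h1
  exact h1

end Pool.Agent.R389
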