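import Mathlib
import Pool.Agent.R389.PPe

/-!
# Selmer multiplicities and root numbers
-/

set_option autoImplicit false
set_option linter.unusedSectionVars false

namespace Pool.Agent.R389

open Pool.Agent.H302R2 Pool.Agent.H302R3 Pool.Agent.H541R3.ART Pool.Agent.W446.AS

section conv

variable {G : Type} [Group G]

/-- `p`-parity for the character `f = ∑ m χ • χ`: the parity of the multiplicity
`∑ m χ * s χ` is given by the sign `∏ w χ ^ m χ`. Here `s χ` is the multiplicity of `χ` in the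
`p`-infinity Selmer representation and `w χ` the root number of the twist by `χ`. -/
def PParity (s : (G → ℂ) → ℕ) (w : (G → ℂ) → ℂ) (f : G → ℂ) : Prop :=
  ∀ m, IsDecomp f m → (-1 : ℂ) ^ (∑ᶠ χ ∈ Irr G, m χ * s χ) = ∏ᶠ χ ∈ Irr G, w χ ^ m χ

/-- The formal properties of the Selmer multiplicities `s χ` and the root numbers `w χ` of the
twists of an elliptic curve: duality, invariance under the Frobenius of `ℚ_p` for real characters
induced from linear characters of order prime to `p`, and the dihedral relation for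
characters of order `p`. -/
structure SelmerData (p : ℕ) (s : (G → ℂ) → ℕ) (w : (G → ℂ) → ℂ) : Prop where
  dual : ∀ χ ∈ Irr G, s (fun g => χ g⁻¹) = s χ ∧ w χ * w (fun g => χ g⁻¹) = 1
  frob : ∀ (N : Subgroup G) (ψ : N →* ℂˣ) (k : ℕ), k.Coprime p → (∀ n : N, ψ n ^ k = 1) →
    (∀ g, ind N (fun n => ((ψ n : ℂˣ) : ℂ)) g⁻¹ = ind N (fun n => ((ψ n : ℂˣ) : ℂ)) g) →
    ∀ m m', IsDecomp (ind N (fun n => ((ψ n : ℂˣ) : ℂ))) m →
      IsDecomp (ind N (fun n => ((ψ n : ℂˣ) : ℂ) ^ p)) m' →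
      ∑ᶠ χ ∈ Irr G, m' χ * s χ = ∑ᶠ χ ∈ Irr G, m χ * s χ ∧
        ∏ᶠ χ ∈ Irr G, w χ ^ m' χ = ∏ᶠ χ ∈ Irr G, w χ ^ m χ
  dihedral : p ≠ 2 → ∀ (N : Subgroup G) (h : G) (ψ : N →* ℂˣ),
    (∀ n : G, n ∈ N ↔ h * n * h⁻¹ ∈ N) → h ∉ N → h * h ∈ N → (∀ n : N, ψ n ^ p = 1) →
    (∀ n n' : N, (n' : G) = h * n * h⁻¹ → ψ n' = (ψ n)⁻¹) →
    PParity s w (ind N (fun n => ((ψ n : ℂˣ) : ℂ)) + ind N (fun _ => 1))

variable [Finite G]

lemma finsum_irrN (F : (G → ℂ) → ℕ) : ∑ᶠ χ ∈ Irr G, F χ = ∑ χ ∈ irrF G, F χ :=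
  finsum_mem_eq_finite_toFinset_sum _ (irr_finite (G := G))

/-- the sign of a virtual character -/
noncomputable def sg (δ : (G → ℂ) → ℂˣ) (f : G → ℂ) : ℂˣ := ∏ χ ∈ irrF G, δ χ ^ mult f χ

lemma sg_add (δ : (G → ℂ) → ℂˣ) {f f' : G → ℂ} (hf : Virt f) (hf' : Virt f') :
    sg δ (f + f') = sg δ f * sg δ f' := by
  rw [sg, sg, sg, ← Finset.prod_mul_distrib]
  exact Finset.prod_congr rfl fun χ hχ => by rw [mult_add hf hf' (mem_irrF.mp hχ), zpow_add]

/-- the dual of an irreducible character -/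
lemma irr_dual {χ : G → ℂ} (hχ : χ ∈ Irr G) : (fun g => χ g⁻¹) ∈ Irr G := by
  obtain ⟨n, ρ, hρ, rfl⟩ := exists_rep hχ
  have h1 : Irred ρ.dual := by
    have := hρ.1
    refine ⟨inferInstance, fun W hW => ?_⟩
    -- the annihilator of `W` is invariant
    have h2 := hρ.2 (W.dualCoannihilator) (by
      intro g v hv
      rw [Submodule.mem_dualCoannihilator] at hv ⊢
      intro φ hφ
      have h3 := hW g⁻¹ φ hφ
      have h4 := hv _ h3
      rw [Representation.dual_apply, inv_inv] at h4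
      exact h4)
    rcases h2 with h2 | h2
    · right
      rw [← Subspace.dualCoannihilator_dualAnnihilator_eq (W := W), h2,
        Submodule.dualAnnihilator_bot]
    · left
      rw [← Subspace.dualCoannihilator_dualAnnihilator_eq (W := W), h2,
        Submodule.dualAnnihilator_top]
  have h2 := irr_of_irred h1
  have h3 : ρ.dual.character = fun g => ρ.character g⁻¹ := by
    funext g
    exact ρ.char_dual g
  rwa [h3] at h2

lemma mult_dual (f χ : G → ℂ) : mult (fun g => f g⁻¹) χ = mult f (fun g => χ g⁻¹) := by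
  classical
  have : Fintype G := Fintype.ofFinite G
  have h1 : pr (fun g => f g⁻¹) χ = pr f (fun g => χ g⁻¹) := by
    rw [pr_eq, pr_eq, ← Equiv.sum_comp (Equiv.inv G)]
    congr 1
    refine Finset.sum_congr rfl fun g _ => ?_
    simp only [Equiv.inv_apply, inv_inv]
  rw [mult, mult, h1]

lemma sg_dual {δ : (G → ℂ) → ℂˣ} (hδ : ∀ χ ∈ Irr G, δ χ * δ (fun g => χ g⁻¹) = 1) (f : G → ℂ) :
    sg δ f * sg δ (fun g => f g⁻¹) = 1 := by
  have h1 : sg δ (fun g => f g⁻¹) = ∏ χ ∈ irrF G, δ (fun g => χ g⁻¹) ^ mult f χ := by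
    rw [sg]
    refine Finset.prod_bij (fun χ _ => fun g => χ g⁻¹) ?_ ?_ ?_ ?_
    · intro χ hχ
      exact mem_irrF.mpr (irr_dual (mem_irrF.mp hχ))
    · intro χ _ χ' _ h
      funext g
      have := congrFun h g⁻¹
      simpa using this
    · intro χ hχ
      refine ⟨fun g => χ g⁻¹, mem_irrF.mpr (irr_dual (mem_irrF.mp hχ)), ?_⟩
      simp
    · intro χ _
      rw [mult_dual]
      simp
  rw [h1, sg, ← Finset.prod_mul_distrib]
  refine Finset.prod_eq_one fun χ hχ => ?_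
  rw [← mul_zpow, hδ χ (mem_irrF.mp hχ), one_zpow]

lemma sg_decomp (δ : (G → ℂ) → ℂˣ) {f : G → ℂ} {m : (G → ℂ) → ℕ} (h : IsDecomp f m) :
    sg δ f = ∏ χ ∈ irrF G, δ χ ^ m χ := by
  refine Finset.prod_congr rfl fun χ hχ => ?_
  rw [mult_of_pr (k := m χ) (by rw [h.pr (mem_irrF.mp hχ)]; simp), zpow_natCast]

lemma IsDecomp.add {f f' : G → ℂ} {m m' : (G → ℂ) → ℕ} (h : IsDecomp f m) (h' : IsDecomp f' m') :
    IsDecomp (f + f') (fun χ => m χ + m' χ) := by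
  intro g
  rw [Pi.add_apply, h g, h' g, finsum_irr (fun χ => (m χ : ℂ) * χ g),
    finsum_irr (fun χ => (m' χ : ℂ) * χ g),
    finsum_irr (fun χ => ((m χ + m' χ : ℕ) : ℂ) * χ g), ← Finset.sum_add_distrib]
  exact Finset.sum_congr rfl fun χ _ => by push_cast; ring

lemma one_decomp (H : Subgroup G) : ∃ m, IsDecomp (ind H (fun _ => (1 : ℂ))) m := by
  obtain ⟨m, hm⟩ := ind_isDecomp H (1 : H →* ℂˣ)
  exact ⟨m, by simpa using hm⟩

open Classical in
/-- the sign `(-1)^s * w` -/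
noncomputable def dl (s : (G → ℂ) → ℕ) (w : (G → ℂ) → ℂ) (χ : G → ℂ) : ℂˣ :=
  if h : (-1 : ℂ) ^ s χ * w χ ≠ 0 then Units.mk0 _ h else 1

variable {p : ℕ} {s : (G → ℂ) → ℕ} {w : (G → ℂ) → ℂ}

lemma SelmerData.dl_val (hd : SelmerData p s w) {χ : G → ℂ} (hχ : χ ∈ Irr G) :
    ((dl s w χ : ℂˣ) : ℂ) = (-1 : ℂ) ^ s χ * w χ := by
  have h1 : w χ ≠ 0 := left_ne_zero_of_mul_eq_one (hd.dual χ hχ).2
  have h2 : (-1 : ℂ) ^ s χ * w χ ≠ 0 := mul_ne_zero (pow_ne_zero _ (by norm_num)) h1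
  rw [dl, dif_pos h2]
  rfl

lemma SelmerData.sg_val (hd : SelmerData p s w) {f : G → ℂ} {m : (G → ℂ) → ℕ}
    (h : IsDecomp f m) : ((sg (dl s w) f : ℂˣ) : ℂ) =
      (-1 : ℂ) ^ (∑ᶠ χ ∈ Irr G, m χ * s χ) * ∏ᶠ χ ∈ Irr G, w χ ^ m χ := by
  rw [sg_decomp _ h, finsum_irrN (fun χ => m χ * s χ), finprod_irr (fun χ => w χ ^ m χ),
    ← Finset.prod_pow_eq_pow_sum, ← Finset.prod_mul_distrib, Units.coe_prod]
  refine Finset.prod_congr rfl fun χ hχ => ?_
  rw [Units.val_pow_eq_pow_val, hd.dl_val (mem_irrF.mp hχ), mul_pow, ← pow_mul, mul_comm (s χ)]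

lemma neg_pow_sq (n : ℕ) : (-1 : ℂ) ^ n * (-1) ^ n = 1 := by
  rw [← mul_pow]; norm_num

lemma SelmerData.parity_iff (hd : SelmerData p s w) {f : G → ℂ} (hf : ∃ m, IsDecomp f m) :
    PParity s w f ↔ sg (dl s w) f = 1 := by
  constructor
  · intro h
    obtain ⟨m, hm⟩ := hf
    apply Units.ext
    rw [hd.sg_val hm, ← h m hm, neg_pow_sq, Units.val_one]
  · intro h m hm
    have h1 := hd.sg_val hm
    rw [h, Units.val_one] at h1
    calc (-1 : ℂ) ^ (∑ᶠ χ ∈ Irr G, m χ * s χ)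
        = (-1 : ℂ) ^ (∑ᶠ χ ∈ Irr G, m χ * s χ) * ((-1 : ℂ) ^ (∑ᶠ χ ∈ Irr G, m χ * s χ) *
          ∏ᶠ χ ∈ Irr G, w χ ^ m χ) := by rw [← h1, mul_one]
      _ = _ := by rw [← mul_assoc, neg_pow_sq, one_mul]

lemma SelmerData.par (hd : SelmerData p s w) : Par p (sg (dl s w)) where
  add hf hf' := sg_add _ hf hf'
  dual {f} _ := by
    refine sg_dual (fun χ hχ => ?_) f
    apply Units.ext
    rw [Units.val_mul, hd.dl_val hχ, hd.dl_val (irr_dual hχ), (hd.dual χ hχ).1, Units.val_one]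
    calc (-1 : ℂ) ^ s χ * w χ * ((-1) ^ s χ * w (fun g => χ g⁻¹))
        = ((-1 : ℂ) ^ s χ * (-1) ^ s χ) * (w χ * w (fun g => χ g⁻¹)) := by ring
      _ = 1 := by rw [neg_pow_sq, (hd.dual χ hχ).2, one_mul]
  gal N ψ k hk hψ hr := by
    obtain ⟨m, hm⟩ := ind_isDecomp N ψ
    obtain ⟨m', hm'⟩ := ind_isDecomp N (ψ ^ p)
    have hm'' : IsDecomp (ind N (fun n => ((ψ n : ℂˣ) : ℂ) ^ p)) m' := by
      simpa using hm'
    obtain ⟨h1, h2⟩ := hd.frob N ψ k hk hψ hr m m' hm hm''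
    apply Units.ext
    rw [hd.sg_val hm, hd.sg_val hm'', h1, h2]
  dih hp N t ψ h1 h2 h3 h4 h5 := by
    obtain ⟨m, hm⟩ := ind_isDecomp N ψ
    obtain ⟨m', hm'⟩ := one_decomp N
    exact (hd.parity_iff ⟨_, hm.add hm'⟩).mp (hd.dihedral hp N t ψ h1 h2 h3 h4 h5)

theorem parity_final (hp : p.Prime) (hd : SelmerData p s w) {C : Subgroup G} [C.Normal]
    (hC : Tame p C) (hQ : ∀ Q : Subgroup (G ⧸ C), HypP 2 Q → AllReal p Q →
      PParity s w (ind (Q.comap (QuotientGroup.mk' C)) (fun _ => 1))) (H : Subgroup G) :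
    PParity s w (ind H (fun _ => 1)) :=
  (hd.parity_iff (one_decomp H)).mpr (par_final hd.par hp hC
    (fun Q h1 h2 => (hd.parity_iff (one_decomp _)).mp (hQ Q h1 h2)) H)

end conv

end Pool.Agent.R389
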