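import Mathlib
import Pool.Agent.R389.PPf

/-!
# Parity data with full Galois invariance
-/

set_option autoImplicit false
set_option linter.unusedSectionVars false

namespace Pool.Agent.R389

open Pool.Agent.H302R2 Pool.Agent.H302R3 Pool.Agent.H541R3.ART Pool.Agent.W446.AS

section par

/-- multiplicative functions on virtual characters, trivial on sums of dual pairs, invariant under
automorphisms on real monomial characters, and trivial on the dihedral characters at the primes in
`Ps` -/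
structure ParR (Ps : Set ℕ) {G : Type} [Group G] [Finite G] (Δ : (G → ℂ) → ℂˣ) : Prop where
  add : ∀ {f f' : G → ℂ}, Virt f → Virt f' → Δ (f + f') = Δ f * Δ f'
  dual : ∀ {f : G → ℂ}, Virt f → Δ f * Δ (fun g => f g⁻¹) = 1
  gal : ∀ (N : Subgroup G) (ψ : N →* ℂˣ) (k a : ℕ), a.Coprime k → (∀ n : N, ψ n ^ k = 1) →
    (∀ g, ind N (fun n => ((ψ n : ℂˣ) : ℂ)) g⁻¹ = ind N (fun n => ((ψ n : ℂˣ) : ℂ)) g) →
    Δ (ind N (fun n => ((ψ n : ℂˣ) : ℂ) ^ a)) = Δ (ind N (fun n => ((ψ n : ℂˣ) : ℂ)))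
  dih : ∀ q ∈ Ps, ∀ (N : Subgroup G) (h : G) (ψ : N →* ℂˣ), (∀ n : G, n ∈ N ↔ h * n * h⁻¹ ∈ N) → h ∉ N →
    h * h ∈ N → (∀ n : N, ψ n ^ q = 1) → (∀ n n' : N, (n' : G) = h * n * h⁻¹ → ψ n' = (ψ n)⁻¹) →
    Δ (ind N (fun n => ((ψ n : ℂˣ) : ℂ)) + ind N (fun _ => 1)) = 1

variable {Ps : Set ℕ} {G : Type} [Group G] [Finite G] {Δ : (G → ℂ) → ℂˣ}

lemma ParR.restrict (h : ParR Ps Δ) (U : Subgroup G) : ParR Ps (fun f : U → ℂ => Δ (ind U f)) where
  add hf hf' := by rw [ind_add]; exact h.add (virt_ind U hf) (virt_ind U hf')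
  dual hf := by rw [ind_dual]; exact h.dual (virt_ind U hf)
  gal N ψ k a hk hψ hr := by
    have hr' : ∀ g, ind U (ind N (fun n => ((ψ n : ℂˣ) : ℂ))) g⁻¹ =
        ind U (ind N (fun n => ((ψ n : ℂˣ) : ℂ))) g := by
      intro g
      have h1 := congrFun (ind_dual U (ind N (fun n => ((ψ n : ℂˣ) : ℂ)))) g
      rw [← h1]
      exact congrArg (fun F => ind U F g) (funext hr)
    rw [ind_ind] at hr' ⊢
    rw [ind_ind]
    let e := (N.equivMapOfInjective U.subtype U.subtype_injective).symm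
    exact h.gal (N.map U.subtype) (ψ.comp e.toMonoidHom) k a hk (fun n => hψ _) hr'
  dih q hq N t ψ h1 h2 h3 h4 h5 := by
    rw [ind_add, ind_one_ind, ind_ind]
    let e := (N.equivMapOfInjective U.subtype U.subtype_injective).symm
    have key : ∀ x : N.map U.subtype, (((e x : N) : U) : G) = x := by
      intro x
      have := N.coe_equivMapOfInjective_apply U.subtype U.subtype_injective (e x)
      rw [MulEquiv.apply_symm_apply] at this
      exact this.symm
    refine h.dih q hq (N.map U.subtype) t (ψ.comp e.toMonoidHom) ?_ ?_ ?_ ?_ ?_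
    · intro n
      constructor
      · rintro ⟨y, hy, rfl⟩
        exact ⟨t * y * t⁻¹, (h1 y).mp hy, by simp⟩
      · rintro ⟨y, hy, hyn⟩
        have hy' : t * (t⁻¹ * y * t) * t⁻¹ = y := by group
        refine ⟨t⁻¹ * y * t, (h1 _).mpr (by rw [hy']; exact hy), ?_⟩
        have hyn' : (y : G) = t * n * (t : G)⁻¹ := hyn
        simp only [Subgroup.coe_subtype, Subgroup.coe_mul, Subgroup.coe_inv]
        rw [hyn', mul_assoc (t : G), inv_mul_cancel_left, inv_mul_cancel_right]
    · rintro ⟨y, hy, hyt⟩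
      exact h2 (by rwa [← Subtype.ext hyt])
    · exact ⟨t * t, h3, by simp⟩
    · intro n
      exact h4 _
    · intro n n' hnn
      refine h5 _ _ ?_
      apply Subtype.ext
      change (((e n' : N) : U) : G) = _
      rw [key n', hnn]
      simp only [Subgroup.coe_mul, Subgroup.coe_inv]
      change _ = (t : G) * (((e n : N) : U) : G) * (t : G)⁻¹
      rw [key n]

lemma ParR.zero (h : ParR Ps Δ) : Δ 0 = 1 := by
  have h1 := h.add (zero_mem _) (zero_mem _) (f := 0) (f' := 0)
  rw [add_zero] at h1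
  exact (left_eq_mul.mp h1)

lemma ParR.sum (h : ParR Ps Δ) {ι : Type*} (s : Finset ι) {F : ι → G → ℂ} (hF : ∀ i ∈ s, Virt (F i)) :
    Δ (∑ i ∈ s, F i) = ∏ i ∈ s, Δ (F i) := by
  classical
  induction s using Finset.induction_on with
  | empty => simpa using h.zero
  | insert a s ha ih =>
    rw [Finset.sum_insert ha, Finset.prod_insert ha, h.add (hF a (Finset.mem_insert_self _ _)),
      ih fun i hi => hF i (Finset.mem_insert_of_mem hi)]
    exact sum_mem fun i hi => hF i (Finset.mem_insert_of_mem hi)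

end par

end Pool.Agent.R389
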