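import Mathlib
import Pool.Agent.R389.QQa

/-!
# Parity data with full Galois invariance: affine steps
-/

set_option autoImplicit false
set_option linter.unusedSectionVars false

namespace Pool.Agent.R389

open Pool.Agent.H302R2 Pool.Agent.H302R3 Pool.Agent.H541R3.ART Pool.Agent.W446.AS

section steps

variable {U : Type} [Group U] [Finite U] {Ps : Set ℕ} {l : ℕ} [Fact l.Prime] {Δ : (U → ℂ) → ℂˣ}
  {χ : U →* (ZMod l)ˣ} {β : U → ZMod l}

/-- pairing the characters -/
lemma ParR.pairing (hΔ : ParR Ps Δ) (h : Aff χ β) {b : (ZMod l)ˣ} (hb : b ∉ χ.range)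
    (hb2 : b * b ∈ χ.range) (hD : ∀ t : (ZMod l)ˣ, Δ (h.F t) * Δ (h.F (b * t)) = 1) :
    Δ (ind h.stab (fun _ => 1)) = Δ (fun _ => 1) := by
  classical
  have : Fintype χ.range := Fintype.ofFinite _
  have : Fintype ((ZMod l)ˣ ⧸ χ.range) := Fintype.ofFinite _
  have e : ind h.stab (fun _ => (1 : ℂ)) = (fun _ => 1) + ∑ c : (ZMod l)ˣ ⧸ χ.range,
      h.F ((c.out : (ZMod l)ˣ) : ZMod l) := by
    funext x
    rw [Pi.add_apply, Finset.sum_apply]
    have := h.sum_psi x
    simp only [Aff.F]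
    rw [this]
    ring
  have hout : ∀ c : (ZMod l)ˣ ⧸ χ.range, Δ (h.F (((((b : (ZMod l)ˣ) : (ZMod l)ˣ ⧸ χ.range) * c).out :
      (ZMod l)ˣ) : ZMod l)) = Δ (h.F ((b : ZMod l) * ((c.out : (ZMod l)ˣ) : ZMod l))) := by
    intro c
    have h1 : ((((b : (ZMod l)ˣ) : (ZMod l)ˣ ⧸ χ.range) * c).out : (ZMod l)ˣ ⧸ χ.range) =
        ((b * c.out : (ZMod l)ˣ) : (ZMod l)ˣ ⧸ χ.range) := by
      rw [QuotientGroup.out_eq', QuotientGroup.mk_mul, QuotientGroup.out_eq']
    have h2 := QuotientGroup.eq.mp h1.symm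
    have h3 : (((((b : (ZMod l)ˣ) : (ZMod l)ˣ ⧸ χ.range) * c).out : (ZMod l)ˣ) : ZMod l) =
        (((b * c.out)⁻¹ * (((b : (ZMod l)ˣ) : (ZMod l)ˣ ⧸ χ.range) * c).out : (ZMod l)ˣ) : ZMod l) *
          ((b : ZMod l) * ((c.out : (ZMod l)ˣ) : ZMod l)) := by
      rw [← Units.val_mul, ← Units.val_mul]
      congr 1
      rw [mul_comm _ (b * c.out), mul_inv_cancel_left]
    rw [h3, h.F_range h2]
  rw [e, hΔ.add virt_one (sum_mem fun c _ => h.F_virt _), hΔ.sum _ fun c _ => h.F_virt _]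
  have h5 : ∏ c : (ZMod l)ˣ ⧸ χ.range, Δ (h.F ((c.out : (ZMod l)ˣ) : ZMod l)) = 1 := by
    refine Finset.prod_involution (fun c _ => ((b : (ZMod l)ˣ) : (ZMod l)ˣ ⧸ χ.range) * c)
      ?_ ?_ ?_ ?_
    · intro c _
      rw [hout c]
      exact hD _
    · intro c _ _ h0
      rw [mul_eq_right, QuotientGroup.eq_one_iff] at h0
      exact hb h0
    · intro c _; exact Finset.mem_univ _
    · intro c _
      rw [← mul_assoc, ← QuotientGroup.mk_mul, (QuotientGroup.eq_one_iff _).mpr hb2, one_mul]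
  rw [h5, mul_one]

/-- pairing dual characters -/
lemma ParR.stepN (hΔ : ParR Ps Δ) (h : Aff χ β) (hn : (-1 : (ZMod l)ˣ) ∉ χ.range) :
    Δ (ind h.stab (fun _ => 1)) = Δ (fun _ => 1) := by
  refine hΔ.pairing h hn (by simp) fun t => ?_
  have h1 := hΔ.dual (h.F_virt t)
  rw [h.F_dual] at h1
  rw [Units.val_neg, Units.val_one, neg_one_mul]
  exact h1

/-- pairing conjugate characters -/
lemma ParR.stepR (hΔ : ParR Ps Δ) (h : Aff χ β) {a : (ZMod l)ˣ} {k : ℕ} (ha : a ∉ χ.range)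
    (hak : a ^ 2 ^ k = 1) :
    Δ (ind h.stab (fun _ => 1)) = Δ (fun _ => 1) := by
  by_cases hn : (-1 : (ZMod l)ˣ) ∈ χ.range
  · have hself : ∀ t : ZMod l, h.F (-t) = h.F t := by
      intro t
      have h1 := h.F_range hn t
      rwa [Units.val_neg, Units.val_one, neg_one_mul] at h1
    have hsq : ∀ t : ZMod l, Δ (h.F t) * Δ (h.F t) = 1 := by
      intro t
      have h1 := hΔ.dual (h.F_virt t)
      rwa [h.F_dual, hself] at h1
    have hP : ∀ (b : (ZMod l)ˣ) (t : ZMod l), Δ (h.F ((b : ZMod l) * t)) = Δ (h.F t) := by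
      intro b t
      have h1 := hΔ.gal χ.ker (h.psi t) l (b : ZMod l).val (ZMod.val_coe_unit_coprime b) ?_ ?_
      · have e2 : h.F ((b : ZMod l) * t) =
            ind χ.ker (fun n => ((h.psi t n : ℂˣ) : ℂ) ^ (b : ZMod l).val) := by
          rw [Aff.F]
          congr 1
          funext n
          rw [h.psi_apply, h.psi_apply, ← AddChar.map_nsmul_eq_pow, nsmul_eq_mul, mul_assoc,
            ZMod.natCast_val, ZMod.cast_id]
        rw [e2]
        exact h1
      · intro n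
        apply Units.ext
        rw [Units.val_pow_eq_pow_val, h.psi_apply, ← AddChar.map_nsmul_eq_pow, nsmul_eq_mul,
          ZMod.natCast_self, zero_mul, AddChar.map_zero_eq_one]
        rfl
      · intro g
        have h2 := congrFun (h.F_dual t) g
        rw [hself] at h2
        exact h2
    obtain ⟨b, hb, hb2⟩ : ∃ b : (ZMod l)ˣ, b ∉ χ.range ∧ b * b ∈ χ.range := by
      clear hP hsq hself hn
      induction k generalizing a with
      | zero =>
        rw [pow_zero, pow_one] at hak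
        exact absurd (by rw [hak]; exact χ.range.one_mem) ha
      | succ k ih =>
        by_cases h2 : a * a ∈ χ.range
        · exact ⟨a, ha, h2⟩
        · exact ih h2 (by rw [← pow_two, ← pow_mul, ← pow_succ']; exact hak)
    refine hΔ.pairing h hb hb2 fun t => ?_
    rw [hP b]
    exact hsq _
  · exact hΔ.stepN h hn

/-- the dihedral relation -/
lemma ParR.stepD (hΔ : ParR Ps Δ) (h : Aff χ β) (hlP : l ∈ Ps) (hl2 : l ≠ 2) (hn : (-1 : (ZMod l)ˣ) ∈ χ.range)
    (h2 : Δ (ind χ.ker (fun _ => 1)) = 1) :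
    Δ (ind h.stab (fun _ => 1)) = Δ (fun _ => 1) := by
  classical
  have : Fintype χ.range := Fintype.ofFinite _
  have : Fintype ((ZMod l)ˣ ⧸ χ.range) := Fintype.ofFinite _
  obtain ⟨t, ht⟩ := hn
  have e : ind h.stab (fun _ => (1 : ℂ)) = (fun _ => 1) + ∑ c : (ZMod l)ˣ ⧸ χ.range,
      h.F ((c.out : (ZMod l)ˣ) : ZMod l) := by
    funext x
    rw [Pi.add_apply, Finset.sum_apply]
    have := h.sum_psi x
    simp only [Aff.F]
    rw [this]
    ring
  have h3 : ∀ z : ZMod l, Δ (h.F z) = 1 := by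
    intro z
    have h4 := hΔ.dih l hlP χ.ker t (h.psi z) ?_ ?_ ?_ ?_ ?_
    · have h4' : Δ (h.F z + ind χ.ker (fun _ => 1)) = 1 := h4
      rw [hΔ.add (h.F_virt z) (virt_ind _ virt_one), h2, mul_one] at h4'
      exact h4'
    · intro n
      rw [MonoidHom.mem_ker, MonoidHom.mem_ker, map_mul, map_mul, map_inv, mul_comm,
        inv_mul_cancel_left]
    · rw [MonoidHom.mem_ker, ht]; exact neg_one_ne hl2
    · rw [MonoidHom.mem_ker, map_mul, ht]; simp
    · intro n
      apply Units.ext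
      rw [Units.val_pow_eq_pow_val, h.psi_apply, ← AddChar.map_nsmul_eq_pow, nsmul_eq_mul,
        ZMod.natCast_self, zero_mul, AddChar.map_zero_eq_one]
      rfl
    · intro n n' hnn
      have hn1 : χ n = 1 := n.2
      have hb : β n' = - β n := by
        have h5 := h.conj t⁻¹ n
        rw [inv_inv, ← hnn, hn1, map_inv, inv_inv, ht] at h5
        rw [h5]
        simp
      rw [← mul_eq_one_iff_eq_inv]
      apply Units.ext
      rw [Units.val_mul, h.psi_apply, h.psi_apply, ← AddChar.map_add_eq_mul, hb]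
      simp
  rw [e, hΔ.add virt_one (sum_mem fun c _ => h.F_virt _), hΔ.sum _ fun c _ => h.F_virt _,
    Finset.prod_eq_one fun c _ => h3 _, mul_one]

end steps

/-- `x` is conjugate to `x ^ a` whenever `a` has 2-power order modulo the order of `x` -/
def RReal {Q : Type} [Group Q] (x : Q) : Prop :=
  ∀ a k : ℕ, a ^ 2 ^ k ≡ 1 [MOD orderOf x] → IsConj x (x ^ a)

lemma RReal.map {Q Q' : Type} [Group Q] [Group Q'] (f : Q →* Q') {x : Q}
    (ho : orderOf (f x) = orderOf x) (h : RReal x) : RReal (f x) := by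
  intro a k hk
  rw [ho] at hk
  rw [← map_pow]
  exact f.map_isConj (h a k hk)

/-- the elements of odd prime order have order outside `Ps` and are `RReal` -/
def AllRReal (Ps : Set ℕ) (Q : Type) [Group Q] : Prop :=
  ∀ x : Q, (orderOf x).Prime → orderOf x ≠ 2 → orderOf x ∉ Ps ∧ RReal x

lemma AllRReal.congr {Ps : Set ℕ} {Q Q' : Type} [Group Q] [Group Q'] (e : Q ≃* Q')
    (h : AllRReal Ps Q) : AllRReal Ps Q' := by
  intro x h1 h2
  have h3 : orderOf (e.symm x) = orderOf x := MulEquiv.orderOf_eq e.symm x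
  have h6 := h (e.symm x) (by rwa [h3]) (by rwa [h3])
  have h5 : e.toMonoidHom (e.symm x) = x := e.apply_symm_apply x
  have h4 := h6.2.map e.toMonoidHom (by rw [h5, h3])
  rw [h5] at h4
  exact ⟨by rw [← h3]; exact h6.1, h4⟩

section steps

variable {U : Type} [Group U] [Finite U] {Ps : Set ℕ} {l : ℕ} [Fact l.Prime] {Δ : (U → ℂ) → ℂˣ}
  {χ : U →* (ZMod l)ˣ} {β : U → ZMod l}

lemma ParR.step (hΔ : ParR Ps Δ) (h : Aff χ β) (hl2 : l ≠ 2) {x : U} (hx : orderOf x = l)
    (hlink : ∀ (u : U) (a : ℤ), ((χ u : (ZMod l)ˣ) : ZMod l) = a → u * x * u⁻¹ = x ^ a)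
    (hc : l ∈ Ps ∨ ¬ RReal x) (hker : χ.ker ≠ ⊤ → Δ (ind χ.ker (fun _ => 1)) = 1) :
    Δ (ind h.stab (fun _ => 1)) = Δ (fun _ => 1) := by
  rcases hc with hc | hc
  · by_cases hn : (-1 : (ZMod l)ˣ) ∈ χ.range
    · have hk : χ.ker ≠ ⊤ := by
        intro h3
        obtain ⟨t, ht⟩ := hn
        have h4 : χ t = 1 := MonoidHom.mem_ker.mp (h3 ▸ Subgroup.mem_top t)
        exact neg_one_ne hl2 (by rw [← ht, h4])
      exact hΔ.stepD h hc hl2 hn (hker hk)
    · exact hΔ.stepN h hn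
  · unfold RReal at hc
    push Not at hc
    obtain ⟨a, k, hak, hnc⟩ := hc
    rw [hx] at hak
    have hcop : a.Coprime l := by
      have h1 := hak.gcd_eq
      rw [Nat.gcd_one_left] at h1
      exact Nat.Coprime.coprime_dvd_left (dvd_pow_self a (by positivity)) h1
    refine hΔ.stepR h (a := ZMod.unitOfCoprime a hcop) (k := k) ?_ ?_
    · rintro ⟨v, hv⟩
      apply hnc
      rw [isConj_iff]
      refine ⟨v, ?_⟩
      rw [hlink v (a : ℤ) (by rw [hv, ZMod.coe_unitOfCoprime]; simp), zpow_natCast]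
    · apply Units.ext
      rw [Units.val_pow_eq_pow_val, ZMod.coe_unitOfCoprime, Units.val_one]
      have h1 := (ZMod.natCast_eq_natCast_iff _ _ _).mpr hak
      push_cast at h1
      exact h1

end steps

end Pool.Agent.R389
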