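import Mathlib
import Pool.Agent.R389.QQc

/-!
# Parity data with full Galois invariance: reduction to 2-hyperelementary subgroups
-/

set_option autoImplicit false
set_option linter.unusedSectionVars false

namespace Pool.Agent.R389

open Pool.Agent.H302R2 Pool.Agent.H302R3 Pool.Agent.H541R3.ART Pool.Agent.W446.AS

theorem hyp_mainR {Ps : Set ℕ} : ∀ (n : ℕ) (U : Type) [Group U] [Finite U],
    Nat.card U = n → HypP 2 U → ∀ Δ : (U → ℂ) → ℂˣ, ParR Ps Δ →
    (∀ Q : Subgroup U, HypP 2 Q → AllRReal Ps Q → Δ (ind Q (fun _ => 1)) = 1) →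
    Δ (fun _ => 1) = 1 := by
  intro n
  induction n using Nat.strong_induction_on with | _ n ih => ?_
  intro U _ _ hn hU Δ hΔ hQ
  have proper : ∀ W : Subgroup U, W ≠ ⊤ → Δ (ind W (fun _ => 1)) = 1 := by
    intro W hW
    have hlt : Nat.card W < n := by
      rw [← hn]
      refine lt_of_le_of_ne (Subgroup.card_le_card_group W) fun h => hW ?_
      exact Subgroup.eq_top_of_card_eq W h
    refine ih _ hlt W rfl (HypP.of_injective W.subtype W.subtype_injective hU) _ (hΔ.restrict W) ?_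
    intro Q h1 h2
    rw [ind_one_ind]
    let e := Q.equivMapOfInjective W.subtype W.subtype_injective
    exact hQ _ (HypP.of_injective e.symm.toMonoidHom e.symm.injective h1) (h2.congr e)
  by_cases h1 : AllRReal Ps U
  · let e : (⊤ : Subgroup U) ≃* U := Subgroup.topEquiv
    have h3 := hQ ⊤ (HypP.of_injective e.toMonoidHom e.injective hU) (h1.congr e.symm)
    rwa [ind_top] at h3
  · unfold AllRReal at h1
    push Not at h1
    obtain ⟨x, hx, hx2, hxr⟩ := h1
    have hxr' : orderOf x ∈ Ps ∨ ¬ RReal x := by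
      by_cases h5 : orderOf x ∈ Ps
      · exact Or.inl h5
      · exact Or.inr (hxr h5)
    have : Fact (orderOf x).Prime := ⟨hx⟩
    obtain ⟨χ, β, h, hlink⟩ := exists_aff hU hx2 (x := x) rfl
    have hs : h.stab ≠ ⊤ := by
      intro h3
      obtain ⟨n, -, hn⟩ := h.surj
      exact hn (h.mem_stab.mp (h3 ▸ Subgroup.mem_top n))
    rw [← hΔ.step h hx2 rfl hlink hxr' (fun hk => proper _ hk)]
    exact proper _ hs

section main

variable {Ps : Set ℕ} {G : Type} [Group G] [Finite G] {Δ : (G → ℂ) → ℂˣ}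

lemma ParR.neg (h : ParR Ps Δ) {f : G → ℂ} (hf : Virt f) : Δ (-f) = (Δ f)⁻¹ := by
  have h1 := h.add hf (f' := -f) (neg_mem (S := AddSubgroup (G → ℂ)) hf)
  rw [add_neg_cancel, h.zero] at h1
  exact (eq_inv_of_mul_eq_one_right h1.symm)

lemma ParR.nsmul (h : ParR Ps Δ) {f : G → ℂ} (hf : Virt f) (n : ℕ) : Δ (n • f) = Δ f ^ n := by
  induction n with
  | zero => rw [zero_smul, h.zero, pow_zero]
  | succ n ih =>
    rw [succ_nsmul, h.add (virt_nsmul hf n) hf, ih, pow_succ]

lemma ParR.zsmul (h : ParR Ps Δ) {f : G → ℂ} (hf : Virt f) (n : ℤ) : Δ (n • f) = Δ f ^ n := by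
  obtain ⟨m, rfl | rfl⟩ := n.eq_nat_or_neg
  · rw [natCast_zsmul, h.nsmul hf, zpow_natCast]
  · rw [neg_smul, natCast_zsmul, h.neg (virt_nsmul hf m), h.nsmul hf,
      zpow_neg, zpow_natCast]

/-- parity data vanish on permutation characters if they vanish on those of 2-hyperelementary
subgroups -/
lemma ParR.of_hyp (h : ParR Ps Δ)
    (hU : ∀ U : Subgroup G, HypP 2 U → Δ (ind U (fun _ => 1)) = 1) : Δ (fun _ => 1) = 1 := by
  obtain ⟨N, hN, hN'⟩ := exists_constP (G := G) Nat.prime_two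
  have h1 : ∀ f ∈ SolP 2 G, Virt f ∧ Δ f = 1 := by
    intro f hf
    induction hf using AddSubgroup.closure_induction with
    | mem f hf =>
      obtain ⟨U, hU1, rfl⟩ := hf
      exact ⟨virt_ind _ virt_one, hU U hU1⟩
    | zero => exact ⟨zero_mem _, h.zero⟩
    | add a b _ _ ha hb => exact ⟨add_mem ha.1 hb.1, by rw [h.add ha.1 hb.1, ha.2, hb.2, one_mul]⟩
    | neg a _ ha => exact ⟨neg_mem ha.1, by rw [h.neg ha.1, ha.2, inv_one]⟩
  have h2 := (h1 _ hN').2
  rw [h.zsmul virt_one] at h2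
  have h3 := h.dual (virt_one (H := G))
  have h4 : Δ (fun _ => 1) ^ (2 : ℤ) = 1 := by
    rw [show (2 : ℤ) = ((2 : ℕ) : ℤ) by rfl, zpow_natCast, pow_two]
    exact h3
  obtain ⟨k, hk⟩ : ∃ k, N = 2 * k + 1 := by
    rcases Int.even_or_odd' N with ⟨k, hk | hk⟩
    · exact absurd ⟨k, hk⟩ hN
    · exact ⟨k, hk⟩
  rw [hk, zpow_add, zpow_mul, h4, one_zpow, one_mul, zpow_one] at h2
  exact h2

/-- reduction to the 2-hyperelementary subgroups whose elements of odd prime order are real -/
theorem par_mainR (h : ParR Ps Δ)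
    (hQ : ∀ Q : Subgroup G, HypP 2 Q → AllRReal Ps Q → Δ (ind Q (fun _ => 1)) = 1)
    (H : Subgroup G) : Δ (ind H (fun _ => 1)) = 1 := by
  have key : ∀ W : Subgroup G, HypP 2 W → Δ (ind W (fun _ => 1)) = 1 := by
    intro W hW
    refine hyp_mainR _ W rfl hW _ (h.restrict W) ?_
    intro Q h1 h2
    rw [ind_one_ind]
    let e := Q.equivMapOfInjective W.subtype W.subtype_injective
    exact hQ _ (HypP.of_injective e.symm.toMonoidHom e.symm.injective h1) (h2.congr e)
  refine (h.restrict H).of_hyp fun U hU => ?_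
  rw [ind_one_ind]
  let e := U.equivMapOfInjective H.subtype H.subtype_injective
  exact key _ (HypP.of_injective e.symm.toMonoidHom e.symm.injective hU)

end main

end Pool.Agent.R389
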