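import Mathlib
import Pool.Agent.R389.QQe

/-!
# Multiplicities in the Mordell-Weil representation and root numbers
-/

set_option autoImplicit false
set_option linter.unusedSectionVars false

namespace Pool.Agent.R389

open Pool.Agent.H302R2 Pool.Agent.H302R3 Pool.Agent.H541R3.ART Pool.Agent.W446.AS

section conv

variable {G : Type} [Group G]

/-- The formal properties of the multiplicities `s χ` of the irreducible characters `χ` in the
Mordell-Weil representation `A(F) ⊗ ℂ` and of the root numbers `w χ` of the twists of an abelian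
variety: duality, invariance under automorphisms of `ℂ` for real characters induced from linear
characters, and, for the primes in `Ps`, the dihedral relation. -/
structure RankData (Ps : Set ℕ) (s : (G → ℂ) → ℕ) (w : (G → ℂ) → ℂ) : Prop where
  dual : ∀ χ ∈ Irr G, s (fun g => χ g⁻¹) = s χ ∧ w χ * w (fun g => χ g⁻¹) = 1
  conj : ∀ (N : Subgroup G) (ψ : N →* ℂˣ) (k a : ℕ), a.Coprime k → (∀ n : N, ψ n ^ k = 1) →
    (∀ g, ind N (fun n => ((ψ n : ℂˣ) : ℂ)) g⁻¹ = ind N (fun n => ((ψ n : ℂˣ) : ℂ)) g) →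
    ∀ m m', IsDecomp (ind N (fun n => ((ψ n : ℂˣ) : ℂ))) m →
      IsDecomp (ind N (fun n => ((ψ n : ℂˣ) : ℂ) ^ a)) m' →
      ∑ᶠ χ ∈ Irr G, m' χ * s χ = ∑ᶠ χ ∈ Irr G, m χ * s χ ∧
        ∏ᶠ χ ∈ Irr G, w χ ^ m' χ = ∏ᶠ χ ∈ Irr G, w χ ^ m χ
  dihedral : ∀ p ∈ Ps, ∀ (N : Subgroup G) (h : G) (ψ : N →* ℂˣ),
    (∀ n : G, n ∈ N ↔ h * n * h⁻¹ ∈ N) → h ∉ N → h * h ∈ N → (∀ n : N, ψ n ^ p = 1) →
    (∀ n n' : N, (n' : G) = h * n * h⁻¹ → ψ n' = (ψ n)⁻¹) →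
    PParity s w (ind N (fun n => ((ψ n : ℂˣ) : ℂ)) + ind N (fun _ => 1))

variable [Finite G] {Ps : Set ℕ} {s : (G → ℂ) → ℕ} {w : (G → ℂ) → ℂ}

lemma RankData.dl_val (hd : RankData Ps s w) {χ : G → ℂ} (hχ : χ ∈ Irr G) :
    ((dl s w χ : ℂˣ) : ℂ) = (-1 : ℂ) ^ s χ * w χ := by
  have h1 : w χ ≠ 0 := left_ne_zero_of_mul_eq_one (hd.dual χ hχ).2
  have h2 : (-1 : ℂ) ^ s χ * w χ ≠ 0 := mul_ne_zero (pow_ne_zero _ (by norm_num)) h1
  rw [dl, dif_pos h2]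
  rfl

lemma RankData.sg_val (hd : RankData Ps s w) {f : G → ℂ} {m : (G → ℂ) → ℕ}
    (h : IsDecomp f m) : ((sg (dl s w) f : ℂˣ) : ℂ) =
      (-1 : ℂ) ^ (∑ᶠ χ ∈ Irr G, m χ * s χ) * ∏ᶠ χ ∈ Irr G, w χ ^ m χ := by
  rw [sg_decomp _ h, finsum_irrN (fun χ => m χ * s χ), finprod_irr (fun χ => w χ ^ m χ),
    ← Finset.prod_pow_eq_pow_sum, ← Finset.prod_mul_distrib, Units.coe_prod]
  refine Finset.prod_congr rfl fun χ hχ => ?_
  rw [Units.val_pow_eq_pow_val, hd.dl_val (mem_irrF.mp hχ), mul_pow, ← pow_mul, mul_comm (s χ)]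

lemma RankData.parity_iff (hd : RankData Ps s w) {f : G → ℂ} (hf : ∃ m, IsDecomp f m) :
    PParity s w f ↔ sg (dl s w) f = 1 := by
  constructor
  · intro h
    obtain ⟨m, hm⟩ := hf
    apply Units.ext
    rw [hd.sg_val hm, ← h m hm, neg_pow_sq, Units.val_one]
  · intro h m hm
    have h1 := hd.sg_val hm
    rw [h, Units.val_one] at h1
    calc (-1 : ℂ) ^ (∑ᶠ χ ∈ Irr G, m χ * s χ)
        = (-1 : ℂ) ^ (∑ᶠ χ ∈ Irr G, m χ * s χ) * ((-1 : ℂ) ^ (∑ᶠ χ ∈ Irr G, m χ * s χ) *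
          ∏ᶠ χ ∈ Irr G, w χ ^ m χ) := by rw [← h1, mul_one]
      _ = _ := by rw [← mul_assoc, neg_pow_sq, one_mul]

lemma RankData.par (hd : RankData Ps s w) : ParR Ps (sg (dl s w)) where
  add hf hf' := sg_add _ hf hf'
  dual {f} _ := by
    refine sg_dual (fun χ hχ => ?_) f
    apply Units.ext
    rw [Units.val_mul, hd.dl_val hχ, hd.dl_val (irr_dual hχ), (hd.dual χ hχ).1, Units.val_one]
    calc (-1 : ℂ) ^ s χ * w χ * ((-1) ^ s χ * w (fun g => χ g⁻¹))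
        = ((-1 : ℂ) ^ s χ * (-1) ^ s χ) * (w χ * w (fun g => χ g⁻¹)) := by ring
      _ = 1 := by rw [neg_pow_sq, (hd.dual χ hχ).2, one_mul]
  gal N ψ k a hk hψ hr := by
    obtain ⟨m, hm⟩ := ind_isDecomp N ψ
    obtain ⟨m', hm'⟩ := ind_isDecomp N (ψ ^ a)
    have hm'' : IsDecomp (ind N (fun n => ((ψ n : ℂˣ) : ℂ) ^ a)) m' := by
      simpa using hm'
    obtain ⟨h1, h2⟩ := hd.conj N ψ k a hk hψ hr m m' hm hm''
    apply Units.ext
    rw [hd.sg_val hm, hd.sg_val hm'', h1, h2]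
  dih p hp N t ψ h1 h2 h3 h4 h5 := by
    obtain ⟨m, hm⟩ := ind_isDecomp N ψ
    obtain ⟨m', hm'⟩ := one_decomp N
    exact (hd.parity_iff ⟨_, hm.add hm'⟩).mp (hd.dihedral p hp N t ψ h1 h2 h3 h4 h5)

theorem rank_final (hd : RankData Ps s w) {C : Subgroup G} [C.Normal]
    (hC : RTame Ps C) (hQ : ∀ Q : Subgroup (G ⧸ C), HypP 2 Q → AllRReal Ps Q →
      PParity s w (ind (Q.comap (QuotientGroup.mk' C)) (fun _ => 1))) (H : Subgroup G) :
    PParity s w (ind H (fun _ => 1)) :=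
  (hd.parity_iff (one_decomp H)).mpr (par_finalR hd.par hC
    (fun Q h1 h2 => (hd.parity_iff (one_decomp _)).mp (hQ Q h1 h2)) H)

end conv

end Pool.Agent.R389
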