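import Mathlib
import Pool.Agent.R389.QQf

/-!
# Abelian normal subgroups and permutation characters
-/

set_option autoImplicit false
set_option linter.unusedSectionVars false

namespace Pool.Agent.R389

open Pool.Agent.H302R2 Pool.Agent.H302R3 Pool.Agent.H541R3.ART Pool.Agent.W446.AS

section cj

variable {U : Type} [Group U] {V : Subgroup U} [V.Normal]

/-- conjugates of characters of a normal subgroup: `v ↦ ψ (u⁻¹ v u)` -/
def cjh (u : U) (ψ : V →* ℂˣ) : V →* ℂˣ := ψ.comp (MulAut.conjNormal u⁻¹).toMonoidHom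

lemma cjh_apply (u : U) (ψ : V →* ℂˣ) (v : V) : cjh u ψ v = ψ (MulAut.conjNormal u⁻¹ v) := rfl

lemma cjh_one (ψ : V →* ℂˣ) : cjh 1 ψ = ψ := by
  ext v; rw [cjh_apply, inv_one, map_one]; rfl

lemma cjh_mul (u u' : U) (ψ : V →* ℂˣ) : cjh (u * u') ψ = cjh u (cjh u' ψ) := by
  ext v
  rw [cjh_apply, cjh_apply, cjh_apply, mul_inv_rev, map_mul]
  rfl

lemma cjh_inv {u : U} {ψ φ : V →* ℂˣ} (h : cjh u ψ = φ) : cjh u⁻¹ φ = ψ := by
  rw [← h, ← cjh_mul, inv_mul_cancel, cjh_one]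

/-- conjugation commutes with powers -/
lemma cjh_pow (u : U) (ψ : V →* ℂˣ) (n : ℕ) : cjh u (ψ ^ n) = cjh u ψ ^ n := rfl

lemma cjh_inv' (u : U) (ψ : V →* ℂˣ) : cjh u ψ⁻¹ = (cjh u ψ)⁻¹ := rfl

/-- the stabilizer -/
def St (ψ : V →* ℂˣ) : Subgroup U where
  carrier := {u | cjh u ψ = ψ}
  one_mem' := cjh_one ψ
  mul_mem' {a b} ha hb := by
    rw [Set.mem_ofPred_eq] at ha hb ⊢
    rw [cjh_mul, hb, ha]
  inv_mem' {a} ha := by
    rw [Set.mem_ofPred_eq] at ha ⊢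
    exact cjh_inv ha

lemma mem_St {ψ : V →* ℂˣ} {u : U} : u ∈ St ψ ↔ cjh u ψ = ψ := Iff.rfl

/-- conjugation in the stabilizer -/
lemma St_conj {ψ : V →* ℂˣ} {s : U} (hs : s ∈ St ψ) (v : V) :
    ψ (MulAut.conjNormal s v) = ψ v := by
  have h1 : ψ v = cjh s ψ (MulAut.conjNormal s v) := by
    rw [cjh_apply, map_inv, MulAut.inv_apply_self]
  rw [h1, mem_St.mp hs]

end cj

/-- `V` is abelian and `U = V P` -/
structure Spl {U : Type} [Group U] (V P : Subgroup U) : Prop where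
  comm : ∀ a b : V, a * b = b * a
  dec : ∀ u : U, ∃ v : V, ∃ s ∈ P, u = v * s

section spl

variable {U : Type} [Group U] [Finite U] {V P : Subgroup U} [V.Normal] (h : Spl V P)
include h

lemma Spl.cj_V (v : V) (ψ : V →* ℂˣ) : cjh (v : U) ψ = ψ := by
  ext w
  rw [cjh_apply]
  congr 2
  apply Subtype.ext
  rw [MulAut.conjNormal_apply, inv_inv]
  have := congrArg Subtype.val (h.comm w v)
  rw [Subgroup.coe_mul, Subgroup.coe_mul] at this
  rw [mul_assoc, this, inv_mul_cancel_left]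

lemma Spl.V_le (ψ : V →* ℂˣ) : V ≤ St ψ := fun v hv => h.cj_V ⟨v, hv⟩ ψ

/-- the component in `V` -/
noncomputable def Spl.vv (u : U) : V := (h.dec u).choose

/-- the component in `P` -/
noncomputable def Spl.ss (u : U) : U := (h.dec u).choose_spec.choose

lemma Spl.ss_mem (u : U) : h.ss u ∈ P := (h.dec u).choose_spec.choose_spec.1

lemma Spl.eq (u : U) : u = h.vv u * h.ss u := (h.dec u).choose_spec.choose_spec.2

/-- the value does not depend on the decomposition -/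
lemma Spl.val {ψ : V →* ℂˣ} (hψ : ∀ v : V, (v : U) ∈ P → ψ v = 1) (v : V) {s : U} (hs : s ∈ P) :
    ψ (h.vv (v * s)) = ψ v := by
  have h1 := h.eq (v * s)
  have h2 : ((h.vv (v * s))⁻¹ * v : V) ∈ (P.subgroupOf V) := by
    rw [Subgroup.mem_subgroupOf, Subgroup.coe_mul, Subgroup.coe_inv]
    have h3 : ((h.vv (v * s) : V) : U)⁻¹ * v = h.ss (v * s) * s⁻¹ := by
      rw [inv_mul_eq_iff_eq_mul, ← mul_assoc, ← h1, mul_inv_cancel_right]
    rw [h3]
    exact P.mul_mem (h.ss_mem _) (P.inv_mem hs)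
  have h4 := hψ _ (Subgroup.mem_subgroupOf.mp h2)
  rw [map_mul, map_inv, inv_mul_eq_one] at h4
  exact h4

lemma Spl.ss_St {ψ : V →* ℂˣ} {u : U} (hu : u ∈ St ψ) : h.ss u ∈ St ψ := by
  have h1 : h.ss u = ((h.vv u : V) : U)⁻¹ * u := by
    rw [eq_inv_mul_iff_mul_eq]; exact (h.eq u).symm
  rw [h1]
  exact (St ψ).mul_mem ((St ψ).inv_mem (h.V_le ψ (h.vv u).2)) hu

/-- the extension to the stabilizer -/
noncomputable def Spl.ti {ψ : V →* ℂˣ} (hψ : ∀ v : V, (v : U) ∈ P → ψ v = 1) : St ψ →* ℂˣ where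
  toFun x := ψ (h.vv x)
  map_one' := by
    have := h.val hψ 1 P.one_mem
    rw [map_one, Subgroup.coe_one, one_mul] at this
    exact this
  map_mul' x y := by
    have h1 : ((x * y : St ψ) : U) = ((h.vv x * MulAut.conjNormal (h.ss x) (h.vv y) : V) : U) *
        (h.ss x * h.ss y) := by
      rw [Subgroup.coe_mul, Subgroup.coe_mul, MulAut.conjNormal_apply]
      conv_lhs => rw [h.eq x, h.eq y]
      group
    rw [h1, h.val hψ _ (P.mul_mem (h.ss_mem _) (h.ss_mem _)), map_mul,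
      St_conj (h.ss_St x.2)]

lemma Spl.ti_apply {ψ : V →* ℂˣ} (hψ : ∀ v : V, (v : U) ∈ P → ψ v = 1) (x : St ψ) :
    h.ti hψ x = ψ (h.vv x) := rfl

/-- extension by zero -/
noncomputable def Spl.E (ψ : V →* ℂˣ) (x : U) : ℂ :=
  ext (St ψ) (fun n => ((ψ (h.vv n) : ℂˣ) : ℂ)) x

/-- conjugates of characters trivial on `V ∩ P` -/
lemma Spl.cj_triv {ψ : V →* ℂˣ} (hψ : ∀ v : V, (v : U) ∈ P → ψ v = 1) (u : U) :
    ∀ v : V, (v : U) ∈ P → cjh u ψ v = 1 := by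
  intro v hv
  have h1 : cjh u ψ = cjh (h.vv u : U) (cjh (h.ss u) ψ) := by rw [← cjh_mul, ← h.eq]
  rw [h1, h.cj_V, cjh_apply]
  apply hψ
  rw [MulAut.conjNormal_apply, inv_inv]
  exact P.mul_mem (P.mul_mem (P.inv_mem (h.ss_mem u)) hv) (h.ss_mem u)

lemma Spl.E_conj {ψ : V →* ℂˣ} (hψ : ∀ v : V, (v : U) ∈ P → ψ v = 1) (u x : U) :
    h.E (cjh u ψ) x = h.E ψ (u⁻¹ * x * u) := by
  have hmem : x ∈ St (cjh u ψ) ↔ u⁻¹ * x * u ∈ St ψ := by
    rw [mem_St, mem_St, ← cjh_mul]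
    constructor
    · intro h1
      rw [mul_assoc, cjh_mul, h1, ← cjh_mul, inv_mul_cancel, cjh_one]
    · intro h1
      rw [mul_assoc, cjh_mul] at h1
      have h2 := cjh_inv h1
      rw [inv_inv] at h2
      exact h2.symm
  by_cases hx : x ∈ St (cjh u ψ)
  · rw [Spl.E, Spl.E, ext_mem _ _ hx, ext_mem _ _ (hmem.mp hx)]
    congr 1
    simp only
    set φ := cjh u ψ with hφ
    have h1 : φ = cjh (h.ss u) ψ := by
      rw [hφ]
      conv_lhs => rw [h.eq u, cjh_mul, h.cj_V]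
    set w := h.vv u
    set t := h.ss u
    set v := h.vv x
    set s := h.ss x
    have hs : s ∈ St φ := h.ss_St hx
    have e1 : u⁻¹ * x * u = ((MulAut.conjNormal t⁻¹ (w⁻¹ * v * MulAut.conjNormal s w) : V) : U) *
        (t⁻¹ * s * t) := by
      rw [MulAut.conjNormal_apply, Subgroup.coe_mul, Subgroup.coe_mul, MulAut.conjNormal_apply,
        Subgroup.coe_inv]
      conv_lhs => rw [h.eq u, h.eq x]
      change ((h.vv u : V) * h.ss u : U)⁻¹ * ((h.vv x : V) * h.ss x) * ((h.vv u : V) * h.ss u) =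
        (h.ss u)⁻¹ * (((h.vv u : V) : U)⁻¹ * (h.vv x : V) * (h.ss x * (h.vv u : V) * (h.ss x)⁻¹)) *
          (h.ss u)⁻¹⁻¹ * ((h.ss u)⁻¹ * h.ss x * h.ss u)
      group
    rw [e1, h.val hψ _ (P.mul_mem (P.mul_mem (P.inv_mem (h.ss_mem u)) (h.ss_mem x)) (h.ss_mem u)),
      ← cjh_apply, ← h1, map_mul, map_mul, map_inv, St_conj hs, mul_comm, mul_inv_cancel_left]
  · rw [Spl.E, Spl.E, ext_not _ _ hx, ext_not _ _ (fun h1 => hx (hmem.mpr h1))]

end spl

end Pool.Agent.R389
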