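import Mathlib
import Pool.Agent.R389.RRa

/-!
# The permutation character of a complement to an abelian normal subgroup
-/

set_option autoImplicit false
set_option linter.unusedSectionVars false

namespace Pool.Agent.R389

open Pool.Agent.H302R2 Pool.Agent.H302R3 Pool.Agent.H541R3.ART Pool.Agent.W446.AS

/-- characters of `V` trivial on `V ∩ P` -/
abbrev Dd {U : Type} [Group U] (V P : Subgroup U) : Type :=
  {ψ : V →* ℂˣ // ∀ v : V, (v : U) ∈ P → ψ v = 1}

section spl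

variable {U : Type} [Group U] [Finite U] {V P : Subgroup U} [V.Normal] (h : Spl V P)
include h

lemma Spl.exists_sep {y : V} (hy : (y : U) ∉ P) : ∃ ψ : Dd V P, ψ.1 y ≠ 1 := by
  let _ : CommGroup V := { (inferInstance : Group V) with mul_comm := h.comm }
  let W : Subgroup V := P.subgroupOf V
  have hy' : ((y : V) : V ⧸ W) ≠ 1 := by
    intro h1
    exact hy (Subgroup.mem_subgroupOf.mp ((QuotientGroup.eq_one_iff y).mp h1))
  obtain ⟨φ, hφ⟩ := CommGroup.exists_apply_ne_one_of_hasEnoughRootsOfUnity (V ⧸ W) ℂ hy'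
  refine ⟨⟨φ.comp (QuotientGroup.mk' W), fun v hv => ?_⟩, hφ⟩
  have h1 : ((v : V) : V ⧸ W) = 1 := (QuotientGroup.eq_one_iff v).mpr (Subgroup.mem_subgroupOf.mpr hv)
  change φ ((v : V) : V ⧸ W) = 1
  rw [h1, map_one]

open Classical in
lemma Spl.dual_sum [Fintype (Dd V P)] (y : V) :
    ∑ ψ : Dd V P, ((ψ.1 y : ℂˣ) : ℂ) = if (y : U) ∈ P then (Fintype.card (Dd V P) : ℂ) else 0 := by
  by_cases hy : (y : U) ∈ P
  · rw [if_pos hy, Finset.sum_congr rfl (g := fun _ => (1 : ℂ)) fun ψ _ => by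
      rw [ψ.2 y hy, Units.val_one]]
    simp
  · rw [if_neg hy]
    obtain ⟨ψ₀, h0⟩ := h.exists_sep hy
    let e : Dd V P ≃ Dd V P :=
      { toFun := fun ψ => ⟨ψ₀.1 * ψ.1, fun v hv => by
          rw [MonoidHom.mul_apply, ψ₀.2 v hv, ψ.2 v hv, one_mul]⟩
        invFun := fun ψ => ⟨ψ₀.1⁻¹ * ψ.1, fun v hv => by
          rw [MonoidHom.mul_apply, MonoidHom.inv_apply, ψ₀.2 v hv, ψ.2 v hv, inv_one, one_mul]⟩
        left_inv := fun ψ => Subtype.ext (MonoidHom.ext fun v => by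
          rw [MonoidHom.mul_apply, MonoidHom.inv_apply, MonoidHom.mul_apply, inv_mul_cancel_left])
        right_inv := fun ψ => Subtype.ext (MonoidHom.ext fun v => by
          rw [MonoidHom.mul_apply, MonoidHom.mul_apply, MonoidHom.inv_apply,
            mul_inv_cancel_left]) }
    have h1 : ∑ ψ : Dd V P, ((ψ.1 y : ℂˣ) : ℂ) =
        ((ψ₀.1 y : ℂˣ) : ℂ) * ∑ ψ : Dd V P, ((ψ.1 y : ℂˣ) : ℂ) := by
      rw [Finset.mul_sum, ← Equiv.sum_comp e]
      refine Finset.sum_congr rfl fun ψ _ => ?_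
      change (((ψ₀.1 * ψ.1) y : ℂˣ) : ℂ) = _
      rw [MonoidHom.mul_apply, Units.val_mul]
    have h2 : (((ψ₀.1 y : ℂˣ) : ℂ) - 1) * ∑ ψ : Dd V P, ((ψ.1 y : ℂˣ) : ℂ) = 0 := by
      linear_combination -h1
    refine (mul_eq_zero.mp h2).resolve_left ?_
    intro h3
    exact h0 (Units.ext (by rw [Units.val_one]; exact sub_eq_zero.mp h3))

omit h [Finite U] [V.Normal] in
open Classical in
lemma sum_lin [Fintype V] (μ : V →* ℂˣ) :
    ∑ v : V, ((μ v : ℂˣ) : ℂ) = if μ = 1 then (Fintype.card V : ℂ) else 0 := by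
  by_cases hμ : μ = 1
  · rw [if_pos hμ, hμ]; simp
  · rw [if_neg hμ]
    have h1 := sum_hom_units_eq_zero ((Units.coeHom ℂ).comp μ) (by
      intro h2
      apply hμ
      ext v
      exact congrArg (fun f : V →* ℂ => f v) h2)
    exact h1

lemma Spl.card_eq [Fintype (Dd V P)] :
    (Fintype.card (Dd V P) : ℂ) * Nat.card (P.subgroupOf V) = Nat.card V := by
  classical
  have : Fintype V := Fintype.ofFinite _
  have h1 : ∑ y : V, ∑ ψ : Dd V P, ((ψ.1 y : ℂˣ) : ℂ) =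
      (Fintype.card (Dd V P) : ℂ) * Nat.card (P.subgroupOf V) := by
    rw [Finset.sum_congr rfl fun y _ => h.dual_sum y, ← Finset.sum_filter, Finset.sum_const,
      nsmul_eq_mul, mul_comm]
    congr 2
    rw [← Fintype.card_subtype, ← Nat.card_eq_fintype_card]
    rfl
  rw [← h1, Finset.sum_comm, Finset.sum_congr rfl fun (ψ : Dd V P) _ => sum_lin ψ.1,
    Finset.sum_eq_single ⟨1, fun v _ => rfl⟩]
  · rw [if_pos rfl, Nat.card_eq_fintype_card]
  · intro ψ _ hψ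
    rw [if_neg (fun h2 => hψ (Subtype.ext h2))]
  · intro h2; exact absurd (Finset.mem_univ _) h2

lemma Spl.ind_P [Fintype (Dd V P)] (x : U) :
    ind P (fun _ => (1 : ℂ)) x = ∑ ψ : Dd V P, h.E ψ.1 x := by
  classical
  have : Fintype U := Fintype.ofFinite _
  have : Fintype V := Fintype.ofFinite _
  have : Fintype P := Fintype.ofFinite _
  let g : U → ℂ := fun u => ext P (fun _ => (1 : ℂ)) (u⁻¹ * x * u)
  have hg : ∀ (w t : U), t ∈ P → g (w * t) = g w := by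
    intro w t ht
    have h1 : (w * t)⁻¹ * x * (w * t) ∈ P ↔ w⁻¹ * x * w ∈ P := by
      have e1 : (w * t)⁻¹ * x * (w * t) = t⁻¹ * (w⁻¹ * x * w) * t := by group
      rw [e1, P.mul_mem_cancel_right ht, P.mul_mem_cancel_left (P.inv_mem ht)]
    simp only [g]
    by_cases h2 : w⁻¹ * x * w ∈ P
    · rw [ext_mem _ _ h2, ext_mem _ _ (h1.mpr h2)]
    · rw [ext_not _ _ h2, ext_not _ _ (fun h3 => h2 (h1.mp h3))]
  -- sum over `V × P`
  have hfib : ∀ u : U, (Finset.univ.filter (fun a : V × P => (a.1 : U) * a.2 = u)).card =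
      Nat.card (P.subgroupOf V) := by
    intro u
    rw [← Fintype.card_subtype, ← Nat.card_eq_fintype_card]
    have hz : ∀ z : P.subgroupOf V, ((z : V) : U) ∈ P := fun z => Subgroup.mem_subgroupOf.mp z.2
    refine Nat.card_congr ⟨fun a => ⟨(h.vv u)⁻¹ * a.1.1, ?_⟩,
      fun z => ⟨(h.vv u * z, ⟨((z : V) : U)⁻¹ * h.ss u,
        P.mul_mem (P.inv_mem (hz z)) (h.ss_mem u)⟩), ?_⟩, ?_, ?_⟩
    · have h1 := a.2
      rw [Subgroup.mem_subgroupOf, Subgroup.coe_mul, Subgroup.coe_inv]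
      have h2 : ((h.vv u : V) : U)⁻¹ * a.1.1 = h.ss u * (a.1.2 : U)⁻¹ := by
        rw [inv_mul_eq_iff_eq_mul, ← mul_assoc, ← h.eq u, eq_mul_inv_iff_mul_eq]
        exact h1
      rw [h2]
      exact P.mul_mem (h.ss_mem u) (P.inv_mem a.1.2.2)
    · change ((h.vv u * z : V) : U) * (((z : V) : U)⁻¹ * h.ss u) = u
      rw [Subgroup.coe_mul, mul_assoc, mul_inv_cancel_left]
      exact (h.eq u).symm
    · rintro ⟨⟨a, b⟩, hab⟩
      simp only at hab
      apply Subtype.ext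
      refine Prod.ext ?_ ?_
      · exact mul_inv_cancel_left _ _
      · apply Subtype.ext
        simp only [Subgroup.coe_mul, Subgroup.coe_inv, mul_inv_rev, inv_inv]
        rw [mul_assoc, ← h.eq u, ← hab, inv_mul_cancel_left]
    · intro z
      apply Subtype.ext
      exact inv_mul_cancel_left _ _
  have h1 : ∑ a : V × P, g ((a.1 : U) * a.2) = (Nat.card (P.subgroupOf V) : ℂ) * ∑ u, g u :=
    sum_fib (fun a : V × P => (a.1 : U) * a.2) _ hfib g
  have h2 : ∑ a : V × P, g ((a.1 : U) * a.2) = (Nat.card P : ℂ) * ∑ w : V, g w := by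
    rw [Fintype.sum_prod_type, Finset.mul_sum]
    refine Finset.sum_congr rfl fun w _ => ?_
    rw [Finset.sum_congr rfl fun (t : P) _ => hg w t t.2, Finset.sum_const, Finset.card_univ,
      nsmul_eq_mul, ← Nat.card_eq_fintype_card]
  -- the indicator
  have h3 : ∀ w : V, (Fintype.card (Dd V P) : ℂ) * g w =
      ∑ ψ : Dd V P, ((ψ.1 (w⁻¹ * h.vv x * MulAut.conjNormal (h.ss x) w) : ℂˣ) : ℂ) := by
    intro w
    rw [h.dual_sum]
    have e1 : (w : U)⁻¹ * x * w = ((w⁻¹ * h.vv x * MulAut.conjNormal (h.ss x) w : V) : U) * h.ss x := by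
      rw [Subgroup.coe_mul, Subgroup.coe_mul, MulAut.conjNormal_apply, Subgroup.coe_inv]
      conv_lhs => rw [h.eq x]
      group
    simp only [g]
    by_cases h4 : ((w⁻¹ * h.vv x * MulAut.conjNormal (h.ss x) w : V) : U) ∈ P
    · rw [if_pos h4, ext_mem _ _ (by rw [e1]; exact P.mul_mem h4 (h.ss_mem x)), mul_one]
    · rw [if_neg h4, ext_not _ _ (by
        rw [e1, P.mul_mem_cancel_right (h.ss_mem x)]; exact h4), mul_zero]
  have h4 : ∀ ψ : Dd V P, ∑ w : V, ((ψ.1 (w⁻¹ * h.vv x * MulAut.conjNormal (h.ss x) w) : ℂˣ) : ℂ) =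
      (Nat.card V : ℂ) * h.E ψ.1 x := by
    intro ψ
    have e2 : ∀ w : V, ((ψ.1 (w⁻¹ * h.vv x * MulAut.conjNormal (h.ss x) w) : ℂˣ) : ℂ) =
        ((ψ.1 (h.vv x) : ℂˣ) : ℂ) * (((ψ.1⁻¹ * cjh (h.ss x)⁻¹ ψ.1) w : ℂˣ) : ℂ) := by
      intro w
      rw [← Units.val_mul, MonoidHom.mul_apply, MonoidHom.inv_apply, cjh_apply, inv_inv, map_mul,
        map_mul, map_inv]
      congr 1
      rw [mul_comm (ψ.1 w)⁻¹, mul_assoc]
    rw [Finset.sum_congr rfl fun w _ => e2 w, ← Finset.mul_sum, sum_lin]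
    have e3 : ψ.1⁻¹ * cjh (h.ss x)⁻¹ ψ.1 = 1 ↔ x ∈ St ψ.1 := by
      have e4 : ψ.1⁻¹ * cjh (h.ss x)⁻¹ ψ.1 = 1 ↔ ψ.1 = cjh (h.ss x)⁻¹ ψ.1 := by
        constructor
        · intro h5
          ext v
          have h6 := DFunLike.congr_fun h5 v
          rw [MonoidHom.mul_apply, MonoidHom.inv_apply, MonoidHom.one_apply, inv_mul_eq_one] at h6
          rw [h6]
        · intro h5
          ext v
          rw [MonoidHom.mul_apply, MonoidHom.inv_apply, MonoidHom.one_apply, ← h5, inv_mul_cancel]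
      rw [e4]
      constructor
      · intro h5
        have h6 : h.ss x ∈ St ψ.1 := by
          have := (St ψ.1).inv_mem (mem_St.mpr h5.symm)
          rwa [inv_inv] at this
        rw [h.eq x]
        exact (St ψ.1).mul_mem (h.V_le ψ.1 (h.vv x).2) h6
      · intro h5
        exact (mem_St.mp ((St ψ.1).inv_mem (h.ss_St h5))).symm
    by_cases h5 : x ∈ St ψ.1
    · rw [if_pos (e3.mpr h5), Spl.E, ext_mem _ _ h5, Nat.card_eq_fintype_card, mul_comm]
    · rw [if_neg (fun h6 => h5 (e3.mp h6)), Spl.E, ext_not _ _ h5, mul_zero, mul_zero]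
  have h5 : (Fintype.card (Dd V P) : ℂ) * ∑ w : V, g w =
      (Nat.card V : ℂ) * ∑ ψ : Dd V P, h.E ψ.1 x := by
    rw [Finset.mul_sum, Finset.sum_congr rfl fun w _ => h3 w, Finset.sum_comm,
      Finset.sum_congr rfl fun ψ _ => h4 ψ, ← Finset.mul_sum]
  have hP : (Nat.card P : ℂ) ≠ 0 := card_ne
  have hV : (Nat.card V : ℂ) ≠ 0 := card_ne
  have hc := h.card_eq
  have h6 : ind P (fun _ => (1 : ℂ)) x = (Nat.card P : ℂ)⁻¹ * ∑ u, g u := ind_eq _ _ _
  rw [h6]
  have h7 : (Nat.card V : ℂ) * ∑ u, g u =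
      (Nat.card V : ℂ) * ((Nat.card P : ℂ) * ∑ ψ : Dd V P, h.E ψ.1 x) := by
    calc (Nat.card V : ℂ) * ∑ u, g u
        = (Fintype.card (Dd V P) : ℂ) * (Nat.card (P.subgroupOf V) * ∑ u, g u) := by
          rw [← hc]; ring
      _ = (Fintype.card (Dd V P) : ℂ) * ((Nat.card P : ℂ) * ∑ w : V, g w) := by rw [← h1, h2]
      _ = (Nat.card P : ℂ) * ((Fintype.card (Dd V P) : ℂ) * ∑ w : V, g w) := by ring
      _ = _ := by rw [h5]; ring
  rw [mul_left_cancel₀ hV h7, inv_mul_cancel_left₀ hP]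

end spl

end Pool.Agent.R389
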