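import Mathlib
import Pool.Agent.R389.RRb

/-!
# Decomposition of the permutation character into orbits
-/

set_option autoImplicit false
set_option linter.unusedSectionVars false

namespace Pool.Agent.R389

open Pool.Agent.H302R2 Pool.Agent.H302R3 Pool.Agent.H541R3.ART Pool.Agent.W446.AS

section spl

variable {U : Type} [Group U] [Finite U] {V P : Subgroup U} [V.Normal] (h : Spl V P)

/-- conjugate characters -/
def Rel (ψ φ : V →* ℂˣ) : Prop := ∃ u : U, cjh u ψ = φ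

omit [Finite U] in
lemma Rel.refl (ψ : V →* ℂˣ) : Rel (U := U) ψ ψ := ⟨1, cjh_one ψ⟩
omit [Finite U] in
lemma Rel.symm {ψ φ : V →* ℂˣ} (h : Rel (U := U) ψ φ) : Rel (U := U) φ ψ := by
  obtain ⟨u, hu⟩ := h
  exact ⟨u⁻¹, cjh_inv hu⟩
omit [Finite U] in
lemma Rel.trans {ψ φ η : V →* ℂˣ} (h : Rel (U := U) ψ φ) (h' : Rel (U := U) φ η) :
    Rel (U := U) ψ η := by
  obtain ⟨u, hu⟩ := h
  obtain ⟨u', hu'⟩ := h'
  exact ⟨u' * u, by rw [cjh_mul, hu, hu']⟩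
omit [Finite U] in
lemma Rel.pow {ψ φ : V →* ℂˣ} (h : Rel (U := U) ψ φ) (n : ℕ) : Rel (U := U) (ψ ^ n) (φ ^ n) := by
  obtain ⟨u, hu⟩ := h
  exact ⟨u, by rw [cjh_pow, hu]⟩
omit [Finite U] in
lemma Rel.inv {ψ φ : V →* ℂˣ} (h : Rel (U := U) ψ φ) : Rel (U := U) ψ⁻¹ φ⁻¹ := by
  obtain ⟨u, hu⟩ := h
  exact ⟨u, by rw [cjh_inv', hu]⟩

variable (V P) in
/-- orbits -/
def orb : Setoid (Dd V P) where
  r ψ φ := Rel (U := U) ψ.1 φ.1
  iseqv := ⟨fun _ => Rel.refl _, fun h => h.symm, fun h h' => h.trans h'⟩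

/-- the induced character -/
noncomputable def Spl.G (h : Spl V P) (ψ : Dd V P) : U → ℂ :=
  ind (St ψ.1) (fun n => ((h.ti ψ.2 n : ℂˣ) : ℂ))

include h

lemma Spl.G_virt (ψ : Dd V P) : Virt (h.G ψ) := virt_ind _ (virt_lin _)

lemma Spl.G_E [Fintype U] (ψ : Dd V P) (x : U) :
    h.G ψ x = (Nat.card (St ψ.1) : ℂ)⁻¹ * ∑ u : U, h.E ψ.1 (u⁻¹ * x * u) := by
  rw [Spl.G, ind_eq]
  rfl

open Classical in
lemma Spl.G_eq [Fintype (Dd V P)] (ψ : Dd V P) (x : U) :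
    h.G ψ x = ∑ φ : Dd V P, if Rel (U := U) ψ.1 φ.1 then h.E φ.1 x else 0 := by
  have : Fintype U := Fintype.ofFinite _
  rw [h.G_E]
  let g : U → Dd V P := fun u => ⟨cjh u ψ.1, h.cj_triv ψ.2 u⟩
  have h1 : ∀ u, h.E ψ.1 (u⁻¹ * x * u) = h.E (g u).1 x := fun u => (h.E_conj ψ.2 u x).symm
  rw [Finset.sum_congr rfl fun u _ => h1 u,
    ← Finset.sum_fiberwise_of_maps_to (s := (Finset.univ : Finset U)) (t := Finset.univ) (g := g)
    (fun _ _ => Finset.mem_univ _), Finset.mul_sum]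
  refine Finset.sum_congr rfl fun φ _ => ?_
  rw [Finset.sum_congr rfl (g := fun _ => h.E φ.1 x)
    (fun u hu => by rw [(Finset.mem_filter.mp hu).2]), Finset.sum_const, nsmul_eq_mul]
  by_cases hr : Rel (U := U) ψ.1 φ.1
  · obtain ⟨u₀, hu₀⟩ := hr
    have hc : (Finset.univ.filter (fun u : U => g u = φ)).card = Nat.card (St ψ.1) := by
      rw [← Fintype.card_subtype, ← Nat.card_eq_fintype_card]
      have hk : ∀ u : U, g u = φ ↔ u₀⁻¹ * u ∈ St ψ.1 := by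
        intro u
        rw [mem_St, cjh_mul, Subtype.ext_iff]
        constructor
        · intro h2
          have h3 : cjh u ψ.1 = φ.1 := h2
          rw [h3, ← hu₀, ← cjh_mul, inv_mul_cancel, cjh_one]
        · intro h2
          have h3 := cjh_inv h2
          rw [inv_inv, hu₀] at h3
          exact h3.symm
      refine Nat.card_congr ⟨fun u => ⟨u₀⁻¹ * u, (hk u).mp u.2⟩,
        fun s => ⟨u₀ * s, (hk _).mpr (by simp)⟩, ?_, ?_⟩
      · intro u; apply Subtype.ext; simp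
      · intro s; apply Subtype.ext; simp
    rw [hc, if_pos ⟨u₀, hu₀⟩, ← mul_assoc, inv_mul_cancel₀ card_ne, one_mul]
  · rw [if_neg hr, Finset.card_eq_zero.mpr, Nat.cast_zero, zero_mul, mul_zero]
    rw [Finset.filter_eq_empty_iff]
    intro u _ h2
    exact hr ⟨u, congrArg Subtype.val h2⟩

lemma Spl.G_congr {ψ φ : Dd V P} (hr : Rel (U := U) ψ.1 φ.1) : h.G ψ = h.G φ := by
  classical
  have : Fintype (Dd V P) := Fintype.ofFinite _
  funext x
  rw [h.G_eq, h.G_eq]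
  refine Finset.sum_congr rfl fun η _ => ?_
  have h1 : Rel (U := U) ψ.1 η.1 ↔ Rel (U := U) φ.1 η.1 :=
    ⟨fun h2 => hr.symm.trans h2, fun h2 => hr.trans h2⟩
  simp only [h1]

lemma Spl.ind_P_eq [Fintype (Quotient (orb V P))] :
    ind P (fun _ => (1 : ℂ)) = ∑ ω : Quotient (orb V P), h.G ω.out := by
  classical
  have : Fintype (Dd V P) := Fintype.ofFinite _
  funext x
  rw [h.ind_P, Finset.sum_apply, Finset.sum_congr rfl fun ω _ => h.G_eq _ x, Finset.sum_comm]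
  refine Finset.sum_congr rfl fun φ _ => ?_
  rw [Finset.sum_eq_single (Quotient.mk (orb V P) φ)]
  · rw [if_pos]
    exact Quotient.mk_out (s := orb V P) φ
  · intro ω _ hω
    rw [if_neg]
    intro hr
    apply hω
    rw [← Quotient.out_eq ω]
    exact Quotient.sound (s := orb V P) hr
  · intro h2; exact absurd (Finset.mem_univ _) h2

/-- powers and inverses of elements of `Dd` -/
def dpow (ψ : Dd V P) (n : ℕ) : Dd V P :=
  ⟨ψ.1 ^ n, fun v hv => by rw [MonoidHom.pow_apply, ψ.2 v hv, one_pow]⟩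

/-- the inverse -/
def dinv (ψ : Dd V P) : Dd V P :=
  ⟨ψ.1⁻¹, fun v hv => by rw [MonoidHom.inv_apply, ψ.2 v hv, inv_one]⟩

lemma Spl.E_inv (ψ : Dd V P) (x : U) : h.E ψ.1⁻¹ x = h.E ψ.1 x⁻¹ := by
  have hm : x ∈ St ψ.1⁻¹ ↔ x⁻¹ ∈ St ψ.1 := by
    rw [inv_mem_iff, mem_St, mem_St, cjh_inv']
    constructor
    · intro h1
      ext v
      have h2 := DFunLike.congr_fun h1 v
      rw [MonoidHom.inv_apply, MonoidHom.inv_apply, inv_inj] at h2
      rw [h2]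
    · intro h1; rw [h1]
  by_cases hx : x⁻¹ ∈ St ψ.1
  · rw [Spl.E, Spl.E, ext_mem _ _ hx, ext_mem _ _ (hm.mpr hx)]
    have hx' : x ∈ St ψ.1 := inv_mem_iff.mp hx
    have h1 := map_inv (h.ti ψ.2) ⟨x, hx'⟩
    rw [h.ti_apply, h.ti_apply] at h1
    have h2 : ψ.1 (h.vv x⁻¹) = (ψ.1 (h.vv x))⁻¹ := h1
    change (((ψ.1⁻¹) (h.vv x) : ℂˣ) : ℂ) = ((ψ.1 (h.vv x⁻¹) : ℂˣ) : ℂ)
    rw [h2, MonoidHom.inv_apply]
  · rw [Spl.E, Spl.E, ext_not _ _ hx, ext_not _ _ (fun h1 => hx (hm.mp h1))]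

lemma Spl.card_St_inv (ψ : Dd V P) : St ψ.1⁻¹ = St ψ.1 := by
  ext u
  rw [mem_St, mem_St, cjh_inv']
  constructor
  · intro h1
    ext v
    have h2 := DFunLike.congr_fun h1 v
    rw [MonoidHom.inv_apply, MonoidHom.inv_apply, inv_inj] at h2
    rw [h2]
  · intro h1; rw [h1]

lemma Spl.G_dual (ψ : Dd V P) : (fun g => h.G ψ g⁻¹) = h.G (dinv ψ) := by
  classical
  have : Fintype U := Fintype.ofFinite _
  funext x
  rw [h.G_E, h.G_E]
  have h1 : St (dinv ψ).1 = St ψ.1 := h.card_St_inv ψ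
  rw [h1]
  congr 1
  refine Finset.sum_congr rfl fun u _ => ?_
  have h2 : (dinv ψ).1 = ψ.1⁻¹ := rfl
  rw [h2, h.E_inv]
  congr 1
  group

/-- powers prime to the exponent -/
lemma Spl.G_pow {l n : ℕ} (hl : ∀ v : V, v ^ l = 1) (hn : n.Coprime l) (ψ : Dd V P) :
    h.G (dpow ψ n) = ind (St ψ.1) (fun m => ((h.ti ψ.2 m : ℂˣ) : ℂ) ^ n) := by
  classical
  have : Fintype U := Fintype.ofFinite _
  have hS : St (ψ.1 ^ n) = St ψ.1 := by
    ext u
    rw [mem_St, mem_St, cjh_pow]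
    constructor
    · intro h1
      ext v
      have h2 := DFunLike.congr_fun h1 v
      rw [MonoidHom.pow_apply, MonoidHom.pow_apply] at h2
      have h3 : (cjh u ψ.1 v * (ψ.1 v)⁻¹) ^ n = 1 := by
        rw [mul_pow, inv_pow, h2, mul_inv_cancel]
      have h4 : (cjh u ψ.1 v * (ψ.1 v)⁻¹) ^ l = 1 := by
        rw [mul_pow, inv_pow, ← map_pow, ← map_pow, hl, map_one, map_one, inv_one, one_mul]
      have h5 : cjh u ψ.1 v * (ψ.1 v)⁻¹ = 1 := by
        rw [← orderOf_eq_one_iff, ← Nat.dvd_one, ← hn]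
        exact Nat.dvd_gcd (orderOf_dvd_of_pow_eq_one h3) (orderOf_dvd_of_pow_eq_one h4)
      rw [mul_inv_eq_one] at h5
      rw [h5]
    · intro h1; rw [h1]
  funext x
  rw [h.G_E, ind_eq]
  have h1 : (dpow ψ n).1 = ψ.1 ^ n := rfl
  rw [h1, hS]
  congr 1
  refine Finset.sum_congr rfl fun u _ => ?_
  rw [Spl.E, hS]
  by_cases hx : u⁻¹ * x * u ∈ St ψ.1
  · rw [ext_mem _ _ hx, ext_mem _ _ hx]
    change (((ψ.1 ^ n) (h.vv _) : ℂˣ) : ℂ) = _
    rw [MonoidHom.pow_apply, Units.val_pow_eq_pow_val]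
    rfl
  · rw [ext_not _ _ hx, ext_not _ _ hx]

end spl

end Pool.Agent.R389
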