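import Mathlib
import Pool.Agent.R389.RRc

/-!
# Products over orbits
-/

set_option autoImplicit false
set_option linter.unusedSectionVars false

namespace Pool.Agent.R389

open Pool.Agent.H302R2 Pool.Agent.H302R3 Pool.Agent.H541R3.ART Pool.Agent.W446.AS

section spl

variable {U : Type} [Group U] [Finite U] {V P : Subgroup U} [V.Normal] (h : Spl V P)
  {Δ : (U → ℂ) → ℂˣ}

/-- the trivial element -/
def done (V P : Subgroup U) : Dd V P := ⟨1, fun _ _ => rfl⟩

/-- inversion of orbits -/
def iv : Quotient (orb V P) → Quotient (orb V P) :=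
  Quotient.map dinv fun _ _ hr => Rel.inv hr

/-- powers of orbits -/
def pw (n : ℕ) : Quotient (orb V P) → Quotient (orb V P) :=
  Quotient.map (fun ψ => dpow ψ n) fun _ _ hr => Rel.pow hr n

lemma iv_iv (ω : Quotient (orb V P)) : iv (iv ω) = ω := by
  induction ω using Quotient.inductionOn with | _ ψ => ?_
  have h1 : dinv (dinv ψ) = ψ := by
    apply Subtype.ext
    ext v
    change (((ψ.1⁻¹)⁻¹ v : ℂˣ) : ℂ) = _
    rw [MonoidHom.inv_apply, MonoidHom.inv_apply, inv_inv]
  change Quotient.mk (orb V P) (dinv (dinv ψ)) = _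
  rw [h1]

lemma iv_one : iv (Quotient.mk (orb V P) (done V P)) = Quotient.mk (orb V P) (done V P) := by
  have h1 : dinv (done V P) = done V P := by
    apply Subtype.ext
    ext v
    change (((1 : V →* ℂˣ)⁻¹ v : ℂˣ) : ℂ) = _
    rw [MonoidHom.inv_apply]
    simp [done]
  change Quotient.mk (orb V P) (dinv (done V P)) = _
  rw [h1]

lemma pw_one (n : ℕ) : pw n (Quotient.mk (orb V P) (done V P)) =
    Quotient.mk (orb V P) (done V P) := by
  have h1 : dpow (done V P) n = done V P := by
    apply Subtype.ext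
    ext v
    change (((1 : V →* ℂˣ) ^ n) v : ℂˣ).1 = _
    rw [MonoidHom.pow_apply]
    simp [done]
  change Quotient.mk (orb V P) (dpow (done V P) n) = _
  rw [h1]

lemma pw_iter (n j : ℕ) (ψ : Dd V P) : (pw n)^[j] (Quotient.mk (orb V P) ψ) =
    Quotient.mk (orb V P) (dpow ψ (n ^ j)) := by
  induction j with
  | zero =>
    have h1 : dpow ψ (n ^ 0) = ψ := by
      apply Subtype.ext
      ext v
      change ((ψ.1 ^ (n ^ 0)) v : ℂˣ).1 = _
      rw [MonoidHom.pow_apply, pow_zero, pow_one]
    rw [h1]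
    rfl
  | succ j ih =>
    rw [Function.iterate_succ_apply', ih]
    have h1 : dpow (dpow ψ (n ^ j)) n = dpow ψ (n ^ (j + 1)) := by
      apply Subtype.ext
      ext v
      change (((ψ.1 ^ (n ^ j)) ^ n) v : ℂˣ).1 = ((ψ.1 ^ (n ^ (j + 1))) v : ℂˣ).1
      rw [MonoidHom.pow_apply, MonoidHom.pow_apply, MonoidHom.pow_apply, ← pow_mul, ← pow_succ]
    change Quotient.mk (orb V P) (dpow (dpow ψ (n ^ j)) n) = _
    rw [h1]

include h

lemma Spl.G_out (ψ : Dd V P) : h.G (Quotient.mk (orb V P) ψ).out = h.G ψ :=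
  h.G_congr (Quotient.mk_out (s := orb V P) ψ)

lemma Spl.G_one : h.G (done V P) = fun _ => 1 := by
  classical
  have : Fintype U := Fintype.ofFinite _
  have hS : St (done V P).1 = ⊤ := by
    rw [eq_top_iff]
    intro u _
    rw [mem_St]
    rfl
  funext x
  rw [h.G_E, hS]
  have h1 : ∀ u : U, h.E (done V P).1 (u⁻¹ * x * u) = 1 := by
    intro u
    rw [Spl.E, ext_mem _ _ (by rw [hS]; exact Subgroup.mem_top _)]
    rfl
  rw [Finset.sum_congr rfl fun u _ => h1 u, Finset.sum_const, nsmul_eq_mul, mul_one,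
    Finset.card_univ, ← Nat.card_eq_fintype_card, Subgroup.card_top, inv_mul_cancel₀ card_ne]

/-- the product over the nontrivial orbits -/
lemma Spl.orbits [Fintype (Quotient (orb V P))] [DecidableEq (Quotient (orb V P))]
    (hsum : ∀ (s : Finset (Quotient (orb V P))) (F : Quotient (orb V P) → U → ℂ),
      (∀ i ∈ s, Virt (F i)) → Δ (∑ i ∈ s, F i) = ∏ i ∈ s, Δ (F i))
    (hprod : ∏ ω ∈ Finset.univ.erase (Quotient.mk (orb V P) (done V P)), Δ (h.G ω.out) = 1) :
    Δ (ind P (fun _ => 1)) = Δ (fun _ => 1) := by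
  rw [h.ind_P_eq, hsum _ _ fun ω _ => h.G_virt _, ← Finset.mul_prod_erase _ _ (Finset.mem_univ
    (Quotient.mk (orb V P) (done V P))), hprod, mul_one, h.G_out, h.G_one]

lemma Spl.dual_out (hdual : ∀ {f : U → ℂ}, Virt f → Δ f * Δ (fun g => f g⁻¹) = 1)
    (ω : Quotient (orb V P)) : Δ (h.G ω.out) * Δ (h.G (iv ω).out) = 1 := by
  have h1 := hdual (h.G_virt ω.out)
  rw [h.G_dual] at h1
  have h2 : iv ω = Quotient.mk (orb V P) (dinv ω.out) := by
    conv_lhs => rw [← Quotient.out_eq ω]
    rfl
  rw [h2, h.G_out]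
  exact h1

omit h in
lemma iv_ne {ω : Quotient (orb V P)} (hω : ω ≠ Quotient.mk (orb V P) (done V P)) :
    iv ω ≠ Quotient.mk (orb V P) (done V P) := by
  intro h1
  apply hω
  rw [← iv_iv ω, h1, iv_one]

/-- first pairing: all real orbits have trivial value -/
lemma Spl.prod_one [Fintype (Quotient (orb V P))] [DecidableEq (Quotient (orb V P))]
    (hdual : ∀ {f : U → ℂ}, Virt f → Δ f * Δ (fun g => f g⁻¹) = 1)
    (hreal : ∀ ψ : Dd V P, ψ.1 ≠ 1 → Rel (U := U) ψ.1 ψ.1⁻¹ → Δ (h.G ψ) = 1) :
    ∏ ω ∈ Finset.univ.erase (Quotient.mk (orb V P) (done V P)), Δ (h.G ω.out) = 1 := by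
  refine Finset.prod_involution (fun ω _ => iv ω) ?_ ?_ ?_ ?_
  · intro ω _
    exact h.dual_out hdual ω
  · intro ω hω hne h0
    apply hne
    apply hreal
    · intro h1
      apply Finset.ne_of_mem_erase hω
      have h2 : ω.out = done V P := Subtype.ext h1
      rw [← Quotient.out_eq ω, h2]
    · have h2 : iv ω = Quotient.mk (orb V P) (dinv ω.out) := by
        conv_lhs => rw [← Quotient.out_eq ω]
        rfl
      rw [h2] at h0
      have h3 : Rel (U := U) (dinv ω.out).1 (ω.out).1 :=
        Quotient.exact (s := orb V P) (h0.trans (Quotient.out_eq ω).symm)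
      exact h3.symm
  · intro ω hω
    exact Finset.mem_erase.mpr ⟨iv_ne (Finset.ne_of_mem_erase hω), Finset.mem_univ _⟩
  · intro ω _
    exact iv_iv ω

/-- second pairing: conjugate orbits -/
lemma Spl.prod_two [Fintype (Quotient (orb V P))] [DecidableEq (Quotient (orb V P))]
    (hdual : ∀ {f : U → ℂ}, Virt f → Δ f * Δ (fun g => f g⁻¹) = 1) (n N : ℕ) (hN : 0 < N)
    (hper : ∀ ψ : Dd V P, ψ.1 ^ (n ^ N) = ψ.1)
    (hgal : ∀ ψ : Dd V P, Rel (U := U) ψ.1 ψ.1⁻¹ → Δ (h.G (dpow ψ n)) = Δ (h.G ψ))
    (hfree : ∀ ψ : Dd V P, ψ.1 ≠ 1 → Rel (U := U) ψ.1 ψ.1⁻¹ → ∀ r : ℕ, Odd r →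
      ¬ Rel (U := U) ψ.1 (ψ.1 ^ n ^ r)) :
    ∏ ω ∈ Finset.univ.erase (Quotient.mk (orb V P) (done V P)), Δ (h.G ω.out) = 1 := by
  classical
  let T : Quotient (orb V P) → Quotient (orb V P) := pw n
  have hT : ∀ ω : Quotient (orb V P), T^[N] ω = ω := by
    intro ω
    induction ω using Quotient.inductionOn with | _ ψ => ?_
    have h1 : dpow ψ (n ^ N) = ψ := Subtype.ext (hper ψ)
    rw [pw_iter, h1]
  have hpp : ∀ ω, ω ∈ Function.periodicPts T := fun ω => ⟨N, hN, hT ω⟩
  have hmp : ∀ ω, 0 < Function.minimalPeriod T ω := fun ω =>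
    Function.minimalPeriod_pos_of_mem_periodicPts (hpp ω)
  have hTreal : ∀ ω, iv ω = ω → iv (T ω) = T ω := by
    intro ω hω
    have h1 : iv (T ω) = T (iv ω) := by
      induction ω using Quotient.inductionOn with | _ ψ => ?_
      have h2 : dinv (dpow ψ n) = dpow (dinv ψ) n := by
        apply Subtype.ext
        ext v
        change (((ψ.1 ^ n)⁻¹) v : ℂˣ).1 = (((ψ.1⁻¹) ^ n) v : ℂˣ).1
        rw [MonoidHom.inv_apply, MonoidHom.pow_apply, MonoidHom.pow_apply, MonoidHom.inv_apply,
          inv_pow]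
      change Quotient.mk (orb V P) (dinv (dpow ψ n)) = Quotient.mk (orb V P) (dpow (dinv ψ) n)
      rw [h2]
    rw [h1, hω]
  have hTr : ∀ (j : ℕ) (ω), iv ω = ω → iv (T^[j] ω) = T^[j] ω := by
    intro j
    induction j with
    | zero => intro ω hω; exact hω
    | succ j ih => intro ω hω; rw [Function.iterate_succ_apply]; exact ih _ (hTreal _ hω)
  have hrel : ∀ ω : Quotient (orb V P), iv ω = ω → Rel (U := U) ω.out.1 ω.out.1⁻¹ := by
    intro ω hω
    have h2 : iv ω = Quotient.mk (orb V P) (dinv ω.out) := by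
      conv_lhs => rw [← Quotient.out_eq ω]
      rfl
    rw [h2] at hω
    have h3 : Rel (U := U) (dinv ω.out).1 (ω.out).1 :=
      Quotient.exact (s := orb V P) (hω.trans (Quotient.out_eq ω).symm)
    exact h3.symm
  have hTf : ∀ ω, iv ω = ω → Δ (h.G (T ω).out) = Δ (h.G ω.out) := by
    intro ω hω
    have h2 : T ω = Quotient.mk (orb V P) (dpow ω.out n) := by
      conv_lhs => rw [← Quotient.out_eq ω]
      rfl
    rw [h2, h.G_out]
    exact hgal _ (hrel ω hω)
  have hTfj : ∀ (j : ℕ) (ω), iv ω = ω → Δ (h.G (T^[j] ω).out) = Δ (h.G ω.out) := by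
    intro j
    induction j with
    | zero => intro ω _; rfl
    | succ j ih =>
      intro ω hω
      rw [Function.iterate_succ_apply, ih _ (hTreal _ hω), hTf _ hω]
  have heven : ∀ ω, ω ≠ Quotient.mk (orb V P) (done V P) → iv ω = ω →
      Even (Function.minimalPeriod T ω) := by
    intro ω hω hr
    rw [← Nat.not_odd_iff_even]
    intro hodd
    refine hfree ω.out ?_ (hrel ω hr) _ hodd ?_
    · intro h1
      apply hω
      have h2 : ω.out = done V P := Subtype.ext h1
      rw [← Quotient.out_eq ω, h2]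
    · have h1 : T^[Function.minimalPeriod T ω] ω = ω := Function.iterate_minimalPeriod
      have h2 : T^[Function.minimalPeriod T ω] ω =
          Quotient.mk (orb V P) (dpow ω.out (n ^ Function.minimalPeriod T ω)) := by
        have h3 := pw_iter n (Function.minimalPeriod T ω) ω.out
        rw [Quotient.out_eq] at h3
        exact h3
      rw [h2] at h1
      have h3 : Rel (U := U) (dpow ω.out (n ^ Function.minimalPeriod T ω)).1 (ω.out).1 :=
        Quotient.exact (s := orb V P) (h1.trans (Quotient.out_eq ω).symm)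
      exact h3.symm
  let g : Quotient (orb V P) → Quotient (orb V P) := fun ω =>
    if iv ω = ω then T^[Function.minimalPeriod T ω / 2] ω else iv ω
  refine Finset.prod_involution (fun ω _ => g ω) ?_ ?_ ?_ ?_
  · intro ω _
    simp only [g]
    split_ifs with hr
    · rw [hTfj _ _ hr]
      have h1 := h.dual_out hdual ω
      rwa [hr] at h1
    · exact h.dual_out hdual ω
  · intro ω hω _
    simp only [g]
    split_ifs with hr
    · obtain ⟨k, hk⟩ := heven ω (Finset.ne_of_mem_erase hω) hr
      have hpos := hmp ω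
      have hk2 : Function.minimalPeriod T ω / 2 = k := by omega
      rw [hk2]
      intro h0
      have h1 : Function.IsPeriodicPt T k ω := h0
      have h2 := h1.minimalPeriod_le (by omega)
      omega
    · exact hr
  · intro ω hω
    refine Finset.mem_erase.mpr ⟨?_, Finset.mem_univ _⟩
    simp only [g]
    split_ifs with hr
    · intro h0
      apply Finset.ne_of_mem_erase hω
      obtain ⟨k, hk⟩ := heven ω (Finset.ne_of_mem_erase hω) hr
      have hk2 : Function.minimalPeriod T ω / 2 = k := by omega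
      rw [hk2] at h0
      have h1 : T^[k] (T^[k] ω) = ω := by
        rw [← Function.iterate_add_apply, ← hk]
        exact Function.iterate_minimalPeriod
      rw [← h1, h0]
      have h2 : ∀ j : ℕ, T^[j] (Quotient.mk (orb V P) (done V P)) =
          Quotient.mk (orb V P) (done V P) := by
        intro j
        induction j with
        | zero => rfl
        | succ j ih => rw [Function.iterate_succ_apply, show T (Quotient.mk (orb V P) (done V P)) =
            Quotient.mk (orb V P) (done V P) from pw_one n, ih]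
      exact h2 k
    · exact iv_ne (Finset.ne_of_mem_erase hω)
  · intro ω hω
    simp only [g]
    by_cases hr : iv ω = ω
    · simp only [if_pos hr, if_pos (hTr _ _ hr)]
      rw [Function.minimalPeriod_apply_iterate (hpp ω), ← Function.iterate_add_apply]
      obtain ⟨k, hk⟩ := heven ω (Finset.ne_of_mem_erase hω) hr
      have hk2 : Function.minimalPeriod T ω / 2 = k := by omega
      rw [hk2, ← hk]
      exact Function.iterate_minimalPeriod
    · have hr2 : ¬ iv (iv ω) = iv ω := by
        rw [iv_iv]; exact fun h0 => hr h0.symm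
      simp only [if_neg hr, if_neg hr2]
      exact iv_iv ω

end spl

end Pool.Agent.R389
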