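import Mathlib
import Pool.Agent.R389.RRd

/-!
# Going up along abelian chief factors
-/

set_option autoImplicit false
set_option linter.unusedSectionVars false

namespace Pool.Agent.R389

open Pool.Agent.H302R2 Pool.Agent.H302R3 Pool.Agent.H541R3.ART Pool.Agent.W446.AS

/-- the linear character `ψ` of the normal subgroup `V` is conjugate under `G` to its inverse, and
to `ψ ^ (p ^ r)` for some odd `r` -/
def ChiReal (p : ℕ) {G : Type} [Group G] (V : Subgroup G) (ψ : V →* ℂˣ) : Prop :=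
  (∃ g : G, ∀ v w : V, (w : G) = g * v * g⁻¹ → ψ w = (ψ v)⁻¹) ∧
    ∃ r : ℕ, Odd r ∧ ∃ g : G, ∀ v w : V, (w : G) = g * v * g⁻¹ → ψ w = ψ v ^ p ^ r

lemma chi_key {G : Type} [Group G] {V U : Subgroup G} [V.Normal] (hVU : V ≤ U)
    {ψ φ : V.subgroupOf U →* ℂˣ} {u : U} (hu : cjh u ψ = φ) (v w : V)
    (hw : (w : G) = ((u⁻¹ : U) : G) * v * ((u⁻¹ : U) : G)⁻¹) :
    ψ ((Subgroup.subgroupOfEquivOfLe hVU).symm w) =
      φ ((Subgroup.subgroupOfEquivOfLe hVU).symm v) := by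
  rw [← hu, cjh_apply]
  congr 1
  apply Subtype.ext
  apply Subtype.ext
  rw [MulAut.conjNormal_apply]
  exact hw

lemma chiReal_of {G : Type} [Group G] {V U : Subgroup G} [V.Normal] (hVU : V ≤ U) {p r : ℕ}
    (hr : Odd r) {ψ : V.subgroupOf U →* ℂˣ} (h1 : Rel (U := U) ψ ψ⁻¹)
    (h2 : Rel (U := U) ψ (ψ ^ p ^ r)) :
    ChiReal p V (ψ.comp (Subgroup.subgroupOfEquivOfLe hVU).symm.toMonoidHom) := by
  obtain ⟨u, hu⟩ := h1
  obtain ⟨u', hu'⟩ := h2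
  refine ⟨⟨((u⁻¹ : U) : G), fun v w hw => ?_⟩, r, hr, ((u'⁻¹ : U) : G), fun v w hw => ?_⟩
  · exact chi_key hVU hu v w hw
  · exact chi_key hVU hu' v w hw

lemma spl_of {G : Type} [Group G] {V : Subgroup G} [V.Normal]
    (hV : ∀ a ∈ V, ∀ b ∈ V, a * b = b * a) (H : Subgroup G) :
    Spl (V.subgroupOf (V ⊔ H)) (H.subgroupOf (V ⊔ H)) where
  comm a b := by
    apply Subtype.ext
    apply Subtype.ext
    exact hV _ a.2 _ b.2
  dec u := by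
    obtain ⟨y, hy, z, hz, hyz⟩ := Subgroup.mem_sup_of_normal_left.mp u.2
    refine ⟨⟨⟨y, (le_sup_left : V ≤ V ⊔ H) hy⟩, hy⟩, ⟨z, (le_sup_right : H ≤ V ⊔ H) hz⟩, hz, ?_⟩
    apply Subtype.ext
    exact hyz.symm

section spl

variable {U : Type} [Group U] [Finite U] {V P : Subgroup U} [V.Normal] (h : Spl V P)
  {Δ : (U → ℂ) → ℂˣ} {l : ℕ}
include h

/-- the hypotheses of the dihedral relation -/
lemma Spl.dih_hyp (hl2 : l.Coprime 2) (hl : ∀ v : V, v ^ l = 1) (ψ : Dd V P) (h1 : ψ.1 ≠ 1)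
    (hr : Rel (U := U) ψ.1 ψ.1⁻¹) : ∃ t : U, (∀ n : U, n ∈ St ψ.1 ↔ t * n * t⁻¹ ∈ St ψ.1) ∧
      t ∉ St ψ.1 ∧ t * t ∈ St ψ.1 ∧ (∀ n, h.ti ψ.2 n ^ l = 1) ∧
      ∀ n n' : St ψ.1, (n' : U) = t * n * t⁻¹ → h.ti ψ.2 n' = (h.ti ψ.2 n)⁻¹ := by
  obtain ⟨u, hu⟩ := hr
  -- `t = u⁻¹`
  have hinv : ∀ w : U, ∀ φ η : V →* ℂˣ, cjh w φ = η → cjh w φ⁻¹ = η⁻¹ := by
    intro w φ η hh
    rw [cjh_inv', hh]
  have hii : (ψ.1⁻¹)⁻¹ = ψ.1 := by
    ext v; rw [MonoidHom.inv_apply, MonoidHom.inv_apply, inv_inv]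
  have hu1 : cjh u ψ.1⁻¹ = ψ.1 := by rw [hinv _ _ _ hu, hii]
  have ht : cjh u⁻¹ ψ.1 = ψ.1⁻¹ := cjh_inv hu1
  have ht1 : cjh u⁻¹ ψ.1⁻¹ = ψ.1 := cjh_inv hu
  have hS : St ψ.1⁻¹ = St ψ.1 := h.card_St_inv ψ
  have hm : ∀ n : U, n ∈ St ψ.1 ↔ u⁻¹ * n * u ∈ St ψ.1 := by
    intro n
    rw [← hS, mem_St, hS, mem_St]
    constructor
    · intro h2
      rw [cjh_mul, hu, cjh_mul, h2, ht1]
    · intro h2
      rw [cjh_mul, hu, cjh_mul] at h2
      have h3 := cjh_inv h2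
      rw [inv_inv, hu] at h3
      exact h3.symm
  refine ⟨u⁻¹, ?_, ?_, ?_, ?_, ?_⟩
  · intro n
    rw [inv_inv]
    exact hm n
  · intro h2
    rw [mem_St, ht] at h2
    apply h1
    ext v
    have h3 := DFunLike.congr_fun h2 v
    rw [MonoidHom.inv_apply] at h3
    have h4 : ψ.1 v ^ 2 = 1 := by
      rw [pow_two]
      nth_rw 1 [← h3]
      exact inv_mul_cancel _
    have h5 : ψ.1 v ^ l = 1 := by rw [← map_pow, hl, map_one]
    have h6 : ψ.1 v = 1 := by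
      rw [← orderOf_eq_one_iff, ← Nat.dvd_one, ← hl2]
      exact Nat.dvd_gcd (orderOf_dvd_of_pow_eq_one h5) (orderOf_dvd_of_pow_eq_one h4)
    rw [h6]; rfl
  · rw [mem_St, cjh_mul, ht, ht1]
  · intro n
    rw [h.ti_apply, ← map_pow, hl, map_one]
  · intro n n' hn
    have h2 := h.E_conj ψ.2 u n
    have h3 : u⁻¹ * (n : U) * u = n' := by rw [hn, inv_inv]
    rw [hu, h3, Spl.E, Spl.E, ext_mem _ _ (by rw [hS]; exact n.2), ext_mem _ _ n'.2] at h2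
    have h4 : (((ψ.1⁻¹) (h.vv n) : ℂˣ) : ℂ) = ((ψ.1 (h.vv n') : ℂˣ) : ℂ) := h2
    have h5 := Units.ext h4
    rw [MonoidHom.inv_apply] at h5
    rw [h.ti_apply, h.ti_apply]
    exact h5.symm

lemma Spl.real (ψ : Dd V P) (hr : Rel (U := U) ψ.1 ψ.1⁻¹) (g : U) : h.G ψ g⁻¹ = h.G ψ g := by
  have h1 := congrFun (h.G_dual ψ) g
  rw [h1]
  exact (congrFun (h.G_congr (φ := dinv ψ) hr) g).symm

/-- parity data and abelian normal subgroups -/
lemma Par.spl {q : ℕ} (hΔ : Par q Δ) (hl : l.Prime) (hl2 : l ≠ 2) (hq : q.Prime)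
    (hexp : ∀ v : V, v ^ l = 1)
    (hc : l = q ∨ ∀ ψ : V →* ℂˣ, ψ ≠ 1 → ∀ r : ℕ, Odd r → Rel (U := U) ψ ψ⁻¹ →
      ¬ Rel (U := U) ψ (ψ ^ q ^ r))
    (hS : ∀ H : Subgroup U, V ≤ H → Δ (ind H (fun _ => 1)) = 1) :
    Δ (ind P (fun _ => 1)) = Δ (fun _ => 1) := by
  classical
  have : Fintype (Quotient (orb V P)) := Fintype.ofFinite _
  have hcop2 : l.Coprime 2 := (Nat.coprime_primes hl Nat.prime_two).mpr hl2
  refine h.orbits (fun s F hF => hΔ.sum s hF) ?_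
  by_cases hlq : l = q
  · subst hlq
    refine h.prod_one hΔ.dual ?_
    intro ψ h1 hr
    obtain ⟨t, t1, t2, t3, t4, t5⟩ := h.dih_hyp hcop2 hexp ψ h1 hr
    have h2 := hΔ.dih hl2 (St ψ.1) t (h.ti ψ.2) t1 t2 t3 t4 t5
    rw [hΔ.add (virt_ind _ (virt_lin _)) (virt_ind _ virt_one), hS _ (h.V_le _), mul_one] at h2
    exact h2
  · have hcop : q.Coprime l := (Nat.coprime_primes hq hl).mpr (Ne.symm hlq)
    refine h.prod_two hΔ.dual q (l - 1) (by have := hl.two_le; omega) ?_ ?_ ?_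
    · intro ψ
      have : Fact l.Prime := ⟨hl⟩
      have h1 : q ^ (l - 1) ≡ 1 [MOD l] := by
        have := Nat.ModEq.pow_totient hcop
        rwa [Nat.totient_prime hl] at this
      ext v
      rw [MonoidHom.pow_apply]
      have h2 : ψ.1 v ^ l = 1 := by rw [← map_pow, hexp, map_one]
      have h3 : ψ.1 v ^ (q ^ (l - 1)) = ψ.1 v ^ 1 :=
        pow_eq_pow_iff_modEq.mpr (h1.of_dvd (orderOf_dvd_of_pow_eq_one h2))
      rw [h3, pow_one]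
    · intro ψ hr
      rw [h.G_pow hexp hcop]
      exact hΔ.gal _ _ l hcop.symm (fun n => by rw [h.ti_apply, ← map_pow, hexp, map_one])
        (h.real ψ hr)
    · intro ψ h1 hr r hrr
      exact (hc.resolve_left hlq) ψ.1 h1 r hrr hr

/-- parity data and abelian normal subgroups, full Galois invariance -/
lemma ParR.spl {Ps : Set ℕ} (hΔ : ParR Ps Δ) (hl : l.Prime) (hl2 : l ≠ 2)
    (hexp : ∀ v : V, v ^ l = 1)
    (hc : l ∈ Ps ∨ ∃ a : ℕ, a.Coprime l ∧ ∀ ψ : V →* ℂˣ, ψ ≠ 1 → ∀ r : ℕ, Odd r →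
      Rel (U := U) ψ ψ⁻¹ → ¬ Rel (U := U) ψ (ψ ^ a ^ r))
    (hS : ∀ H : Subgroup U, V ≤ H → Δ (ind H (fun _ => 1)) = 1) :
    Δ (ind P (fun _ => 1)) = Δ (fun _ => 1) := by
  classical
  have : Fintype (Quotient (orb V P)) := Fintype.ofFinite _
  have hcop2 : l.Coprime 2 := (Nat.coprime_primes hl Nat.prime_two).mpr hl2
  refine h.orbits (fun s F hF => hΔ.sum s hF) ?_
  by_cases hlq : l ∈ Ps
  · refine h.prod_one hΔ.dual ?_
    intro ψ h1 hr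
    obtain ⟨t, t1, t2, t3, t4, t5⟩ := h.dih_hyp hcop2 hexp ψ h1 hr
    have h2 := hΔ.dih l hlq (St ψ.1) t (h.ti ψ.2) t1 t2 t3 t4 t5
    rw [hΔ.add (virt_ind _ (virt_lin _)) (virt_ind _ virt_one), hS _ (h.V_le _), mul_one] at h2
    exact h2
  · obtain ⟨a, hcop, hc'⟩ := hc.resolve_left hlq
    refine h.prod_two hΔ.dual a (l - 1) (by have := hl.two_le; omega) ?_ ?_ ?_
    · intro ψ
      have : Fact l.Prime := ⟨hl⟩
      have h1 : a ^ (l - 1) ≡ 1 [MOD l] := by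
        have := Nat.ModEq.pow_totient hcop
        rwa [Nat.totient_prime hl] at this
      ext v
      rw [MonoidHom.pow_apply]
      have h2 : ψ.1 v ^ l = 1 := by rw [← map_pow, hexp, map_one]
      have h3 : ψ.1 v ^ (a ^ (l - 1)) = ψ.1 v ^ 1 :=
        pow_eq_pow_iff_modEq.mpr (h1.of_dvd (orderOf_dvd_of_pow_eq_one h2))
      rw [h3, pow_one]
    · intro ψ hr
      rw [h.G_pow hexp hcop]
      exact hΔ.gal _ _ l a hcop (fun n => by rw [h.ti_apply, ← map_pow, hexp, map_one])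
        (h.real ψ hr)
    · intro ψ h1 hr r hrr
      exact hc' ψ.1 h1 r hrr hr

end spl

end Pool.Agent.R389
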