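import Mathlib
import Pool.Agent.R389.RRe

/-!
# Going up along abelian chief factors: the final statements
-/

set_option autoImplicit false
set_option linter.unusedSectionVars false

namespace Pool.Agent.R389

open Pool.Agent.H302R2 Pool.Agent.H302R3 Pool.Agent.H541R3.ART Pool.Agent.W446.AS

/-- every `a` such that the linear character `ψ` of `V` is conjugate under `G` to `ψ ^ a` is a
square modulo `l` -/
def ChiSq (l : ℕ) {G : Type} [Group G] (V : Subgroup G) (ψ : V →* ℂˣ) : Prop :=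
  ∀ a : ℕ, (∃ g : G, ∀ v w : V, (w : G) = g * v * g⁻¹ → ψ w = ψ v ^ a) → IsSquare (a : ZMod l)

/-- normal subgroups `C` of odd order with a chain of normal subgroups of `G` whose factors are
elementary abelian `l`-groups, such that `l = p` or the nontrivial characters of the factor are not
`ChiReal` -/
inductive ATame (p : ℕ) {G : Type} [Group G] : Subgroup G → Prop
  | bot : ATame p ⊥
  | step (B C : Subgroup G) [B.Normal] (l : ℕ) : ATame p B → C.Normal → B ≤ C → l.Prime → l ≠ 2 →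
      (∀ v ∈ C.map (QuotientGroup.mk' B), ∀ w ∈ C.map (QuotientGroup.mk' B), v * w = w * v) →
      (∀ v ∈ C.map (QuotientGroup.mk' B), v ^ l = 1) →
      (l = p ∨ ∀ ψ : C.map (QuotientGroup.mk' B) →* ℂˣ, ψ ≠ 1 →
        ¬ ChiReal p (C.map (QuotientGroup.mk' B)) ψ) → ATame p C

/-- normal subgroups `C` of odd order with a chain of normal subgroups of `G` whose factors are
elementary abelian `l`-groups, such that `l ∈ Ps` or the nontrivial characters of the factor are
`ChiSq` -/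
inductive ARTame (Ps : Set ℕ) {G : Type} [Group G] : Subgroup G → Prop
  | bot : ARTame Ps ⊥
  | step (B C : Subgroup G) [B.Normal] (l : ℕ) : ARTame Ps B → C.Normal → B ≤ C → l.Prime →
      l ≠ 2 →
      (∀ v ∈ C.map (QuotientGroup.mk' B), ∀ w ∈ C.map (QuotientGroup.mk' B), v * w = w * v) →
      (∀ v ∈ C.map (QuotientGroup.mk' B), v ^ l = 1) →
      (l ∈ Ps ∨ ∀ ψ : C.map (QuotientGroup.mk' B) →* ℂˣ, ψ ≠ 1 →
        ChiSq l (C.map (QuotientGroup.mk' B)) ψ) → ARTame Ps C

lemma comp_ne {G : Type} [Group G] {V U : Subgroup G} (hVU : V ≤ U)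
    {ψ : V.subgroupOf U →* ℂˣ} (h : ψ ≠ 1) :
    ψ.comp (Subgroup.subgroupOfEquivOfLe hVU).symm.toMonoidHom ≠ 1 := by
  intro h1
  apply h
  ext v
  have h2 := DFunLike.congr_fun h1 (Subgroup.subgroupOfEquivOfLe hVU v)
  have h3 : (Subgroup.subgroupOfEquivOfLe hVU).symm (Subgroup.subgroupOfEquivOfLe hVU v) = v :=
    MulEquiv.symm_apply_apply _ _
  have h4 : ψ ((Subgroup.subgroupOfEquivOfLe hVU).symm (Subgroup.subgroupOfEquivOfLe hVU v)) = 1 := h2
  rw [h3] at h4
  rw [h4]; rfl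

section up

variable {G : Type} [Group G] [Finite G] {Δ : (G → ℂ) → ℂˣ}

/-- from the subgroups containing an elementary abelian normal subgroup to all subgroups -/
lemma Par.upV {q : ℕ} (hΔ : Par q Δ) (hq : q.Prime) {V : Subgroup G} (hn : V.Normal) {l : ℕ}
    (hl : l.Prime) (hl2 : l ≠ 2) (hV : ∀ a ∈ V, ∀ b ∈ V, a * b = b * a) (hexp : ∀ a ∈ V, a ^ l = 1)
    (hc : l = q ∨ ∀ ψ : V →* ℂˣ, ψ ≠ 1 → ¬ ChiReal q V ψ)
    (hH : ∀ H : Subgroup G, V ≤ H → Δ (ind H (fun _ => 1)) = 1)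
    (H : Subgroup G) : Δ (ind H (fun _ => 1)) = 1 := by
  have h := spl_of hV H
  have hVU : V ≤ V ⊔ H := le_sup_left
  have hHU : H ≤ V ⊔ H := le_sup_right
  have h1 := Par.spl h (hΔ.restrict (V ⊔ H)) hl hl2 hq (fun v => by
    apply Subtype.ext
    apply Subtype.ext
    exact hexp _ v.2) ?_ ?_
  · rw [ind_one_ind, Subgroup.subgroupOf_map_subtype, inf_eq_left.mpr hHU,
      hH _ le_sup_left] at h1
    exact h1
  · refine hc.imp id fun h2 ψ hψ r hr h3 h4 => ?_
    exact h2 _ (comp_ne hVU hψ) (chiReal_of hVU hr h3 h4)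
  · intro W hW
    rw [ind_one_ind]
    apply hH
    intro v hv
    exact ⟨⟨v, hVU hv⟩, hW hv, rfl⟩

/-- from the subgroups containing an elementary abelian normal subgroup to all subgroups -/
lemma ParR.upV {Ps : Set ℕ} (hΔ : ParR Ps Δ) {V : Subgroup G} (hn : V.Normal) {l : ℕ}
    (hl : l.Prime) (hl2 : l ≠ 2) (hV : ∀ a ∈ V, ∀ b ∈ V, a * b = b * a) (hexp : ∀ a ∈ V, a ^ l = 1)
    (hc : l ∈ Ps ∨ ∀ ψ : V →* ℂˣ, ψ ≠ 1 → ChiSq l V ψ)
    (hH : ∀ H : Subgroup G, V ≤ H → Δ (ind H (fun _ => 1)) = 1)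
    (H : Subgroup G) : Δ (ind H (fun _ => 1)) = 1 := by
  have : Fact l.Prime := ⟨hl⟩
  have h := spl_of hV H
  have hVU : V ≤ V ⊔ H := le_sup_left
  have hHU : H ≤ V ⊔ H := le_sup_right
  have h1 := ParR.spl h (hΔ.restrict (V ⊔ H)) hl hl2 (fun v => by
    apply Subtype.ext
    apply Subtype.ext
    exact hexp _ v.2) ?_ ?_
  · rw [ind_one_ind, Subgroup.subgroupOf_map_subtype, inf_eq_left.mpr hHU,
      hH _ le_sup_left] at h1
    exact h1
  · refine hc.imp id fun h2 => ?_
    obtain ⟨b, hb⟩ := FiniteField.exists_nonsquare (F := ZMod l) (by rwa [ZMod.ringChar_zmod_n])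
    have hb0 : b ≠ 0 := by
      rintro rfl
      exact hb ⟨0, by simp⟩
    have hbv : ((b.val : ℕ) : ZMod l) = b := ZMod.natCast_zmod_val b
    refine ⟨b.val, ?_, ?_⟩
    · rw [Nat.coprime_comm, hl.coprime_iff_not_dvd, ← ZMod.natCast_eq_zero_iff, hbv]
      exact hb0
    · intro ψ hψ r hr _ h4
      obtain ⟨u, hu⟩ := h4
      have h5 := h2 _ (comp_ne hVU hψ) (b.val ^ r)
        ⟨((u⁻¹ : (V ⊔ H : Subgroup G)) : G), fun v w hw => chi_key hVU hu v w hw⟩
      obtain ⟨k, rfl⟩ := hr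
      rw [Nat.cast_pow, hbv] at h5
      obtain ⟨c, hc⟩ := h5
      apply hb
      refine ⟨c * (b ^ k)⁻¹, ?_⟩
      have h6 : b ^ k ≠ 0 := pow_ne_zero _ hb0
      have h7 : b ^ (2 * k + 1) = b * (b ^ k * b ^ k) := by ring
      rw [h7] at hc
      calc b = b * (b ^ k * b ^ k) * ((b ^ k)⁻¹ * (b ^ k)⁻¹) := by
            rw [mul_assoc, mul_mul_mul_comm, mul_inv_cancel₀ h6, mul_one, mul_one]
        _ = _ := by rw [hc]; ring
  · intro W hW
    rw [ind_one_ind]
    apply hH
    intro v hv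
    exact ⟨⟨v, hVU hv⟩, hW hv, rfl⟩

lemma Par.atame {q : ℕ} (hΔ : Par q Δ) (hq : q.Prime) {C : Subgroup G} (hC : ATame q C) :
    (∀ H : Subgroup G, C ≤ H → Δ (ind H (fun _ => 1)) = 1) →
    ∀ H : Subgroup G, Δ (ind H (fun _ => 1)) = 1 := by
  induction hC with
  | bot => intro h H; exact h H bot_le
  | step B C l hB hCn hBC hl hl2 hab hexp hc ih =>
    intro h
    apply ih
    let π := QuotientGroup.mk' B
    have hπ : Function.Surjective π := QuotientGroup.mk'_surjective B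
    have hpush := hΔ.push hπ
    have key := hpush.upV hq (hCn.map π hπ) hl hl2 hab hexp hc (fun Y hY => by
      rw [ind_comap hπ]
      apply h
      exact Subgroup.map_le_iff_le_comap.mp hY)
    intro H hH
    have h1 := key (H.map π)
    rw [ind_comap hπ, Subgroup.comap_map_eq, QuotientGroup.ker_mk', sup_eq_left.mpr hH] at h1
    exact h1

lemma ParR.atame {Ps : Set ℕ} (hΔ : ParR Ps Δ) {C : Subgroup G} (hC : ARTame Ps C) :
    (∀ H : Subgroup G, C ≤ H → Δ (ind H (fun _ => 1)) = 1) →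
    ∀ H : Subgroup G, Δ (ind H (fun _ => 1)) = 1 := by
  induction hC with
  | bot => intro h H; exact h H bot_le
  | step B C l hB hCn hBC hl hl2 hab hexp hc ih =>
    intro h
    apply ih
    let π := QuotientGroup.mk' B
    have hπ : Function.Surjective π := QuotientGroup.mk'_surjective B
    have hpush := hΔ.push hπ
    have key := hpush.upV (hCn.map π hπ) hl hl2 hab hexp hc (fun Y hY => by
      rw [ind_comap hπ]
      apply h
      exact Subgroup.map_le_iff_le_comap.mp hY)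
    intro H hH
    have h1 := key (H.map π)
    rw [ind_comap hπ, Subgroup.comap_map_eq, QuotientGroup.ker_mk', sup_eq_left.mpr hH] at h1
    exact h1

/-- **Main theorem** for parity data. -/
theorem par_finalA {q : ℕ} (hΔ : Par q Δ) (hq : q.Prime) {C : Subgroup G} [C.Normal]
    (hC : ATame q C)
    (hQ : ∀ Q : Subgroup (G ⧸ C), HypP 2 Q → AllReal q Q →
      Δ (ind (Q.comap (QuotientGroup.mk' C)) (fun _ => 1)) = 1) (H : Subgroup G) :
    Δ (ind H (fun _ => 1)) = 1 := by
  refine hΔ.atame hq hC ?_ H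
  intro H hH
  let π := QuotientGroup.mk' C
  have hπ : Function.Surjective π := QuotientGroup.mk'_surjective C
  have h1 := par_main hq (hΔ.push hπ) (fun Q h2 h3 => by
    rw [ind_comap hπ]
    exact hQ Q h2 h3) (H.map π)
  rw [ind_comap hπ, Subgroup.comap_map_eq, QuotientGroup.ker_mk', sup_eq_left.mpr hH] at h1
  exact h1

/-- **Main theorem** for parity data with full Galois invariance. -/
theorem par_finalAR {Ps : Set ℕ} (hΔ : ParR Ps Δ) {C : Subgroup G} [C.Normal] (hC : ARTame Ps C)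
    (hQ : ∀ Q : Subgroup (G ⧸ C), HypP 2 Q → AllRReal Ps Q →
      Δ (ind (Q.comap (QuotientGroup.mk' C)) (fun _ => 1)) = 1) (H : Subgroup G) :
    Δ (ind H (fun _ => 1)) = 1 := by
  refine hΔ.atame hC ?_ H
  intro H hH
  let π := QuotientGroup.mk' C
  have hπ : Function.Surjective π := QuotientGroup.mk'_surjective C
  have h1 := par_mainR (hΔ.push hπ) (fun Q h2 h3 => by
    rw [ind_comap hπ]
    exact hQ Q h2 h3) (H.map π)
  rw [ind_comap hπ, Subgroup.comap_map_eq, QuotientGroup.ker_mk', sup_eq_left.mpr hH] at h1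
  exact h1

end up

section conv

variable {G : Type} [Group G] [Finite G] {s : (G → ℂ) → ℕ} {w : (G → ℂ) → ℂ}

theorem parity_finalA {p : ℕ} (hp : p.Prime) (hd : SelmerData p s w) {C : Subgroup G} [C.Normal]
    (hC : ATame p C) (hQ : ∀ Q : Subgroup (G ⧸ C), HypP 2 Q → AllReal p Q →
      PParity s w (ind (Q.comap (QuotientGroup.mk' C)) (fun _ => 1))) (H : Subgroup G) :
    PParity s w (ind H (fun _ => 1)) :=
  (hd.parity_iff (one_decomp H)).mpr (par_finalA hd.par hp hC
    (fun Q h1 h2 => (hd.parity_iff (one_decomp _)).mp (hQ Q h1 h2)) H)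

theorem rank_finalA {Ps : Set ℕ} (hd : RankData Ps s w) {C : Subgroup G} [C.Normal]
    (hC : ARTame Ps C) (hQ : ∀ Q : Subgroup (G ⧸ C), HypP 2 Q → AllRReal Ps Q →
      PParity s w (ind (Q.comap (QuotientGroup.mk' C)) (fun _ => 1))) (H : Subgroup G) :
    PParity s w (ind H (fun _ => 1)) :=
  (hd.parity_iff (one_decomp H)).mpr (par_finalAR hd.par hC
    (fun Q h1 h2 => (hd.parity_iff (one_decomp _)).mp (hQ Q h1 h2)) H)

end conv

end Pool.Agent.R389
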