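import Mathlib
import Pool.Agent.R389.Core

/-!
# Growth of the order of vanishing for rational coefficients
-/

set_option autoImplicit false
set_option linter.unusedSectionVars false

namespace Pool.Agent.R389

open Pool.Agent.H302R2 Pool.Agent.H302R3 Pool.Agent.H541R3.ART Pool.Agent.W446.AS Filter Topology

/-- the Galois conjugates of a root of unity -/
lemma exists_emb {E : Type} [Field E] [NumberField E] {ζ : E} {n : ℕ} (hζ : IsPrimitiveRoot ζ n)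
    (hn : 0 < n) (τ₀ : E →+* ℂ) {k : ℕ} (hk : k.Coprime n) :
    ∃ τ : E →+* ℂ, τ ζ = (τ₀ ζ) ^ k := by
  have h1 := NumberField.Embeddings.range_eval_eq_rootSet_minpoly E ℂ ζ
  have h2 : IsPrimitiveRoot ((τ₀ ζ) ^ k) n :=
    (hζ.map_of_injective τ₀.injective).pow_of_coprime k hk
  have h3 : (τ₀ ζ) ^ k ∈ (minpoly ℚ ζ).rootSet ℂ := by
    rw [← Polynomial.cyclotomic_eq_minpoly_rat hζ hn, Polynomial.mem_rootSet]
    refine ⟨Polynomial.cyclotomic_ne_zero n ℚ, ?_⟩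
    rw [Polynomial.aeval_def, Polynomial.eval₂_eq_eval_map, Polynomial.map_cyclotomic]
    exact h2.isRoot_cyclotomic hn
  rw [← h1] at h3
  obtain ⟨τ, hτ⟩ := h3
  exact ⟨τ, hτ⟩

/-- the powers of a nontrivial linear character with exponents prime to `e` -/
lemma conj_count {N : Type} [Group N] [Finite N] (μ : N →* ℂˣ) (hμ : μ ≠ 1) {e : ℕ} (he : e ≠ 0)
    (hexp : ∀ n : N, n ^ e = 1) :
    ∃ q : ℕ, q.Prime ∧ q ∣ Nat.card N ∧ ∃ S : Finset (N →* ℂˣ), μ ∈ S ∧ 1 ∉ S ∧ q - 1 ≤ S.card ∧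
      ∀ ν ∈ S, ∃ k : ℕ, k.Coprime e ∧ ν = μ ^ k := by
  classical
  have : NeZero e := ⟨he⟩
  obtain ⟨n₀, hn₀⟩ : ∃ n, μ n ≠ 1 := by
    by_contra hcon
    push Not at hcon
    exact hμ (MonoidHom.ext hcon)
  let z : ℂˣ := μ n₀
  let r : ℕ := orderOf z
  have hre : r ∣ e := orderOf_dvd_of_pow_eq_one (by
    change μ n₀ ^ e = 1
    rw [← map_pow, hexp, map_one])
  have hr1 : r ≠ 1 := fun h => hn₀ (orderOf_eq_one_iff.mp h)
  have hr0 : 0 < r := Nat.pos_of_dvd_of_pos hre (Nat.pos_of_ne_zero he)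
  let q : ℕ := r.minFac
  have hq : q.Prime := Nat.minFac_prime hr1
  have hqr : q ∣ r := Nat.minFac_dvd r
  have hqe : q ∣ e := hqr.trans hre
  let ω : ℂˣ := z ^ (r / q)
  have hω : orderOf ω = q := orderOf_pow_orderOf_div hr0.ne' hqr
  let F : (ZMod e)ˣ → (N →* ℂˣ) := fun k => μ ^ (k : ZMod e).val
  let S : Finset (N →* ℂˣ) := Finset.univ.image F
  have hcop : ∀ k : (ZMod e)ˣ, ((k : ZMod e).val).Coprime e := fun k => ZMod.val_coe_unit_coprime k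
  refine ⟨q, hq, hqr.trans ((orderOf_map_dvd μ n₀).trans (orderOf_dvd_natCard n₀)), S, ?_, ?_, ?_,
    ?_⟩
  · refine Finset.mem_image.mpr ⟨1, Finset.mem_univ _, ?_⟩
    change μ ^ (((1 : (ZMod e)ˣ) : ZMod e)).val = μ
    have he1 : 1 < e := by
      have h1 : 1 < r := by omega
      exact lt_of_lt_of_le h1 (Nat.le_of_dvd (Nat.pos_of_ne_zero he) hre)
    have : Fact (1 < e) := ⟨he1⟩
    rw [Units.val_one, ZMod.val_one]
    refine MonoidHom.ext fun n => ?_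
    rw [MonoidHom.pow_apply, pow_one]
  · intro h
    obtain ⟨k, -, hk⟩ := Finset.mem_image.mp h
    have h1 : z ^ (k : ZMod e).val = 1 := DFunLike.congr_fun hk n₀
    have h2 : r ∣ (k : ZMod e).val := orderOf_dvd_of_pow_eq_one h1
    have h3 : r ∣ 1 := by
      rw [← (hcop k : Nat.gcd _ _ = 1)]
      exact Nat.dvd_gcd h2 hre
    exact hr1 (Nat.dvd_one.mp h3)
  · have hsurj := ZMod.unitsMap_surjective hqe
    choose s hs using hsurj
    have hq0 : NeZero q := ⟨hq.ne_zero⟩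
    have h1 : Fintype.card (ZMod q)ˣ = q - 1 := by
      rw [ZMod.card_units_eq_totient, Nat.totient_prime hq]
    rw [← h1, ← Finset.card_univ]
    refine Finset.card_le_card_of_injOn (fun j => F (s j))
      (fun j _ => Finset.mem_coe.mpr (Finset.mem_image_of_mem F (Finset.mem_univ (s j)))) ?_
    intro j _ j' _ hjj
    have h2 : z ^ (s j : ZMod e).val = z ^ (s j' : ZMod e).val := DFunLike.congr_fun hjj n₀
    have h3 : ω ^ (s j : ZMod e).val = ω ^ (s j' : ZMod e).val := by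
      rw [← pow_mul, mul_comm, pow_mul, h2, ← pow_mul, mul_comm, pow_mul]
    have h4 : (s j : ZMod e).val ≡ (s j' : ZMod e).val [MOD q] := by
      rw [← hω]
      exact pow_eq_pow_iff_modEq.mp h3
    rw [← hs j, ← hs j']
    apply Units.ext
    rw [ZMod.unitsMap_val, ZMod.unitsMap_val, ZMod.cast_eq_val, ZMod.cast_eq_val]
    exact (ZMod.natCast_eq_natCast_iff _ _ _).mpr h4
  · intro ν hν
    obtain ⟨k, -, rfl⟩ := Finset.mem_image.mp hν
    exact ⟨_, hcop k, rfl⟩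

variable {G : Type} [Group G] [Finite G] {E : Type} [Field E] [NumberField E]
  {ℓ : (G → ℂ) → ℂ → ℂ} {P : (E →+* ℂ) → (G → ℂ) → ℂ} {c : ℂ}

/-- the support of the orders is stable under the Galois group -/
lemma supp_pow {ζ : E} (hζ : IsPrimitiveRoot ζ (Monoid.exponent G))
    (hL : ∀ χ ∈ Irr G, MeromorphicAt (ℓ χ) c ∧ meromorphicOrderAt (ℓ χ) c ≠ ⊤)
    (hP : ∀ τ, ∀ χ ∈ Irr G, P τ χ ≠ 0)
    (hmon : ∀ (U : Subgroup G) (ψ : U →* Eˣ),
      Deligne (fun _ => ℓ) P c (ind U (fun u => ((ψ u : Eˣ) : E)))) (τ₀ : E →+* ℂ)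
    (U : Subgroup G) (ψ : U →* ℂˣ) {k : ℕ} (hk : k.Coprime (Monoid.exponent G)) :
    pr (theta (ords ℓ c) : G → ℂ) (ind U (lc ψ)) = 0 ↔
      pr (theta (ords ℓ c) : G → ℂ) (ind U (lc (ψ ^ k))) = 0 := by
  have hne : NeZero (Monoid.exponent G) := ⟨Monoid.exponent_ne_zero_of_finite⟩
  obtain ⟨ψE, hψE⟩ := lift_char hζ τ₀ U ψ
  obtain ⟨e, he⟩ := delZ_ind (hmon U ψE)
  obtain ⟨τ, hτ⟩ := exists_emb hζ (Nat.pos_of_ne_zero hne.ne) τ₀ hk
  rw [unit_iff hL hP he τ₀ hψE, unit_iff hL hP he τ]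
  intro u
  have h1 : ((ψE u : Eˣ) : E) ^ Monoid.exponent G = 1 := by
    have h2 : u ^ Monoid.exponent G = 1 := by
      apply Subtype.ext
      rw [Subgroup.coe_pow, Monoid.pow_exponent_eq_one]
      rfl
    rw [← Units.val_pow_eq_pow_val, ← map_pow, h2, map_one, Units.val_one]
  obtain ⟨i, -, hi⟩ := hζ.eq_pow_of_pow_eq_one h1
  have h3 := hψE u
  rw [← hi, map_pow] at h3
  rw [← hi, map_pow, hτ, MonoidHom.pow_apply, Units.val_pow_eq_pow_val, ← h3, ← pow_mul, ← pow_mul,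
    mul_comm]

lemma part_at_one {θ : G → ℂ} (hc : ∀ g x : G, θ (x * g * x⁻¹) = θ g) (N : Subgroup G)
    (μ : N →* ℂˣ) : part N μ θ 1 = pr θ (ind N (lc μ)) := by
  classical
  have : Fintype N := Fintype.ofFinite N
  rw [frob' N _ hc, part_eq, pr_eq]
  congr 1
  refine Finset.sum_congr rfl fun n _ => ?_
  rw [one_mul]
  change _ = θ n * ((μ n⁻¹ : ℂˣ) : ℂ)
  rw [map_inv]

/-- for rational coefficients and small growth the new zeros are simple -/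
theorem simple_of_rat {ζ : E} (hζ : IsPrimitiveRoot ζ (Monoid.exponent G))
    (hL : ∀ χ ∈ Irr G, MeromorphicAt (ℓ χ) c ∧ meromorphicOrderAt (ℓ χ) c ≠ ⊤)
    (hP : ∀ τ, ∀ χ ∈ Irr G, P τ χ ≠ 0)
    (hmon : ∀ (U : Subgroup G) (ψ : U →* Eˣ),
      Deligne (fun _ => ℓ) P c (ind U (fun u => ((ψ u : Eˣ) : E)))) (τ₀ : E →+* ℂ)
    (N : Subgroup G)
    (hK : ∀ k ∈ ⁅N, N⁆, (theta (ords ℓ c) : G → ℂ) k = (theta (ords ℓ c) : G → ℂ) 1)
    {a b : ℕ} (ha : (theta (ords ℓ c) : G → ℂ) 1 = a)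
    (hb : pr (theta (ords ℓ c) : G → ℂ) (ind N (lc 1)) = b)
    (hab : ∀ p : ℕ, p.Prime → p ∣ Nat.card N → a < b + p) :
    ∀ μ : N →* ℂˣ, μ ≠ 1 → ∀ d : ℕ,
      pr (theta (ords ℓ c) : G → ℂ) (ind N (lc μ)) = d → d ≤ 1 := by
  classical
  intro μ hμ d hd
  by_contra hcon
  push Not at hcon
  have hL' : ∀ τ : E →+* ℂ, ∀ χ ∈ Irr G, MeromorphicAt ((fun _ : E →+* ℂ => ℓ) τ χ) c ∧
      meromorphicOrderAt ((fun _ : E →+* ℂ => ℓ) τ χ) c ≠ ⊤ := fun _ => hL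
  have hθ : HA (theta (ords ℓ c) : G → ℂ) := ha_ords hζ hL' hmon τ₀
  have : Fintype (N →* ℂˣ) := Fintype.ofFinite _
  choose D hD using fun ν : N →* ℂˣ => hθ.nat N ν
  have hsum : a = ∑ ν : N →* ℂˣ, D ν := by
    have h1 := sum_part_at N (f := (theta (ords ℓ c) : G → ℂ)) 1
      (fun k hk => by rw [one_mul]; exact hK k hk)
    rw [ha] at h1
    have h2 : ∀ ν : N →* ℂˣ, part N ν (theta (ords ℓ c) : G → ℂ) 1 = D ν := by
      intro ν
      rw [part_at_one hθ.conj]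
      exact hD ν
    rw [Finset.sum_congr rfl (fun ν _ => h2 ν)] at h1
    exact_mod_cast h1.symm
  have hD1 : D 1 = b := by
    have h1 := hD 1
    change pr (theta (ords ℓ c) : G → ℂ) (ind N (lc 1)) = _ at h1
    rw [hb] at h1
    exact_mod_cast h1.symm
  have hDμ : D μ = d := by
    have h1 := hD μ
    change pr (theta (ords ℓ c) : G → ℂ) (ind N (lc μ)) = _ at h1
    rw [hd] at h1
    exact_mod_cast h1.symm
  have he : Monoid.exponent G ≠ 0 := Monoid.exponent_ne_zero_of_finite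
  obtain ⟨q, hq, hqN, S, hμS, h1S, hcard, hS⟩ := conj_count μ hμ he (by
    intro n
    apply Subtype.ext
    rw [Subgroup.coe_pow, Monoid.pow_exponent_eq_one]
    rfl)
  have hpos : ∀ ν ∈ S, 1 ≤ D ν := by
    intro ν hν
    obtain ⟨k, hk, rfl⟩ := hS ν hν
    by_contra h0
    have h1 : D (μ ^ k) = 0 := by omega
    have h2 := hD (μ ^ k)
    rw [h1, Nat.cast_zero] at h2
    have h3 := (supp_pow hζ hL hP hmon τ₀ N μ hk).mpr h2
    rw [hd] at h3
    have h4 : d = 0 := by exact_mod_cast h3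
    omega
  have h1 : q ≤ ∑ ν ∈ S, D ν := by
    rw [← Finset.add_sum_erase S D hμS]
    have h2 : (S.erase μ).card ≤ ∑ ν ∈ S.erase μ, D ν := by
      rw [Finset.card_eq_sum_ones]
      exact Finset.sum_le_sum fun ν hν => hpos ν (Finset.mem_of_mem_erase hν)
    rw [Finset.card_erase_of_mem hμS] at h2
    have h3 := hq.two_le
    omega
  have h2 : D 1 + ∑ ν ∈ S, D ν ≤ ∑ ν : N →* ℂˣ, D ν := by
    rw [← Finset.add_sum_erase Finset.univ D (Finset.mem_univ 1)]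
    refine Nat.add_le_add_left (Finset.sum_le_sum_of_subset ?_) _
    intro ν hν
    exact Finset.mem_erase.mpr ⟨fun h => h1S (h ▸ hν), Finset.mem_univ _⟩
  have h3 := hab q hq hqN
  omega

/-- **Small growth, rational coefficients.** -/
theorem main_ratgrow {ζ : E} (hζ : IsPrimitiveRoot ζ (Monoid.exponent G))
    (hL : ∀ χ ∈ Irr G, MeromorphicAt (ℓ χ) c ∧ meromorphicOrderAt (ℓ χ) c ≠ ⊤)
    (hP : ∀ τ, ∀ χ ∈ Irr G, P τ χ ≠ 0)
    (hmon : ∀ (U : Subgroup G) (ψ : U →* Eˣ),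
      Deligne (fun _ => ℓ) P c (ind U (fun u => ((ψ u : Eˣ) : E))))
    {deg : (G → ℂ) → ℕ} (hdeg : ∀ χ ∈ Irr G, χ 1 = deg χ)
    (N : Subgroup G) [hN : N.Normal] (hNs : Group.IsSolvable N) {m₁ : (G → ℂ) → ℕ}
    (hm₁ : IsDecomp (ind N (fun _ => (1 : ℂ))) m₁)
    (hz : ∀ p : ℕ, p.Prime → p ∣ Nat.card N →
      meromorphicOrderAt (fun s => ∏ᶠ χ ∈ Irr G, ℓ χ s ^ deg χ) c <
      meromorphicOrderAt (fun s => ∏ᶠ χ ∈ Irr G, ℓ χ s ^ m₁ χ) c + p)
    (hold : ∀ (W : Type) [AddCommGroup W] [Module ℚ W] [FiniteDimensional ℚ W]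
      (σ : Representation ℚ G W), (∀ k ∈ N, ∀ w, σ k w = w) →
      Deligne (fun _ => ℓ) P c (fun g => algebraMap ℚ E (σ.character g)))
    {V : Type} [AddCommGroup V] [Module ℚ V] [FiniteDimensional ℚ V] (ρ : Representation ℚ G V) :
    Deligne (fun _ => ℓ) P c (fun g => algebraMap ℚ E (ρ.character g)) := by
  classical
  obtain ⟨τ₀⟩ : Nonempty (E →+* ℂ) := inferInstance
  have hL' : ∀ τ : E →+* ℂ, ∀ χ ∈ Irr G, MeromorphicAt ((fun _ : E →+* ℂ => ℓ) τ χ) c ∧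
      meromorphicOrderAt ((fun _ : E →+* ℂ => ℓ) τ χ) c ≠ ⊤ := fun _ => hL
  have hone' : (fun x : N => (((1 : N →* ℂˣ) x : ℂˣ) : ℂ)) = fun _ => (1 : ℂ) := by
    funext x
    simp
  have hθ : HA (theta (ords ℓ c) : G → ℂ) := ha_ords hζ hL' hmon τ₀
  have hK := small_ords (L := fun _ : E →+* ℂ => ℓ) hζ hL' (fun U ψ _ => hmon U ψ) τ₀ hdeg N hNs
    (1 : N →* ℂˣ) (m := m₁) (by rw [hone']; exact hm₁) hz
  obtain ⟨a, ha⟩ : ∃ a : ℕ, (theta (ords ℓ c) : G → ℂ) 1 = a := by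
    have hh : HH (theta (ords ℓ c) : G → ℂ) :=
      { conj := hθ.conj
        nat := fun U ψ _ => hθ.nat U ψ }
    exact hh.deg
  obtain ⟨b, hb⟩ := hθ.nat N 1
  have hb' : pr (theta (ords ℓ c) : G → ℂ) (ind N (lc 1)) = b := hb
  have hab : ∀ p : ℕ, p.Prime → p ∣ Nat.card N → a < b + p := by
    intro p hp hpd
    have h1 := hz p hp hpd
    have htop := top_order hL deg
    have hone := theta_one_eq (c := c) (l := ℓ) hdeg
    have ha' : (∑ χ ∈ irrF G, (deg χ : ℤ) * ords ℓ c χ) = (a : ℤ) := by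
      rw [ha] at hone
      exact_mod_cast hone.symm
    obtain ⟨z, hz1, hz2⟩ := order_eq_pr (L := fun _ : E →+* ℂ => ℓ) hL' τ₀ hm₁
    have hzb : z = b := by
      rw [hone'] at hb
      have h2 : (z : ℂ) = ((b : ℤ) : ℂ) := by rw [← hz2, hb]; simp
      exact_mod_cast h2
    rw [htop, ha', hz1, hzb] at h1
    have h3 : (a : ℤ) < (b : ℤ) + (p : ℤ) := by exact_mod_cast h1
    exact_mod_cast h3
  have hs := simple_of_rat hζ hL hP hmon τ₀ N hK ha hb' hab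
  have hcore := core_simple hθ (theta_virt _) hK hs (cch_mem ρ)
  -- the old part
  obtain ⟨W, σ, hσ, hσc⟩ := isotypic (E := ℚ) (Rat.castHom ℂ) N 1 ρ
  have hF : ∀ (X : Type) [AddCommGroup X] [Module ℚ X] [FiniteDimensional ℚ X]
      (κ : Representation ℚ G X) (τ : E →+* ℂ),
      (fun g => τ (algebraMap ℚ E (κ.character g))) = cch κ := by
    intro X _ _ _ κ τ
    funext g
    rw [eq_ratCast, map_ratCast]
    rfl
  obtain ⟨e₀, he₀⟩ := (hold W σ (fun k hk w => by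
    have := hσ k hk w
    simpa using this)).delZ (fun τ => by
      rw [hF]
      exact decomp_of_closure (cch_mem σ))
  refine finishA hζ hL' hP hmon τ₀ he₀ ?_
  rw [hF, hF]
  have h1 : cch σ = inv N (cch ρ) := by
    funext g
    have h2 := hσc g
    have h3 : ((Units.map (Rat.castHom ℂ).toMonoidHom).comp (1 : G →* ℚˣ)) = 1 := by
      ext x
      simp
    rw [h3] at h2
    change (Rat.castHom ℂ) (σ.character g)
      = inv N (fun g => (Rat.castHom ℂ) (ρ.character g) * (((1 : G →* ℂˣ)⁻¹ g : ℂˣ) : ℂ)) g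
      * (((1 : G →* ℂˣ) g : ℂˣ) : ℂ) at h2
    simp only [MonoidHom.inv_apply, inv_one, MonoidHom.one_apply, Units.val_one, mul_one] at h2
    exact h2
  rw [h1]
  exact hcore

/-- **Small growth, the rational form.** -/
theorem main_ratgrow' {ζ : E} (hζ : IsPrimitiveRoot ζ (Monoid.exponent G))
    (hL : ∀ χ ∈ Irr G, MeromorphicAt (ℓ χ) c ∧ meromorphicOrderAt (ℓ χ) c ≠ ⊤)
    (hP : ∀ τ, ∀ χ ∈ Irr G, P τ χ ≠ 0)
    (hmon : ∀ (U : Subgroup G) (ψ : U →* Eˣ),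
      Deligne (fun _ => ℓ) P c (ind U (fun u => ((ψ u : Eˣ) : E))))
    {deg : (G → ℂ) → ℕ} (hdeg : ∀ χ ∈ Irr G, χ 1 = deg χ)
    (N : Subgroup G) [hN : N.Normal] (hNs : Group.IsSolvable N) {m₁ : (G → ℂ) → ℕ}
    (hm₁ : IsDecomp (ind N (fun _ => (1 : ℂ))) m₁)
    (hz : ∀ p : ℕ, p.Prime → p ∣ Nat.card N →
      meromorphicOrderAt (fun s => ∏ᶠ χ ∈ Irr G, ℓ χ s ^ deg χ) c <
      meromorphicOrderAt (fun s => ∏ᶠ χ ∈ Irr G, ℓ χ s ^ m₁ χ) c + p)
    (hold : ∀ (W : Type) [AddCommGroup W] [Module ℚ W] [FiniteDimensional ℚ W]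
      (σ : Representation ℚ G W), (∀ k ∈ N, ∀ w, σ k w = w) →
      Deligne (fun _ => ℓ) P c (fun g => algebraMap ℚ E (σ.character g)))
    {V : Type} [AddCommGroup V] [Module ℚ V] [FiniteDimensional ℚ V] (ρ : Representation ℚ G V)
    {m : (G → ℂ) → ℕ} (hm : IsDecomp (fun g => ((ρ.character g : ℚ) : ℂ)) m)
    {Ω : ℂ} {u : E} (hΩ : ∀ τ : E →+* ℂ, ∏ᶠ χ ∈ Irr G, P τ χ ^ m χ = τ u * Ω) :
    ∃ q : ℚ, Tendsto (fun s => ∏ᶠ χ ∈ Irr G, ℓ χ s ^ m χ) (𝓝[≠] c) (𝓝 (q * Ω)) := by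
  classical
  obtain ⟨e, he⟩ := main_ratgrow hζ hL hP hmon hdeg N hNs hm₁ hz hold ρ
  have hF : ∀ τ : E →+* ℂ, (fun g => τ (algebraMap ℚ E (ρ.character g)))
      = fun g => ((ρ.character g : ℚ) : ℂ) := by
    intro τ
    funext g
    rw [eq_ratCast, map_ratCast]
  have h1 : ∀ τ : E →+* ℂ, Tendsto (fun s => ∏ᶠ χ ∈ Irr G, ℓ χ s ^ m χ) (𝓝[≠] c)
      (𝓝 (τ (e * u) * Ω)) := by
    intro τ
    have h2 := he τ m (by rw [hF]; exact hm)
    rw [hΩ, ← mul_assoc, ← map_mul] at h2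
    exact h2
  obtain ⟨τ₀⟩ : Nonempty (E →+* ℂ) := inferInstance
  have hΩ0 : Ω ≠ 0 := by
    intro h0
    have h2 := hΩ τ₀
    rw [h0, mul_zero, finprod_irr (fun χ => P τ₀ χ ^ m χ)] at h2
    exact Finset.prod_ne_zero_iff.mpr (fun χ hχ => pow_ne_zero _ (hP τ₀ χ (mem_irrF.mp hχ))) h2
  obtain ⟨q, hq⟩ := rat_of_embeddings (e * u) (τ₀ (e * u)) (fun τ => by
    have h2 := tendsto_nhds_unique (h1 τ) (h1 τ₀)
    exact mul_right_cancel₀ hΩ0 h2)
  refine ⟨q, ?_⟩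
  have h2 := h1 τ₀
  rw [← hq, eq_ratCast, map_ratCast] at h2
  exact h2

end Pool.Agent.R389
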